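import Pool.Agent.Lib.MP_9cec2c_lc.SL.Lev

/-!
TASK RepGood: the invariant of the representation.

`fm_size_pos`: induction.
`rep_good`: induction on `A`. Write `n = A.size`. Leaves: closed, size `1 ≤ τ`. For `A ∘ B`
(`∘` = and, or; `(A ∘ B).size = n₁ + n₂`), by cases:
* cl, cl small: closed. cl, cl big (`n₁ + n₂ > τ`): `K0 = ff`, `K1 = tt` of size `1`, labels `A`, `B`,
  `r = 2`: `8 τ + 8 ≤ 8 (n₁ + n₂ + 1)`.
* op K0 K1 G, cl B small (`|K0| + |B| ≤ τ`): sizes of `K0 ∘ B`, `K1 ∘ B` are equal, `≤ τ`;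
  `τ (r + 6) + 8 (|K0| + |B|) ≤ 8 (n₁ + 1) + 8 |B|`.
* op, cl big (`|K0| + |B| ≥ τ + 1`): the new skeleton has `r + 2 + 1` leaves;
  `τ (r + 9) + 8 ≤ 8 (n₁ + 1) - 8 |K0| + 3 τ + 8 ≤ 8 (n₁ + |B| + 1)` because
  `8 |K0| + 8 |B| ≥ 8 τ + 8`. Labels: `K0`, `K1`, `B` and those of `G`, all of size `≤ τ`.
* cl, op: symmetric.
* op, op: `r + 2 + r' + 2` leaves: `τ (r + r' + 10) + 8 ≤ 8 (n₁ + 1) + 8 (n₂ + 1) - 8|K0| - 8|K0'| + 8
  ≤ 8 (n₁ + n₂ + 1)` since `|K0|, |K0'| ≥ 1` (drop `2 τ`).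
(`Fin.append` labels: `Fin.addCases`.)
`rep_small`: by induction, `A.size ≤ τ` implies that both parts are closed and `combAnd` takes the
branch `cl`.
`rep_sk_lab`: all labels of the skeleton have size `≤ τ`. `rep_sk_r`: for an open representation
`τ (G.r + 2) ≤ 8 A.size`; for a closed one `r = 1`. So `r ≤ 8 M` if `A.size ≤ M τ`, `1 ≤ M`.
-/

set_option autoImplicit false

open Finset

namespace Pool.Agent.MP_9cec2c_lc.SL

variable {Λ : Type}

theorem fm_size_pos (A : Fm Λ) : 1 ≤ A.size := by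
  induction A with
  | lit l => exact le_refl 1
  | tt => exact le_refl 1
  | ff => exact le_refl 1
  | and A B hA hB =>
    show 1 ≤ A.size + B.size
    omega
  | or A B hA hB =>
    show 1 ≤ A.size + B.size
    omega

private theorem RepGood_append {g h : Sk (Fm Λ)} {τ : ℕ} (hg : ∀ i, (g.lab i).size ≤ τ)
    (hh : ∀ i, (h.lab i).size ≤ τ) :
    ∀ i : Fin (g.r + h.r), (Fin.append g.lab h.lab i).size ≤ τ := by
  intro i
  refine Fin.addCases (fun j => ?_) (fun j => ?_) i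
  · rw [Fin.append_left]
    exact hg j
  · rw [Fin.append_right]
    exact hh j

private theorem RepGood_and {g h : Sk (Fm Λ)} {τ : ℕ} (hg : ∀ i, (g.lab i).size ≤ τ)
    (hh : ∀ i, (h.lab i).size ≤ τ) : ∀ i, ((Sk.and g h).lab i).size ≤ τ :=
  RepGood_append hg hh

private theorem RepGood_or {g h : Sk (Fm Λ)} {τ : ℕ} (hg : ∀ i, (g.lab i).size ≤ τ)
    (hh : ∀ i, (h.lab i).size ≤ τ) : ∀ i, ((Sk.or g h).lab i).size ≤ τ :=
  RepGood_append hg hh

private theorem RepGood_leaf {A : Fm Λ} {τ : ℕ} (hA : A.size ≤ τ) :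
    ∀ i, ((Sk.leaf A).lab i).size ≤ τ := fun _ => hA

private theorem RepGood_close {K0 K1 : Fm Λ} {G : Sk (Fm Λ)} {τ : ℕ} (h0 : K0.size ≤ τ)
    (h1 : K1.size ≤ τ) (hG : ∀ i, (G.lab i).size ≤ τ) :
    ∀ i, ((close K0 K1 G).lab i).size ≤ τ :=
  RepGood_or (RepGood_leaf h0) (RepGood_and hG (RepGood_leaf h1))

private theorem RepGood_close_r (K0 K1 : Fm Λ) (G : Sk (Fm Λ)) :
    (close K0 K1 G).r = G.r + 2 := by
  show 1 + (G.r + 1) = G.r + 2
  omega

/-- The conjunction of two representations is good. -/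
private theorem RepGood_combAnd {τ : ℕ} (hτ : 1 ≤ τ) {A B : Fm Λ} {P Q : Rep Λ}
    (hP : P.Good τ A) (hQ : Q.Good τ B) : (Rep.combAnd τ P Q).Good τ (A.and B) := by
  have hs : (A.and B).size = A.size + B.size := rfl
  rcases P with A' | ⟨K0, K1, G⟩ <;> rcases Q with B' | ⟨K0', K1', G'⟩
  · obtain ⟨rfl, hA⟩ := hP
    obtain ⟨rfl, hB⟩ := hQ
    show (if A'.size + B'.size ≤ τ then Rep.cl (A'.and B') else
      Rep.op Fm.ff Fm.tt (Sk.and (Rep.cl A').sk (Rep.cl B').sk)).Good τ (A'.and B')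
    split_ifs with h
    · exact ⟨rfl, h⟩
    · refine ⟨rfl, hτ, RepGood_and (RepGood_leaf hA) (RepGood_leaf hB), ?_⟩
      rw [hs]
      show τ * (1 + 1 + 6) + 8 * 1 ≤ 8 * (A'.size + B'.size + 1)
      omega
  · obtain ⟨rfl, hA⟩ := hP
    obtain ⟨h01, h0, hG, hr⟩ := hQ
    show (if A'.size + K0'.size ≤ τ then Rep.op (A'.and K0') (A'.and K1') G' else
      Rep.op Fm.ff Fm.tt (Sk.and (Rep.cl A').sk (Rep.op K0' K1' G').sk)).Good τ (A'.and B)
    split_ifs with h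
    · refine ⟨?_, h, hG, ?_⟩
      · show A'.size + K0'.size = A'.size + K1'.size
        rw [h01]
      · rw [hs]
        show τ * (G'.r + 6) + 8 * (A'.size + K0'.size) ≤ 8 * (A'.size + B.size + 1)
        omega
    · refine ⟨rfl, hτ, RepGood_and (RepGood_leaf hA) (RepGood_close h0 (h01 ▸ h0) hG), ?_⟩
      rw [hs]
      show τ * (1 + (1 + (G'.r + 1)) + 6) + 8 * 1 ≤ 8 * (A'.size + B.size + 1)
      have e1 : τ * (1 + (1 + (G'.r + 1)) + 6) = τ * (G'.r + 6) + 3 * τ := by ring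
      omega
  · obtain ⟨rfl, hB⟩ := hQ
    obtain ⟨h01, h0, hG, hr⟩ := hP
    show (if K0.size + B'.size ≤ τ then Rep.op (K0.and B') (K1.and B') G else
      Rep.op Fm.ff Fm.tt (Sk.and (Rep.op K0 K1 G).sk (Rep.cl B').sk)).Good τ (A.and B')
    split_ifs with h
    · refine ⟨?_, h, hG, ?_⟩
      · show K0.size + B'.size = K1.size + B'.size
        rw [h01]
      · rw [hs]
        show τ * (G.r + 6) + 8 * (K0.size + B'.size) ≤ 8 * (A.size + B'.size + 1)
        omega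
    · refine ⟨rfl, hτ, RepGood_and (RepGood_close h0 (h01 ▸ h0) hG) (RepGood_leaf hB), ?_⟩
      rw [hs]
      show τ * (1 + (G.r + 1) + 1 + 6) + 8 * 1 ≤ 8 * (A.size + B'.size + 1)
      have e1 : τ * (1 + (G.r + 1) + 1 + 6) = τ * (G.r + 6) + 3 * τ := by ring
      omega
  · obtain ⟨h01, h0, hG, hr⟩ := hP
    obtain ⟨h01', h0', hG', hr'⟩ := hQ
    have h1 := fm_size_pos K0
    have h2 := fm_size_pos K0'
    refine ⟨rfl, hτ, RepGood_and (RepGood_close h0 (h01 ▸ h0) hG)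
      (RepGood_close h0' (h01' ▸ h0') hG'), ?_⟩
    rw [hs]
    show τ * (1 + (G.r + 1) + (1 + (G'.r + 1)) + 6) + 8 * 1 ≤ 8 * (A.size + B.size + 1)
    have e1 : τ * (1 + (G.r + 1) + (1 + (G'.r + 1)) + 6) + 2 * τ =
      τ * (G.r + 6) + τ * (G'.r + 6) := by ring
    omega

/-- The disjunction of two representations is good. -/
private theorem RepGood_combOr {τ : ℕ} (hτ : 1 ≤ τ) {A B : Fm Λ} {P Q : Rep Λ}
    (hP : P.Good τ A) (hQ : Q.Good τ B) : (Rep.combOr τ P Q).Good τ (A.or B) := by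
  have hs : (A.or B).size = A.size + B.size := rfl
  rcases P with A' | ⟨K0, K1, G⟩ <;> rcases Q with B' | ⟨K0', K1', G'⟩
  · obtain ⟨rfl, hA⟩ := hP
    obtain ⟨rfl, hB⟩ := hQ
    show (if A'.size + B'.size ≤ τ then Rep.cl (A'.or B') else
      Rep.op Fm.ff Fm.tt (Sk.or (Rep.cl A').sk (Rep.cl B').sk)).Good τ (A'.or B')
    split_ifs with h
    · exact ⟨rfl, h⟩
    · refine ⟨rfl, hτ, RepGood_or (RepGood_leaf hA) (RepGood_leaf hB), ?_⟩
      rw [hs]
      show τ * (1 + 1 + 6) + 8 * 1 ≤ 8 * (A'.size + B'.size + 1)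
      omega
  · obtain ⟨rfl, hA⟩ := hP
    obtain ⟨h01, h0, hG, hr⟩ := hQ
    show (if A'.size + K0'.size ≤ τ then Rep.op (A'.or K0') (A'.or K1') G' else
      Rep.op Fm.ff Fm.tt (Sk.or (Rep.cl A').sk (Rep.op K0' K1' G').sk)).Good τ (A'.or B)
    split_ifs with h
    · refine ⟨?_, h, hG, ?_⟩
      · show A'.size + K0'.size = A'.size + K1'.size
        rw [h01]
      · rw [hs]
        show τ * (G'.r + 6) + 8 * (A'.size + K0'.size) ≤ 8 * (A'.size + B.size + 1)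
        omega
    · refine ⟨rfl, hτ, RepGood_or (RepGood_leaf hA) (RepGood_close h0 (h01 ▸ h0) hG), ?_⟩
      rw [hs]
      show τ * (1 + (1 + (G'.r + 1)) + 6) + 8 * 1 ≤ 8 * (A'.size + B.size + 1)
      have e1 : τ * (1 + (1 + (G'.r + 1)) + 6) = τ * (G'.r + 6) + 3 * τ := by ring
      omega
  · obtain ⟨rfl, hB⟩ := hQ
    obtain ⟨h01, h0, hG, hr⟩ := hP
    show (if K0.size + B'.size ≤ τ then Rep.op (K0.or B') (K1.or B') G else
      Rep.op Fm.ff Fm.tt (Sk.or (Rep.op K0 K1 G).sk (Rep.cl B').sk)).Good τ (A.or B')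
    split_ifs with h
    · refine ⟨?_, h, hG, ?_⟩
      · show K0.size + B'.size = K1.size + B'.size
        rw [h01]
      · rw [hs]
        show τ * (G.r + 6) + 8 * (K0.size + B'.size) ≤ 8 * (A.size + B'.size + 1)
        omega
    · refine ⟨rfl, hτ, RepGood_or (RepGood_close h0 (h01 ▸ h0) hG) (RepGood_leaf hB), ?_⟩
      rw [hs]
      show τ * (1 + (G.r + 1) + 1 + 6) + 8 * 1 ≤ 8 * (A.size + B'.size + 1)
      have e1 : τ * (1 + (G.r + 1) + 1 + 6) = τ * (G.r + 6) + 3 * τ := by ring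
      omega
  · obtain ⟨h01, h0, hG, hr⟩ := hP
    obtain ⟨h01', h0', hG', hr'⟩ := hQ
    have h1 := fm_size_pos K0
    have h2 := fm_size_pos K0'
    refine ⟨rfl, hτ, RepGood_or (RepGood_close h0 (h01 ▸ h0) hG)
      (RepGood_close h0' (h01' ▸ h0') hG'), ?_⟩
    rw [hs]
    show τ * (1 + (G.r + 1) + (1 + (G'.r + 1)) + 6) + 8 * 1 ≤ 8 * (A.size + B.size + 1)
    have e1 : τ * (1 + (G.r + 1) + (1 + (G'.r + 1)) + 6) + 2 * τ =
      τ * (G.r + 6) + τ * (G'.r + 6) := by ring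
    omega

theorem rep_good {τ : ℕ} (hτ : 1 ≤ τ) (A : Fm Λ) : (rep τ A).Good τ A := by
  induction A with
  | lit l => exact ⟨rfl, hτ⟩
  | tt => exact ⟨rfl, hτ⟩
  | ff => exact ⟨rfl, hτ⟩
  | and A B hA hB => exact RepGood_combAnd hτ hA hB
  | or A B hA hB => exact RepGood_combOr hτ hA hB

theorem rep_small {τ : ℕ} (A : Fm Λ) (hA : A.size ≤ τ) : rep τ A = Rep.cl A := by
  induction A with
  | lit l => rfl
  | tt => rfl
  | ff => rfl
  | and A B hA' hB' =>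
    have h : A.size + B.size ≤ τ := hA
    show Rep.combAnd τ (rep τ A) (rep τ B) = Rep.cl (A.and B)
    rw [hA' (by omega), hB' (by omega)]
    show (if A.size + B.size ≤ τ then Rep.cl (A.and B) else
      Rep.op Fm.ff Fm.tt (Sk.and (Rep.cl A).sk (Rep.cl B).sk)) = Rep.cl (A.and B)
    rw [if_pos h]
  | or A B hA' hB' =>
    have h : A.size + B.size ≤ τ := hA
    show Rep.combOr τ (rep τ A) (rep τ B) = Rep.cl (A.or B)
    rw [hA' (by omega), hB' (by omega)]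
    show (if A.size + B.size ≤ τ then Rep.cl (A.or B) else
      Rep.op Fm.ff Fm.tt (Sk.or (Rep.cl A).sk (Rep.cl B).sk)) = Rep.cl (A.or B)
    rw [if_pos h]

theorem rep_sk_lab {τ : ℕ} (hτ : 1 ≤ τ) (A : Fm Λ) (i : Fin (rep τ A).sk.r) :
    ((rep τ A).sk.lab i).size ≤ τ := by
  have h := rep_good hτ A
  revert i h
  generalize rep τ A = P
  intro i h
  rcases P with A' | ⟨K0, K1, G⟩
  · obtain ⟨rfl, hA⟩ := h
    exact hA
  · obtain ⟨h01, h0, hG, hr⟩ := h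
    exact RepGood_close h0 (h01 ▸ h0) hG i

theorem rep_sk_r {τ M : ℕ} (hτ : 1 ≤ τ) (hM : 1 ≤ M) (A : Fm Λ) (hA : A.size ≤ M * τ) :
    (rep τ A).sk.r ≤ 8 * M := by
  have h := rep_good hτ A
  revert h
  generalize rep τ A = P
  intro h
  rcases P with A' | ⟨K0, K1, G⟩
  · show 1 ≤ 8 * M
    omega
  · obtain ⟨h01, h0, hG, hr⟩ := h
    show (close K0 K1 G).r ≤ 8 * M
    rw [RepGood_close_r]
    have h1 := fm_size_pos K0
    have h2 : τ * (G.r + 2) ≤ τ * (8 * M) := by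
      have e1 : τ * (G.r + 6) = τ * (G.r + 2) + 4 * τ := by ring
      have e2 : τ * (8 * M) = 8 * (M * τ) := by ring
      omega
    exact Nat.le_of_mul_le_mul_left h2 (by omega)

end Pool.Agent.MP_9cec2c_lc.SL
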