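import Pool.Agent.Lib.MP_9cec2c_lc.SL.Contr
import Pool.Agent.Lib.MP_9cec2c_lc.SL.RepGood

/-!
TASK Dual: duals and exact values. `P_A = v A`, `|A| ≤ s`. All norms at the element `1`
(`hv.and .. 1`, `N_one`).

`dual_rel`: claim `N(e_A) ≤ 2 ε (|A| - 1) (1 + 4ε)^|A|`, `e_A = P_{dual A} - (1 - P_A) ∈ F c`, by induction.
Literals, constants: `e = 0`. `A = B ∧ C`: `dual A = dual B ∨ dual C` (same sizes), up to two errors
`ε` (`hv.or`, `hv.and`) `e_A` is `P_{dB} + P_{dC} - P_{dB} P_{dC} - (1 - P_B P_C)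
= -((P_B - e_B)(P_C - e_C) - P_B P_C) = P_C e_B + (1 - P_{dB}) e_C`, and the factors `P_C`, `1 - P_{dB}`
are contractions up to `1 + 4ε` (`bit_contr`, applied to `e ∈ F c`, `c + c ≤ L`). Hence
`N(e_A) ≤ (1 + 4ε)(N(e_B) + N(e_C)) + 2ε`. `A = B ∨ C`: `dual A = dual B ∧ dual C`,
`P_{dB} P_{dC} - (1 - P_B)(1 - P_C)` (`1 - (P_B + P_C - P_B P_C) = (1-P_B)(1-P_C)`)
`= e_B P_{dC} + (1 - P_B) e_C`: the same. Finally `(1+4ε)^s ≤ exp (4 s ε) ≤ e ≤ 4`.

`exact_rel`: the same for `e_A = P_A - Â`, `Â = A.val x`, an exact idempotent of `F |A|` (`val_idem`,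
`val_mem`): `A = B ∧ C`: `e_A = (P_A - P_B P_C) + e_B P_C + B̂ e_C`; `A = B ∨ C`: with
`P_B + P_C - P_B P_C = 1 - (1-P_B)(1-P_C)`:
`e_A = (P_A - (P_B + P_C - P_B P_C)) + e_B (1 - P_C) + (1 - B̂) e_C`; contractions `bit_contr` and `N_idem`.

`conj_rel`: claim `N(1 - P_A) ≤ (1+4ε)^|A| (|A| δ + (|A| - 1) ε)`, by induction:
`1 - P_{B∧C} = -(P_{B∧C} - P_B P_C) + (1 - P_B) P_C + (1 - P_C)`.
-/

set_option autoImplicit false

open Finset

namespace Pool.Agent.MP_9cec2c_lc.SL

/-- Conjunctions of formulas in `T`, with any bracketing. -/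
inductive Conj {Λ : Type} (T : Fm Λ → Prop) : Fm Λ → Prop
  | base (A : Fm Λ) (h : T A) : Conj T A
  | and (A B : Fm Λ) (hA : Conj T A) (hB : Conj T B) : Conj T (A.and B)

namespace World

variable {R : Type} [CommRing R] [Algebra ℝ R] (W : World R) {Λ : Type}

theorem val_idem {x : Λ → R} (hx : ∀ y, x y * x y = x y) (A : Fm Λ) :
    A.val x * A.val x = A.val x := by
  induction A with
  | lit l => exact hx l
  | tt => simp [Fm.val]
  | ff => simp [Fm.val]
  | and A B ihA ihB =>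
    show A.val x * B.val x * (A.val x * B.val x) = A.val x * B.val x
    calc A.val x * B.val x * (A.val x * B.val x) = (A.val x * A.val x) * (B.val x * B.val x) := by ring
      _ = A.val x * B.val x := by rw [ihA, ihB]
  | or A B ihA ihB =>
    show (A.val x + B.val x - A.val x * B.val x) * (A.val x + B.val x - A.val x * B.val x) =
      A.val x + B.val x - A.val x * B.val x
    linear_combination (1 - 2 * B.val x + B.val x * B.val x) * ihA + (1 - A.val x) * ihB

theorem val_mem {x : Λ → R} (hx : ∀ y, x y ∈ W.F 1) (A : Fm Λ) : A.val x ∈ W.F A.size := by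
  induction A with
  | lit l => exact hx l
  | tt => exact W.one_mem' 1
  | ff => exact Submodule.zero_mem _
  | and A B ihA ihB => exact W.mul_mem _ _ _ _ ihA ihB
  | or A B ihA ihB =>
    exact Submodule.sub_mem _ (Submodule.add_mem _ (W.F_mono _ _ (Nat.le_add_right _ _) ihA)
      (W.F_mono _ _ (Nat.le_add_left _ _) ihB)) (W.mul_mem _ _ _ _ ihA ihB)

private theorem Dual_size (neg : Λ → Λ) (A : Fm Λ) : (A.dual neg).size = A.size := by
  induction A with
  | lit l => rfl
  | tt => rfl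
  | ff => rfl
  | and A B ihA ihB => simp only [Fm.dual, Fm.size, ihA, ihB]
  | or A B ihA ihB => simp only [Fm.dual, Fm.size, ihA, ihB]

private theorem Dual_pow {ε : ℝ} {s n : ℕ} (hε : 0 ≤ ε) (hs : 4 * (s : ℝ) * ε ≤ 1) (hn : n ≤ s) :
    (1 + 4 * ε) ^ n ≤ 4 := by
  have h1 : (1 + 4 * ε) ≤ Real.exp (4 * ε) := by
    have := Real.add_one_le_exp (4 * ε)
    linarith
  calc (1 + 4 * ε) ^ n ≤ Real.exp (4 * ε) ^ n := pow_le_pow_left₀ (by positivity) h1 n
    _ = Real.exp (n * (4 * ε)) := (Real.exp_nat_mul _ _).symm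
    _ ≤ Real.exp 1 := Real.exp_le_exp.2 (by
        have h2 : (n : ℝ) ≤ s := by exact_mod_cast hn
        have h3 : (n : ℝ) * ε ≤ s * ε := mul_le_mul_of_nonneg_right h2 hε
        linarith)
    _ ≤ 4 := by
        have := Real.exp_one_lt_d9
        linarith

private theorem Dual_arith {ε a b κ : ℝ} {m n : ℕ} (hε : 0 ≤ ε) (hκ : 0 ≤ κ) (hm : 1 ≤ m) (hn : 1 ≤ n)
    (ha : a ≤ κ * ((m : ℝ) - 1) * (1 + 4 * ε) ^ m) (hb : b ≤ κ * ((n : ℝ) - 1) * (1 + 4 * ε) ^ n) :
    κ + (1 + 4 * ε) * (a + b) ≤ κ * (((m + n : ℕ) : ℝ) - 1) * (1 + 4 * ε) ^ (m + n) := by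
  have hY : (1 : ℝ) ≤ 1 + 4 * ε := by linarith
  have h1 : (1 : ℝ) ≤ (1 + 4 * ε) ^ (m + n) := one_le_pow₀ hY
  have h2 : (1 + 4 * ε) * (1 + 4 * ε) ^ m ≤ (1 + 4 * ε) ^ (m + n) := by
    rw [← pow_succ']
    exact pow_le_pow_right₀ hY (by omega)
  have h3 : (1 + 4 * ε) * (1 + 4 * ε) ^ n ≤ (1 + 4 * ε) ^ (m + n) := by
    rw [← pow_succ']
    exact pow_le_pow_right₀ hY (by omega)
  have hm' : (1 : ℝ) ≤ m := by exact_mod_cast hm
  have hn' : (1 : ℝ) ≤ n := by exact_mod_cast hn
  have h4 : (1 + 4 * ε) * a ≤ κ * ((m : ℝ) - 1) * (1 + 4 * ε) ^ (m + n) := by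
    calc (1 + 4 * ε) * a ≤ (1 + 4 * ε) * (κ * ((m : ℝ) - 1) * (1 + 4 * ε) ^ m) :=
          mul_le_mul_of_nonneg_left ha (by linarith)
      _ = κ * ((m : ℝ) - 1) * ((1 + 4 * ε) * (1 + 4 * ε) ^ m) := by ring
      _ ≤ _ := mul_le_mul_of_nonneg_left h2 (mul_nonneg hκ (by linarith))
  have h5 : (1 + 4 * ε) * b ≤ κ * ((n : ℝ) - 1) * (1 + 4 * ε) ^ (m + n) := by
    calc (1 + 4 * ε) * b ≤ (1 + 4 * ε) * (κ * ((n : ℝ) - 1) * (1 + 4 * ε) ^ n) :=
          mul_le_mul_of_nonneg_left hb (by linarith)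
      _ = κ * ((n : ℝ) - 1) * ((1 + 4 * ε) * (1 + 4 * ε) ^ n) := by ring
      _ ≤ _ := mul_le_mul_of_nonneg_left h3 (mul_nonneg hκ (by linarith))
  have h6 : κ ≤ κ * (1 + 4 * ε) ^ (m + n) := le_mul_of_one_le_right hκ h1
  push_cast
  nlinarith [h4, h5, h6]

private theorem Dual_contr {c L L' : ℕ} {ε : ℝ} {p : R} (hp : W.IsBit c ε L p) (hε : 0 ≤ ε)
    (hD : L + 2 * c ≤ W.D) (hL : L' + c ≤ L) {f : R} (hf : f ∈ W.F L') :
    W.N (p * f) ≤ (1 + 4 * ε) * W.N f := by
  have h := W.bit_contr hp hε (α := 0) (β := 1) (by simp) (by simp) hD hL hf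
  rwa [zero_smul, one_smul, zero_add] at h

private theorem Dual_contr' {c L L' : ℕ} {ε : ℝ} {p : R} (hp : W.IsBit c ε L p) (hε : 0 ≤ ε)
    (hD : L + 2 * c ≤ W.D) (hL : L' + c ≤ L) {f : R} (hf : f ∈ W.F L') :
    W.N ((1 - p) * f) ≤ (1 + 4 * ε) * W.N f := by
  have h := W.bit_contr hp hε (α := 1) (β := 0) (by simp) (by simp) hD hL hf
  rwa [zero_smul, one_smul, add_zero] at h

private theorem Dual_and {v : Fm Λ → R} {s c L : ℕ} {ε : ℝ} (hv : W.IsVal v s c ε L) {A B : Fm Λ}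
    (h : A.size + B.size ≤ s) : W.N (v (A.and B) - v A * v B) ≤ ε := by
  have h1 := hv.and A B h 1 (W.one_mem' L)
  rwa [mul_one, W.N_one, mul_one] at h1

private theorem Dual_or {v : Fm Λ → R} {s c L : ℕ} {ε : ℝ} (hv : W.IsVal v s c ε L) {A B : Fm Λ}
    (h : A.size + B.size ≤ s) : W.N (v (A.or B) - (v A + v B - v A * v B)) ≤ ε := by
  have h1 := hv.or A B h 1 (W.one_mem' L)
  rwa [mul_one, W.N_one, mul_one] at h1

private theorem Dual_add3 {f g h : R} (hf : f ∈ W.F W.D) (hg : g ∈ W.F W.D) (hh : h ∈ W.F W.D) :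
    W.N (f + g + h) ≤ W.N f + W.N g + W.N h :=
  (W.N_add (Submodule.add_mem _ hf hg) hh).trans (by linarith [W.N_add hf hg])

private theorem Dual_add4 {f g h k : R} (hf : f ∈ W.F W.D) (hg : g ∈ W.F W.D) (hh : h ∈ W.F W.D)
    (hk : k ∈ W.F W.D) : W.N (f + g + h + k) ≤ W.N f + W.N g + W.N h + W.N k :=
  (W.N_add (Submodule.add_mem _ (Submodule.add_mem _ hf hg) hh) hk).trans
    (by linarith [W.Dual_add3 hf hg hh])

theorem dual_rel {v : Fm Λ → R} {s c L : ℕ} {ε : ℝ} (hv : W.IsVal v s c ε L) (hε : 0 ≤ ε)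
    (neg : Λ → Λ) (hlit : ∀ y, v (Fm.lit (neg y)) = 1 - v (Fm.lit y)) (hcL : 2 * c ≤ L)
    (hD : L + 2 * c ≤ W.D) (hs : 4 * (s : ℝ) * ε ≤ 1) (A : Fm Λ) (hA : A.size ≤ s) :
    W.N (v (A.dual neg) - (1 - v A)) ≤ 8 * s * ε := by
  have hmem : ∀ A : Fm Λ, A.size ≤ s → v A ∈ W.F c := fun A h => (hv.bit A h).mem
  have hone : (1 : R) ∈ W.F c := W.one_mem' c
  have he : ∀ A : Fm Λ, A.size ≤ s → v (A.dual neg) - (1 - v A) ∈ W.F c := fun A h =>
    Submodule.sub_mem _ (hmem _ (by rw [Dual_size]; exact h)) (Submodule.sub_mem _ hone (hmem _ h))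
  have hcD : ∀ f ∈ W.F c, f ∈ W.F W.D := fun f hf => W.F_mono _ _ (by omega) hf
  have hmD : ∀ f ∈ W.F c, ∀ g ∈ W.F c, f * g ∈ W.F W.D := fun f hf g hg =>
    W.F_mono _ _ (by omega) (W.mul_mem _ _ _ _ hf hg)
  have key : ∀ A : Fm Λ, A.size ≤ s → W.N (v (A.dual neg) - (1 - v A)) ≤
      2 * ε * ((A.size : ℝ) - 1) * (1 + 4 * ε) ^ A.size := by
    intro A
    induction A with
    | lit y =>
      intro _
      rw [Fm.dual, hlit, sub_self, W.N_zero]
      simp [Fm.size]
    | tt =>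
      intro _
      rw [Fm.dual, hv.v_tt, hv.v_ff, sub_self, sub_self, W.N_zero]
      simp [Fm.size]
    | ff =>
      intro _
      rw [Fm.dual, hv.v_tt, hv.v_ff, sub_zero, sub_self, W.N_zero]
      simp [Fm.size]
    | and B C ihB ihC =>
      intro h
      have h' : B.size + C.size ≤ s := h
      have hBs : B.size ≤ s := by omega
      have hCs : C.size ≤ s := by omega
      have hdB : (B.dual neg).size ≤ s := by rw [Dual_size]; exact hBs
      have hdC : (C.dual neg).size ≤ s := by rw [Dual_size]; exact hCs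
      have hd : (B.dual neg).size + (C.dual neg).size ≤ s := by rw [Dual_size, Dual_size]; exact h'
      have hid : v (Fm.or (B.dual neg) (C.dual neg)) - (1 - v (Fm.and B C)) =
          (v (Fm.or (B.dual neg) (C.dual neg)) - (v (B.dual neg) + v (C.dual neg) -
            v (B.dual neg) * v (C.dual neg))) + (v (Fm.and B C) - v B * v C) +
          v C * (v (B.dual neg) - (1 - v B)) + (1 - v (B.dual neg)) * (v (C.dual neg) - (1 - v C)) := by
        ring
      show W.N (v (Fm.or (B.dual neg) (C.dual neg)) - (1 - v (Fm.and B C))) ≤ _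
      rw [hid]
      refine (W.Dual_add4 ?_ ?_ ?_ ?_).trans ?_
      · exact Submodule.sub_mem _ (hcD _ (hmem _ hd)) (Submodule.sub_mem _ (Submodule.add_mem _
          (hcD _ (hmem _ hdB)) (hcD _ (hmem _ hdC))) (hmD _ (hmem _ hdB) _ (hmem _ hdC)))
      · exact Submodule.sub_mem _ (hcD _ (hmem _ h)) (hmD _ (hmem _ hBs) _ (hmem _ hCs))
      · exact hmD _ (hmem _ hCs) _ (he _ hBs)
      · exact hmD _ (Submodule.sub_mem _ hone (hmem _ hdB)) _ (he _ hCs)
      · have e1 := W.Dual_or hv hd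
        have e2 := W.Dual_and hv h'
        have e3 := W.Dual_contr (hv.bit C hCs) hε hD (by omega) (he _ hBs)
        have e4 := W.Dual_contr' (hv.bit _ hdB) hε hD (by omega) (he _ hCs)
        have e5 := Dual_arith hε (by linarith : (0 : ℝ) ≤ 2 * ε) (fm_size_pos B) (fm_size_pos C)
          (ihB hBs) (ihC hCs)
        have e6 : (Fm.and B C).size = B.size + C.size := rfl
        rw [e6]
        linarith
    | or B C ihB ihC =>
      intro h
      have h' : B.size + C.size ≤ s := h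
      have hBs : B.size ≤ s := by omega
      have hCs : C.size ≤ s := by omega
      have hdB : (B.dual neg).size ≤ s := by rw [Dual_size]; exact hBs
      have hdC : (C.dual neg).size ≤ s := by rw [Dual_size]; exact hCs
      have hd : (B.dual neg).size + (C.dual neg).size ≤ s := by rw [Dual_size, Dual_size]; exact h'
      have hid : v (Fm.and (B.dual neg) (C.dual neg)) - (1 - v (Fm.or B C)) =
          (v (Fm.and (B.dual neg) (C.dual neg)) - v (B.dual neg) * v (C.dual neg)) +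
            (v (Fm.or B C) - (v B + v C - v B * v C)) +
          v (C.dual neg) * (v (B.dual neg) - (1 - v B)) + (1 - v B) * (v (C.dual neg) - (1 - v C)) := by
        ring
      show W.N (v (Fm.and (B.dual neg) (C.dual neg)) - (1 - v (Fm.or B C))) ≤ _
      rw [hid]
      refine (W.Dual_add4 ?_ ?_ ?_ ?_).trans ?_
      · exact Submodule.sub_mem _ (hcD _ (hmem _ hd)) (hmD _ (hmem _ hdB) _ (hmem _ hdC))
      · exact Submodule.sub_mem _ (hcD _ (hmem _ h)) (Submodule.sub_mem _ (Submodule.add_mem _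
          (hcD _ (hmem _ hBs)) (hcD _ (hmem _ hCs))) (hmD _ (hmem _ hBs) _ (hmem _ hCs)))
      · exact hmD _ (hmem _ hdC) _ (he _ hBs)
      · exact hmD _ (Submodule.sub_mem _ hone (hmem _ hBs)) _ (he _ hCs)
      · have e1 := W.Dual_and hv hd
        have e2 := W.Dual_or hv h'
        have e3 := W.Dual_contr (hv.bit _ hdC) hε hD (by omega) (he _ hBs)
        have e4 := W.Dual_contr' (hv.bit B hBs) hε hD (by omega) (he _ hCs)
        have e5 := Dual_arith hε (by linarith : (0 : ℝ) ≤ 2 * ε) (fm_size_pos B) (fm_size_pos C)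
          (ihB hBs) (ihC hCs)
        have e6 : (Fm.or B C).size = B.size + C.size := rfl
        rw [e6]
        linarith
  refine (key A hA).trans ?_
  have h1 : (1 : ℝ) ≤ A.size := by exact_mod_cast fm_size_pos A
  have h2 : (A.size : ℝ) ≤ s := by exact_mod_cast hA
  have h3 := Dual_pow hε hs hA
  calc 2 * ε * ((A.size : ℝ) - 1) * (1 + 4 * ε) ^ A.size ≤ 2 * ε * ((A.size : ℝ) - 1) * 4 :=
        mul_le_mul_of_nonneg_left h3 (mul_nonneg (by linarith) (by linarith))
    _ ≤ 8 * s * ε := by nlinarith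

theorem exact_rel {v : Fm Λ → R} {s c L : ℕ} {ε : ℝ} (hv : W.IsVal v s c ε L) (hε : 0 ≤ ε)
    (x : Λ → R) (hx : ∀ y, x y ∈ W.F 1 ∧ x y * x y = x y) (hlit : ∀ y, v (Fm.lit y) = x y)
    (hD : L + 2 * c ≤ W.D) (hs : 4 * (s : ℝ) * ε ≤ 1) (A : Fm Λ) (hA : A.size ≤ s)
    (hcL : 2 * c + 2 * A.size ≤ L) :
    W.N (v A - A.val x) ≤ 8 * A.size * ε := by
  have hmem : ∀ A : Fm Λ, A.size ≤ s → v A ∈ W.F c := fun A h => (hv.bit A h).mem
  have hval : ∀ A : Fm Λ, A.val x ∈ W.F A.size := W.val_mem fun y => (hx y).1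
  have hidem : ∀ A : Fm Λ, A.val x * A.val x = A.val x := val_idem fun y => (hx y).2
  have he : ∀ A : Fm Λ, A.size ≤ s → v A - A.val x ∈ W.F (c + A.size) := fun A h =>
    Submodule.sub_mem _ (W.F_mono _ _ (by omega) (hmem _ h)) (W.F_mono _ _ (by omega) (hval A))
  have key : ∀ A : Fm Λ, A.size ≤ s → 2 * c + 2 * A.size ≤ L → W.N (v A - A.val x) ≤
      ε * ((A.size : ℝ) - 1) * (1 + 4 * ε) ^ A.size := by
    intro A
    induction A with
    | lit y =>
      intro _ _
      rw [Fm.val, hlit, sub_self, W.N_zero]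
      simp [Fm.size]
    | tt =>
      intro _ _
      rw [Fm.val, hv.v_tt, sub_self, W.N_zero]
      simp [Fm.size]
    | ff =>
      intro _ _
      rw [Fm.val, hv.v_ff, sub_self, W.N_zero]
      simp [Fm.size]
    | and B C ihB ihC =>
      intro h hL
      have h' : B.size + C.size ≤ s := h
      have hL' : 2 * c + 2 * (B.size + C.size) ≤ L := hL
      have hBs : B.size ≤ s := by omega
      have hCs : C.size ≤ s := by omega
      have hid : v (Fm.and B C) - B.val x * C.val x =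
          (v (Fm.and B C) - v B * v C) + v C * (v B - B.val x) + B.val x * (v C - C.val x) := by
        ring
      show W.N (v (Fm.and B C) - B.val x * C.val x) ≤ _
      rw [hid]
      refine (W.Dual_add3 ?_ ?_ ?_).trans ?_
      · exact Submodule.sub_mem _ (W.F_mono _ _ (by omega) (hmem _ h))
          (W.F_mono _ _ (by omega) (W.mul_mem _ _ _ _ (hmem _ hBs) (hmem _ hCs)))
      · exact W.F_mono _ _ (by omega) (W.mul_mem _ _ _ _ (hmem _ hCs) (he _ hBs))
      · exact W.F_mono _ _ (by omega) (W.mul_mem _ _ _ _ (hval B) (he _ hCs))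
      · have e2 := W.Dual_and hv h'
        have e3 := W.Dual_contr (hv.bit C hCs) hε hD (by omega) (he _ hBs)
        have e4 := W.N_idem (hval B) (he _ hCs) (by omega) (hidem B)
        have e5 := Dual_arith hε hε (fm_size_pos B) (fm_size_pos C)
          (ihB hBs (by omega)) (ihC hCs (by omega))
        have e6 : (Fm.and B C).size = B.size + C.size := rfl
        have e7 := W.N_nonneg (v C - C.val x)
        have e8 : 0 ≤ ε * W.N (v C - C.val x) := mul_nonneg hε e7
        rw [e6]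
        linarith
    | or B C ihB ihC =>
      intro h hL
      have h' : B.size + C.size ≤ s := h
      have hL' : 2 * c + 2 * (B.size + C.size) ≤ L := hL
      have hBs : B.size ≤ s := by omega
      have hCs : C.size ≤ s := by omega
      have hid : v (Fm.or B C) - (B.val x + C.val x - B.val x * C.val x) =
          (v (Fm.or B C) - (v B + v C - v B * v C)) + (1 - v C) * (v B - B.val x) +
            (1 - B.val x) * (v C - C.val x) := by
        ring
      show W.N (v (Fm.or B C) - (B.val x + C.val x - B.val x * C.val x)) ≤ _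
      rw [hid]
      have hneg : 1 - B.val x ∈ W.F B.size := Submodule.sub_mem _ (W.one_mem' _) (hval B)
      refine (W.Dual_add3 ?_ ?_ ?_).trans ?_
      · exact Submodule.sub_mem _ (W.F_mono _ _ (by omega) (hmem _ h))
          (Submodule.sub_mem _ (Submodule.add_mem _ (W.F_mono _ _ (by omega) (hmem _ hBs))
            (W.F_mono _ _ (by omega) (hmem _ hCs)))
            (W.F_mono _ _ (by omega) (W.mul_mem _ _ _ _ (hmem _ hBs) (hmem _ hCs))))
      · exact W.F_mono _ _ (by omega) (W.mul_mem _ _ _ _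
          (Submodule.sub_mem _ (W.one_mem' _) (hmem _ hCs)) (he _ hBs))
      · exact W.F_mono _ _ (by omega) (W.mul_mem _ _ _ _ hneg (he _ hCs))
      · have e2 := W.Dual_or hv h'
        have e3 := W.Dual_contr' (hv.bit C hCs) hε hD (by omega) (he _ hBs)
        have e4 := W.N_idem hneg (he _ hCs) (by omega) (by
          have := hidem B
          linear_combination this)
        have e5 := Dual_arith hε hε (fm_size_pos B) (fm_size_pos C)
          (ihB hBs (by omega)) (ihC hCs (by omega))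
        have e6 : (Fm.or B C).size = B.size + C.size := rfl
        have e7 := W.N_nonneg (v C - C.val x)
        have e8 : 0 ≤ ε * W.N (v C - C.val x) := mul_nonneg hε e7
        rw [e6]
        linarith
  refine (key A hA hcL).trans ?_
  have h1 : (1 : ℝ) ≤ A.size := by exact_mod_cast fm_size_pos A
  have h3 := Dual_pow hε hs hA
  calc ε * ((A.size : ℝ) - 1) * (1 + 4 * ε) ^ A.size ≤ ε * ((A.size : ℝ) - 1) * 4 :=
        mul_le_mul_of_nonneg_left h3 (mul_nonneg hε (by linarith))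
    _ ≤ 8 * A.size * ε := by nlinarith

theorem conj_rel {v : Fm Λ → R} {s c L : ℕ} {ε δ : ℝ} (hv : W.IsVal v s c ε L) (hε : 0 ≤ ε)
    (hδ : 0 ≤ δ) (T : Fm Λ → Prop) (hT : ∀ A, T A → A.size ≤ s → W.N (1 - v A) ≤ δ)
    (hcL : 2 * c ≤ L) (hD : L + 2 * c ≤ W.D) (hs : 4 * (s : ℝ) * ε ≤ 1) (A : Fm Λ) (hA : A.size ≤ s)
    (h : Conj T A) :
    W.N (1 - v A) ≤ 4 * A.size * (δ + ε) := by
  have hmem : ∀ A : Fm Λ, A.size ≤ s → v A ∈ W.F c := fun A h => (hv.bit A h).mem
  have hone : (1 : R) ∈ W.F c := W.one_mem' c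
  have he : ∀ A : Fm Λ, A.size ≤ s → 1 - v A ∈ W.F c := fun A h =>
    Submodule.sub_mem _ hone (hmem _ h)
  have hY : (1 : ℝ) ≤ 1 + 4 * ε := by linarith
  have key : ∀ A : Fm Λ, Conj T A → A.size ≤ s → W.N (1 - v A) ≤
      (1 + 4 * ε) ^ A.size * ((A.size : ℝ) * δ + ((A.size : ℝ) - 1) * ε) := by
    intro A hc
    induction hc with
    | base A hTA =>
      intro h
      have h1 : (1 : ℝ) ≤ A.size := by exact_mod_cast fm_size_pos A
      have h2 : (1 : ℝ) ≤ (1 + 4 * ε) ^ A.size := one_le_pow₀ hY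
      have h3 := hT A hTA h
      have h4 : δ ≤ (A.size : ℝ) * δ + ((A.size : ℝ) - 1) * ε := by nlinarith
      calc W.N (1 - v A) ≤ δ := h3
        _ ≤ (A.size : ℝ) * δ + ((A.size : ℝ) - 1) * ε := h4
        _ ≤ _ := le_mul_of_one_le_left (by linarith) h2
    | and B C _ _ ihB ihC =>
      intro h
      have h' : B.size + C.size ≤ s := h
      have hBs : B.size ≤ s := by omega
      have hCs : C.size ≤ s := by omega
      have hid : 1 - v (Fm.and B C) =
          -(v (Fm.and B C) - v B * v C) + v C * (1 - v B) + (1 - v C) := by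
        ring
      rw [hid]
      refine (W.Dual_add3 ?_ ?_ ?_).trans ?_
      · exact Submodule.neg_mem _ (Submodule.sub_mem _ (W.F_mono _ _ (by omega) (hmem _ h))
          (W.F_mono _ _ (by omega) (W.mul_mem _ _ _ _ (hmem _ hBs) (hmem _ hCs))))
      · exact W.F_mono _ _ (by omega) (W.mul_mem _ _ _ _ (hmem _ hCs) (he _ hBs))
      · exact W.F_mono _ _ (by omega) (he _ hCs)
      · have e2 := W.Dual_and hv h'
        rw [W.N_neg]
        have e3 := W.Dual_contr (hv.bit C hCs) hε hD (by omega) (he _ hBs)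
        have e6 : (Fm.and B C).size = B.size + C.size := rfl
        have i1 := ihB hBs
        have i2 := ihC hCs
        rw [e6]
        have b1 : (1 : ℝ) ≤ B.size := by exact_mod_cast fm_size_pos B
        have c1 : (1 : ℝ) ≤ C.size := by exact_mod_cast fm_size_pos C
        have hc1 := fm_size_pos C
        have p1 : (1 : ℝ) ≤ (1 + 4 * ε) ^ (B.size + C.size) := one_le_pow₀ hY
        have p2 : (1 + 4 * ε) * (1 + 4 * ε) ^ B.size ≤ (1 + 4 * ε) ^ (B.size + C.size) := by
          rw [← pow_succ']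
          exact pow_le_pow_right₀ hY (by omega)
        have p3 : (1 + 4 * ε) ^ C.size ≤ (1 + 4 * ε) ^ (B.size + C.size) :=
          pow_le_pow_right₀ hY (by omega)
        have qB : 0 ≤ (B.size : ℝ) * δ + ((B.size : ℝ) - 1) * ε :=
          add_nonneg (mul_nonneg (by linarith) hδ) (mul_nonneg (by linarith) hε)
        have qC : 0 ≤ (C.size : ℝ) * δ + ((C.size : ℝ) - 1) * ε :=
          add_nonneg (mul_nonneg (by linarith) hδ) (mul_nonneg (by linarith) hε)
        have r1 : (1 + 4 * ε) * W.N (1 - v B) ≤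
            (1 + 4 * ε) ^ (B.size + C.size) * ((B.size : ℝ) * δ + ((B.size : ℝ) - 1) * ε) := by
          calc (1 + 4 * ε) * W.N (1 - v B) ≤ (1 + 4 * ε) *
                ((1 + 4 * ε) ^ B.size * ((B.size : ℝ) * δ + ((B.size : ℝ) - 1) * ε)) :=
                mul_le_mul_of_nonneg_left i1 (by linarith)
            _ = ((1 + 4 * ε) * (1 + 4 * ε) ^ B.size) *
                ((B.size : ℝ) * δ + ((B.size : ℝ) - 1) * ε) := by ring
            _ ≤ _ := mul_le_mul_of_nonneg_right p2 qB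
        have r2 : W.N (1 - v C) ≤
            (1 + 4 * ε) ^ (B.size + C.size) * ((C.size : ℝ) * δ + ((C.size : ℝ) - 1) * ε) :=
          i2.trans (mul_le_mul_of_nonneg_right p3 qC)
        have r3 : ε ≤ (1 + 4 * ε) ^ (B.size + C.size) * ε := le_mul_of_one_le_left hε p1
        push_cast
        nlinarith [r1, r2, r3]
  refine (key A h hA).trans ?_
  have h1 : (1 : ℝ) ≤ A.size := by exact_mod_cast fm_size_pos A
  have h3 := Dual_pow hε hs hA
  have q : 0 ≤ (A.size : ℝ) * δ + ((A.size : ℝ) - 1) * ε :=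
    add_nonneg (mul_nonneg (by linarith) hδ) (mul_nonneg (by linarith) hε)
  calc (1 + 4 * ε) ^ A.size * ((A.size : ℝ) * δ + ((A.size : ℝ) - 1) * ε) ≤
        4 * ((A.size : ℝ) * δ + ((A.size : ℝ) - 1) * ε) := mul_le_mul_of_nonneg_right h3 q
    _ ≤ 4 * A.size * (δ + ε) := by nlinarith

end World

end Pool.Agent.MP_9cec2c_lc.SL
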