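import Mathlib

/-!
Campaign SL, definitions: propositional formulas over NOT, AND, OR, IMPLIES and constants, rules,
derivations, multigraphs, Tseitin formulas.
-/

set_option autoImplicit false

open Finset

namespace Pool.Agent.MP_9cec2c_lc.SL

noncomputable section

/-- Propositional formulas with variables in `X`. -/
inductive Form (X : Type) : Type
  | var (x : X) : Form X
  | tt : Form X
  | ff : Form X
  | neg (A : Form X) : Form X
  | and (A B : Form X) : Form X
  | or (A B : Form X) : Form X
  | imp (A B : Form X) : Form X

namespace Form

variable {X : Type}

/-- The size: the number of occurrences of variables and constants. -/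
def size : Form X → ℕ
  | var _ => 1
  | tt => 1
  | ff => 1
  | neg A => A.size
  | and A B => A.size + B.size
  | or A B => A.size + B.size
  | imp A B => A.size + B.size

/-- The truth value. -/
def eval (x : X → Bool) : Form X → Bool
  | var v => x v
  | tt => true
  | ff => false
  | neg A => !(A.eval x)
  | and A B => A.eval x && B.eval x
  | or A B => A.eval x || B.eval x
  | imp A B => !(A.eval x) || B.eval x

/-- Substitution of formulas for the variables of a scheme. -/
def subst (σ : ℕ → Form X) : Form ℕ → Form X
  | var i => σ i
  | tt => tt
  | ff => ff
  | neg A => neg (A.subst σ)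
  | and A B => and (A.subst σ) (B.subst σ)
  | or A B => or (A.subst σ) (B.subst σ)
  | imp A B => imp (A.subst σ) (B.subst σ)

/-- A literal: the variable `l.1` if `l.2` is true, and its negation if `l.2` is false. -/
def lit (l : X × Bool) : Form X := if l.2 = true then var l.1 else neg (var l.1)

end Form

/-- A rule: from instances of the premises follows the instance of the conclusion. Axiom schemes are
rules without premises. -/
structure Rule where
  /-- the premises -/
  prems : List (Form ℕ)
  /-- the conclusion -/
  concl : Form ℕ

/-- A rule is sound if every assignment that satisfies the premises satisfies the conclusion. -/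
def Rule.Sound (R : Rule) : Prop :=
  ∀ x : ℕ → Bool, (∀ P ∈ R.prems, P.eval x = true) → R.concl.eval x = true

/-- The lines `L 0, …, L (l - 1)` form a derivation by the rules in `S` from the formulas in `Φ`: each
line belongs to `Φ` or follows from earlier lines by a rule. -/
def IsDerivation {X : Type} (S : Set Rule) (Φ : Set (Form X)) {l : ℕ} (L : Fin l → Form X) : Prop :=
  ∀ i, L i ∈ Φ ∨ ∃ R ∈ S, ∃ σ : ℕ → Form X, R.concl.subst σ = L i ∧
    ∀ P ∈ R.prems, ∃ j, j < i ∧ L j = P.subst σ

/-- A clause (a list of literals) as a formula. -/
def clause {X : Type} (C : List (X × Bool)) : Form X := C.foldr (fun l A => (Form.lit l).or A) Form.ff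

/-- The formulas of size at most `b` that are implied by a single clause of the CNF `F`. -/
def Hyp {X : Type} (b : ℕ) (F : List (List (X × Bool))) : Set (Form X) :=
  {φ | φ.size ≤ b ∧ ∃ C ∈ F, ∀ x : X → Bool, (∃ l ∈ C, x l.1 = l.2) → φ.eval x = true}

/-- Conjunctions, in any order and with any bracketing, of formulas in `T`. -/
inductive IsConj {X : Type} (T : Set (Form X)) : Form X → Prop
  | base (A : Form X) (h : A ∈ T) : IsConj T A
  | and (A B : Form X) (hA : IsConj T A) (hB : IsConj T B) : IsConj T (A.and B)

/-- A multigraph (loops and parallel edges are allowed). -/
structure MG (V E : Type) where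
  /-- the first end of an edge -/
  src : E → V
  /-- the second end of an edge -/
  dst : E → V

namespace MG

variable {V E : Type} [Fintype V] [Fintype E] (G : MG V E)

open Classical in
/-- The edges with exactly one end at `v`. -/
def inc (v : V) : Finset E := univ.filter (fun e => ¬ (G.src e = v ↔ G.dst e = v))

open Classical in
/-- All vertices have degree at most `Δ` (a loop is counted twice). -/
def DegLE (Δ : ℕ) : Prop :=
  ∀ v, (univ.filter (fun e => G.src e = v)).card + (univ.filter (fun e => G.dst e = v)).card ≤ Δ

open Classical in
/-- The clauses of the vertex `v`: for every set `T` of edges at `v` whose number of elements is not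
congruent to the charge `γ v`, the clause which says that `T` is not the set of the true edges at
`v`. -/
def vclauses (γ : V → ZMod 2) (v : V) : List (List (E × Bool)) :=
  ((G.inc v).powerset.filter (fun T => (T.card : ZMod 2) ≠ γ v)).toList.map
    (fun T => (G.inc v).toList.map (fun e => (e, decide (e ∉ T))))

/-- The Tseitin formula: at every vertex `v` the number of true edges is congruent to `γ v`
modulo 2 (loops are ignored). -/
def tseitin (γ : V → ZMod 2) : List (List (E × Bool)) :=
  (univ : Finset V).toList.flatMap (fun v => G.vclauses γ v)

end MG

end

end Pool.Agent.MP_9cec2c_lc.SL
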