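import Pool.Agent.Lib.MP_9cec2c_lc.SL.Alg
import Pool.Agent.Lib.MP_9cec2c_lc.SL.Frege

/-!
Campaign SL, definitions for the graph part: the cube `(Z/2)^E`, characters, coboundary and boundary,
expansion, the pseudo-expectation of a multigraph with charges.
-/

set_option autoImplicit false

open Finset
open scoped Classical

namespace Pool.Agent.MP_9cec2c_lc.SL

noncomputable section

/-- The cube `(Z/2)^E`. Its elements are used as points and as sets of edges (or vertices). -/
abbrev Cube (E : Type) : Type := E → ZMod 2

/-- The sign `(-1)^a`. -/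
def sg (a : ZMod 2) : ℝ := if a = 0 then 1 else -1

section cube

variable {E : Type} [Fintype E]

/-- The pairing with values in `Z/2`. -/
def dot (S x : Cube E) : ZMod 2 := ∑ e, S e * x e

/-- The character of the set `S`. -/
def chi (S : Cube E) : Cube E → ℝ := fun x => sg (dot S x)

/-- The number of elements of the set `S`. -/
def wt (S : Cube E) : ℕ := (univ.filter (fun e => S e ≠ 0)).card

/-- The functions of degree at most `d`. -/
def Fd (E : Type) [Fintype E] (d : ℕ) : Submodule ℝ (Cube E → ℝ) :=
  Submodule.span ℝ {f | ∃ S : Cube E, wt S ≤ d ∧ f = chi S}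

/-- The average over the cube. -/
def avg (f : Cube E → ℝ) : ℝ := (∑ x, f x) / 2 ^ Fintype.card E

/-- The Fourier coefficient. -/
def fc (f : Cube E → ℝ) (S : Cube E) : ℝ := avg (fun x => f x * chi S x)

/-- The set with one element. -/
def pt {V : Type} (v : V) : Cube V := fun w => if w = v then 1 else 0

/-- The coordinate of the edge `e` as a real function. -/
def xc (e : E) : Cube E → ℝ := fun x => if x e = 0 then 0 else 1

end cube

namespace MG

variable {V E : Type} [Fintype V] [Fintype E] (G : MG V E)

/-- The coboundary: the edges with exactly one end in `U`. -/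
def cob (U : Cube V) : Cube E := fun e => U (G.src e) + U (G.dst e)

/-- The boundary: at `v` the number of edges `e` with `x e = 1` at `v`, loops counted twice, mod 2. -/
def bd (x : Cube E) : Cube V :=
  fun v => ∑ e, ((if G.src e = v then x e else 0) + (if G.dst e = v then x e else 0))

/-- Expansion with constant 1. -/
def Expands : Prop := ∀ U : Cube V, 2 * wt U ≤ Fintype.card V → wt U ≤ wt (G.cob U)

/-- The pseudo-expectation of the character of `S`: the sign `(-1)^(γ(U))` if `S` is the coboundary of
a set `U` with fewer than half of the vertices, and 0 otherwise. -/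
def e (γ : Cube V) (S : Cube E) : ℝ :=
  if h : ∃ U : Cube V, G.cob U = S ∧ 2 * wt U < Fintype.card V then sg (dot γ h.choose) else 0

/-- The pseudo-expectation of a function. -/
def Ex (γ : Cube V) : (Cube E → ℝ) →ₗ[ℝ] ℝ where
  toFun f := ∑ S, fc f S * G.e γ S
  map_add' f g := by
    rw [← sum_add_distrib]
    refine sum_congr rfl fun S _ => ?_
    have : fc (f + g) S = fc f S + fc g S := by
      unfold fc avg
      rw [← add_div, ← sum_add_distrib]
      congr 1
      refine sum_congr rfl fun x _ => ?_
      simp only [Pi.add_apply]; ring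
    rw [this]; ring
  map_smul' a f := by
    rw [RingHom.id_apply, smul_eq_mul, mul_sum]
    refine sum_congr rfl fun S _ => ?_
    have : fc (a • f) S = a * fc f S := by
      unfold fc avg
      rw [mul_div_assoc', mul_sum]
      congr 1
      refine sum_congr rfl fun x _ => ?_
      simp only [Pi.smul_apply, smul_eq_mul]; ring
    rw [this]; ring

/-- `W` is a part of `U` without edges to the rest of `U`. -/
def Closed (W U : Cube V) : Prop :=
  (∀ v, W v ≠ 0 → U v ≠ 0) ∧
    ∀ e, (W (G.src e) ≠ 0 → U (G.dst e) ≠ 0 → W (G.dst e) ≠ 0) ∧
      (W (G.dst e) ≠ 0 → U (G.src e) ≠ 0 → W (G.src e) ≠ 0)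

/-- The set `U` of vertices is anchored in the set `Y` of edges: for every part `W` of `U` without edges
to the rest of `U` at least a quarter of the coboundary of `W` belongs to `Y`. -/
def Anch (Y : Cube E) (U : Cube V) : Prop :=
  ∀ W : Cube V, G.Closed W U →
    wt (G.cob W) ≤ 4 * (univ.filter (fun e => Y e ≠ 0 ∧ G.cob W e ≠ 0)).card

end MG

end

end Pool.Agent.MP_9cec2c_lc.SL
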