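import Pool.Agent.Lib.MP_9cec2c_lc.SL.Lev
import Pool.Agent.Lib.MP_9cec2c_lc.SL.Gr

/-!
TASK Nnf: negation normal form.
-/

set_option autoImplicit false

open Finset
open scoped Classical

namespace Pool.Agent.MP_9cec2c_lc.SL

/-- The negation of a literal. -/
def flip {X : Type} (l : X × Bool) : X × Bool := (l.1, !l.2)

/-- The negation normal form. -/
def nnf {X : Type} : Form X → Fm (X × Bool)
  | Form.var x => Fm.lit (x, true)
  | Form.tt => Fm.tt
  | Form.ff => Fm.ff
  | Form.neg A => (nnf A).dual flip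
  | Form.and A B => Fm.and (nnf A) (nnf B)
  | Form.or A B => Fm.or (nnf A) (nnf B)
  | Form.imp A B => Fm.or ((nnf A).dual flip) (nnf B)

/-- The function on the cube computed by a formula. -/
noncomputable def fn {E : Type} (φ : Form E) : Cube E → ℝ :=
  fun x => ind (φ.eval (fun e => decide (x e ≠ 0)))

/-- The real values of the literals. -/
noncomputable def xl {E : Type} (l : E × Bool) : Cube E → ℝ :=
  if l.2 = true then xc l.1 else 1 - xc l.1

theorem dual_size {Λ : Type} (neg : Λ → Λ) (A : Fm Λ) : (A.dual neg).size = A.size := by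
  induction A with
  | lit l => rfl
  | tt => rfl
  | ff => rfl
  | and A B ihA ihB => simp only [Fm.dual, Fm.size, ihA, ihB]
  | or A B ihA ihB => simp only [Fm.dual, Fm.size, ihA, ihB]

theorem Nnf_flip_flip {X : Type} (l : X × Bool) : flip (flip l) = l := by
  obtain ⟨x, b⟩ := l
  simp only [flip, Bool.not_not]

theorem dual_dual {X : Type} (A : Fm (X × Bool)) : (A.dual flip).dual flip = A := by
  induction A with
  | lit l => simp only [Fm.dual, Nnf_flip_flip]
  | tt => rfl
  | ff => rfl
  | and A B ihA ihB => simp only [Fm.dual, ihA, ihB]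
  | or A B ihA ihB => simp only [Fm.dual, ihA, ihB]

theorem nnf_size {X : Type} (A : Form X) : (nnf A).size = A.size := by
  induction A with
  | var x => rfl
  | tt => rfl
  | ff => rfl
  | neg A ih => simp only [nnf, Form.size, dual_size, ih]
  | and A B ihA ihB => simp only [nnf, Form.size, Fm.size, ihA, ihB]
  | or A B ihA ihB => simp only [nnf, Form.size, Fm.size, ihA, ihB]
  | imp A B ihA ihB => simp only [nnf, Form.size, Fm.size, dual_size, ihA, ihB]

theorem Nnf_xc_idem {E : Type} (e : E) : (xc e : Cube E → ℝ) * xc e = xc e := by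
  funext x
  simp only [Pi.mul_apply, xc]
  split_ifs <;> norm_num

theorem xl_idem {E : Type} (l : E × Bool) : (xl l : Cube E → ℝ) * xl l = xl l := by
  unfold xl
  split_ifs
  · exact Nnf_xc_idem l.1
  · have h := Nnf_xc_idem l.1
    linear_combination h

theorem Nnf_one_mem {E : Type} [Fintype E] : (1 : Cube E → ℝ) ∈ Fd E 1 := by
  refine Submodule.subset_span ⟨0, ?_, ?_⟩
  · simp [wt]
  · funext x
    simp [chi, dot, sg]

theorem Nnf_chi_pt {E : Type} [Fintype E] (e : E) : (chi (pt e) : Cube E → ℝ) ∈ Fd E 1 := by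
  refine Submodule.subset_span ⟨pt e, ?_, rfl⟩
  unfold wt
  refine le_trans (card_le_card (t := {e}) ?_) (by simp)
  intro f hf
  have hf' : pt e f ≠ 0 := (mem_filter.mp hf).2
  rw [mem_singleton]
  by_contra hne
  exact hf' (if_neg hne)

theorem Nnf_xc_eq {E : Type} [Fintype E] (e : E) :
    (xc e : Cube E → ℝ) = (1 / 2 : ℝ) • (1 - chi (pt e)) := by
  funext x
  have hd : dot (pt e) x = x e := by
    unfold dot pt
    simp
  simp only [Pi.smul_apply, Pi.sub_apply, Pi.one_apply, smul_eq_mul, chi, hd, xc, sg]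
  split_ifs <;> norm_num

theorem Nnf_xc_mem {E : Type} [Fintype E] (e : E) : (xc e : Cube E → ℝ) ∈ Fd E 1 := by
  rw [Nnf_xc_eq]
  exact Submodule.smul_mem _ _ (Submodule.sub_mem _ Nnf_one_mem (Nnf_chi_pt e))

theorem xl_mem {E : Type} [Fintype E] (l : E × Bool) : (xl l : Cube E → ℝ) ∈ Fd E 1 := by
  unfold xl
  split_ifs
  · exact Nnf_xc_mem l.1
  · exact Submodule.sub_mem _ Nnf_one_mem (Nnf_xc_mem l.1)

theorem xl_flip {E : Type} (l : E × Bool) : (xl (flip l) : Cube E → ℝ) = 1 - xl l := by
  obtain ⟨e, b⟩ := l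
  cases b
  · simp only [xl, flip, Bool.not_false, if_true, Bool.false_eq_true, if_false]
    ring
  · simp only [xl, flip, Bool.not_true, if_true, Bool.false_eq_true, if_false]

theorem dual_val {E : Type} (A : Fm (E × Bool)) :
    (A.dual flip).val (R := Cube E → ℝ) xl = 1 - A.val xl := by
  induction A with
  | lit l => exact xl_flip l
  | tt => simp only [Fm.dual, Fm.val, sub_self]
  | ff => simp only [Fm.dual, Fm.val, sub_zero]
  | and A B ihA ihB =>
    simp only [Fm.dual, Fm.val, ihA, ihB]
    ring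
  | or A B ihA ihB =>
    simp only [Fm.dual, Fm.val, ihA, ihB]
    ring

theorem Nnf_xc_pt {E : Type} (e : E) (x : Cube E) : (xc e : Cube E → ℝ) x = ind (decide (x e ≠ 0)) := by
  unfold xc ind
  by_cases h : x e = 0 <;> simp [h]

theorem nnf_val {E : Type} (A : Form E) : (nnf A).val (R := Cube E → ℝ) xl = fn A := by
  induction A with
  | var e =>
    funext x
    simp only [nnf, Fm.val, xl, if_true, fn, Form.eval]
    exact Nnf_xc_pt e x
  | tt =>
    funext x
    simp [nnf, Fm.val, fn, Form.eval, ind]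
  | ff =>
    funext x
    simp [nnf, Fm.val, fn, Form.eval, ind]
  | neg A ih =>
    rw [nnf, dual_val, ih]
    funext x
    simp only [Pi.sub_apply, Pi.one_apply, fn, Form.eval]
    cases Form.eval (fun e => decide (x e ≠ 0)) A <;> simp [ind]
  | and A B ihA ihB =>
    rw [nnf, Fm.val, ihA, ihB]
    funext x
    simp only [Pi.mul_apply, fn, Form.eval]
    cases Form.eval (fun e => decide (x e ≠ 0)) A <;>
      cases Form.eval (fun e => decide (x e ≠ 0)) B <;> simp [ind]
  | or A B ihA ihB =>
    rw [nnf, Fm.val, ihA, ihB]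
    funext x
    simp only [Pi.mul_apply, Pi.add_apply, Pi.sub_apply, fn, Form.eval]
    cases Form.eval (fun e => decide (x e ≠ 0)) A <;>
      cases Form.eval (fun e => decide (x e ≠ 0)) B <;> simp [ind]
  | imp A B ihA ihB =>
    rw [nnf, Fm.val, dual_val, ihA, ihB]
    funext x
    simp only [Pi.mul_apply, Pi.add_apply, Pi.sub_apply, Pi.one_apply, fn, Form.eval]
    cases Form.eval (fun e => decide (x e ≠ 0)) A <;>
      cases Form.eval (fun e => decide (x e ≠ 0)) B <;> simp [ind]

end Pool.Agent.MP_9cec2c_lc.SL
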