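import Pool.Agent.Lib.MP_9cec2c_lc.SL.UbG

/-!
TASK Cpl: there is a Frege system: a finite set of sound rules that is implicationally complete
(`ImplComplete`: for every sound rule there is a derivation of its conclusion from its premises,
metavariables being treated as variables).

Choose the rules freely, e.g. modus ponens, the schemes `p → (q → p)`,
`(p → (q → r)) → ((p → q) → (p → r))`, and for Kalmár's argument schemes such as
`(p → q) → ((¬p → q) → q)`, `tt`, `¬ff`, `p → (¬q → ¬(p → q))`, `¬p → (p → q)`, `q → (p → q)`,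
`p → (q → (p ∧ q))`, `¬p → ¬(p ∧ q)`, `¬q → ¬(p ∧ q)`, `p → (p ∨ q)`, `q → (p ∨ q)`,
`¬p → (¬q → ¬(p ∨ q))`, `p → ¬¬p`.
Let `R` be sound with premises `P₁, …, P_k`, conclusion `c`; `τ = P₁ → (P₂ → … → (P_k → c))` is true under
all assignments. Kalmár: for an assignment `x` let `p^x = p` or `¬p`. From the hypotheses `p^x` (`p` among
the finitely many variables of `τ`) one derives `τ` (induction on subformulas: from them `A` or `¬A`
according to the value). Deduction theorem (a derivation of `B` from `Γ, p` gives one of `p → B` from `Γ`)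
and `(p → q) → ((¬p → q) → q)` remove the hypotheses one by one. Then `k` times modus ponens.
(Work with an inductive predicate for provability from a set of hypotheses, and convert it to
`IsDerivation` with lists at the end; UbA/UbG contain `Chain`, `Reach` and conversion lemmas.)
-/

set_option autoImplicit false

namespace Pool.Agent.MP_9cec2c_lc.SL

open Form

/-- The axiom schemes. -/
def Cpl_ax : List (Form ℕ) :=
  [(var 0).imp ((var 1).imp (var 0)),
   ((var 0).imp ((var 1).imp (var 2))).imp (((var 0).imp (var 1)).imp ((var 0).imp (var 2))),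
   ((var 0).imp (var 1)).imp (((var 0).neg.imp (var 1)).imp (var 1)),
   tt,
   ff.neg,
   (var 0).imp (var 0).neg.neg,
   (var 0).imp ((var 1).imp ((var 0).and (var 1))),
   (var 0).neg.imp ((var 0).and (var 1)).neg,
   (var 1).neg.imp ((var 0).and (var 1)).neg,
   (var 0).imp ((var 0).or (var 1)),
   (var 1).imp ((var 0).or (var 1)),
   (var 0).neg.imp ((var 1).neg.imp ((var 0).or (var 1)).neg),
   (var 0).neg.imp ((var 0).imp (var 1)),
   (var 0).imp ((var 1).neg.imp ((var 0).imp (var 1)).neg)]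

/-- The substitution of three formulas. -/
def Cpl_s (A B C : Form ℕ) : ℕ → Form ℕ
  | 0 => A
  | 1 => B
  | _ => C

/-- Provability from hypotheses. -/
inductive Cpl_Pv (Φ : Set (Form ℕ)) : Form ℕ → Prop
  | hyp (A : Form ℕ) (h : A ∈ Φ) : Cpl_Pv Φ A
  | ax (a : Form ℕ) (h : a ∈ Cpl_ax) (σ : ℕ → Form ℕ) : Cpl_Pv Φ (a.subst σ)
  | mp (A B : Form ℕ) (h1 : Cpl_Pv Φ (A.imp B)) (h2 : Cpl_Pv Φ A) : Cpl_Pv Φ B

/-- The rules: the axiom schemes and modus ponens. -/
def Cpl_S : Set Rule :=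
  {R | (∃ a ∈ Cpl_ax, R = ⟨[], a⟩) ∨ R = ⟨[(var 0).imp (var 1), var 0], var 1⟩}

private theorem Cpl_S_finite : Cpl_S.Finite := by
  have h : Cpl_S ⊆ (fun a : Form ℕ => (⟨[], a⟩ : Rule)) '' {a | a ∈ Cpl_ax} ∪
      {⟨[(var 0).imp (var 1), var 0], var 1⟩} := by
    rintro R (⟨a, ha, rfl⟩ | rfl)
    · exact Or.inl ⟨a, ha, rfl⟩
    · exact Or.inr rfl
  exact (((List.finite_toSet Cpl_ax).image _).union (Set.finite_singleton _)).subset h

private theorem Cpl_S_sound : ∀ R ∈ Cpl_S, R.Sound := by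
  rintro R (⟨a, ha, rfl⟩ | rfl)
  · intro x _
    simp only [Cpl_ax, List.mem_cons, List.not_mem_nil, or_false] at ha
    rcases ha with rfl | rfl | rfl | rfl | rfl | rfl | rfl | rfl | rfl | rfl | rfl | rfl | rfl | rfl <;>
      simp only [Form.eval] <;> cases x 0 <;> cases x 1 <;> cases x 2 <;> rfl
  · intro x h
    have h1 := h ((var 0).imp (var 1)) (by simp)
    have h2 := h (var 0) (by simp)
    simp only [Form.eval] at h1 h2 ⊢
    rw [h2] at h1
    simpa using h1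

private theorem Cpl_mono {Φ Ψ : Set (Form ℕ)} (h : Φ ⊆ Ψ) {A : Form ℕ} (hA : Cpl_Pv Φ A) :
    Cpl_Pv Ψ A := by
  induction hA with
  | hyp A hA => exact Cpl_Pv.hyp A (h hA)
  | ax a ha σ => exact Cpl_Pv.ax a ha σ
  | mp A B _ _ ih1 ih2 => exact Cpl_Pv.mp A B ih1 ih2

section

variable {Φ : Set (Form ℕ)}

private theorem Cpl_K (A B : Form ℕ) : Cpl_Pv Φ (A.imp (B.imp A)) :=
  Cpl_Pv.ax ((var 0).imp ((var 1).imp (var 0))) (by simp [Cpl_ax]) (Cpl_s A B tt)

private theorem Cpl_S' (A B C : Form ℕ) :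
    Cpl_Pv Φ ((A.imp (B.imp C)).imp ((A.imp B).imp (A.imp C))) :=
  Cpl_Pv.ax (((var 0).imp ((var 1).imp (var 2))).imp (((var 0).imp (var 1)).imp
    ((var 0).imp (var 2)))) (by simp [Cpl_ax]) (Cpl_s A B C)

private theorem Cpl_cases {A B : Form ℕ} (h1 : Cpl_Pv Φ (A.imp B)) (h2 : Cpl_Pv Φ (A.neg.imp B)) :
    Cpl_Pv Φ B :=
  Cpl_Pv.mp _ _ (Cpl_Pv.mp _ _ (Cpl_Pv.ax (((var 0).imp (var 1)).imp
    (((var 0).neg.imp (var 1)).imp (var 1))) (by simp [Cpl_ax]) (Cpl_s A B tt)) h1) h2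

private theorem Cpl_I (A : Form ℕ) : Cpl_Pv Φ (A.imp A) :=
  Cpl_Pv.mp _ _ (Cpl_Pv.mp _ _ (Cpl_S' A (A.imp A) A) (Cpl_K A (A.imp A))) (Cpl_K A A)

private theorem Cpl_ded {A B : Form ℕ} (h : Cpl_Pv (insert A Φ) B) : Cpl_Pv Φ (A.imp B) := by
  induction h with
  | hyp C hC =>
    rcases hC with rfl | hC
    · exact Cpl_I _
    · exact Cpl_Pv.mp _ _ (Cpl_K C A) (Cpl_Pv.hyp C hC)
  | ax a ha σ => exact Cpl_Pv.mp _ _ (Cpl_K _ A) (Cpl_Pv.ax a ha σ)
  | mp C D _ _ ih1 ih2 => exact Cpl_Pv.mp _ _ (Cpl_Pv.mp _ _ (Cpl_S' A C D) ih1) ih2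

private theorem Cpl_mp1 {A B : Form ℕ} (a : Form ℕ) (ha : a ∈ Cpl_ax) (σ : ℕ → Form ℕ)
    (e : a.subst σ = A.imp B) (h : Cpl_Pv Φ A) : Cpl_Pv Φ B :=
  Cpl_Pv.mp A B (e ▸ Cpl_Pv.ax a ha σ) h

private theorem Cpl_mp2 {A B C : Form ℕ} (a : Form ℕ) (ha : a ∈ Cpl_ax) (σ : ℕ → Form ℕ)
    (e : a.subst σ = A.imp (B.imp C)) (h : Cpl_Pv Φ A) (h' : Cpl_Pv Φ B) : Cpl_Pv Φ C :=
  Cpl_Pv.mp B C (Cpl_Pv.mp A (B.imp C) (e ▸ Cpl_Pv.ax a ha σ) h) h'

end

/-- The formula or its negation. -/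
def Cpl_sg (b : Bool) (A : Form ℕ) : Form ℕ := if b = true then A else A.neg

/-- A bound for the variables of a formula. -/
def Cpl_mv : Form ℕ → ℕ
  | .var i => i + 1
  | .tt => 0
  | .ff => 0
  | .neg A => Cpl_mv A
  | .and A B => max (Cpl_mv A) (Cpl_mv B)
  | .or A B => max (Cpl_mv A) (Cpl_mv B)
  | .imp A B => max (Cpl_mv A) (Cpl_mv B)

/-- The hypotheses of Kalmár's argument. -/
def Cpl_H (x : ℕ → Bool) (n : ℕ) : Set (Form ℕ) := {φ | ∃ i < n, φ = Cpl_sg (x i) (var i)}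

private theorem Cpl_kalmar (x : ℕ → Bool) (n : ℕ) (A : Form ℕ) (hA : Cpl_mv A ≤ n) :
    Cpl_Pv (Cpl_H x n) (Cpl_sg (A.eval x) A) := by
  induction A with
  | var i =>
    exact Cpl_Pv.hyp _ ⟨i, by simpa [Cpl_mv] using hA, rfl⟩
  | tt => exact Cpl_Pv.ax tt (by simp [Cpl_ax]) (Cpl_s tt tt tt)
  | ff => exact Cpl_Pv.ax ff.neg (by simp [Cpl_ax]) (Cpl_s tt tt tt)
  | neg A ih =>
    have h := ih hA
    simp only [Form.eval]
    cases hv : A.eval x
    · rw [hv] at h
      exact h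
    · rw [hv] at h
      exact Cpl_mp1 ((var 0).imp (var 0).neg.neg) (by simp [Cpl_ax]) (Cpl_s A tt tt) rfl h
  | and A B ihA ihB =>
    have hA' := ihA ((le_max_left _ _).trans hA)
    have hB' := ihB ((le_max_right _ _).trans hA)
    simp only [Form.eval]
    cases hv : A.eval x
    · rw [hv] at hA'
      exact Cpl_mp1 ((var 0).neg.imp ((var 0).and (var 1)).neg) (by simp [Cpl_ax]) (Cpl_s A B tt)
        rfl hA'
    · rw [hv] at hA'
      cases hw : B.eval x
      · rw [hw] at hB'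
        exact Cpl_mp1 ((var 1).neg.imp ((var 0).and (var 1)).neg) (by simp [Cpl_ax])
          (Cpl_s A B tt) rfl hB'
      · rw [hw] at hB'
        exact Cpl_mp2 ((var 0).imp ((var 1).imp ((var 0).and (var 1)))) (by simp [Cpl_ax])
          (Cpl_s A B tt) rfl hA' hB'
  | or A B ihA ihB =>
    have hA' := ihA ((le_max_left _ _).trans hA)
    have hB' := ihB ((le_max_right _ _).trans hA)
    simp only [Form.eval]
    cases hv : A.eval x
    · rw [hv] at hA'
      cases hw : B.eval x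
      · rw [hw] at hB'
        exact Cpl_mp2 ((var 0).neg.imp ((var 1).neg.imp ((var 0).or (var 1)).neg))
          (by simp [Cpl_ax]) (Cpl_s A B tt) rfl hA' hB'
      · rw [hw] at hB'
        exact Cpl_mp1 ((var 1).imp ((var 0).or (var 1))) (by simp [Cpl_ax]) (Cpl_s A B tt) rfl hB'
    · rw [hv] at hA'
      exact Cpl_mp1 ((var 0).imp ((var 0).or (var 1))) (by simp [Cpl_ax]) (Cpl_s A B tt) rfl hA'
  | imp A B ihA ihB =>
    have hA' := ihA ((le_max_left _ _).trans hA)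
    have hB' := ihB ((le_max_right _ _).trans hA)
    simp only [Form.eval]
    cases hv : A.eval x
    · rw [hv] at hA'
      exact Cpl_mp1 ((var 0).neg.imp ((var 0).imp (var 1))) (by simp [Cpl_ax]) (Cpl_s A B tt)
        rfl hA'
    · rw [hv] at hA'
      cases hw : B.eval x
      · rw [hw] at hB'
        exact Cpl_mp2 ((var 0).imp ((var 1).neg.imp ((var 0).imp (var 1)).neg)) (by simp [Cpl_ax])
          (Cpl_s A B tt) rfl hA' hB'
      · rw [hw] at hB'
        exact Cpl_Pv.mp _ _ (Cpl_K B A) hB'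

private theorem Cpl_taut {A : Form ℕ} (h : ∀ x, A.eval x = true) : Cpl_Pv ∅ A := by
  have key : ∀ k ≤ Cpl_mv A, ∀ x, Cpl_Pv (Cpl_H x (Cpl_mv A - k)) A := by
    intro k
    induction k with
    | zero =>
      intro _ x
      have h1 := Cpl_kalmar x (Cpl_mv A) A le_rfl
      rw [h x] at h1
      exact h1
    | succ k ih =>
      intro hk x
      have ih' := ih (by omega)
      set m := Cpl_mv A - (k + 1) with hm
      have hm' : Cpl_mv A - k = m + 1 := by omega
      rw [hm'] at ih'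
      have hsub : ∀ b : Bool, Cpl_H (Function.update x m b) (m + 1) ⊆
          insert (Cpl_sg b (var m)) (Cpl_H x m) := by
        rintro b φ ⟨i, hi, rfl⟩
        rcases Nat.lt_succ_iff_lt_or_eq.mp hi with hi | rfl
        · right
          refine ⟨i, hi, ?_⟩
          rw [Function.update_of_ne (by omega)]
        · left
          rw [Function.update_self]
      have h1 := Cpl_ded (Cpl_mono (hsub true) (ih' (Function.update x m true)))
      have h2 := Cpl_ded (Cpl_mono (hsub false) (ih' (Function.update x m false)))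
      exact Cpl_cases h1 h2
  have h1 := key (Cpl_mv A) le_rfl (fun _ => true)
  refine Cpl_mono ?_ h1
  rintro φ ⟨i, hi, rfl⟩
  omega

private theorem Cpl_impl {Φ : Set (Form ℕ)} (l : List (Form ℕ)) (c : Form ℕ)
    (h : Cpl_Pv Φ (l.foldr (fun P A => P.imp A) c)) (hl : ∀ P ∈ l, P ∈ Φ) : Cpl_Pv Φ c := by
  induction l with
  | nil => exact h
  | cons P l ih =>
    refine ih ?_ fun Q hQ => hl Q (List.mem_cons_of_mem _ hQ)
    exact Cpl_Pv.mp _ _ h (Cpl_Pv.hyp _ (hl P List.mem_cons_self))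

private theorem Cpl_eval_foldr (x : ℕ → Bool) (l : List (Form ℕ)) (c : Form ℕ)
    (h : (∀ P ∈ l, P.eval x = true) → c.eval x = true) :
    (l.foldr (fun P A => P.imp A) c).eval x = true := by
  induction l with
  | nil => exact h (by simp)
  | cons P l ih =>
    rw [List.foldr_cons, Form.eval]
    cases hP : P.eval x
    · rfl
    · have := ih fun h' => h fun Q hQ => by
        rcases List.mem_cons.mp hQ with rfl | hQ
        · exact hP
        · exact h' Q hQ
      rw [this]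
      rfl

private theorem Cpl_chain {Φ : Set (Form ℕ)} {A : Form ℕ} (h : Cpl_Pv Φ A) :
    ∃ c : List (Form ℕ), Ub.Chain Cpl_S Φ ∅ c ∧ A ∈ c := by
  induction h with
  | hyp A hA =>
    exact ⟨[A], Ub.Chain.cons Ub.Chain.nil (Or.inl hA), by simp⟩
  | ax a ha σ =>
    exact ⟨[a.subst σ], Ub.Chain.cons Ub.Chain.nil
      (Or.inr ⟨⟨[], a⟩, Or.inl ⟨a, ha, rfl⟩, σ, rfl, by simp⟩), by simp⟩
  | mp A B _ _ ih1 ih2 =>
    obtain ⟨c1, h1, m1⟩ := ih1
    obtain ⟨c2, h2, m2⟩ := ih2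
    have h3 : Ub.Chain Cpl_S Φ ∅ (c2 ++ c1) := h1.append (by simp) h2
    refine ⟨B :: (c2 ++ c1), Ub.Chain.cons h3 (Or.inr ⟨_, Or.inr rfl, Cpl_s A B tt, rfl, ?_⟩),
      by simp⟩
    intro p hp
    simp only [List.mem_cons, List.not_mem_nil, or_false] at hp
    rcases hp with rfl | rfl
    · exact Or.inr (List.mem_append_right _ m1)
    · exact Or.inr (List.mem_append_left _ m2)

theorem exists_frege : ∃ S : Set Rule, S.Finite ∧ (∀ R ∈ S, R.Sound) ∧ ImplComplete S := by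
  refine ⟨Cpl_S, Cpl_S_finite, Cpl_S_sound, ?_⟩
  intro R hR
  have h1 : Cpl_Pv ∅ (R.prems.foldr (fun P A => P.imp A) R.concl) :=
    Cpl_taut fun x => Cpl_eval_foldr x _ _ (hR x)
  have h2 : Cpl_Pv {P | P ∈ R.prems} R.concl :=
    Cpl_impl R.prems R.concl (Cpl_mono (Set.empty_subset _) h1) fun P hP => hP
  obtain ⟨c, hc, hmem⟩ := Cpl_chain h2
  obtain ⟨L, m1, m2, m3⟩ := hc.isDerivation
  exact ⟨c.length, L, m1, m2 _ hmem⟩

end Pool.Agent.MP_9cec2c_lc.SL
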