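import Pool.Agent.Lib.MP_9cec2c_lc.SL.CubeA

/-!
TASK CobA: coboundary and boundary of a multigraph.
`cob_inj`: `W = U + U'` has `cob W = 0` and `wt W ≤ wt U + wt U' < n`. If `2 wt W ≤ n`, expansion gives
`wt W ≤ wt 0 = 0`. Otherwise `W + 1` (the complement) has `2 wt (W+1) < n` and `cob (W+1) = 0`, so
`wt (W + 1) = 0`, `wt W = n`: contradiction.
-/

set_option autoImplicit false

open Finset
open scoped Classical

namespace Pool.Agent.MP_9cec2c_lc.SL.MG

variable {V E : Type} [Fintype V] [Fintype E] (G : MG V E)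

omit [Fintype V] [Fintype E] in
theorem cob_add (U W : Cube V) : G.cob (U + W) = G.cob U + G.cob W := by
  funext e
  simp only [cob, Pi.add_apply]
  ring

omit [Fintype V] [Fintype E] in
theorem cob_zero : G.cob 0 = 0 := by
  funext e
  simp [cob]

omit [Fintype V] [Fintype E] in
theorem cob_one : G.cob 1 = 0 := by
  funext e
  simp only [cob, Pi.one_apply, Pi.zero_apply]
  decide

omit [Fintype V] [Fintype E] in
theorem cob_sum {ι : Type} (s : Finset ι) (U : ι → Cube V) :
    G.cob (∑ i ∈ s, U i) = ∑ i ∈ s, G.cob (U i) := by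
  induction s using Finset.induction_on with
  | empty => simp [cob_zero]
  | insert a s ha ih => rw [sum_insert ha, sum_insert ha, cob_add, ih]

theorem bd_add (x y : Cube E) : G.bd (x + y) = G.bd x + G.bd y := by
  funext v
  simp only [bd, Pi.add_apply]
  rw [← sum_add_distrib]
  refine sum_congr rfl fun e _ => ?_
  split_ifs <;> ring

/-- Adjointness. -/
theorem dot_bd (U : Cube V) (x : Cube E) : dot (G.cob U) x = dot U (G.bd x) := by
  simp only [dot, cob, bd, mul_sum]
  rw [sum_comm]
  refine sum_congr rfl fun e _ => ?_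
  simp only [mul_add, sum_add_distrib, mul_ite, mul_zero]
  rw [sum_ite_eq, sum_ite_eq]
  simp only [mem_univ, if_true]
  ring

theorem sum_bd (x : Cube E) : ∑ v, G.bd x v = 0 := by
  have h := G.dot_bd 1 x
  rw [cob_one, dot_zero_left] at h
  simp only [dot, Pi.one_apply, one_mul] at h
  exact h.symm

private theorem CobA_add_one_ne (a : ZMod 2) : a + 1 ≠ 0 ↔ ¬ (a ≠ 0) := by
  revert a; decide

theorem wt_compl (U : Cube V) : wt (U + 1) + wt U = Fintype.card V := by
  unfold wt
  have h1 : (univ.filter (fun e => (U + 1) e ≠ 0)) = univ.filter (fun e => ¬ (U e ≠ 0)) := by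
    refine filter_congr fun e _ => ?_
    rw [Pi.add_apply, Pi.one_apply]
    exact CobA_add_one_ne (U e)
  rw [h1, add_comm, card_filter_add_card_filter_not]
  exact card_univ

/-- `cob (pt v)` is the indicator of `inc v`. -/
theorem cob_pt (v : V) (e : E) : G.cob (pt v) e ≠ 0 ↔ e ∈ G.inc v := by
  simp only [cob, pt, inc, mem_filter, mem_univ, true_and]
  by_cases h1 : G.src e = v <;> by_cases h2 : G.dst e = v <;> simp [h1, h2]
  decide

theorem card_inc {Δ : ℕ} (hΔ : G.DegLE Δ) (v : V) : (G.inc v).card ≤ Δ := by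
  refine le_trans ?_ (hΔ v)
  refine le_trans (card_le_card ?_) (card_union_le _ _)
  intro e he
  simp only [inc, mem_filter, mem_univ, true_and] at he
  simp only [mem_union, mem_filter, mem_univ, true_and]
  by_contra hc
  push Not at hc
  exact he ⟨fun h => absurd h hc.1, fun h => absurd h hc.2⟩

theorem wt_cob_pt {Δ : ℕ} (hΔ : G.DegLE Δ) (v : V) : wt (G.cob (pt v)) ≤ Δ := by
  refine le_trans (le_of_eq ?_) (G.card_inc hΔ v)
  unfold wt
  congr 1
  ext e
  rw [mem_filter]
  simp only [mem_univ, true_and]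
  exact G.cob_pt v e

theorem cob_inj (hG : G.Expands) {U U' : Cube V} (h : G.cob U = G.cob U')
    (hw : wt U + wt U' < Fintype.card V) : U = U' := by
  have h2 : ∀ a : ZMod 2, a + a = 0 := by decide
  have hW0 : G.cob (U + U') = 0 := by
    rw [cob_add, h]
    funext e
    exact h2 _
  have hlt : wt (U + U') < Fintype.card V := lt_of_le_of_lt (wt_add_le U U') hw
  have hz : U + U' = 0 := by
    by_cases hc : 2 * wt (U + U') ≤ Fintype.card V
    · have h3 := hG _ hc
      rw [hW0, wt_zero] at h3
      exact wt_eq_zero (Nat.le_zero.mp h3)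
    · exfalso
      have h4 := wt_compl (U + U')
      have h5 : 2 * wt (U + U' + 1) ≤ Fintype.card V := by omega
      have h6 := hG _ h5
      rw [cob_add, hW0, cob_one, add_zero, wt_zero] at h6
      omega
  funext v
  have h7 : U v + U' v = 0 := congrFun hz v
  have h8 : ∀ a b : ZMod 2, a + b = 0 → a = b := by decide
  exact h8 _ _ h7

/-- Every set of vertices or its complement is small. -/
theorem small_or (hG : G.Expands) (U : Cube V) :
    wt U ≤ wt (G.cob U) ∨ wt (U + 1) ≤ wt (G.cob U) := by
  have h4 := wt_compl U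
  by_cases hc : 2 * wt U ≤ Fintype.card V
  · exact Or.inl (hG U hc)
  · right
    have h5 : 2 * wt (U + 1) ≤ Fintype.card V := by omega
    have h6 := hG _ h5
    rwa [cob_add, cob_one, add_zero] at h6

end Pool.Agent.MP_9cec2c_lc.SL.MG
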