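import Pool.Agent.Lib.MP_9cec2c_lc.SL.Ub

/-!
Campaign SL, upper bound, part G (helper80): the upper bound holds for every implicationally complete
set of rules.
-/

set_option autoImplicit false

open Finset

namespace Pool.Agent.MP_9cec2c_lc.SL

/-- A set of rules is implicationally complete if every scheme that is a logical consequence of
finitely many schemes has a derivation from them. -/
def ImplComplete (S : Set Rule) : Prop :=
  ∀ R : Rule, R.Sound → ∃ (l : ℕ) (L : Fin l → Form ℕ),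
    IsDerivation S {P | P ∈ R.prems} L ∧ ∃ i, L i = R.concl

namespace Ub

open Form

/-- The variable `j` occurs in the formula. -/
def occ (j : ℕ) : Form ℕ → Prop
  | .var i => i = j
  | .tt => False
  | .ff => False
  | .neg A => occ j A
  | .and A B => occ j A ∨ occ j B
  | .or A B => occ j A ∨ occ j B
  | .imp A B => occ j A ∨ occ j B

theorem subst_congr {X : Type} (σ τ : ℕ → Form X) : ∀ A : Form ℕ, (∀ j, occ j A → σ j = τ j) →
    A.subst σ = A.subst τ
  | .var i, h => h i rfl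
  | .tt, _ => rfl
  | .ff, _ => rfl
  | .neg A, h => by rw [Form.subst, Form.subst, subst_congr σ τ A h]
  | .and A B, h => by
    rw [Form.subst, Form.subst, subst_congr σ τ A fun j hj => h j (Or.inl hj),
      subst_congr σ τ B fun j hj => h j (Or.inr hj)]
  | .or A B, h => by
    rw [Form.subst, Form.subst, subst_congr σ τ A fun j hj => h j (Or.inl hj),
      subst_congr σ τ B fun j hj => h j (Or.inr hj)]
  | .imp A B, h => by
    rw [Form.subst, Form.subst, subst_congr σ τ A fun j hj => h j (Or.inl hj),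
      subst_congr σ τ B fun j hj => h j (Or.inr hj)]

theorem size_occ {X : Type} (σ : ℕ → Form X) (j : ℕ) : ∀ A : Form ℕ, occ j A →
    (σ j).size ≤ (A.subst σ).size
  | .var i, h => by
    have h' : i = j := h
    subst h'
    exact le_rfl
  | .tt, h => h.elim
  | .ff, h => h.elim
  | .neg A, h => size_occ σ j A h
  | .and A B, h => by
    rw [Form.subst, Form.size]
    rcases h with h | h
    · have := size_occ σ j A h
      omega
    · have := size_occ σ j B h
      omega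
  | .or A B, h => by
    rw [Form.subst, Form.size]
    rcases h with h | h
    · have := size_occ σ j A h
      omega
    · have := size_occ σ j B h
      omega
  | .imp A B, h => by
    rw [Form.subst, Form.size]
    rcases h with h | h
    · have := size_occ σ j A h
      omega
    · have := size_occ σ j B h
      omega

theorem size_subst {X : Type} (σ : ℕ → Form X) {s : ℕ} (hs : 1 ≤ s) (h : ∀ j, (σ j).size ≤ s) :
    ∀ A : Form ℕ, (A.subst σ).size ≤ A.size * s
  | .var i => by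
    rw [Form.subst, Form.size, one_mul]
    exact h i
  | .tt => by
    simp only [Form.subst, Form.size, one_mul]
    exact hs
  | .ff => by
    simp only [Form.subst, Form.size, one_mul]
    exact hs
  | .neg A => by
    rw [Form.subst, Form.size, Form.size]
    exact size_subst σ hs h A
  | .and A B => by
    rw [Form.subst, Form.size, Form.size, add_mul]
    exact Nat.add_le_add (size_subst σ hs h A) (size_subst σ hs h B)
  | .or A B => by
    rw [Form.subst, Form.size, Form.size, add_mul]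
    exact Nat.add_le_add (size_subst σ hs h A) (size_subst σ hs h B)
  | .imp A B => by
    rw [Form.subst, Form.size, Form.size, add_mul]
    exact Nat.add_le_add (size_subst σ hs h A) (size_subst σ hs h B)

theorem subst_subst {X : Type} (τ : ℕ → Form ℕ) (σ : ℕ → Form X) : ∀ A : Form ℕ,
    (A.subst τ).subst σ = A.subst fun i => (τ i).subst σ
  | .var i => rfl
  | .tt => rfl
  | .ff => rfl
  | .neg A => by simp only [Form.subst, subst_subst τ σ A]
  | .and A B => by simp only [Form.subst, subst_subst τ σ A, subst_subst τ σ B]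
  | .or A B => by simp only [Form.subst, subst_subst τ σ A, subst_subst τ σ B]
  | .imp A B => by simp only [Form.subst, subst_subst τ σ A, subst_subst τ σ B]

/-- Derivations as reversed lists. -/
theorem chain_of_derivation {X : Type} {S : Set Rule} {Φ : Set (Form X)} :
    ∀ (l : ℕ) (L : Fin l → Form X), IsDerivation S Φ L →
      ∃ c : List (Form X), Chain S Φ ∅ c ∧ c.length = l ∧ ∀ φ, φ ∈ c ↔ ∃ i, L i = φ
  | 0, L, _ => ⟨[], Chain.nil, rfl, fun φ => by simp⟩
  | l + 1, L, h => by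
    have h1 : IsDerivation S Φ (fun i : Fin l => L i.castSucc) := by
      intro i
      rcases h i.castSucc with h2 | ⟨R, hR, σ, h3, h4⟩
      · exact Or.inl h2
      · refine Or.inr ⟨R, hR, σ, h3, fun P hP => ?_⟩
        obtain ⟨j, hj, hj'⟩ := h4 P hP
        have hjl : (j : ℕ) < l := lt_trans (Fin.lt_def.mp hj) (by simp)
        exact ⟨⟨j, hjl⟩, Fin.lt_def.mpr (Fin.lt_def.mp hj), hj'⟩
    obtain ⟨c, hc, hlen, hmem⟩ := chain_of_derivation l _ h1
    refine ⟨L (Fin.last l) :: c, Chain.cons hc ?_, by simp [hlen], ?_⟩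
    · rcases h (Fin.last l) with h2 | ⟨R, hR, σ, h3, h4⟩
      · exact Or.inl h2
      · refine Or.inr ⟨R, hR, σ, h3, fun P hP => ?_⟩
        obtain ⟨j, hj, hj'⟩ := h4 P hP
        refine Or.inr ((hmem _).mpr ⟨⟨j, Fin.lt_def.mp hj⟩, ?_⟩)
        exact hj'
    · intro φ
      rw [List.mem_cons, hmem]
      constructor
      · rintro (rfl | ⟨i, rfl⟩)
        · exact ⟨_, rfl⟩
        · exact ⟨_, rfl⟩
      · rintro ⟨i, rfl⟩
        refine Fin.lastCases (Or.inl rfl) (fun i => Or.inr ⟨i, rfl⟩) i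

/-- Instances of derivations. -/
theorem Chain.inst {X : Type} {S : Set Rule} {Φ : Set (Form ℕ)} {Γ Y : Set (Form X)}
    (σ : ℕ → Form X) (hΦ : ∀ P ∈ Φ, P.subst σ ∈ Y) {c : List (Form ℕ)} (h : Chain S Φ ∅ c) :
    ∃ c' : List (Form X), Chain S Γ Y c' ∧ c'.length ≤ c.length ∧
      (∀ φ ∈ c', ∃ A ∈ c, φ = A.subst σ) ∧ ∀ A ∈ c, A.subst σ ∈ Y ∪ {ψ | ψ ∈ c'} := by
  induction h with
  | nil => exact ⟨[], Chain.nil, le_rfl, by simp, by simp⟩
  | @cons φ c h1 h2 ih =>
    obtain ⟨c', k1, k2, k3, k4⟩ := ih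
    rcases h2 with h2 | ⟨R, hR, τ, h3, h4⟩
    · refine ⟨c', k1, k2.trans (by simp), fun ψ hψ => ?_, ?_⟩
      · obtain ⟨A, hA, rfl⟩ := k3 ψ hψ
        exact ⟨A, List.mem_cons_of_mem _ hA, rfl⟩
      · intro A hA
        rcases List.mem_cons.mp hA with rfl | hA
        · exact Or.inl (hΦ _ h2)
        · exact k4 A hA
    · refine ⟨φ.subst σ :: c', Chain.cons k1 (Or.inr ⟨R, hR, fun i => (τ i).subst σ, ?_, ?_⟩),
        by simp [k2], ?_, ?_⟩
      · rw [← subst_subst, h3]
      · intro P hP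
        rw [← subst_subst]
        have h5 : P.subst τ ∈ c := by simpa using h4 P hP
        exact k4 _ h5
      · intro ψ hψ
        rcases List.mem_cons.mp hψ with rfl | hψ
        · exact ⟨φ, List.mem_cons_self, rfl⟩
        · obtain ⟨A, hA, rfl⟩ := k3 ψ hψ
          exact ⟨A, List.mem_cons_of_mem _ hA, rfl⟩
      · intro A hA
        rcases List.mem_cons.mp hA with rfl | hA
        · exact Or.inr List.mem_cons_self
        · rcases k4 A hA with h6 | h6
          · exact Or.inl h6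
          · exact Or.inr (List.mem_cons_of_mem _ h6)

/-- One rule is simulated. -/
theorem sim_rule {S : Set Rule} (hS : ImplComplete S) (R : Rule) (hR : R.Sound) : ∃ K : ℕ,
    ∀ (X : Type) (Γ Y : Set (Form X)) (s : ℕ) (σ : ℕ → Form X), 1 ≤ s →
      (∀ P ∈ R.prems, P.subst σ ∈ Y ∧ (P.subst σ).size ≤ s) → (R.concl.subst σ).size ≤ s →
      Reach S Γ (K * s) Y {R.concl.subst σ} K := by
  classical
  obtain ⟨l, L, h1, i0, h2⟩ := hS R hR
  obtain ⟨c, hc, hlen, hmem⟩ := chain_of_derivation l L h1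
  obtain ⟨K, hK⟩ : ∃ K : ℕ, ∀ A ∈ c, A.size ≤ K := by
    clear hlen hmem hc
    induction c with
    | nil => exact ⟨0, by simp⟩
    | cons A c ih =>
      obtain ⟨K, hK⟩ := ih
      refine ⟨max A.size K, fun B hB => ?_⟩
      rcases List.mem_cons.mp hB with rfl | hB
      · exact le_max_left _ _
      · exact (hK B hB).trans (le_max_right _ _)
  refine ⟨K + l, ?_⟩
  intro X Γ Y s σ hs hP hcs
  -- variables that do not occur in the rule are replaced by a constant
  let τ : ℕ → Form X := fun j =>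
    if occ j R.concl ∨ ∃ P ∈ R.prems, occ j P then σ j else tt
  have hτs : ∀ j, (τ j).size ≤ s := by
    intro j
    simp only [τ]
    split_ifs with h
    · rcases h with h | ⟨P, hP', h⟩
      · exact (size_occ σ j _ h).trans hcs
      · exact (size_occ σ j _ h).trans (hP P hP').2
    · exact hs
  have hτc : R.concl.subst τ = R.concl.subst σ :=
    subst_congr _ _ _ fun j hj => if_pos (Or.inl hj)
  have hτP : ∀ P ∈ R.prems, P.subst τ = P.subst σ := fun P hP' =>
    subst_congr _ _ _ fun j hj => if_pos (Or.inr ⟨P, hP', hj⟩)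
  obtain ⟨c', k1, k2, k3, k4⟩ := Chain.inst (Γ := Γ) (Y := Y) τ (Φ := {P | P ∈ R.prems})
    (fun P hP' => by rw [hτP P hP']; exact (hP P hP').1) hc
  refine ⟨c', k1, ?_, ?_, ?_⟩
  · rw [hlen] at k2
    omega
  · intro φ hφ
    obtain ⟨A, hA, rfl⟩ := k3 φ hφ
    calc (A.subst τ).size ≤ A.size * s := size_subst τ hs hτs A
      _ ≤ (K + l) * s := Nat.mul_le_mul_right _ ((hK A hA).trans (Nat.le_add_right _ _))
  · rintro ψ rfl
    rw [← hτc]
    exact k4 _ ((hmem _).mpr ⟨i0, h2⟩)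

/-- A finite set of rules is simulated. -/
theorem sim {S S' : Set Rule} (hS : ImplComplete S) (hfin : S'.Finite)
    (hsound : ∀ R ∈ S', R.Sound) : ∃ K : ℕ, 1 ≤ K ∧
    ∀ (X : Type) (Γ : Set (Form X)) (s : ℕ) (c : List (Form X)), 1 ≤ s → Chain S' Γ ∅ c →
      (∀ φ ∈ c, φ.size ≤ s) → Reach S Γ (K * s) ∅ {ψ | ψ ∈ c} (K * c.length) := by
  classical
  have h1 : ∀ R : Rule, ∃ K : ℕ, R ∈ S' → ∀ (X : Type) (Γ Y : Set (Form X)) (s : ℕ)
      (σ : ℕ → Form X), 1 ≤ s →
      (∀ P ∈ R.prems, P.subst σ ∈ Y ∧ (P.subst σ).size ≤ s) → (R.concl.subst σ).size ≤ s →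
      Reach S Γ (K * s) Y {R.concl.subst σ} K := by
    intro R
    by_cases hR : R ∈ S'
    · obtain ⟨K, hK⟩ := sim_rule hS R (hsound R hR)
      exact ⟨K, fun _ => hK⟩
    · exact ⟨0, fun h => absurd h hR⟩
  choose K0 hK0 using h1
  obtain ⟨K1, hK1⟩ : ∃ K1 : ℕ, ∀ R ∈ S', K0 R ≤ K1 := by
    obtain ⟨M, hM⟩ := (hfin.image K0).bddAbove
    exact ⟨M, fun R hR => hM ⟨R, hR, rfl⟩⟩
  refine ⟨K1 + 1, by omega, ?_⟩
  intro X Γ s c hs hc
  have weak : ∀ {Y Z : Set (Form X)} {a b m m' : ℕ}, Reach S Γ a Y Z m → a ≤ b → m ≤ m' →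
      Reach S Γ b Y Z m' := by
    rintro Y Z a b m m' ⟨l, q1, q2, q3, q4⟩ hab hmm
    exact ⟨l, q1, q2.trans hmm, fun φ hφ => (q3 φ hφ).trans hab, q4⟩
  induction hc with
  | nil =>
    intro _
    exact (Reach.refl (by simp)).mono le_rfl le_rfl (Nat.zero_le _)
  | @cons φ c h2 h3 ih =>
    intro hsz
    have h4 := ih fun ψ hψ => hsz ψ (List.mem_cons_of_mem _ hψ)
    have hφ := hsz φ List.mem_cons_self
    have h5 : Reach S Γ ((K1 + 1) * s) (∅ ∪ {ψ | ψ ∈ c}) {φ} (K1 + 1) := by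
      rcases h3 with h3 | ⟨R, hR, σ, h6, h7⟩
      · refine weak (Reach.step (s := s) (Or.inl h3) hφ) ?_ (by omega)
        exact Nat.le_mul_of_pos_left _ (by omega)
      · subst h6
        refine weak (hK0 R hR X Γ (∅ ∪ {ψ | ψ ∈ c}) s σ hs (fun P hP => ⟨h7 P hP, ?_⟩) hφ)
          (Nat.mul_le_mul_right _ ((hK1 R hR).trans (Nat.le_succ _)))
          ((hK1 R hR).trans (Nat.le_succ _))
        have h8 : P.subst σ ∈ c := by simpa using h7 P hP
        exact hsz _ (List.mem_cons_of_mem _ h8)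
    have h9 : Reach S Γ ((K1 + 1) * s) ∅ ({ψ | ψ ∈ c} ∪ {φ})
        ((K1 + 1) * c.length + ((K1 + 1) * c.length + (K1 + 1))) := h4.union (h4.trans h5)
    -- avoid the doubling: directly
    obtain ⟨l1, a1, a2, a3, a4⟩ := h4
    obtain ⟨l2, b1, b2, b3, b4⟩ := h5
    refine ⟨l2 ++ l1, a1.append (Y := ∅ ∪ {ψ | ψ ∈ c}) ?_ b1, ?_, ?_, ?_⟩
    · rintro ψ (hψ | hψ)
      · exact Or.inl hψ
      · exact a4 hψ
    · rw [List.length_append, List.length_cons]
      calc l2.length + l1.length ≤ (K1 + 1) + (K1 + 1) * c.length := Nat.add_le_add b2 a2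
        _ = (K1 + 1) * (c.length + 1) := by ring
    · intro ψ hψ
      rcases List.mem_append.mp hψ with h | h
      · exact b3 ψ h
      · exact a3 ψ h
    · intro ψ hψ
      rcases List.mem_cons.mp hψ with rfl | hψ
      · rcases b4 rfl with h | h
        · rcases h with h | h
          · exact absurd h (Set.notMem_empty _)
          · rcases a4 h with h' | h'
            · exact Or.inl h'
            · exact Or.inr (List.mem_append_right _ h')
        · exact Or.inr (List.mem_append_left _ h)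
      · rcases a4 hψ with h' | h'
        · exact Or.inl h'
        · exact Or.inr (List.mem_append_right _ h')

/-- Derivations by a finite set of sound rules are simulated by an implicationally complete set. -/
theorem sim_derivation {S S' : Set Rule} (hS : ImplComplete S) (hfin : S'.Finite)
    (hsound : ∀ R ∈ S', R.Sound) : ∃ K : ℕ, 1 ≤ K ∧
    ∀ (X : Type) (Γ : Set (Form X)) (s l : ℕ) (L : Fin l → Form X), 1 ≤ s → IsDerivation S' Γ L →
      (∀ i, (L i).size ≤ s) → ∃ (l' : ℕ) (L' : Fin l' → Form X), IsDerivation S Γ L' ∧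
        (∀ i, ∃ j, L' j = L i) ∧ (∀ j, (L' j).size ≤ K * s) ∧ l' ≤ K * l := by
  obtain ⟨K, hK1, hK⟩ := sim hS hfin hsound
  refine ⟨K, hK1, ?_⟩
  intro X Γ s l L hs hL hsz
  obtain ⟨c, hc, hlen, hmem⟩ := chain_of_derivation l L hL
  obtain ⟨c', k1, k2, k3, k4⟩ := hK X Γ s c hs hc (fun φ hφ => by
    obtain ⟨i, rfl⟩ := (hmem φ).mp hφ
    exact hsz i)
  obtain ⟨L', m1, m2, m3⟩ := k1.isDerivation
  refine ⟨c'.length, L', m1, fun i => ?_, fun j => k3 _ (m3 j), by rw [← hlen]; exact k2⟩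
  refine m2 _ ?_
  simpa using k4 ((hmem (L i)).mpr ⟨i, rfl⟩)

end Ub

/-- The upper bound for every implicationally complete set of rules. -/
theorem upper_complete (Δ : ℕ) (S : Set Rule) (hS : ImplComplete S) : ∃ C : ℕ,
    ∀ (V E : Type) [Fintype V] [Fintype E] (G : MG V E)
    (γ : V → ZMod 2) (N b : ℕ), G.DegLE Δ → ∑ v, γ v = 1 → Fintype.card V ≤ N →
      Fintype.card E ≤ N → 1 ≤ b → b ≤ N →
      ∃ (l : ℕ) (L : Fin l → Form E),
        IsDerivation S {φ | ∃ C ∈ G.tseitin γ, φ = clause C} L ∧ (∃ i, L i = Form.ff) ∧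
        (∀ i, (L i).size * b ≤ C * N ^ 2) ∧ l ≤ C * N ^ 2 * 2 ^ b := by
  obtain ⟨C, hC⟩ := upper Δ
  obtain ⟨K, hK1, hK⟩ := Ub.sim_derivation hS Ub.ubRules_finite Ub.ubRules_sound
  refine ⟨K * (C + 1), ?_⟩
  intro V E _ _ G γ N b hG hγ hV hE hb hbN
  obtain ⟨l, L, h1, ⟨i0, h2⟩, h3, h4⟩ := hC V E G γ N b hG hγ hV hE hb hbN
  have hN1 : 1 ≤ N := hb.trans hbN
  set s := (C + 1) * N ^ 2 / b with hs
  have hs1 : 1 ≤ s := by
    rw [hs, Nat.le_div_iff_mul_le (by omega), one_mul]
    calc b ≤ N := hbN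
      _ ≤ N ^ 2 := by nlinarith
      _ ≤ (C + 1) * N ^ 2 := Nat.le_mul_of_pos_left _ (by omega)
  obtain ⟨l', L', k1, k2, k3, k4⟩ := hK E _ s l L hs1 h1 fun i => by
    rw [hs, Nat.le_div_iff_mul_le (by omega)]
    exact (h3 i).trans (Nat.mul_le_mul_right _ (Nat.le_succ C))
  obtain ⟨j0, hj0⟩ := k2 i0
  refine ⟨l', L', k1, ⟨j0, hj0.trans h2⟩, fun j => ?_, ?_⟩
  · calc (L' j).size * b ≤ K * s * b := Nat.mul_le_mul_right _ (k3 j)
      _ = K * (s * b) := by ring
      _ ≤ K * ((C + 1) * N ^ 2) := Nat.mul_le_mul_left _ (Nat.div_mul_le_self _ _)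
      _ = K * (C + 1) * N ^ 2 := by ring
  · calc l' ≤ K * l := k4
      _ ≤ K * (C * N ^ 2 * 2 ^ b) := Nat.mul_le_mul_left _ h4
      _ ≤ K * ((C + 1) * N ^ 2 * 2 ^ b) := by gcongr; omega
      _ = K * (C + 1) * N ^ 2 * 2 ^ b := by ring

/-- The upper bound for lines of size `C N ^ (2 - ε)` and every implicationally complete set of
rules. -/
theorem upper_eps_complete (Δ : ℕ) (S : Set Rule) (hS : ImplComplete S) {ε : ℝ} (h0 : 0 < ε)
    (h1 : ε ≤ 1) : ∃ C : ℝ, 0 < C ∧
    ∀ (V E : Type) [Fintype V] [Fintype E] (G : MG V E) (γ : V → ZMod 2) (N : ℕ), G.DegLE Δ →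
      ∑ v, γ v = 1 → Fintype.card V ≤ N → Fintype.card E ≤ N →
      ∃ (l : ℕ) (L : Fin l → Form E),
        IsDerivation S {φ | ∃ C ∈ G.tseitin γ, φ = clause C} L ∧ (∃ i, L i = Form.ff) ∧
        (∀ i, ((L i).size : ℝ) ≤ C * (N : ℝ) ^ (2 - ε)) ∧ (l : ℝ) ≤ Real.exp (C * (N : ℝ) ^ ε) := by
  obtain ⟨C, hC⟩ := upper_complete Δ S hS
  refine ⟨C + (2 / ε + 2), by positivity, ?_⟩
  intro V E _ _ G γ N hG hγ hV hE
  obtain ⟨b, hb1, hbN, h6, h7⟩ := Ub.exists_b h0 h1 C (Ub.one_le hγ hV)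
  obtain ⟨l, L, h2, h3, h4, h5⟩ := hC V E G γ N b hG hγ hV hE hb1 hbN
  exact ⟨l, L, h2, h3, fun i => h6 _ (h4 i), h7 _ h5⟩

end Pool.Agent.MP_9cec2c_lc.SL
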