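import Pool.Agent.Lib.MP_9cec2c_lc.SL.Gr

/-!
TASK CubeA: characters of the cube `(Z/2)^E`, Fourier inversion, Parseval, degrees. (Similar facts for
`Fin D → ZMod 2` are proved in Pool/Agent/Lib/MP_8d8c46_lc/SDP/CubeF.lean: `F2_inv`, `F2_parseval`.)
`avg_chi`: for `S e ≠ 0` translation by `pt e` changes the sign of `chi S`.
`fc_inv`: `∑_S chi S (x) chi S (y) = ∏_e (1 + sg (x e + y e)) = 2^|E| [x = y]`, or compare with `avg_chi`
for the transposed roles (`dot` is symmetric).
-/

set_option autoImplicit false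

open Finset
open scoped Classical

namespace Pool.Agent.MP_9cec2c_lc.SL

variable {E : Type} [Fintype E]

private theorem CubeA_z2 (a : ZMod 2) : a = 0 ∨ a = 1 := by
  revert a
  decide

private theorem CubeA_sg_one : sg 1 = -1 := by
  unfold sg
  rw [if_neg (by decide)]

theorem sg_add (a b : ZMod 2) : sg (a + b) = sg a * sg b := by
  have h0 : sg 0 = 1 := by unfold sg; rw [if_pos rfl]
  have h11 : (1 : ZMod 2) + 1 = 0 := by decide
  rcases CubeA_z2 a with rfl | rfl <;> rcases CubeA_z2 b with rfl | rfl
  · rw [add_zero, h0, one_mul]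
  · rw [zero_add, h0, one_mul]
  · rw [add_zero, h0, mul_one]
  · rw [h11, h0, CubeA_sg_one]; norm_num

theorem sg_mul_self (a : ZMod 2) : sg a * sg a = 1 := by
  unfold sg
  split_ifs <;> norm_num

theorem sg_zero : sg 0 = 1 := by
  unfold sg
  rw [if_pos rfl]

theorem abs_sg (a : ZMod 2) : |sg a| = 1 := by
  unfold sg
  split_ifs <;> norm_num

theorem dot_comm (S T : Cube E) : dot S T = dot T S := by
  unfold dot
  exact sum_congr rfl fun e _ => mul_comm _ _

theorem dot_add_left (S T x : Cube E) : dot (S + T) x = dot S x + dot T x := by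
  unfold dot
  rw [← sum_add_distrib]
  exact sum_congr rfl fun e _ => by rw [Pi.add_apply, add_mul]

theorem dot_add_right (S x y : Cube E) : dot S (x + y) = dot S x + dot S y := by
  unfold dot
  rw [← sum_add_distrib]
  exact sum_congr rfl fun e _ => by rw [Pi.add_apply, mul_add]

theorem dot_zero_left (x : Cube E) : dot 0 x = 0 := by
  unfold dot
  exact sum_eq_zero fun e _ => by rw [Pi.zero_apply, zero_mul]

theorem dot_zero_right (S : Cube E) : dot S 0 = 0 := by
  rw [dot_comm, dot_zero_left]

theorem dot_pt (e : E) (x : Cube E) : dot (pt e) x = x e := by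
  unfold dot pt
  rw [sum_eq_single e]
  · rw [if_pos rfl, one_mul]
  · intro b _ hb
    rw [if_neg hb, zero_mul]
  · intro h
    exact absurd (mem_univ e) h

theorem chi_add (S T : Cube E) : chi (S + T) = chi S * chi T := by
  funext x
  rw [Pi.mul_apply]
  unfold chi
  rw [dot_add_left, sg_add]

private theorem CubeA_chi_add_right (S x y : Cube E) : chi S (x + y) = chi S x * chi S y := by
  unfold chi
  rw [dot_add_right, sg_add]

private theorem CubeA_chi_comm (S x : Cube E) : chi S x = chi x S := by
  unfold chi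
  rw [dot_comm]

private theorem CubeA_add_self (S : Cube E) : S + S = 0 := by
  funext e
  have h : ∀ a : ZMod 2, a + a = 0 := by decide
  exact h (S e)

private theorem CubeA_add_eq_zero {S T : Cube E} : S + T = 0 ↔ S = T := by
  constructor
  · intro h
    have h2 : S + T + T = T := by rw [h, zero_add]
    rw [add_assoc, CubeA_add_self, add_zero] at h2
    exact h2
  · intro h
    rw [h]
    exact CubeA_add_self T

theorem chi_zero : chi (0 : Cube E) = 1 := by
  funext x
  unfold chi
  rw [dot_zero_left, sg_zero]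
  rfl

theorem chi_mul_self (S : Cube E) : chi S * chi S = 1 := by
  rw [← chi_add, CubeA_add_self, chi_zero]

private theorem CubeA_chi_pt {S : Cube E} {e : E} (h : S e ≠ 0) : chi S (pt e) = -1 := by
  have h1 : S e = 1 := by
    rcases CubeA_z2 (S e) with h0 | h0
    · exact absurd h0 h
    · exact h0
  unfold chi
  rw [dot_comm, dot_pt, h1, CubeA_sg_one]

private theorem CubeA_sum_shift (f : Cube E → ℝ) (y : Cube E) : ∑ x, f (x + y) = ∑ x, f x :=
  Equiv.sum_comp (Equiv.addRight y) f

theorem avg_chi (S : Cube E) : avg (chi S) = if S = 0 then 1 else 0 := by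
  unfold avg
  split_ifs with h
  · rw [h, chi_zero]
    simp only [Pi.one_apply, sum_const, card_univ, nsmul_eq_mul, mul_one]
    rw [Fintype.card_fun, ZMod.card]
    push_cast
    exact div_self (by positivity)
  · have h1 : ∃ e, S e ≠ 0 := by
      by_contra hc
      push Not at hc
      exact h (funext hc)
    obtain ⟨e, he⟩ := h1
    have h2 : ∑ x, chi S (x + pt e) = ∑ x, chi S x := CubeA_sum_shift (chi S) (pt e)
    have h3 : ∑ x, chi S (x + pt e) = - ∑ x, chi S x := by
      rw [← sum_neg_distrib]
      refine sum_congr rfl fun x _ => ?_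
      rw [CubeA_chi_add_right, CubeA_chi_pt he, mul_neg_one]
    have h4 : ∑ x, chi S x = 0 := by linarith
    rw [h4, zero_div]

theorem avg_add (f g : Cube E → ℝ) : avg (f + g) = avg f + avg g := by
  unfold avg
  rw [← add_div, ← sum_add_distrib]
  rfl

theorem avg_smul (a : ℝ) (f : Cube E → ℝ) : avg (a • f) = a * avg f := by
  unfold avg
  rw [mul_div_assoc', mul_sum]
  rfl

theorem fc_chi (S T : Cube E) : fc (chi S) T = if S = T then 1 else 0 := by
  have h : fc (chi S) T = avg (chi (S + T)) := by
    rw [chi_add]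
    rfl
  rw [h, avg_chi]
  by_cases hST : S = T
  · rw [if_pos hST, if_pos (CubeA_add_eq_zero.2 hST)]
  · rw [if_neg hST, if_neg (fun hc => hST (CubeA_add_eq_zero.1 hc))]

theorem fc_add (f g : Cube E → ℝ) (S : Cube E) : fc (f + g) S = fc f S + fc g S := by
  unfold fc
  rw [← avg_add]
  congr 1
  funext x
  simp only [Pi.add_apply]
  ring

theorem fc_smul (a : ℝ) (f : Cube E → ℝ) (S : Cube E) : fc (a • f) S = a * fc f S := by
  unfold fc
  rw [← avg_smul]
  congr 1
  funext x
  simp only [Pi.smul_apply, smul_eq_mul]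
  ring

/-- Fourier inversion. -/
theorem fc_inv (f : Cube E → ℝ) : f = ∑ S, fc f S • chi S := by
  funext x
  rw [Finset.sum_apply]
  simp only [Pi.smul_apply, smul_eq_mul]
  have h1 : ∀ S : Cube E, fc f S * chi S x = ∑ y, f y * (chi S (y + x) / 2 ^ Fintype.card E) := by
    intro S
    unfold fc avg
    rw [div_mul_eq_mul_div, sum_mul, sum_div]
    refine sum_congr rfl fun y _ => ?_
    rw [CubeA_chi_add_right]
    ring
  rw [sum_congr rfl fun S _ => h1 S, sum_comm]
  have h2 : ∀ y : Cube E, ∑ S : Cube E, f y * (chi S (y + x) / 2 ^ Fintype.card E) =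
      if y = x then f y else 0 := by
    intro y
    rw [← mul_sum, ← sum_div]
    have h3 : (∑ S : Cube E, chi S (y + x)) / 2 ^ Fintype.card E = avg (chi (y + x)) := by
      unfold avg
      congr 1
      exact sum_congr rfl fun S _ => CubeA_chi_comm S (y + x)
    rw [h3, avg_chi]
    by_cases hyx : y = x
    · rw [if_pos hyx, if_pos (CubeA_add_eq_zero.2 hyx), mul_one]
    · rw [if_neg hyx, if_neg (fun hc => hyx (CubeA_add_eq_zero.1 hc)), mul_zero]
  rw [sum_congr rfl fun y _ => h2 y, sum_ite_eq' univ x f, if_pos (mem_univ x)]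

theorem parseval (f : Cube E → ℝ) : avg (f * f) = ∑ S, fc f S ^ 2 := by
  have h1 : avg (f * f) = avg (fun x => ∑ S, fc f S * (f x * chi S x)) := by
    congr 1
    funext x
    rw [Pi.mul_apply]
    have h2 : f x = ∑ S, fc f S * chi S x := by
      have h3 := congrFun (fc_inv f) x
      rw [Finset.sum_apply] at h3
      simpa only [Pi.smul_apply, smul_eq_mul] using h3
    calc f x * f x = f x * ∑ S, fc f S * chi S x := by rw [← h2]
      _ = ∑ S, fc f S * (f x * chi S x) := by
        rw [mul_sum]
        exact sum_congr rfl fun S _ => by ring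
  rw [h1]
  unfold avg
  rw [sum_comm, sum_div]
  refine sum_congr rfl fun S _ => ?_
  rw [← mul_sum, mul_div_assoc, sq]
  rfl

theorem wt_zero : wt (0 : Cube E) = 0 := by
  unfold wt
  rw [card_eq_zero, filter_eq_empty_iff]
  intro e _ h
  exact h rfl

theorem wt_eq_zero {S : Cube E} (h : wt S = 0) : S = 0 := by
  unfold wt at h
  rw [card_eq_zero, filter_eq_empty_iff] at h
  funext e
  by_contra hc
  exact h (mem_univ e) hc

theorem wt_add_le (S T : Cube E) : wt (S + T) ≤ wt S + wt T := by
  unfold wt
  refine le_trans (card_le_card ?_) (card_union_le _ _)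
  intro e he
  rw [mem_filter] at he
  rw [mem_union, mem_filter, mem_filter]
  by_contra hc
  push Not at hc
  have h1 := hc.1 (mem_univ e)
  have h2 := hc.2 (mem_univ e)
  exact he.2 (by rw [Pi.add_apply, h1, h2, add_zero])

theorem wt_pt (e : E) : wt (pt e) = 1 := by
  unfold wt
  rw [card_eq_one]
  refine ⟨e, ?_⟩
  ext w
  rw [mem_filter, mem_singleton]
  unfold pt
  constructor
  · intro h
    by_contra hc
    exact h.2 (if_neg hc)
  · intro h
    refine ⟨mem_univ w, ?_⟩
    rw [if_pos h]
    decide

theorem wt_mono {S T : Cube E} (h : ∀ e, S e ≠ 0 → T e ≠ 0) : wt S ≤ wt T := by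
  unfold wt
  refine card_le_card ?_
  intro e he
  rw [mem_filter] at he ⊢
  exact ⟨he.1, h e he.2⟩

theorem Fd_mono {a b : ℕ} (h : a ≤ b) : Fd E a ≤ Fd E b := by
  refine Submodule.span_mono ?_
  rintro f ⟨S, hS, rfl⟩
  exact ⟨S, hS.trans h, rfl⟩

theorem chi_mem {S : Cube E} {d : ℕ} (h : wt S ≤ d) : chi S ∈ Fd E d :=
  Submodule.subset_span ⟨S, h, rfl⟩

theorem one_mem_Fd (d : ℕ) : (1 : Cube E → ℝ) ∈ Fd E d := by
  rw [← chi_zero]
  exact chi_mem (by rw [wt_zero]; exact Nat.zero_le d)

theorem mul_mem_Fd {a b : ℕ} {f g : Cube E → ℝ} (hf : f ∈ Fd E a) (hg : g ∈ Fd E b) :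
    f * g ∈ Fd E (a + b) := by
  have key : ∀ S : Cube E, wt S ≤ a → ∀ g ∈ Fd E b, chi S * g ∈ Fd E (a + b) := by
    intro S hS g hg
    unfold Fd at hg
    induction hg using Submodule.span_induction with
    | mem x hx =>
      obtain ⟨T, hT, rfl⟩ := hx
      rw [← chi_add]
      exact chi_mem ((wt_add_le S T).trans (add_le_add hS hT))
    | zero => rw [mul_zero]; exact Submodule.zero_mem _
    | add x y _ _ hx hy => rw [mul_add]; exact Submodule.add_mem _ hx hy
    | smul c x _ hx => rw [mul_smul_comm]; exact Submodule.smul_mem _ c hx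
  unfold Fd at hf
  induction hf using Submodule.span_induction with
  | mem x hx =>
    obtain ⟨S, hS, rfl⟩ := hx
    exact key S hS g hg
  | zero => rw [zero_mul]; exact Submodule.zero_mem _
  | add x y _ _ hx hy => rw [add_mul]; exact Submodule.add_mem _ hx hy
  | smul c x _ hx => rw [smul_mul_assoc]; exact Submodule.smul_mem _ c hx

theorem fc_eq_zero {d : ℕ} {f : Cube E → ℝ} (hf : f ∈ Fd E d) {S : Cube E} (hS : d < wt S) :
    fc f S = 0 := by
  unfold Fd at hf
  induction hf using Submodule.span_induction with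
  | mem x hx =>
    obtain ⟨T, hT, rfl⟩ := hx
    rw [fc_chi, if_neg]
    intro h
    rw [h] at hT
    exact absurd hT (not_le.2 hS)
  | zero =>
    have h := fc_smul 0 (0 : Cube E → ℝ) S
    rw [zero_smul, zero_mul] at h
    exact h
  | add x y _ _ hx hy => rw [fc_add, hx, hy, add_zero]
  | smul c x _ hx => rw [fc_smul, hx, mul_zero]

theorem mem_Fd_of_fc {d : ℕ} {f : Cube E → ℝ} (h : ∀ S, d < wt S → fc f S = 0) : f ∈ Fd E d := by
  rw [fc_inv f]
  refine Submodule.sum_mem _ fun S _ => ?_
  rcases le_or_gt (wt S) d with hS | hS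
  · exact Submodule.smul_mem _ _ (chi_mem hS)
  · rw [h S hS, zero_smul]
    exact Submodule.zero_mem _

theorem xc_eq (e : E) : xc e = (1 / 2 : ℝ) • (1 - chi (pt e)) := by
  funext x
  rw [Pi.smul_apply, Pi.sub_apply, Pi.one_apply, smul_eq_mul]
  unfold xc chi
  rw [dot_pt]
  unfold sg
  split_ifs <;> norm_num

theorem xc_mem (e : E) : xc e ∈ Fd E 1 := by
  rw [xc_eq]
  exact Submodule.smul_mem _ _ (Submodule.sub_mem _ (one_mem_Fd 1) (chi_mem (wt_pt e).le))

theorem xc_idem (e : E) : xc e * xc e = xc e := by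
  funext x
  rw [Pi.mul_apply]
  unfold xc
  split_ifs <;> norm_num

/-- A function that depends only on the coordinates in `T` has degree at most `|T|`: if `S e ≠ 0` for
some `e ∉ T`, then translation by `pt e` fixes `f` and changes the sign of `chi S`, so `fc f S = 0`. -/
theorem local_mem (T : Finset E) {f : Cube E → ℝ}
    (h : ∀ x y : Cube E, (∀ e ∈ T, x e = y e) → f x = f y) : f ∈ Fd E T.card := by
  refine mem_Fd_of_fc fun S hS => ?_
  have h1 : ∃ e, e ∉ T ∧ S e ≠ 0 := by
    by_contra hc
    push Not at hc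
    have h2 : wt S ≤ T.card := by
      unfold wt
      refine card_le_card ?_
      intro e he
      rw [mem_filter] at he
      by_contra heT
      exact he.2 (hc e heT)
    exact absurd hS (not_lt.2 h2)
  obtain ⟨e, heT, he⟩ := h1
  have h2 := CubeA_sum_shift (fun x => f x * chi S x) (pt e)
  have h3 : ∑ x : Cube E, (fun x => f x * chi S x) (x + pt e) = - ∑ x, f x * chi S x := by
    rw [← sum_neg_distrib]
    refine sum_congr rfl fun x _ => ?_
    show f (x + pt e) * chi S (x + pt e) = -(f x * chi S x)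
    have h4 : f (x + pt e) = f x := by
      refine h _ _ fun e' he' => ?_
      rw [Pi.add_apply]
      unfold pt
      rw [if_neg, add_zero]
      intro hc
      rw [hc] at he'
      exact heT he'
    rw [h4, CubeA_chi_add_right, CubeA_chi_pt he]
    ring
  have h5 : ∑ x, f x * chi S x = 0 := by
    have h6 : ∑ x : Cube E, (fun x => f x * chi S x) x = ∑ x, f x * chi S x := rfl
    rw [h3, h6] at h2
    linarith
  unfold fc avg
  rw [h5, zero_div]

end Pool.Agent.MP_9cec2c_lc.SL
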