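import Mathlib

/-!
TASK ADAmp: tails of the binomial distribution (amplification by majority).
`amp_low`: every term with `2 i > l` has `w^i ≤ (1/10)^(2 i) ≤ (1/10)^l` and `0 ≤ (1-w)^(l-i) ≤ 1`, and
`∑ choose = 2^l`: the sum is at most `(2/10)^l`.
`amp_high`: the full sum is 1 (`add_pow` for `w + (1-w)`), the missing terms have `2 i ≤ l`, so
`(1-w)^(l-i) ≤ (1/10)^(l-i)` and `((1/10)^(l-i))² ≤ (1/10)^l`, i.e. `≤ (√(1/10))^l`, and
`2 √(1/10) ≤ 2/3`.
-/

set_option autoImplicit false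

open Finset

namespace Pool.Agent.MP_9cec2c_lc.SL

private theorem ADAmp_choose (l : ℕ) (s : Finset ℕ) (hs : s ⊆ range (l + 1)) :
    ∑ i ∈ s, (l.choose i : ℝ) ≤ 2 ^ l := by
  have e1 : ∑ i ∈ range (l + 1), (l.choose i : ℝ) = 2 ^ l := by
    exact_mod_cast Nat.sum_range_choose l
  rw [← e1]
  exact Finset.sum_le_sum_of_subset_of_nonneg hs fun _ _ _ => by positivity

theorem amp_low (l : ℕ) (w : ℝ) (h0 : 0 ≤ w) (h1 : w ≤ 1 / 100) :
    |∑ i ∈ (range (l + 1)).filter (fun i => l < 2 * i), (l.choose i : ℝ) * w ^ i * (1 - w) ^ (l - i)| ≤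
      (2 / 3) ^ l := by
  have h0' : 0 ≤ 1 - w := by linarith
  rw [abs_of_nonneg (Finset.sum_nonneg fun i _ => by positivity)]
  have h2 : w ≤ (1 / 3) ^ 2 := by
    norm_num
    linarith
  have h3 : ∀ i ∈ (range (l + 1)).filter (fun i => l < 2 * i),
      (l.choose i : ℝ) * w ^ i * (1 - w) ^ (l - i) ≤ (l.choose i : ℝ) * (1 / 3) ^ l := by
    intro i hi
    have hi2 : l < 2 * i := (Finset.mem_filter.1 hi).2
    rw [mul_assoc]
    refine mul_le_mul_of_nonneg_left ?_ (by positivity)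
    have h4 : w ^ i ≤ (1 / 3) ^ l := by
      refine (pow_le_pow_left₀ h0 h2 i).trans ?_
      rw [← pow_mul]
      exact pow_le_pow_of_le_one (by norm_num) (by norm_num) (by omega)
    have h5 : (1 - w) ^ (l - i) ≤ 1 := pow_le_one₀ h0' (by linarith)
    calc w ^ i * (1 - w) ^ (l - i) ≤ (1 / 3) ^ l * 1 :=
          mul_le_mul h4 h5 (by positivity) (by positivity)
      _ = (1 / 3) ^ l := mul_one _
  refine (Finset.sum_le_sum h3).trans ?_
  rw [← Finset.sum_mul]
  calc (∑ i ∈ (range (l + 1)).filter (fun i => l < 2 * i), (l.choose i : ℝ)) * (1 / 3) ^ l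
      ≤ 2 ^ l * (1 / 3) ^ l :=
        mul_le_mul_of_nonneg_right (ADAmp_choose l _ (Finset.filter_subset _ _)) (by positivity)
    _ = (2 / 3) ^ l := by rw [← mul_pow]; norm_num

theorem amp_high (l : ℕ) (w : ℝ) (h0 : 9 / 10 ≤ w) (h1 : w ≤ 1) :
    |∑ i ∈ (range (l + 1)).filter (fun i => l < 2 * i), (l.choose i : ℝ) * w ^ i * (1 - w) ^ (l - i) -
      1| ≤ (2 / 3) ^ l := by
  have hw0 : 0 ≤ w := by linarith
  have h0' : 0 ≤ 1 - w := by linarith
  have htot : ∑ i ∈ range (l + 1), (l.choose i : ℝ) * w ^ i * (1 - w) ^ (l - i) = 1 := by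
    have := add_pow w (1 - w) l
    rw [add_sub_cancel, one_pow] at this
    refine Eq.trans (Finset.sum_congr rfl fun i _ => ?_) this.symm
    ring
  have hsplit := Finset.sum_filter_add_sum_filter_not (range (l + 1)) (fun i => l < 2 * i)
    (fun i => (l.choose i : ℝ) * w ^ i * (1 - w) ^ (l - i))
  rw [htot] at hsplit
  have e1 : ∑ i ∈ (range (l + 1)).filter (fun i => l < 2 * i), (l.choose i : ℝ) * w ^ i * (1 - w) ^ (l - i) - 1 =
      -∑ i ∈ (range (l + 1)).filter (fun i => ¬ l < 2 * i), (l.choose i : ℝ) * w ^ i * (1 - w) ^ (l - i) := by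
    linarith
  rw [e1, abs_neg, abs_of_nonneg (Finset.sum_nonneg fun i _ => by positivity)]
  have h2 : 1 - w ≤ (1 / 3) ^ 2 := by
    norm_num
    linarith
  have h3 : ∀ i ∈ (range (l + 1)).filter (fun i => ¬ l < 2 * i),
      (l.choose i : ℝ) * w ^ i * (1 - w) ^ (l - i) ≤ (l.choose i : ℝ) * (1 / 3) ^ l := by
    intro i hi
    have hi1 : i < l + 1 := Finset.mem_range.1 (Finset.mem_filter.1 hi).1
    have hi2 : ¬ l < 2 * i := (Finset.mem_filter.1 hi).2
    rw [mul_assoc]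
    refine mul_le_mul_of_nonneg_left ?_ (by positivity)
    have h4 : (1 - w) ^ (l - i) ≤ (1 / 3) ^ l := by
      refine (pow_le_pow_left₀ h0' h2 (l - i)).trans ?_
      rw [← pow_mul]
      exact pow_le_pow_of_le_one (by norm_num) (by norm_num) (by omega)
    have h5 : w ^ i ≤ 1 := pow_le_one₀ hw0 h1
    calc w ^ i * (1 - w) ^ (l - i) ≤ 1 * (1 / 3) ^ l :=
          mul_le_mul h5 h4 (by positivity) (by norm_num)
      _ = (1 / 3) ^ l := one_mul _
  refine (Finset.sum_le_sum h3).trans ?_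
  rw [← Finset.sum_mul]
  calc (∑ i ∈ (range (l + 1)).filter (fun i => ¬ l < 2 * i), (l.choose i : ℝ)) * (1 / 3) ^ l
      ≤ 2 ^ l * (1 / 3) ^ l :=
        mul_le_mul_of_nonneg_right (ADAmp_choose l _ (Finset.filter_subset _ _)) (by positivity)
    _ = (2 / 3) ^ l := by rw [← mul_pow]; norm_num

end Pool.Agent.MP_9cec2c_lc.SL
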