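import Pool.Agent.Lib.MP_9cec2c_lc.SL.Alg

/-!
Campaign SL, definitions for the levels: monotone formulas over literals in negation normal form,
valuations in a world, the representation of a formula by a small formula or a skeleton with small
labels, and the next valuation.
-/

set_option autoImplicit false

open Finset

namespace Pool.Agent.MP_9cec2c_lc.SL

noncomputable section

/-- Formulas over AND, OR, constants and literals in `Λ`. -/
inductive Fm (Λ : Type) : Type
  | lit (l : Λ) : Fm Λ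
  | tt : Fm Λ
  | ff : Fm Λ
  | and (A B : Fm Λ) : Fm Λ
  | or (A B : Fm Λ) : Fm Λ

namespace Fm

variable {Λ : Type}

/-- The number of leaves (literals and constants). -/
def size : Fm Λ → ℕ
  | lit _ => 1
  | tt => 1
  | ff => 1
  | and A B => A.size + B.size
  | or A B => A.size + B.size

/-- The dual formula (negation normal form of the negation), `neg` being the negation of literals. -/
def dual (neg : Λ → Λ) : Fm Λ → Fm Λ
  | lit l => lit (neg l)
  | tt => ff
  | ff => tt
  | and A B => or (A.dual neg) (B.dual neg)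
  | or A B => and (A.dual neg) (B.dual neg)

/-- The exact value in a commutative ring. -/
def val {R : Type} [CommRing R] (x : Λ → R) : Fm Λ → R
  | lit l => x l
  | tt => 1
  | ff => 0
  | and A B => A.val x * B.val x
  | or A B => A.val x + B.val x - A.val x * B.val x

end Fm

/-- `v` is a valuation for formulas of size at most `τ` with parameters `c`, `ε`, `L`. -/
structure World.IsVal {R : Type} [CommRing R] [Algebra ℝ R] (W : World R) {Λ : Type}
    (v : Fm Λ → R) (τ c : ℕ) (ε : ℝ) (L : ℕ) : Prop where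
  v_tt : v Fm.tt = 1
  v_ff : v Fm.ff = 0
  bit : ∀ A : Fm Λ, A.size ≤ τ → W.IsBit c ε L (v A)
  and : ∀ A B : Fm Λ, A.size + B.size ≤ τ → ∀ f ∈ W.F L,
    W.N ((v (A.and B) - v A * v B) * f) ≤ ε * W.N f
  or : ∀ A B : Fm Λ, A.size + B.size ≤ τ → ∀ f ∈ W.F L,
    W.N ((v (A.or B) - (v A + v B - v A * v B)) * f) ≤ ε * W.N f

/-- A representation of a formula: closed (the formula itself), or open: a pair of formulas
`K0 = K[ff]`, `K1 = K[tt]` (for a context `K` with one hole) and a skeleton `G` to be put into the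
hole. -/
inductive Rep (Λ : Type) : Type
  | cl (A : Fm Λ) : Rep Λ
  | op (K0 K1 : Fm Λ) (G : Sk (Fm Λ)) : Rep Λ

/-- `K[G]` as the skeleton `K[ff] ∨ (G ∧ K[tt])`. -/
def close {Λ : Type} (K0 K1 : Fm Λ) (G : Sk (Fm Λ)) : Sk (Fm Λ) :=
  Sk.or (Sk.leaf K0) (Sk.and G (Sk.leaf K1))

namespace Rep

variable {Λ : Type}

/-- The skeleton of a representation. -/
def sk : Rep Λ → Sk (Fm Λ)
  | cl A => Sk.leaf A
  | op K0 K1 G => close K0 K1 G

/-- The representation of a conjunction. -/
def combAnd (τ : ℕ) : Rep Λ → Rep Λ → Rep Λ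
  | cl A, cl B => if A.size + B.size ≤ τ then cl (A.and B)
      else op Fm.ff Fm.tt (Sk.and (cl A).sk (cl B).sk)
  | op K0 K1 G, cl B => if K0.size + B.size ≤ τ then op (K0.and B) (K1.and B) G
      else op Fm.ff Fm.tt (Sk.and (op K0 K1 G).sk (cl B).sk)
  | cl A, op K0 K1 G => if A.size + K0.size ≤ τ then op (A.and K0) (A.and K1) G
      else op Fm.ff Fm.tt (Sk.and (cl A).sk (op K0 K1 G).sk)
  | op K0 K1 G, op K0' K1' G' => op Fm.ff Fm.tt (Sk.and (op K0 K1 G).sk (op K0' K1' G').sk)

/-- The representation of a disjunction. -/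
def combOr (τ : ℕ) : Rep Λ → Rep Λ → Rep Λ
  | cl A, cl B => if A.size + B.size ≤ τ then cl (A.or B)
      else op Fm.ff Fm.tt (Sk.or (cl A).sk (cl B).sk)
  | op K0 K1 G, cl B => if K0.size + B.size ≤ τ then op (K0.or B) (K1.or B) G
      else op Fm.ff Fm.tt (Sk.or (op K0 K1 G).sk (cl B).sk)
  | cl A, op K0 K1 G => if A.size + K0.size ≤ τ then op (A.or K0) (A.or K1) G
      else op Fm.ff Fm.tt (Sk.or (cl A).sk (op K0 K1 G).sk)
  | op K0 K1 G, op K0' K1' G' => op Fm.ff Fm.tt (Sk.or (op K0 K1 G).sk (op K0' K1' G').sk)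

/-- The invariant of the representation of the formula `A`. -/
def Good (τ : ℕ) (A : Fm Λ) : Rep Λ → Prop
  | cl A' => A' = A ∧ A.size ≤ τ
  | op K0 K1 G => K0.size = K1.size ∧ K0.size ≤ τ ∧ (∀ i, (G.lab i).size ≤ τ) ∧
      τ * (G.r + 6) + 8 * K0.size ≤ 8 * (A.size + 1)

end Rep

/-- The representation of a formula. -/
def rep {Λ : Type} (τ : ℕ) : Fm Λ → Rep Λ
  | Fm.lit l => Rep.cl (Fm.lit l)
  | Fm.tt => Rep.cl Fm.tt
  | Fm.ff => Rep.cl Fm.ff
  | Fm.and A B => Rep.combAnd τ (rep τ A) (rep τ B)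
  | Fm.or A B => Rep.combOr τ (rep τ A) (rep τ B)

/-- `q` approximates the skeleton `g` up to `(2/3)^l` and has degree at most `150 l √r`. -/
def IsApprox {α : Type} (l : ℕ) (g : Sk α) (q : (Fin g.r → Bool) → ℝ) : Prop :=
  (∀ b, |q b - ind (g.ev b)| ≤ (2 / 3) ^ l) ∧
    ∃ d : ℕ, (d : ℝ) ≤ 150 * l * Real.sqrt g.r ∧ q ∈ DegLE g.r d

open Classical in
/-- A polynomial that approximates the skeleton `g`. -/
def approx {α : Type} (l : ℕ) (g : Sk α) : (Fin g.r → Bool) → ℝ :=
  if h : ∃ q, IsApprox l g q then h.choose else 0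

/-- The value of a representation, computed with the approximating polynomial. -/
def Rep.aval {R : Type} [CommRing R] [Algebra ℝ R] {Λ : Type} (v : Fm Λ → R) (l : ℕ) : Rep Λ → R
  | cl A => v A
  | op K0 K1 G => mle (approx l (close K0 K1 G)) (fun i => v ((close K0 K1 G).lab i))

/-- The next valuation. -/
def next {R : Type} [CommRing R] [Algebra ℝ R] {Λ : Type} (v : Fm Λ → R) (τ l : ℕ) (A : Fm Λ) : R :=
  (rep τ A).aval v l

/-- The valuation for formulas of size 1, `x` being the values of the literals. -/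
def val0 {R : Type} [CommRing R] {Λ : Type} (x : Λ → R) : Fm Λ → R
  | Fm.lit l => x l
  | Fm.tt => 1
  | _ => 0

/-- The valuation after `k` levels. -/
def lev {R : Type} [CommRing R] [Algebra ℝ R] {Λ : Type} (x : Λ → R) (l M : ℕ) : ℕ → Fm Λ → R
  | 0 => val0 x
  | k + 1 => next (lev x l M k) (M ^ k) l

end

end Pool.Agent.MP_9cec2c_lc.SL
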