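import Pool.Agent.Lib.MP_9cec2c_lc.SL.ADPoly
import Pool.Agent.Lib.MP_9cec2c_lc.SL.ADAmp
import Pool.Agent.Lib.MP_9cec2c_lc.SL.Lev

/-!
TASK AD. Take `p`, `T` from `ad_poly`, `w = p²` (in `[0, 1/100]` if `g = 0`, in `[0.9, 1]` if `g = 1`),
`q b = ∑_{i ≤ l, l < 2i} (l choose i) (w b)^i (1 - w b)^(l-i)`; `amp_low`, `amp_high`. Degree:
`w ∈ DegLE (2T)`, every term has degree `≤ 2 T i + 2 T (l-i) = 2 T l`, and
`2 T l ≤ 142 l √r ≤ 150 l √r`. Take `d = 2 T l`. (`degLE_mul`, `degLE_pow`, `degLE_const`, sums.)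
`approx_spec` then is `Exists.choose_spec`; `approx_abs`: `|q| ≤ 1 + (2/3)^l ≤ 2`.
-/

set_option autoImplicit false

open Finset

namespace Pool.Agent.MP_9cec2c_lc.SL

theorem ad {α : Type} (g : Sk α) (l : ℕ) : ∃ q, IsApprox l g q := by
  obtain ⟨p, T, hT, hp, h1, h0⟩ := ad_poly g
  have hw : (fun b => p b ^ 2) ∈ DegLE g.r (2 * T) := degLE_pow hp 2
  have hw' : (fun b => 1 - p b ^ 2) ∈ DegLE g.r (2 * T) := Submodule.sub_mem _ (degLE_const _ 1) hw
  refine ⟨fun b => ∑ i ∈ (range (l + 1)).filter (fun i => l < 2 * i),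
    (l.choose i : ℝ) * (p b ^ 2) ^ i * (1 - p b ^ 2) ^ (l - i), ?_, 2 * T * l, ?_, ?_⟩
  · intro b
    by_cases hb : g.ev b = true
    · have e : ind (g.ev b) = 1 := by
        rw [hb]
        simp [ind]
      rw [e]
      obtain ⟨h2, h3⟩ := h1 b hb
      exact amp_high l (p b ^ 2) (by nlinarith) (by nlinarith)
    · have hb' : g.ev b = false := by simpa using hb
      have e : ind (g.ev b) = 0 := by
        rw [hb']
        simp [ind]
      rw [e, sub_zero]
      have h2 := abs_le.1 (h0 b hb')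
      exact amp_low l (p b ^ 2) (sq_nonneg _) (by nlinarith)
  · have hs : 0 ≤ Real.sqrt g.r := Real.sqrt_nonneg _
    push_cast
    have h2 : (2 : ℝ) * T * l ≤ 2 * (71 * Real.sqrt g.r) * l := by
      refine mul_le_mul_of_nonneg_right (mul_le_mul_of_nonneg_left hT (by norm_num)) (Nat.cast_nonneg _)
    have h3 : 0 ≤ (l : ℝ) * Real.sqrt g.r := mul_nonneg (Nat.cast_nonneg _) hs
    nlinarith
  · have e : (fun b => ∑ i ∈ (range (l + 1)).filter (fun i => l < 2 * i),
        (l.choose i : ℝ) * (p b ^ 2) ^ i * (1 - p b ^ 2) ^ (l - i)) =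
        ∑ i ∈ (range (l + 1)).filter (fun i => l < 2 * i),
          fun b => (l.choose i : ℝ) * (p b ^ 2) ^ i * (1 - p b ^ 2) ^ (l - i) := by
      ext b
      rw [Finset.sum_apply]
    rw [e]
    refine Submodule.sum_mem _ fun i hi => ?_
    have hi' : i ≤ l := by
      have := Finset.mem_range.1 (Finset.mem_filter.1 hi).1
      omega
    have e1 : 2 * T * l = (0 + i * (2 * T)) + (l - i) * (2 * T) := by
      rw [zero_add, ← Nat.add_mul, Nat.add_sub_cancel' hi']
      ring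
    rw [e1]
    exact degLE_mul (degLE_mul (degLE_const 0 _) (degLE_pow hw i)) (degLE_pow hw' (l - i))

theorem approx_spec {α : Type} (g : Sk α) (l : ℕ) : IsApprox l g (approx l g) := by
  unfold approx
  rw [dif_pos (ad g l)]
  exact (ad g l).choose_spec

theorem approx_abs {α : Type} (g : Sk α) (l : ℕ) (b : Fin g.r → Bool) : |approx l g b| ≤ 2 := by
  have h1 := (approx_spec g l).1 b
  have h2 : ((2 : ℝ) / 3) ^ l ≤ 1 := pow_le_one₀ (by norm_num) (by norm_num)
  have h3 : |ind (g.ev b)| ≤ 1 := by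
    unfold ind
    split_ifs <;> simp
  have h4 : approx l g b = (approx l g b - ind (g.ev b)) + ind (g.ev b) := by ring
  rw [h4]
  refine (abs_add_le _ _).trans ?_
  linarith

end Pool.Agent.MP_9cec2c_lc.SL
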