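import Mathlib

/-!
TASK ADWalk: two facts on linear isometries `U` of a real inner product space (not necessarily
complete, no dimension needed).

`ad_accept`: `a = 1/‖ψ‖²`, `e = a ψ + e'` with `⟨e', ψ⟩ = 0` (as `⟨e, ψ⟩ = 1`), `‖e'‖² = 1 - a`.
`U^t e = a ψ + U^t e'`, `⟨U^t e', ψ⟩ = ⟨U^t e', U^t ψ⟩ = 0`, so
`⟨e, U^t e⟩ = a² ‖ψ‖² + ⟨e', U^t e'⟩ ≥ a - ‖e'‖² = 2 a - 1 ≥ 80/41 - 1 ≥ 95/100`.

`ad_reject`: `U^(t+1) e = (U^(t+1) φ + U^t (U χ))/2 = (U^(t+1) φ - U^t φ)/2`, so the sum telescopes to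
`(U^T φ - φ)/2`, of norm at most `‖φ‖`.
-/

set_option autoImplicit false

open Finset

namespace Pool.Agent.MP_9cec2c_lc.SL

variable {H : Type} [NormedAddCommGroup H] [InnerProductSpace ℝ H]

private theorem ADWalk_iter (U : H →ₗᵢ[ℝ] H) (t : ℕ) (z : H) : (U.toLinearMap ^ t) z = U^[t] z := by
  rw [Module.End.pow_apply]
  rfl

private theorem ADWalk_norm (U : H →ₗᵢ[ℝ] H) (t : ℕ) (z : H) : ‖U^[t] z‖ = ‖z‖ := by
  induction t with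
  | zero => rfl
  | succ t ih => rw [Function.iterate_succ_apply', U.norm_map, ih]

private theorem ADWalk_sub (U : H →ₗᵢ[ℝ] H) (t : ℕ) (a b : H) : U^[t] (a - b) = U^[t] a - U^[t] b := by
  rw [← ADWalk_iter, ← ADWalk_iter, ← ADWalk_iter, map_sub]

theorem ad_accept (U : H →ₗᵢ[ℝ] H) (e ψ : H) (he : ‖e‖ = 1) (hψ : U ψ = ψ)
    (h1 : inner ℝ e ψ = 1) (h2 : ‖ψ‖ ^ 2 ≤ 41 / 40) (t : ℕ) :
    95 / 100 ≤ inner ℝ e (U^[t] e) := by
  have hUt : U^[t] ψ = ψ := Function.iterate_fixed hψ t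
  have hd : ‖e - ψ‖ ^ 2 ≤ 1 / 40 := by
    have h3 : ‖e - ψ‖ ^ 2 = ‖e‖ ^ 2 - 2 * inner ℝ e ψ + ‖ψ‖ ^ 2 := norm_sub_sq_real _ _
    rw [h3, he, h1]
    linarith
  have h3 : U^[t] e - e = U^[t] (e - ψ) - (e - ψ) := by
    rw [ADWalk_sub, hUt]
    abel
  have h4 : ‖U^[t] e - e‖ ≤ 2 * ‖e - ψ‖ := by
    rw [h3]
    refine (norm_sub_le _ _).trans ?_
    rw [ADWalk_norm]
    linarith
  have h6 : ‖U^[t] e - e‖ ^ 2 ≤ (2 * ‖e - ψ‖) ^ 2 := pow_le_pow_left₀ (norm_nonneg _) h4 2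
  have h7 : ‖U^[t] e - e‖ ^ 2 = ‖U^[t] e‖ ^ 2 - 2 * inner ℝ (U^[t] e) e + ‖e‖ ^ 2 := norm_sub_sq_real _ _
  rw [ADWalk_norm, he, real_inner_comm] at h7
  nlinarith

theorem ad_reject (U : H →ₗᵢ[ℝ] H) (e φ χ : H) (he : ‖e‖ = 1) (h1 : U χ = -φ)
    (h2 : (2 : ℝ) • e = φ + χ) (T : ℕ) :
    |∑ t ∈ range T, inner ℝ e (U^[t + 1] e)| ≤ ‖φ‖ := by
  have hesum : e = (1 / 2 : ℝ) • (φ + χ) := by
    rw [← h2, smul_smul]
    norm_num
  have hstep : ∀ t : ℕ, U^[t + 1] e = (1 / 2 : ℝ) • (U^[t + 1] φ - U^[t] φ) := by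
    intro t
    have e1 : (U.toLinearMap ^ (t + 1)) χ = -(U.toLinearMap ^ t) φ := by
      rw [pow_succ]
      show (U.toLinearMap ^ t) (U χ) = _
      rw [h1, map_neg]
    rw [← ADWalk_iter, ← ADWalk_iter, ← ADWalk_iter]
    conv_lhs => rw [hesum]
    rw [map_smul, map_add, e1, sub_eq_add_neg]
  have htel : ∀ n : ℕ, ∑ t ∈ range n, inner ℝ e (U^[t + 1] e) =
      1 / 2 * (inner ℝ e (U^[n] φ) - inner ℝ e φ) := by
    intro n
    induction n with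
    | zero => simp
    | succ n ih =>
      rw [Finset.sum_range_succ, ih, hstep n, inner_smul_right, inner_sub_right]
      ring
  have hle : ∀ z : H, |inner ℝ e z| ≤ ‖z‖ := by
    intro z
    have := abs_real_inner_le_norm e z
    rwa [he, one_mul] at this
  rw [htel, abs_mul, abs_of_pos (by norm_num : (0 : ℝ) < 1 / 2)]
  have e6 := abs_sub (inner ℝ e (U^[T] φ)) (inner ℝ e φ)
  have e7 := hle (U^[T] φ)
  rw [ADWalk_norm] at e7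
  have e8 := hle φ
  linarith

end Pool.Agent.MP_9cec2c_lc.SL
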