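import Pool.Agent.Lib.MP_9cec2c_lc.SL.Alg

/-!
TASK DegB: functions on `{0,1}^r` of degree at most `d`. (`mono S * mono T = mono (S ∪ T)`.)
-/

set_option autoImplicit false

open Finset

namespace Pool.Agent.MP_9cec2c_lc.SL

variable {r : ℕ}

private theorem DegB_mono_mul (S T : Finset (Fin r)) : (fun x => mono S x * mono T x) = mono (S ∪ T) := by
  ext x
  unfold mono
  by_cases h1 : ∀ i ∈ S, x i = true
  · by_cases h2 : ∀ i ∈ T, x i = true
    · have h3 : ∀ i ∈ S ∪ T, x i = true := by
        intro i hi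
        rcases Finset.mem_union.1 hi with h | h
        · exact h1 i h
        · exact h2 i h
      rw [if_pos h1, if_pos h2, if_pos h3, mul_one]
    · have h3 : ¬ ∀ i ∈ S ∪ T, x i = true := by
        intro h
        exact h2 fun i hi => h i (Finset.mem_union_right _ hi)
      rw [if_neg h2, if_neg h3, mul_zero]
  · have h3 : ¬ ∀ i ∈ S ∪ T, x i = true := by
      intro h
      exact h1 fun i hi => h i (Finset.mem_union_left _ hi)
    rw [if_neg h1, if_neg h3, zero_mul]

private theorem DegB_one (a : ℕ) : (1 : (Fin r → Bool) → ℝ) ∈ DegLE r a := by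
  apply Submodule.subset_span
  refine ⟨∅, by simp, ?_⟩
  ext x
  simp [mono]

theorem degLE_mono {a b : ℕ} (h : a ≤ b) : DegLE r a ≤ DegLE r b := by
  apply Submodule.span_mono
  rintro f ⟨S, hS, rfl⟩
  exact ⟨S, hS.trans h, rfl⟩

theorem degLE_const (a : ℕ) (x : ℝ) : (fun _ => x) ∈ DegLE r a := by
  have e : (fun _ => x) = x • (1 : (Fin r → Bool) → ℝ) := by
    ext b
    simp
  rw [e]
  exact Submodule.smul_mem _ _ (DegB_one a)

theorem degLE_coord (i : Fin r) : (fun b : Fin r → Bool => ind (b i)) ∈ DegLE r 1 := by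
  apply Submodule.subset_span
  refine ⟨{i}, by simp, ?_⟩
  ext x
  simp [mono, ind]

private theorem DegB_mul {a b : ℕ} {f g : (Fin r → Bool) → ℝ} (hf : f ∈ DegLE r a) (hg : g ∈ DegLE r b) :
    f * g ∈ DegLE r (a + b) := by
  unfold DegLE at hf hg
  induction hf using Submodule.span_induction with
  | mem f hf =>
    obtain ⟨S, hS, rfl⟩ := hf
    induction hg using Submodule.span_induction with
    | mem g hg =>
      obtain ⟨T, hT, rfl⟩ := hg
      apply Submodule.subset_span
      exact ⟨S ∪ T, (Finset.card_union_le S T).trans (by omega), DegB_mono_mul S T⟩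
    | zero => rw [mul_zero]; exact Submodule.zero_mem _
    | add g h _ _ ihg ihh => rw [mul_add]; exact Submodule.add_mem _ ihg ihh
    | smul c g _ ihg => rw [mul_smul_comm]; exact Submodule.smul_mem _ _ ihg
  | zero => rw [zero_mul]; exact Submodule.zero_mem _
  | add f h _ _ ihf ihh => rw [add_mul]; exact Submodule.add_mem _ ihf ihh
  | smul c f _ ihf => rw [smul_mul_assoc]; exact Submodule.smul_mem _ _ ihf

theorem degLE_mul {a b : ℕ} {f g : (Fin r → Bool) → ℝ} (hf : f ∈ DegLE r a) (hg : g ∈ DegLE r b) :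
    (fun x => f x * g x) ∈ DegLE r (a + b) := DegB_mul hf hg

theorem degLE_pow {a : ℕ} {f : (Fin r → Bool) → ℝ} (hf : f ∈ DegLE r a) (n : ℕ) :
    (fun x => f x ^ n) ∈ DegLE r (n * a) := by
  induction n with
  | zero =>
    simp only [pow_zero]
    exact degLE_const _ _
  | succ n ih =>
    simp only [pow_succ]
    rw [Nat.succ_mul]
    exact degLE_mul ih hf

end Pool.Agent.MP_9cec2c_lc.SL
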