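import Pool.Agent.Lib.MP_9cec2c_lc.SL.ADVec
import Pool.Agent.Lib.MP_9cec2c_lc.SL.ADWalk
import Pool.Agent.Lib.MP_9cec2c_lc.SL.DegB

/-!
TASK ADPoly (the quantum walk polynomial). Let `r = g.r`, `w = √r`. Take the vectors `u_y, v_x` of
`ad_vec` for `t = 1/w`: `∑ u² ≤ r t = w`, `∑ v² ≤ 1/t = w`. Let `β > 0` with `β² = 1/(40 w)`. In the
Euclidean space `H` with coordinates `Option (Fin r)` (`e₀` the unit vector of `none`), let
`ψ_y = e₀ + β u_y` for `g(y) = 1`, `φ_x = e₀ - β⁻¹ v_x` for `g(x) = 0`; they are orthogonal: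
`1 - ⟨u_y, v_x⟩ = 0`. Let `K = span {ψ_y}`, `M` the reflection in `K` (`Submodule.reflection`: identity
on `K`, `-1` on the orthogonal complement), `R_x = diag (1, ρ_i)`, `ρ_i = 1` if `x_i = 1`, `-1` if
`x_i = 0` (an isometry), `U_x = M ∘ R_x`.
* `g(x) = 1`: `R_x ψ_x = ψ_x` (`u_x` lives where `ρ = 1`), `M ψ_x = ψ_x`; `‖ψ_x‖² ≤ 1 + β² w = 41/40`;
  `ad_accept` gives `⟨e₀, U_x^t e₀⟩ ≥ 0.95`, and it is at most 1.
* `g(x) = 0`: `χ = R_x φ_x = e₀ + β⁻¹ v_x` (`v_x` lives where `ρ = -1`), so `φ_x + χ = 2 e₀`, and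
  `U_x χ = M (R_x R_x φ_x) = M φ_x = -φ_x`. `‖φ_x‖² ≤ 1 + 40 w · w = 1 + 40 r ≤ 41 r`. `ad_reject`.
Let `T = ⌈70 w⌉₊ ≤ 71 w`, `p x = (1/T) ∑_{t<T} ⟨e₀, U_x^(t+1) e₀⟩`. Then `p x ∈ [0.95, 1]` resp.
`|p x| ≤ √(41 r)/(70 √r) ≤ 1/10`. Degree: by induction on `t` every coordinate of `U_x^t e₀`, as a
function of `x`, belongs to `DegLE r t`: the coordinates of `R_x w` are `w_none` and
`(2 ind (x i) - 1) w_i`, and `M` is a fixed linear map (matrix). (`degLE_mul`, `degLE_coord`.)
-/

set_option autoImplicit false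

open Finset

namespace Pool.Agent.MP_9cec2c_lc.SL

private noncomputable def ADPoly_vec {r : ℕ} (u : Fin r → ℝ) : EuclideanSpace ℝ (Option (Fin r)) :=
  WithLp.toLp 2 fun j => j.elim 1 u

private theorem ADPoly_inner {r : ℕ} (a b : EuclideanSpace ℝ (Option (Fin r))) :
    inner ℝ a b = a none * b none + ∑ i, a (some i) * b (some i) := by
  rw [PiLp.inner_apply, Fintype.sum_option]
  simp only [RCLike.inner_apply, conj_trivial]
  rw [mul_comm]
  congr 1
  exact Finset.sum_congr rfl fun i _ => mul_comm _ _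

private theorem ADPoly_norm_sq {r : ℕ} (a : EuclideanSpace ℝ (Option (Fin r))) :
    ‖a‖ ^ 2 = a none ^ 2 + ∑ i, a (some i) ^ 2 := by
  rw [← real_inner_self_eq_norm_sq, ADPoly_inner]
  simp only [sq]

/-- the diagonal matrix of signs -/
private noncomputable def ADPoly_R {r : ℕ} (x : Fin r → Bool) :
    EuclideanSpace ℝ (Option (Fin r)) →ₗᵢ[ℝ] EuclideanSpace ℝ (Option (Fin r)) where
  toFun z := WithLp.toLp 2 fun j => j.elim (z none) fun i => (2 * ind (x i) - 1) * z (some i)
  map_add' := by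
    intro a b
    ext j
    cases j with
    | none => rfl
    | some i =>
      show (2 * ind (x i) - 1) * (a (some i) + b (some i)) =
        (2 * ind (x i) - 1) * a (some i) + (2 * ind (x i) - 1) * b (some i)
      ring
  map_smul' := by
    intro c a
    ext j
    cases j with
    | none => rfl
    | some i =>
      show (2 * ind (x i) - 1) * (c * a (some i)) = c * ((2 * ind (x i) - 1) * a (some i))
      ring
  norm_map' := by
    intro z
    set y : EuclideanSpace ℝ (Option (Fin r)) :=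
      WithLp.toLp 2 fun j => j.elim (z none) fun i => (2 * ind (x i) - 1) * z (some i) with hy
    show ‖y‖ = ‖z‖
    have h : ‖y‖ ^ 2 = ‖z‖ ^ 2 := by
      rw [ADPoly_norm_sq, ADPoly_norm_sq]
      have e0 : y none = z none := rfl
      have e1 : ∀ i, y (some i) = (2 * ind (x i) - 1) * z (some i) := fun i => rfl
      rw [e0]
      congr 1
      refine Finset.sum_congr rfl fun i _ => ?_
      rw [e1]
      unfold ind
      split_ifs <;> ring
    exact (sq_eq_sq₀ (norm_nonneg _) (norm_nonneg _)).1 h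

private theorem ADPoly_R_none {r : ℕ} (x : Fin r → Bool) (z : EuclideanSpace ℝ (Option (Fin r))) :
    (ADPoly_R x z) none = z none := rfl

private theorem ADPoly_R_some {r : ℕ} (x : Fin r → Bool) (z : EuclideanSpace ℝ (Option (Fin r))) (i : Fin r) :
    (ADPoly_R x z) (some i) = (2 * ind (x i) - 1) * z (some i) := rfl

private theorem ADPoly_RR {r : ℕ} (x : Fin r → Bool) (a : EuclideanSpace ℝ (Option (Fin r))) :
    ADPoly_R x (ADPoly_R x a) = a := by
  ext j
  cases j with
  | none => rfl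
  | some i =>
    rw [ADPoly_R_some, ADPoly_R_some]
    unfold ind
    split_ifs <;> ring

/-- one step of the walk -/
private noncomputable def ADPoly_U {r : ℕ} (W : Submodule ℝ (EuclideanSpace ℝ (Option (Fin r)))) (x : Fin r → Bool) :
    EuclideanSpace ℝ (Option (Fin r)) →ₗᵢ[ℝ] EuclideanSpace ℝ (Option (Fin r)) :=
  W.reflection.toLinearIsometry.comp (ADPoly_R x)

private theorem ADPoly_U_apply {r : ℕ} (W : Submodule ℝ (EuclideanSpace ℝ (Option (Fin r)))) (x : Fin r → Bool)
    (z : EuclideanSpace ℝ (Option (Fin r))) : ADPoly_U W x z = W.reflection (ADPoly_R x z) := rfl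

/-- the coordinates of the walk are of small degree -/
private theorem ADPoly_deg {r : ℕ} (W : Submodule ℝ (EuclideanSpace ℝ (Option (Fin r))))
    (e : EuclideanSpace ℝ (Option (Fin r))) (t : ℕ) :
    ∀ j, (fun x => ((ADPoly_U W x)^[t] e) j) ∈ DegLE r t := by
  induction t with
  | zero =>
    intro j
    exact degLE_const 0 (e j)
  | succ t ih =>
    intro j
    have hR : ∀ k, (fun x => (ADPoly_R x ((ADPoly_U W x)^[t] e)) k) ∈ DegLE r (t + 1) := by
      intro k
      cases k with
      | none => exact degLE_mono (Nat.le_succ t) (ih none)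
      | some i =>
        have h1 : (fun x : Fin r → Bool => 2 * ind (x i) - 1) ∈ DegLE r 1 := by
          have h2 := degLE_mul (degLE_const (r := r) 0 2) (degLE_coord i)
          rw [zero_add] at h2
          exact Submodule.sub_mem _ h2 (degLE_const (r := r) 1 1)
        rw [add_comm t 1]
        exact degLE_mul h1 (ih (some i))
    have e2 : (fun x => ((ADPoly_U W x)^[t + 1] e) j) =
        ∑ k, (W.reflection (EuclideanSpace.single k 1) j) • fun x => (ADPoly_R x ((ADPoly_U W x)^[t] e)) k := by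
      ext x
      rw [Function.iterate_succ_apply', Finset.sum_apply]
      have e3 : ADPoly_R x ((ADPoly_U W x)^[t] e) =
          ∑ k, (ADPoly_R x ((ADPoly_U W x)^[t] e)) k • EuclideanSpace.single k (1 : ℝ) := by
        have h := (EuclideanSpace.basisFun (Option (Fin r)) ℝ).sum_repr (ADPoly_R x ((ADPoly_U W x)^[t] e))
        simp only [EuclideanSpace.basisFun_apply, EuclideanSpace.basisFun_repr] at h
        exact h.symm
      show (W.reflection (ADPoly_R x ((ADPoly_U W x)^[t] e))) j = _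
      conv_lhs => rw [e3]
      rw [map_sum]
      simp only [map_smul]
      simp [mul_comm]
    rw [e2]
    exact Submodule.sum_mem _ fun k _ => Submodule.smul_mem _ _ (hR k)

theorem ad_poly {α : Type} (g : Sk α) : ∃ (p : (Fin g.r → Bool) → ℝ) (T : ℕ),
    (T : ℝ) ≤ 71 * Real.sqrt g.r ∧ p ∈ DegLE g.r T ∧
    (∀ b, g.ev b = true → 95 / 100 ≤ p b ∧ p b ≤ 1) ∧ (∀ b, g.ev b = false → |p b| ≤ 1 / 10) := by
  have hr1 : (1 : ℝ) ≤ g.r := by exact_mod_cast g.one_le_r
  set R : ℝ := Real.sqrt g.r with hRdef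
  have hRsq : R ^ 2 = g.r := Real.sq_sqrt (by linarith)
  have hR1 : 1 ≤ R := by
    rw [hRdef]
    exact Real.one_le_sqrt.2 hr1
  have hR0 : 0 < R := by linarith
  obtain ⟨u, v, hu, hv, huv⟩ := ad_vec g (1 / R) (by positivity)
  have hu' : ∀ y, g.ev y = true → ∑ i, u y i ^ 2 ≤ R := by
    intro y hy
    refine (hu y hy).2.trans ?_
    rw [mul_one_div, div_le_iff₀ hR0, ← hRsq, sq]
  have hv' : ∀ x, g.ev x = false → ∑ i, v x i ^ 2 ≤ R := by
    intro x hx
    refine (hv x hx).2.trans ?_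
    rw [one_div_one_div]
  set β : ℝ := Real.sqrt (1 / (40 * R)) with hβ
  have hβ2 : β ^ 2 = 1 / (40 * R) := Real.sq_sqrt (by positivity)
  have hβ0 : 0 < β := Real.sqrt_pos.2 (by positivity)
  set ψ : (Fin g.r → Bool) → EuclideanSpace ℝ (Option (Fin g.r)) := fun y => ADPoly_vec fun i => β * u y i with hψ
  set φ : (Fin g.r → Bool) → EuclideanSpace ℝ (Option (Fin g.r)) := fun x => ADPoly_vec fun i => -(β⁻¹ * v x i) with hφ
  set W : Submodule ℝ (EuclideanSpace ℝ (Option (Fin g.r))) :=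
    Submodule.span ℝ {z | ∃ y, g.ev y = true ∧ z = ψ y} with hW
  set e : EuclideanSpace ℝ (Option (Fin g.r)) := ADPoly_vec fun _ => 0 with he
  have heN : ‖e‖ ^ 2 = 1 := by
    rw [ADPoly_norm_sq]
    show (1 : ℝ) ^ 2 + ∑ i : Fin g.r, (0 : ℝ) ^ 2 = 1
    simp
  have heN' : ‖e‖ = 1 := by
    have h0 := norm_nonneg e
    nlinarith
  have hnone : ∀ z : EuclideanSpace ℝ (Option (Fin g.r)), z none = inner ℝ e z := by
    intro z
    rw [ADPoly_inner]
    show z none = 1 * z none + ∑ i : Fin g.r, 0 * z (some i)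
    simp
  set T : ℕ := ⌈70 * R⌉₊ with hTdef
  have hT70 : 70 * R ≤ T := Nat.le_ceil _
  have hT71 : (T : ℝ) ≤ 71 * R := by
    have := Nat.ceil_lt_add_one (show 0 ≤ 70 * R by positivity)
    rw [← hTdef] at this
    linarith
  have hT : (0 : ℝ) < (T : ℝ) := by linarith
  have hnorm1 : ∀ (x : Fin g.r → Bool) (t : ℕ), ‖(ADPoly_U W x)^[t] e‖ = 1 := by
    intro x t
    induction t with
    | zero => exact heN'
    | succ t ih => rw [Function.iterate_succ_apply', LinearIsometry.norm_map, ih]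
  refine ⟨(1 / (T : ℝ)) • ∑ t ∈ Finset.range T, fun x => ((ADPoly_U W x)^[t + 1] e) none, T, hT71, ?_, ?_, ?_⟩
  · refine Submodule.smul_mem _ _ (Submodule.sum_mem _ fun t ht => ?_)
    exact degLE_mono (Nat.succ_le_of_lt (Finset.mem_range.1 ht)) (ADPoly_deg W e (t + 1) none)
  · intro x hx
    have hRψ : ADPoly_R x (ψ x) = ψ x := by
      ext j
      cases j with
      | none => rfl
      | some i =>
        rw [ADPoly_R_some]
        show (2 * ind (x i) - 1) * (β * u x i) = β * u x i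
        unfold ind
        by_cases hi : x i = true
        · rw [if_pos hi]
          ring
        · rw [(hu x hx).1 i (by simpa using hi)]
          ring
    have hUψ : ADPoly_U W x (ψ x) = ψ x := by
      rw [ADPoly_U_apply, hRψ, Submodule.reflection_mem_subspace_eq_self]
      exact Submodule.subset_span ⟨x, hx, rfl⟩
    have hψN : ‖ψ x‖ ^ 2 ≤ 41 / 40 := by
      rw [ADPoly_norm_sq]
      show (1 : ℝ) ^ 2 + ∑ i : Fin g.r, (β * u x i) ^ 2 ≤ 41 / 40
      have e1 : ∑ i : Fin g.r, (β * u x i) ^ 2 = β ^ 2 * ∑ i, u x i ^ 2 := by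
        rw [Finset.mul_sum]
        exact Finset.sum_congr rfl fun i _ => by ring
      rw [e1, hβ2]
      have e2 : 1 / (40 * R) * ∑ i, u x i ^ 2 ≤ 1 / (40 * R) * R :=
        mul_le_mul_of_nonneg_left (hu' x hx) (by positivity)
      have e3 : 1 / (40 * R) * R = 1 / 40 := by
        field_simp
      linarith
    have hin : inner ℝ e (ψ x) = 1 := by
      rw [← hnone]
      rfl
    have hterm : ∀ t : ℕ, 95 / 100 ≤ ((ADPoly_U W x)^[t] e) none := by
      intro t
      rw [hnone]
      exact ad_accept (ADPoly_U W x) e (ψ x) heN' hUψ hin hψN t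
    have hterm' : ∀ t : ℕ, ((ADPoly_U W x)^[t] e) none ≤ 1 := by
      intro t
      rw [hnone]
      refine (real_inner_le_norm _ _).trans ?_
      rw [heN', hnorm1, mul_one]
    constructor
    · show 95 / 100 ≤ (1 / (T : ℝ)) * (∑ t ∈ Finset.range T, fun x => ((ADPoly_U W x)^[t + 1] e) none) x
      rw [Finset.sum_apply, one_div, le_inv_mul_iff₀ hT]
      have h8 : ∑ t ∈ Finset.range T, (95 / 100 : ℝ) ≤ ∑ t ∈ Finset.range T, ((ADPoly_U W x)^[t + 1] e) none :=
        Finset.sum_le_sum fun t _ => hterm (t + 1)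
      rw [Finset.sum_const, Finset.card_range, nsmul_eq_mul] at h8
      exact h8
    · show (1 / (T : ℝ)) * (∑ t ∈ Finset.range T, fun x => ((ADPoly_U W x)^[t + 1] e) none) x ≤ 1
      rw [Finset.sum_apply, one_div, inv_mul_le_iff₀ hT, mul_one]
      have h8 : ∑ t ∈ Finset.range T, ((ADPoly_U W x)^[t + 1] e) none ≤ ∑ t ∈ Finset.range T, (1 : ℝ) :=
        Finset.sum_le_sum fun t _ => hterm' (t + 1)
      rw [Finset.sum_const, Finset.card_range, nsmul_eq_mul, mul_one] at h8
      exact h8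
  · intro x hx
    have hperp : φ x ∈ Wᗮ := by
      rw [Submodule.mem_orthogonal]
      intro z hz
      induction hz using Submodule.span_induction with
      | mem z hz =>
        obtain ⟨y, hy, rfl⟩ := hz
        rw [ADPoly_inner]
        show (1 : ℝ) * 1 + ∑ i : Fin g.r, β * u y i * -(β⁻¹ * v x i) = 0
        have e1 : ∑ i : Fin g.r, β * u y i * -(β⁻¹ * v x i) = -∑ i, u y i * v x i := by
          rw [← Finset.sum_neg_distrib]
          refine Finset.sum_congr rfl fun i _ => ?_
          field_simp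
        rw [e1, huv y x hy hx]
        ring
      | zero => exact inner_zero_left _
      | add a b _ _ iha ihb => rw [inner_add_left, iha, ihb, add_zero]
      | smul c a _ iha => rw [inner_smul_left, iha, mul_zero]
    have hUR : ADPoly_U W x (ADPoly_R x (φ x)) = -φ x := by
      rw [ADPoly_U_apply, ADPoly_RR]
      exact Submodule.reflection_mem_subspace_orthogonalComplement_eq_neg hperp
    have hesum : (2 : ℝ) • e = φ x + ADPoly_R x (φ x) := by
      ext j
      cases j with
      | none =>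
        show (2 : ℝ) * 1 = 1 + 1
        norm_num
      | some i =>
        show (2 : ℝ) * 0 = -(β⁻¹ * v x i) + (2 * ind (x i) - 1) * -(β⁻¹ * v x i)
        unfold ind
        by_cases hi : x i = true
        · rw [(hv x hx).1 i hi]
          ring
        · rw [if_neg hi]
          ring
    have hnorm : ‖φ x‖ ≤ 7 * R := by
      have e1 : ‖φ x‖ ^ 2 ≤ (7 * R) ^ 2 := by
        rw [ADPoly_norm_sq]
        show (1 : ℝ) ^ 2 + ∑ i : Fin g.r, (-(β⁻¹ * v x i)) ^ 2 ≤ (7 * R) ^ 2
        have e2 : ∑ i : Fin g.r, (-(β⁻¹ * v x i)) ^ 2 = (β ^ 2)⁻¹ * ∑ i, v x i ^ 2 := by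
          rw [Finset.mul_sum]
          refine Finset.sum_congr rfl fun i _ => ?_
          field_simp
        rw [e2, hβ2]
        have e3 : (1 / (40 * R))⁻¹ * ∑ i, v x i ^ 2 ≤ (1 / (40 * R))⁻¹ * R :=
          mul_le_mul_of_nonneg_left (hv' x hx) (by positivity)
        have e4 : (1 / (40 * R))⁻¹ * R = 40 * R ^ 2 := by
          field_simp
        nlinarith
      exact le_of_sq_le_sq e1 (by positivity)
    have hrej := ad_reject (ADPoly_U W x) e (φ x) (ADPoly_R x (φ x)) heN' hUR hesum T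
    show |(1 / (T : ℝ)) * (∑ t ∈ Finset.range T, fun x => ((ADPoly_U W x)^[t + 1] e) none) x| ≤ 1 / 10
    rw [Finset.sum_apply, abs_mul, abs_of_pos (by positivity : (0 : ℝ) < 1 / (T : ℝ)), one_div,
      inv_mul_le_iff₀ hT]
    simp only [hnone]
    refine hrej.trans (hnorm.trans ?_)
    linarith

end Pool.Agent.MP_9cec2c_lc.SL
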