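import Pool.Agent.Lib.MP_9cec2c_lc.SL.Alg

/-!
TASK ADVec. Induction on `g`, for all `t > 0`. (Define the vectors by the formulas below for all
arguments; only the cases named in the statement matter. `Fin.append` for vectors, `Fin.sum_univ_add`.)
* leaf: `u y = √t` if `y = 1` (else 0), `v x = 1/√t` if `x = 0` (else 0).
* `g₁ ∧ g₂`: take the vectors `u₁, v₁, u₂, v₂` of `g₁, g₂` for the same `t`;
  `u y = (u₁ y₁, u₂ y₂)`: norm² `≤ r₁ t + r₂ t`; `v x = (v₁ x₁, 0)` if `g₁ x₁ = 0`, else
  `(0, v₂ x₂)`: norm² `≤ 1/t`; the inner product is `⟨u₁, v₁⟩ = 1` or `⟨u₂, v₂⟩ = 1`.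
* `g₁ ∨ g₂`: take the vectors for `t₁ = r t / r₁`, `t₂ = r t / r₂`, `r = r₁ + r₂`;
  `u y = (u₁ y₁, 0)` if `g₁ y₁ = 1`, else `(0, u₂ y₂)`: norm² `≤ r₁ t₁ = r t` or `r₂ t₂ = r t`;
  `v x = (v₁ x₁, v₂ x₂)`: norm² `≤ 1/t₁ + 1/t₂ = (r₁ + r₂)/(r t) = 1/t`.
The supports are clear. (`1 ≤ g.r` by induction.)
-/

set_option autoImplicit false

open Finset

namespace Pool.Agent.MP_9cec2c_lc.SL

theorem Sk.one_le_r {α : Type} (g : Sk α) : 1 ≤ g.r := by
  induction g with
  | leaf a => exact le_rfl
  | and g h ihg _ => exact ihg.trans (Nat.le_add_right _ _)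
  | or g h ihg _ => exact ihg.trans (Nat.le_add_right _ _)

/-- the statement for a function of `r` variables -/
private def ADVec_P (r : ℕ) (ev : (Fin r → Bool) → Bool) : Prop := ∀ t : ℝ, 0 < t →
    ∃ u v : (Fin r → Bool) → Fin r → ℝ,
      (∀ y, ev y = true → (∀ i, y i = false → u y i = 0) ∧ ∑ i, u y i ^ 2 ≤ r * t) ∧
      (∀ x, ev x = false → (∀ i, x i = true → v x i = 0) ∧ ∑ i, v x i ^ 2 ≤ 1 / t) ∧
      ∀ y x, ev y = true → ev x = false → ∑ i, u y i * v x i = 1

private theorem ADVec_leaf : ADVec_P 1 (fun x => x ⟨0, Nat.one_pos⟩) := by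
  intro t ht
  have hs : Real.sqrt t ≠ 0 := (Real.sqrt_pos.2 ht).ne'
  refine ⟨fun _ _ => Real.sqrt t, fun _ _ => 1 / Real.sqrt t, ?_, ?_, ?_⟩
  · intro y hy
    refine ⟨fun i hi => ?_, ?_⟩
    · exfalso
      rw [Subsingleton.elim i ⟨0, Nat.one_pos⟩] at hi
      have h2 : y ⟨0, Nat.one_pos⟩ = true := hy
      rw [hi] at h2
      exact Bool.false_ne_true h2
    · simp [Real.sq_sqrt ht.le]
  · intro x hx
    refine ⟨fun i hi => ?_, ?_⟩
    · exfalso
      rw [Subsingleton.elim i ⟨0, Nat.one_pos⟩] at hi
      have h2 : x ⟨0, Nat.one_pos⟩ = false := hx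
      rw [hi] at h2
      exact Bool.false_ne_true h2.symm
    · simp [Real.sq_sqrt ht.le]
  · intro y x _ _
    simp
    field_simp

private theorem ADVec_and {m n : ℕ} {evg : (Fin m → Bool) → Bool} {evh : (Fin n → Bool) → Bool}
    (ihg : ADVec_P m evg) (ihh : ADVec_P n evh) :
    ADVec_P (m + n) (fun x => evg (fun i => x (Fin.castAdd n i)) && evh (fun i => x (Fin.natAdd m i))) := by
  intro t ht
  obtain ⟨u1, v1, hu1, hv1, huv1⟩ := ihg t ht
  obtain ⟨u2, v2, hu2, hv2, huv2⟩ := ihh t ht
  have hs : ∀ f : Fin (m + n) → ℝ,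
      ∑ i, f i = ∑ i : Fin m, f (Fin.castAdd n i) + ∑ i : Fin n, f (Fin.natAdd m i) := by
    intro f
    exact Fin.sum_univ_add f
  refine ⟨fun y => Fin.append (u1 fun i => y (Fin.castAdd n i)) (u2 fun i => y (Fin.natAdd m i)),
    fun x => if evg (fun i => x (Fin.castAdd n i)) = false then
      Fin.append (v1 fun i => x (Fin.castAdd n i)) (fun _ => 0) else
      Fin.append (fun _ => 0) (v2 fun i => x (Fin.natAdd m i)), ?_, ?_, ?_⟩
  · intro y hy
    have hy' : evg (fun i => y (Fin.castAdd n i)) = true ∧ evh (fun i => y (Fin.natAdd m i)) = true := by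
      simpa using hy
    obtain ⟨a1, a2⟩ := hu1 _ hy'.1
    obtain ⟨b1, b2⟩ := hu2 _ hy'.2
    refine ⟨?_, ?_⟩
    · intro i
      refine Fin.addCases (fun i => ?_) (fun i => ?_) i
      · intro hi
        simp only [Fin.append_left]
        exact a1 i hi
      · intro hi
        simp only [Fin.append_right]
        exact b1 i hi
    · rw [hs]
      simp only [Fin.append_left, Fin.append_right]
      have e : ((m + n : ℕ) : ℝ) = m + n := by
        push_cast; ring
      rw [e]
      linarith
  · intro x hx
    by_cases h1 : evg (fun i => x (Fin.castAdd n i)) = false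
    · obtain ⟨a1, a2⟩ := hv1 _ h1
      simp only [if_pos h1]
      refine ⟨?_, ?_⟩
      · intro i
        refine Fin.addCases (fun i => ?_) (fun i => ?_) i
        · intro hi
          simp only [Fin.append_left]
          exact a1 i hi
        · intro hi
          simp only [Fin.append_right]
      · rw [hs]
        simp only [Fin.append_left, Fin.append_right]
        simpa using a2
    · have h2 : evh (fun i => x (Fin.natAdd m i)) = false := by
        have h3 : evg (fun i => x (Fin.castAdd n i)) = true := by simpa using h1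
        simpa [h3] using hx
      obtain ⟨a1, a2⟩ := hv2 _ h2
      simp only [if_neg h1]
      refine ⟨?_, ?_⟩
      · intro i
        refine Fin.addCases (fun i => ?_) (fun i => ?_) i
        · intro hi
          simp only [Fin.append_left]
        · intro hi
          simp only [Fin.append_right]
          exact a1 i hi
      · rw [hs]
        simp only [Fin.append_left, Fin.append_right]
        simpa using a2
  · intro y x hy hx
    have hy' : evg (fun i => y (Fin.castAdd n i)) = true ∧ evh (fun i => y (Fin.natAdd m i)) = true := by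
      simpa using hy
    rw [hs]
    by_cases h1 : evg (fun i => x (Fin.castAdd n i)) = false
    · simp only [if_pos h1, Fin.append_left, Fin.append_right]
      simpa using huv1 _ _ hy'.1 h1
    · have h2 : evh (fun i => x (Fin.natAdd m i)) = false := by
        have h3 : evg (fun i => x (Fin.castAdd n i)) = true := by simpa using h1
        simpa [h3] using hx
      simp only [if_neg h1, Fin.append_left, Fin.append_right]
      simpa using huv2 _ _ hy'.2 h2

private theorem ADVec_or {m n : ℕ} (hm : 1 ≤ m) (hn : 1 ≤ n) {evg : (Fin m → Bool) → Bool}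
    {evh : (Fin n → Bool) → Bool} (ihg : ADVec_P m evg) (ihh : ADVec_P n evh) :
    ADVec_P (m + n) (fun x => evg (fun i => x (Fin.castAdd n i)) || evh (fun i => x (Fin.natAdd m i))) := by
  intro t ht
  have hG : (0 : ℝ) < m := by exact_mod_cast hm
  have hH : (0 : ℝ) < n := by exact_mod_cast hn
  have hsz : ((m + n : ℕ) : ℝ) = m + n := by
    push_cast; ring
  obtain ⟨u1, v1, hu1, hv1, huv1⟩ := ihg ((m + n) * t / m) (by positivity)
  obtain ⟨u2, v2, hu2, hv2, huv2⟩ := ihh ((m + n) * t / n) (by positivity)
  have hs : ∀ f : Fin (m + n) → ℝ,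
      ∑ i, f i = ∑ i : Fin m, f (Fin.castAdd n i) + ∑ i : Fin n, f (Fin.natAdd m i) := by
    intro f
    exact Fin.sum_univ_add f
  have e1 : (m : ℝ) * ((m + n) * t / m) = (m + n) * t := by
    field_simp
  have e2 : (n : ℝ) * ((m + n) * t / n) = (m + n) * t := by
    field_simp
  refine ⟨fun y => if evg (fun i => y (Fin.castAdd n i)) = true then
      Fin.append (u1 fun i => y (Fin.castAdd n i)) (fun _ => 0) else
      Fin.append (fun _ => 0) (u2 fun i => y (Fin.natAdd m i)),
    fun x => Fin.append (v1 fun i => x (Fin.castAdd n i)) (v2 fun i => x (Fin.natAdd m i)), ?_, ?_, ?_⟩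
  · intro y hy
    by_cases h1 : evg (fun i => y (Fin.castAdd n i)) = true
    · obtain ⟨a1, a2⟩ := hu1 _ h1
      simp only [if_pos h1]
      refine ⟨?_, ?_⟩
      · intro i
        refine Fin.addCases (fun i => ?_) (fun i => ?_) i
        · intro hi
          simp only [Fin.append_left]
          exact a1 i hi
        · intro hi
          simp only [Fin.append_right]
      · rw [hs]
        simp only [Fin.append_left, Fin.append_right]
        rw [e1] at a2
        rw [hsz]
        simpa using a2
    · have h2 : evh (fun i => y (Fin.natAdd m i)) = true := by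
        have h3 : evg (fun i => y (Fin.castAdd n i)) = false := by simpa using h1
        simpa [h3] using hy
      obtain ⟨a1, a2⟩ := hu2 _ h2
      simp only [if_neg h1]
      refine ⟨?_, ?_⟩
      · intro i
        refine Fin.addCases (fun i => ?_) (fun i => ?_) i
        · intro hi
          simp only [Fin.append_left]
        · intro hi
          simp only [Fin.append_right]
          exact a1 i hi
      · rw [hs]
        simp only [Fin.append_left, Fin.append_right]
        rw [e2] at a2
        rw [hsz]
        simpa using a2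
  · intro x hx
    have hx' : evg (fun i => x (Fin.castAdd n i)) = false ∧ evh (fun i => x (Fin.natAdd m i)) = false := by
      simpa using hx
    obtain ⟨a1, a2⟩ := hv1 _ hx'.1
    obtain ⟨b1, b2⟩ := hv2 _ hx'.2
    refine ⟨?_, ?_⟩
    · intro i
      refine Fin.addCases (fun i => ?_) (fun i => ?_) i
      · intro hi
        simp only [Fin.append_left]
        exact a1 i hi
      · intro hi
        simp only [Fin.append_right]
        exact b1 i hi
    · rw [hs]
      simp only [Fin.append_left, Fin.append_right]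
      have e3 : 1 / ((m + n) * t / (m : ℝ)) + 1 / ((m + n) * t / (n : ℝ)) = 1 / t := by
        field_simp
      linarith
  · intro y x hy hx
    have hx' : evg (fun i => x (Fin.castAdd n i)) = false ∧ evh (fun i => x (Fin.natAdd m i)) = false := by
      simpa using hx
    rw [hs]
    by_cases h1 : evg (fun i => y (Fin.castAdd n i)) = true
    · simp only [if_pos h1, Fin.append_left, Fin.append_right]
      simpa using huv1 _ _ h1 hx'.1
    · have h2 : evh (fun i => y (Fin.natAdd m i)) = true := by
        have h3 : evg (fun i => y (Fin.castAdd n i)) = false := by simpa using h1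
        simpa [h3] using hy
      simp only [if_neg h1, Fin.append_left, Fin.append_right]
      simpa using huv2 _ _ h2 hx'.2

theorem ad_vec {α : Type} (g : Sk α) : ∀ t : ℝ, 0 < t →
    ∃ u v : (Fin g.r → Bool) → Fin g.r → ℝ,
      (∀ y, g.ev y = true → (∀ i, y i = false → u y i = 0) ∧ ∑ i, u y i ^ 2 ≤ g.r * t) ∧
      (∀ x, g.ev x = false → (∀ i, x i = true → v x i = 0) ∧ ∑ i, v x i ^ 2 ≤ 1 / t) ∧
      ∀ y x, g.ev y = true → g.ev x = false → ∑ i, u y i * v x i = 1 := by
  have key : ADVec_P g.r g.ev := by
    induction g with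
    | leaf a => exact ADVec_leaf
    | and g h ihg ihh => exact ADVec_and ihg ihh
    | or g h ihg ihh => exact ADVec_or g.one_le_r h.one_le_r ihg ihh
  exact key

end Pool.Agent.MP_9cec2c_lc.SL
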