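import Mathlib

/-!
Campaign SL, definitions for the abstract part: multilinear extensions, read-once monotone formulas
(skeletons), worlds (algebras with a filtration and a functional that is positive on squares of
low degree), approximate bits.
-/

set_option autoImplicit false

open Finset

namespace Pool.Agent.MP_9cec2c_lc.SL

noncomputable section

section mle

variable {R : Type} [CommRing R] [Algebra ℝ R]

/-- The multilinear extension of `h : {0,1}^r → ℝ` at the point `p` of `R^r`. -/
def mle {r : ℕ} (h : (Fin r → Bool) → ℝ) (p : Fin r → R) : R :=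
  ∑ b : Fin r → Bool, algebraMap ℝ R (h b) * ∏ i, (if b i = true then p i else 1 - p i)

/-- The monomial `∏_{i ∈ T} x_i` as a function on `{0,1}^r`. -/
def mono {r : ℕ} (T : Finset (Fin r)) : (Fin r → Bool) → ℝ :=
  fun b => if ∀ i ∈ T, b i = true then 1 else 0

/-- The real functions on `{0,1}^r` of degree at most `d`. -/
def DegLE (r d : ℕ) : Submodule ℝ ((Fin r → Bool) → ℝ) :=
  Submodule.span ℝ {f | ∃ T : Finset (Fin r), T.card ≤ d ∧ f = mono T}

end mle

/-- Read-once monotone formulas over AND and OR whose leaves carry labels in `α` (skeletons). -/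
inductive Sk (α : Type) : Type
  | leaf (a : α) : Sk α
  | and (g h : Sk α) : Sk α
  | or (g h : Sk α) : Sk α

namespace Sk

variable {α : Type}

/-- The number of leaves. -/
def r : Sk α → ℕ
  | leaf _ => 1
  | and g h => g.r + h.r
  | or g h => g.r + h.r

/-- The label of a leaf. -/
def lab : (g : Sk α) → Fin g.r → α
  | leaf a => fun _ => a
  | and g h => Fin.append g.lab h.lab
  | or g h => Fin.append g.lab h.lab

/-- The value of a skeleton, where the leaves are independent variables. -/
def ev : (g : Sk α) → (Fin g.r → Bool) → Bool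
  | leaf _ => fun x => x ⟨0, Nat.one_pos⟩
  | and g h => fun x => g.ev (fun i => x (Fin.castAdd h.r i)) && h.ev (fun i => x (Fin.natAdd g.r i))
  | or g h => fun x => g.ev (fun i => x (Fin.castAdd h.r i)) || h.ev (fun i => x (Fin.natAdd g.r i))

/-- The exact value of a skeleton in a commutative ring, `v a` being the value of the label `a`. -/
def val {R : Type} [CommRing R] (v : α → R) : Sk α → R
  | leaf a => v a
  | and g h => g.val v * h.val v
  | or g h => g.val v + h.val v - g.val v * h.val v

end Sk

/-- The real function `1` or `0` of a Boolean. -/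
def ind (b : Bool) : ℝ := if b = true then 1 else 0

/-- A world: a commutative `ℝ`-algebra with a filtration `F 0 ⊆ F 1 ⊆ ...` and a linear functional
`E` with `E 1 = 1` that is nonnegative on the squares of elements of `F D`. -/
structure World (R : Type) [CommRing R] [Algebra ℝ R] where
  /-- the filtration -/
  F : ℕ → Submodule ℝ R
  F_mono : ∀ a b : ℕ, a ≤ b → F a ≤ F b
  one_mem : (1 : R) ∈ F 0
  mul_mem : ∀ (a b : ℕ) (f g : R), f ∈ F a → g ∈ F b → f * g ∈ F (a + b)
  /-- the functional -/
  E : R →ₗ[ℝ] ℝ
  E_one : E 1 = 1
  /-- the height -/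
  D : ℕ
  pos : ∀ f ∈ F D, 0 ≤ E (f * f)

namespace World

variable {R : Type} [CommRing R] [Algebra ℝ R] (W : World R)

/-- The seminorm of the world. -/
def N (f : R) : ℝ := Real.sqrt (W.E (f * f))

/-- `p` is an element of degree at most `c` that is idempotent up to `ε`, as an operator on the
elements of degree at most `L`. -/
structure IsBit (c : ℕ) (ε : ℝ) (L : ℕ) (p : R) : Prop where
  mem : p ∈ W.F c
  bit : ∀ f ∈ W.F L, W.N ((p * p - p) * f) ≤ ε * W.N f

end World

end

end Pool.Agent.MP_9cec2c_lc.SL
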