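import Pool.Agent.Lib.MP_9cec2c_lc.SL.CobA

/-!
TASK AnchCnt: counting of anchored sets.

`meets_count`: induction on `m`, inside it on `|B|`. `B = ∅`: `U` is closed in itself, so `Meets ∅ U`
implies `U = 0`: at most one set. `B = {b} ∪ B'` (`b ∉ B'`):
* `U b = 0`: then `Meets B' U` (if `W ≠ 0` is closed in `U`, it meets `B`, and `W b = 0`): at most
  `2^(|B'| + (Δ+1) m)` sets.
* `U b ≠ 0` (so `m ≥ 1`): `U ↦ U + pt b` is injective, `wt (U + pt b) = m - 1`, and `U + pt b` meets
  `B' ∪ N(b)`, `N(b)` = the set of the other ends of the edges with an end `b` (`|N(b)| ≤ Δ`): let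
  `W ≠ 0` be closed in `U + pt b` (then `W b = 0`). If some edge joins `W` to `b`, `W` meets `N(b)`.
  Otherwise `W` is closed in `U`, hence meets `B`, hence `B'`. At most
  `2^(|B'| + Δ + (Δ+1)(m-1)) ≤ 2^(|B'| + (Δ+1) m - 1)` sets.
Sum `≤ 2^(|B'| + 1 + (Δ+1) m)`.

`anch_wt`: `U` is closed in itself, so `wt U ≤ wt (cob U) ≤ 4 |Y ∩ cob U| ≤ 4 wt Y` by expansion.
`anch_count`: let `B` be the set of the ends of the edges in `Y`, `|B| ≤ 2 d`. If `U` is anchored in `Y`,
`2 wt U < n`, then `Meets B U`: for `W ≠ 0` closed in `U`, `2 wt W < n`, so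
`0 < wt W ≤ wt (cob W) ≤ 4 |Y ∩ cob W|`: some edge of `Y` has an end in `W`. So the number is at most
`∑_{m ≤ 4 d} 2^(2d + (Δ+1) m)`; `= 1` for `d = 0`, and `≤ 2^(2d + 4 (Δ+1) d + 1) ≤ 2^((4Δ+8) d)` for
`d ≥ 1`.
-/

set_option autoImplicit false

open Finset
open scoped Classical

namespace Pool.Agent.MP_9cec2c_lc.SL.MG

variable {V E : Type} [Fintype V] [Fintype E] (G : MG V E)

/-- Every nonempty part of `U` without edges to the rest of `U` meets `B`. -/
def Meets (B : Finset V) (U : Cube V) : Prop :=
  ∀ W : Cube V, G.Closed W U → W ≠ 0 → ∃ v ∈ B, W v ≠ 0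

/-- The other ends of the edges with an end `b`. -/
private noncomputable def AnchCnt_nb (b : V) : Finset V :=
  (univ.filter (fun e => G.src e = b)).image G.dst ∪ (univ.filter (fun e => G.dst e = b)).image G.src

omit [Fintype V] in
private theorem AnchCnt_nb_card {Δ : ℕ} (hΔ : G.DegLE Δ) (b : V) : (G.AnchCnt_nb b).card ≤ Δ := by
  refine (Finset.card_union_le _ _).trans ((Nat.add_le_add Finset.card_image_le Finset.card_image_le).trans ?_)
  have h := hΔ b
  convert h using 3

omit [Fintype V] in
private theorem AnchCnt_add_pt {U : Cube V} {b v : V} (h : v ≠ b) : (U + pt b) v = U v := by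
  simp [pt, h]

private theorem AnchCnt_one {a : ZMod 2} (h : a ≠ 0) : a = 1 := by
  revert a
  decide

omit [Fintype V] in
private theorem AnchCnt_add_pt_self {U : Cube V} {b : V} (h : U b ≠ 0) : (U + pt b) b = 0 := by
  have : U b = 1 := AnchCnt_one h
  show U b + pt b b = 0
  rw [this]
  simp only [pt, if_true]
  decide

private theorem AnchCnt_wt {U : Cube V} {b : V} (h : U b ≠ 0) : wt (U + pt b) + 1 = wt U := by
  unfold wt
  have e : univ.filter (fun v => (U + pt b) v ≠ 0) = (univ.filter (fun v => U v ≠ 0)).erase b := by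
    ext v
    simp only [mem_filter, mem_univ, true_and, mem_erase]
    by_cases hv : v = b
    · subst hv
      simp [AnchCnt_add_pt_self h]
    · rw [AnchCnt_add_pt hv]
      simp [hv]
  rw [e]
  exact Finset.card_erase_add_one (by simp [h])

omit [Fintype V] [Fintype E] in
private theorem AnchCnt_closed_self (U : Cube V) : G.Closed U U :=
  ⟨fun _ h => h, fun _ => ⟨fun _ h => h, fun _ h => h⟩⟩

omit [Fintype V] in
private theorem AnchCnt_meets_step {b : V} {B : Finset V} {U : Cube V}
    (hm : G.Meets (insert b B) U) (hb : U b ≠ 0) : G.Meets (B ∪ G.AnchCnt_nb b) (U + pt b) := by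
  intro W hW hW0
  have hWb : W b = 0 := by
    by_contra h
    exact hW.1 b h (AnchCnt_add_pt_self hb)
  by_cases hedge : ∃ e, (G.src e = b ∧ W (G.dst e) ≠ 0) ∨ (G.dst e = b ∧ W (G.src e) ≠ 0)
  · obtain ⟨e, he | he⟩ := hedge
    · refine ⟨G.dst e, ?_, he.2⟩
      refine mem_union_right _ (mem_union_left _ (mem_image.2 ⟨e, ?_, rfl⟩))
      simp [he.1]
    · refine ⟨G.src e, ?_, he.2⟩
      refine mem_union_right _ (mem_union_right _ (mem_image.2 ⟨e, ?_, rfl⟩))
      simp [he.1]
  · push Not at hedge
    have hcl : G.Closed W U := by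
      constructor
      · intro v hv
        have hvb : v ≠ b := by
          rintro rfl
          exact hv hWb
        have := hW.1 v hv
        rwa [AnchCnt_add_pt hvb] at this
      · intro e
        constructor
        · intro h1 h2
          by_cases hd : G.dst e = b
          · exact absurd ((hedge e).2 hd) h1
          · apply (hW.2 e).1 h1
            rw [AnchCnt_add_pt hd]
            exact h2
        · intro h1 h2
          by_cases hd : G.src e = b
          · exact absurd ((hedge e).1 hd) h1
          · apply (hW.2 e).2 h1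
            rw [AnchCnt_add_pt hd]
            exact h2
    obtain ⟨v, hv, hv0⟩ := hm W hcl hW0
    rcases mem_insert.1 hv with rfl | hv'
    · exact absurd hWb hv0
    · exact ⟨v, mem_union_left _ hv', hv0⟩

private theorem AnchCnt_geom (x : ℕ) (hx : 2 ≤ x) (k : ℕ) :
    ∑ m ∈ range (k + 1), x ^ m ≤ 2 * x ^ k := by
  induction k with
  | zero => simp
  | succ k ih =>
    rw [sum_range_succ]
    have h1 : 2 * x ^ k ≤ x ^ (k + 1) := by
      rw [pow_succ, mul_comm]
      exact Nat.mul_le_mul_left _ hx
    omega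

theorem meets_count {Δ : ℕ} (hΔ : G.DegLE Δ) (m : ℕ) : ∀ (B : Finset V),
    (univ.filter (fun U : Cube V => G.Meets B U ∧ wt U = m)).card ≤
      2 ^ (B.card + (Δ + 1) * m) := by
  induction m with
  | zero =>
    intro B
    have hsub : univ.filter (fun U : Cube V => G.Meets B U ∧ wt U = 0) ⊆ {0} := by
      intro U hU
      rw [mem_filter] at hU
      rw [mem_singleton]
      exact wt_eq_zero hU.2.2
    refine (card_le_card hsub).trans ?_
    rw [card_singleton]
    exact Nat.one_le_two_pow
  | succ m ih =>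
    intro B
    induction B using Finset.induction_on with
    | empty =>
      have hsub : univ.filter (fun U : Cube V => G.Meets ∅ U ∧ wt U = m + 1) ⊆ {0} := by
        intro U hU
        rw [mem_filter] at hU
        rw [mem_singleton]
        by_contra h0
        obtain ⟨v, hv, -⟩ := hU.2.1 U (G.AnchCnt_closed_self U) h0
        exact absurd hv (notMem_empty v)
      refine (card_le_card hsub).trans ?_
      rw [card_singleton]
      exact Nat.one_le_two_pow
    | insert b B hb ihB =>
      have hsub : univ.filter (fun U : Cube V => G.Meets (insert b B) U ∧ wt U = m + 1) ⊆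
          univ.filter (fun U : Cube V => G.Meets B U ∧ wt U = m + 1) ∪
          (univ.filter (fun U : Cube V => G.Meets (B ∪ G.AnchCnt_nb b) U ∧ wt U = m)).image
            (fun U => U + pt b) := by
        intro U hU
        rw [mem_filter] at hU
        by_cases hUb : U b = 0
        · apply mem_union_left
          rw [mem_filter]
          refine ⟨mem_univ _, ?_, hU.2.2⟩
          intro W hW hW0
          obtain ⟨v, hv, hv0⟩ := hU.2.1 W hW hW0
          rcases mem_insert.1 hv with rfl | hv'
          · exact absurd hUb (hW.1 v hv0)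
          · exact ⟨v, hv', hv0⟩
        · apply mem_union_right
          rw [mem_image]
          refine ⟨U + pt b, ?_, ?_⟩
          · rw [mem_filter]
            refine ⟨mem_univ _, G.AnchCnt_meets_step hU.2.1 hUb, ?_⟩
            have h1 := AnchCnt_wt hUb
            have h2 := hU.2.2
            omega
          · rw [add_assoc]
            have h2 : (pt b + pt b : Cube V) = 0 := by
              ext v
              show pt b v + pt b v = 0
              exact CharTwo.add_self_eq_zero _
            rw [h2, add_zero]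
      refine (card_le_card hsub).trans ((card_union_le _ _).trans ?_)
      have h1 := ihB
      have h2 := (card_image_le (f := fun U : Cube V => U + pt b)
        (s := univ.filter (fun U : Cube V => G.Meets (B ∪ G.AnchCnt_nb b) U ∧ wt U = m))).trans
        (ih (B ∪ G.AnchCnt_nb b))
      have h3 : (B ∪ G.AnchCnt_nb b).card + (Δ + 1) * m ≤ B.card + (Δ + 1) * (m + 1) := by
        have := card_union_le B (G.AnchCnt_nb b)
        have := G.AnchCnt_nb_card hΔ b
        have e : (Δ + 1) * (m + 1) = (Δ + 1) * m + Δ + 1 := by ring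
        omega
      have h4 := h2.trans (Nat.pow_le_pow_right (by norm_num) h3)
      rw [card_insert_of_notMem hb]
      have e : 2 ^ (B.card + 1 + (Δ + 1) * (m + 1)) =
          2 ^ (B.card + (Δ + 1) * (m + 1)) + 2 ^ (B.card + (Δ + 1) * (m + 1)) := by
        rw [show B.card + 1 + (Δ + 1) * (m + 1) = B.card + (Δ + 1) * (m + 1) + 1 by ring, pow_succ]
        ring
      rw [e]
      exact Nat.add_le_add h1 h4

theorem anch_wt (hG : G.Expands) {Y : Cube E} {U : Cube V} (h : G.Anch Y U)
    (hU : 2 * wt U < Fintype.card V) : wt U ≤ 4 * wt Y ∧ wt (G.cob U) ≤ 4 * wt Y := by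
  have h1 := h U (G.AnchCnt_closed_self U)
  have h2 : (univ.filter (fun e => Y e ≠ 0 ∧ G.cob U e ≠ 0)).card ≤ wt Y := by
    apply card_le_card
    intro e he
    rw [mem_filter] at he ⊢
    exact ⟨he.1, he.2.1⟩
  have h3 := hG U hU.le
  omega

theorem anch_count (hG : G.Expands) {Δ : ℕ} (hΔ : G.DegLE Δ) {d : ℕ} {Y : Cube E} (hY : wt Y ≤ d) :
    (univ.filter (fun U : Cube V => G.Anch Y U ∧ 2 * wt U < Fintype.card V)).card ≤
      2 ^ ((4 * Δ + 8) * d) := by
  obtain ⟨B, hB⟩ : ∃ B : Finset V, B = (univ.filter (fun e => Y e ≠ 0)).image G.src ∪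
    (univ.filter (fun e => Y e ≠ 0)).image G.dst := ⟨_, rfl⟩
  have hBc : B.card ≤ 2 * d := by
    rw [hB]
    have h1 := card_union_le ((univ.filter (fun e => Y e ≠ 0)).image G.src)
      ((univ.filter (fun e => Y e ≠ 0)).image G.dst)
    have h2 : ((univ.filter (fun e => Y e ≠ 0)).image G.src).card ≤ wt Y := card_image_le
    have h3 : ((univ.filter (fun e => Y e ≠ 0)).image G.dst).card ≤ wt Y := card_image_le
    omega
  have hsub : univ.filter (fun U : Cube V => G.Anch Y U ∧ 2 * wt U < Fintype.card V) ⊆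
      (range (4 * d + 1)).biUnion
        (fun m => univ.filter (fun U : Cube V => G.Meets B U ∧ wt U = m)) := by
    intro U hU
    rw [mem_filter] at hU
    rw [mem_biUnion]
    refine ⟨wt U, ?_, ?_⟩
    · rw [mem_range]
      have := (G.anch_wt hG hU.2.1 hU.2.2).1
      omega
    · rw [mem_filter]
      refine ⟨mem_univ _, ?_, rfl⟩
      intro W hW hW0
      have h1 : wt W ≤ wt U := wt_mono hW.1
      have h2 : wt W ≤ wt (G.cob W) := hG W (by have := hU.2.2; omega)
      have h3 := hU.2.1 W hW
      have h4 : wt W ≠ 0 := fun h => hW0 (wt_eq_zero h)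
      have h5 : 0 < (univ.filter (fun e => Y e ≠ 0 ∧ G.cob W e ≠ 0)).card := by omega
      obtain ⟨e, he⟩ := card_pos.1 h5
      rw [mem_filter] at he
      have h6 : W (G.src e) + W (G.dst e) ≠ 0 := he.2.2
      by_cases hs : W (G.src e) = 0
      · refine ⟨G.dst e, ?_, ?_⟩
        · rw [hB]
          exact mem_union_right _ (mem_image.2 ⟨e, by rw [mem_filter]; exact ⟨mem_univ _, he.2.1⟩, rfl⟩)
        · rw [hs, zero_add] at h6
          exact h6
      · refine ⟨G.src e, ?_, hs⟩
        rw [hB]
        exact mem_union_left _ (mem_image.2 ⟨e, by rw [mem_filter]; exact ⟨mem_univ _, he.2.1⟩, rfl⟩)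
  refine (card_le_card hsub).trans (card_biUnion_le.trans ?_)
  have hle : ∀ m ∈ range (4 * d + 1),
      (univ.filter (fun U : Cube V => G.Meets B U ∧ wt U = m)).card ≤ 2 ^ (2 * d) * (2 ^ (Δ + 1)) ^ m := by
    intro m _
    refine (G.meets_count hΔ m B).trans ?_
    rw [← pow_mul, ← pow_add]
    exact Nat.pow_le_pow_right (by norm_num) (by omega)
  refine (sum_le_sum hle).trans ?_
  rw [← mul_sum]
  rcases Nat.eq_zero_or_pos d with rfl | hd
  · simp
  · have hx : 2 ≤ 2 ^ (Δ + 1) := by
      calc 2 = 2 ^ 1 := by norm_num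
        _ ≤ 2 ^ (Δ + 1) := Nat.pow_le_pow_right (by norm_num) (by omega)
    refine (Nat.mul_le_mul_left _ (AnchCnt_geom _ hx (4 * d))).trans ?_
    have e : 2 ^ (2 * d) * (2 * (2 ^ (Δ + 1)) ^ (4 * d)) = 2 ^ (2 * d + 1 + (Δ + 1) * (4 * d)) := by
      rw [← pow_mul, pow_add, pow_add]
      ring
    rw [e]
    apply Nat.pow_le_pow_right (by norm_num)
    have e2 : (4 * Δ + 8) * d = (Δ + 1) * (4 * d) + 4 * d := by ring
    omega

end Pool.Agent.MP_9cec2c_lc.SL.MG
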