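import Pool.Agent.Lib.MP_9cec2c_lc.SL.CobA

/-!
TASK AnchDec: decomposition of a set of vertices whose coboundary is covered by four sets of edges into
four anchored sets.

`closed_cob`: if `W` is closed in `U` (a part without edges to the rest), `cob W e ≠ 0` implies
`cob U e ≠ 0`: exactly one end of `e` is in `W`; if the other end were in `U`, it would be in `W`.
`closed_compl`: then `U + W` (the rest) is closed in `U` too.

`anch_decomp`, strong induction on `wt U`:
* there is `W` closed in `U`, `W ≠ 0`, `W ≠ U`: let `W' = U + W`; `wt W, wt W' < wt U`, both satisfy the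
  hypothesis (`closed_cob`). Get `A_i` (inside `W`) and `B_i` (inside `W'`), put `U'_i = A_i + B_i`
  (disjoint union). Anchored: let `C` be closed in `A_i + B_i`, `C₁ = C ∩ W`, `C₂ = C ∩ W'` (so
  `C = C₁ + C₂`). `C₁` is closed in `A_i` and `C₂` in `B_i`. No edge has one end in `W` and the other in
  `W'`, so `cob C₁` and `cob C₂` are disjoint and `cob C = cob C₁ + cob C₂` is their union. Add the two
  inequalities.
* no such `W`: for `U = 0` take `U' = 0` (closed parts of `0` are `0`). For `U ≠ 0`: every edge of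
  `cob U` is in some `Y i`, so `wt (cob U) ≤ ∑_i |Y_i ∩ cob U|` and for some `i`
  `wt (cob U) ≤ 4 |Y_i ∩ cob U|`. Take `U'_i = U`, the others `0`; closed parts of `U` are `0` and `U`.
-/

set_option autoImplicit false

open Finset
open scoped Classical

namespace Pool.Agent.MP_9cec2c_lc.SL.MG

variable {V E : Type} [Fintype V] [Fintype E] (G : MG V E)

private theorem AnchDec_add (a b : ZMod 2) : a + b ≠ 0 ↔ ¬ (a ≠ 0 ↔ b ≠ 0) := by
  revert a b; decide

private theorem AnchDec_mul (a b : ZMod 2) : a * b ≠ 0 ↔ (a ≠ 0 ∧ b ≠ 0) := by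
  revert a b; decide

private theorem AnchDec_eq (a b : ZMod 2) : a = b ↔ (a ≠ 0 ↔ b ≠ 0) := by
  revert a b; decide

theorem closed_cob {W U : Cube V} (h : G.Closed W U) {e : E} (he : G.cob W e ≠ 0) :
    G.cob U e ≠ 0 := by
  unfold cob at he ⊢
  rw [AnchDec_add] at he ⊢
  have h1 := h.1 (G.src e)
  have h2 := h.1 (G.dst e)
  have h3 := (h.2 e).1
  have h4 := (h.2 e).2
  tauto

theorem closed_compl {W U : Cube V} (h : G.Closed W U) : G.Closed (U + W) U := by
  refine ⟨fun v hv => ?_, fun e => ⟨fun h5 h6 => ?_, fun h5 h6 => ?_⟩⟩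
  · have h1 := h.1 v
    rw [Pi.add_apply, AnchDec_add] at hv
    tauto
  · have h1 := h.1 (G.src e)
    have h2 := h.1 (G.dst e)
    have h3 := (h.2 e).1
    have h4 := (h.2 e).2
    rw [Pi.add_apply, AnchDec_add] at h5 ⊢
    tauto
  · have h1 := h.1 (G.src e)
    have h2 := h.1 (G.dst e)
    have h3 := (h.2 e).1
    have h4 := (h.2 e).2
    rw [Pi.add_apply, AnchDec_add] at h5 ⊢
    tauto

omit [Fintype E] in
private theorem AnchDec_wt_lt {W U : Cube V} (h : ∀ v, W v ≠ 0 → U v ≠ 0) (hn : W ≠ U) :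
    wt W < wt U := by
  unfold wt
  apply Finset.card_lt_card
  rw [Finset.ssubset_iff_of_subset]
  · by_contra hc
    apply hn
    funext v
    rw [AnchDec_eq]
    refine ⟨h v, fun hv => ?_⟩
    by_contra hw
    exact hc ⟨v, Finset.mem_filter.2 ⟨Finset.mem_univ _, hv⟩, fun hm => (Finset.mem_filter.1 hm).2 hw⟩
  · intro v hv
    rw [Finset.mem_filter] at hv ⊢
    exact ⟨hv.1, h v hv.2⟩

/-- The gluing step. -/
private theorem AnchDec_glue {W U A B : Cube V} {Y : Cube E} (hW : G.Closed W U)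
    (hA : G.Anch Y A) (hAW : ∀ v, A v ≠ 0 → W v ≠ 0)
    (hB : G.Anch Y B) (hBW : ∀ v, B v ≠ 0 → (U + W) v ≠ 0) : G.Anch Y (A + B) := by
  intro C hC
  have hBW' : ∀ v, B v ≠ 0 → (U v ≠ 0 ∧ ¬ W v ≠ 0) := by
    intro v hv
    have h1 := hBW v hv
    rw [Pi.add_apply, AnchDec_add] at h1
    have h2 := hW.1 v
    tauto
  have hC1 : ∀ v, C v ≠ 0 → ¬ (A v ≠ 0 ↔ B v ≠ 0) := by
    intro v hv
    have := hC.1 v hv
    rwa [Pi.add_apply, AnchDec_add] at this
  have hC2 : ∀ e, (C (G.src e) ≠ 0 → ¬ (A (G.dst e) ≠ 0 ↔ B (G.dst e) ≠ 0) → C (G.dst e) ≠ 0) ∧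
      (C (G.dst e) ≠ 0 → ¬ (A (G.src e) ≠ 0 ↔ B (G.src e) ≠ 0) → C (G.src e) ≠ 0) := by
    intro e
    have := hC.2 e
    rw [Pi.add_apply, Pi.add_apply, AnchDec_add, AnchDec_add] at this
    exact this
  -- the two parts
  have hcl1 : G.Closed (fun v => C v * W v) A := by
    refine ⟨fun v hv => ?_, fun e => ⟨fun h5 h6 => ?_, fun h5 h6 => ?_⟩⟩
    · have hv' := (AnchDec_mul _ _).1 hv
      have h1 := hC1 v
      have h2 := hBW' v
      tauto
    · have h5' := (AnchDec_mul _ _).1 h5
      refine (AnchDec_mul _ _).2 ?_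
      have h1 := (hC2 e).1
      have h2 := hBW' (G.dst e)
      have h3 := hAW (G.dst e)
      tauto
    · have h5' := (AnchDec_mul _ _).1 h5
      refine (AnchDec_mul _ _).2 ?_
      have h1 := (hC2 e).2
      have h2 := hBW' (G.src e)
      have h3 := hAW (G.src e)
      tauto
  have hcl2 : G.Closed (fun v => C v * (U + W) v) B := by
    refine ⟨fun v hv => ?_, fun e => ⟨fun h5 h6 => ?_, fun h5 h6 => ?_⟩⟩
    · have hv' := (AnchDec_mul _ _).1 hv
      rw [Pi.add_apply, AnchDec_add] at hv'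
      have h1 := hC1 v
      have h2 := hBW' v
      have h3 := hAW v
      have h4 := hW.1 v
      tauto
    · have h5' := (AnchDec_mul _ _).1 h5
      refine (AnchDec_mul _ _).2 ?_
      have h1 := (hC2 e).1
      have h2 := hBW' (G.dst e)
      have h3 := hAW (G.dst e)
      rw [Pi.add_apply, AnchDec_add] at h5' ⊢
      tauto
    · have h5' := (AnchDec_mul _ _).1 h5
      refine (AnchDec_mul _ _).2 ?_
      have h1 := (hC2 e).2
      have h2 := hBW' (G.src e)
      have h3 := hAW (G.src e)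
      rw [Pi.add_apply, AnchDec_add] at h5' ⊢
      tauto
  have hsum : C = (fun v => C v * W v) + (fun v => C v * (U + W) v) := by
    funext v
    rw [Pi.add_apply, AnchDec_eq, AnchDec_add, AnchDec_mul, AnchDec_mul, Pi.add_apply, AnchDec_add]
    have h1 := hC1 v
    have h2 := hBW' v
    have h3 := hAW v
    have h4 := hW.1 v
    tauto
  set C1 : Cube V := fun v => C v * W v with hC1def
  set C2 : Cube V := fun v => C v * (U + W) v with hC2def
  have hC1W : ∀ v, C1 v ≠ 0 → W v ≠ 0 := fun v hv => ((AnchDec_mul _ _).1 hv).2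
  have hC2W : ∀ v, C2 v ≠ 0 → U v ≠ 0 ∧ ¬ W v ≠ 0 := by
    intro v hv
    have h1 := ((AnchDec_mul _ _).1 hv).2
    rw [Pi.add_apply, AnchDec_add] at h1
    have h2 := hW.1 v
    tauto
  have hdisj : ∀ e, ¬ (G.cob C1 e ≠ 0 ∧ G.cob C2 e ≠ 0) := by
    rintro e ⟨h1, h2⟩
    unfold cob at h1 h2
    rw [AnchDec_add] at h1 h2
    have a1 := hC1W (G.src e)
    have a2 := hC1W (G.dst e)
    have b1 := hC2W (G.src e)
    have b2 := hC2W (G.dst e)
    have c1 := (hW.2 e).1
    have c2 := (hW.2 e).2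
    tauto
  have hcob : G.cob C = G.cob C1 + G.cob C2 := by rw [hsum, cob_add]
  have k1 := hA C1 hcl1
  have k2 := hB C2 hcl2
  have k3 : wt (G.cob C) ≤ wt (G.cob C1) + wt (G.cob C2) := by
    rw [hcob]; exact wt_add_le _ _
  have k4 : (univ.filter (fun e => Y e ≠ 0 ∧ G.cob C1 e ≠ 0)).card +
      (univ.filter (fun e => Y e ≠ 0 ∧ G.cob C2 e ≠ 0)).card ≤
      (univ.filter (fun e => Y e ≠ 0 ∧ G.cob C e ≠ 0)).card := by
    rw [← Finset.card_union_of_disjoint]
    · apply Finset.card_le_card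
      intro e he
      rw [Finset.mem_union, Finset.mem_filter, Finset.mem_filter] at he
      rw [Finset.mem_filter]
      refine ⟨Finset.mem_univ _, ?_⟩
      rw [hcob, Pi.add_apply, AnchDec_add]
      have := hdisj e
      tauto
    · rw [Finset.disjoint_left]
      intro e he1 he2
      rw [Finset.mem_filter] at he1 he2
      exact hdisj e ⟨he1.2.2, he2.2.2⟩
  omega

theorem anch_decomp (U : Cube V) (Y : Fin 4 → Cube E)
    (h : ∀ e, G.cob U e ≠ 0 → ∃ i, Y i e ≠ 0) :
    ∃ U' : Fin 4 → Cube V, U = ∑ i, U' i ∧ ∀ i, G.Anch (Y i) (U' i) ∧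
      ∀ v, U' i v ≠ 0 → U v ≠ 0 := by
  induction' hn : wt U using Nat.strong_induction_on with n ih generalizing U
  subst hn
  by_cases hex : ∃ W, G.Closed W U ∧ W ≠ 0 ∧ W ≠ U
  · obtain ⟨W, hW, hW0, hWU⟩ := hex
    have hW' : G.Closed (U + W) U := G.closed_compl hW
    have hne : U + W ≠ U := by
      intro he
      apply hW0
      have : U + W = U + 0 := by rw [he, add_zero]
      exact add_left_cancel this
    obtain ⟨A, hA1, hA2⟩ := ih (wt W) (AnchDec_wt_lt hW.1 hWU) W
      (fun e he => h e (G.closed_cob hW he)) rfl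
    obtain ⟨B, hB1, hB2⟩ := ih (wt (U + W)) (AnchDec_wt_lt hW'.1 hne) (U + W)
      (fun e he => h e (G.closed_cob hW' he)) rfl
    refine ⟨fun i => A i + B i, ?_, fun i => ⟨?_, fun v hv => ?_⟩⟩
    · rw [Finset.sum_add_distrib, ← hA1, ← hB1]
      funext v
      rw [Pi.add_apply, Pi.add_apply, AnchDec_eq, AnchDec_add, AnchDec_add]
      tauto
    · exact G.AnchDec_glue hW (hA2 i).1 (hA2 i).2 (hB2 i).1 (hB2 i).2
    · replace hv : A i v + B i v ≠ 0 := hv
      rw [AnchDec_add] at hv
      have h1 := (hA2 i).2 v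
      have h2 := (hB2 i).2 v
      have h3 := hW.1 v
      have h4 := hW'.1 v
      tauto
  · have hpig : ∃ i, wt (G.cob U) ≤ 4 * (univ.filter (fun e => Y i e ≠ 0 ∧ G.cob U e ≠ 0)).card := by
      by_contra hc
      push Not at hc
      have hle : wt (G.cob U) ≤ ∑ i, (univ.filter (fun e => Y i e ≠ 0 ∧ G.cob U e ≠ 0)).card := by
        unfold wt
        refine le_trans (Finset.card_le_card ?_) Finset.card_biUnion_le
        intro e he
        rw [Finset.mem_filter] at he
        obtain ⟨i, hi⟩ := h e he.2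
        rw [Finset.mem_biUnion]
        exact ⟨i, Finset.mem_univ _, Finset.mem_filter.2 ⟨Finset.mem_univ _, hi, he.2⟩⟩
      have h0 := hc 0
      have h1 := hc 1
      have h2 := hc 2
      have h3 := hc 3
      rw [Fin.sum_univ_four] at hle
      omega
    obtain ⟨i, hi⟩ := hpig
    refine ⟨fun j => if j = i then U else 0, ?_, fun j => ⟨?_, fun v hv => ?_⟩⟩
    · rw [Finset.sum_ite_eq' Finset.univ i]
      simp
    · intro W hW
      by_cases hj : j = i
      · subst hj
        simp only [if_true] at hW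
        by_cases hW0 : W = 0
        · rw [hW0, cob_zero, wt_zero]
          exact Nat.zero_le _
        · by_cases hWU : W = U
          · rw [hWU]; exact hi
          · exact absurd ⟨W, hW, hW0, hWU⟩ hex
      · simp only [if_neg hj] at hW
        have hW0 : W = 0 := by
          funext v
          by_contra hv
          exact hW.1 v hv rfl
        rw [hW0, cob_zero, wt_zero]
        exact Nat.zero_le _
    · by_cases hj : j = i
      · simpa only [if_pos hj] using hv
      · simp only [if_neg hj, Pi.zero_apply] at hv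
        exact absurd rfl hv

end Pool.Agent.MP_9cec2c_lc.SL.MG
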