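import Pool.Agent.Lib.MP_9cec2c_lc.SL.CubeA
import Pool.Agent.Lib.MP_8d8c46_lc.Mg.G023

/-!
TASK Bonami: hypercontractivity on the cube `(Z/2)^E` for an arbitrary finite index type. Transfer from
`Fin n` (`Fintype.equivFin E`, all `avg`, `chi`, `wt` are invariant under reindexing). Available in the
graded repository (Pool/Agent/Lib/MP_8d8c46_lc/...):
`theorem bonami : ∀ (n k : ℕ) (f : (Fin n → A) → ℝ), Deg k f →
    avg (fun x => f x ^ 4) ≤ (4 * (Fintype.card A : ℝ)) ^ (2 * k) * (avg (fun x => f x ^ 2)) ^ 2`
in Hyper.lean (for `A = ZMod 2` the constant is exactly `64^k`), or `F3_bonami` in SDP/CubeF.lean. You may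
also prove it directly (induction on the number of coordinates:
`f = g + χ_e h`, `avg f⁴ = avg g⁴ + 6 avg g²h² + avg h⁴ ≤ (…)²` for `f` homogeneous of degree `k`, or the
usual induction with constant `9^k`).
-/

set_option autoImplicit false

open Finset
open scoped Classical

namespace Pool.Agent.MP_9cec2c_lc.SL

variable {E : Type} [Fintype E]

private theorem Bonami_avg (h : Cube E → ℝ) :
    avg h = Pool.Agent.Lib.MP_8d8c46_lc.avg
      (fun x : Fin (Fintype.card E) → ZMod 2 => h (fun i => x (Fintype.equivFin E i))) := by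
  unfold avg Pool.Agent.Lib.MP_8d8c46_lc.avg
  congr 1
  · refine (Fintype.sum_equiv ((Fintype.equivFin E).arrowCongr (Equiv.refl (ZMod 2))) _ _ ?_)
    intro x
    congr 1
    funext i
    simp [Equiv.arrowCongr]
  · simp

private theorem Bonami_deg {k : ℕ} {f : Cube E → ℝ} (hf : f ∈ Fd E k) :
    Pool.Agent.Lib.MP_8d8c46_lc.Deg k
      (fun x : Fin (Fintype.card E) → ZMod 2 => f (fun i => x (Fintype.equivFin E i))) := by
  unfold Fd at hf
  induction hf using Submodule.span_induction with
  | mem f hf =>
    obtain ⟨S, hS, rfl⟩ := hf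
    refine Submodule.subset_span ⟨(univ.filter (fun e => S e ≠ 0)).image (Fintype.equivFin E), ?_, ?_⟩
    · exact card_image_le.trans hS
    · intro x y h
      show sg (dot S _) = sg (dot S _)
      congr 1
      unfold dot
      refine sum_congr rfl fun e _ => ?_
      by_cases he : S e = 0
      · rw [he, zero_mul, zero_mul]
      · exact congrArg (fun t => S e * t)
          (h (Fintype.equivFin E e) (mem_image_of_mem _ (by simpa using he)))
  | zero =>
    exact Submodule.zero_mem _
  | add f g _ _ h h' =>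
    exact Submodule.add_mem _ h h'
  | smul r f _ h =>
    exact Submodule.smul_mem _ r h

theorem bonami {k : ℕ} {f : Cube E → ℝ} (hf : f ∈ Fd E k) :
    avg (fun x => f x ^ 4) ≤ 64 ^ k * (avg (fun x => f x ^ 2)) ^ 2 := by
  have h1 := Pool.Agent.Lib.MP_8d8c46_lc.bonami (A := ZMod 2) (Fintype.card E) k _ (Bonami_deg hf)
  rw [Bonami_avg, Bonami_avg]
  refine h1.trans (le_of_eq ?_)
  congr 1
  rw [ZMod.card, pow_mul]
  norm_num

end Pool.Agent.MP_9cec2c_lc.SL
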