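import Pool.Agent.Lib.MP_9cec2c_lc.SL.NBasic

/-!
TASK Combine. Let `u = p - p²`, `f₀ = X0 f`, `f₁ = X1 f`. Identity in the ring:
`((1-p) f₀ + p f₁)² = (X0 (1-p) f)² + (X1 p f)² + 2 u f₀ f₁`.
Apply `E`. The first two terms are at most `A² E((1-p)² f² + p² f²) = A² E((1 - 2u) f²)` (use `h0` for
`(1-p) f`, `h1` for `p f`, elements of `F (L' + c)`), and
`E ((1 - 2u) f²) = N(f)² - 2 E ((u f) f) ≤ N(f)² + 2 N(u f) N(f) ≤ (1 + 2 ε) N(f)²`
(Cauchy-Schwarz and `hp.bit`, as `u = -(p² - p)`). The last term is at most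
`2 N(u f₀) N(f₁) ≤ 2 ε N(f₀) N(f₁) ≤ 2 ε A² N(f)²` because `f₀ ∈ F (b + L') ⊆ F L`.
All elements belong to `F (L + 2c) ⊆ F D`. Sum: `A² (1 + 4 ε) N(f)²`.
-/

set_option autoImplicit false

open Finset

namespace Pool.Agent.MP_9cec2c_lc.SL.World

variable {R : Type} [CommRing R] [Algebra ℝ R] (W : World R)

theorem combine {c L L' b : ℕ} {ε A : ℝ} (hε : 0 ≤ ε) (hA : 0 ≤ A) {p X0 X1 : R}
    (hp : W.IsBit c ε L p) (hX0 : X0 ∈ W.F b) (hX1 : X1 ∈ W.F b)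
    (h0 : ∀ f ∈ W.F (L' + c), W.N (X0 * f) ≤ A * W.N f)
    (h1 : ∀ f ∈ W.F (L' + c), W.N (X1 * f) ≤ A * W.N f)
    (hL : L' + b ≤ L) (hD : L + 2 * c ≤ W.D) {f : R} (hf : f ∈ W.F L') :
    W.N (((1 - p) * X0 + p * X1) * f) ^ 2 ≤ A ^ 2 * (1 + 4 * ε) * W.N f ^ 2 := by
  have hpm : p ∈ W.F c := hp.mem
  have hmul : ∀ {a b' : ℕ} {x y : R}, x ∈ W.F a → y ∈ W.F b' → ∀ d : ℕ, a + b' ≤ d → x * y ∈ W.F d :=
    fun hx hy d hd => W.F_mono _ _ hd (W.mul_mem _ _ _ _ hx hy)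
  have h1p : 1 - p ∈ W.F c := Submodule.sub_mem _ (W.one_mem' c) hpm
  have hfD : f ∈ W.F W.D := W.F_mono _ _ (by omega) hf
  have hfL : f ∈ W.F L := W.F_mono _ _ (by omega) hf
  have hfL' : f ∈ W.F (L' + c) := W.F_mono _ _ (by omega) hf
  -- the two halves
  have ha : (1 - p) * f ∈ W.F (L' + c) := hmul h1p hf _ (by omega)
  have hb : p * f ∈ W.F (L' + c) := hmul hpm hf _ (by omega)
  have haD : (1 - p) * f ∈ W.F W.D := W.F_mono _ _ (by omega) ha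
  have hbD : p * f ∈ W.F W.D := W.F_mono _ _ (by omega) hb
  have hXa : X0 * ((1 - p) * f) ∈ W.F W.D := hmul hX0 ha _ (by omega)
  have hXb : X1 * (p * f) ∈ W.F W.D := hmul hX1 hb _ (by omega)
  have hf0L : X0 * f ∈ W.F L := hmul hX0 hf _ (by omega)
  have hf1L : X1 * f ∈ W.F L := hmul hX1 hf _ (by omega)
  have hf1D : X1 * f ∈ W.F W.D := W.F_mono _ _ (by omega) hf1L
  have hq : p * p - p ∈ W.F (c + c) :=
    Submodule.sub_mem _ (W.mul_mem _ _ _ _ hpm hpm) (W.F_mono _ _ (by omega) hpm)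
  have hqf : (p * p - p) * f ∈ W.F W.D := hmul hq hf _ (by omega)
  have hqf0 : (p * p - p) * (X0 * f) ∈ W.F W.D := hmul hq hf0L _ (by omega)
  -- the inequalities
  have hN : 0 ≤ W.N f := W.N_nonneg f
  have e1 : W.E ((X0 * ((1 - p) * f)) * (X0 * ((1 - p) * f))) ≤ A ^ 2 * W.E (((1 - p) * f) * ((1 - p) * f)) := by
    rw [← W.N_sq hXa, ← W.N_sq haD, ← mul_pow]
    exact pow_le_pow_left₀ (W.N_nonneg _) (h0 _ ha) 2
  have e2 : W.E ((X1 * (p * f)) * (X1 * (p * f))) ≤ A ^ 2 * W.E ((p * f) * (p * f)) := by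
    rw [← W.N_sq hXb, ← W.N_sq hbD, ← mul_pow]
    exact pow_le_pow_left₀ (W.N_nonneg _) (h1 _ hb) 2
  have e3 : |W.E (((p * p - p) * f) * f)| ≤ ε * W.N f ^ 2 := by
    refine (W.cs hqf hfD).trans ?_
    calc W.N ((p * p - p) * f) * W.N f ≤ (ε * W.N f) * W.N f :=
          mul_le_mul_of_nonneg_right (hp.bit f hfL) hN
      _ = ε * W.N f ^ 2 := by ring
  have hNf0 : W.N (X0 * f) ≤ A * W.N f := h0 f hfL'
  have hNf1 : W.N (X1 * f) ≤ A * W.N f := h1 f hfL'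
  have e4 : |W.E (((p * p - p) * (X0 * f)) * (X1 * f))| ≤ ε * A ^ 2 * W.N f ^ 2 := by
    refine (W.cs hqf0 hf1D).trans ?_
    calc W.N ((p * p - p) * (X0 * f)) * W.N (X1 * f)
        ≤ (ε * W.N (X0 * f)) * W.N (X1 * f) :=
          mul_le_mul_of_nonneg_right (hp.bit _ hf0L) (W.N_nonneg _)
      _ ≤ (ε * (A * W.N f)) * (A * W.N f) := by
          apply mul_le_mul (mul_le_mul_of_nonneg_left hNf0 hε) hNf1 (W.N_nonneg _)
          exact mul_nonneg hε (mul_nonneg hA hN)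
      _ = ε * A ^ 2 * W.N f ^ 2 := by ring
  have hgD : ((1 - p) * X0 + p * X1) * f ∈ W.F W.D := by
    have : ((1 - p) * X0 + p * X1) * f = X0 * ((1 - p) * f) + X1 * (p * f) := by ring
    rw [this]
    exact Submodule.add_mem _ hXa hXb
  have e5 : (((1 - p) * X0 + p * X1) * f) * (((1 - p) * X0 + p * X1) * f) =
      (X0 * ((1 - p) * f)) * (X0 * ((1 - p) * f)) + (X1 * (p * f)) * (X1 * (p * f)) -
        (((p * p - p) * (X0 * f)) * (X1 * f) + ((p * p - p) * (X0 * f)) * (X1 * f)) := by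
    ring
  have e6 : W.E (((1 - p) * f) * ((1 - p) * f)) + W.E ((p * f) * (p * f)) =
      W.E (f * f) + (W.E (((p * p - p) * f) * f) + W.E (((p * p - p) * f) * f)) := by
    rw [← map_add, ← map_add, ← map_add]
    congr 1
    ring
  rw [W.N_sq hgD, e5, map_sub, map_add, map_add]
  have e7 := (abs_le.1 e3).2
  have e8 := (abs_le.1 e4).1
  have hA2 : 0 ≤ A ^ 2 := sq_nonneg A
  have e9 : A ^ 2 * W.E (((p * p - p) * f) * f) ≤ A ^ 2 * (ε * W.N f ^ 2) :=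
    mul_le_mul_of_nonneg_left e7 hA2
  have e10 : A ^ 2 * W.E (((1 - p) * f) * ((1 - p) * f)) + A ^ 2 * W.E ((p * f) * (p * f)) =
      A ^ 2 * W.N f ^ 2 + 2 * (A ^ 2 * W.E (((p * p - p) * f) * f)) := by
    rw [W.N_sq hfD, ← mul_add, e6]
    ring
  nlinarith [e1, e2, e8, e9, e10]

end Pool.Agent.MP_9cec2c_lc.SL.World
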