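import Pool.Agent.Lib.MP_9cec2c_lc.SL.MleA

/-!
TASK MleC: multilinear extensions are multiplicative for functions of disjoint sets of variables;
the exact value of a skeleton.
-/

set_option autoImplicit false

open Finset

namespace Pool.Agent.MP_9cec2c_lc.SL

variable {R : Type} [CommRing R] [Algebra ℝ R]

/-- Sum over `{0,1}^(r+s)` as a double sum (`Fin.appendEquiv` or `Fin.append`), product over
`Fin (r+s)` as a product of two products (`Fin.prod_univ_add`). -/
theorem mle_append {r s : ℕ} (g : (Fin r → Bool) → ℝ) (h : (Fin s → Bool) → ℝ) (p : Fin r → R)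
    (q : Fin s → R) :
    mle (fun b : Fin (r + s) → Bool =>
      g (fun i => b (Fin.castAdd s i)) * h (fun i => b (Fin.natAdd r i))) (Fin.append p q) =
      mle g p * mle h q := by
  unfold mle
  rw [Finset.sum_mul_sum, ← Finset.sum_product', Finset.univ_product_univ,
    ← (Fin.appendEquiv r s).sum_comp]
  refine Finset.sum_congr rfl fun x _ => ?_
  rw [Fin.prod_univ_add]
  have e1 : ∀ i, (Fin.appendEquiv r s x) (Fin.castAdd s i) = x.1 i := by
    intro i; simp [Fin.appendEquiv]
  have e2 : ∀ i, (Fin.appendEquiv r s x) (Fin.natAdd r i) = x.2 i := by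
    intro i; simp [Fin.appendEquiv]
  simp only [e1, e2, Fin.append_left, Fin.append_right, map_mul]
  ring

private theorem MleC_left {r s : ℕ} (g : (Fin r → Bool) → ℝ) (p : Fin r → R)
    (q : Fin s → R) :
    mle (fun b : Fin (r + s) → Bool => g (fun i => b (Fin.castAdd s i))) (Fin.append p q) =
      mle g p := by
  have := mle_append g (fun _ => (1 : ℝ)) p q
  simp only [mul_one, mle_const, map_one] at this
  exact this

private theorem MleC_right {r s : ℕ} (h : (Fin s → Bool) → ℝ) (p : Fin r → R)
    (q : Fin s → R) :
    mle (fun b : Fin (r + s) → Bool => h (fun i => b (Fin.natAdd r i))) (Fin.append p q) =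
      mle h q := by
  have := mle_append (fun _ => (1 : ℝ)) h p q
  simp only [one_mul, mle_const, map_one] at this
  exact this

private theorem MleC_and (a b : Bool) : ind (a && b) = ind a * ind b := by
  cases a <;> cases b <;> simp [ind]

private theorem MleC_or (a b : Bool) : ind (a || b) = ind a + ind b - ind a * ind b := by
  cases a <;> cases b <;> simp [ind]

omit [CommRing R] [Algebra ℝ R] in
private theorem MleC_app {α : Type} {r s : ℕ} (v : α → R) (a : Fin r → α) (b : Fin s → α) :
    (fun i => v (Fin.append a b i)) = Fin.append (fun i => v (a i)) (fun i => v (b i)) := by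
  funext i
  refine Fin.addCases (fun j => ?_) (fun j => ?_) i
  · simp only [Fin.append_left]
  · simp only [Fin.append_right]

private theorem MleC_one (f : (Fin 1 → Bool) → ℝ) (p : Fin 1 → R) :
    mle f p = (1 - p 0) * algebraMap ℝ R (f (fun _ => false)) +
      p 0 * algebraMap ℝ R (f (fun _ => true)) := by
  rw [mle_succ (r := 0), mle_zero, mle_zero]
  have hf : (Fin.cons false (default : Fin 0 → Bool) : Fin 1 → Bool) = fun _ => false := by
    funext i; fin_cases i; rfl
  have ht : (Fin.cons true (default : Fin 0 → Bool) : Fin 1 → Bool) = fun _ => true := by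
    funext i; fin_cases i; rfl
  rw [hf, ht]

private theorem MleC_mulB {r s : ℕ} (f : (Fin r → Bool) → Bool) (k : (Fin s → Bool) → Bool)
    (p : Fin r → R) (q : Fin s → R) :
    mle (fun b : Fin (r + s) → Bool =>
      ind (f (fun i => b (Fin.castAdd s i)) && k (fun i => b (Fin.natAdd r i))))
      (Fin.append p q) = mle (fun b => ind (f b)) p * mle (fun b => ind (k b)) q := by
  simp only [MleC_and]
  exact mle_append (fun c => ind (f c)) (fun c => ind (k c)) p q

private theorem MleC_addB {r s : ℕ} (f : (Fin r → Bool) → Bool) (k : (Fin s → Bool) → Bool)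
    (p : Fin r → R) (q : Fin s → R) :
    mle (fun b : Fin (r + s) → Bool =>
      ind (f (fun i => b (Fin.castAdd s i)) || k (fun i => b (Fin.natAdd r i))))
      (Fin.append p q) = mle (fun b => ind (f b)) p + mle (fun b => ind (k b)) q -
        mle (fun b => ind (f b)) p * mle (fun b => ind (k b)) q := by
  simp only [MleC_or]
  rw [mle_sub, mle_add, MleC_left (fun c => ind (f c)), MleC_right (fun c => ind (k c))]
  rw [mle_append (fun c => ind (f c)) (fun c => ind (k c)) p q]

/-- Induction on `g`: `ind (a && b) = ind a * ind b`, `ind (a || b) = ind a + ind b - ind a * ind b`,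
`mle_append` (also with `h = 1` or `g = 1`, `mle_const`). -/
theorem mle_ev {α : Type} (g : Sk α) (v : α → R) :
    mle (fun b => ind (g.ev b)) (fun i => v (g.lab i)) = g.val v := by
  induction g with
  | leaf a =>
    refine (MleC_one (fun b => ind ((Sk.leaf a).ev b)) (fun _ => v a)).trans ?_
    simp [Sk.ev, ind, Sk.val]
  | and g h hg hh =>
    have key := MleC_mulB g.ev h.ev (fun i => v (g.lab i)) (fun i => v (h.lab i))
    rw [hg, hh] at key
    refine Eq.trans ?_ key
    exact congrArg (mle _) (MleC_app v g.lab h.lab)
  | or g h hg hh =>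
    have key := MleC_addB g.ev h.ev (fun i => v (g.lab i)) (fun i => v (h.lab i))
    rw [hg, hh] at key
    refine Eq.trans ?_ key
    exact congrArg (mle _) (MleC_app v g.lab h.lab)

end Pool.Agent.MP_9cec2c_lc.SL
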