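import Pool.Agent.Lib.MP_9cec2c_lc.SL.J2
import Pool.Agent.Lib.MP_9cec2c_lc.SL.MleC
import Pool.Agent.Lib.MP_9cec2c_lc.SL.Lev

/-!
TASK Contr: consequences of `J1`, `J2` for a valuation `v` and a skeleton `g` with at most `8 M` leaves,
all labels of size `≤ τ`, `32 M ε ≤ 1`: then `(1 + 4 ε)^(g.r) ≤ (1 + 4ε)^(8M) ≤ exp (32 M ε) ≤ e ≤ 2.72`
(`Real.add_one_le_exp`, `Real.exp_one_lt_d9`; `pow_e` below).
`sk_mle`: `J1`, square roots (`√2.72 ≤ 2`). `sk_contr`: `sk_mle` with `η = 1`, `mle_ev`.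
`sk_mem`: `mle_ev`, `mle_mem`. `sk_bit`: `J2` for `g = h = ind ev` (`ind² = ind`), `mle_ev`;
`4 · 8M · ε · 2.72 ≤ 100 M ε`.
`bit_contr`: `J1` for `r = 1`, `h b = α` or `β` : an affine combination `α (1 - p) + β p` of a bit with
`|α|, |β| ≤ 1` satisfies `N (· f) ≤ (1 + 4ε) N f` (even with a square root).
-/

set_option autoImplicit false

open Finset

namespace Pool.Agent.MP_9cec2c_lc.SL.World

variable {R : Type} [CommRing R] [Algebra ℝ R] (W : World R) {Λ : Type}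

theorem pow_e {ε : ℝ} {r M : ℕ} (hε : 0 ≤ ε) (hM : 32 * (M : ℝ) * ε ≤ 1) (hr : r ≤ 8 * M) :
    (1 + 4 * ε) ^ r ≤ 2.72 := by
  have h1 : (1 + 4 * ε) ^ r ≤ (1 + 4 * ε) ^ (8 * M) :=
    pow_le_pow_right₀ (by linarith) hr
  have h2 : (1 + 4 * ε) ^ (8 * M) ≤ Real.exp (4 * ε) ^ (8 * M) := by
    refine pow_le_pow_left₀ (by linarith) ?_ _
    have := Real.add_one_le_exp (4 * ε)
    linarith
  have h3 : Real.exp (4 * ε) ^ (8 * M) = Real.exp (32 * (M : ℝ) * ε) := by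
    rw [← Real.exp_nat_mul]
    congr 1
    push_cast
    ring
  have h4 : Real.exp (32 * (M : ℝ) * ε) ≤ Real.exp 1 := Real.exp_le_exp.mpr hM
  have h5 := Real.exp_one_lt_d9
  calc (1 + 4 * ε) ^ r ≤ Real.exp 1 := by rw [h3] at h2; exact h1.trans (h2.trans h4)
    _ ≤ 2.72 := h5.le.trans (by norm_num)

private theorem Contr_ind_abs (b : Bool) : |ind b| ≤ 1 := by
  unfold ind
  split_ifs <;> simp

private theorem Contr_ind_mul (b : Bool) : ind b * ind b = ind b := by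
  unfold ind
  split_ifs <;> simp

private theorem Contr_len {a r M c L : ℕ} (hr : r ≤ 8 * M) (hL : a + 8 * M * c ≤ L) :
    a + r * c ≤ L :=
  (Nat.add_le_add_left (Nat.mul_le_mul_right c hr) a).trans hL

theorem sk_mle {v : Fm Λ → R} {τ c L L' M : ℕ} {ε η : ℝ} (hv : W.IsVal v τ c ε L) (hε : 0 ≤ ε)
    (hη : 0 ≤ η) (hM : 32 * (M : ℝ) * ε ≤ 1) (hD : L + 2 * c ≤ W.D) (g : Sk (Fm Λ))
    (hg : ∀ i, (g.lab i).size ≤ τ) (hr : g.r ≤ 8 * M) (hL : L' + 8 * M * c ≤ L)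
    (h : (Fin g.r → Bool) → ℝ) (hh : ∀ b, |h b| ≤ η) {f : R} (hf : f ∈ W.F L') :
    W.N (mle h (fun i => v (g.lab i)) * f) ≤ 2 * η * W.N f := by
  have h1 := J1 W hε hη hD L' (fun i => v (g.lab i)) (fun i => hv.bit _ (hg i)) h hh
    (Contr_len hr hL) f hf
  have h2 := pow_e hε hM hr
  have hN := W.N_nonneg f
  refine le_of_sq_le_sq ?_ (by positivity)
  calc W.N (mle h (fun i => v (g.lab i)) * f) ^ 2
      ≤ η ^ 2 * (1 + 4 * ε) ^ g.r * W.N f ^ 2 := h1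
    _ ≤ η ^ 2 * 2.72 * W.N f ^ 2 :=
        mul_le_mul_of_nonneg_right (mul_le_mul_of_nonneg_left h2 (sq_nonneg η)) (sq_nonneg _)
    _ ≤ (2 * η * W.N f) ^ 2 := by
        have h3 : 0 ≤ η ^ 2 * W.N f ^ 2 := by positivity
        nlinarith [h3]

theorem sk_contr {v : Fm Λ → R} {τ c L L' M : ℕ} {ε : ℝ} (hv : W.IsVal v τ c ε L) (hε : 0 ≤ ε)
    (hM : 32 * (M : ℝ) * ε ≤ 1) (hD : L + 2 * c ≤ W.D) (g : Sk (Fm Λ))
    (hg : ∀ i, (g.lab i).size ≤ τ) (hr : g.r ≤ 8 * M) (hL : L' + 8 * M * c ≤ L)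
    {f : R} (hf : f ∈ W.F L') : W.N (g.val v * f) ≤ 2 * W.N f := by
  have h1 := sk_mle W hv hε zero_le_one hM hD g hg hr hL (fun b => ind (g.ev b))
    (fun b => Contr_ind_abs _) hf
  rw [mle_ev, mul_one] at h1
  exact h1

theorem sk_mem {v : Fm Λ → R} {τ c L M : ℕ} {ε : ℝ} (hv : W.IsVal v τ c ε L) (g : Sk (Fm Λ))
    (hg : ∀ i, (g.lab i).size ≤ τ) (hr : g.r ≤ 8 * M) : g.val v ∈ W.F (8 * M * c) := by
  rw [← mle_ev]
  exact W.F_mono _ _ (Nat.mul_le_mul_right c hr)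
    (mle_mem W _ fun i => (hv.bit _ (hg i)).mem)

theorem sk_bit {v : Fm Λ → R} {τ c L L' M : ℕ} {ε : ℝ} (hv : W.IsVal v τ c ε L) (hε : 0 ≤ ε)
    (hM : 32 * (M : ℝ) * ε ≤ 1) (hD : L + 2 * c ≤ W.D) (g : Sk (Fm Λ))
    (hg : ∀ i, (g.lab i).size ≤ τ) (hr : g.r ≤ 8 * M) (hL : L' + 16 * M * c ≤ L)
    {f : R} (hf : f ∈ W.F L') :
    W.N ((g.val v * g.val v - g.val v) * f) ≤ 100 * M * ε * W.N f := by
  have hlen : L' + 2 * g.r * c ≤ L := by
    have h1 : 2 * g.r * c ≤ 16 * M * c := Nat.mul_le_mul_right c (by omega)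
    omega
  have h1 := J2 W hε hD L' (fun i => v (g.lab i)) (fun i => hv.bit _ (hg i))
    (fun b => ind (g.ev b)) (fun b => ind (g.ev b)) (fun b => Contr_ind_abs _)
    (fun b => Contr_ind_abs _) hlen f hf
  have h2 : (fun b : Fin g.r → Bool => ind (g.ev b) * ind (g.ev b)) = fun b => ind (g.ev b) :=
    funext fun b => Contr_ind_mul _
  rw [h2, mle_ev] at h1
  have h3 := pow_e hε hM hr
  have hN := W.N_nonneg f
  have hr' : (g.r : ℝ) ≤ 8 * M := by exact_mod_cast hr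
  have hM0 : (0 : ℝ) ≤ M := Nat.cast_nonneg M
  have hr0 : (0 : ℝ) ≤ g.r := Nat.cast_nonneg _
  calc W.N ((g.val v * g.val v - g.val v) * f)
      ≤ 4 * g.r * ε * (1 + 4 * ε) ^ g.r * W.N f := h1
    _ ≤ 4 * (8 * M) * ε * 2.72 * W.N f := by
        refine mul_le_mul_of_nonneg_right ?_ hN
        refine mul_le_mul ?_ h3 (by positivity) (by positivity)
        exact mul_le_mul_of_nonneg_right (mul_le_mul_of_nonneg_left hr' (by norm_num)) hε
    _ ≤ 100 * M * ε * W.N f := by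
        have h4 : 0 ≤ (M : ℝ) * ε * W.N f := by positivity
        nlinarith [h4]

theorem bit_contr {c L L' : ℕ} {ε α β : ℝ} {p : R} (hp : W.IsBit c ε L p) (hε : 0 ≤ ε)
    (hα : |α| ≤ 1) (hβ : |β| ≤ 1) (hD : L + 2 * c ≤ W.D) (hL : L' + c ≤ L) {f : R}
    (hf : f ∈ W.F L') :
    W.N ((α • (1 - p) + β • p) * f) ≤ (1 + 4 * ε) * W.N f := by
  have h1 := J1 W (r := 1) hε zero_le_one hD L' (fun _ => p) (fun _ => hp)
    (fun b => if b 0 = true then β else α) (fun b => by split_ifs <;> assumption)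
    (by omega) f hf
  have h2 : mle (fun b : Fin 1 → Bool => if b 0 = true then β else α) (fun _ => p) =
      α • (1 - p) + β • p := by
    rw [mle_succ, mle_zero, mle_zero, Algebra.smul_def, Algebra.smul_def]
    simp only [Fin.cons_zero]
    rw [if_neg (by simp), if_pos trivial]
    ring
  rw [h2] at h1
  have hN := W.N_nonneg f
  refine le_of_sq_le_sq ?_ (by positivity)
  calc W.N ((α • (1 - p) + β • p) * f) ^ 2 ≤ 1 ^ 2 * (1 + 4 * ε) ^ 1 * W.N f ^ 2 := h1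
    _ ≤ ((1 + 4 * ε) * W.N f) ^ 2 := by
        have h4 : 0 ≤ W.N f ^ 2 := by positivity
        have h5 : (1 + 4 * ε) ≤ (1 + 4 * ε) ^ 2 := by nlinarith
        calc 1 ^ 2 * (1 + 4 * ε) ^ 1 * W.N f ^ 2 = (1 + 4 * ε) * W.N f ^ 2 := by ring
          _ ≤ (1 + 4 * ε) ^ 2 * W.N f ^ 2 := mul_le_mul_of_nonneg_right h5 h4
          _ = ((1 + 4 * ε) * W.N f) ^ 2 := by ring

end Pool.Agent.MP_9cec2c_lc.SL.World
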