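import Pool.Agent.Lib.MP_9cec2c_lc.SL.RuleSnd

/-!
TASK Final1: no refutation in a model (granularity).
Let `C₀` be the maximum of the constants of `rule_snd` for the rules in `S` (the statement of `rule_snd`
is not monotone in `C` by itself: use for each rule its own constant `C_r ≤ C₀`; `HC`, `2 C_r k ≤ D` follow
for `C_r` from those for `C₀ ≥ 1`, and `(2 K^(C_r k) B)^(C_r) ≤ (2 K^(C₀ k) B)^(C₀)`), `p` the maximal number
of premises, `Mf = (2 K^(C₀ k) B)^(C₀)`. Choose `C ≥ C₀ + 1` and so large that the hypothesis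
`(2 K^(C k) B)^C ε < 1`... gives `2 K^k Mf (1 + 2p) ε < 1` and `4 ε < 1` (e.g. `C = C₀ + 2p + 4`, as
`2 K^k Mf (1 + 2p) ≤ (2 K^(C k) B)^C`, `1 + 2p ≤ 2^(2p)` for `p ≥ 1`).
Granularity: for `A ∈ Q`, `u = 1 - val A`: `u² - u = val A² - val A`, so
`N u ≤ N (u²) + ε ≤ K^k (N u)² + ε`; if `N u < 1/(2 K^k)`, then `N u ≤ N u / 2 + ε`, `N u ≤ 2 ε`
(if `N u ≥ 0`, always).
Induction along the derivation: `N (1 - val (L i)) ≤ 2 ε` for all `i`: hypotheses: `hΦ`; rules:
`rule_snd` gives `N u ≤ Mf (ε + p · 2ε) < 1/(2 K^k)`, so `≤ 2 ε`.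
-/

set_option autoImplicit false

open Finset
open scoped Classical

namespace Pool.Agent.MP_9cec2c_lc.SL

private theorem Final1_gran {R : Type} [CommRing R] [Algebra ℝ R] (W : World R) {X : Type}
    {Q : Set (Form X)} {val : Form X → R} {k : ℕ} {ε B K : ℝ} {D₁ : ℕ} (hk : k ≤ D₁)
    (hD : 2 * D₁ ≤ W.D) (hK : 1 ≤ K) (hHC : W.HC K D₁) (hM : Mdl W Q val k ε B) {A : Form X}
    (hA : A ∈ Q) (hsmall : 2 * K ^ k * W.N (1 - val A) < 1) : W.N (1 - val A) ≤ 2 * ε := by
  have hu : (1 - val A) ∈ W.F k := Submodule.sub_mem _ (W.one_mem' k) (hM.mem A hA)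
  have huu : (1 - val A) * (1 - val A) ∈ W.F W.D :=
    W.F_mono _ _ (by omega) (W.mul_mem k k _ _ hu hu)
  have huD : (1 - val A) ∈ W.F W.D := W.F_mono _ _ (by omega) hu
  have hdef : (1 - val A) * (1 - val A) - (1 - val A) = val A * val A - val A := by ring
  have hz : W.N ((1 - val A) * (1 - val A) - (1 - val A)) ≤ ε := by
    rw [hdef]
    exact hM.bit A hA
  have h1 : W.N (1 - val A) ≤ W.N ((1 - val A) * (1 - val A)) + ε := by
    have h2 : W.N ((1 - val A) * (1 - val A) - ((1 - val A) * (1 - val A) - (1 - val A)))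
        ≤ W.N ((1 - val A) * (1 - val A)) +
          W.N ((1 - val A) * (1 - val A) - (1 - val A)) :=
      W.N_sub huu (Submodule.sub_mem _ huu huD)
    have h3 : (1 - val A) * (1 - val A) - ((1 - val A) * (1 - val A) - (1 - val A))
        = 1 - val A := by ring
    rw [h3] at h2
    linarith
  have h4 := hHC k hk _ hu _ hu
  have hn := W.N_nonneg (1 - val A)
  have h5 : K ^ k * (W.N (1 - val A) * W.N (1 - val A)) ≤ W.N (1 - val A) / 2 := by
    have h6 : 0 ≤ K ^ k := by positivity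
    nlinarith
  linarith

theorem no_refutation (S : Set Rule) (hS : S.Finite) (hs : ∀ r ∈ S, r.Sound) : ∃ C : ℕ,
    ∀ (R : Type) [CommRing R] [Algebra ℝ R] (W : World R) (X : Type) (Q : Set (Form X))
      (val : Form X → R) (k : ℕ) (ε B K : ℝ),
    0 ≤ ε → 1 ≤ B → 1 ≤ K → 2 * (C * k) ≤ W.D → W.HC K (C * k) → Mdl W Q val k ε B →
    (2 * K ^ (C * k) * B) ^ C * ε < 1 →
    ∀ (Φ : Set (Form X)), (∀ A ∈ Φ, A ∈ Q → W.N (1 - val A) ≤ ε) →
    ∀ (l : ℕ) (L : Fin l → Form X), IsDerivation S Φ L → (∀ i, L i ∈ Q) →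
      ∀ i, W.N (1 - val (L i)) ≤ 2 * ε ∧ 4 * ε < 1 := by
  classical
  have hex : ∀ r ∈ S, ∃ C : ℕ, ∀ (R : Type) [CommRing R] [Algebra ℝ R]
    (W : World R) (X : Type) (Q : Set (Form X)) (val : Form X → R) (k : ℕ) (ε B K : ℝ),
    0 ≤ ε → 1 ≤ B → 1 ≤ K → 2 * (C * k) ≤ W.D → W.HC K (C * k) → Mdl W Q val k ε B →
    ∀ σ : ℕ → Form X, (∀ P ∈ r.prems, P.subst σ ∈ Q) → r.concl.subst σ ∈ Q →
      W.N (1 - val (r.concl.subst σ)) ≤ (2 * K ^ (C * k) * B) ^ C *
        (ε + (r.prems.map (fun P => W.N (1 - val (P.subst σ)))).sum) :=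
    fun r hr => rule_snd r (hs r hr)
  choose! c hc using hex
  obtain ⟨C₀, hC₀⟩ : ∃ C₀ : ℕ, ∀ r ∈ S, c r ≤ C₀ :=
    ⟨hS.toFinset.sup c, fun r hr => Finset.le_sup (hS.mem_toFinset.2 hr)⟩
  obtain ⟨p, hp⟩ : ∃ p : ℕ, ∀ r ∈ S, r.prems.length ≤ p :=
    ⟨hS.toFinset.sup (fun r => r.prems.length),
      fun r hr => Finset.le_sup (f := fun r : Rule => r.prems.length) (hS.mem_toFinset.2 hr)⟩
  refine ⟨C₀ + 2 * p + 4, ?_⟩
  intro R _ _ W X Q val k ε B K hε hB hK hD hHC hM hbig Φ hΦ l L hL hLQ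
  obtain ⟨C, hC⟩ : ∃ C : ℕ, C = C₀ + 2 * p + 4 := ⟨_, rfl⟩
  rw [← hC] at hD hHC hbig
  obtain ⟨b, hb⟩ : ∃ b : ℝ, b = 2 * K ^ (C * k) * B := ⟨_, rfl⟩
  rw [← hb] at hbig
  have hK0 : (0 : ℝ) < K := by linarith
  have hB0 : (0 : ℝ) < B := by linarith
  have hpw : ∀ a : ℕ, a ≤ C * k → K ^ a ≤ K ^ (C * k) := fun a ha => pow_le_pow_right₀ hK ha
  have hK1 : ∀ a : ℕ, 1 ≤ K ^ a := fun a => one_le_pow₀ hK
  have hb2 : 2 ≤ b := by
    rw [hb]
    have := hK1 (C * k)
    nlinarith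
  have hb1 : 1 ≤ b := by linarith
  have hb0 : 0 < b := by linarith
  have hkC : k ≤ C * k := by
    rw [hC]
    nlinarith
  have hbk : 2 * K ^ k ≤ b := by
    rw [hb]
    have h1 := hpw k hkC
    have h2 := hK1 (C * k)
    nlinarith
  have h4ε : 4 * ε < 1 := by
    have h1 : b ^ 2 ≤ b ^ C := pow_le_pow_right₀ hb1 (by omega)
    have h2 : (4 : ℝ) ≤ b ^ 2 := by nlinarith
    nlinarith
  -- the main estimate for the constants
  have hmain : 2 * K ^ k * (b ^ C₀ * ((1 + 2 * (p : ℝ)) * ε)) < 1 := by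
    have h1 : (1 + 2 * (p : ℝ)) ≤ b ^ (2 * p) := by
      have h2 : 2 * p + 1 ≤ 2 ^ (2 * p) := Nat.lt_two_pow_self
      have h3 : (1 + 2 * (p : ℝ)) ≤ 2 ^ (2 * p) := by
        have : ((2 * p + 1 : ℕ) : ℝ) ≤ ((2 ^ (2 * p) : ℕ) : ℝ) := by exact_mod_cast h2
        push_cast at this
        linarith
      exact h3.trans (pow_le_pow_left₀ (by norm_num) hb2 _)
    have hbC : 0 ≤ b ^ C₀ := by positivity
    have hp0 : (0 : ℝ) ≤ 1 + 2 * (p : ℝ) := by positivity
    calc 2 * K ^ k * (b ^ C₀ * ((1 + 2 * (p : ℝ)) * ε))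
        ≤ b * (b ^ C₀ * (b ^ (2 * p) * ε)) := by
          refine mul_le_mul hbk ?_ (by positivity) hb0.le
          refine mul_le_mul_of_nonneg_left ?_ hbC
          exact mul_le_mul_of_nonneg_right h1 hε
      _ = b ^ (C₀ + 2 * p + 1) * ε := by rw [pow_add, pow_add]; ring
      _ ≤ b ^ C * ε := by
          refine mul_le_mul_of_nonneg_right ?_ hε
          exact pow_le_pow_right₀ hb1 (by omega)
      _ < 1 := hbig
  have key : ∀ (n : ℕ) (i : Fin l), (i : ℕ) = n → W.N (1 - val (L i)) ≤ 2 * ε := by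
    intro n
    induction n using Nat.strong_induction_on with
    | _ n ih =>
      intro i hi
      rcases hL i with hLi | ⟨r, hr, σ, hσ, hpr⟩
      · have := hΦ (L i) hLi (hLQ i)
        linarith
      · have hprem : ∀ P ∈ r.prems, P.subst σ ∈ Q ∧ W.N (1 - val (P.subst σ)) ≤ 2 * ε := by
          intro P hP
          obtain ⟨j, hj, hjP⟩ := hpr P hP
          rw [← hjP]
          exact ⟨hLQ j, ih j (by rw [← hi]; exact hj) j rfl⟩
        have hcr : c r ≤ C₀ := hC₀ r hr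
        have hcrC : c r * k ≤ C * k := Nat.mul_le_mul_right k (by omega)
        have hrs := hc r hr R W X Q val k ε B K hε hB hK (by omega)
          (fun d hd => hHC d (hd.trans hcrC)) hM σ (fun P hP => (hprem P hP).1)
          (by rw [hσ]; exact hLQ i)
        rw [hσ] at hrs
        have hsum : (r.prems.map (fun P => W.N (1 - val (P.subst σ)))).sum ≤ p * (2 * ε) := by
          have h1 : (r.prems.map (fun P => W.N (1 - val (P.subst σ)))).sum
              ≤ (r.prems.map (fun P => W.N (1 - val (P.subst σ)))).length • (2 * ε) := by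
            refine List.sum_le_card_nsmul _ _ ?_
            intro x hx
            rw [List.mem_map] at hx
            obtain ⟨P, hP, rfl⟩ := hx
            exact (hprem P hP).2
          rw [List.length_map, nsmul_eq_mul] at h1
          refine h1.trans ?_
          refine mul_le_mul_of_nonneg_right ?_ (by linarith)
          exact_mod_cast hp r hr
        have hfac : (2 * K ^ (c r * k) * B) ^ c r ≤ b ^ C₀ := by
          have h1 : 2 * K ^ (c r * k) * B ≤ b := by
            rw [hb]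
            refine mul_le_mul_of_nonneg_right ?_ hB0.le
            exact mul_le_mul_of_nonneg_left (hpw _ hcrC) (by norm_num)
          have h0 : 0 ≤ 2 * K ^ (c r * k) * B := by positivity
          exact (pow_le_pow_left₀ h0 h1 _).trans (pow_le_pow_right₀ hb1 hcr)
        have hN : W.N (1 - val (L i)) ≤ b ^ C₀ * ((1 + 2 * (p : ℝ)) * ε) := by
          refine hrs.trans ?_
          have hs0 : 0 ≤ (r.prems.map (fun P => W.N (1 - val (P.subst σ)))).sum := by
            refine List.sum_nonneg ?_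
            intro x hx
            rw [List.mem_map] at hx
            obtain ⟨P, hP, rfl⟩ := hx
            exact W.N_nonneg _
          refine mul_le_mul hfac ?_ (by linarith) (by positivity)
          linarith
        refine Final1_gran W (D₁ := C * k) hkC hD hK hHC hM (hLQ i) ?_
        have hKk : 0 < 2 * K ^ k := by positivity
        calc 2 * K ^ k * W.N (1 - val (L i))
            ≤ 2 * K ^ k * (b ^ C₀ * ((1 + 2 * (p : ℝ)) * ε)) :=
              mul_le_mul_of_nonneg_left hN hKk.le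
          _ < 1 := hmain
  intro i
  exact ⟨key i i rfl, h4ε⟩

end Pool.Agent.MP_9cec2c_lc.SL
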