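import Pool.Agent.Lib.MP_9cec2c_lc.SL.Rl
import Pool.Agent.Lib.MP_9cec2c_lc.SL.Frege

/-!
Definitions (`Mdl`) and TASK RuleSnd: an instance of a sound rule is approximately sound in a model.

Let the variables of `R` be among `0, …, r - 1` (`r ≥ 1`), `p_i = val (σ i)` if `σ i ∈ Q`. Only variables
that occur in the schemes matter: for these `σ i ∈ Q` (subformulas); for the others put
`p_i = 0` (formally use `p_i = if σ i ∈ Q then val (σ i) else 0`, an element of `F k` with
`N p_i ≤ B`, `N (p_i² - p_i) ≤ ε`). For `b : Fin r → Bool` let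
`e_b = ∏_i (p_i or 1 - p_i) ∈ F (r k)`; `∑_b e_b = 1` exactly. Let `D₁ = (r+1) k ≤ C k`, `H = K^(D₁) ≥ 1`,
`Λ = 2 H B ≥ 2`; `N (f g) ≤ H N f N g` for `f, g ∈ F D₁`. Then `N (1 - p_i) ≤ 1 + B ≤ 2 B`,
`N e_b ≤ Λ^r` (partial products too).
Claim 1. For every scheme `F` (subformula of a scheme of `R`) with `F.subst σ ∈ Q` and every `b`:
`N ((val (F.subst σ) - F(b)) e_b) ≤ Λ^(r + 1 + 3 s) ε`, `s` = number of nodes of `F`, `F(b) ∈ {0, 1}` the
value under `b`. Variables: `(p_i - b_i) e_b = ± (p_i² - p_i) ∏_{j ≠ i}`. Negation: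
`val (¬A) - (1 - A(b)) = [val ¬A - (1 - val A)] - (val A - A(b))`. Conjunction:
`[val (A ∧ B) - val A val B] + val A (val B - B(b)) + B(b) (val A - A(b))`; the other connectives
similarly; each bracket has `N (· e_b) ≤ H ε Λ^r`, and `N (val A · g) ≤ H B N g`.
Claim 2. Let `δ = ∑_{P ∈ prems} N (1 - val (P.subst σ))`, `u = 1 - val (concl.subst σ)`. For every `b`:
either the conclusion is true under `b`, then `N (u e_b) ≤ Λ^c ε`; or some premise `P` is false under
`b` (soundness), then `e_b = (1 - val P) e_b + (val P - 0) e_b`, so `N e_b ≤ H δ Λ^r + Λ^c ε` and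
`N (u e_b) ≤ H (1 + B) N e_b`. Sum over the `2^r` values of `b`: `u = ∑_b u e_b`. So
`N u ≤ Λ^C (ε + δ)` with `C` depending on `R` only. (All elements belong to
`F (2 D₁) ⊆ F D`.) In the statement `Λ^C` is written with `H = K^(C k)`.
-/

set_option autoImplicit false

open Finset
open scoped Classical

namespace Pool.Agent.MP_9cec2c_lc.SL

/-- `val` is a model up to `ε` of the formulas in `Q`: elements of degree `≤ k` and norm `≤ B`. `Q` is
closed under subformulas. -/
structure Mdl {R : Type} [CommRing R] [Algebra ℝ R] (W : World R) {X : Type} (Q : Set (Form X))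
    (val : Form X → R) (k : ℕ) (ε B : ℝ) : Prop where
  mem : ∀ A ∈ Q, val A ∈ W.F k
  bd : ∀ A ∈ Q, W.N (val A) ≤ B
  bit : ∀ A ∈ Q, W.N (val A * val A - val A) ≤ ε
  tt : Form.tt ∈ Q → W.N (val Form.tt - 1) ≤ ε
  ff : Form.ff ∈ Q → W.N (val Form.ff) ≤ ε
  neg : ∀ A, A.neg ∈ Q → A ∈ Q ∧ W.N (val A.neg - (1 - val A)) ≤ ε
  and : ∀ A B', A.and B' ∈ Q → A ∈ Q ∧ B' ∈ Q ∧ W.N (val (A.and B') - val A * val B') ≤ ε
  or : ∀ A B', A.or B' ∈ Q → A ∈ Q ∧ B' ∈ Q ∧
    W.N (val (A.or B') - (val A + val B' - val A * val B')) ≤ ε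
  imp : ∀ A B', A.imp B' ∈ Q → A ∈ Q ∧ B' ∈ Q ∧
    W.N (val (A.imp B') - (1 - val A + val A * val B')) ≤ ε

/-! ### Auxiliary facts -/

/-- Number of connectives. -/
private def ht : Form ℕ → ℕ
  | .var _ => 0
  | .tt => 0
  | .ff => 0
  | .neg A => ht A + 1
  | .and A B => ht A + ht B + 1
  | .or A B => ht A + ht B + 1
  | .imp A B => ht A + ht B + 1

/-- A strict bound for the variables. -/
private def vb : Form ℕ → ℕ
  | .var i => i + 1
  | .tt => 0
  | .ff => 0
  | .neg A => vb A
  | .and A B => max (vb A) (vb B)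
  | .or A B => max (vb A) (vb B)
  | .imp A B => max (vb A) (vb B)

private structure Ctx {R : Type} [CommRing R] [Algebra ℝ R] (W : World R) (p : ℕ → R)
    (k n D₁ : ℕ) (H B ε : ℝ) : Prop where
  hD : 2 * D₁ ≤ W.D
  hmul : ∀ f ∈ W.F D₁, ∀ g ∈ W.F D₁, W.N (f * g) ≤ H * (W.N f * W.N g)
  hH : 1 ≤ H
  hB : 1 ≤ B
  hε : 0 ≤ ε
  hn : (n + 3) * k ≤ D₁
  pm : ∀ i, p i ∈ W.F k
  pN : ∀ i, W.N (p i) ≤ B
  pb : ∀ i, W.N (p i * p i - p i) ≤ ε

private def qq {R : Type} [CommRing R] (p : ℕ → R) (x : ℕ → Bool) (i : ℕ) : R :=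
  if x i = true then p i else 1 - p i

private def EE {R : Type} [CommRing R] (p : ℕ → R) (x : ℕ → Bool) (s : Finset ℕ) : R :=
  ∏ i ∈ s, qq p x i

private def tv {R : Type} [CommRing R] : Bool → R
  | true => 1
  | false => 0

private theorem tv_true {R : Type} [CommRing R] : (tv true : R) = 1 := rfl

private theorem tv_false {R : Type} [CommRing R] : (tv false : R) = 0 := rfl

namespace Ctx

variable {R : Type} [CommRing R] [Algebra ℝ R] {W : World R} {p : ℕ → R} {k n D₁ : ℕ}
  {H B ε : ℝ}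

private theorem one_le_lam (c : Ctx W p k n D₁ H B ε) : 2 ≤ 2 * H * B := by
  have h1 := c.hH
  have h2 := c.hB
  nlinarith

private theorem up (c : Ctx W p k n D₁ H B ε) {f : R} {a : ℕ} (hf : f ∈ W.F a)
    (ha : a ≤ (n + 3) * k) : f ∈ W.F D₁ :=
  W.F_mono _ _ (ha.trans c.hn) hf

private theorem upD (c : Ctx W p k n D₁ H B ε) {f : R} (hf : f ∈ W.F D₁) : f ∈ W.F W.D :=
  W.F_mono _ _ (le_trans (by omega) c.hD) hf

private theorem k_le (_c : Ctx W p k n D₁ H B ε) : k ≤ (n + 3) * k :=
  Nat.le_mul_of_pos_left k (by omega)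

private theorem upk (c : Ctx W p k n D₁ H B ε) {f : R} (hf : f ∈ W.F k) : f ∈ W.F D₁ :=
  c.up hf c.k_le

private theorem qm (c : Ctx W p k n D₁ H B ε) (x : ℕ → Bool) (i : ℕ) : qq p x i ∈ W.F k := by
  unfold qq
  split_ifs
  · exact c.pm i
  · exact (W.F k).sub_mem (W.one_mem' k) (c.pm i)

private theorem one_sub (c : Ctx W p k n D₁ H B ε) {f : R} (hf : f ∈ W.F k)
    (hN : W.N f ≤ B) : W.N (1 - f) ≤ 2 * B := by
  have h := W.N_sub (c.upD (c.upk (W.one_mem' k))) (c.upD (c.upk hf))
  rw [W.N_one] at h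
  have := c.hB
  linarith

private theorem qN (c : Ctx W p k n D₁ H B ε) (x : ℕ → Bool) (i : ℕ) :
    W.N (qq p x i) ≤ 2 * B := by
  unfold qq
  split_ifs
  · have := c.pN i
    have := c.hB
    linarith
  · exact c.one_sub (c.pm i) (c.pN i)

private theorem Em (c : Ctx W p k n D₁ H B ε) (x : ℕ → Bool) (s : Finset ℕ) :
    EE p x s ∈ W.F (s.card * k) := by
  unfold EE
  induction s using Finset.induction_on with
  | empty => simpa using W.one_mem
  | insert a s ha ih =>
    rw [Finset.prod_insert ha, Finset.card_insert_of_notMem ha, add_mul, one_mul, add_comm]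
    exact W.mul_mem _ _ _ _ (c.qm x a) ih

private theorem EmD (c : Ctx W p k n D₁ H B ε) (x : ℕ → Bool) (s : Finset ℕ)
    (hs : s.card ≤ n) : EE p x s ∈ W.F D₁ :=
  c.up (c.Em x s) (Nat.mul_le_mul_right k (by omega))

private theorem EN (c : Ctx W p k n D₁ H B ε) (x : ℕ → Bool) (s : Finset ℕ)
    (hs : s.card ≤ n) : W.N (EE p x s) ≤ (2 * H * B) ^ s.card := by
  induction s using Finset.induction_on with
  | empty => simp [EE, W.N_one]
  | insert a s ha ih =>
    rw [Finset.card_insert_of_notMem ha] at hs ⊢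
    have h1 := ih (by omega)
    have h2 : EE p x (insert a s) = qq p x a * EE p x s := by
      unfold EE
      rw [Finset.prod_insert ha]
    rw [h2, pow_succ]
    have h3 := c.hmul _ (c.upk (c.qm x a)) _ (c.EmD x s (by omega))
    have h4 := c.qN x a
    have h5 := W.N_nonneg (qq p x a)
    have h6 := W.N_nonneg (EE p x s)
    have hH := c.hH
    have hB := c.hB
    have h7 : W.N (qq p x a) * W.N (EE p x s) ≤ 2 * B * (2 * H * B) ^ s.card :=
      mul_le_mul h4 h1 h6 (by linarith)
    calc W.N (qq p x a * EE p x s) ≤ H * (W.N (qq p x a) * W.N (EE p x s)) := h3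
      _ ≤ H * (2 * B * (2 * H * B) ^ s.card) := by gcongr
      _ = (2 * H * B) ^ s.card * (2 * H * B) := by ring

/-- the full product -/
private theorem ENn (c : Ctx W p k n D₁ H B ε) (x : ℕ → Bool) (s : Finset ℕ)
    (hs : s.card ≤ n) : W.N (EE p x s) ≤ (2 * H * B) ^ n :=
  (c.EN x s hs).trans (pow_le_pow_right₀ (by linarith [c.one_le_lam]) hs)

/-- an error term times a partial product -/
private theorem err (c : Ctx W p k n D₁ H B ε) {f : R} {a : ℕ} (hf : f ∈ W.F a)
    (ha : a ≤ 2 * k) (hN : W.N f ≤ ε) (x : ℕ → Bool) (s : Finset ℕ) (hs : s.card ≤ n) :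
    W.N (f * EE p x s) ≤ (2 * H * B) ^ (n + 1) * ε := by
  have ha' : a ≤ (n + 3) * k := ha.trans (Nat.mul_le_mul_right k (by omega))
  have h1 := c.hmul _ (c.up hf ha') _ (c.EmD x s hs)
  have h2 := c.ENn x s hs
  have h3 := W.N_nonneg f
  have h4 := W.N_nonneg (EE p x s)
  have hH := c.hH
  have hB := c.hB
  have hε := c.hε
  have h5 : W.N f * W.N (EE p x s) ≤ ε * (2 * H * B) ^ n := mul_le_mul hN h2 h4 hε
  have h6 : (0 : ℝ) ≤ (2 * H * B) ^ n := pow_nonneg (by linarith [c.one_le_lam]) _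
  have h7 : H ≤ 2 * H * B := by nlinarith
  calc W.N (f * EE p x s) ≤ H * (W.N f * W.N (EE p x s)) := h1
    _ ≤ (2 * H * B) * (ε * (2 * H * B) ^ n) := by
        apply mul_le_mul h7 h5 (mul_nonneg h3 h4) (by linarith [c.one_le_lam])
    _ = (2 * H * B) ^ (n + 1) * ε := by ring

private theorem mulD (c : Ctx W p k n D₁ H B ε) {f g : R} (hf : f ∈ W.F D₁) (hg : g ∈ W.F D₁) :
    f * g ∈ W.F W.D :=
  W.F_mono _ _ (le_trans (by omega) c.hD) (W.mul_mem _ _ _ _ hf hg)

private theorem powle (c : Ctx W p k n D₁ H B ε) {a b : ℕ} (h : a ≤ b) :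
    (2 * H * B) ^ a * ε ≤ (2 * H * B) ^ b * ε :=
  mul_le_mul_of_nonneg_right (pow_le_pow_right₀ (by linarith [c.one_le_lam]) h) c.hε

private theorem mulL (c : Ctx W p k n D₁ H B ε) {z g : R} (hz : z ∈ W.F D₁)
    (hzN : W.N z ≤ 2 * B) (hg : g ∈ W.F D₁) : W.N (z * g) ≤ (2 * H * B) * W.N g := by
  have h1 := c.hmul _ hz _ hg
  have h2 := W.N_nonneg g
  have h3 := W.N_nonneg z
  have hH := c.hH
  calc W.N (z * g) ≤ H * (W.N z * W.N g) := h1
    _ ≤ H * (2 * B * W.N g) := by gcongr
    _ = (2 * H * B) * W.N g := by ring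

private theorem bin (c : Ctx W p k n D₁ H B ε) {tA tB : ℕ} {f1 gA gB z w : R}
    (h1m : f1 ∈ W.F D₁) (h1 : W.N f1 ≤ (2 * H * B) ^ (n + 1) * ε)
    (hAm : gA ∈ W.F D₁) (hA : W.N gA ≤ (2 * H * B) ^ (n + 1 + 2 * tA) * ε)
    (hBm : gB ∈ W.F D₁) (hB' : W.N gB ≤ (2 * H * B) ^ (n + 1 + 2 * tB) * ε)
    (hzm : z ∈ W.F D₁) (hz : W.N z ≤ 2 * B) (hw : w = 0 ∨ w = 1 ∨ w = -1) :
    W.N (f1 + z * gB + w * gA) ≤ (2 * H * B) ^ (n + 1 + 2 * (tA + tB + 1)) * ε := by
  have hL := c.one_le_lam
  have hε := c.hε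
  have hwm : w * gA ∈ W.F W.D := by
    rcases hw with rfl | rfl | rfl
    · rw [zero_mul]; exact (W.F W.D).zero_mem
    · rw [one_mul]; exact c.upD hAm
    · rw [neg_one_mul]; exact (W.F W.D).neg_mem (c.upD hAm)
  have hwN : W.N (w * gA) ≤ (2 * H * B) ^ (n + 1 + 2 * tA) * ε := by
    rcases hw with rfl | rfl | rfl
    · rw [zero_mul, W.N_zero]
      exact mul_nonneg (pow_nonneg (by linarith) _) hε
    · rw [one_mul]; exact hA
    · rw [neg_one_mul, W.N_neg]; exact hA
  have hzg := c.mulD hzm hBm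
  have hs1 := W.N_add (c.upD h1m) hzg
  have hs2 := W.N_add ((W.F W.D).add_mem (c.upD h1m) hzg) hwm
  have h2 := c.mulL hzm hz hBm
  have h3 : (2 * H * B) * W.N gB ≤ (2 * H * B) * ((2 * H * B) ^ (n + 1 + 2 * tB) * ε) :=
    mul_le_mul_of_nonneg_left hB' (by linarith)
  set L := 2 * H * B with hLdef
  have e1 := c.powle (a := n + 1) (b := n + 1 + 2 * (tA + tB)) (by omega)
  have e2 := c.powle (a := n + 1 + 2 * tA) (b := n + 1 + 2 * (tA + tB)) (by omega)
  have e3 := c.powle (a := n + 1 + 2 * tB) (b := n + 1 + 2 * (tA + tB)) (by omega)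
  rw [← hLdef] at e1 e2 e3
  have e4 : L ^ (n + 1 + 2 * (tA + tB + 1)) * ε = L ^ 2 * (L ^ (n + 1 + 2 * (tA + tB)) * ε) := by
    ring
  have e5 : 0 ≤ L ^ (n + 1 + 2 * (tA + tB)) * ε := mul_nonneg (pow_nonneg (by linarith) _) hε
  rw [e4]
  set Z := L ^ (n + 1 + 2 * (tA + tB)) * ε
  have h4 : L * (L ^ (n + 1 + 2 * tB) * ε) ≤ L * Z := mul_le_mul_of_nonneg_left e3 (by linarith)
  have h5 : (L + 2) * Z ≤ L ^ 2 * Z := mul_le_mul_of_nonneg_right (by nlinarith) e5
  linarith

private theorem diffm (c : Ctx W p k n D₁ H B ε) {v : R} (hv : v ∈ W.F k) (b : Bool)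
    (x : ℕ → Bool) :
    (v - tv b) * EE p x (range n) ∈ W.F D₁ := by
  have h1 : (v - tv b) ∈ W.F k := by
    cases b
    · rw [tv_false, sub_zero]; exact hv
    · rw [tv_true]; exact (W.F k).sub_mem hv (W.one_mem' k)
  have h2 := W.mul_mem _ _ _ _ h1 (c.Em x (range n))
  rw [card_range] at h2
  refine c.up h2 ?_
  have : (n + 3) * k = k + n * k + 2 * k := by ring
  omega

private theorem claim1 (c : Ctx W p k n D₁ H B ε) {X : Type} {Q : Set (Form X)}
    {val : Form X → R} (hM : Mdl W Q val k ε B) (σ : ℕ → Form X)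
    (hp : ∀ i, σ i ∈ Q → p i = val (σ i)) (x : ℕ → Bool) :
    ∀ F : Form ℕ, vb F ≤ n → F.subst σ ∈ Q →
      W.N ((val (F.subst σ) - tv (F.eval x)) * EE p x (range n)) ≤
        (2 * H * B) ^ (n + 1 + 2 * ht F) * ε := by
  have hL := c.one_le_lam
  have hcn : (range n).card ≤ n := by rw [card_range]
  intro F
  induction F with
  | var i =>
    intro hv hQ
    have hi : i ∈ range n := mem_range.2 (by simpa [vb] using hv)
    have hQ' : σ i ∈ Q := hQ
    have e1 : EE p x (range n) = qq p x i * EE p x ((range n).erase i) := by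
      unfold EE
      rw [Finset.mul_prod_erase _ _ hi]
    have hce : ((range n).erase i).card ≤ n := (Finset.card_erase_le).trans hcn
    have hbit := c.err (f := p i * p i - p i) (a := 2 * k)
      ((W.F (2 * k)).sub_mem (by rw [two_mul]; exact W.mul_mem _ _ _ _ (c.pm i) (c.pm i))
        (W.F_mono _ _ (by omega) (c.pm i))) le_rfl (c.pb i) x ((range n).erase i) hce
    have e0 : Form.subst σ (Form.var i) = σ i := rfl
    have e00 : Form.eval x (Form.var i) = x i := rfl
    rw [e0, e00, e1, ← hp i hQ']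
    simp only [ht, mul_zero, add_zero]
    unfold qq
    by_cases hx : x i = true
    · rw [if_pos hx, hx, tv_true]
      rw [show (p i - 1) * (p i * EE p x ((range n).erase i)) =
        (p i * p i - p i) * EE p x ((range n).erase i) by ring]
      exact hbit
    · rw [if_neg hx, Bool.eq_false_iff.2 hx, tv_false]
      rw [show (p i - 0) * ((1 - p i) * EE p x ((range n).erase i)) =
        -((p i * p i - p i) * EE p x ((range n).erase i)) by ring, W.N_neg]
      exact hbit
  | tt =>
    intro _ hQ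
    have hQ' : Form.tt ∈ Q := hQ
    simp only [ht, mul_zero, add_zero, Form.subst, Form.eval, tv_true]
    exact c.err (a := k) ((W.F k).sub_mem (hM.mem _ hQ') (W.one_mem' k)) (by omega)
      (hM.tt hQ') x _ hcn
  | ff =>
    intro _ hQ
    have hQ' : Form.ff ∈ Q := hQ
    simp only [ht, mul_zero, add_zero, Form.subst, Form.eval, tv_false, sub_zero]
    exact c.err (a := k) (hM.mem _ hQ') (by omega) (hM.ff hQ') x _ hcn
  | neg A ih =>
    intro hv hQ
    have hQ' : (A.subst σ).neg ∈ Q := hQ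
    obtain ⟨hA, hN⟩ := hM.neg _ hQ'
    have h1 := ih hv hA
    have h2 := c.err (a := k) ((W.F k).sub_mem (hM.mem _ hQ')
      ((W.F k).sub_mem (W.one_mem' k) (hM.mem _ hA))) (by omega) hN x _ hcn
    have hm2 : (val (A.subst σ).neg - (1 - val (A.subst σ))) * EE p x (range n) ∈ W.F D₁ := by
      have h2 := W.mul_mem _ _ _ _ ((W.F k).sub_mem (hM.mem _ hQ')
        ((W.F k).sub_mem (W.one_mem' k) (hM.mem _ hA))) (c.Em x (range n))
      rw [card_range] at h2
      refine c.up h2 ?_
      have : (n + 3) * k = k + n * k + 2 * k := by ring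
      omega
    have h3 := c.bin (tB := 0) (gB := 0) (z := 0) (w := -1) hm2 h2
      (c.diffm (hM.mem _ hA) (A.eval x) x) h1 (W.F D₁).zero_mem
      (by rw [W.N_zero]; exact mul_nonneg (pow_nonneg (by linarith) _) c.hε)
      (W.F D₁).zero_mem (by rw [W.N_zero]; linarith [c.hB]) (Or.inr (Or.inr rfl))
    rw [add_zero] at h3
    simp only [ht, Form.subst, Form.eval]
    refine le_of_eq_of_le ?_ h3
    congr 1
    cases A.eval x <;> simp [tv] <;> ring
  | and A A' ih ih' =>
    intro hv hQ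
    have hQ' : (A.subst σ).and (A'.subst σ) ∈ Q := hQ
    obtain ⟨hA, hA', hN⟩ := hM.and _ _ hQ'
    simp only [vb, max_le_iff] at hv
    have h1 := ih hv.1 hA
    have h1' := ih' hv.2 hA'
    have hmm : val ((A.subst σ).and (A'.subst σ)) - val (A.subst σ) * val (A'.subst σ) ∈
        W.F (2 * k) := (W.F (2 * k)).sub_mem (W.F_mono _ _ (by omega) (hM.mem _ hQ'))
          (by rw [two_mul]; exact W.mul_mem _ _ _ _ (hM.mem _ hA) (hM.mem _ hA'))
    have h2 := c.err (a := 2 * k) hmm le_rfl hN x _ hcn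
    have hm2 := W.mul_mem _ _ _ _ hmm (c.Em x (range n))
    rw [card_range] at hm2
    have h3 := c.bin (z := val (A.subst σ)) (w := tv (A'.eval x))
      (c.up hm2 (by have : (n + 3) * k = k + n * k + 2 * k := by ring
                    omega)) h2
      (c.diffm (hM.mem _ hA) (A.eval x) x) h1 (c.diffm (hM.mem _ hA') (A'.eval x) x) h1'
      (c.upk (hM.mem _ hA)) (by linarith [hM.bd _ hA, c.hB]) (by cases A'.eval x <;> simp [tv])
    simp only [ht, Form.subst, Form.eval]
    refine le_of_eq_of_le ?_ h3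
    congr 1
    cases A.eval x <;> cases A'.eval x <;> simp [tv] <;> ring
  | or A A' ih ih' =>
    intro hv hQ
    have hQ' : (A.subst σ).or (A'.subst σ) ∈ Q := hQ
    obtain ⟨hA, hA', hN⟩ := hM.or _ _ hQ'
    simp only [vb, max_le_iff] at hv
    have h1 := ih hv.1 hA
    have h1' := ih' hv.2 hA'
    have hmm : val ((A.subst σ).or (A'.subst σ)) -
        (val (A.subst σ) + val (A'.subst σ) - val (A.subst σ) * val (A'.subst σ)) ∈
        W.F (2 * k) := (W.F (2 * k)).sub_mem (W.F_mono _ _ (by omega) (hM.mem _ hQ'))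
          ((W.F (2 * k)).sub_mem (W.F_mono _ _ (by omega)
            ((W.F k).add_mem (hM.mem _ hA) (hM.mem _ hA')))
          (by rw [two_mul]; exact W.mul_mem _ _ _ _ (hM.mem _ hA) (hM.mem _ hA')))
    have h2 := c.err (a := 2 * k) hmm le_rfl hN x _ hcn
    have hm2 := W.mul_mem _ _ _ _ hmm (c.Em x (range n))
    rw [card_range] at hm2
    have h3 := c.bin (z := 1 - val (A.subst σ)) (w := 1 - tv (A'.eval x))
      (c.up hm2 (by have : (n + 3) * k = k + n * k + 2 * k := by ring
                    omega)) h2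
      (c.diffm (hM.mem _ hA) (A.eval x) x) h1 (c.diffm (hM.mem _ hA') (A'.eval x) x) h1'
      (c.upk ((W.F k).sub_mem (W.one_mem' k) (hM.mem _ hA)))
      (c.one_sub (hM.mem _ hA) (hM.bd _ hA)) (by cases A'.eval x <;> simp [tv])
    simp only [ht, Form.subst, Form.eval]
    refine le_of_eq_of_le ?_ h3
    congr 1
    cases A.eval x <;> cases A'.eval x <;> simp [tv] <;> ring
  | imp A A' ih ih' =>
    intro hv hQ
    have hQ' : (A.subst σ).imp (A'.subst σ) ∈ Q := hQ
    obtain ⟨hA, hA', hN⟩ := hM.imp _ _ hQ'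
    simp only [vb, max_le_iff] at hv
    have h1 := ih hv.1 hA
    have h1' := ih' hv.2 hA'
    have hmm : val ((A.subst σ).imp (A'.subst σ)) -
        (1 - val (A.subst σ) + val (A.subst σ) * val (A'.subst σ)) ∈
        W.F (2 * k) := (W.F (2 * k)).sub_mem (W.F_mono _ _ (by omega) (hM.mem _ hQ'))
          ((W.F (2 * k)).add_mem (W.F_mono _ _ (by omega)
            ((W.F k).sub_mem (W.one_mem' k) (hM.mem _ hA)))
          (by rw [two_mul]; exact W.mul_mem _ _ _ _ (hM.mem _ hA) (hM.mem _ hA')))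
    have h2 := c.err (a := 2 * k) hmm le_rfl hN x _ hcn
    have hm2 := W.mul_mem _ _ _ _ hmm (c.Em x (range n))
    rw [card_range] at hm2
    have h3 := c.bin (z := val (A.subst σ)) (w := tv (A'.eval x) - 1)
      (c.up hm2 (by have : (n + 3) * k = k + n * k + 2 * k := by ring
                    omega)) h2
      (c.diffm (hM.mem _ hA) (A.eval x) x) h1 (c.diffm (hM.mem _ hA') (A'.eval x) x) h1'
      (c.upk (hM.mem _ hA)) (by linarith [hM.bd _ hA, c.hB]) (by cases A'.eval x <;> simp [tv])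
    simp only [ht, Form.subst, Form.eval]
    refine le_of_eq_of_le ?_ h3
    congr 1
    cases A.eval x <;> cases A'.eval x <;> simp [tv] <;> ring

private theorem split (c : Ctx W p k n D₁ H B ε) {u : R} (hu : u ∈ W.F k) (T : ℝ) :
    ∀ m ≤ n, (∀ x : ℕ → Bool, W.N (u * EE p x (range m)) ≤ T) → W.N u ≤ 2 ^ m * T := by
  intro m
  induction m generalizing T with
  | zero =>
    intro _ h
    have := h (fun _ => true)
    simpa [EE] using this
  | succ m ih =>
    intro hm h
    have h' : ∀ x : ℕ → Bool, W.N (u * EE p x (range m)) ≤ 2 * T := by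
      intro x
      have key : ∀ b : Bool, EE p (Function.update x m b) (range (m + 1)) =
          EE p x (range m) * (if b = true then p m else 1 - p m) := by
        intro b
        unfold EE
        rw [Finset.prod_range_succ]
        congr 1
        · apply Finset.prod_congr rfl
          intro i hi
          unfold qq
          rw [Function.update_of_ne (ne_of_lt (mem_range.1 hi))]
        · unfold qq
          rw [Function.update_self]
      have mem : ∀ y : ℕ → Bool, u * EE p y (range (m + 1)) ∈ W.F W.D := by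
        intro y
        exact c.mulD (c.upk hu) (c.EmD y _ (by rw [card_range]; exact hm))
      have h1 := h (Function.update x m true)
      have h2 := h (Function.update x m false)
      have h3 := W.N_add (mem (Function.update x m true)) (mem (Function.update x m false))
      have h4 : u * EE p (Function.update x m true) (range (m + 1)) +
          u * EE p (Function.update x m false) (range (m + 1)) = u * EE p x (range m) := by
        rw [key, key]
        simp
        ring
      rw [h4] at h3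
      linarith
    have := ih (2 * T) (by omega) h'
    calc W.N u ≤ 2 ^ m * (2 * T) := this
      _ = 2 ^ (m + 1) * T := by ring

end Ctx

private theorem exists_bd (f : Form ℕ → ℕ) (l : List (Form ℕ)) : ∃ n, ∀ P ∈ l, f P ≤ n := by
  induction l with
  | nil => exact ⟨0, by simp⟩
  | cons a l ih =>
    obtain ⟨n, hn⟩ := ih
    refine ⟨max (f a) n, ?_⟩
    intro P hP
    rcases List.mem_cons.1 hP with rfl | hP
    · exact le_max_left _ _
    · exact (hn P hP).trans (le_max_right _ _)

theorem rule_snd (r : Rule) (hr : r.Sound) : ∃ C : ℕ, ∀ (R : Type) [CommRing R] [Algebra ℝ R]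
    (W : World R) (X : Type) (Q : Set (Form X)) (val : Form X → R) (k : ℕ) (ε B K : ℝ),
    0 ≤ ε → 1 ≤ B → 1 ≤ K → 2 * (C * k) ≤ W.D → W.HC K (C * k) → Mdl W Q val k ε B →
    ∀ σ : ℕ → Form X, (∀ P ∈ r.prems, P.subst σ ∈ Q) → r.concl.subst σ ∈ Q →
      W.N (1 - val (r.concl.subst σ)) ≤ (2 * K ^ (C * k) * B) ^ C *
        (ε + (r.prems.map (fun P => W.N (1 - val (P.subst σ)))).sum) := by
  obtain ⟨n, hn⟩ := exists_bd vb (r.concl :: r.prems)
  obtain ⟨h₀, hh⟩ := exists_bd ht (r.concl :: r.prems)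
  refine ⟨2 * n + 2 * h₀ + 3, ?_⟩
  intro R _ _ W X Q val k ε B K hε hB hK hD hHC hM σ hP hC
  set C := 2 * n + 2 * h₀ + 3 with hCdef
  have hH : 1 ≤ K ^ (C * k) := one_le_pow₀ hK
  have hnC : (n + 3) * k ≤ C * k := Nat.mul_le_mul_right k (by omega)
  have c : Ctx W (fun i => if σ i ∈ Q then val (σ i) else 0) k n (C * k) (K ^ (C * k)) B ε :=
    { hD := hD
      hmul := hHC _ le_rfl
      hH := hH
      hB := hB
      hε := hε
      hn := hnC
      pm := by
        intro i
        by_cases h : σ i ∈ Q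
        · simp only [if_pos h]
          exact hM.mem _ h
        · simp only [if_neg h]
          exact (W.F k).zero_mem
      pN := by
        intro i
        by_cases h : σ i ∈ Q
        · simp only [if_pos h]
          exact hM.bd _ h
        · simp only [if_neg h]
          rw [W.N_zero]
          linarith
      pb := by
        intro i
        by_cases h : σ i ∈ Q
        · simp only [if_pos h]
          exact hM.bit _ h
        · simp only [if_neg h]
          rw [zero_mul, sub_zero, W.N_zero]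
          exact hε }
  have claim := c.claim1 hM σ (fun i h => if_pos h)
  generalize (fun i => if σ i ∈ Q then val (σ i) else 0) = p at c claim
  set H := K ^ (C * k) with hHdef
  have hL := c.one_le_lam
  have hδ0 : 0 ≤ (r.prems.map (fun P => W.N (1 - val (P.subst σ)))).sum := by
    apply List.sum_nonneg
    intro y hy
    obtain ⟨P, _, rfl⟩ := List.mem_map.1 hy
    exact W.N_nonneg _
  have hδ1 : ∀ P ∈ r.prems, W.N (1 - val (P.subst σ)) ≤
      (r.prems.map (fun P => W.N (1 - val (P.subst σ)))).sum := by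
    intro P hP'
    refine List.single_le_sum ?_ _ (List.mem_map.2 ⟨P, hP', rfl⟩)
    intro y hy
    obtain ⟨P, _, rfl⟩ := List.mem_map.1 hy
    exact W.N_nonneg _
  generalize (r.prems.map (fun P => W.N (1 - val (P.subst σ)))).sum = δ at hδ0 hδ1 ⊢
  have hu : 1 - val (r.concl.subst σ) ∈ W.F k := (W.F k).sub_mem (W.one_mem' k) (hM.mem _ hC)
  have hcn : (range n).card ≤ n := by rw [card_range]
  have hLp : ∀ m, (0 : ℝ) ≤ (2 * H * B) ^ m := fun m => pow_nonneg (by linarith) m
  have hLm : ∀ a b : ℕ, a ≤ b → (2 * H * B) ^ a ≤ (2 * H * B) ^ b :=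
    fun a b hab => pow_le_pow_right₀ (by linarith) hab
  have hT : ∀ x : ℕ → Bool, W.N ((1 - val (r.concl.subst σ)) * EE p x (range n)) ≤
      (2 * H * B) ^ (n + 2 + 2 * h₀) * (ε + δ) := by
    intro x
    by_cases hx : r.concl.eval x = true
    · have h1 := claim x r.concl (hn _ List.mem_cons_self) hC
      rw [hx, tv_true] at h1
      rw [show (1 - val (r.concl.subst σ)) * EE p x (range n) =
        -((val (r.concl.subst σ) - 1) * EE p x (range n)) by ring, W.N_neg]
      refine h1.trans ?_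
      have := hh _ (List.mem_cons_self (a := r.concl) (l := r.prems))
      exact mul_le_mul (hLm _ _ (by omega)) (by linarith) hε (hLp _)
    · have hPx : ∃ P ∈ r.prems, P.eval x = false := by
        by_contra hcon
        push Not at hcon
        exact hx (hr x fun P hP' => by simpa using hcon P hP')
      obtain ⟨P, hPm, hPf⟩ := hPx
      have h1 := claim x P (hn _ (List.mem_cons_of_mem _ hPm)) (hP P hPm)
      rw [hPf, tv_false, sub_zero] at h1
      have hPh := hh _ (List.mem_cons_of_mem r.concl hPm)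
      have hPv := hM.mem _ (hP P hPm)
      have hEm := c.EmD x (range n) hcn
      have h2 := c.hmul _ (c.upk ((W.F k).sub_mem (W.one_mem' k) hPv)) _ hEm
      have hdm := c.diffm hPv false x
      rw [tv_false, sub_zero] at hdm
      have h3 := W.N_add (c.mulD (c.upk ((W.F k).sub_mem (W.one_mem' k) hPv)) hEm) (c.upD hdm)
      rw [show (1 - val (P.subst σ)) * EE p x (range n) + val (P.subst σ) * EE p x (range n) =
        EE p x (range n) by ring] at h3
      have h4 : H * (W.N (1 - val (P.subst σ)) * W.N (EE p x (range n))) ≤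
          (2 * H * B) * (δ * (2 * H * B) ^ n) := by
        have h5 : W.N (1 - val (P.subst σ)) * W.N (EE p x (range n)) ≤ δ * (2 * H * B) ^ n :=
          mul_le_mul (hδ1 P hPm) (c.ENn x _ hcn) (W.N_nonneg _) hδ0
        have h6 : H ≤ 2 * H * B := by nlinarith
        exact mul_le_mul h6 h5 (mul_nonneg (W.N_nonneg _) (W.N_nonneg _)) (by linarith)
      have h7 : (2 * H * B) * (δ * (2 * H * B) ^ n) ≤ (2 * H * B) ^ (n + 1 + 2 * h₀) * δ := by
        rw [show (2 * H * B) * (δ * (2 * H * B) ^ n) = (2 * H * B) ^ (n + 1) * δ by ring]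
        exact mul_le_mul_of_nonneg_right (hLm _ _ (by omega)) hδ0
      have h8 : (2 * H * B) ^ (n + 1 + 2 * ht P) * ε ≤ (2 * H * B) ^ (n + 1 + 2 * h₀) * ε :=
        mul_le_mul_of_nonneg_right (hLm _ _ (by omega)) hε
      have h9 : W.N (EE p x (range n)) ≤ (2 * H * B) ^ (n + 1 + 2 * h₀) * (ε + δ) := by
        rw [mul_add]
        linarith
      have h10 := c.mulL (c.upk hu) (c.one_sub (hM.mem _ hC) (hM.bd _ hC)) hEm
      calc W.N ((1 - val (r.concl.subst σ)) * EE p x (range n))
          ≤ (2 * H * B) * W.N (EE p x (range n)) := h10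
        _ ≤ (2 * H * B) * ((2 * H * B) ^ (n + 1 + 2 * h₀) * (ε + δ)) :=
            mul_le_mul_of_nonneg_left h9 (by linarith)
        _ = (2 * H * B) ^ (n + 2 + 2 * h₀) * (ε + δ) := by ring
  have hfin := c.split hu _ n le_rfl hT
  have h2n : (2 : ℝ) ^ n ≤ (2 * H * B) ^ n := pow_le_pow_left₀ (by norm_num) hL n
  calc W.N (1 - val (r.concl.subst σ)) ≤ 2 ^ n * ((2 * H * B) ^ (n + 2 + 2 * h₀) * (ε + δ)) := hfin
    _ ≤ (2 * H * B) ^ n * ((2 * H * B) ^ (n + 2 + 2 * h₀) * (ε + δ)) :=
        mul_le_mul_of_nonneg_right h2n (mul_nonneg (hLp _) (by linarith))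
    _ = (2 * H * B) ^ (2 * n + 2 * h₀ + 2) * (ε + δ) := by ring
    _ ≤ (2 * H * B) ^ C * (ε + δ) :=
        mul_le_mul_of_nonneg_right (hLm _ _ (by omega)) (by linarith)

end Pool.Agent.MP_9cec2c_lc.SL
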