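import Pool.Agent.Lib.MP_9cec2c_lc.SL.Idx
import Pool.Agent.Lib.MP_9cec2c_lc.SL.RuleSnd

/-!
TASK MkModel: from approximate relations for the formulas in negation normal form to a model `Mdl` of
the formulas `ψ` with `nnf ψ ∈ I`. `I` is closed under duals and immediate subformulas.
`val ψ = a (nnf ψ)`.
* `bit`: relation `prod`. `tt`: `one`. `ff`: `ff ∈ I`, so `tt = dual ff ∈ I`, `a ff = (a tt + a ff - 1) - (a tt - 1)`
  (`hdual` for `A = ff`), norm `≤ 2ε`.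
* `neg`: `nnf (¬A) = dual (nnf A) ∈ I`, so `nnf A = dual dual ∈ I` (`dual_dual`); `hdual`.
* `and`: `hand`.
* `or`: `nnf (A ∨ B) = U ∨ V`, its dual is `dU ∧ dV ∈ I`. With `x = a U`, `y = a V`, `x' = a dU`, `y' = a dV`:
  `a (U ∨ V) - (x + y - x y) = [a (dU ∧ dV) + a (U ∨ V) - 1] - [a (dU ∧ dV) - x' y'] - [x' y' - (1-x)(1-y)]`,
  `x' y' - (1-x)(1-y) = (x' + x - 1) y' + (1 - x)(y' + y - 1)`, norm `≤ K^k (ε B + (1 + B) ε)`. Sum
  `≤ 2ε + K^k (1 + 2B) ε ≤ 5 K^k B ε`.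
* `imp`: `nnf (A → B) = dU ∨ V` (`U = nnf A`), dual `U ∧ dV` (`dual_dual`): `a (dU ∨ V) ≈ 1 - a (U ∧ dV)
  ≈ 1 - x y' ≈ 1 - x (1 - y) = 1 - x + x y`.
(World height `2 k ≤ D` for all products.)
-/

set_option autoImplicit false

open Finset
open scoped Classical

namespace Pool.Agent.MP_9cec2c_lc.SL

private lemma MkModel_imp {R : Type} [CommRing R] [Algebra ℝ R] (W : World R) {k : ℕ} {ε B K : ℝ}
    (hε : 0 ≤ ε) (hB : 1 ≤ B) (hK : 1 ≤ K) (hD : 2 * k ≤ W.D) (hHC : W.HC K k)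
    {x y y' z w : R} (hx : x ∈ W.F k) (hy : y ∈ W.F k) (hy' : y' ∈ W.F k) (hz : z ∈ W.F k)
    (hw : w ∈ W.F k) (h1 : W.N (w + z - 1) ≤ ε) (h2 : W.N (w - x * y') ≤ ε)
    (h4 : W.N (y' + y - 1) ≤ ε) (hxB : W.N x ≤ B) :
    W.N (z - (1 - x + x * y)) ≤ 5 * K ^ k * B * ε := by
  have one : (1 : R) ∈ W.F k := W.F_mono 0 k (Nat.zero_le _) W.one_mem
  have up : ∀ f ∈ W.F k, f ∈ W.F W.D := fun f hf => W.F_mono k W.D (by omega) hf
  have mu : ∀ f ∈ W.F k, ∀ g ∈ W.F k, f * g ∈ W.F W.D := fun f hf g hg =>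
    W.F_mono (k + k) W.D (by omega) (W.mul_mem k k f g hf hg)
  have hKk : 1 ≤ K ^ k := one_le_pow₀ hK
  have m1 : w + z - 1 ∈ W.F k := Submodule.sub_mem _ (Submodule.add_mem _ hw hz) one
  have m4 : y' + y - 1 ∈ W.F k := Submodule.sub_mem _ (Submodule.add_mem _ hy' hy) one
  have m2 : w - x * y' ∈ W.F W.D := Submodule.sub_mem _ (up _ hw) (mu _ hx _ hy')
  have e1 : z - (1 - x + x * y) = (w + z - 1) - (w - x * y') - x * (y' + y - 1) := by ring
  have b1 : W.N (x * (y' + y - 1)) ≤ K ^ k * (B * ε) := by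
    refine (hHC k le_rfl _ hx _ m4).trans ?_
    have := mul_le_mul hxB h4 (W.N_nonneg _) (by linarith)
    exact mul_le_mul_of_nonneg_left this (by linarith)
  rw [e1]
  have b2 := W.N_sub (Submodule.sub_mem _ (up _ m1) m2) (mu _ hx _ m4)
  have b3 := W.N_sub (up _ m1) m2
  have b4 : ε ≤ K ^ k * (B * ε) := by
    have h5 : 1 * ε ≤ B * ε := mul_le_mul_of_nonneg_right hB hε
    have h6 : 1 * (B * ε) ≤ K ^ k * (B * ε) :=
      mul_le_mul_of_nonneg_right hKk (by nlinarith)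
    linarith
  have e2 : 5 * K ^ k * B * ε = 5 * (K ^ k * (B * ε)) := by ring
  rw [e2]
  linarith

private lemma MkModel_or {R : Type} [CommRing R] [Algebra ℝ R] (W : World R) {k : ℕ} {ε B K : ℝ}
    (hε : 0 ≤ ε) (hB : 1 ≤ B) (hK : 1 ≤ K) (hD : 2 * k ≤ W.D) (hHC : W.HC K k)
    {x y x' y' z w : R} (hx : x ∈ W.F k) (hy : y ∈ W.F k) (hx' : x' ∈ W.F k) (hy' : y' ∈ W.F k)
    (hz : z ∈ W.F k) (hw : w ∈ W.F k) (h1 : W.N (w + z - 1) ≤ ε) (h2 : W.N (w - x' * y') ≤ ε)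
    (h3 : W.N (x' + x - 1) ≤ ε) (h4 : W.N (y' + y - 1) ≤ ε) (hxB : W.N x ≤ B)
    (hyB : W.N y' ≤ B) :
    W.N (z - (x + y - x * y)) ≤ 5 * K ^ k * B * ε := by
  have one : (1 : R) ∈ W.F k := W.F_mono 0 k (Nat.zero_le _) W.one_mem
  have up : ∀ f ∈ W.F k, f ∈ W.F W.D := fun f hf => W.F_mono k W.D (by omega) hf
  have mu : ∀ f ∈ W.F k, ∀ g ∈ W.F k, f * g ∈ W.F W.D := fun f hf g hg =>
    W.F_mono (k + k) W.D (by omega) (W.mul_mem k k f g hf hg)
  have hKk : 1 ≤ K ^ k := one_le_pow₀ hK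
  have m1 : w + z - 1 ∈ W.F k := Submodule.sub_mem _ (Submodule.add_mem _ hw hz) one
  have m3 : x' + x - 1 ∈ W.F k := Submodule.sub_mem _ (Submodule.add_mem _ hx' hx) one
  have m4 : y' + y - 1 ∈ W.F k := Submodule.sub_mem _ (Submodule.add_mem _ hy' hy) one
  have m5 : 1 - x ∈ W.F k := Submodule.sub_mem _ one hx
  have m2 : w - x' * y' ∈ W.F W.D := Submodule.sub_mem _ (up _ hw) (mu _ hx' _ hy')
  have e1 : z - (x + y - x * y) = (w + z - 1) - (w - x' * y') - (x' + x - 1) * y' -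
      (1 - x) * (y' + y - 1) := by ring
  have b0 : W.N ((x' + x - 1) * y') ≤ K ^ k * (B * ε) := by
    refine (hHC k le_rfl _ m3 _ hy').trans ?_
    have := mul_le_mul h3 hyB (W.N_nonneg _) hε
    have h5 : W.N (x' + x - 1) * W.N y' ≤ B * ε := by linarith [mul_comm ε B]
    exact mul_le_mul_of_nonneg_left h5 (by linarith)
  have b1 : W.N ((1 - x) * (y' + y - 1)) ≤ K ^ k * (2 * B * ε) := by
    refine (hHC k le_rfl _ m5 _ m4).trans ?_
    have h6 : W.N (1 - x) ≤ 2 * B := by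
      have := W.N_sub (up _ one) (up _ hx)
      rw [W.N_one] at this
      linarith
    have := mul_le_mul h6 h4 (W.N_nonneg _) (by linarith)
    exact mul_le_mul_of_nonneg_left this (by linarith)
  rw [e1]
  have b2 := W.N_sub (Submodule.sub_mem _ (Submodule.sub_mem _ (up _ m1) m2) (mu _ m3 _ hy'))
    (mu _ m5 _ m4)
  have b22 := W.N_sub (Submodule.sub_mem _ (up _ m1) m2) (mu _ m3 _ hy')
  have b3 := W.N_sub (up _ m1) m2
  have b4 : ε ≤ K ^ k * (B * ε) := by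
    have h5 : 1 * ε ≤ B * ε := mul_le_mul_of_nonneg_right hB hε
    have h6 : 1 * (B * ε) ≤ K ^ k * (B * ε) :=
      mul_le_mul_of_nonneg_right hKk (by nlinarith)
    linarith
  have e2 : 5 * K ^ k * B * ε = 5 * (K ^ k * (B * ε)) := by ring
  have e3 : K ^ k * (2 * B * ε) = 2 * (K ^ k * (B * ε)) := by ring
  rw [e2]
  rw [e3] at b1
  linarith

theorem mk_model {R : Type} [CommRing R] [Algebra ℝ R] (W : World R) {X : Type}
    (I : Finset (Fm (X × Bool))) (hId : ∀ A ∈ I, A.dual flip ∈ I)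
    (hIa : ∀ A B : Fm (X × Bool), A.and B ∈ I → A ∈ I ∧ B ∈ I)
    (hIo : ∀ A B : Fm (X × Bool), A.or B ∈ I → A ∈ I ∧ B ∈ I)
    (a : Fm (X × Bool) → R) {k : ℕ} {ε B K : ℝ} (hε : 0 ≤ ε) (hB : 1 ≤ B) (hK : 1 ≤ K)
    (hD : 2 * k ≤ W.D) (hHC : W.HC K k) (hmem : ∀ A ∈ I, a A ∈ W.F k)
    (hbd : ∀ A ∈ I, W.N (a A) ≤ B) (hbit : ∀ A ∈ I, W.N (a A - a A * a A) ≤ ε)
    (htt : Fm.tt ∈ I → W.N (a Fm.tt - 1) ≤ ε)
    (hdual : ∀ A ∈ I, W.N (a (A.dual flip) + a A - 1) ≤ ε)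
    (hand : ∀ A B' : Fm (X × Bool), A.and B' ∈ I → W.N (a (A.and B') - a A * a B') ≤ ε) :
    Mdl W {ψ : Form X | nnf ψ ∈ I} (fun ψ => a (nnf ψ)) k (5 * K ^ k * B * ε) B := by
  have hKk : 1 ≤ K ^ k := one_le_pow₀ hK
  have up : ∀ f ∈ W.F k, f ∈ W.F W.D := fun f hf => W.F_mono k W.D (by omega) hf
  have one : (1 : R) ∈ W.F k := W.F_mono 0 k (Nat.zero_le _) W.one_mem
  have b4 : ε ≤ K ^ k * (B * ε) := by
    have h5 : 1 * ε ≤ B * ε := mul_le_mul_of_nonneg_right hB hε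
    have h6 : 1 * (B * ε) ≤ K ^ k * (B * ε) :=
      mul_le_mul_of_nonneg_right hKk (by nlinarith)
    linarith
  have e2 : 5 * K ^ k * B * ε = 5 * (K ^ k * (B * ε)) := by ring
  have hM : ε ≤ 5 * K ^ k * B * ε := by rw [e2]; linarith
  have hM2 : ε + ε ≤ 5 * K ^ k * B * ε := by rw [e2]; linarith
  refine ⟨?_, ?_, ?_, ?_, ?_, ?_, ?_, ?_, ?_⟩
  · exact fun A hA => hmem _ hA
  · exact fun A hA => hbd _ hA
  · intro A hA
    have h := hbit _ hA
    rw [← W.N_neg, neg_sub] at h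
    exact h.trans hM
  · intro h
    exact (htt h).trans hM
  · intro h
    have hf : (Fm.ff : Fm (X × Bool)) ∈ I := h
    have ht : (Fm.tt : Fm (X × Bool)) ∈ I := hId _ hf
    have h1 : W.N (a Fm.tt + a Fm.ff - 1) ≤ ε := hdual _ hf
    have h2 := htt ht
    have e1 : a Fm.ff = (a Fm.tt + a Fm.ff - 1) - (a Fm.tt - 1) := by ring
    have h3 := W.N_sub (f := a Fm.tt + a Fm.ff - 1) (g := a Fm.tt - 1)
      (up _ (Submodule.sub_mem _ (Submodule.add_mem _ (hmem _ ht) (hmem _ hf)) one))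
      (up _ (Submodule.sub_mem _ (hmem _ ht) one))
    rw [← e1] at h3
    change W.N (a Fm.ff) ≤ _
    linarith
  · intro A hA
    have h1 : (nnf A).dual flip ∈ I := hA
    have h2 : nnf A ∈ I := by
      have := hId _ h1
      rwa [dual_dual] at this
    refine ⟨h2, ?_⟩
    have h3 := hdual _ h2
    have e1 : a ((nnf A).dual flip) - (1 - a (nnf A)) = a ((nnf A).dual flip) + a (nnf A) - 1 := by
      ring
    change W.N (a ((nnf A).dual flip) - (1 - a (nnf A))) ≤ _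
    rw [e1]
    exact h3.trans hM
  · intro A B' hA
    have h1 : (nnf A).and (nnf B') ∈ I := hA
    refine ⟨(hIa _ _ h1).1, (hIa _ _ h1).2, ?_⟩
    exact (hand _ _ h1).trans hM
  · intro A B' hA
    have h1 : (nnf A).or (nnf B') ∈ I := hA
    obtain ⟨hU, hV⟩ := hIo _ _ h1
    refine ⟨hU, hV, ?_⟩
    have h2 : ((nnf A).dual flip).and ((nnf B').dual flip) ∈ I := hId _ h1
    have r1 : W.N (a (((nnf A).dual flip).and ((nnf B').dual flip)) +
      a ((nnf A).or (nnf B')) - 1) ≤ ε := hdual _ h1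
    exact MkModel_or W hε hB hK hD hHC (hmem _ hU) (hmem _ hV) (hmem _ (hId _ hU))
      (hmem _ (hId _ hV)) (hmem _ h1) (hmem _ h2) r1 (hand _ _ h2) (hdual _ hU) (hdual _ hV)
      (hbd _ hU) (hbd _ (hId _ hV))
  · intro A B' hA
    have h1 : ((nnf A).dual flip).or (nnf B') ∈ I := hA
    obtain ⟨hU', hV⟩ := hIo _ _ h1
    have hU : nnf A ∈ I := by
      have := hId _ hU'
      rwa [dual_dual] at this
    refine ⟨hU, hV, ?_⟩
    have h2 : (nnf A).and ((nnf B').dual flip) ∈ I := by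
      have : ((((nnf A).dual flip).dual flip)).and ((nnf B').dual flip) ∈ I := hId _ h1
      rwa [dual_dual] at this
    have r1 : W.N (a ((nnf A).and ((nnf B').dual flip)) +
      a (((nnf A).dual flip).or (nnf B')) - 1) ≤ ε := by
      have : W.N (a ((((nnf A).dual flip).dual flip).and ((nnf B').dual flip)) +
        a (((nnf A).dual flip).or (nnf B')) - 1) ≤ ε := hdual _ h1
      rwa [dual_dual] at this
    exact MkModel_imp W hε hB hK hD hHC (hmem _ hU) (hmem _ hV) (hmem _ (hId _ hV)) (hmem _ h1)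
      (hmem _ h2) r1 (hand _ _ h2) (hdual _ hV) (hbd _ hU)

end Pool.Agent.MP_9cec2c_lc.SL
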