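import Pool.Agent.Lib.MP_9cec2c_lc.SL.Gm

/-!
TASK GmProps: properties of the graphs `G_m`.
`Gm_expands`: `exists_perms` (choose_spec) for the set of the vertices with `U v ≠ 0`: the edges
`(v, inr i)` with exactly one end in `U` have `cob U ≠ 0`, and `wt (cob U)` is at least their number.
`Gm_out`: exactly 22 edges start at `v`. `Gm_in`: 20 permutation edges end at `v` (one for each `i`);
a de Bruijn edge `(z, b)` ends at `v` iff `shift z b = v`: `z_{j+1} = v_j` for `j + 1 < m` and
`b = v_{m-1}`: determined by `z_0` (if `m ≥ 1`), so 2 edges; for `m = 0` also 2 edges. So `≤ 22`.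
-/

set_option autoImplicit false

open Finset
open scoped Classical

namespace Pool.Agent.MP_9cec2c_lc.SL

theorem card_Vm (m : ℕ) : Fintype.card (Vm m) = 2 ^ m := by
  show Fintype.card (Fin m → Bool) = 2 ^ m
  simp

theorem card_Em (m : ℕ) : Fintype.card (Em m) = 22 * 2 ^ m := by
  have h : Fintype.card (Vm m × (Bool ⊕ Fin 20)) = 22 * 2 ^ m := by
    rw [Fintype.card_prod, card_Vm, Fintype.card_sum, Fintype.card_bool, Fintype.card_fin,
      mul_comm]
  exact h

private theorem GmProps_zmod {a b : ZMod 2} (h : a + b = 0) : a = b := by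
  calc a = a + (b + b) := by rw [CharTwo.add_self_eq_zero, add_zero]
    _ = (a + b) + b := by rw [add_assoc]
    _ = b := by rw [h, zero_add]

private def GmProps_e {m : ℕ} (v : Vm m) (i : Fin 20) : Em m := (v, Sum.inr i)

theorem Gm_expands (m : ℕ) : (Gm m).Expands := by
  intro U hU
  obtain ⟨A, hA⟩ : ∃ A : Finset (Vm m), A = univ.filter (fun v => U v ≠ 0) := ⟨_, rfl⟩
  have hmem : ∀ v, v ∈ A ↔ U v ≠ 0 := by
    intro v
    rw [hA, mem_filter]
    exact ⟨fun h => h.2, fun h => ⟨mem_univ _, h⟩⟩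
  have hw : wt U = A.card := by
    rw [hA]
    rfl
  have h1 := (exists_perms (Vm m)).choose_spec A (by rw [← hw]; exact hU)
  rw [hw]
  refine h1.trans ?_
  rw [← card_sigma]
  unfold wt
  refine card_le_card_of_injOn (fun q : (Σ _ : Fin 20, Vm m) => GmProps_e q.2 q.1) ?_ ?_
  · rintro ⟨i, v⟩ hq
    have h2 : ¬ (v ∈ A ↔ perms (Vm m) i v ∈ A) := (mem_filter.1 (mem_sigma.1 (mem_coe.1 hq)).2).2
    refine mem_coe.2 (mem_filter.2 ⟨mem_univ _, ?_⟩)
    show U v + U (perms (Vm m) i v) ≠ 0
    intro h3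
    apply h2
    rw [hmem, hmem, GmProps_zmod h3]
  · rintro ⟨i, v⟩ _ ⟨j, w⟩ _ h
    have h3 : v = w := congrArg Prod.fst h
    have h4 : (Sum.inr i : Bool ⊕ Fin 20) = Sum.inr j := congrArg Prod.snd h
    have h5 : i = j := Sum.inr.inj h4
    rw [h3, h5]

theorem Gm_out (m : ℕ) (v : Vm m) : (univ.filter (fun e => (Gm m).src e = v)).card ≤ 22 := by
  have h1 : (univ : Finset (Bool ⊕ Fin 20)).card = 22 := by
    rw [card_univ, Fintype.card_sum, Fintype.card_bool, Fintype.card_fin]
  rw [← h1]
  refine card_le_card_of_injOn (fun e : Em m => (Prod.snd e : Bool ⊕ Fin 20))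
    (fun _ _ => mem_coe.2 (mem_univ _)) ?_
  intro e he e' he' h
  have h2 : Prod.fst e = v := (mem_filter.1 (mem_coe.1 he)).2
  have h3 : Prod.fst e' = v := (mem_filter.1 (mem_coe.1 he')).2
  exact Prod.ext (h2.trans h3.symm) h

/-- The first letter of the start of a de Bruijn edge, or the number of a permutation edge. -/
private def GmProps_f {m : ℕ} (e : Em m) : Bool ⊕ Fin 20 :=
  match Prod.snd e with
  | Sum.inl b => Sum.inl (if h : 0 < m then (Prod.fst e) ⟨0, h⟩ else b)
  | Sum.inr i => Sum.inr i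

private theorem GmProps_shift {m : ℕ} {z z' : Vm m} {b b' : Bool} (h : shift z b = shift z' b')
    (h0 : (if h : 0 < m then z ⟨0, h⟩ else b) = (if h : 0 < m then z' ⟨0, h⟩ else b')) :
    z = z' ∧ b = b' := by
  rcases Nat.eq_zero_or_pos m with hm | hm
  · subst hm
    refine ⟨?_, ?_⟩
    · funext j
      exact j.elim0
    · simpa using h0
  · rw [dif_pos hm, dif_pos hm] at h0
    refine ⟨?_, ?_⟩
    · funext j
      obtain ⟨j, hj⟩ := j
      rcases j with _ | k
      · exact h0
      · have h1 := congrFun h ⟨k, by omega⟩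
        unfold shift at h1
        rw [dif_pos hj, dif_pos hj] at h1
        exact h1
    · have h1 := congrFun h ⟨m - 1, by omega⟩
      unfold shift at h1
      rw [dif_neg (by show ¬ (m - 1 + 1 < m); omega),
        dif_neg (by show ¬ (m - 1 + 1 < m); omega)] at h1
      exact h1

theorem Gm_in (m : ℕ) (v : Vm m) : (univ.filter (fun e => (Gm m).dst e = v)).card ≤ 22 := by
  have h1 : (univ : Finset (Bool ⊕ Fin 20)).card = 22 := by
    rw [card_univ, Fintype.card_sum, Fintype.card_bool, Fintype.card_fin]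
  rw [← h1]
  refine card_le_card_of_injOn (fun e : Em m => GmProps_f e)
    (fun _ _ => mem_coe.2 (mem_univ _)) ?_
  intro e he e' he' h
  have h2 : (Gm m).dst e = v := (mem_filter.1 (mem_coe.1 he)).2
  have h3 : (Gm m).dst e' = v := (mem_filter.1 (mem_coe.1 he')).2
  have h4 := h2.trans h3.symm
  clear h2 h3 he he'
  obtain ⟨z, c⟩ := e
  obtain ⟨z', c'⟩ := e'
  rcases c with b | i <;> rcases c' with b' | i'
  · have h5 : shift z b = shift z' b' := h4
    obtain ⟨h6, h7⟩ := GmProps_shift h5 (Sum.inl.inj h)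
    rw [h6, h7]
  · exact absurd h Sum.inl_ne_inr
  · exact absurd h Sum.inr_ne_inl
  · have h5 : i = i' := Sum.inr.inj h
    subst h5
    have h6 : perms (Vm m) i z = perms (Vm m) i z' := h4
    rw [(perms (Vm m) i).injective h6]

theorem Gm_deg (m : ℕ) : (Gm m).DegLE 44 := by
  intro v
  have h1 := Gm_out m v
  have h2 := Gm_in m v
  omega

end Pool.Agent.MP_9cec2c_lc.SL
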