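import Pool.Agent.Lib.MP_9cec2c_lc.SL.GWorld
import Pool.Agent.Lib.MP_9cec2c_lc.SL.Nnf

/-!
TASK HypNull: a formula `φ` of size `≤ b` that is implied by a clause of the Tseitin formula has value 1
up to a null element.

The clause belongs to a vertex `v` and a set `T ⊆ inc v` with `|T| ≢ γ v`; it is false at `x` iff
`{e ∈ inc v : x e ≠ 0} = T`. Let `J` be the indicator of that (`local_mem`: `J ∈ Fd (|inc v|) ⊆ Fd Δ`).
Where `J x = 1`: `χ_{cob (pt v)}(x) = sg (∑_{e ∈ inc v} x e) = sg (|T|) = - sg (γ v)`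
(`cob_pt`, `dot`). With `z = χ_{cob (pt v)} - sg (γ v)`: `J z = -2 sg(γ v) J`, i.e.
`J = z · (-(sg (γ v)/2) J)`. `z` is null: `Ex (z²) = 1 - 2 sg(γ v) e(cob (pt v)) + 1 = 0` (`e_cob`,
`2 wt (pt v) = 2 < n`, `dot γ (pt v) = γ v`). So `J` is null (`World.N_mul_null`,
`Δ + 2Δ ≤ D`). Where `J x = 0` the clause holds, so `fn φ x = 1`: `1 - fn φ = J (1 - fn φ)`, and
`1 - fn φ ∈ Fd b` (a formula of size `≤ b` depends on at most `b` variables), so it is null
(`Δ + 2b ≤ D`). World of height `D = 3Δ + 2b`.
(`n > 2` follows from the hypothesis if `Δ ≥ 1`; if `Δ = 0`: all `inc v` are empty; then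
by expansion `wt (pt v) ≤ wt (cob (pt v)) = 0` if `2 ≤ n`: impossible; treat `n ≤ 2` separately:
hypothesis `hn`.)
-/

set_option autoImplicit false

open Finset
open scoped Classical

namespace Pool.Agent.MP_9cec2c_lc.SL.MG

variable {V E : Type} [Fintype V] [Fintype E] (G : MG V E)

theorem fn_mem (φ : Form E) : fn φ ∈ Fd E φ.size := by
  induction φ with
  | var e =>
    have h : fn (Form.var e) = xc e := by
      funext x
      unfold fn xc ind Form.eval
      by_cases hx : x e = 0 <;> simp [hx]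
    rw [h]
    exact xc_mem e
  | tt =>
    have h : fn (Form.tt : Form E) = 1 := by
      funext x
      unfold fn ind Form.eval
      simp
    rw [h]
    exact one_mem_Fd _
  | ff =>
    have h : fn (Form.ff : Form E) = 0 := by
      funext x
      unfold fn ind Form.eval
      simp
    rw [h]
    exact Submodule.zero_mem _
  | neg A ih =>
    have h : fn (Form.neg A) = 1 - fn A := by
      funext x
      change ind (!(A.eval fun e => decide (x e ≠ 0))) = 1 - ind (A.eval fun e => decide (x e ≠ 0))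
      unfold ind
      cases A.eval fun e => decide (x e ≠ 0) <;> simp
    rw [h]
    exact Submodule.sub_mem _ (one_mem_Fd _) ih
  | and A B ihA ihB =>
    have h : fn (Form.and A B) = fn A * fn B := by
      funext x
      change ind ((A.eval fun e => decide (x e ≠ 0)) && (B.eval fun e => decide (x e ≠ 0))) =
        ind (A.eval fun e => decide (x e ≠ 0)) * ind (B.eval fun e => decide (x e ≠ 0))
      unfold ind
      cases A.eval fun e => decide (x e ≠ 0) <;> cases B.eval fun e => decide (x e ≠ 0) <;> simp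
    rw [h]
    exact mul_mem_Fd ihA ihB
  | or A B ihA ihB =>
    have h : fn (Form.or A B) = fn A + fn B - fn A * fn B := by
      funext x
      change ind ((A.eval fun e => decide (x e ≠ 0)) || (B.eval fun e => decide (x e ≠ 0))) =
        ind (A.eval fun e => decide (x e ≠ 0)) + ind (B.eval fun e => decide (x e ≠ 0)) -
          ind (A.eval fun e => decide (x e ≠ 0)) * ind (B.eval fun e => decide (x e ≠ 0))
      unfold ind
      cases A.eval fun e => decide (x e ≠ 0) <;> cases B.eval fun e => decide (x e ≠ 0) <;> simp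
    rw [h]
    exact Submodule.sub_mem _ (Submodule.add_mem _ (Fd_mono (Nat.le_add_right _ _) ihA)
      (Fd_mono (Nat.le_add_left _ _) ihB)) (mul_mem_Fd ihA ihB)
  | imp A B ihA ihB =>
    have h : fn (Form.imp A B) = 1 - fn A + fn A * fn B := by
      funext x
      change ind (!(A.eval fun e => decide (x e ≠ 0)) || (B.eval fun e => decide (x e ≠ 0))) =
        1 - ind (A.eval fun e => decide (x e ≠ 0)) +
          ind (A.eval fun e => decide (x e ≠ 0)) * ind (B.eval fun e => decide (x e ≠ 0))
      unfold ind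
      cases A.eval fun e => decide (x e ≠ 0) <;> cases B.eval fun e => decide (x e ≠ 0) <;> simp
    rw [h]
    exact Submodule.add_mem _ (Submodule.sub_mem _ (one_mem_Fd _)
      (Fd_mono (Nat.le_add_right _ _) ihA)) (mul_mem_Fd ihA ihB)

private theorem HypNull_zmod : ∀ a : ZMod 2, a = 0 ∨ a = 1 := by decide

private theorem HypNull_sg : ∀ {a b : ZMod 2}, a ≠ b → sg a = -sg b := by
  intro a b h
  unfold sg
  rcases HypNull_zmod a with rfl | rfl <;> rcases HypNull_zmod b with rfl | rfl <;> simp at h ⊢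

theorem hyp_null (hG : G.Expands) {Δ : ℕ} (hΔ : G.DegLE Δ) (γ : Cube V) {b : ℕ}
    (hn : 2 < Fintype.card V) (hD : 8 * (3 * Δ + 2 * b) < Fintype.card V) {φ : Form E}
    (hφ : φ ∈ Hyp b (G.tseitin γ)) : G.nrm γ (1 - fn φ) = 0 := by
  obtain ⟨hsize, C, hC, himp⟩ := hφ
  unfold MG.tseitin at hC
  rw [List.mem_flatMap] at hC
  obtain ⟨v, -, hC⟩ := hC
  unfold MG.vclauses at hC
  rw [List.mem_map] at hC
  obtain ⟨T, hT, rfl⟩ := hC
  rw [Finset.mem_toList, Finset.mem_filter, Finset.mem_powerset] at hT
  obtain ⟨hTi, hTc⟩ := hT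
  let J : Cube E → ℝ := fun x => if ∀ e ∈ G.inc v, (x e ≠ 0 ↔ e ∈ T) then 1 else 0
  have hJmem : J ∈ Fd E Δ := by
    refine Fd_mono (G.card_inc hΔ v) (local_mem (G.inc v) ?_)
    intro x y hxy
    have h1 : (∀ e ∈ G.inc v, (x e ≠ 0 ↔ e ∈ T)) ↔ ∀ e ∈ G.inc v, (y e ≠ 0 ↔ e ∈ T) := by
      constructor
      · intro h e he
        rw [← hxy e he]
        exact h e he
      · intro h e he
        rw [hxy e he]
        exact h e he
    change (if ∀ e ∈ G.inc v, (x e ≠ 0 ↔ e ∈ T) then (1 : ℝ) else 0) =
      if ∀ e ∈ G.inc v, (y e ≠ 0 ↔ e ∈ T) then (1 : ℝ) else 0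
    simp only [h1]
  -- the character on the support of J
  have hchi : ∀ x : Cube E, (∀ e ∈ G.inc v, (x e ≠ 0 ↔ e ∈ T)) →
      chi (G.cob (pt v)) x = -sg (γ v) := by
    intro x hx
    have h1 : dot (G.cob (pt v)) x = (T.card : ZMod 2) := by
      unfold dot
      have h2 : ∀ e, G.cob (pt v) e * x e = if e ∈ T then 1 else 0 := by
        intro e
        by_cases he : e ∈ G.inc v
        · have h3 : G.cob (pt v) e = 1 := by
            rcases HypNull_zmod (G.cob (pt v) e) with h | h
            · exact absurd h ((G.cob_pt v e).2 he)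
            · exact h
          rw [h3, one_mul]
          by_cases heT : e ∈ T
          · rw [if_pos heT]
            rcases HypNull_zmod (x e) with h | h
            · exact absurd h ((hx e he).2 heT)
            · exact h
          · rw [if_neg heT]
            by_contra hc
            exact heT ((hx e he).1 hc)
        · have h3 : G.cob (pt v) e = 0 := by
            by_contra hc
            exact he ((G.cob_pt v e).1 hc)
          rw [h3, zero_mul, if_neg (fun h => he (hTi h))]
      rw [Finset.sum_congr rfl fun e _ => h2 e, Finset.sum_ite_mem, Finset.univ_inter,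
        Finset.sum_const, nsmul_eq_mul, mul_one]
    unfold chi
    rw [h1]
    exact HypNull_sg hTc
  let z : Cube E → ℝ := chi (G.cob (pt v)) - sg (γ v) • (1 : Cube E → ℝ)
  have hzmem : z ∈ Fd E Δ :=
    Submodule.sub_mem _ (chi_mem (G.wt_cob_pt hΔ v)) (Submodule.smul_mem _ _ (one_mem_Fd _))
  have hV : 0 < Fintype.card V := by omega
  have hzz : z * z = (2 : ℝ) • (1 : Cube E → ℝ) - (2 * sg (γ v)) • chi (G.cob (pt v)) := by
    have h1 := chi_mul_self (G.cob (pt v))
    have h2 := sg_mul_self (γ v)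
    funext x
    have h3 := congrFun h1 x
    simp only [z, Pi.mul_apply, Pi.sub_apply, Pi.smul_apply, Pi.one_apply, smul_eq_mul,
      mul_one] at h3 ⊢
    linear_combination h3 + h2
  have hz0 : G.nrm γ z = 0 := by
    unfold MG.nrm
    rw [hzz, map_sub, map_smul, map_smul, G.Ex_one hG γ hV, G.Ex_chi,
      G.e_cob hG γ (pt v) (by rw [wt_pt]; omega), dot_comm, dot_pt, smul_eq_mul, smul_eq_mul,
      mul_assoc, sg_mul_self, mul_one, sub_self, Real.sqrt_zero]
  have hJz : J = z * ((-(sg (γ v) / 2)) • J) := by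
    funext x
    simp only [Pi.mul_apply, Pi.smul_apply, smul_eq_mul]
    by_cases hx : ∀ e ∈ G.inc v, (x e ≠ 0 ↔ e ∈ T)
    · have h1 : J x = 1 := if_pos hx
      have h2 : z x = -sg (γ v) - sg (γ v) * 1 := by
        change chi (G.cob (pt v)) x - sg (γ v) * 1 = _
        rw [hchi x hx]
      have h3 := sg_mul_self (γ v)
      rw [h1, h2]
      linear_combination -h3
    · have h1 : J x = 0 := if_neg hx
      rw [h1, mul_zero, mul_zero]
  have hNJ : G.nrm γ J = 0 := by
    have h1 := (G.world hG γ (3 * Δ + 2 * b) hD).N_mul_null (a := Δ) (b := Δ) (z := z)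
      (f := (-(sg (γ v) / 2)) • J) hzmem (Submodule.smul_mem _ _ hJmem)
      (by change Δ + 2 * Δ ≤ 3 * Δ + 2 * b; omega) hz0
    rw [← hJz] at h1
    exact h1
  have hfac : 1 - fn φ = J * (1 - fn φ) := by
    funext x
    rw [Pi.mul_apply]
    by_cases hx : ∀ e ∈ G.inc v, (x e ≠ 0 ↔ e ∈ T)
    · have h1 : J x = 1 := if_pos hx
      rw [h1, one_mul]
    · have h1 : J x = 0 := if_neg hx
      rw [h1, zero_mul]
      rw [not_forall] at hx
      obtain ⟨e, hx⟩ := hx
      rw [Classical.not_imp] at hx
      obtain ⟨he, hx⟩ := hx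
      have h2 : φ.eval (fun e => decide (x e ≠ 0)) = true := by
        refine himp _ ⟨(e, decide (e ∉ T)), ?_, ?_⟩
        · rw [List.mem_map]
          exact ⟨e, by rw [Finset.mem_toList]; exact he, rfl⟩
        · change decide (x e ≠ 0) = decide (e ∉ T)
          rw [decide_eq_decide]
          tauto
      rw [Pi.sub_apply, Pi.one_apply]
      unfold fn
      rw [h2]
      unfold ind
      simp
  have hfin := (G.world hG γ (3 * Δ + 2 * b) hD).N_mul_null (a := Δ) (b := b) (z := J)
    (f := 1 - fn φ) hJmem (Submodule.sub_mem _ (one_mem_Fd _) (Fd_mono hsize (fn_mem φ)))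
    (by change Δ + 2 * b ≤ 3 * Δ + 2 * b; omega) hNJ
  rw [← hfac] at hfin
  exact hfin

end Pool.Agent.MP_9cec2c_lc.SL.MG
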