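import Pool.Agent.Lib.MP_9cec2c_lc.SL.CobA

/-!
TASK EA: the pseudo-expectation of characters. `G.e γ S` is defined by `Exists.choose`; by `cob_inj`
(two sets with fewer than half of the vertices) the set `U` is unique.
`e_cases`: if `e γ S ≠ 0`, then `S = cob U` with `2 wt U < n`, and expansion gives `wt U ≤ wt S`.
`e_add`: `cob U + cob U' = cob (U + U')`, `wt (U + U') ≤ wt U + wt U'`, `dot γ` is additive.
`Ex_chi`: `fc_chi`.
-/

set_option autoImplicit false

open Finset
open scoped Classical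

namespace Pool.Agent.MP_9cec2c_lc.SL.MG

variable {V E : Type} [Fintype V] [Fintype E] (G : MG V E)

theorem Ex_chi (γ : Cube V) (S : Cube E) : G.Ex γ (chi S) = G.e γ S := by
  show ∑ T, fc (chi S) T * G.e γ T = G.e γ S
  simp only [fc_chi, ite_mul, one_mul, zero_mul]
  rw [Finset.sum_ite_eq]
  simp

theorem e_cob (hG : G.Expands) (γ U : Cube V) (h : 2 * wt U < Fintype.card V) :
    G.e γ (G.cob U) = sg (dot γ U) := by
  have hex : ∃ U' : Cube V, G.cob U' = G.cob U ∧ 2 * wt U' < Fintype.card V := ⟨U, rfl, h⟩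
  unfold e
  rw [dif_pos hex]
  obtain ⟨h1, h2⟩ := hex.choose_spec
  rw [G.cob_inj hG h1 (by omega)]

theorem e_eq_zero (γ : Cube V) {S : Cube E}
    (h : ¬ ∃ U : Cube V, G.cob U = S ∧ 2 * wt U < Fintype.card V) : G.e γ S = 0 := by
  unfold e
  rw [dif_neg h]

theorem e_zero (hG : G.Expands) (γ : Cube V) (hV : 0 < Fintype.card V) : G.e γ 0 = 1 := by
  have h := G.e_cob hG γ 0 (by rw [wt_zero]; omega)
  rw [G.cob_zero, dot_zero_right, sg_zero] at h
  exact h

theorem e_cases (hG : G.Expands) (γ : Cube V) (S : Cube E) :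
    G.e γ S = 0 ∨ ∃ U : Cube V, G.cob U = S ∧ 2 * wt U < Fintype.card V ∧ wt U ≤ wt S ∧
      G.e γ S = sg (dot γ U) := by
  by_cases h : ∃ U : Cube V, G.cob U = S ∧ 2 * wt U < Fintype.card V
  · right
    obtain ⟨U, h1, h2⟩ := h
    refine ⟨U, h1, h2, ?_, ?_⟩
    · rw [← h1]
      exact hG U h2.le
    · rw [← h1]
      exact G.e_cob hG γ U h2
  · exact Or.inl (G.e_eq_zero γ h)

theorem e_sq (γ : Cube V) {S : Cube E} (h : G.e γ S ≠ 0) : G.e γ S * G.e γ S = 1 := by
  unfold e at h ⊢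
  split_ifs at h ⊢ with hex
  · exact sg_mul_self _
  · exact absurd rfl h

theorem e_abs_le (γ : Cube V) (S : Cube E) : |G.e γ S| ≤ 1 := by
  unfold e
  split_ifs with hex
  · exact (abs_sg _).le
  · simp

theorem e_add (hG : G.Expands) (γ U U' : Cube V) (h : 2 * (wt U + wt U') < Fintype.card V) :
    G.e γ (G.cob U + G.cob U') = G.e γ (G.cob U) * G.e γ (G.cob U') := by
  have h1 := wt_add_le U U'
  rw [← G.cob_add, G.e_cob hG γ (U + U') (by omega), G.e_cob hG γ U (by omega),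
    G.e_cob hG γ U' (by omega), dot_add_right, sg_add]

theorem e_mul (hG : G.Expands) (γ : Cube V) {S T : Cube E} (hS : G.e γ S ≠ 0) (hT : G.e γ T ≠ 0)
    (h : 2 * (wt S + wt T) < Fintype.card V) : G.e γ (S + T) = G.e γ S * G.e γ T := by
  rcases G.e_cases hG γ S with h1 | ⟨U, h1, h2, h3, h4⟩
  · exact absurd h1 hS
  rcases G.e_cases hG γ T with h1' | ⟨U', h1', h2', h3', h4'⟩
  · exact absurd h1' hT
  rw [← h1, ← h1']
  exact G.e_add hG γ U U' (by omega)

end Pool.Agent.MP_9cec2c_lc.SL.MG
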