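import Pool.Agent.Lib.MP_9cec2c_lc.SL.Gm
import Pool.Agent.Lib.MP_9cec2c_lc.SL.EA

/-!
TASK EmbA: elementary facts on embeddings.
`res_chi`: `dot S (x + ∑ y_f r_f) = dot S x + ∑ y_f dot S r_f`.
`y_cob`: `dot (cob U) (r f) = dot U (bd (r f)) = U (c (src f)) + U (c (dst f))` (`dot_bd`).
`wt_comp`: `c` is injective. `wt_y`: the set of `f` with `y S f ≠ 0` is contained in the union over `e`
with `S e ≠ 0` of the sets `{f | r f e ≠ 0}`.
`res_mem`: span of characters. `sum_chg`: `∑_v bd x v = 0` (`sum_bd`), and `bd x v = γ v` at the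
vertices `v` that are no centres, so `∑_u bd x (c u) = ∑_{v no centre} γ v`.
`X0_nonempty`: let `A x = ` the restriction of `bd x` to the non-centres. It is enough that `A` is
surjective. If not, there is `U ≠ 0` vanishing at the centres with `dot U (bd x) = 0` for all `x`, i.e.
`cob U = 0`. By `small_or` `U = 0` or `U + 1 = 0`; but `U = 1` does not vanish at the centres (there is
a centre, `V'` is nonempty).
-/

set_option autoImplicit false

open Finset
open scoped Classical

namespace Pool.Agent.MP_9cec2c_lc.SL.Emb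

set_option linter.unusedSectionVars false

variable {V E V' E' : Type} [Fintype V] [Fintype E] [Fintype V'] [Fintype E'] {G : MG V E}
  {H : MG V' E'} (φ : Emb G H)

theorem res_mul (x : Cube E) (f g : Cube E → ℝ) : φ.res x (f * g) = φ.res x f * φ.res x g := rfl

theorem res_add (x : Cube E) (f g : Cube E → ℝ) : φ.res x (f + g) = φ.res x f + φ.res x g := rfl

theorem res_sub (x : Cube E) (f g : Cube E → ℝ) : φ.res x (f - g) = φ.res x f - φ.res x g := rfl

theorem res_smul (x : Cube E) (a : ℝ) (f : Cube E → ℝ) : φ.res x (a • f) = a • φ.res x f := rfl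

theorem res_one (x : Cube E) : φ.res x 1 = 1 := rfl

theorem res_sum {ι : Type} (x : Cube E) (s : Finset ι) (f : ι → Cube E → ℝ) :
    φ.res x (∑ i ∈ s, f i) = ∑ i ∈ s, φ.res x (f i) := by
  funext y
  simp only [res, Finset.sum_apply]

theorem res_chi (x S : Cube E) : φ.res x (chi S) = sg (dot S x) • chi (φ.y S) := by
  funext y
  have h : dot S (fun e => ∑ f, y f * φ.r f e) = dot (φ.y S) y := by
    simp only [dot, Emb.y, Finset.mul_sum, Finset.sum_mul]
    rw [Finset.sum_comm]
    refine Finset.sum_congr rfl fun f _ => Finset.sum_congr rfl fun e _ => ?_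
    ring
  simp only [res, chi, Pi.smul_apply, smul_eq_mul]
  rw [dot_add_right, sg_add, h]

theorem y_add (S T : Cube E) : φ.y (S + T) = φ.y S + φ.y T := by
  funext f
  simp only [Emb.y, Pi.add_apply, dot_add_left]

theorem y_cob (U : Cube V) : φ.y (G.cob U) = H.cob (fun u => U (φ.c u)) := by
  funext f
  simp only [Emb.y, MG.cob]
  have h := G.dot_bd U (φ.r f)
  rw [φ.bd_r, dot_add_right, dot_comm U, dot_comm U, dot_pt, dot_pt] at h
  exact h

theorem wt_comp (U : Cube V) : wt (fun u => U (φ.c u)) ≤ wt U := by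
  unfold wt
  refine Finset.card_le_card_of_injOn φ.c ?_ (φ.inj.injOn)
  intro u hu
  simp only [Finset.coe_filter, Finset.mem_univ, true_and, Set.mem_setOf_eq] at hu ⊢
  exact hu

include φ in
theorem card_le : Fintype.card V' ≤ Fintype.card V := Fintype.card_le_of_injective _ φ.inj

theorem wt_y {κ : ℕ} (hκ : ∀ e, (univ.filter (fun f => φ.r f e ≠ 0)).card ≤ κ) (S : Cube E) :
    wt (φ.y S) ≤ κ * wt S := by
  unfold wt
  have hsub : (univ.filter (fun f => φ.y S f ≠ 0)) ⊆
      (univ.filter (fun e => S e ≠ 0)).biUnion (fun e => univ.filter (fun f => φ.r f e ≠ 0)) := by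
    intro f hf
    simp only [Finset.mem_filter, Finset.mem_univ, true_and] at hf
    obtain ⟨e, -, he⟩ := Finset.exists_ne_zero_of_sum_ne_zero hf
    simp only [Finset.mem_biUnion, Finset.mem_filter, Finset.mem_univ, true_and]
    exact ⟨e, left_ne_zero_of_mul he, right_ne_zero_of_mul he⟩
  refine (Finset.card_le_card hsub).trans ?_
  refine (Finset.card_biUnion_le_card_mul _ _ κ fun e _ => hκ e).trans ?_
  rw [mul_comm]

theorem res_mem {κ d : ℕ} (hκ : ∀ e, (univ.filter (fun f => φ.r f e ≠ 0)).card ≤ κ) (x : Cube E)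
    {F : Cube E → ℝ} (hF : F ∈ Fd E d) : φ.res x F ∈ Fd E' (κ * d) := by
  unfold Fd at hF
  induction hF using Submodule.span_induction with
  | mem f hf =>
    obtain ⟨S, hS, rfl⟩ := hf
    rw [res_chi]
    refine Submodule.smul_mem _ _ (chi_mem ?_)
    exact (φ.wt_y hκ S).trans (Nat.mul_le_mul_left _ hS)
  | zero =>
    have : φ.res x (0 : Cube E → ℝ) = 0 := rfl
    rw [this]
    exact Submodule.zero_mem _
  | add f g _ _ hf hg => exact Submodule.add_mem _ hf hg
  | smul a f _ hf => exact Submodule.smul_mem _ _ hf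

theorem sum_chg (γ : Cube V) {x : Cube E} (hx : x ∈ φ.X0 γ) :
    ∑ u, φ.chg γ x u = ∑ v, γ v := by
  have hx' : ∀ v, (∀ u, φ.c u ≠ v) → G.bd x v = γ v := by
    simpa only [X0, Finset.mem_filter, Finset.mem_univ, true_and] using hx
  have h1 : ∑ v, (G.bd x v + γ v) = ∑ v, γ v := by
    rw [Finset.sum_add_distrib, G.sum_bd, zero_add]
  rw [← h1]
  have h2 : ∑ u, φ.chg γ x u = ∑ v ∈ univ.image φ.c, (G.bd x v + γ v) := by
    rw [Finset.sum_image (fun a _ b _ h => φ.inj h)]
    rfl
  rw [h2]
  refine Finset.sum_subset (Finset.subset_univ _) fun v _ hv => ?_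
  rw [hx' v ?_]
  · exact CharTwo.add_self_eq_zero _
  · intro u hu
    exact hv (Finset.mem_image.2 ⟨u, Finset.mem_univ _, hu⟩)

theorem X0_nonempty (hG : G.Expands) [Nonempty V'] (γ : Cube V) : (φ.X0 γ).Nonempty := by
  let N := {v : V // ∀ u, φ.c u ≠ v}
  let A0 : Cube E →+ (N → ZMod 2) :=
    AddMonoidHom.mk' (fun x v => G.bd x v.1) (fun a b => by
      funext v
      change G.bd (a + b) v.1 = G.bd a v.1 + G.bd b v.1
      rw [G.bd_add]
      rfl)
  let A : Cube E →ₗ[ZMod 2] (N → ZMod 2) := AddMonoidHom.toZModLinearMap 2 A0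
  have hA : ∀ x v, A x v = G.bd x v.1 := fun x v => rfl
  have hsurj : LinearMap.range A = ⊤ := by
    by_contra hne
    obtain ⟨f, hf0, hf⟩ := Submodule.exists_le_ker_of_lt_top _ (lt_top_iff_ne_top.2 hne)
    let U : Cube V := fun v =>
      if h : ∀ u, φ.c u ≠ v then f (fun j : N => if (⟨v, h⟩ : N) = j then 1 else 0) else 0
    have hUN : ∀ v : N, U v.1 = f (fun j : N => if v = j then 1 else 0) := by
      rintro ⟨v, hv⟩
      simp only [U, dif_pos hv]
    have hU0 : ∀ v, ¬ (∀ u, φ.c u ≠ v) → U v = 0 := by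
      intro v hv
      simp only [U, dif_neg hv]
    have hdot : ∀ x, dot U (G.bd x) = 0 := by
      intro x
      have h1 : f (A x) = 0 := hf ⟨x, rfl⟩
      rw [LinearMap.pi_apply_eq_sum_univ f (A x)] at h1
      unfold dot
      rw [← Fintype.sum_subtype_add_sum_subtype (fun v => ∀ u, φ.c u ≠ v)
        (fun v => U v * G.bd x v)]
      have h2 : ∑ i : {v // ¬ ∀ u, φ.c u ≠ v}, U i.1 * G.bd x i.1 = 0 :=
        Finset.sum_eq_zero fun i _ => by rw [hU0 _ i.2, zero_mul]
      rw [h2, add_zero, ← h1]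
      refine Finset.sum_congr rfl fun v _ => ?_
      rw [hUN v, hA, smul_eq_mul, mul_comm]
    have hcob : G.cob U = 0 := by
      funext e
      have := hdot (pt e)
      rw [← G.dot_bd, dot_comm, dot_pt] at this
      exact this
    rcases G.small_or hG U with h | h
    · rw [hcob, wt_zero] at h
      have hU : U = 0 := wt_eq_zero (Nat.le_zero.1 h)
      apply hf0
      refine LinearMap.ext fun g => ?_
      rw [LinearMap.pi_apply_eq_sum_univ f g, LinearMap.zero_apply]
      refine Finset.sum_eq_zero fun v _ => ?_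
      rw [← hUN v, hU, Pi.zero_apply, smul_zero]
    · rw [hcob, wt_zero] at h
      have hU : U + 1 = 0 := wt_eq_zero (Nat.le_zero.1 h)
      obtain ⟨u⟩ := (inferInstance : Nonempty V')
      have h3 := congrFun hU (φ.c u)
      rw [Pi.add_apply, hU0 _ (fun hc => hc u rfl)] at h3
      simp at h3
  have hmem : (fun v : N => γ v.1) ∈ LinearMap.range A := by rw [hsurj]; trivial
  obtain ⟨x, hx⟩ := hmem
  refine ⟨x, ?_⟩
  simp only [X0, Finset.mem_filter, Finset.mem_univ, true_and]
  intro v hv
  have := congrFun hx ⟨v, hv⟩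
  rw [hA] at this
  exact this

end Pool.Agent.MP_9cec2c_lc.SL.Emb
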