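import Pool.Agent.Lib.MP_9cec2c_lc.SL.Alg

/-!
TASK NBasic: elementary facts on the seminorm `N f = √(E (f f))` of a world. `E` is a positive
semidefinite symmetric form on `F D` (Cauchy-Schwarz: the discriminant of
`t ↦ E ((f + t g)(f + t g)) ≥ 0`).
-/

set_option autoImplicit false

open Finset

namespace Pool.Agent.MP_9cec2c_lc.SL.World

variable {R : Type} [CommRing R] [Algebra ℝ R] (W : World R)

theorem N_nonneg (f : R) : 0 ≤ W.N f := Real.sqrt_nonneg _

theorem N_sq {f : R} (hf : f ∈ W.F W.D) : W.N f ^ 2 = W.E (f * f) := Real.sq_sqrt (W.pos f hf)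

theorem N_one : W.N 1 = 1 := by unfold N; rw [one_mul, W.E_one, Real.sqrt_one]

theorem N_zero : W.N 0 = 0 := by unfold N; rw [mul_zero, map_zero, Real.sqrt_zero]

theorem N_neg (f : R) : W.N (-f) = W.N f := by unfold N; rw [neg_mul_neg]

/-- Homogeneity, for every `f`. -/
theorem N_smul (a : ℝ) (f : R) : W.N (a • f) = |a| * W.N f := by
  unfold N
  have h : W.E ((a • f) * (a • f)) = a ^ 2 * W.E (f * f) := by
    rw [smul_mul_smul_comm, map_smul, smul_eq_mul, sq]
  rw [h, Real.sqrt_mul (sq_nonneg a), Real.sqrt_sq_eq_abs]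

/-- Cauchy-Schwarz. -/
theorem cs {f g : R} (hf : f ∈ W.F W.D) (hg : g ∈ W.F W.D) : |W.E (f * g)| ≤ W.N f * W.N g := by
  have h : ∀ x : ℝ, 0 ≤ W.E (g * g) * (x * x) + (2 * W.E (f * g)) * x + W.E (f * f) := by
    intro x
    have h1 := W.pos (f + x • g) (Submodule.add_mem _ hf (Submodule.smul_mem _ x hg))
    have h2 : W.E ((f + x • g) * (f + x • g)) =
        W.E (g * g) * (x * x) + (2 * W.E (f * g)) * x + W.E (f * f) := by
      have h3 : (f + x • g) * (f + x • g) = f * f + (2 * x) • (f * g) + (x * x) • (g * g) := by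
        simp only [Algebra.smul_def, map_mul, map_ofNat]
        ring
      rw [h3, map_add, map_add, map_smul, map_smul, smul_eq_mul, smul_eq_mul]
      ring
    rw [h2] at h1
    exact h1
  have h4 := discrim_le_zero h
  unfold discrim at h4
  have h5 : W.E (f * g) ^ 2 ≤ W.E (f * f) * W.E (g * g) := by nlinarith
  unfold N
  rw [← Real.sqrt_mul (W.pos f hf)]
  exact Real.abs_le_sqrt h5

theorem N_add {f g : R} (hf : f ∈ W.F W.D) (hg : g ∈ W.F W.D) : W.N (f + g) ≤ W.N f + W.N g := by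
  have h0 := W.cs hf hg
  have h1 := W.N_nonneg f
  have h2 := W.N_nonneg g
  have h3 := W.N_sq hf
  have h4 := W.N_sq hg
  have h5 : W.E ((f + g) * (f + g)) = W.E (f * f) + 2 * W.E (f * g) + W.E (g * g) := by
    have h6 : (f + g) * (f + g) = f * f + (2 : ℝ) • (f * g) + g * g := by
      simp only [Algebra.smul_def, map_ofNat]
      ring
    rw [h6, map_add, map_add, map_smul, smul_eq_mul]
  have h7 : W.N (f + g) = Real.sqrt (W.E ((f + g) * (f + g))) := rfl
  rw [h7, h5]
  refine Real.sqrt_le_iff.2 ⟨add_nonneg h1 h2, ?_⟩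
  rw [← h3, ← h4]
  have h8 := (abs_le.1 h0).2
  nlinarith

theorem N_sub {f g : R} (hf : f ∈ W.F W.D) (hg : g ∈ W.F W.D) : W.N (f - g) ≤ W.N f + W.N g := by
  have h := W.N_add hf (Submodule.neg_mem _ hg)
  rw [W.N_neg, ← sub_eq_add_neg] at h
  exact h

/-- Constants belong to `F 0`, hence to all `F a`. -/
theorem algebraMap_mem (a : ℕ) (x : ℝ) : algebraMap ℝ R x ∈ W.F a := by
  rw [Algebra.algebraMap_eq_smul_one]
  exact Submodule.smul_mem _ x (W.F_mono 0 a (Nat.zero_le a) W.one_mem)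

theorem one_mem' (a : ℕ) : (1 : R) ∈ W.F a := W.F_mono 0 a (Nat.zero_le a) W.one_mem

/-- Multiples of null elements are null: `N (z f)^2 = E (z (z f f)) ≤ N z · N (z f f)`. -/
theorem N_mul_null {a b : ℕ} {z f : R} (hz : z ∈ W.F a) (hf : f ∈ W.F b) (hD : a + 2 * b ≤ W.D)
    (h : W.N z = 0) : W.N (z * f) = 0 := by
  have hz' : z ∈ W.F W.D := W.F_mono a W.D (by omega) hz
  have hf' : z * f * f ∈ W.F W.D :=
    W.F_mono (a + b + b) W.D (by omega) (W.mul_mem (a + b) b _ _ (W.mul_mem a b z f hz hf) hf)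
  have h1 := W.cs hz' hf'
  rw [h, zero_mul] at h1
  have h2 : z * (z * f * f) = z * f * (z * f) := by ring
  rw [h2] at h1
  have h3 : W.E (z * f * (z * f)) ≤ 0 := (le_abs_self _).trans h1
  exact Real.sqrt_eq_zero_of_nonpos h3

/-- Elements at distance 0 have the same norm (triangle inequality). -/
theorem N_eq_of_null {f g : R} (hf : f ∈ W.F W.D) (hg : g ∈ W.F W.D) (h : W.N (f - g) = 0) :
    W.N f = W.N g := by
  have hs : f - g ∈ W.F W.D := Submodule.sub_mem _ hf hg
  have h1 : W.N f ≤ W.N g := by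
    have h2 := W.N_add hs hg
    rw [sub_add_cancel, h, zero_add] at h2
    exact h2
  have h3 : W.N g ≤ W.N f := by
    have h4 := W.N_sub hf hs
    rw [sub_sub_cancel, h, add_zero] at h4
    exact h4
  exact le_antisymm h1 h3

/-- Multiplication by an exact idempotent is a contraction:
`N (A g)^2 = E (A A g g) = E ((A g) g) ≤ N (A g) · N g`. -/
theorem N_idem {a b : ℕ} {A g : R} (hA : A ∈ W.F a) (hg : g ∈ W.F b) (hD : a + b ≤ W.D)
    (h : A * A = A) : W.N (A * g) ≤ W.N g := by
  have hg' : g ∈ W.F W.D := W.F_mono b W.D (by omega) hg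
  have hAg : A * g ∈ W.F W.D := W.F_mono (a + b) W.D hD (W.mul_mem a b A g hA hg)
  have h1 := W.cs hAg hg'
  have h2 := W.N_sq hAg
  have h3 : A * g * (A * g) = A * g * g := by
    calc A * g * (A * g) = (A * A) * g * g := by ring
      _ = A * g * g := by rw [h]
  rw [h3] at h2
  have h4 : W.N (A * g) ^ 2 ≤ W.N (A * g) * W.N g := by
    rw [h2]
    exact (le_abs_self _).trans h1
  have h5 := W.N_nonneg (A * g)
  have h6 := W.N_nonneg g
  rcases h5.eq_or_lt with h7 | h7
  · rw [← h7]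
    exact h6
  · rw [sq] at h4
    exact le_of_mul_le_mul_left h4 h7

end Pool.Agent.MP_9cec2c_lc.SL.World
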