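import Pool.Agent.Lib.MP_9cec2c_lc.SL.PSD
import Pool.Agent.Lib.MP_9cec2c_lc.SL.NBasic

/-!
Definition (not a task): the world of a multigraph with expansion.
-/

set_option autoImplicit false

open Finset
open scoped Classical

namespace Pool.Agent.MP_9cec2c_lc.SL.MG

variable {V E : Type} [Fintype V] [Fintype E] (G : MG V E)

/-- The world of the multigraph `G` with the charges `γ`. -/
noncomputable def world (hG : G.Expands) (γ : Cube V) (D : ℕ) (hD : 8 * D < Fintype.card V) :
    World (Cube E → ℝ) where
  F := Fd E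
  F_mono _ _ h := Fd_mono h
  one_mem := one_mem_Fd 0
  mul_mem _ _ _ _ hf hg := mul_mem_Fd hf hg
  E := G.Ex γ
  E_one := G.Ex_one hG γ (by omega)
  D := D
  pos _ hf := G.psd hG γ hD hf

/-- The seminorm of the world of a multigraph with charges. -/
noncomputable def nrm (γ : Cube V) (f : Cube E → ℝ) : ℝ := Real.sqrt (G.Ex γ (f * f))

theorem world_N (hG : G.Expands) (γ : Cube V) (D : ℕ) (hD : 8 * D < Fintype.card V)
    (f : Cube E → ℝ) : (G.world hG γ D hD).N f = G.nrm γ f := rfl

end Pool.Agent.MP_9cec2c_lc.SL.MG
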