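import Pool.Agent.Lib.MP_9cec2c_lc.SL.EmbA
import Pool.Agent.Lib.MP_9cec2c_lc.SL.GWorld

/-!
TASK EmbId: averages over the restrictions. `n = |V|`, `n' = |V'|`, `c[U'] = ∑_u U' u · pt (c u)`
(the set of the centres of `U'`).

`emb_chi` (`wt S ≤ d`, `2 d < n'`). `Ex (res x χ_S) = sg (dot S x) · e(chg x, y S)` (`res_chi`, `Ex_chi`).
Case A: `y S ≠ H.cob U'` for all `U'` with `2 wt U' < n'`: the left side is 0. If `G.e γ S ≠ 0`, then
`S = cob U` with `wt U ≤ wt S ≤ d` (`e_cases`) and `y S = H.cob (U ∘ c)` with `wt (U ∘ c) ≤ d`: impossible.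
Case B: `y S = H.cob U'`, `2 wt U' < n'`. `e(chg x, y S) = sg (dot (chg x) U')` (`e_cob`) and
`dot (chg x) U' = dot (cob (c[U'])) x + dot γ (c[U'])`. So with `T = S + cob (c[U'])` the left side is
`sg (dot γ c[U']) ∑_{x ∈ X0} sg (dot T x)`.
 B1: `T = cob U₂` with `U₂ = 0` at the centres. For `x ∈ X0`: `dot T x = dot U₂ (bd x) = dot U₂ γ`. With
 `U = U₂ + c[U']`: `cob U = S`, `U ∘ c = U'`, and the left side is `|X0| sg (dot γ U)`. By `small_or`
 `wt U ≤ wt S ≤ d` (then `2 wt U < n' ≤ n` and `e γ S = sg (dot γ U)`) or `wt (U+1) ≤ d`; in the latter case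
 `wt (U' + 1) = wt ((U+1) ∘ c) ≤ d`, `wt U' = n' - wt (U'+1) ≥ n' - d`, so `2 wt U' > n'`: impossible.
 B2: otherwise. There is `x₀` with `bd x₀ = 0` at the non-centres and `dot T x₀ ≠ 0` (`exists_dual`
 below: linear algebra over `ZMod 2`, `LinearMap.range_dualMap_eq_dualAnnihilator_ker`: a functional
 that vanishes on the kernel of `A : x ↦ bd x` at the non-centres factors through `A`, and
 functionals on functions on the non-centres are `dot U₂ ·`). Translation by `x₀` is a bijection of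
 `X0` and changes the sign: the left side is 0. If `e γ S ≠ 0`: `S = cob U`, `wt U ≤ d`,
 `y S = H.cob (U ∘ c)`, so `U ∘ c = U'` (`cob_inj`, weights `< n'/2`), `U₂ = U + c[U']` vanishes at the
 centres and `cob U₂ = T`: contradiction. So `e γ S = 0`.
`emb_avg`: linearity (`fc_inv`, `fc_eq_zero`). `emb_nrm`: `res x (a a) = res x a · res x a`, `a a ∈ Fd (2c)`,
`nrm² = Ex` by `psd` (`res x a ∈ Fd (κ c)`, `8 κ c < n'`; `8 c < n`).
-/

set_option autoImplicit false

open Finset
open scoped Classical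

namespace Pool.Agent.MP_9cec2c_lc.SL.Emb

variable {V E V' E' : Type} [Fintype V] [Fintype E] [Fintype V'] [Fintype E'] {G : MG V E}
  {H : MG V' E'} (φ : Emb G H)

theorem exists_dual (T : Cube E)
    (h : ∀ x : Cube E, (∀ v, (∀ u, φ.c u ≠ v) → G.bd x v = 0) → dot T x = 0) :
    ∃ U : Cube V, (∀ u, U (φ.c u) = 0) ∧ G.cob U = T := by
  let A0 : Cube E →+ ({v : V // ∀ u, φ.c u ≠ v} → ZMod 2) :=
    AddMonoidHom.mk' (fun x v => G.bd x v.1) (fun x y => by
      funext v
      rw [G.bd_add]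
      rfl)
  let L0 : Cube E →+ ZMod 2 := AddMonoidHom.mk' (fun x => dot T x) (fun x y => dot_add_right T x y)
  let A := AddMonoidHom.toZModLinearMap 2 A0
  let L := AddMonoidHom.toZModLinearMap 2 L0
  have hL : L ∈ (LinearMap.ker A).dualAnnihilator := by
    rw [Submodule.mem_dualAnnihilator]
    intro x hx
    refine h x fun v hv => ?_
    exact congrFun (LinearMap.mem_ker.1 hx) ⟨v, hv⟩
  rw [← LinearMap.range_dualMap_eq_dualAnnihilator_ker] at hL
  obtain ⟨M, hM⟩ := hL
  refine ⟨fun v => if hv : (∀ u, φ.c u ≠ v) then M (Pi.single ⟨v, hv⟩ 1) else 0, ?_, ?_⟩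
  · intro u
    exact dif_neg (fun hu => hu u rfl)
  · have key : ∀ x, dot (G.cob (fun v => if hv : (∀ u, φ.c u ≠ v) then M (Pi.single ⟨v, hv⟩ 1) else 0))
        x = dot T x := by
      intro x
      rw [G.dot_bd]
      have h1 : dot T x = M (A x) := by
        have h2 := LinearMap.congr_fun hM x
        exact h2.symm
      have h3 : A x = ∑ v : {v : V // ∀ u, φ.c u ≠ v}, G.bd x v.1 • Pi.single v (1 : ZMod 2) := by
        funext w
        rw [Finset.sum_apply, Finset.sum_eq_single w]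
        · rw [Pi.smul_apply, Pi.single_eq_same, smul_eq_mul, mul_one]
          rfl
        · intro v _ hv
          rw [Pi.smul_apply, Pi.single_eq_of_ne (Ne.symm hv), smul_zero]
        · intro hw
          exact absurd (Finset.mem_univ w) hw
      rw [h1, h3, map_sum]
      unfold dot
      have h4 : ∀ v : V, (if hv : (∀ u, φ.c u ≠ v) then M (Pi.single ⟨v, hv⟩ 1) else 0) * G.bd x v =
          if hv : (∀ u, φ.c u ≠ v) then G.bd x v * M (Pi.single ⟨v, hv⟩ 1) else 0 := by
        intro v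
        split_ifs with hv
        · rw [mul_comm]
        · rw [zero_mul]
      simp only [h4]
      rw [Finset.sum_dite, Finset.sum_const_zero, add_zero]
      refine Finset.sum_bij (fun v _ => ⟨v.1, (Finset.mem_filter.1 v.2).2⟩) ?_ ?_ ?_ ?_
      · intro v _
        exact Finset.mem_univ _
      · intro v _ w _ hvw
        have h9 := congrArg Subtype.val hvw
        exact Subtype.ext h9
      · intro v _
        exact ⟨⟨v.1, Finset.mem_filter.2 ⟨Finset.mem_univ _, v.2⟩⟩, Finset.mem_univ _, rfl⟩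
      · intro v _
        rw [map_smul, smul_eq_mul]
    funext e
    have h5 := key (pt e)
    rw [dot_comm, dot_pt, dot_comm T, dot_pt] at h5
    exact h5

/-- the set of the centres of `U'` -/
private noncomputable def EmbId_cU (U' : Cube V') : Cube V := fun v => ∑ u, U' u * pt (φ.c u) v

omit [Fintype E'] in
private theorem EmbId_dot (U' : Cube V') (z : Cube V) :
    dot (EmbId_cU φ U') z = ∑ u, U' u * z (φ.c u) := by
  unfold dot EmbId_cU
  simp only [Finset.sum_mul]
  rw [Finset.sum_comm]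
  refine Finset.sum_congr rfl fun u _ => ?_
  rw [Finset.sum_eq_single (φ.c u)]
  · unfold pt
    rw [if_pos rfl, mul_one]
  · intro v _ hv
    unfold pt
    rw [if_neg hv, mul_zero, zero_mul]
  · intro h
    exact absurd (Finset.mem_univ _) h

omit [Fintype V] [Fintype E'] in
private theorem EmbId_c (U' : Cube V') (u : V') : EmbId_cU φ U' (φ.c u) = U' u := by
  unfold EmbId_cU
  rw [Finset.sum_eq_single u]
  · unfold pt
    rw [if_pos rfl, mul_one]
  · intro w _ hw
    unfold pt
    rw [if_neg (fun h => hw (φ.inj h).symm), mul_zero]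
  · intro h
    exact absurd (Finset.mem_univ _) h

private theorem EmbId_zmod {a : ZMod 2} (h : a ≠ 0) : sg a = -1 := by
  unfold sg
  rw [if_neg h]

theorem emb_chi (hG : G.Expands) (hH : H.Expands) (γ : Cube V) {d : ℕ}
    (hd : 2 * d < Fintype.card V') {S : Cube E} (hS : wt S ≤ d) :
    ∑ x ∈ φ.X0 γ, H.Ex (φ.chg γ x) (φ.res x (chi S)) = (φ.X0 γ).card * G.Ex γ (chi S) := by
  have e1 : ∀ x, H.Ex (φ.chg γ x) (φ.res x (chi S)) =
      sg (dot S x) * H.e (φ.chg γ x) (φ.y S) := by
    intro x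
    rw [φ.res_chi, map_smul, H.Ex_chi, smul_eq_mul]
  simp only [e1, G.Ex_chi]
  have hcard : Fintype.card V' ≤ Fintype.card V := Fintype.card_le_of_injective φ.c φ.inj
  by_cases hA : ∃ U' : Cube V', H.cob U' = φ.y S ∧ 2 * wt U' < Fintype.card V'
  · obtain ⟨U', hU1, hU2⟩ := hA
    have e2 : ∀ x, H.e (φ.chg γ x) (φ.y S) =
        sg (dot (EmbId_cU φ U') γ) * sg (dot (G.cob (EmbId_cU φ U')) x) := by
      intro x
      rw [← hU1, H.e_cob hH _ _ hU2, G.dot_bd, EmbId_dot, EmbId_dot, ← sg_add]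
      congr 1
      unfold dot chg
      rw [← Finset.sum_add_distrib]
      refine Finset.sum_congr rfl fun u _ => ?_
      ring
    set T : Cube E := S + G.cob (EmbId_cU φ U') with hT
    have e3 : ∀ x, sg (dot S x) * H.e (φ.chg γ x) (φ.y S) =
        sg (dot (EmbId_cU φ U') γ) * sg (dot T x) := by
      intro x
      rw [e2, hT, dot_add_left, sg_add]
      ring
    simp only [e3]
    rw [← Finset.mul_sum]
    by_cases hB : ∃ U₂ : Cube V, (∀ u, U₂ (φ.c u) = 0) ∧ G.cob U₂ = T
    · obtain ⟨U₂, h1, h2⟩ := hB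
      have e4 : ∀ x ∈ φ.X0 γ, sg (dot T x) = sg (dot U₂ γ) := by
        intro x hx
        rw [← h2, G.dot_bd]
        congr 1
        unfold dot
        refine Finset.sum_congr rfl fun v _ => ?_
        by_cases hv : ∀ u, φ.c u ≠ v
        · rw [(Finset.mem_filter.1 hx).2 v hv]
        · push Not at hv
          obtain ⟨u, rfl⟩ := hv
          rw [h1, zero_mul, zero_mul]
      rw [Finset.sum_congr rfl e4, Finset.sum_const, nsmul_eq_mul]
      have hcobU : G.cob (U₂ + EmbId_cU φ U') = S := by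
        rw [G.cob_add, h2, hT, add_assoc]
        have h3 : G.cob (EmbId_cU φ U') + G.cob (EmbId_cU φ U') = 0 := by
          funext e
          exact CharTwo.add_self_eq_zero (G.cob (EmbId_cU φ U') e)
        rw [h3, add_zero]
      have hUc : ∀ u, (U₂ + EmbId_cU φ U') (φ.c u) = U' u := by
        intro u
        rw [Pi.add_apply, h1, EmbId_c, zero_add]
      have e5 : G.e γ S = sg (dot γ (U₂ + EmbId_cU φ U')) := by
        rcases G.small_or hG (U₂ + EmbId_cU φ U') with h3 | h3
        · rw [hcobU] at h3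
          have h4 := G.e_cob hG γ (U₂ + EmbId_cU φ U') (by omega)
          rwa [hcobU] at h4
        · exfalso
          rw [hcobU] at h3
          have h4 := φ.wt_comp (U₂ + EmbId_cU φ U' + 1)
          have h5 : (fun u => (U₂ + EmbId_cU φ U' + 1) (φ.c u)) = U' + 1 := by
            funext u
            rw [Pi.add_apply, hUc]
            rfl
          rw [h5] at h4
          have h6 := MG.wt_compl U'
          omega
      rw [e5, dot_comm γ, dot_add_left, sg_add]
      ring
    · have h1 : ∃ x₀ : Cube E, (∀ v, (∀ u, φ.c u ≠ v) → G.bd x₀ v = 0) ∧ dot T x₀ ≠ 0 := by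
        by_contra hno
        push Not at hno
        exact hB (φ.exists_dual T hno)
      obtain ⟨x₀, h2, h3⟩ := h1
      have e4 : ∑ x ∈ φ.X0 γ, sg (dot T x) = -∑ x ∈ φ.X0 γ, sg (dot T x) := by
        rw [← Finset.sum_neg_distrib]
        refine Finset.sum_equiv (Equiv.addRight x₀) ?_ ?_
        · intro x
          show x ∈ φ.X0 γ ↔ x + x₀ ∈ φ.X0 γ
          unfold X0
          rw [Finset.mem_filter, Finset.mem_filter]
          simp only [Finset.mem_univ, true_and]
          refine forall_congr' fun v => forall_congr' fun hv => ?_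
          rw [G.bd_add, Pi.add_apply, h2 v hv, add_zero]
        · intro x _
          show sg (dot T x) = -sg (dot T (x + x₀))
          rw [dot_add_right, sg_add, EmbId_zmod h3]
          ring
      have e5 : ∑ x ∈ φ.X0 γ, sg (dot T x) = 0 := by linarith
      rw [e5, mul_zero]
      rcases G.e_cases hG γ S with h4 | ⟨U, h4, h5, h6, h7⟩
      · rw [h4, mul_zero]
      · exfalso
        have h8 := φ.wt_comp U
        have h9 : H.cob (fun u => U (φ.c u)) = H.cob U' := by
          rw [← φ.y_cob, h4, hU1]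
        have h10 : (fun u => U (φ.c u)) = U' := H.cob_inj hH h9 (by omega)
        refine hB ⟨U + EmbId_cU φ U', ?_, ?_⟩
        · intro u
          rw [Pi.add_apply, EmbId_c, ← h10]
          exact CharTwo.add_self_eq_zero _
        · rw [G.cob_add, h4]
  · have e2 : ∀ x, H.e (φ.chg γ x) (φ.y S) = 0 := fun x => H.e_eq_zero _ hA
    simp only [e2, mul_zero, Finset.sum_const_zero]
    rcases G.e_cases hG γ S with h4 | ⟨U, h4, h5, h6, h7⟩
    · rw [h4, mul_zero]
    · exfalso
      refine hA ⟨fun u => U (φ.c u), ?_, ?_⟩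
      · rw [← φ.y_cob, h4]
      · have h8 := φ.wt_comp U
        omega

theorem emb_avg (hG : G.Expands) (hH : H.Expands) (γ : Cube V) {d : ℕ}
    (hd : 2 * d < Fintype.card V') {F : Cube E → ℝ} (hF : F ∈ Fd E d) :
    ∑ x ∈ φ.X0 γ, H.Ex (φ.chg γ x) (φ.res x F) = (φ.X0 γ).card * G.Ex γ F := by
  have e1 : ∀ x, H.Ex (φ.chg γ x) (φ.res x F) =
      ∑ S, fc F S * H.Ex (φ.chg γ x) (φ.res x (chi S)) := by
    intro x
    conv_lhs => rw [fc_inv F]
    rw [φ.res_sum, map_sum]
    refine Finset.sum_congr rfl fun S _ => ?_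
    rw [φ.res_smul, map_smul, smul_eq_mul]
  have e2 : G.Ex γ F = ∑ S, fc F S * G.Ex γ (chi S) := by
    conv_lhs => rw [fc_inv F]
    rw [map_sum]
    refine Finset.sum_congr rfl fun S _ => ?_
    rw [map_smul, smul_eq_mul]
  simp only [e1]
  rw [Finset.sum_comm, e2, Finset.mul_sum]
  refine Finset.sum_congr rfl fun S _ => ?_
  rw [← Finset.mul_sum]
  by_cases hS : wt S ≤ d
  · rw [φ.emb_chi hG hH γ hd hS]
    ring
  · rw [fc_eq_zero hF (not_le.1 hS)]
    ring

theorem emb_nrm (hG : G.Expands) (hH : H.Expands) (γ : Cube V) {κ c : ℕ} (hκ1 : 1 ≤ κ)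
    (hκ : ∀ e, (univ.filter (fun f => φ.r f e ≠ 0)).card ≤ κ) (hc : 8 * (κ * c) < Fintype.card V')
    {a : Cube E → ℝ} (ha : a ∈ Fd E c) :
    ∑ x ∈ φ.X0 γ, H.nrm (φ.chg γ x) (φ.res x a) ^ 2 = (φ.X0 γ).card * G.nrm γ a ^ 2 := by
  have hcard : Fintype.card V' ≤ Fintype.card V := Fintype.card_le_of_injective φ.c φ.inj
  have hκc : c ≤ κ * c := by
    calc c = 1 * c := (one_mul c).symm
      _ ≤ κ * c := Nat.mul_le_mul_right c hκ1
  have e1 : ∀ x, H.nrm (φ.chg γ x) (φ.res x a) ^ 2 = H.Ex (φ.chg γ x) (φ.res x (a * a)) := by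
    intro x
    unfold MG.nrm
    rw [Real.sq_sqrt (H.psd hH _ hc (φ.res_mem hκ x ha)), φ.res_mul]
  have e2 : G.nrm γ a ^ 2 = G.Ex γ (a * a) := by
    unfold MG.nrm
    rw [Real.sq_sqrt (G.psd hG γ (D := c) (by omega) ha)]
  simp only [e1]
  rw [e2]
  exact φ.emb_avg hG hH γ (d := c + c) (by omega) (mul_mem_Fd ha ha)

end Pool.Agent.MP_9cec2c_lc.SL.Emb
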