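import Pool.Agent.Lib.MP_9cec2c_lc.SL.GmProps
import Pool.Agent.Lib.MP_9cec2c_lc.SL.CobA

/-!
Definition and TASK FT: elementary properties of the formulas `FT m`, the Tseitin formula of `G_m` with
charge 1 at the word `0…0` and charge 0 elsewhere.

`mem_tseitin`: unfold the definitions (`List.mem_flatMap`, `List.mem_map`, `Finset.mem_toList`).
`FT_width`: `card_inc` (`Gm_deg`: degree `≤ 44`). `FT_length`: at each of the `2^m` vertices at most
`2^|inc v| ≤ 2^44` clauses.
`tseitin_unsat`: if `x` satisfies all clauses of `v`, then the number of true edges in `inc v` is congruent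
to `γ v` (otherwise the clause of `T = {e ∈ inc v : x e}` is false). Sum over `v`: every edge that is no
loop belongs to `inc v` for exactly two `v`, loops to none, so `∑_v γ v = 0`.
`FT_vars`: every vertex `v` has `inc v ≠ ∅` if `m ≥ 1` (expansion for `{v}`: `cob_pt`), and a clause exists
at `v` for every parity (`inc v` has subsets of both parities), which contains all edges of `inc v`; an
edge belongs to `inc v` for at most two `v`. So at least `2^m / 2` variables occur.
-/

set_option autoImplicit false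

open Finset
open scoped Classical

namespace Pool.Agent.MP_9cec2c_lc.SL

/-- The Tseitin formula of `G_m` with charge 1 at the word `0…0` and charge 0 elsewhere. -/
noncomputable def FT (m : ℕ) : List (List (Em m × Bool)) :=
  (Gm m).tseitin (pt ((fun _ => false : Fin m → Bool) : Vm m))

theorem mem_tseitin {V E : Type} [Fintype V] [Fintype E] (G : MG V E) (γ : V → ZMod 2)
    (C : List (E × Bool)) : C ∈ G.tseitin γ ↔ ∃ (v : V) (T : Finset E), T ⊆ G.inc v ∧
      (T.card : ZMod 2) ≠ γ v ∧ C = (G.inc v).toList.map (fun e => (e, decide (e ∉ T))) := by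
  unfold MG.tseitin MG.vclauses
  constructor
  · intro h
    obtain ⟨v, -, h1⟩ := List.mem_flatMap.1 h
    obtain ⟨T, h2, h3⟩ := List.mem_map.1 h1
    have h4 := mem_filter.1 (mem_toList.1 h2)
    exact ⟨v, T, mem_powerset.1 h4.1, h4.2, h3.symm⟩
  · rintro ⟨v, T, h1, h2, h3⟩
    refine List.mem_flatMap.2 ⟨v, mem_toList.2 (mem_univ _), List.mem_map.2 ⟨T, ?_, h3.symm⟩⟩
    exact mem_toList.2 (mem_filter.2 ⟨mem_powerset.2 h1, h2⟩)

theorem FT_width (m : ℕ) : ∀ C ∈ FT m, C.length ≤ 44 := by
  intro C hC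
  obtain ⟨v, T, -, -, rfl⟩ := (mem_tseitin _ _ _).1 hC
  rw [List.length_map, length_toList]
  exact (Gm m).card_inc (Gm_deg m) v

theorem FT_length (m : ℕ) : (FT m).length ≤ 2 ^ 44 * 2 ^ m := by
  unfold FT MG.tseitin
  rw [List.length_flatMap]
  have h1 : ∀ n ∈ ((univ : Finset (Vm m)).toList.map fun v =>
      ((Gm m).vclauses (pt ((fun _ => false : Fin m → Bool) : Vm m)) v).length), n ≤ 2 ^ 44 := by
    intro n hn
    obtain ⟨v, -, rfl⟩ := List.mem_map.1 hn
    unfold MG.vclauses
    rw [List.length_map, length_toList]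
    refine (card_filter_le _ _).trans ?_
    rw [card_powerset]
    exact Nat.pow_le_pow_right (by norm_num) ((Gm m).card_inc (Gm_deg m) v)
  refine (List.sum_le_card_nsmul _ _ h1).trans ?_
  rw [List.length_map, length_toList, card_univ, card_Vm, smul_eq_mul, mul_comm]

theorem tseitin_unsat {V E : Type} [Fintype V] [Fintype E] (G : MG V E) (γ : V → ZMod 2)
    (hγ : ∑ v, γ v = 1) (x : E → Bool) : ∃ C ∈ G.tseitin γ, ∀ l ∈ C, x l.1 ≠ l.2 := by
  by_contra hcon
  push Not at hcon
  have h1 : ∀ v, (((G.inc v).filter fun e => x e = true).card : ZMod 2) = γ v := by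
    intro v
    by_contra hne
    obtain ⟨l, hl, hx⟩ := hcon _ ((mem_tseitin G γ _).2
      ⟨v, (G.inc v).filter fun e => x e = true, filter_subset _ _, hne, rfl⟩)
    obtain ⟨e, he, rfl⟩ := List.mem_map.1 hl
    have he' : e ∈ G.inc v := mem_toList.1 he
    simp only at hx
    by_cases h2 : x e = true
    · have h3 : e ∈ (G.inc v).filter fun e => x e = true := mem_filter.2 ⟨he', h2⟩
      have h4 : decide (e ∉ (G.inc v).filter fun e => x e = true) = false := by
        simp [he', h2]
      rw [h4] at hx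
      rw [hx] at h2
      exact Bool.false_ne_true h2
    · have h4 : decide (e ∉ (G.inc v).filter fun e => x e = true) = true := by
        simp [he', h2]
      rw [h4] at hx
      exact h2 hx
  have h2 : ∀ v, G.bd (fun e => if x e = true then 1 else 0) v = γ v := by
    intro v
    rw [← h1 v, card_filter, Nat.cast_sum]
    unfold MG.bd MG.inc
    rw [sum_filter]
    refine sum_congr rfl fun e _ => ?_
    have h3 : (1 : ZMod 2) + 1 = 0 := by decide
    by_cases h4 : G.src e = v <;> by_cases h5 : G.dst e = v <;> by_cases h6 : x e = true <;>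
      simp [h4, h5, h6, h3]
  have h3 := G.sum_bd (fun e => if x e = true then 1 else 0)
  rw [sum_congr rfl fun v _ => h2 v, hγ] at h3
  exact one_ne_zero h3

theorem sum_pt {V : Type} [Fintype V] (v : V) : ∑ w, (pt v : Cube V) w = 1 := by
  unfold pt
  rw [sum_ite_eq' univ v]
  simp

theorem FT_unsat (m : ℕ) (x : Em m → Bool) : ∃ C ∈ FT m, ∀ l ∈ C, x l.1 ≠ l.2 :=
  tseitin_unsat (Gm m) _ (sum_pt _) x

private theorem FT_wt_pt {V : Type} [Fintype V] (v : V) : wt (pt v : Cube V) = 1 := by
  unfold wt pt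
  rw [card_eq_one]
  refine ⟨v, ?_⟩
  ext w
  simp

private theorem FT_inc (m : ℕ) (hm : 1 ≤ m) (v : Vm m) : ∃ e, e ∈ (Gm m).inc v := by
  have h1 := Gm_expands m (pt v)
  rw [FT_wt_pt, card_Vm] at h1
  have h2 : 2 * 1 ≤ 2 ^ m := by
    calc 2 * 1 = 2 ^ 1 := by norm_num
      _ ≤ 2 ^ m := Nat.pow_le_pow_right (by norm_num) hm
  have h3 := h1 h2
  unfold wt at h3
  obtain ⟨e, he⟩ := card_pos.1 (lt_of_lt_of_le Nat.zero_lt_one h3)
  exact ⟨e, ((Gm m).cob_pt v e).1 (mem_filter.1 he).2⟩

private theorem FT_used (m : ℕ) (v : Vm m) (e : Em m) (he : e ∈ (Gm m).inc v) :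
    ∃ C ∈ FT m, ∃ l ∈ C, l.1 = e := by
  have h1 : ∃ T : Finset (Em m), T ⊆ (Gm m).inc v ∧
      (T.card : ZMod 2) ≠ (pt ((fun _ => false : Fin m → Bool) : Vm m) : Cube (Vm m)) v := by
    by_cases h : (pt ((fun _ => false : Fin m → Bool) : Vm m) : Cube (Vm m)) v = 0
    · refine ⟨{e}, singleton_subset_iff.2 he, ?_⟩
      rw [h, card_singleton, Nat.cast_one]
      exact one_ne_zero
    · refine ⟨∅, empty_subset _, ?_⟩
      rw [card_empty, Nat.cast_zero]
      exact fun h' => h h'.symm
  obtain ⟨T, hT, hT'⟩ := h1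
  refine ⟨_, (mem_tseitin _ _ _).2 ⟨v, T, hT, hT', rfl⟩, (e, decide (e ∉ T)), ?_, rfl⟩
  exact List.mem_map.2 ⟨e, mem_toList.2 he, rfl⟩

theorem FT_vars (m : ℕ) (hm : 1 ≤ m) :
    2 ^ m ≤ 2 * (univ.filter (fun e : Em m => ∃ C ∈ FT m, ∃ l ∈ C, l.1 = e)).card := by
  choose f hf using FT_inc m hm
  have h1 : (univ : Finset (Vm m)).card ≤
      2 * (univ.filter (fun e : Em m => ∃ C ∈ FT m, ∃ l ∈ C, l.1 = e)).card := by
    refine card_le_mul_card_image_of_maps_to (f := f)
      (fun v _ => mem_filter.2 ⟨mem_univ _, FT_used m v _ (hf v)⟩) 2 fun e _ => ?_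
    have h2 : (univ.filter fun v => f v = e) ⊆ {(Gm m).src e, (Gm m).dst e} := by
      intro v hv
      have h3 : f v = e := (mem_filter.1 hv).2
      have h4 := hf v
      rw [h3] at h4
      unfold MG.inc at h4
      have h5 := (mem_filter.1 h4).2
      rw [mem_insert, mem_singleton]
      by_contra h6
      push Not at h6
      exact h5 ⟨fun h => absurd h.symm h6.1, fun h => absurd h.symm h6.2⟩
    refine (card_le_card h2).trans ?_
    exact card_le_two
  rw [card_univ, card_Vm] at h1
  exact h1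

end Pool.Agent.MP_9cec2c_lc.SL
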