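import Pool.Agent.Lib.MP_9cec2c_lc.SL.Contr
import Pool.Agent.Lib.MP_9cec2c_lc.SL.RepGood

/-!
TASK GateAnd. Write `X_A = (rep τ A).sk.val v`. Claim: `N ((X_{A ∧ B} - X_A X_B) f) ≤ 100 ε N f`.
Cases of `rep τ A`, `rep τ B` (`rep_good`):
* cl, cl small: `X = v (A ∧ B)`, `X_A = v A`, `X_B = v B`: `hv.and`.
* every big case (the result is `op ff tt (and s₁ s₂)`): `X_{A∧B} = v ff + (X_A X_B) v tt -
  v ff (X_A X_B) v tt = X_A X_B` exactly, as `v ff = 0`, `v tt = 1`.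
* op K0 K1 G, cl B small: `k_i = v K_i`, `b = v B`, `g = G.val v`, `v (K_i ∧ B) = k_i b + δ_i` with
  `N (δ_i h) ≤ ε N h` for `h ∈ F L` (`hv.and`). `X_A = k0 + g k1 - k0 (g k1)`,
  `X_{A∧B} = (k0 b + δ0) + g (k1 b + δ1) - (k0 b + δ0) g (k1 b + δ1)`. Ring identity:
  `X_{A∧B} - X_A b = k0 k1 g (b - b²) + δ0 + g δ1 - g k0 b δ1 - g k1 b δ0 - g δ0 δ1`.
  `N (x h) ≤ 2 N h` for `x = k0, k1, b` (`sk_contr` for a leaf, `r = 1 ≤ 8M`) and `x = g` (`sk_contr`,
  `G.r ≤ 8M`: `rep_sk_r`), on all elements of degree `≤ L - 8Mc`. So the norm is at most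
  `(8 + 1 + 2 + 8 + 8 + 2) ε N f` (order the factors so that `b - b²`, `δ` are applied first to `f`;
  `ε ≤ 1`; for `δ0 δ1`: `N (δ0 (δ1 f)) ≤ ε² N f`). All elements that occur have degree at most
  `L' + 8Mc + 6c + 2c ≤ L` before the last factor.
* cl A, op K0 K1 G small: the same with `v (A ∧ K_i) = a k_i + δ_i`.
-/

set_option autoImplicit false

open Finset

namespace Pool.Agent.MP_9cec2c_lc.SL.World

variable {R : Type} [CommRing R] [Algebra ℝ R] (W : World R) {Λ : Type}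

/-- the computation for a small formula added to an open one -/
private theorem GateAnd_core {c L L' m : ℕ} {ε : ℝ} (hcm : c ≤ m) (hε : 0 ≤ ε) (hε1 : ε ≤ 1)
    (hD : L + 2 * c ≤ W.D) (hL : L' + 50 * m ≤ L) {k0 k1 b g y0 y1 : R}
    (mk0 : k0 ∈ W.F c) (mk1 : k1 ∈ W.F c) (mb : b ∈ W.F c) (mg : g ∈ W.F (8 * m))
    (my0 : y0 ∈ W.F c) (my1 : y1 ∈ W.F c)
    (ck0 : ∀ h ∈ W.F (L - 8 * m), W.N (k0 * h) ≤ 2 * W.N h)
    (ck1 : ∀ h ∈ W.F (L - 8 * m), W.N (k1 * h) ≤ 2 * W.N h)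
    (cb : ∀ h ∈ W.F (L - 8 * m), W.N (b * h) ≤ 2 * W.N h)
    (cg : ∀ h ∈ W.F (L - 8 * m), W.N (g * h) ≤ 2 * W.N h)
    (bb : ∀ h ∈ W.F L, W.N ((b * b - b) * h) ≤ ε * W.N h)
    (d0 : ∀ h ∈ W.F L, W.N ((y0 - k0 * b) * h) ≤ ε * W.N h)
    (d1 : ∀ h ∈ W.F L, W.N ((y1 - k1 * b) * h) ≤ ε * W.N h) {f : R} (hf : f ∈ W.F L') :
    W.N (((y0 + g * y1 - y0 * (g * y1)) - (k0 + g * k1 - k0 * (g * k1)) * b) * f) ≤
      100 * ε * W.N f := by
  have hN : 0 ≤ W.N f := W.N_nonneg f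
  have up : ∀ {a a' : ℕ} {x : R}, x ∈ W.F a → a ≤ a' → x ∈ W.F a' := fun hx h => W.F_mono _ _ h hx
  have step : ∀ {x h : R} {K : ℝ}, (∀ h ∈ W.F (L - 8 * m), W.N (x * h) ≤ 2 * W.N h) → h ∈ W.F (L - 8 * m) →
      W.N h ≤ K → W.N (x * h) ≤ 2 * K := by
    intro x h K hx hh hK
    exact (hx h hh).trans (by linarith)
  have me0 : y0 - k0 * b ∈ W.F (2 * c) :=
    Submodule.sub_mem _ (up my0 (by omega)) (up (W.mul_mem _ _ _ _ mk0 mb) (by omega))
  have me1 : y1 - k1 * b ∈ W.F (2 * c) :=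
    Submodule.sub_mem _ (up my1 (by omega)) (up (W.mul_mem _ _ _ _ mk1 mb) (by omega))
  have mbb : b * b - b ∈ W.F (2 * c) :=
    Submodule.sub_mem _ (up (W.mul_mem _ _ _ _ mb mb) (by omega)) (up mb (by omega))
  have hfL : f ∈ W.F L := up hf (by omega)
  -- first term
  have m1 : (b * b - b) * f ∈ W.F (L' + 2 * c) := by
    have := W.mul_mem _ _ _ _ mbb hf
    exact up this (by omega)
  have n1 : W.N ((b * b - b) * f) ≤ ε * W.N f := bb f hfL
  have m1g : g * ((b * b - b) * f) ∈ W.F (L' + 10 * m) := up (W.mul_mem _ _ _ _ mg m1) (by omega)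
  have n1g : W.N (g * ((b * b - b) * f)) ≤ 2 * (ε * W.N f) := step cg (up m1 (by omega)) n1
  have m1k : k1 * (g * ((b * b - b) * f)) ∈ W.F (L' + 11 * m) := up (W.mul_mem _ _ _ _ mk1 m1g) (by omega)
  have n1k : W.N (k1 * (g * ((b * b - b) * f))) ≤ 2 * (2 * (ε * W.N f)) := step ck1 (up m1g (by omega)) n1g
  have m1z : k0 * (k1 * (g * ((b * b - b) * f))) ∈ W.F (L' + 12 * m) := up (W.mul_mem _ _ _ _ mk0 m1k) (by omega)
  have n1z : W.N (k0 * (k1 * (g * ((b * b - b) * f)))) ≤ 2 * (2 * (2 * (ε * W.N f))) :=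
    step ck0 (up m1k (by omega)) n1k
  -- the errors applied to `f`
  have a0 : (y0 - k0 * b) * f ∈ W.F (L' + 2 * c) := up (W.mul_mem _ _ _ _ me0 hf) (by omega)
  have a1 : (y1 - k1 * b) * f ∈ W.F (L' + 2 * c) := up (W.mul_mem _ _ _ _ me1 hf) (by omega)
  have na0 : W.N ((y0 - k0 * b) * f) ≤ ε * W.N f := d0 f hfL
  have na1 : W.N ((y1 - k1 * b) * f) ≤ ε * W.N f := d1 f hfL
  have mga1 : g * ((y1 - k1 * b) * f) ∈ W.F (L' + 10 * m) := up (W.mul_mem _ _ _ _ mg a1) (by omega)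
  have nga1 : W.N (g * ((y1 - k1 * b) * f)) ≤ 2 * (ε * W.N f) := step cg (up a1 (by omega)) na1
  -- `g k0 b δ1 f`
  have mb1 : b * (g * ((y1 - k1 * b) * f)) ∈ W.F (L' + 11 * m) := up (W.mul_mem _ _ _ _ mb mga1) (by omega)
  have nb1 : W.N (b * (g * ((y1 - k1 * b) * f))) ≤ 2 * (2 * (ε * W.N f)) := step cb (up mga1 (by omega)) nga1
  have mkb1 : k0 * (b * (g * ((y1 - k1 * b) * f))) ∈ W.F (L' + 12 * m) := up (W.mul_mem _ _ _ _ mk0 mb1) (by omega)
  have nkb1 : W.N (k0 * (b * (g * ((y1 - k1 * b) * f)))) ≤ 2 * (2 * (2 * (ε * W.N f))) :=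
    step ck0 (up mb1 (by omega)) nb1
  -- `g k1 b δ0 f`
  have mga0 : g * ((y0 - k0 * b) * f) ∈ W.F (L' + 10 * m) := up (W.mul_mem _ _ _ _ mg a0) (by omega)
  have nga0 : W.N (g * ((y0 - k0 * b) * f)) ≤ 2 * (ε * W.N f) := step cg (up a0 (by omega)) na0
  have mb0 : b * (g * ((y0 - k0 * b) * f)) ∈ W.F (L' + 11 * m) := up (W.mul_mem _ _ _ _ mb mga0) (by omega)
  have nb0 : W.N (b * (g * ((y0 - k0 * b) * f))) ≤ 2 * (2 * (ε * W.N f)) := step cb (up mga0 (by omega)) nga0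
  have mkb0 : k1 * (b * (g * ((y0 - k0 * b) * f))) ∈ W.F (L' + 12 * m) := up (W.mul_mem _ _ _ _ mk1 mb0) (by omega)
  have nkb0 : W.N (k1 * (b * (g * ((y0 - k0 * b) * f)))) ≤ 2 * (2 * (2 * (ε * W.N f))) :=
    step ck1 (up mb0 (by omega)) nb0
  -- `g δ0 δ1 f`
  have m01 : (y0 - k0 * b) * ((y1 - k1 * b) * f) ∈ W.F (L' + 4 * c) := up (W.mul_mem _ _ _ _ me0 a1) (by omega)
  have n01 : W.N ((y0 - k0 * b) * ((y1 - k1 * b) * f)) ≤ ε * W.N f := by
    refine (d0 _ (up a1 (by omega))).trans ?_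
    have h1 : ε * W.N ((y1 - k1 * b) * f) ≤ ε * (ε * W.N f) := mul_le_mul_of_nonneg_left na1 hε
    have h2 : ε * (ε * W.N f) ≤ 1 * (ε * W.N f) := mul_le_mul_of_nonneg_right hε1 (by positivity)
    linarith
  have mg01 : g * ((y0 - k0 * b) * ((y1 - k1 * b) * f)) ∈ W.F (L' + 12 * m) :=
    up (W.mul_mem _ _ _ _ mg m01) (by omega)
  have ng01 : W.N (g * ((y0 - k0 * b) * ((y1 - k1 * b) * f))) ≤ 2 * (ε * W.N f) := step cg (up m01 (by omega)) n01
  -- the sum
  have id : ((y0 + g * y1 - y0 * (g * y1)) - (k0 + g * k1 - k0 * (g * k1)) * b) * f =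
      (y0 - k0 * b) * f + g * ((y1 - k1 * b) * f) - k0 * (k1 * (g * ((b * b - b) * f))) -
        k0 * (b * (g * ((y1 - k1 * b) * f))) - k1 * (b * (g * ((y0 - k0 * b) * f))) -
        g * ((y0 - k0 * b) * ((y1 - k1 * b) * f)) := by
    ring
  rw [id]
  have hLD : L ≤ W.D := by omega
  have D0 := up a0 (show L' + 2 * c ≤ W.D by omega)
  have D1 := up mga1 (show L' + 10 * m ≤ W.D by omega)
  have D2 := up m1z (show L' + 12 * m ≤ W.D by omega)
  have D3 := up mkb1 (show L' + 12 * m ≤ W.D by omega)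
  have D4 := up mkb0 (show L' + 12 * m ≤ W.D by omega)
  have D5 := up mg01 (show L' + 12 * m ≤ W.D by omega)
  have s1 := W.N_add D0 D1
  have t1 := Submodule.add_mem _ D0 D1
  have s2 := W.N_sub t1 D2
  have t2 := Submodule.sub_mem _ t1 D2
  have s3 := W.N_sub t2 D3
  have t3 := Submodule.sub_mem _ t2 D3
  have s4 := W.N_sub t3 D4
  have t4 := Submodule.sub_mem _ t3 D4
  have s5 := W.N_sub t4 D5
  have hεN : 0 ≤ ε * W.N f := by positivity
  linarith

omit [Algebra ℝ R] in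
private theorem GateAnd_big {v : Fm Λ → R} (htt : v Fm.tt = 1) (hff : v Fm.ff = 0) (s1 s2 : Sk (Fm Λ)) :
    (Rep.op Fm.ff Fm.tt (Sk.and s1 s2)).sk.val v = s1.val v * s2.val v := by
  simp [Rep.sk, close, Sk.val, htt, hff]

theorem gate_and {v : Fm Λ → R} {τ c L L' M : ℕ} {ε : ℝ} (hv : W.IsVal v τ c ε L) (hτ : 1 ≤ τ)
    (hM1 : 1 ≤ M) (hε : 0 ≤ ε) (hM : 32 * (M : ℝ) * ε ≤ 1) (hD : L + 2 * c ≤ W.D)
    (hL : L' + 50 * M * c ≤ L) (A B : Fm Λ) (hAB : A.size + B.size ≤ M * τ) {f : R}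
    (hf : f ∈ W.F L') :
    W.N (((rep τ (A.and B)).sk.val v - (rep τ A).sk.val v * (rep τ B).sk.val v) * f) ≤
      100 * ε * W.N f := by
  have hN : 0 ≤ W.N f := W.N_nonneg f
  have hA' : A.size ≤ M * τ := by omega
  have hB' : B.size ≤ M * τ := by omega
  have hε1 : ε ≤ 1 := by
    have h1 : (1 : ℝ) ≤ M := by exact_mod_cast hM1
    nlinarith
  set m : ℕ := M * c with hm
  have hcm : c ≤ m := Nat.le_mul_of_pos_left c hM1
  have e8 : 8 * M * c = 8 * m := by rw [hm]; ring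
  have hL50 : L' + 50 * m ≤ L := by
    have : 50 * M * c = 50 * m := by rw [hm]; ring
    omega
  -- contractions
  have hcontr : ∀ g : Sk (Fm Λ), (∀ i, (g.lab i).size ≤ τ) → g.r ≤ 8 * M → ∀ h ∈ W.F (L - 8 * m),
      W.N (g.val v * h) ≤ 2 * W.N h := by
    intro g hg hr h hh
    exact W.sk_contr hv hε hM hD g hg hr (by omega) hh
  have hleaf : ∀ K : Fm Λ, K.size ≤ τ → ∀ h ∈ W.F (L - 8 * m), W.N (v K * h) ≤ 2 * W.N h := by
    intro K hK h hh
    exact hcontr (Sk.leaf K) (fun _ => hK) (by show 1 ≤ 8 * M; omega) h hh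
  have hmem : ∀ K : Fm Λ, K.size ≤ τ → v K ∈ W.F c := fun K hK => (hv.bit K hK).mem
  have hgmem : ∀ g : Sk (Fm Λ), (∀ i, (g.lab i).size ≤ τ) → g.r ≤ 8 * M → g.val v ∈ W.F (8 * m) := by
    intro g hg hr
    have := W.sk_mem hv g hg hr
    rwa [e8] at this
  have hzero : ∀ {x y : R}, x = y → W.N ((x - y) * f) ≤ 100 * ε * W.N f := by
    intro x y hxy
    rw [hxy, sub_self, zero_mul, W.N_zero]
    positivity
  have gA := rep_good hτ A
  have gB := rep_good hτ B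
  have rA := rep_sk_r hτ hM1 A hA'
  have rB := rep_sk_r hτ hM1 B hB'
  have e : rep τ (A.and B) = (rep τ A).combAnd τ (rep τ B) := rfl
  rw [e]
  revert gA gB rA rB
  generalize rep τ A = ra
  generalize rep τ B = rb
  intro gA gB rA rB
  cases ra with
  | cl A' =>
    obtain ⟨hA1, hA2⟩ := gA
    cases rb with
    | cl B' =>
      obtain ⟨hB1, hB2⟩ := gB
      subst hA1 hB1
      simp only [Rep.combAnd]
      split_ifs with h
      · show W.N ((v (A'.and B') - v A' * v B') * f) ≤ 100 * ε * W.N f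
        refine (hv.and A' B' h f (W.F_mono _ _ (by omega) hf)).trans ?_
        have : 0 ≤ ε * W.N f := by positivity
        linarith
      · exact hzero (GateAnd_big hv.v_tt hv.v_ff _ _)
    | op K0 K1 G =>
      obtain ⟨hK, hK0, hG, _⟩ := gB
      subst hA1
      have hGr : G.r ≤ 8 * M := by
        have h1 : 1 + (G.r + 1) ≤ 8 * M := rB
        omega
      simp only [Rep.combAnd]
      split_ifs with h
      · have hK1 : K1.size ≤ τ := by omega
        have key := W.GateAnd_core hcm hε hε1 hD hL50 (hmem K0 hK0) (hmem K1 hK1) (hmem A' hA2) (hgmem G hG hGr)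
          (hmem (A'.and K0) h) (hmem (A'.and K1) (by show A'.size + K1.size ≤ τ; omega)) (hleaf K0 hK0)
          (hleaf K1 hK1) (hleaf A' hA2) (hcontr G hG hGr) (hv.bit A' hA2).bit
          (fun h' hh' => by
            rw [mul_comm (v K0) (v A')]
            exact hv.and A' K0 h h' hh')
          (fun h' hh' => by
            rw [mul_comm (v K1) (v A')]
            exact hv.and A' K1 (by omega) h' hh') hf
        have e1 : (Rep.op (A'.and K0) (A'.and K1) G).sk.val v - (Rep.cl A').sk.val v * (Rep.op K0 K1 G).sk.val v =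
            (v (A'.and K0) + G.val v * v (A'.and K1) - v (A'.and K0) * (G.val v * v (A'.and K1))) -
              (v K0 + G.val v * v K1 - v K0 * (G.val v * v K1)) * v A' := by
          show (v (A'.and K0) + G.val v * v (A'.and K1) - v (A'.and K0) * (G.val v * v (A'.and K1))) -
            v A' * (v K0 + G.val v * v K1 - v K0 * (G.val v * v K1)) = _
          ring
        rw [e1]
        exact key
      · exact hzero (GateAnd_big hv.v_tt hv.v_ff _ _)
  | op K0 K1 G =>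
    obtain ⟨hK, hK0, hG, _⟩ := gA
    have hGr : G.r ≤ 8 * M := by
      have h1 : 1 + (G.r + 1) ≤ 8 * M := rA
      omega
    cases rb with
    | cl B' =>
      obtain ⟨hB1, hB2⟩ := gB
      subst hB1
      simp only [Rep.combAnd]
      split_ifs with h
      · have hK1 : K1.size ≤ τ := by omega
        have key := W.GateAnd_core hcm hε hε1 hD hL50 (hmem K0 hK0) (hmem K1 hK1) (hmem B' hB2) (hgmem G hG hGr)
          (hmem (K0.and B') h) (hmem (K1.and B') (by show K1.size + B'.size ≤ τ; omega)) (hleaf K0 hK0)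
          (hleaf K1 hK1) (hleaf B' hB2) (hcontr G hG hGr) (hv.bit B' hB2).bit
          (fun h' hh' => hv.and K0 B' h h' hh')
          (fun h' hh' => hv.and K1 B' (by omega) h' hh') hf
        exact key
      · exact hzero (GateAnd_big hv.v_tt hv.v_ff _ _)
    | op K0' K1' G' =>
      simp only [Rep.combAnd]
      exact hzero (GateAnd_big hv.v_tt hv.v_ff _ _)

end Pool.Agent.MP_9cec2c_lc.SL.World
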