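import Mathlib

/-!
TASK Perms: existence of 20 permutations with edge expansion (counting). `n = |V|`.

For `n ≤ 1` the condition `2 |U| ≤ n` forces `U = ∅`. Suppose that a tuple `π` is bad: some `U` with
`u = |U| ≥ 1`, `2u ≤ n` has fewer than `u` pairs `(i, v)` with exactly one of `v`, `π_i v` in `U`. For a
permutation the number of `v ∈ U` with `π_i v ∉ U` equals the number of `v ∉ U` with `π_i v ∈ U`. So the
number of pairs `(i, v)`, `v ∈ U`, `π_i v ∉ U` is less than `u/2`, hence `≤ t = ⌊u/2⌋`, and there is a set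
`T` with `|T| = t`, disjoint from `U` (pad: `n - u ≥ u ≥ t`), such that `π_i(U) ⊆ U ∪ T` for all `i`.
For given `U`, `T` with `u' = u + t ≤ 3u/2` the number of permutations with `π(U) ⊆ U ∪ T` is
`u' (u'-1) ⋯ (u'-u+1) · (n-u)! ≤ (u'/n)^u n!` (injections `U → U ∪ T`, then extend;
`(u'-j)/(n-j) ≤ u'/n`). The number of pairs `(U, T)` is at most `C(n,u) C(n,t) ≤ C(n,u)²` (`t ≤ u ≤ n/2`) and
`C(n,u) ≤ n^u/u! ≤ (3n/u)^u` (`u! ≥ (u/3)^u`). So the proportion of bad tuples is at most
`∑_{1 ≤ u ≤ n/2} [9 (n/u)² (3u/(2n))^20]^u`, and with `ρ = u/n ≤ 1/2`: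
`9 ρ^(-2) (3ρ/2)^20 ≤ 36 (3/4)^20 ≤ 0.12 < 1/3` (increasing in `ρ`). The sum is `< ∑ 3^(-u) ≤ 1/2 < 1`.
Hence good tuples exist. (You may organise the count differently; only the statement matters.
Cruder: any number of permutations could be used, but the statement wants 20.)
-/

set_option autoImplicit false

open Finset
open scoped Classical

namespace Pool.Agent.MP_9cec2c_lc.SL

/-- Edge expansion of a tuple of 20 permutations. -/
def PermExp {V : Type} [Fintype V] (π : Fin 20 → Equiv.Perm V) : Prop :=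
  ∀ U : Finset V, 2 * U.card ≤ Fintype.card V →
    U.card ≤ ∑ i, (univ.filter (fun v => ¬ (v ∈ U ↔ π i v ∈ U))).card

private noncomputable def Perms_P {V : Type} [Fintype V] (U W : Finset V) : Finset (Equiv.Perm V) :=
  univ.filter (fun π => ∀ x ∈ U, π x ∈ W)

private theorem Perms_mem_P {V : Type} [Fintype V] (U W : Finset V) (π : Equiv.Perm V) :
    π ∈ Perms_P U W ↔ ∀ x ∈ U, π x ∈ W := by
  simp [Perms_P]

private theorem Perms_swap {V : Type} [Fintype V] (U W : Finset V) (a b : V) (ha : a ∉ U)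
    (hb : b ∉ U) :
    ((Perms_P U W).filter (fun π => π b ∈ W)).card
      = ((Perms_P U W).filter (fun π => π a ∈ W)).card := by
  refine Finset.card_bij' (fun π _ => π * Equiv.swap a b) (fun π _ => π * Equiv.swap a b)
    ?_ ?_ ?_ ?_
  · intro π hπ
    rw [Finset.mem_filter, Perms_mem_P] at hπ ⊢
    refine ⟨fun x hx => ?_, ?_⟩
    · have hxa : x ≠ a := fun h => ha (h ▸ hx)
      have hxb : x ≠ b := fun h => hb (h ▸ hx)
      rw [Equiv.Perm.mul_apply, Equiv.swap_apply_of_ne_of_ne hxa hxb]
      exact hπ.1 x hx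
    · rw [Equiv.Perm.mul_apply, Equiv.swap_apply_left]
      exact hπ.2
  · intro π hπ
    rw [Finset.mem_filter, Perms_mem_P] at hπ ⊢
    refine ⟨fun x hx => ?_, ?_⟩
    · have hxa : x ≠ a := fun h => ha (h ▸ hx)
      have hxb : x ≠ b := fun h => hb (h ▸ hx)
      rw [Equiv.Perm.mul_apply, Equiv.swap_apply_of_ne_of_ne hxa hxb]
      exact hπ.1 x hx
    · rw [Equiv.Perm.mul_apply, Equiv.swap_apply_right]
      exact hπ.2
  · intro π hπ
    rw [mul_assoc, Equiv.swap_mul_self, mul_one]
  · intro π hπ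
    rw [mul_assoc, Equiv.swap_mul_self, mul_one]

private theorem Perms_fib {V : Type} [Fintype V] (U W : Finset V) (π : Equiv.Perm V)
    (hπ : π ∈ Perms_P U W) :
    (Uᶜ.filter (fun b => π b ∈ W)).card + U.card = W.card := by
  rw [Perms_mem_P] at hπ
  have h1 : (univ.filter (fun b => π b ∈ W)).card = W.card := by
    have : univ.filter (fun b => π b ∈ W) = W.map π.symm.toEmbedding := by
      ext b
      simp only [Finset.mem_filter, Finset.mem_univ, true_and, Finset.mem_map,
        Equiv.coe_toEmbedding]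
      constructor
      · intro h
        exact ⟨π b, h, by simp⟩
      · rintro ⟨c, hc, rfl⟩
        simpa using hc
    rw [this, Finset.card_map]
  rw [← h1]
  have h2 : univ.filter (fun b => π b ∈ W) = (Uᶜ.filter (fun b => π b ∈ W)) ∪ U := by
    ext b
    simp only [Finset.mem_filter, Finset.mem_univ, true_and, Finset.mem_union, Finset.mem_compl]
    constructor
    · intro h
      by_cases hb : b ∈ U
      · exact Or.inr hb
      · exact Or.inl ⟨hb, h⟩
    · rintro (h | h)
      · exact h.2
      · exact hπ b h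
  rw [h2, Finset.card_union_of_disjoint]
  rw [Finset.disjoint_left]
  intro b hb
  rw [Finset.mem_filter, Finset.mem_compl] at hb
  exact hb.1

private theorem Perms_insert {V : Type} [Fintype V] (U W : Finset V) (a : V) (ha : a ∉ U) :
    (Perms_P (insert a U) W).card * Fintype.card V ≤ W.card * (Perms_P U W).card := by
  have hins : Perms_P (insert a U) W = (Perms_P U W).filter (fun π => π a ∈ W) := by
    ext π
    rw [Finset.mem_filter, Perms_mem_P, Perms_mem_P]
    simp only [Finset.mem_insert, forall_eq_or_imp]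
    exact and_comm
  by_cases hne : (Perms_P U W).Nonempty
  swap
  · rw [Finset.not_nonempty_iff_eq_empty] at hne
    rw [hins, hne]
    simp
  obtain ⟨π₀, hπ₀⟩ := hne
  have hWU : U.card ≤ W.card := by
    have := Perms_fib U W π₀ hπ₀
    omega
  have hWn : W.card ≤ Fintype.card V := Finset.card_le_univ W
  have hUn : U.card < Fintype.card V := by
    have h1 : (insert a U).card ≤ Fintype.card V := Finset.card_le_univ _
    rw [Finset.card_insert_of_notMem ha] at h1
    omega
  -- double counting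
  have hdc : (Fintype.card V - U.card) * (Perms_P (insert a U) W).card
      = (W.card - U.card) * (Perms_P U W).card := by
    have h1 : ∑ b ∈ Uᶜ, ((Perms_P U W).filter (fun π => π b ∈ W)).card
        = ∑ π ∈ Perms_P U W, (Uᶜ.filter (fun b => π b ∈ W)).card := by
      simp only [Finset.card_filter]
      exact Finset.sum_comm
    have h2 : ∑ b ∈ Uᶜ, ((Perms_P U W).filter (fun π => π b ∈ W)).card
        = ∑ b ∈ Uᶜ, (Perms_P (insert a U) W).card := by
      refine Finset.sum_congr rfl (fun b hb => ?_)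
      rw [hins]
      exact Perms_swap U W a b ha (by simpa using hb)
    have h3 : ∑ π ∈ Perms_P U W, (Uᶜ.filter (fun b => π b ∈ W)).card
        = ∑ π ∈ Perms_P U W, (W.card - U.card) := by
      refine Finset.sum_congr rfl (fun π hπ => ?_)
      have := Perms_fib U W π hπ
      omega
    rw [h2, h3, Finset.sum_const, Finset.sum_const, Finset.card_compl, smul_eq_mul,
      smul_eq_mul] at h1
    rw [h1, mul_comm]
  obtain ⟨k, hk⟩ := Nat.exists_eq_add_of_le hUn.le
  obtain ⟨l, hl⟩ := Nat.exists_eq_add_of_le hWU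
  rw [hk, hl, Nat.add_sub_cancel_left, Nat.add_sub_cancel_left] at hdc
  have hk0 : 0 < k := by omega
  have hlk : l ≤ k := by omega
  rw [hk, hl]
  refine Nat.le_of_mul_le_mul_left ?_ hk0
  calc k * ((Perms_P (insert a U) W).card * (U.card + k))
      = (k * (Perms_P (insert a U) W).card) * (U.card + k) := by ring
    _ = (l * (Perms_P U W).card) * (U.card + k) := by rw [hdc]
    _ = (l * (U.card + k)) * (Perms_P U W).card := by ring
    _ ≤ (k * (U.card + l)) * (Perms_P U W).card := by
        refine Nat.mul_le_mul_right _ ?_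
        nlinarith
    _ = k * ((U.card + l) * (Perms_P U W).card) := by ring

private theorem Perms_count {V : Type} [Fintype V] (U W : Finset V) :
    (Perms_P U W).card * Fintype.card V ^ U.card
      ≤ W.card ^ U.card * (Fintype.card V).factorial := by
  induction U using Finset.induction_on with
  | empty =>
    have : (Perms_P ∅ W).card ≤ (Fintype.card V).factorial := by
      refine (Finset.card_le_univ _).trans ?_
      rw [Fintype.card_perm]
    simpa using this
  | insert a U ha ih =>
    rw [Finset.card_insert_of_notMem ha]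
    calc (Perms_P (insert a U) W).card * Fintype.card V ^ (U.card + 1)
        = ((Perms_P (insert a U) W).card * Fintype.card V) * Fintype.card V ^ U.card := by ring
      _ ≤ (W.card * (Perms_P U W).card) * Fintype.card V ^ U.card :=
          Nat.mul_le_mul_right _ (Perms_insert U W a ha)
      _ = W.card * ((Perms_P U W).card * Fintype.card V ^ U.card) := by ring
      _ ≤ W.card * (W.card ^ U.card * (Fintype.card V).factorial) := Nat.mul_le_mul_left _ ih
      _ = W.card ^ (U.card + 1) * (Fintype.card V).factorial := by ring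

private theorem Perms_choose_mono (n u t : ℕ) (htu : t ≤ u) (hu : 2 * u ≤ n) :
    n.choose t ≤ n.choose u := by
  induction u, htu using Nat.le_induction with
  | base => exact le_rfl
  | succ m hm ih =>
    refine (ih (by omega)).trans (Nat.choose_le_succ_of_lt_half_left ?_)
    omega

private theorem Perms_choose_le (n u : ℕ) (hu : 1 ≤ u) :
    (n.choose u : ℝ) ≤ (3 * (n : ℝ) / u) ^ u := by
  have hu0 : (0 : ℝ) < u := by exact_mod_cast hu
  have h1 : (n.choose u : ℝ) ≤ (n : ℝ) ^ u / (u.factorial : ℝ) := Nat.choose_le_pow_div u n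
  have hf : (0 : ℝ) < (u.factorial : ℝ) := by exact_mod_cast Nat.factorial_pos u
  have h2 : (u : ℝ) ^ u / (u.factorial : ℝ) ≤ 3 ^ u := by
    have h3 := Real.pow_div_factorial_le_exp (u : ℝ) hu0.le u
    refine h3.trans ?_
    have h4 : Real.exp (u : ℝ) = Real.exp 1 ^ u := by
      rw [← Real.exp_nat_mul, mul_one]
    rw [h4]
    exact pow_le_pow_left₀ (Real.exp_pos _).le (by linarith [Real.exp_one_lt_d9]) u
  have h5 : (u : ℝ) ^ u ≤ 3 ^ u * (u.factorial : ℝ) := by
    rwa [div_le_iff₀ hf] at h2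
  refine h1.trans ?_
  rw [div_pow, mul_pow, div_le_div_iff₀ hf (pow_pos hu0 u)]
  have hn : (0 : ℝ) ≤ (n : ℝ) ^ u := by positivity
  calc (n : ℝ) ^ u * (u : ℝ) ^ u ≤ (n : ℝ) ^ u * (3 ^ u * (u.factorial : ℝ)) :=
        mul_le_mul_of_nonneg_left h5 hn
    _ = 3 ^ u * (n : ℝ) ^ u * (u.factorial : ℝ) := by ring

private theorem Perms_term (n u : ℕ) (hu : 1 ≤ u) (hun : 2 * u ≤ n) :
    (n.choose u : ℝ) * ((n.choose (u / 2) : ℝ) * ((3 * (u : ℝ) / (2 * n)) ^ u) ^ 20)
      ≤ (1 / 3 : ℝ) ^ u := by
  have hu0 : (0 : ℝ) < u := by exact_mod_cast hu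
  have hn0 : (0 : ℝ) < n := by
    have : 0 < n := by omega
    exact_mod_cast this
  have h2u : 2 * (u : ℝ) ≤ n := by exact_mod_cast hun
  have hc1 := Perms_choose_le n u hu
  have hc2 : (n.choose (u / 2) : ℝ) ≤ (3 * (n : ℝ) / u) ^ u := by
    refine le_trans ?_ hc1
    exact_mod_cast Perms_choose_mono n u (u / 2) (Nat.div_le_self _ _) hun
  have hA : (0 : ℝ) ≤ (3 * (n : ℝ) / u) ^ u := by positivity
  have hB : (0 : ℝ) ≤ ((3 * (u : ℝ) / (2 * n)) ^ u) ^ 20 := by positivity
  calc (n.choose u : ℝ) * ((n.choose (u / 2) : ℝ) * ((3 * (u : ℝ) / (2 * n)) ^ u) ^ 20)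
      ≤ (3 * (n : ℝ) / u) ^ u * ((3 * (n : ℝ) / u) ^ u * ((3 * (u : ℝ) / (2 * n)) ^ u) ^ 20) := by
        refine mul_le_mul hc1 (mul_le_mul_of_nonneg_right hc2 hB) ?_ hA
        positivity
    _ = ((3 * (n : ℝ) / u) ^ 2 * (3 * (u : ℝ) / (2 * n)) ^ 20) ^ u := by
        have hab : ∀ a b : ℝ, a ^ u * (a ^ u * (b ^ u) ^ 20) = (a ^ 2 * b ^ 20) ^ u := by
          intro a b
          rw [mul_pow, pow_right_comm a 2 u, pow_right_comm b 20 u]
          ring
        exact hab _ _
    _ ≤ (1 / 3 : ℝ) ^ u := by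
        refine pow_le_pow_left₀ (by positivity) ?_ u
        have hr : (0 : ℝ) ≤ (u : ℝ) / n := by positivity
        have hr2 : (u : ℝ) / n ≤ 1 / 2 := by
          rw [div_le_iff₀ hn0]
          linarith
        have he : (3 * (n : ℝ) / u) ^ 2 * (3 * (u : ℝ) / (2 * n)) ^ 20
            = 9 * (3 / 2 : ℝ) ^ 20 * ((u : ℝ) / n) ^ 18 := by
          field_simp
          ring
        rw [he]
        have h18 : ((u : ℝ) / n) ^ 18 ≤ (1 / 2 : ℝ) ^ 18 := pow_le_pow_left₀ hr hr2 18
        calc 9 * (3 / 2 : ℝ) ^ 20 * ((u : ℝ) / n) ^ 18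
            ≤ 9 * (3 / 2 : ℝ) ^ 20 * (1 / 2 : ℝ) ^ 18 :=
              mul_le_mul_of_nonneg_left h18 (by positivity)
          _ ≤ 1 / 3 := by norm_num

private theorem Perms_cross {V : Type} [Fintype V] (U : Finset V) (π : Equiv.Perm V) :
    (univ.filter (fun v => ¬ (v ∈ U ↔ π v ∈ U))).card
      = 2 * (U.filter (fun v => π v ∉ U)).card := by
  have hc : (univ.filter (fun b => π b ∈ U)).card = U.card := by
    have : univ.filter (fun b => π b ∈ U) = U.map π.symm.toEmbedding := by
      ext b
      simp only [Finset.mem_filter, Finset.mem_univ, true_and, Finset.mem_map,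
        Equiv.coe_toEmbedding]
      constructor
      · intro h
        exact ⟨π b, h, by simp⟩
      · rintro ⟨c, hc, rfl⟩
        simpa using hc
    rw [this, Finset.card_map]
  have hcomm : (U \ univ.filter (fun b => π b ∈ U)).card
      = (univ.filter (fun b => π b ∈ U) \ U).card := Finset.card_sdiff_comm hc.symm
  have hA : U \ univ.filter (fun b => π b ∈ U) = U.filter (fun v => π v ∉ U) := by
    ext v
    simp [Finset.mem_sdiff, Finset.mem_filter]
  have hun : univ.filter (fun v => ¬ (v ∈ U ↔ π v ∈ U))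
      = (U \ univ.filter (fun b => π b ∈ U)) ∪ (univ.filter (fun b => π b ∈ U) \ U) := by
    ext v
    simp only [Finset.mem_filter, Finset.mem_univ, true_and, Finset.mem_union, Finset.mem_sdiff]
    tauto
  rw [hun, Finset.card_union_of_disjoint, ← hcomm, hA]
  · ring
  · rw [Finset.disjoint_left]
    intro v hv hv'
    rw [Finset.mem_sdiff] at hv hv'
    exact hv'.2 hv.1

private theorem Perms_bad {V : Type} [Fintype V] (π : Fin 20 → Equiv.Perm V)
    (h : ¬ PermExp π) :
    ∃ U T : Finset V, 1 ≤ U.card ∧ 2 * U.card ≤ Fintype.card V ∧ T.card = U.card / 2 ∧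
      ∀ i, π i ∈ Perms_P U (U ∪ T) := by
  unfold PermExp at h
  simp only [not_forall, not_le, exists_prop] at h
  obtain ⟨U, hU, hlt⟩ := h
  have hsum : ∑ i, (univ.filter (fun v => ¬ (v ∈ U ↔ π i v ∈ U))).card
      = 2 * ∑ i, (U.filter (fun v => π i v ∉ U)).card := by
    rw [Finset.mul_sum]
    exact Finset.sum_congr rfl (fun i _ => Perms_cross U (π i))
  rw [hsum] at hlt
  have hT' : (univ.biUnion (fun i => (U.filter (fun v => π i v ∉ U)).image (π i))).card
      ≤ U.card / 2 := by
    refine (Finset.card_biUnion_le).trans ?_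
    have : ∑ i, ((U.filter (fun v => π i v ∉ U)).image (π i)).card
        ≤ ∑ i, (U.filter (fun v => π i v ∉ U)).card :=
      Finset.sum_le_sum (fun i _ => Finset.card_image_le)
    omega
  obtain ⟨T, hT1, hT2⟩ := Finset.exists_superset_card_eq hT' (by omega)
  refine ⟨U, T, by omega, hU, hT2, fun i => ?_⟩
  rw [Perms_mem_P]
  intro x hx
  rw [Finset.mem_union]
  by_cases hxU : π i x ∈ U
  · exact Or.inl hxU
  · refine Or.inr (hT1 ?_)
    rw [Finset.mem_biUnion]
    refine ⟨i, Finset.mem_univ _, ?_⟩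
    rw [Finset.mem_image]
    exact ⟨x, by rw [Finset.mem_filter]; exact ⟨hx, hxU⟩, rfl⟩

private theorem Perms_P_real {V : Type} [Fintype V] (U T : Finset V) (hU : 1 ≤ U.card)
    (hUn : 2 * U.card ≤ Fintype.card V) (hT : T.card = U.card / 2) :
    ((Perms_P U (U ∪ T)).card : ℝ)
      ≤ (3 * (U.card : ℝ) / (2 * (Fintype.card V : ℝ))) ^ U.card
        * ((Fintype.card V).factorial : ℝ) := by
  have h1 := Perms_count U (U ∪ T)
  have hn0 : (0 : ℝ) < (Fintype.card V : ℝ) := by
    have : 0 < Fintype.card V := by omega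
    exact_mod_cast this
  have h2 : ((Perms_P U (U ∪ T)).card : ℝ) * (Fintype.card V : ℝ) ^ U.card
      ≤ ((U ∪ T).card : ℝ) ^ U.card * ((Fintype.card V).factorial : ℝ) := by
    exact_mod_cast h1
  have hW : ((U ∪ T).card : ℝ) ≤ 3 * (U.card : ℝ) / 2 := by
    have h3 : (U ∪ T).card ≤ U.card + T.card := Finset.card_union_le _ _
    have h4 : 2 * (U ∪ T).card ≤ 3 * U.card := by omega
    have h5 : 2 * ((U ∪ T).card : ℝ) ≤ 3 * (U.card : ℝ) := by exact_mod_cast h4
    linarith
  have hpow : (0 : ℝ) < (Fintype.card V : ℝ) ^ U.card := pow_pos hn0 _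
  have hf : (0 : ℝ) ≤ ((Fintype.card V).factorial : ℝ) := by positivity
  have h6 : ((Perms_P U (U ∪ T)).card : ℝ)
      ≤ ((U ∪ T).card : ℝ) ^ U.card * ((Fintype.card V).factorial : ℝ)
        / (Fintype.card V : ℝ) ^ U.card := by
    rw [le_div_iff₀ hpow]
    exact h2
  refine h6.trans ?_
  have h7 : (3 * (U.card : ℝ) / (2 * (Fintype.card V : ℝ)))
      = (3 * (U.card : ℝ) / 2) / (Fintype.card V : ℝ) := by
    rw [div_div]
  rw [h7, div_pow, div_mul_eq_mul_div]
  refine div_le_div_of_nonneg_right ?_ hpow.le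
  refine mul_le_mul_of_nonneg_right ?_ hf
  exact pow_le_pow_left₀ (by positivity) hW _

private theorem Perms_geom (m : ℕ) :
    ∑ u ∈ range (m + 1), (if 1 ≤ u then (1 / 3 : ℝ) ^ u else 0) ≤ 1 / 2 := by
  have h : ∀ m : ℕ, ∑ u ∈ range (m + 1), (if 1 ≤ u then (1 / 3 : ℝ) ^ u else 0)
      = 1 / 2 - (1 / 2) * (1 / 3 : ℝ) ^ m := by
    intro m
    induction m with
    | zero => simp
    | succ k ih =>
      rw [Finset.sum_range_succ, ih, if_pos (by omega), pow_succ]
      ring
  rw [h m]
  have : (0 : ℝ) ≤ (1 / 3 : ℝ) ^ m := by positivity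
  linarith

theorem exists_perms (V : Type) [Fintype V] : ∃ π : Fin 20 → Equiv.Perm V, PermExp π := by
  by_contra hno
  push Not at hno
  have hM : (0 : ℝ) < (((Fintype.card V).factorial : ℝ)) ^ 20 := by positivity
  -- the index set
  have hcov : (univ : Finset (Fin 20 → Equiv.Perm V)) ⊆
      ((univ : Finset V).powerset).biUnion (fun U =>
        if 1 ≤ U.card ∧ 2 * U.card ≤ Fintype.card V then
          ((univ : Finset V).powersetCard (U.card / 2)).biUnion (fun T =>
            Fintype.piFinset (fun _ : Fin 20 => Perms_P U (U ∪ T)))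
        else ∅) := by
    intro π _
    obtain ⟨U, T, h1, h2, h3, h4⟩ := Perms_bad π (hno π)
    rw [Finset.mem_biUnion]
    refine ⟨U, Finset.mem_powerset.2 (Finset.subset_univ _), ?_⟩
    rw [if_pos ⟨h1, h2⟩, Finset.mem_biUnion]
    refine ⟨T, Finset.mem_powersetCard.2 ⟨Finset.subset_univ _, h3⟩, ?_⟩
    rw [Fintype.mem_piFinset]
    exact h4
  have hcard := Finset.card_le_card hcov
  have hcard2 := hcard.trans Finset.card_biUnion_le
  have htot : (univ : Finset (Fin 20 → Equiv.Perm V)).card
      = (Fintype.card V).factorial ^ 20 := by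
    rw [Finset.card_univ, Fintype.card_fun, Fintype.card_perm, Fintype.card_fin]
  rw [htot] at hcard2
  have hreal : (((Fintype.card V).factorial : ℝ)) ^ 20
      ≤ ∑ U ∈ (univ : Finset V).powerset,
        ((if 1 ≤ U.card ∧ 2 * U.card ≤ Fintype.card V then
          ((univ : Finset V).powersetCard (U.card / 2)).biUnion (fun T =>
            Fintype.piFinset (fun _ : Fin 20 => Perms_P U (U ∪ T)))
        else ∅ : Finset (Fin 20 → Equiv.Perm V)).card : ℝ) := by
    exact_mod_cast hcard2
  obtain ⟨f, hf⟩ : ∃ f : ℕ → ℝ, f = (fun u : ℕ => if 1 ≤ u ∧ 2 * u ≤ Fintype.card V then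
          ((Fintype.card V).choose (u / 2) : ℝ)
            * ((3 * (u : ℝ) / (2 * (Fintype.card V : ℝ))) ^ u) ^ 20
            * (((Fintype.card V).factorial : ℝ)) ^ 20 else 0) := ⟨_, rfl⟩
  have hterm : ∀ U ∈ (univ : Finset V).powerset,
      ((if 1 ≤ U.card ∧ 2 * U.card ≤ Fintype.card V then
          ((univ : Finset V).powersetCard (U.card / 2)).biUnion (fun T =>
            Fintype.piFinset (fun _ : Fin 20 => Perms_P U (U ∪ T)))
        else ∅ : Finset (Fin 20 → Equiv.Perm V)).card : ℝ)
      ≤ f U.card := by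
    intro U _
    rw [hf]
    dsimp only
    split_ifs with hif
    · have hb : ((((univ : Finset V).powersetCard (U.card / 2)).biUnion (fun T =>
            Fintype.piFinset (fun _ : Fin 20 => Perms_P U (U ∪ T)))).card : ℝ)
          ≤ ∑ T ∈ (univ : Finset V).powersetCard (U.card / 2),
            ((Fintype.piFinset (fun _ : Fin 20 => Perms_P U (U ∪ T))).card : ℝ) := by
        exact_mod_cast Finset.card_biUnion_le
      refine hb.trans ?_
      have hT : ∀ T ∈ (univ : Finset V).powersetCard (U.card / 2),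
          ((Fintype.piFinset (fun _ : Fin 20 => Perms_P U (U ∪ T))).card : ℝ)
          ≤ ((3 * (U.card : ℝ) / (2 * (Fintype.card V : ℝ))) ^ U.card) ^ 20
            * (((Fintype.card V).factorial : ℝ)) ^ 20 := by
        intro T hT
        rw [Fintype.card_piFinset, Finset.prod_const, Finset.card_univ, Fintype.card_fin,
          ← mul_pow]
        push_cast
        exact pow_le_pow_left₀ (by positivity)
          (Perms_P_real U T hif.1 hif.2 (Finset.mem_powersetCard.1 hT).2) 20
      refine (Finset.sum_le_sum hT).trans ?_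
      rw [Finset.sum_const, Finset.card_powersetCard, Finset.card_univ, nsmul_eq_mul, mul_assoc]
    · simp
  have hsum := hreal.trans (Finset.sum_le_sum hterm)
  rw [Finset.sum_powerset_apply_card f] at hsum
  rw [Finset.card_univ] at hsum
  have hfin : ∑ m ∈ range (Fintype.card V + 1), (Fintype.card V).choose m • f m
      ≤ ∑ m ∈ range (Fintype.card V + 1), (if 1 ≤ m then (1 / 3 : ℝ) ^ m else 0)
          * (((Fintype.card V).factorial : ℝ)) ^ 20 := by
    refine Finset.sum_le_sum (fun m _ => ?_)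
    rw [hf]
    dsimp only
    by_cases hm : 1 ≤ m ∧ 2 * m ≤ Fintype.card V
    · rw [if_pos hm, if_pos hm.1, nsmul_eq_mul]
      have := Perms_term (Fintype.card V) m hm.1 hm.2
      calc ((Fintype.card V).choose m : ℝ) * (((Fintype.card V).choose (m / 2) : ℝ)
            * ((3 * (m : ℝ) / (2 * (Fintype.card V : ℝ))) ^ m) ^ 20
            * (((Fintype.card V).factorial : ℝ)) ^ 20)
          = (((Fintype.card V).choose m : ℝ) * (((Fintype.card V).choose (m / 2) : ℝ)
            * ((3 * (m : ℝ) / (2 * (Fintype.card V : ℝ))) ^ m) ^ 20))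
            * (((Fintype.card V).factorial : ℝ)) ^ 20 := by ring
        _ ≤ (1 / 3 : ℝ) ^ m * (((Fintype.card V).factorial : ℝ)) ^ 20 :=
            mul_le_mul_of_nonneg_right this hM.le
    · rw [if_neg hm, smul_zero]
      have : (0 : ℝ) ≤ (if 1 ≤ m then (1 / 3 : ℝ) ^ m else 0) := by
        split_ifs <;> positivity
      exact mul_nonneg this hM.le
  have hlast := hsum.trans hfin
  rw [← Finset.sum_mul] at hlast
  have hg := Perms_geom (Fintype.card V)
  nlinarith

end Pool.Agent.MP_9cec2c_lc.SL
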