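import Pool.Agent.Lib.MP_9cec2c_lc.SL.Gr
import Pool.Agent.Lib.MP_9cec2c_lc.SL.Perms

/-!
Campaign SL, definitions: the graphs `G_m` (de Bruijn graph with 20 permutations), routes, embeddings
of multigraphs and restrictions.
-/

set_option autoImplicit false

open Finset
open scoped Classical

namespace Pool.Agent.MP_9cec2c_lc.SL

noncomputable section

/-- The vertices of `G_m`: the `2^m` binary words of length `m`. -/
def Vm (m : ℕ) : Type := Fin m → Bool

/-- The edges of `G_m`: 2 de Bruijn edges and 20 permutation edges start at each vertex. -/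
def Em (m : ℕ) : Type := Vm m × (Bool ⊕ Fin 20)

instance (m : ℕ) : Fintype (Vm m) := inferInstanceAs (Fintype (Fin m → Bool))

instance (m : ℕ) : Nonempty (Vm m) := inferInstanceAs (Nonempty (Fin m → Bool))

instance (m : ℕ) : Fintype (Em m) := inferInstanceAs (Fintype (Vm m × (Bool ⊕ Fin 20)))

instance (m : ℕ) : Nonempty (Em m) := inferInstanceAs (Nonempty (Vm m × (Bool ⊕ Fin 20)))

/-- Delete the first letter and append `b`. -/
def shift {m : ℕ} (z : Vm m) (b : Bool) : Vm m :=
  fun j => if h : (j : ℕ) + 1 < m then z ⟨(j : ℕ) + 1, h⟩ else b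

/-- 20 permutations of a finite set with edge expansion. -/
def perms (V : Type) [Fintype V] : Fin 20 → Equiv.Perm V := (exists_perms V).choose

/-- The multigraph `G_m`. -/
def Gm (m : ℕ) : MG (Vm m) (Em m) where
  src e := Prod.fst e
  dst e := match Prod.snd e with
    | Sum.inl b => shift (Prod.fst e) b
    | Sum.inr i => perms (Vm m) i (Prod.fst e)

/-- The word `x` followed by the word `w`. -/
def sq {m : ℕ} (x w : Vm m) : ℕ → Bool :=
  fun k => if h : k < m then x ⟨k, h⟩ else if h' : k - m < m then w ⟨k - m, h'⟩ else false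

/-- The part of length `m` of `x w` starting at `i`. -/
def win {m : ℕ} (x w : Vm m) (i : ℕ) : Vm m := fun j => sq x w (i + j)

/-- The edge number `i` of the route from `x` to `w`. -/
def redge {m : ℕ} (x w : Vm m) (i : ℕ) : Em m := (win x w i, Sum.inl (sq x w (i + m)))

/-- The route from `x` to `w` in the de Bruijn graph, as a set of edges (mod 2). -/
def rho {m : ℕ} (x w : Vm m) : Cube (Em m) := ∑ i ∈ range m, pt (redge x w i)

/-- Concatenation of words. -/
def cat {m t : ℕ} (u : Vm m) (z : Vm t) : Vm (m + t) := Fin.append u z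

/-- An embedding of the multigraph `H` into `G`: centres and, for every edge of `H`, a set of edges of
`G` whose boundary consists of the two centres. -/
structure Emb {V E V' E' : Type} [Fintype E] (G : MG V E) (H : MG V' E') where
  /-- the centres -/
  c : V' → V
  /-- the routes -/
  r : E' → Cube E
  inj : Function.Injective c
  bd_r : ∀ f, G.bd (r f) = pt (c (H.src f)) + pt (c (H.dst f))

namespace Emb

variable {V E V' E' : Type} [Fintype V] [Fintype E] [Fintype V'] [Fintype E'] {G : MG V E}
  {H : MG V' E'} (φ : Emb G H)

/-- The edges of `H` whose routes have odd intersection with `S`. -/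
def y (S : Cube E) : Cube E' := fun f => dot S (φ.r f)

/-- The points whose boundary is `γ` outside of the centres. -/
def X0 (γ : Cube V) : Finset (Cube E) := univ.filter (fun x => ∀ v, (∀ u, φ.c u ≠ v) → G.bd x v = γ v)

/-- The charges of `H` that belong to the point `x`. -/
def chg (γ : Cube V) (x : Cube E) : Cube V' := fun u => G.bd x (φ.c u) + γ (φ.c u)

/-- The restriction of a function: `y ↦ F (x + ∑ y_f r_f)`. -/
def res (x : Cube E) (F : Cube E → ℝ) : Cube E' → ℝ :=
  fun y => F (x + fun e => ∑ f, y f * φ.r f e)

end Emb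

end

end Pool.Agent.MP_9cec2c_lc.SL
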