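import Pool.Agent.Lib.MP_9cec2c_lc.SL.Reps
import Pool.Agent.Lib.MP_9cec2c_lc.SL.AnchDec
import Pool.Agent.Lib.MP_9cec2c_lc.SL.AnchCnt

/-!
TASK HypA: the comparison function on the cube.
Let `Y` be a set of representatives (`RepSet d Y`), `F = ∑_{S ∈ Y} α_S χ_S`,
`Φ = ∑_{S ∈ Y} ∑_{U ∈ AS(S)} |α_S| χ_{S + cob U}`, `AS(S)` the sets anchored in `S` with fewer than half of
the vertices.

`ex_four`: `Ex (F⁴) = ∑_{(S_i) ∈ Y⁴} ∏ α_{S_i} · e(∑ S_i) ≤ ∑ ∏ |α_{S_i}|` over the quadruples such that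
`∑ S_i = cob U`, `2 wt U < n` for some `U` (`e_cases`, `e_abs_le`). `avg (Φ⁴)` is the sum over all
`(S_i, U_i)`, `U_i ∈ AS(S_i)`, of `∏ |α_{S_i}| · [∑ (S_i + cob U_i) = 0]` (`avg_chi`, `chi_add`). For a
quadruple as above every edge of `cob U` lies in some `S_i`, so `anch_decomp` gives `U_i ∈ AS(S_i)` with
`∑ U_i = U`, and `∑ (S_i + cob U_i) = cob U + cob U = 0`: every quadruple appears on the right.

`phi_mem`: `wt (S + cob U) ≤ d + 4 d` (`anch_wt`).

`phi_sq`: `avg (Φ²) = ∑ |α_S| |α_{S'}| [S + cob U = S' + cob U']`. Equality means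
`S + S' = cob (U + U')` with `wt (U + U') ≤ 8 d`, `16 d < n`, so `S = S'` (`RepSet.ineq`), then
`cob U = cob U'` and `U = U'` (`cob_inj`). Hence `avg (Φ²) = ∑ α_S² |AS(S)|`, `anch_count`.
-/

set_option autoImplicit false

open Finset
open scoped Classical

namespace Pool.Agent.MP_9cec2c_lc.SL.MG

variable {V E : Type} [Fintype V] [Fintype E] (G : MG V E)

/-- The sets of vertices anchored in `S` with fewer than half of the vertices. -/
noncomputable def AS (S : Cube E) : Finset (Cube V) :=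
  univ.filter (fun U : Cube V => G.Anch S U ∧ 2 * wt U < Fintype.card V)

/-- The comparison function on the cube. -/
noncomputable def Phi (Y : Finset (Cube E)) (α : Cube E → ℝ) : Cube E → ℝ :=
  ∑ S ∈ Y, ∑ U ∈ G.AS S, |α S| • chi (S + G.cob U)

private theorem HypA_self {A : Type} (S : Cube A) : S + S = 0 := by
  funext e
  exact CharTwo.add_self_eq_zero _

private theorem HypA_eq {A : Type} {S T : Cube A} (h : S + T = 0) : S = T := by
  calc S = S + (T + T) := by rw [HypA_self, add_zero]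
    _ = (S + T) + T := by rw [add_assoc]
    _ = T := by rw [h, zero_add]

private theorem HypA_avg_sum {ι : Type} (s : Finset ι) (f : ι → Cube E → ℝ) :
    avg (∑ i ∈ s, f i) = ∑ i ∈ s, avg (f i) := by
  induction s using Finset.induction_on with
  | empty =>
    rw [sum_empty, sum_empty]
    unfold avg
    simp
  | insert a s ha ih => rw [sum_insert ha, sum_insert ha, avg_add, ih]

private theorem HypA_prod {ι : Type} (s : Finset ι) (a : ι → ℝ) (S : ι → Cube E) :
    ∏ i ∈ s, (a i • chi (S i)) = (∏ i ∈ s, a i) • chi (∑ i ∈ s, S i) := by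
  induction s using Finset.induction_on with
  | empty => rw [prod_empty, prod_empty, sum_empty, chi_zero, one_smul]
  | insert j s ha ih =>
    rw [prod_insert ha, prod_insert ha, sum_insert ha, chi_add, ih, smul_mul_smul_comm]

/-- The fourth power of a combination of characters. -/
private theorem HypA_pow {ι : Type} (J : Finset ι) (a : ι → ℝ) (S : ι → Cube E) :
    (∑ j ∈ J, a j • chi (S j)) ^ 4 =
      ∑ p ∈ Fintype.piFinset (fun _ : Fin 4 => J), (∏ i, a (p i)) • chi (∑ i, S (p i)) := by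
  have h1 : (∑ j ∈ J, a j • chi (S j)) ^ 4 = ∏ _i : Fin 4, ∑ j ∈ J, a j • chi (S j) := by
    rw [prod_const, card_univ, Fintype.card_fin]
  rw [h1, prod_univ_sum]
  refine sum_congr rfl fun p _ => ?_
  exact HypA_prod univ (fun i => a (p i)) (fun i => S (p i))

/-- The pairs of a representative and a set anchored in it. -/
private noncomputable def HypA_J (Y : Finset (Cube E)) : Finset (Cube E × Cube V) :=
  Y.biUnion fun S => (G.AS S).image fun U => (S, U)

private theorem HypA_memJ {Y : Finset (Cube E)} {j : Cube E × Cube V} :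
    j ∈ HypA_J G Y ↔ j.1 ∈ Y ∧ j.2 ∈ G.AS j.1 := by
  unfold HypA_J
  rw [mem_biUnion]
  constructor
  · rintro ⟨S, hS, h⟩
    obtain ⟨U, hU, rfl⟩ := mem_image.1 h
    exact ⟨hS, hU⟩
  · rintro ⟨h1, h2⟩
    exact ⟨j.1, h1, mem_image.2 ⟨j.2, h2, rfl⟩⟩

private theorem HypA_sumJ {M : Type} [AddCommMonoid M] (Y : Finset (Cube E))
    (f : Cube E → Cube V → M) :
    ∑ j ∈ HypA_J G Y, f j.1 j.2 = ∑ S ∈ Y, ∑ U ∈ G.AS S, f S U := by
  unfold HypA_J
  rw [sum_biUnion]
  · refine sum_congr rfl fun S _ => ?_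
    rw [sum_image]
    intro U _ U' _ h
    exact (Prod.ext_iff.1 h).2
  · intro S _ S' _ hSS
    rw [Function.onFun, disjoint_left]
    intro j h1 h2
    obtain ⟨U, _, rfl⟩ := mem_image.1 h1
    obtain ⟨U', _, h⟩ := mem_image.1 h2
    exact hSS (Prod.ext_iff.1 h).1.symm

private theorem HypA_Phi (Y : Finset (Cube E)) (α : Cube E → ℝ) :
    G.Phi Y α = ∑ j ∈ HypA_J G Y, |α j.1| • chi (j.1 + G.cob j.2) :=
  (HypA_sumJ G Y (fun S U => |α S| • chi (S + G.cob U))).symm

theorem ex_four (hG : G.Expands) (γ : Cube V) (hV : 0 < Fintype.card V) (Y : Finset (Cube E))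
    (α : Cube E → ℝ) :
    G.Ex γ ((∑ S ∈ Y, α S • chi S) ^ 4) ≤ avg (fun x => G.Phi Y α x ^ 4) := by
  -- the left side
  have hL : G.Ex γ ((∑ S ∈ Y, α S • chi S) ^ 4) =
      ∑ p ∈ Fintype.piFinset (fun _ : Fin 4 => Y), (∏ i, α (p i)) * G.e γ (∑ i, p i) := by
    rw [HypA_pow Y α (fun S => S), map_sum]
    refine sum_congr rfl fun p _ => ?_
    rw [map_smul, Ex_chi, smul_eq_mul]
  -- the right side
  have hR : avg (fun x => G.Phi Y α x ^ 4) =
      ∑ p ∈ Fintype.piFinset (fun _ : Fin 4 => HypA_J G Y), (∏ i, |α (p i).1|) *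
        (if ∑ i, ((p i).1 + G.cob (p i).2) = 0 then 1 else 0) := by
    have h1 : (fun x => G.Phi Y α x ^ 4) = G.Phi Y α ^ 4 := rfl
    rw [h1, HypA_Phi, HypA_pow (HypA_J G Y) (fun j => |α j.1|) (fun j => j.1 + G.cob j.2),
      HypA_avg_sum]
    refine sum_congr rfl fun p _ => ?_
    rw [avg_smul, avg_chi]
  rw [hL, hR]
  -- the set of the quadruples that count
  obtain ⟨P, hP⟩ : ∃ P : (Fin 4 → Cube E) → Prop, P = fun p =>
    ∃ U : Cube V, G.cob U = ∑ i, p i ∧ 2 * wt U < Fintype.card V := ⟨_, rfl⟩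
  have h1 : ∑ p ∈ Fintype.piFinset (fun _ : Fin 4 => Y), (∏ i, α (p i)) * G.e γ (∑ i, p i) ≤
      ∑ p ∈ (Fintype.piFinset (fun _ : Fin 4 => Y)).filter P, ∏ i, |α (p i)| := by
    rw [sum_filter]
    refine sum_le_sum fun p _ => ?_
    split_ifs with h
    · calc (∏ i, α (p i)) * G.e γ (∑ i, p i) ≤ |(∏ i, α (p i)) * G.e γ (∑ i, p i)| :=
            le_abs_self _
        _ = (∏ i, |α (p i)|) * |G.e γ (∑ i, p i)| := by rw [abs_mul, abs_prod]
        _ ≤ (∏ i, |α (p i)|) * 1 := mul_le_mul_of_nonneg_left (G.e_abs_le γ _)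
            (prod_nonneg fun i _ => abs_nonneg _)
        _ = ∏ i, |α (p i)| := mul_one _
    · rw [hP] at h
      rw [G.e_eq_zero γ h, mul_zero]
  refine h1.trans ?_
  -- the decomposition
  have h2 : ∀ p : Fin 4 → Cube E, ∃ U' : Fin 4 → Cube V,
      (p ∈ (Fintype.piFinset (fun _ : Fin 4 => Y)).filter P →
        (∀ i, U' i ∈ G.AS (p i)) ∧ ∑ i, (p i + G.cob (U' i)) = 0) := by
    intro p
    by_cases hp : p ∈ (Fintype.piFinset (fun _ : Fin 4 => Y)).filter P
    · obtain ⟨_, hp2⟩ := mem_filter.1 hp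
      rw [hP] at hp2
      obtain ⟨U, hU1, hU2⟩ := hp2
      obtain ⟨U', h3, h4⟩ := G.anch_decomp U p (by
        intro e he
        by_contra hcon
        push Not at hcon
        apply he
        rw [hU1, Finset.sum_apply]
        exact sum_eq_zero fun i _ => hcon i)
      refine ⟨U', fun _ => ⟨fun i => ?_, ?_⟩⟩
      · refine mem_filter.2 ⟨mem_univ _, (h4 i).1, ?_⟩
        have h5 := wt_mono (h4 i).2
        omega
      · rw [sum_add_distrib, ← G.cob_sum, ← h3, ← hU1]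
        exact HypA_self _
    · exact ⟨fun _ => 0, fun h => absurd h hp⟩
  choose U' hU' using h2
  obtain ⟨φ, hφ⟩ : ∃ φ : (Fin 4 → Cube E) → (Fin 4 → Cube E × Cube V),
    φ = fun p i => (p i, U' p i) := ⟨_, rfl⟩
  have hinj : Function.Injective φ := by
    intro p q h
    funext i
    have h3 := congrFun h i
    rw [hφ] at h3
    exact (Prod.ext_iff.1 h3).1
  have h3 : ∑ p ∈ (Fintype.piFinset (fun _ : Fin 4 => Y)).filter P, ∏ i, |α (p i)| =
      ∑ p ∈ ((Fintype.piFinset (fun _ : Fin 4 => Y)).filter P).image φ, (∏ i, |α (p i).1|) *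
        (if ∑ i, ((p i).1 + G.cob (p i).2) = 0 then 1 else 0) := by
    rw [sum_image fun p _ q _ h => hinj h]
    refine sum_congr rfl fun p hp => ?_
    have h4 : ∑ i, ((φ p i).1 + G.cob (φ p i).2) = 0 := by
      rw [hφ]
      exact (hU' p hp).2
    rw [if_pos h4, mul_one, hφ]
  rw [h3]
  refine sum_le_sum_of_subset_of_nonneg ?_ fun p _ _ => ?_
  · intro p hp
    obtain ⟨q, hq, rfl⟩ := mem_image.1 hp
    rw [Fintype.mem_piFinset]
    intro i
    rw [HypA_memJ, hφ]
    exact ⟨Fintype.mem_piFinset.1 (mem_filter.1 hq).1 i, (hU' q hq).1 i⟩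
  · refine mul_nonneg (prod_nonneg fun i _ => abs_nonneg _) ?_
    split_ifs
    · exact zero_le_one
    · exact le_refl 0

theorem phi_mem (hG : G.Expands) {d : ℕ} {Y : Finset (Cube E)} (hY : G.RepSet d Y)
    (α : Cube E → ℝ) : G.Phi Y α ∈ Fd E (5 * d) := by
  unfold Phi
  refine Submodule.sum_mem _ fun S hS => Submodule.sum_mem _ fun U hU =>
    Submodule.smul_mem _ _ (chi_mem ?_)
  obtain ⟨_, h1, h2⟩ := mem_filter.1 hU
  have h3 := (G.anch_wt hG h1 h2).2
  have h4 := hY.wt_le S hS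
  have h5 := wt_add_le S (G.cob U)
  omega

theorem phi_sq (hG : G.Expands) {Δ : ℕ} (hΔ : G.DegLE Δ) {d : ℕ} (hd : 32 * d < Fintype.card V)
    {Y : Finset (Cube E)} (hY : G.RepSet d Y) (α : Cube E → ℝ) :
    avg (fun x => G.Phi Y α x ^ 2) ≤ 2 ^ ((4 * Δ + 8) * d) * ∑ S ∈ Y, α S ^ 2 := by
  have h1 : (fun x => G.Phi Y α x ^ 2) = ∑ j ∈ HypA_J G Y, ∑ j' ∈ HypA_J G Y,
      (|α j.1| * |α j'.1|) • chi (j.1 + G.cob j.2 + (j'.1 + G.cob j'.2)) := by
    have h2 : (fun x => G.Phi Y α x ^ 2) = G.Phi Y α * G.Phi Y α := by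
      funext x
      rw [Pi.mul_apply, sq]
    rw [h2, HypA_Phi, sum_mul_sum]
    refine sum_congr rfl fun j _ => sum_congr rfl fun j' _ => ?_
    rw [smul_mul_smul_comm, chi_add (j.1 + G.cob j.2)]
  rw [h1, HypA_avg_sum]
  have h3 : ∀ j ∈ HypA_J G Y, avg (∑ j' ∈ HypA_J G Y,
      (|α j.1| * |α j'.1|) • chi (j.1 + G.cob j.2 + (j'.1 + G.cob j'.2))) = α j.1 ^ 2 := by
    intro j hj
    rw [HypA_avg_sum, sum_eq_single_of_mem j hj]
    · rw [avg_smul, avg_chi, if_pos (HypA_self _), mul_one, ← sq, sq_abs]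
    · intro j' hj' hne
      rw [avg_smul, avg_chi, if_neg, mul_zero]
      intro h
      apply hne
      obtain ⟨hj1, hj2⟩ := (HypA_memJ G).1 hj
      obtain ⟨hj1', hj2'⟩ := (HypA_memJ G).1 hj'
      obtain ⟨_, ha, hw⟩ := mem_filter.1 hj2
      obtain ⟨_, ha', hw'⟩ := mem_filter.1 hj2'
      have h4 := (G.anch_wt hG ha hw).1
      have h4' := (G.anch_wt hG ha' hw').1
      have h5 := hY.wt_le _ hj1
      have h5' := hY.wt_le _ hj1'
      have h6 : j.1 + j'.1 = G.cob (j.2 + j'.2) := by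
        rw [cob_add]
        apply HypA_eq
        rw [← h]
        abel
      have h7 : j.1 = j'.1 := by
        by_contra hne'
        refine hY.ineq _ hj1 _ hj1' hne' ⟨j.2 + j'.2, h6.symm, ?_⟩
        have h8 := wt_add_le j.2 j'.2
        omega
      have h8 : G.cob j.2 = G.cob j'.2 := by
        rw [h7, HypA_self, cob_add] at h6
        exact HypA_eq h6.symm
      have h9 := G.cob_inj hG h8 (by omega)
      exact (Prod.ext h7 h9).symm
  rw [sum_congr rfl h3, HypA_sumJ G Y (fun S _ => α S ^ 2), mul_sum]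
  refine sum_le_sum fun S hS => ?_
  rw [sum_const, nsmul_eq_mul]
  refine mul_le_mul_of_nonneg_right ?_ (sq_nonneg _)
  have h10 := G.anch_count hG hΔ (hY.wt_le S hS)
  exact_mod_cast h10

end Pool.Agent.MP_9cec2c_lc.SL.MG
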