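import Pool.Agent.Lib.MP_9cec2c_lc.SL.HypA
import Pool.Agent.Lib.MP_9cec2c_lc.SL.Bonami

/-!
TASK HypB: hypercontractivity of the pseudo-expectation. Let `f ∈ Fd d`, `32 d < n`, and take `Y`, `α`
with `f = F + z`, `F = ∑ α_S χ_S`, `z` null of degree `≤ d` (`exists_repSet`, `repSet_approx`). In the world
of height `D = 4 d`: `Ex (z w) = 0` for `w` of degree `≤ 3 d` (Cauchy-Schwarz), so `Ex (f⁴) = Ex (F⁴)`,
`Ex (f²) = Ex (F²) = ∑ α_S²` (`repSet_norm`). By `ex_four`, `phi_mem`, `bonami`, `phi_sq`: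
`Ex (F⁴) ≤ 64^(5d) (2^((4Δ+8) d) ∑ α²)² = 2^((8Δ+46) d) (∑ α²)²`.
`nrm_mul`: `Ex ((f g)²) ≤ √(Ex f⁴) √(Ex g⁴)` (Cauchy-Schwarz for `f², g² ∈ Fd (2d)`)
`≤ K^d Ex(f²) Ex(g²)`, `K = 2^(8Δ+46)`; take square roots (`√(K^d) ≤ K^d`).
-/

set_option autoImplicit false

open Finset
open scoped Classical

namespace Pool.Agent.MP_9cec2c_lc.SL.MG

variable {V E : Type} [Fintype V] [Fintype E] (G : MG V E)

theorem ex_pow_four (hG : G.Expands) {Δ : ℕ} (hΔ : G.DegLE Δ) (γ : Cube V) {d : ℕ}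
    (hd : 32 * d < Fintype.card V) {f : Cube E → ℝ} (hf : f ∈ Fd E d) :
    G.Ex γ (f ^ 4) ≤ (2 ^ (8 * Δ + 46)) ^ d * (G.Ex γ (f * f)) ^ 2 := by
  have hV : 0 < Fintype.card V := by omega
  have hD : 8 * (4 * d) < Fintype.card V := by omega
  obtain ⟨Y, hY⟩ := G.exists_repSet hG (c := d) (by omega)
  obtain ⟨α, hα⟩ := G.repSet_approx hG γ (c := d) (by omega) hY hf
  set F : Cube E → ℝ := ∑ S ∈ Y, α S • chi S with hF
  have hFm : F ∈ Fd E d :=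
    Submodule.sum_mem _ fun S hS => Submodule.smul_mem _ _ (chi_mem (hY.wt_le S hS))
  have hzm : f - F ∈ Fd E d := Submodule.sub_mem _ hf hFm
  have hz : ∀ w ∈ Fd E (3 * d), G.Ex γ ((f - F) * w) = 0 := by
    intro w hw
    have h1 := (G.world hG γ (4 * d) hD).cs (f := f - F) (g := w)
      (Fd_mono (by omega : d ≤ 4 * d) hzm) (Fd_mono (by omega : 3 * d ≤ 4 * d) hw)
    have h2 : |G.Ex γ ((f - F) * w)| ≤ G.nrm γ (f - F) * G.nrm γ w := h1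
    rw [hα, zero_mul] at h2
    exact abs_eq_zero.1 (le_antisymm h2 (abs_nonneg _))
  have hsum : f + F ∈ Fd E d := Submodule.add_mem _ hf hFm
  have e4 : G.Ex γ (f ^ 4) = G.Ex γ (F ^ 4) := by
    have hw : (f + F) * (f * f + F * F) ∈ Fd E (3 * d) := by
      have := mul_mem_Fd hsum (Submodule.add_mem _ (mul_mem_Fd hf hf) (mul_mem_Fd hFm hFm))
      exact Fd_mono (by omega) this
    have h1 := hz _ hw
    have h2 : (f - F) * ((f + F) * (f * f + F * F)) = f ^ 4 - F ^ 4 := by ring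
    rw [h2, map_sub] at h1
    linarith
  have e2 : G.Ex γ (f * f) = G.Ex γ (F * F) := by
    have h1 := hz _ (Fd_mono (by omega : d ≤ 3 * d) hsum)
    have h2 : (f - F) * (f + F) = f * f - F * F := by ring
    rw [h2, map_sub] at h1
    linarith
  have e3 : G.Ex γ (F * F) = ∑ S ∈ Y, α S ^ 2 := G.repSet_norm hG γ hV hY Y (Finset.Subset.refl _) α
  have h1 : G.Ex γ (F ^ 4) ≤ avg (fun x => G.Phi Y α x ^ 4) := G.ex_four hG γ hV Y α
  have h2 := bonami (G.phi_mem hG hY α)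
  have h3 := G.phi_sq hG hΔ hd hY α
  have h4 : 0 ≤ avg (fun x => G.Phi Y α x ^ 2) := by
    unfold avg
    positivity
  rw [e4, e2, e3]
  calc G.Ex γ (F ^ 4) ≤ avg (fun x => G.Phi Y α x ^ 4) := h1
    _ ≤ 64 ^ (5 * d) * (avg (fun x => G.Phi Y α x ^ 2)) ^ 2 := h2
    _ ≤ 64 ^ (5 * d) * (2 ^ ((4 * Δ + 8) * d) * ∑ S ∈ Y, α S ^ 2) ^ 2 := by
        gcongr
    _ = (2 ^ (8 * Δ + 46)) ^ d * (∑ S ∈ Y, α S ^ 2) ^ 2 := by
        have h64 : (64 : ℝ) = 2 ^ 6 := by norm_num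
        rw [h64, ← pow_mul, ← pow_mul, mul_pow, ← pow_mul, ← mul_assoc, ← pow_add]
        congr 2
        ring

theorem nrm_mul (hG : G.Expands) {Δ : ℕ} (hΔ : G.DegLE Δ) (γ : Cube V) {d : ℕ}
    (hd : 32 * d < Fintype.card V) {f g : Cube E → ℝ} (hf : f ∈ Fd E d) (hg : g ∈ Fd E d) :
    G.nrm γ (f * g) ≤ (2 ^ (8 * Δ + 46)) ^ d * (G.nrm γ f * G.nrm γ g) := by
  have hD : 8 * (4 * d) < Fintype.card V := by omega
  set K : ℝ := (2 ^ (8 * Δ + 46)) ^ d with hK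
  have hK1 : 1 ≤ K := one_le_pow₀ (one_le_pow₀ (by norm_num))
  have hK0 : 0 ≤ K := by linarith
  have hnn : ∀ h : Cube E → ℝ, 0 ≤ G.nrm γ h := fun h => Real.sqrt_nonneg _
  have hsq : ∀ h ∈ Fd E d, G.nrm γ h ^ 2 = G.Ex γ (h * h) := by
    intro h hh
    exact (G.world hG γ (4 * d) hD).N_sq (Fd_mono (by omega : d ≤ 4 * d) hh)
  have hfour : ∀ h ∈ Fd E d, G.nrm γ (h * h) ^ 2 ≤ K * (G.nrm γ h ^ 2) ^ 2 := by
    intro h hh
    have h1 : G.nrm γ (h * h) ^ 2 = G.Ex γ ((h * h) * (h * h)) :=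
      (G.world hG γ (4 * d) hD).N_sq (Fd_mono (by omega : d + d ≤ 4 * d) (mul_mem_Fd hh hh))
    have h2 : (h * h) * (h * h) = h ^ 4 := by ring
    rw [h1, h2, hsq h hh]
    exact G.ex_pow_four hG hΔ γ hd hh
  have hcs : |G.Ex γ ((f * f) * (g * g))| ≤ G.nrm γ (f * f) * G.nrm γ (g * g) :=
    (G.world hG γ (4 * d) hD).cs (Fd_mono (by omega : d + d ≤ 4 * d) (mul_mem_Fd hf hf))
      (Fd_mono (by omega : d + d ≤ 4 * d) (mul_mem_Fd hg hg))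
  have h5 : G.nrm γ (f * f) * G.nrm γ (g * g) ≤ K * (G.nrm γ f * G.nrm γ g) ^ 2 := by
    have h6 := hfour f hf
    have h7 := hfour g hg
    refine le_of_sq_le_sq ?_ (by positivity)
    calc (G.nrm γ (f * f) * G.nrm γ (g * g)) ^ 2
        = G.nrm γ (f * f) ^ 2 * G.nrm γ (g * g) ^ 2 := by ring
      _ ≤ (K * (G.nrm γ f ^ 2) ^ 2) * (K * (G.nrm γ g ^ 2) ^ 2) := by
          gcongr
      _ = (K * (G.nrm γ f * G.nrm γ g) ^ 2) ^ 2 := by ring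
  have h8 : (f * g) * (f * g) = (f * f) * (g * g) := by ring
  unfold nrm at *
  rw [h8]
  refine Real.sqrt_le_iff.2 ⟨by positivity, ?_⟩
  refine (le_abs_self _).trans (hcs.trans (h5.trans ?_))
  have h9 : K ≤ K ^ 2 := by nlinarith
  exact le_trans (mul_le_mul_of_nonneg_right h9 (sq_nonneg _)) (le_of_eq (by ring))

end Pool.Agent.MP_9cec2c_lc.SL.MG
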