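import Pool.Agent.Lib.MP_9cec2c_lc.SL.Nnf

/-!
Definitions and TASK Idx: the finite set of the formulas in negation normal form that occur in a list of
lines: all subformulas of `nnf (L i)` and of its dual.
`card_subs`: `|subs A| + 1 ≤ 2 |A|`. `subs_size`: subformulas are not larger. `subs_trans`,
`subs_dual`: `B ∈ subs A → dual B ∈ subs (dual A)`; with `dual_dual` the set `idx` is closed under `dual`.
-/

set_option autoImplicit false

open Finset
open scoped Classical

namespace Pool.Agent.MP_9cec2c_lc.SL

/-- The subformulas. -/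
noncomputable def Fm.subs {Λ : Type} : Fm Λ → Finset (Fm Λ)
  | Fm.lit l => {Fm.lit l}
  | Fm.tt => {Fm.tt}
  | Fm.ff => {Fm.ff}
  | Fm.and A B => {Fm.and A B} ∪ (A.subs ∪ B.subs)
  | Fm.or A B => {Fm.or A B} ∪ (A.subs ∪ B.subs)

/-- All subformulas of the negation normal forms of the lines and of their negations. -/
noncomputable def idx {X : Type} {l : ℕ} (L : Fin l → Form X) : Finset (Fm (X × Bool)) :=
  univ.biUnion (fun i => (nnf (L i)).subs ∪ ((nnf (L i)).dual flip).subs)

private lemma Idx_size_pos {Λ : Type} (A : Fm Λ) : 1 ≤ A.size := by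
  induction A with
  | lit l => exact le_refl _
  | tt => exact le_refl _
  | ff => exact le_refl _
  | and A B ihA ihB => simp only [Fm.size]; omega
  | or A B ihA ihB => simp only [Fm.size]; omega

private lemma Idx_self {Λ : Type} (A : Fm Λ) : A ∈ A.subs := by
  cases A <;> simp [Fm.subs]

private lemma Idx_trans {Λ : Type} (A B : Fm Λ) (h : B ∈ A.subs) : B.subs ⊆ A.subs := by
  induction A with
  | lit l =>
    simp only [Fm.subs, mem_singleton] at h
    rw [h]
  | tt =>
    simp only [Fm.subs, mem_singleton] at h
    rw [h]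
  | ff =>
    simp only [Fm.subs, mem_singleton] at h
    rw [h]
  | and A₁ A₂ ih1 ih2 =>
    simp only [Fm.subs, mem_union, mem_singleton] at h
    rcases h with h | h | h
    · rw [h]
    · exact (ih1 h).trans (fun x hx => by
        simp only [Fm.subs, mem_union, mem_singleton]
        exact Or.inr (Or.inl hx))
    · exact (ih2 h).trans (fun x hx => by
        simp only [Fm.subs, mem_union, mem_singleton]
        exact Or.inr (Or.inr hx))
  | or A₁ A₂ ih1 ih2 =>
    simp only [Fm.subs, mem_union, mem_singleton] at h
    rcases h with h | h | h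
    · rw [h]
    · exact (ih1 h).trans (fun x hx => by
        simp only [Fm.subs, mem_union, mem_singleton]
        exact Or.inr (Or.inl hx))
    · exact (ih2 h).trans (fun x hx => by
        simp only [Fm.subs, mem_union, mem_singleton]
        exact Or.inr (Or.inr hx))

private lemma Idx_subs_size {Λ : Type} (A B : Fm Λ) (h : B ∈ A.subs) : B.size ≤ A.size := by
  induction A with
  | lit l =>
    simp only [Fm.subs, mem_singleton] at h
    rw [h]
  | tt =>
    simp only [Fm.subs, mem_singleton] at h
    rw [h]
  | ff =>
    simp only [Fm.subs, mem_singleton] at h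
    rw [h]
  | and A₁ A₂ ih1 ih2 =>
    simp only [Fm.subs, mem_union, mem_singleton] at h
    rcases h with h | h | h
    · rw [h]
    · have := ih1 h
      simp only [Fm.size]
      omega
    · have := ih2 h
      simp only [Fm.size]
      omega
  | or A₁ A₂ ih1 ih2 =>
    simp only [Fm.subs, mem_union, mem_singleton] at h
    rcases h with h | h | h
    · rw [h]
    · have := ih1 h
      simp only [Fm.size]
      omega
    · have := ih2 h
      simp only [Fm.size]
      omega

private lemma Idx_subs_dual {Λ : Type} (neg : Λ → Λ) (A B : Fm Λ) (h : B ∈ A.subs) :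
    B.dual neg ∈ (A.dual neg).subs := by
  induction A with
  | lit l =>
    simp only [Fm.subs, mem_singleton] at h
    rw [h]
    exact Idx_self _
  | tt =>
    simp only [Fm.subs, mem_singleton] at h
    rw [h]
    exact Idx_self _
  | ff =>
    simp only [Fm.subs, mem_singleton] at h
    rw [h]
    exact Idx_self _
  | and A₁ A₂ ih1 ih2 =>
    simp only [Fm.subs, mem_union, mem_singleton] at h
    rcases h with h | h | h
    · rw [h]
      exact Idx_self _
    · have := ih1 h
      simp only [Fm.dual, Fm.subs, mem_union, mem_singleton]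
      exact Or.inr (Or.inl this)
    · have := ih2 h
      simp only [Fm.dual, Fm.subs, mem_union, mem_singleton]
      exact Or.inr (Or.inr this)
  | or A₁ A₂ ih1 ih2 =>
    simp only [Fm.subs, mem_union, mem_singleton] at h
    rcases h with h | h | h
    · rw [h]
      exact Idx_self _
    · have := ih1 h
      simp only [Fm.dual, Fm.subs, mem_union, mem_singleton]
      exact Or.inr (Or.inl this)
    · have := ih2 h
      simp only [Fm.dual, Fm.subs, mem_union, mem_singleton]
      exact Or.inr (Or.inr this)

theorem card_subs {Λ : Type} (A : Fm Λ) : A.subs.card + 1 ≤ 2 * A.size := by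
  induction A with
  | lit l => simp [Fm.subs, Fm.size]
  | tt => simp [Fm.subs, Fm.size]
  | ff => simp [Fm.subs, Fm.size]
  | and A B ihA ihB =>
    have h1 : (Fm.and A B).subs.card ≤ 1 + (A.subs.card + B.subs.card) := by
      simp only [Fm.subs]
      refine (card_union_le _ _).trans ?_
      rw [card_singleton]
      exact Nat.add_le_add_left (card_union_le _ _) _
    simp only [Fm.size]
    omega
  | or A B ihA ihB =>
    have h1 : (Fm.or A B).subs.card ≤ 1 + (A.subs.card + B.subs.card) := by
      simp only [Fm.subs]
      refine (card_union_le _ _).trans ?_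
      rw [card_singleton]
      exact Nat.add_le_add_left (card_union_le _ _) _
    simp only [Fm.size]
    omega

theorem card_idx {X : Type} {l s : ℕ} (L : Fin l → Form X) (hL : ∀ i, (L i).size ≤ s) :
    (idx L).card ≤ 4 * s * l := by
  unfold idx
  refine card_biUnion_le.trans ?_
  have h : ∀ i ∈ (univ : Finset (Fin l)),
      ((nnf (L i)).subs ∪ ((nnf (L i)).dual flip).subs).card ≤ 4 * s := by
    intro i _
    have h1 := card_subs (nnf (L i))
    have h2 := card_subs ((nnf (L i)).dual flip)
    have h3 := dual_size flip (nnf (L i))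
    have h4 := nnf_size (L i)
    have h5 := hL i
    have h6 := card_union_le (nnf (L i)).subs ((nnf (L i)).dual flip).subs
    omega
  refine (sum_le_card_nsmul _ _ _ h).trans ?_
  rw [card_univ, Fintype.card_fin, smul_eq_mul]
  exact le_of_eq (by ring)

theorem idx_size {X : Type} {l s : ℕ} (L : Fin l → Form X) (hL : ∀ i, (L i).size ≤ s)
    (A : Fm (X × Bool)) (hA : A ∈ idx L) : A.size ≤ s := by
  unfold idx at hA
  simp only [mem_biUnion, mem_univ, true_and, mem_union] at hA
  obtain ⟨i, hi⟩ := hA
  have h3 := dual_size flip (nnf (L i))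
  have h4 := nnf_size (L i)
  have h5 := hL i
  rcases hi with hi | hi
  · have := Idx_subs_size _ _ hi
    omega
  · have := Idx_subs_size _ _ hi
    omega

theorem idx_line {X : Type} {l : ℕ} (L : Fin l → Form X) (i : Fin l) : nnf (L i) ∈ idx L := by
  unfold idx
  simp only [mem_biUnion, mem_univ, true_and, mem_union]
  exact ⟨i, Or.inl (Idx_self _)⟩

theorem idx_dual {X : Type} {l : ℕ} (L : Fin l → Form X) {A : Fm (X × Bool)} (hA : A ∈ idx L) :
    A.dual flip ∈ idx L := by
  unfold idx at hA ⊢
  simp only [mem_biUnion, mem_univ, true_and, mem_union] at hA ⊢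
  obtain ⟨i, hi⟩ := hA
  refine ⟨i, ?_⟩
  rcases hi with hi | hi
  · exact Or.inr (Idx_subs_dual _ _ _ hi)
  · left
    have := Idx_subs_dual flip _ _ hi
    rw [dual_dual] at this
    exact this

private lemma Idx_down {X : Type} {l : ℕ} (L : Fin l → Form X) {A B : Fm (X × Bool)}
    (hA : A ∈ idx L) (hB : B ∈ A.subs) : B ∈ idx L := by
  unfold idx at hA ⊢
  simp only [mem_biUnion, mem_univ, true_and, mem_union] at hA ⊢
  obtain ⟨i, hi⟩ := hA
  refine ⟨i, ?_⟩
  rcases hi with hi | hi
  · exact Or.inl (Idx_trans _ _ hi hB)
  · exact Or.inr (Idx_trans _ _ hi hB)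

theorem idx_and {X : Type} {l : ℕ} (L : Fin l → Form X) {A B : Fm (X × Bool)}
    (hA : A.and B ∈ idx L) : A ∈ idx L ∧ B ∈ idx L := by
  constructor
  · refine Idx_down L hA ?_
    simp only [Fm.subs, mem_union, mem_singleton]
    exact Or.inr (Or.inl (Idx_self _))
  · refine Idx_down L hA ?_
    simp only [Fm.subs, mem_union, mem_singleton]
    exact Or.inr (Or.inr (Idx_self _))

theorem idx_or {X : Type} {l : ℕ} (L : Fin l → Form X) {A B : Fm (X × Bool)}
    (hA : A.or B ∈ idx L) : A ∈ idx L ∧ B ∈ idx L := by
  constructor
  · refine Idx_down L hA ?_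
    simp only [Fm.subs, mem_union, mem_singleton]
    exact Or.inr (Or.inl (Idx_self _))
  · refine Idx_down L hA ?_
    simp only [Fm.subs, mem_union, mem_singleton]
    exact Or.inr (Or.inr (Idx_self _))

end Pool.Agent.MP_9cec2c_lc.SL
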