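import Pool.Agent.Lib.MP_9cec2c_lc.SL.StageG

/-!
TASK Iter: `T` stages. Induction on `T`, for all `m`, `g`, `γ`, `a`, `B`, `ε`. Put
`ζ = ((2^398)² θ)^(2^gT) ≤ 1`.
`T = 0`: `m = mT`, `g = gT`, take `γ' = γ`, `a' = a` (bound `1 · 1 · (ε + ζ) ≥ ε`).
Step `T → T + 1`: `m = (mT + T t) + t`, put `m' = mT + T t`, `g' = gT + T (t - l)`, so `g' + t = g + l`
(`g = gT + (T+1)(t-l)`). `stageG` (with `subst`, so that the type is literally `Vm (m' + t)`) gives charges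
`γ₁` and elements `a₁` of degree `≤ 2^(g')` for `G_m'` with norms `≤ 2 Q B` and defects
`≤ ε₁ = 20 Q B² (ε + ζ₁)`, `ζ₁ = ((2^398)² θ)^(2^(g')) ≤ ζ`. Its hypothesis `h3`: `5 + g + l < m'`:
`g + l = g' + t = gT + T (t-l) + t ≤ gT + T t + t` and `5 + gT + t < mT`. `h4`: `7 ≤ gT ≤ g'`.
Then the induction hypothesis for `B₁ = 2 Q B`, `ε₁` (`m' ≤ m`: `h1`, `h5`, `hQ` are monotone in `m`):
norms `≤ (2Q)^T (2 Q B)`, defects `≤ P_T(B₁)^T (T+1) (ε₁ + ζ)`, `P_T(B) = 20 Q (2Q)^(2T) B²`. Since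
`P_T(B₁) = 20 Q (2Q)^(2T+2) B² = P_(T+1)(B) =: P ≥ 1` and `ε₁ ≤ 20 Q B² (ε + ζ) ≤ P (ε + ζ)`,
`ε₁ + ζ ≤ P (ε + ζ) + ζ`; `P^T (T+1) (P (ε+ζ) + ζ) ≤ P^(T+1) (T+1)(ε+ζ) + P^T (T+1) ζ`. This is at most
`P^(T+1) (T+2) (ε + ζ)` because `P^T (T+1) ≤ P^(T+1)`: indeed `P ≥ 2^(2T) · 20 ≥ T + 1`.
-/

set_option autoImplicit false

open Finset
open scoped Classical

namespace Pool.Agent.MP_9cec2c_lc.SL

private theorem Iter_one_le {Q B : ℝ} (hQ1 : 1 ≤ Q) (hB : 1 ≤ B) : 1 ≤ 2 * Q * B := by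
  nlinarith

private theorem Iter_h1 {m' t k₀ : ℕ}
    (h1 : 22 * (2 : ℝ) ^ (m' + t) * (22 * ((m' + t : ℕ) : ℝ) / 2 ^ t) ^ k₀ ≤ 1 / 4) :
    22 * (2 : ℝ) ^ m' * (22 * (m' : ℝ) / 2 ^ t) ^ k₀ ≤ 1 / 4 := by
  have hmR : (m' : ℝ) ≤ ((m' + t : ℕ) : ℝ) := by
    exact_mod_cast Nat.le_add_right m' t
  refine le_trans ?_ h1
  have e1 : (2 : ℝ) ^ m' ≤ 2 ^ (m' + t) :=
    pow_le_pow_right₀ (by norm_num) (Nat.le_add_right m' t)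
  have e2 : (22 * (m' : ℝ) / 2 ^ t) ^ k₀ ≤ (22 * ((m' + t : ℕ) : ℝ) / 2 ^ t) ^ k₀ := by
    refine pow_le_pow_left₀ (by positivity) ?_ k₀
    gcongr
  have e3 : (0 : ℝ) ≤ (22 * (m' : ℝ) / 2 ^ t) ^ k₀ := by positivity
  calc 22 * (2 : ℝ) ^ m' * (22 * (m' : ℝ) / 2 ^ t) ^ k₀
      ≤ 22 * (2 : ℝ) ^ (m' + t) * (22 * (m' : ℝ) / 2 ^ t) ^ k₀ := by gcongr
    _ ≤ 22 * (2 : ℝ) ^ (m' + t) * (22 * ((m' + t : ℕ) : ℝ) / 2 ^ t) ^ k₀ := by gcongr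

private theorem Iter_fin (T : ℕ) {Q B ε ζ ζ₁ : ℝ} (hQ1 : 1 ≤ Q) (hB : 1 ≤ B) (hε : 0 < ε)
    (hζ0 : 0 < ζ) (hζ1 : 0 < ζ₁) (hζle : ζ₁ ≤ ζ) :
    (20 * Q * (2 * Q) ^ (2 * T) * (2 * Q * B) ^ 2) ^ T * ((T : ℝ) + 1) *
        (20 * Q * B ^ 2 * (ε + ζ₁) + ζ) ≤
      (20 * Q * (2 * Q) ^ (2 * (T + 1)) * B ^ 2) ^ (T + 1) * (((T + 1 : ℕ) : ℝ) + 1) * (ε + ζ) := by
  have hP : 20 * Q * (2 * Q) ^ (2 * T) * (2 * Q * B) ^ 2 =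
      20 * Q * (2 * Q) ^ (2 * (T + 1)) * B ^ 2 := by ring
  rw [hP]
  obtain ⟨R, hR⟩ : ∃ R, R = (2 * Q) ^ (2 * (T + 1)) := ⟨_, rfl⟩
  have hpow1 : 1 ≤ R := by
    rw [hR]
    exact one_le_pow₀ (by linarith)
  have hpow2 : (T : ℝ) + 1 ≤ R := by
    rw [hR]
    have e1 : ((T + 1 : ℕ) : ℝ) ≤ (2 : ℝ) ^ (T + 1) := by
      exact_mod_cast (Nat.lt_two_pow_self (n := T + 1)).le
    have e2 : (2 : ℝ) ^ (T + 1) ≤ 2 ^ (2 * (T + 1)) :=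
      pow_le_pow_right₀ (by norm_num) (by omega)
    have e3 : (2 : ℝ) ^ (2 * (T + 1)) ≤ (2 * Q) ^ (2 * (T + 1)) :=
      pow_le_pow_left₀ (by norm_num) (by linarith) _
    push_cast at e1
    linarith
  rw [← hR]
  have hB2 : 1 ≤ B ^ 2 := one_le_pow₀ hB
  have hQB : 1 ≤ Q * B ^ 2 := by nlinarith
  obtain ⟨P, hPdef⟩ : ∃ P, P = 20 * Q * R * B ^ 2 := ⟨_, rfl⟩
  rw [← hPdef]
  have hP1 : 20 * Q * B ^ 2 ≤ P := by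
    have e : P = 20 * (Q * B ^ 2) * R := by rw [hPdef]; ring
    rw [e]
    nlinarith
  have hP2 : (T : ℝ) + 1 ≤ P := by
    have e : P = 20 * (Q * B ^ 2) * R := by rw [hPdef]; ring
    rw [e]
    nlinarith
  have hP0 : 0 < P := by nlinarith
  have hPT : (0 : ℝ) < P ^ T := pow_pos hP0 T
  have hT0 : (0 : ℝ) ≤ (T : ℝ) := Nat.cast_nonneg T
  have s1 : 20 * Q * B ^ 2 * (ε + ζ₁) ≤ P * (ε + ζ) :=
    mul_le_mul hP1 (by linarith) (by linarith) hP0.le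
  have s2 : P ^ T * ((T : ℝ) + 1) * (20 * Q * B ^ 2 * (ε + ζ₁) + ζ) ≤
      P ^ T * ((T : ℝ) + 1) * (P * (ε + ζ) + ζ) :=
    mul_le_mul_of_nonneg_left (by linarith) (by positivity)
  have s3 : P ^ T * (((T : ℝ) + 1) * ζ) ≤ P ^ T * (P * (ε + ζ)) :=
    mul_le_mul_of_nonneg_left (mul_le_mul hP2 (by linarith) hζ0.le hP0.le) hPT.le
  have s4 : P ^ (T + 1) = P ^ T * P := pow_succ P T
  push_cast
  rw [s4]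
  calc P ^ T * ((T : ℝ) + 1) * (20 * Q * B ^ 2 * (ε + ζ₁) + ζ)
      ≤ P ^ T * ((T : ℝ) + 1) * (P * (ε + ζ) + ζ) := s2
    _ = P ^ T * P * ((T : ℝ) + 1) * (ε + ζ) + P ^ T * (((T : ℝ) + 1) * ζ) := by ring
    _ ≤ P ^ T * P * ((T : ℝ) + 1) * (ε + ζ) + P ^ T * (P * (ε + ζ)) := by linarith
    _ = P ^ T * P * ((T : ℝ) + 1 + 1) * (ε + ζ) := by ring

private theorem Iter_pow {θ : ℝ} (hη0 : 0 < θ) (hη1 : θ ≤ 1) {a b : ℕ} (h : a ≤ b) :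
    θ ^ (2 ^ b) ≤ θ ^ (2 ^ a) :=
  pow_le_pow_of_le_one hη0.le hη1 (Nat.pow_le_pow_right (by norm_num) h)

private theorem Iter_zero {x ε : ℝ} {ζ : ℝ} (hζ0 : 0 < ζ) (hx : x ≤ ε) :
    x ≤ (1 : ℝ) * (((0 : ℕ) : ℝ) + 1) * (ε + ζ) := by
  rw [Nat.cast_zero, zero_add, one_mul, one_mul]
  linarith

private theorem Iter_mono {c x y z : ℝ} (hc : 0 ≤ c) (hxy : x ≤ y) (h : c * y ≤ z) :
    c * x ≤ z := (mul_le_mul_of_nonneg_left hxy hc).trans h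

theorem iter {mT gT t l k₀ : ℕ} (ht : l < t) (hk : 1 ≤ k₀) (h2 : 88 * k₀ ≤ 2 ^ l)
    (h3 : 5 + gT + t + l < mT) (h4 : 7 ≤ gT) {θ : ℝ} (hθ : 0 < θ)
    (hθ1 : (2 ^ 398) ^ 2 * θ ≤ 1 / 2) {ι : Type} [Fintype ι] [Nonempty ι] {Q : ℝ} (hQ1 : 1 ≤ Q)
    (T : ℕ) : ∀ (m g : ℕ) (_ : m = mT + T * t) (_ : g = gT + T * (t - l))
      (_ : 22 * (2 : ℝ) ^ m * (22 * (m : ℝ) / 2 ^ t) ^ k₀ ≤ 1 / 4)
      (_ : 11616 * (m : ℝ) ≤ θ ^ 352 * 2 ^ l) (_ : 8 * (Fintype.card ι : ℝ) ^ 3 * (m + 1) ≤ Q)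
      (γ : Cube (Vm m)) (a : ι → Cube (Em m) → ℝ) (_ : ∀ A, a A ∈ Fd (Em m) (2 ^ g)) (B ε : ℝ)
      (_ : 1 ≤ B) (_ : 0 < ε) (_ : ∀ A, (Gm m).nrm γ (a A) ≤ B),
      ∃ (γ' : Cube (Vm mT)) (a' : ι → Cube (Em mT) → ℝ), ∑ u, γ' u = ∑ v, γ v ∧
        (∀ A, a' A ∈ Fd (Em mT) (2 ^ gT)) ∧ (∀ A, (Gm mT).nrm γ' (a' A) ≤ (2 * Q) ^ T * B) ∧
        ∀ ρ : Rl ι, (Gm m).nrm γ (ρ.ev a) ≤ ε →
          (Gm mT).nrm γ' (ρ.ev a') ≤ (20 * Q * (2 * Q) ^ (2 * T) * B ^ 2) ^ T * (T + 1) *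
            (ε + ((2 ^ 398) ^ 2 * θ) ^ (2 ^ gT)) := by
  have hη0 : (0 : ℝ) < (2 ^ 398) ^ 2 * θ := mul_pos (pow_pos (pow_pos two_pos _) _) hθ
  have hη1 : (2 ^ 398 : ℝ) ^ 2 * θ ≤ 1 := hθ1.trans one_half_lt_one.le
  have hζ0 : (0 : ℝ) < ((2 ^ 398) ^ 2 * θ) ^ (2 ^ gT) := pow_pos hη0 _
  induction T with
  | zero =>
    intro m g hm hg h1 h5 hQ γ a ha B ε hB hε haB
    rw [Nat.zero_mul, Nat.add_zero] at hm hg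
    subst hm
    subst hg
    refine ⟨γ, a, rfl, ha, fun A => ?_, fun ρ hρ => ?_⟩
    · rw [pow_zero, one_mul]
      exact haB A
    · rw [pow_zero]
      exact Iter_zero hζ0 hρ
  | succ T ih =>
    intro m g hm hg h1 h5 hQ γ a ha B ε hB hε haB
    obtain ⟨m', hm'⟩ : ∃ m', m' = mT + T * t := ⟨_, rfl⟩
    obtain ⟨g', hg'⟩ : ∃ g', g' = gT + T * (t - l) := ⟨_, rfl⟩
    obtain rfl : m = m' + t := by
      rw [hm, hm', Nat.succ_mul]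
      omega
    have hgg : g' + t = g + l := by
      rw [hg, hg', Nat.succ_mul]
      omega
    have h3' : 5 + g + l < m' := by
      have h6 : T * (t - l) ≤ T * t := Nat.mul_le_mul_left T (Nat.sub_le t l)
      have h7 : g + l = gT + T * (t - l) + t := by rw [← hgg, hg']
      rw [hm']
      omega
    have h4' : 7 ≤ g' := by
      rw [hg']
      omega
    have hgT : gT ≤ g' := by
      rw [hg']
      omega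
    obtain ⟨γ₁, a₁, hsum₁, hdeg₁, hnrm₁, hdef₁⟩ :=
      stageG (by omega) hgg hk h1 h2 h3' h4' hθ hθ1 h5 γ a ha hB hε haB hQ
    have hmR : (m' : ℝ) ≤ ((m' + t : ℕ) : ℝ) := Nat.cast_le.mpr (Nat.le_add_right m' t)
    have h5' : 11616 * (m' : ℝ) ≤ θ ^ 352 * 2 ^ l := Iter_mono (by norm_num) hmR h5
    have hQ' : 8 * (Fintype.card ι : ℝ) ^ 3 * ((m' : ℝ) + 1) ≤ Q :=
      Iter_mono (mul_nonneg (by norm_num) (pow_nonneg (Nat.cast_nonneg _) _))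
        (add_le_add_left hmR 1) hQ
    have hζ1 : (0 : ℝ) < ((2 ^ 398) ^ 2 * θ) ^ (2 ^ g') := pow_pos hη0 _
    have hζle : ((2 ^ 398 : ℝ) ^ 2 * θ) ^ (2 ^ g') ≤ ((2 ^ 398) ^ 2 * θ) ^ (2 ^ gT) :=
      Iter_pow hη0 hη1 hgT
    have hQ0 : 0 < Q := lt_of_lt_of_le one_pos hQ1
    have hB0 : 0 < B := lt_of_lt_of_le one_pos hB
    have hε₁ : 0 < 20 * Q * B ^ 2 * (ε + ((2 ^ 398) ^ 2 * θ) ^ (2 ^ g')) :=
      mul_pos (mul_pos (mul_pos (by norm_num) hQ0) (pow_pos hB0 2)) (add_pos hε hζ1)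
    obtain ⟨γ', a', hsum', hdeg', hnrm', hdef'⟩ :=
      ih m' g' hm' hg' (Iter_h1 h1) h5' hQ' γ₁ a₁ hdeg₁ (2 * Q * B)
        (20 * Q * B ^ 2 * (ε + ((2 ^ 398) ^ 2 * θ) ^ (2 ^ g'))) (Iter_one_le hQ1 hB) hε₁ hnrm₁
    refine ⟨γ', a', hsum'.trans hsum₁, hdeg', fun A => ?_, fun ρ hρ => ?_⟩
    · refine (hnrm' A).trans (le_of_eq ?_)
      rw [pow_succ, mul_assoc, mul_assoc, mul_assoc]
    · exact (hdef' ρ (hdef₁ ρ hρ)).trans (Iter_fin T hQ1 hB hε hζ0 hζ1 hζle)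

end Pool.Agent.MP_9cec2c_lc.SL
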