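import Pool.Agent.Lib.MP_9cec2c_lc.SL.MleA
import Pool.Agent.Lib.MP_9cec2c_lc.SL.NBasic

/-!
TASK MleB: multilinear extensions of monomials, degrees.
-/

set_option autoImplicit false

open Finset

namespace Pool.Agent.MP_9cec2c_lc.SL

variable {R : Type} [CommRing R] [Algebra ℝ R] {r : ℕ}

/-- The multilinear extension of a monomial is the product (induction on `r` with `mle_succ`, or:
`mle h p` for `h b = ∏ i, h_i (b i)` is `∏ i, (h_i false (1 - p i) + h_i true p i)`). -/
theorem mle_mono (T : Finset (Fin r)) (p : Fin r → R) : mle (mono T) p = ∏ i ∈ T, p i := by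
  have h1 : ∀ b : Fin r → Bool, algebraMap ℝ R (mono T b) *
      ∏ i, (if b i = true then p i else 1 - p i) =
      ∏ i, ((if i ∈ T then (if b i = true then (1 : R) else 0) else 1) *
        (if b i = true then p i else 1 - p i)) := by
    intro b
    rw [Finset.prod_mul_distrib]
    congr 1
    unfold mono
    by_cases h : ∀ i ∈ T, b i = true
    · rw [if_pos h, map_one]
      symm
      refine Finset.prod_eq_one fun i _ => ?_
      by_cases hi : i ∈ T
      · rw [if_pos hi, if_pos (h i hi)]
      · rw [if_neg hi]
    · rw [if_neg h, map_zero]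
      symm
      push Not at h
      obtain ⟨i, hi, hb⟩ := h
      refine Finset.prod_eq_zero (Finset.mem_univ i) ?_
      rw [if_pos hi, if_neg hb]
  unfold mle
  rw [Finset.sum_congr rfl fun b _ => h1 b]
  have h2 := Finset.prod_univ_sum (fun _ : Fin r => (Finset.univ : Finset Bool))
    (fun i c => (if i ∈ T then (if c = true then (1 : R) else 0) else 1) *
        (if c = true then p i else 1 - p i))
  rw [Fintype.piFinset_univ] at h2
  rw [← h2]
  have h3 : ∀ i : Fin r, ∑ c : Bool, (if i ∈ T then (if c = true then (1 : R) else 0) else 1) *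
        (if c = true then p i else 1 - p i) = if i ∈ T then p i else 1 := by
    intro i
    rw [Fintype.sum_bool]
    by_cases hi : i ∈ T
    · simp [hi]
    · simp [hi]
  rw [Finset.prod_congr rfl fun i _ => h3 i, Finset.prod_ite_mem, Finset.univ_inter]

private theorem prod_mem_F (W : World R) {ι : Type} {c : ℕ} (s : Finset ι) {q : ι → R}
    (hq : ∀ i, q i ∈ W.F c) : ∏ i ∈ s, q i ∈ W.F (s.card * c) := by
  classical
  induction s using Finset.induction_on with
  | empty => simpa using W.one_mem' 0
  | insert a s ha ih =>
    rw [Finset.prod_insert ha, Finset.card_insert_of_notMem ha]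
    refine W.F_mono (c + s.card * c) _ (by ring_nf; omega) ?_
    exact W.mul_mem _ _ _ _ (hq a) ih

/-- The multilinear extension of any function of `r` elements of degree `≤ c` has degree `≤ r c`. -/
theorem mle_mem (W : World R) {c : ℕ} (h : (Fin r → Bool) → ℝ) {p : Fin r → R}
    (hp : ∀ i, p i ∈ W.F c) : mle h p ∈ W.F (r * c) := by
  unfold mle
  refine Submodule.sum_mem _ fun b _ => ?_
  rw [← Algebra.smul_def]
  refine Submodule.smul_mem _ _ ?_
  have h1 := prod_mem_F W (Finset.univ : Finset (Fin r))
    (q := fun i => if b i = true then p i else 1 - p i) (c := c) (by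
      intro i
      split_ifs
      · exact hp i
      · exact Submodule.sub_mem _ (W.one_mem' c) (hp i))
  rwa [Finset.card_univ, Fintype.card_fin] at h1

/-- The multilinear extension of a function of degree `≤ d` (span of monomials, `mle_mono`,
linearity of `mle` in `h`). -/
theorem mle_mem_deg (W : World R) {c d : ℕ} {h : (Fin r → Bool) → ℝ} (hh : h ∈ DegLE r d)
    {p : Fin r → R} (hp : ∀ i, p i ∈ W.F c) : mle h p ∈ W.F (d * c) := by
  unfold DegLE at hh
  induction hh using Submodule.span_induction with
  | mem f hf =>
    obtain ⟨T, hT, rfl⟩ := hf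
    rw [mle_mono]
    exact W.F_mono _ _ (Nat.mul_le_mul_right c hT) (prod_mem_F W T hp)
  | zero =>
    have h1 : mle (0 : (Fin r → Bool) → ℝ) p = 0 := by simp [mle]
    rw [h1]
    exact Submodule.zero_mem _
  | add f g _ _ hf hg =>
    have h1 : mle (f + g) p = mle f p + mle g p := mle_add f g p
    rw [h1]
    exact Submodule.add_mem _ hf hg
  | smul a f _ hf =>
    have h1 : mle (a • f) p = a • mle f p := mle_smul a f p
    rw [h1]
    exact Submodule.smul_mem _ _ hf

end Pool.Agent.MP_9cec2c_lc.SL
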