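import Pool.Agent.Lib.MP_9cec2c_lc.SL.Combine
import Pool.Agent.Lib.MP_9cec2c_lc.SL.MleB

/-!
TASK J1. Induction on `r` (for all `L'`, `f`, `h`, `p`). `r = 0`: `mle h p` is a constant (`mle_zero`),
`N (x f)² = x² N(f)²`. Step: `mle_succ`, `combine` with `A = η √((1+4ε)^r)`, `b = r c` (`mle_mem`): the
hypothesis `h0`: for `f ∈ F (L' + c)` the induction hypothesis (its condition is
`(L' + c) + r c ≤ L`) gives `N (X0 f)² ≤ A² N(f)²`, hence `N (X0 f) ≤ A N(f)`.
-/

set_option autoImplicit false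

open Finset

namespace Pool.Agent.MP_9cec2c_lc.SL.World

variable {R : Type} [CommRing R] [Algebra ℝ R] (W : World R)

theorem J1 {c L r : ℕ} {ε η : ℝ} (hε : 0 ≤ ε) (hη : 0 ≤ η) (hD : L + 2 * c ≤ W.D) :
    ∀ (L' : ℕ) (p : Fin r → R) (_ : ∀ i, W.IsBit c ε L (p i)) (h : (Fin r → Bool) → ℝ)
      (_ : ∀ b, |h b| ≤ η) (_ : L' + r * c ≤ L) (f : R) (_ : f ∈ W.F L'),
      W.N (mle h p * f) ^ 2 ≤ η ^ 2 * (1 + 4 * ε) ^ r * W.N f ^ 2 := by
  induction r with
  | zero =>
    intro L' p _ h hh _ f _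
    have h1 : mle h p * f = (h default) • f := by
      rw [mle_zero, Algebra.smul_def]
    have h2 : |h default| ≤ η := hh default
    rw [h1, W.N_smul, pow_zero, mul_one, mul_pow]
    refine mul_le_mul_of_nonneg_right ?_ (sq_nonneg _)
    exact pow_le_pow_left₀ (abs_nonneg _) h2 2
  | succ r ih =>
    intro L' p hp h hh hL f hf
    have he : 0 ≤ (1 + 4 * ε) ^ r := pow_nonneg (by linarith) r
    set A := η * Real.sqrt ((1 + 4 * ε) ^ r) with hA
    have hA0 : 0 ≤ A := mul_nonneg hη (Real.sqrt_nonneg _)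
    have hA2 : A ^ 2 = η ^ 2 * (1 + 4 * ε) ^ r := by
      rw [hA, mul_pow, Real.sq_sqrt he]
    have hL1 : L' + c + r * c ≤ L := by
      have h3 : L' + (r + 1) * c = L' + c + r * c := by ring
      omega
    have hps : ∀ i : Fin r, W.IsBit c ε L (p i.succ) := fun i => hp i.succ
    have key : ∀ x : Bool, ∀ g ∈ W.F (L' + c),
        W.N (mle (fun b : Fin r → Bool => h (Fin.cons x b)) (fun i => p i.succ) * g) ≤
          A * W.N g := by
      intro x g hg
      have h4 := ih (L' + c) (fun i => p i.succ) hps (fun b : Fin r → Bool => h (Fin.cons x b))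
        (fun b => hh _) hL1 g hg
      rw [← hA2, ← mul_pow] at h4
      exact (pow_le_pow_iff_left₀ (W.N_nonneg _) (mul_nonneg hA0 (W.N_nonneg _)) two_ne_zero).mp h4
    have hmem : ∀ x : Bool,
        mle (fun b : Fin r → Bool => h (Fin.cons x b)) (fun i => p i.succ) ∈ W.F (r * c) :=
      fun x => mle_mem W _ (fun i => (hps i).mem)
    have h5 := W.combine (b := r * c) hε hA0 (hp 0) (hmem false) (hmem true) (key false)
      (key true) (by omega) hD hf
    rw [mle_succ]
    refine h5.trans (le_of_eq ?_)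
    rw [hA2, pow_succ]
    ring

end Pool.Agent.MP_9cec2c_lc.SL.World
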