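import Pool.Agent.Lib.MP_9cec2c_lc.SL.J1

/-!
TASK J2. Induction on `r` (for all `L'`, `f`, `g`, `h`, `p`). `r = 0`: the difference is 0 (constants).
Step: write `p = p 0`, `p'` for the other variables, `G0, G1, H0, H1` for the multilinear extensions of
`g (cons false ·)`, ... at `p'`, `D_b = G_b H_b - mle (g_b h_b) p'`, `u = p - p²`. By `mle_succ` (ring
identity)
`mle g p · mle h p - mle (gh) p = (1-p) D_0 + p D_1 - u (G1 - G0)(H1 - H0)`.
With `A = 4 r ε (1+4ε)^r`: `combine` (with `b = 2 r c`; `h0` is the induction hypothesis at level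
`L' + c`: `(L' + c) + 2 r c ≤ L`) gives `N (((1-p) D_0 + p D_1) f) ≤ A √(1+4ε) N f`.
`G1 - G0 = mle (g_1 - g_0) p'` with `|g_1 - g_0| ≤ 2`, so `J1` twice (for `f`, then for
`(H1 - H0) f ∈ F (r c + L')`) and `IsBit.bit` for `(G1 - G0)(H1 - H0) f ∈ F (2 r c + L')`:
`N (u (G1 - G0)(H1 - H0) f) ≤ ε · 2 √((1+4ε)^r) · 2 √((1+4ε)^r) N f = 4 ε (1+4ε)^r N f`.
Sum `≤ 4 (r+1) ε (1+4ε)^(r+1) N f`.
-/

set_option autoImplicit false

open Finset

namespace Pool.Agent.MP_9cec2c_lc.SL.World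

variable {R : Type} [CommRing R] [Algebra ℝ R] (W : World R)

private theorem J2_le {x y : ℝ} (hx : 0 ≤ x) (hy : 0 ≤ y) (h : x ^ 2 ≤ y ^ 2) : x ≤ y :=
  (pow_le_pow_iff_left₀ hx hy two_ne_zero).mp h

theorem J2 {c L r : ℕ} {ε : ℝ} (hε : 0 ≤ ε) (hD : L + 2 * c ≤ W.D) :
    ∀ (L' : ℕ) (p : Fin r → R) (_ : ∀ i, W.IsBit c ε L (p i)) (g h : (Fin r → Bool) → ℝ)
      (_ : ∀ b, |g b| ≤ 1) (_ : ∀ b, |h b| ≤ 1) (_ : L' + 2 * r * c ≤ L) (f : R) (_ : f ∈ W.F L'),
      W.N ((mle g p * mle h p - mle (fun b => g b * h b) p) * f) ≤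
        4 * r * ε * (1 + 4 * ε) ^ r * W.N f := by
  induction r with
  | zero =>
    intro L' p hp g h hg hh hL f hf
    rw [mle_zero, mle_zero, mle_zero, map_mul, sub_self, zero_mul, W.N_zero]
    simp
  | succ r ih =>
    intro L' p hp g h hg hh hL f hf
    have hL1 : L' + 2 * (r * c) + 2 * c ≤ L := by
      calc L' + 2 * (r * c) + 2 * c = L' + 2 * (r + 1) * c := by ring
        _ ≤ L := hL
    have h4 : (1 : ℝ) ≤ 1 + 4 * ε := by linarith
    have h40 : (0 : ℝ) ≤ (1 + 4 * ε) ^ r := by positivity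
    have hp0 := hp 0
    have hp' : ∀ i : Fin r, W.IsBit c ε L (p i.succ) := fun i => hp i.succ
    set G0 := mle (fun b : Fin r → Bool => g (Fin.cons false b)) (fun i => p i.succ) with hG0
    set G1 := mle (fun b : Fin r → Bool => g (Fin.cons true b)) (fun i => p i.succ) with hG1
    set H0 := mle (fun b : Fin r → Bool => h (Fin.cons false b)) (fun i => p i.succ) with hH0
    set H1 := mle (fun b : Fin r → Bool => h (Fin.cons true b)) (fun i => p i.succ) with hH1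
    set K0 := mle (fun b : Fin r → Bool => g (Fin.cons false b) * h (Fin.cons false b))
      (fun i => p i.succ) with hK0
    set K1 := mle (fun b : Fin r → Bool => g (Fin.cons true b) * h (Fin.cons true b))
      (fun i => p i.succ) with hK1
    have mem : ∀ k : (Fin r → Bool) → ℝ, mle k (fun i => p i.succ) ∈ W.F (r * c) :=
      fun k => mle_mem W k fun i => (hp' i).mem
    have e1 : mle g p * mle h p - mle (fun b => g b * h b) p =
        ((1 - p 0) * (G0 * H0 - K0) + p 0 * (G1 * H1 - K1)) +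
          (p 0 * p 0 - p 0) * ((G1 - G0) * (H1 - H0)) := by
      rw [mle_succ g p, mle_succ h p, mle_succ (fun b => g b * h b) p]
      ring
    have hb : r * c + r * c = 2 * (r * c) := by ring
    have mD0 : G0 * H0 - K0 ∈ W.F (2 * (r * c)) := by
      refine Submodule.sub_mem _ ?_ (W.F_mono _ _ (by omega) (mem _))
      rw [← hb]
      exact W.mul_mem _ _ _ _ (mem _) (mem _)
    have mD1 : G1 * H1 - K1 ∈ W.F (2 * (r * c)) := by
      refine Submodule.sub_mem _ ?_ (W.F_mono _ _ (by omega) (mem _))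
      rw [← hb]
      exact W.mul_mem _ _ _ _ (mem _) (mem _)
    have i0 : ∀ f ∈ W.F (L' + c), W.N ((G0 * H0 - K0) * f) ≤
        4 * r * ε * (1 + 4 * ε) ^ r * W.N f := fun f hf =>
      ih (L' + c) (fun i => p i.succ) hp' _ _ (fun b => hg _) (fun b => hh _)
        (by
          have : 2 * r * c = 2 * (r * c) := by ring
          omega) f hf
    have i1 : ∀ f ∈ W.F (L' + c), W.N ((G1 * H1 - K1) * f) ≤
        4 * r * ε * (1 + 4 * ε) ^ r * W.N f := fun f hf =>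
      ih (L' + c) (fun i => p i.succ) hp' _ _ (fun b => hg _) (fun b => hh _)
        (by
          have : 2 * r * c = 2 * (r * c) := by ring
          omega) f hf
    have hA : (0 : ℝ) ≤ 4 * r * ε * (1 + 4 * ε) ^ r := by positivity
    have c1 := W.combine hε hA hp0 mD0 mD1 i0 i1 (by omega) hD hf
    have n1 : W.N (((1 - p 0) * (G0 * H0 - K0) + p 0 * (G1 * H1 - K1)) * f) ≤
        4 * r * ε * (1 + 4 * ε) ^ r * (1 + 4 * ε) * W.N f := by
      refine J2_le (W.N_nonneg _) (mul_nonneg (by positivity) (W.N_nonneg _)) (c1.trans ?_)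
      have h5 : (1 + 4 * ε) ≤ (1 + 4 * ε) ^ 2 := by nlinarith
      calc (4 * r * ε * (1 + 4 * ε) ^ r) ^ 2 * (1 + 4 * ε) * W.N f ^ 2
          ≤ (4 * r * ε * (1 + 4 * ε) ^ r) ^ 2 * (1 + 4 * ε) ^ 2 * W.N f ^ 2 := by gcongr
        _ = (4 * r * ε * (1 + 4 * ε) ^ r * (1 + 4 * ε) * W.N f) ^ 2 := by ring
    -- the second part
    have eG : G1 - G0 = mle (fun b : Fin r → Bool => g (Fin.cons true b) - g (Fin.cons false b))
        (fun i => p i.succ) := (mle_sub _ _ _).symm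
    have eH : H1 - H0 = mle (fun b : Fin r → Bool => h (Fin.cons true b) - h (Fin.cons false b))
        (fun i => p i.succ) := (mle_sub _ _ _).symm
    have bd : ∀ x y : ℝ, |x| ≤ 1 → |y| ≤ 1 → |x - y| ≤ 2 := by
      intro x y hx hy
      calc |x - y| ≤ |x| + |y| := abs_sub x y
        _ ≤ 2 := by linarith
    have mG : G1 - G0 ∈ W.F (r * c) := Submodule.sub_mem _ (mem _) (mem _)
    have mH : H1 - H0 ∈ W.F (r * c) := Submodule.sub_mem _ (mem _) (mem _)
    have mHf : (H1 - H0) * f ∈ W.F (r * c + L') := W.mul_mem _ _ _ _ mH hf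
    have q1 : W.N ((H1 - H0) * f) ^ 2 ≤ 2 ^ 2 * (1 + 4 * ε) ^ r * W.N f ^ 2 := by
      rw [eH]
      exact W.J1 hε (by norm_num) hD L' _ hp' _ (fun b => bd _ _ (hh _) (hh _)) (by omega) f hf
    have q2 : W.N ((G1 - G0) * ((H1 - H0) * f)) ^ 2 ≤
        2 ^ 2 * (1 + 4 * ε) ^ r * W.N ((H1 - H0) * f) ^ 2 := by
      rw [eG]
      exact W.J1 hε (by norm_num) hD (r * c + L') _ hp' _ (fun b => bd _ _ (hg _) (hg _))
        (by omega) _ mHf
    have q3 : W.N ((G1 - G0) * ((H1 - H0) * f)) ≤ 4 * (1 + 4 * ε) ^ r * W.N f := by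
      refine J2_le (W.N_nonneg _) (mul_nonneg (by positivity) (W.N_nonneg _)) (q2.trans ?_)
      calc 2 ^ 2 * (1 + 4 * ε) ^ r * W.N ((H1 - H0) * f) ^ 2
          ≤ 2 ^ 2 * (1 + 4 * ε) ^ r * (2 ^ 2 * (1 + 4 * ε) ^ r * W.N f ^ 2) := by gcongr
        _ = (4 * (1 + 4 * ε) ^ r * W.N f) ^ 2 := by ring
    have mw : (G1 - G0) * ((H1 - H0) * f) ∈ W.F (r * c + (r * c + L')) :=
      W.mul_mem _ _ _ _ mG mHf
    have q4 : W.N ((p 0 * p 0 - p 0) * ((G1 - G0) * ((H1 - H0) * f))) ≤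
        ε * W.N ((G1 - G0) * ((H1 - H0) * f)) :=
      hp0.bit _ (W.F_mono _ _ (by omega) mw)
    -- together
    have m1 : ((1 - p 0) * (G0 * H0 - K0) + p 0 * (G1 * H1 - K1)) * f ∈ W.F W.D := by
      refine W.F_mono (c + 2 * (r * c) + L') _ (by omega) (W.mul_mem _ _ _ _ ?_ hf)
      exact Submodule.add_mem _
        (W.mul_mem _ _ _ _ (Submodule.sub_mem _ (W.one_mem' c) hp0.mem) mD0)
        (W.mul_mem _ _ _ _ hp0.mem mD1)
    have m2 : (p 0 * p 0 - p 0) * ((G1 - G0) * ((H1 - H0) * f)) ∈ W.F W.D := by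
      refine W.F_mono (c + c + (r * c + (r * c + L'))) _ (by omega)
        (W.mul_mem _ _ _ _ (Submodule.sub_mem _ (W.mul_mem _ _ _ _ hp0.mem hp0.mem)
          (W.F_mono _ _ (by omega) hp0.mem)) mw)
    have e2 : (mle g p * mle h p - mle (fun b => g b * h b) p) * f =
        ((1 - p 0) * (G0 * H0 - K0) + p 0 * (G1 * H1 - K1)) * f +
          (p 0 * p 0 - p 0) * ((G1 - G0) * ((H1 - H0) * f)) := by
      rw [e1]
      ring
    rw [e2]
    refine (W.N_add m1 m2).trans ((add_le_add n1 (q4.trans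
      (mul_le_mul_of_nonneg_left q3 hε))).trans ?_)
    have h6 : (1 + 4 * ε) ^ r ≤ (1 + 4 * ε) ^ (r + 1) := pow_le_pow_right₀ h4 (Nat.le_succ r)
    have h7 := W.N_nonneg f
    calc 4 * r * ε * (1 + 4 * ε) ^ r * (1 + 4 * ε) * W.N f + ε * (4 * (1 + 4 * ε) ^ r * W.N f)
        ≤ 4 * r * ε * (1 + 4 * ε) ^ r * (1 + 4 * ε) * W.N f +
          ε * (4 * (1 + 4 * ε) ^ (r + 1) * W.N f) := by gcongr
      _ = 4 * ((r + 1 : ℕ) : ℝ) * ε * (1 + 4 * ε) ^ (r + 1) * W.N f := by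
        push_cast
        ring

end Pool.Agent.MP_9cec2c_lc.SL.World
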