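import Pool.Agent.Lib.MP_9cec2c_lc.SL.NextA
import Pool.Agent.Lib.MP_9cec2c_lc.SL.GateAnd
import Pool.Agent.Lib.MP_9cec2c_lc.SL.GateOr

/-!
TASK Level (the level lemma). `M = m²`, `η = (2/3)^l ≤ 1`. For `|A| ≤ M τ` let `X_A = (rep τ A).sk.val v`,
`X'_A = next v τ l A`, `θ_A = X'_A - X_A`. Facts: `N (θ_A h) ≤ 2 η N h` (`next_err`), `N (X_A h) ≤ 2 N h`
(`sk_contr`, `rep_sk_lab`, `rep_sk_r`), `N (X'_A h) ≤ 4 N h` (`next_contr`) for `h ∈ F (L - 8Mc)`, all three
elements lie in `F (8Mc)` (`sk_mem`, `next_mem'`).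
* `v_tt`, `v_ff`: `next_eq` (size `1 ≤ τ`).
* bit: membership `next_mem`. `X'² - X' = (X² - X) + θ X' + X θ - θ`, so by `sk_bit`
  `N ((X'² - X') f) ≤ (100 M ε + 2η·4 + 2·2η + 2η) N f`.
* and: `X'_C - X'_A X'_B = (X_C - X_A X_B) + θ_C - θ_A X_B - X'_A θ_B` (`C = A ∧ B`), by `gate_and`
  `≤ (100 ε + 2η + 2η·2 + 4·2η) N f`.
* or: `X'_C - (X'_A + X'_B - X'_A X'_B) = (X_C - (X_A + X_B - X_A X_B)) + θ_C - θ_A - θ_B + θ_A X_B +
  X'_A θ_B`, by `gate_or` `≤ (100 ε + 6η + 12η) N f`.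
All degrees stay below `L' + 32 M c ≤ L`; `N_add` needs membership in `F D`. (`1 ≤ M` so
`100 ε ≤ 100 M ε`.)
-/

set_option autoImplicit false

open Finset

namespace Pool.Agent.MP_9cec2c_lc.SL.World

variable {R : Type} [CommRing R] [Algebra ℝ R] (W : World R) {Λ : Type}

private theorem Level_tri4 {a b c d : R} (ha : a ∈ W.F W.D) (hb : b ∈ W.F W.D)
    (hc : c ∈ W.F W.D) (hd : d ∈ W.F W.D) : W.N (a + b - c - d) ≤ W.N a + W.N b + W.N c + W.N d := by
  have h1 := W.N_add ha hb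
  have h2 := W.N_sub (Submodule.add_mem _ ha hb) hc
  have h3 := W.N_sub (Submodule.sub_mem _ (Submodule.add_mem _ ha hb) hc) hd
  linarith

theorem level {v : Fm Λ → R} {τ c L L' m l : ℕ} {ε : ℝ} (hv : W.IsVal v τ c ε L) (hτ : 1 ≤ τ)
    (hm : 1 ≤ m) (hl : 1 ≤ l) (hε : 0 ≤ ε) (hM : 32 * (m : ℝ) ^ 2 * ε ≤ 1) (hD : L + 2 * c ≤ W.D)
    (hL : L' + 100 * m ^ 2 * c + 2 * (450 * l * m * c) ≤ L) :
    W.IsVal (next v τ l) (m ^ 2 * τ) (450 * l * m * c)
      (1000 * (m : ℝ) ^ 2 * ε + 1000 * (2 / 3) ^ l) L' := by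
  have hM1 : 1 ≤ m ^ 2 := Nat.one_le_pow 2 m hm
  have hM' : 32 * ((m ^ 2 : ℕ) : ℝ) * ε ≤ 1 := by
    push_cast
    exact hM
  have hη0 : (0 : ℝ) ≤ (2 / 3) ^ l := by positivity
  have hm2 : (1 : ℝ) ≤ (m : ℝ) ^ 2 := by
    have h := hM1
    exact_mod_cast h
  have hmε : ε ≤ (m : ℝ) ^ 2 * ε := by nlinarith
  obtain ⟨q, hq⟩ : ∃ q, q = m ^ 2 * c := ⟨_, rfl⟩
  have hq8 : 8 * m ^ 2 * c = 8 * q := by rw [hq]; ring
  have hq16 : 16 * m ^ 2 * c = 16 * q := by rw [hq]; ring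
  have hq50 : 50 * m ^ 2 * c = 50 * q := by rw [hq]; ring
  have hq100 : 100 * m ^ 2 * c = 100 * q := by rw [hq]; ring
  have hLq : L' + 100 * q ≤ L := by
    rw [← hq100]
    omega
  have e1 : ∀ A : Fm Λ, A.size ≤ m ^ 2 * τ → ∀ b, b + 8 * q ≤ L → ∀ h ∈ W.F b,
      W.N ((next v τ l A - (rep τ A).sk.val v) * h) ≤ 2 * (2 / 3) ^ l * W.N h :=
    fun A hA b hb h hh => W.next_err hv hτ hM1 hε hM' hD (by rw [hq8]; exact hb) l A hA hh
  have e2 : ∀ A : Fm Λ, A.size ≤ m ^ 2 * τ → ∀ b, b + 8 * q ≤ L → ∀ h ∈ W.F b,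
      W.N ((rep τ A).sk.val v * h) ≤ 2 * W.N h :=
    fun A hA b hb h hh => W.sk_contr hv hε hM' hD _ (rep_sk_lab hτ A) (rep_sk_r hτ hM1 A hA)
      (by rw [hq8]; exact hb) hh
  have e3 : ∀ A : Fm Λ, A.size ≤ m ^ 2 * τ → ∀ b, b + 8 * q ≤ L → ∀ h ∈ W.F b,
      W.N (next v τ l A * h) ≤ 4 * W.N h :=
    fun A hA b hb h hh => W.next_contr hv hτ hM1 hε hM' hD (by rw [hq8]; exact hb) l A hA hh
  have m1 : ∀ A : Fm Λ, A.size ≤ m ^ 2 * τ → (rep τ A).sk.val v ∈ W.F (8 * q) := by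
    intro A hA
    rw [← hq8]
    exact W.sk_mem hv _ (rep_sk_lab hτ A) (rep_sk_r hτ hM1 A hA)
  have m2 : ∀ A : Fm Λ, A.size ≤ m ^ 2 * τ → next v τ l A ∈ W.F (8 * q) := by
    intro A hA
    rw [← hq8]
    exact W.next_mem' hv hτ hM1 l A hA
  have m3 : ∀ A : Fm Λ, A.size ≤ m ^ 2 * τ → next v τ l A - (rep τ A).sk.val v ∈ W.F (8 * q) :=
    fun A hA => Submodule.sub_mem _ (m2 A hA) (m1 A hA)
  have up : ∀ {a : ℕ} {x : R}, x ∈ W.F a → a ≤ L → x ∈ W.F W.D :=
    fun hx ha => W.F_mono _ _ (by omega) hx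
  refine ⟨?_, ?_, ?_, ?_, ?_⟩
  · rw [next_eq v l Fm.tt hτ]
    exact hv.v_tt
  · rw [next_eq v l Fm.ff hτ]
    exact hv.v_ff
  · intro A hA
    refine ⟨W.next_mem hv hτ hm hl A hA, fun f hf => ?_⟩
    have hN := W.N_nonneg f
    have b0 := W.sk_bit hv hε hM' hD _ (rep_sk_lab hτ A) (rep_sk_r hτ hM1 A hA)
      (by rw [hq16]; omega) hf
    have t1 := e1 A hA (8 * q + L') (by omega) _ (W.mul_mem _ _ _ _ (m2 A hA) hf)
    have t1' := e3 A hA L' (by omega) f hf
    have t2 := e2 A hA (8 * q + L') (by omega) _ (W.mul_mem _ _ _ _ (m3 A hA) hf)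
    have t2' := e1 A hA L' (by omega) f hf
    have hsum : (next v τ l A * next v τ l A - next v τ l A) * f =
        ((rep τ A).sk.val v * (rep τ A).sk.val v - (rep τ A).sk.val v) * f +
        (next v τ l A - (rep τ A).sk.val v) * (next v τ l A * f) -
        (-((rep τ A).sk.val v * ((next v τ l A - (rep τ A).sk.val v) * f))) -
        (next v τ l A - (rep τ A).sk.val v) * f := by ring
    have k1 : ((rep τ A).sk.val v * (rep τ A).sk.val v - (rep τ A).sk.val v) * f ∈ W.F W.D := by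
      refine up (W.mul_mem (8 * q + 8 * q) L' _ _ (Submodule.sub_mem _
        (W.mul_mem _ _ _ _ (m1 A hA) (m1 A hA)) (W.F_mono _ _ (by omega) (m1 A hA))) hf) (by omega)
    have k2 : (next v τ l A - (rep τ A).sk.val v) * (next v τ l A * f) ∈ W.F W.D :=
      up (W.mul_mem (8 * q) (8 * q + L') _ _ (m3 A hA) (W.mul_mem _ _ _ _ (m2 A hA) hf)) (by omega)
    have k3 : (rep τ A).sk.val v * ((next v τ l A - (rep τ A).sk.val v) * f) ∈ W.F W.D :=
      up (W.mul_mem (8 * q) (8 * q + L') _ _ (m1 A hA) (W.mul_mem _ _ _ _ (m3 A hA) hf)) (by omega)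
    have k4 : (next v τ l A - (rep τ A).sk.val v) * f ∈ W.F W.D :=
      up (W.mul_mem (8 * q) L' _ _ (m3 A hA) hf) (by omega)
    rw [hsum]
    refine (W.Level_tri4 k1 k2 (Submodule.neg_mem _ k3) k4).trans ?_
    rw [W.N_neg]
    have b0' : W.N (((rep τ A).sk.val v * (rep τ A).sk.val v - (rep τ A).sk.val v) * f) ≤
        100 * (m : ℝ) ^ 2 * ε * W.N f := by
      have h := b0
      push_cast at h
      exact h
    have t1'' : W.N ((next v τ l A - (rep τ A).sk.val v) * (next v τ l A * f)) ≤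
        8 * (2 / 3) ^ l * W.N f := by
      refine t1.trans ?_
      calc 2 * (2 / 3) ^ l * W.N (next v τ l A * f) ≤ 2 * (2 / 3) ^ l * (4 * W.N f) :=
            mul_le_mul_of_nonneg_left t1' (by positivity)
        _ = 8 * (2 / 3) ^ l * W.N f := by ring
    have t2'' : W.N ((rep τ A).sk.val v * ((next v τ l A - (rep τ A).sk.val v) * f)) ≤
        4 * (2 / 3) ^ l * W.N f := by
      refine t2.trans ?_
      calc 2 * W.N ((next v τ l A - (rep τ A).sk.val v) * f) ≤ 2 * (2 * (2 / 3) ^ l * W.N f) :=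
            mul_le_mul_of_nonneg_left t2' (by positivity)
        _ = 4 * (2 / 3) ^ l * W.N f := by ring
    have hfin : 0 ≤ ((2 : ℝ) / 3) ^ l * W.N f := mul_nonneg hη0 hN
    have hfin2 : 0 ≤ (m : ℝ) ^ 2 * ε * W.N f := by positivity
    nlinarith
  · intro A B hAB f hf
    have hA : A.size ≤ m ^ 2 * τ := by omega
    have hB : B.size ≤ m ^ 2 * τ := by omega
    have hC : (A.and B).size ≤ m ^ 2 * τ := hAB
    have hN := W.N_nonneg f
    have g0 := W.gate_and hv hτ hM1 hε hM' hD (by rw [hq50]; omega) A B hAB hf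
    have t1 := e1 (A.and B) hC L' (by omega) f hf
    have t2 := e1 A hA (8 * q + L') (by omega) _ (W.mul_mem _ _ _ _ (m1 B hB) hf)
    have t2' := e2 B hB L' (by omega) f hf
    have t3 := e3 A hA (8 * q + L') (by omega) _ (W.mul_mem _ _ _ _ (m3 B hB) hf)
    have t3' := e1 B hB L' (by omega) f hf
    have hsum : (next v τ l (A.and B) - next v τ l A * next v τ l B) * f =
        ((rep τ (A.and B)).sk.val v - (rep τ A).sk.val v * (rep τ B).sk.val v) * f +
        (next v τ l (A.and B) - (rep τ (A.and B)).sk.val v) * f -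
        (next v τ l A - (rep τ A).sk.val v) * ((rep τ B).sk.val v * f) -
        next v τ l A * ((next v τ l B - (rep τ B).sk.val v) * f) := by ring
    have k1 : ((rep τ (A.and B)).sk.val v - (rep τ A).sk.val v * (rep τ B).sk.val v) * f ∈
        W.F W.D :=
      up (W.mul_mem (8 * q + 8 * q) L' _ _ (Submodule.sub_mem _
        (W.F_mono _ _ (by omega) (m1 _ hC)) (W.mul_mem _ _ _ _ (m1 A hA) (m1 B hB))) hf) (by omega)
    have k2 : (next v τ l (A.and B) - (rep τ (A.and B)).sk.val v) * f ∈ W.F W.D :=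
      up (W.mul_mem (8 * q) L' _ _ (m3 _ hC) hf) (by omega)
    have k3 : (next v τ l A - (rep τ A).sk.val v) * ((rep τ B).sk.val v * f) ∈ W.F W.D :=
      up (W.mul_mem (8 * q) (8 * q + L') _ _ (m3 A hA) (W.mul_mem _ _ _ _ (m1 B hB) hf)) (by omega)
    have k4 : next v τ l A * ((next v τ l B - (rep τ B).sk.val v) * f) ∈ W.F W.D :=
      up (W.mul_mem (8 * q) (8 * q + L') _ _ (m2 A hA) (W.mul_mem _ _ _ _ (m3 B hB) hf)) (by omega)
    rw [hsum]
    refine (W.Level_tri4 k1 k2 k3 k4).trans ?_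
    have t2'' : W.N ((next v τ l A - (rep τ A).sk.val v) * ((rep τ B).sk.val v * f)) ≤
        4 * (2 / 3) ^ l * W.N f := by
      refine t2.trans ?_
      calc 2 * (2 / 3) ^ l * W.N ((rep τ B).sk.val v * f) ≤ 2 * (2 / 3) ^ l * (2 * W.N f) :=
            mul_le_mul_of_nonneg_left t2' (by positivity)
        _ = 4 * (2 / 3) ^ l * W.N f := by ring
    have t3'' : W.N (next v τ l A * ((next v τ l B - (rep τ B).sk.val v) * f)) ≤
        8 * (2 / 3) ^ l * W.N f := by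
      refine t3.trans ?_
      calc 4 * W.N ((next v τ l B - (rep τ B).sk.val v) * f) ≤ 4 * (2 * (2 / 3) ^ l * W.N f) :=
            mul_le_mul_of_nonneg_left t3' (by positivity)
        _ = 8 * (2 / 3) ^ l * W.N f := by ring
    have hfin : 0 ≤ ((2 : ℝ) / 3) ^ l * W.N f := mul_nonneg hη0 hN
    have hfin2 : ε * W.N f ≤ (m : ℝ) ^ 2 * ε * W.N f := mul_le_mul_of_nonneg_right hmε hN
    have hfin3 : 0 ≤ ε * W.N f := mul_nonneg hε hN
    nlinarith
  · intro A B hAB f hf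
    have hA : A.size ≤ m ^ 2 * τ := by omega
    have hB : B.size ≤ m ^ 2 * τ := by omega
    have hC : (A.or B).size ≤ m ^ 2 * τ := hAB
    have hN := W.N_nonneg f
    have g0 := W.gate_or hv hτ hM1 hε hM' hD (by rw [hq50]; omega) A B hAB hf
    have t1 := e1 (A.or B) hC L' (by omega) f hf
    have t2 := e1 A hA (8 * q + L') (by omega) _ (W.mul_mem _ _ _ _ (m1 B hB) hf)
    have t2' := e2 B hB L' (by omega) f hf
    have t3 := e3 A hA (8 * q + L') (by omega) _ (W.mul_mem _ _ _ _ (m3 B hB) hf)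
    have t3' := e1 B hB L' (by omega) f hf
    have t4 := e1 A hA L' (by omega) f hf
    have hsum : (next v τ l (A.or B) -
        (next v τ l A + next v τ l B - next v τ l A * next v τ l B)) * f =
        (((rep τ (A.or B)).sk.val v -
          ((rep τ A).sk.val v + (rep τ B).sk.val v - (rep τ A).sk.val v * (rep τ B).sk.val v)) * f +
        (next v τ l (A.or B) - (rep τ (A.or B)).sk.val v) * f -
        (next v τ l A - (rep τ A).sk.val v) * f - (next v τ l B - (rep τ B).sk.val v) * f) + 0 -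
        (-((next v τ l A - (rep τ A).sk.val v) * ((rep τ B).sk.val v * f))) -
        (-(next v τ l A * ((next v τ l B - (rep τ B).sk.val v) * f))) := by ring
    have k1 : ((rep τ (A.or B)).sk.val v -
          ((rep τ A).sk.val v + (rep τ B).sk.val v - (rep τ A).sk.val v * (rep τ B).sk.val v)) * f ∈
        W.F W.D :=
      up (W.mul_mem (8 * q + 8 * q) L' _ _ (Submodule.sub_mem _
        (W.F_mono _ _ (by omega) (m1 _ hC)) (Submodule.sub_mem _ (Submodule.add_mem _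
        (W.F_mono _ _ (by omega) (m1 A hA)) (W.F_mono _ _ (by omega) (m1 B hB)))
        (W.mul_mem _ _ _ _ (m1 A hA) (m1 B hB)))) hf) (by omega)
    have k2 : (next v τ l (A.or B) - (rep τ (A.or B)).sk.val v) * f ∈ W.F W.D :=
      up (W.mul_mem (8 * q) L' _ _ (m3 _ hC) hf) (by omega)
    have k3 : (next v τ l A - (rep τ A).sk.val v) * ((rep τ B).sk.val v * f) ∈ W.F W.D :=
      up (W.mul_mem (8 * q) (8 * q + L') _ _ (m3 A hA) (W.mul_mem _ _ _ _ (m1 B hB) hf)) (by omega)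
    have k4 : next v τ l A * ((next v τ l B - (rep τ B).sk.val v) * f) ∈ W.F W.D :=
      up (W.mul_mem (8 * q) (8 * q + L') _ _ (m2 A hA) (W.mul_mem _ _ _ _ (m3 B hB) hf)) (by omega)
    have k5 : (next v τ l A - (rep τ A).sk.val v) * f ∈ W.F W.D :=
      up (W.mul_mem (8 * q) L' _ _ (m3 A hA) hf) (by omega)
    have k6 : (next v τ l B - (rep τ B).sk.val v) * f ∈ W.F W.D :=
      up (W.mul_mem (8 * q) L' _ _ (m3 B hB) hf) (by omega)
    have k7 := Submodule.sub_mem _ (Submodule.sub_mem _ (Submodule.add_mem _ k1 k2) k5) k6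
    have u1 := W.Level_tri4 k1 k2 k5 k6
    rw [hsum]
    refine (W.Level_tri4 k7 (Submodule.zero_mem _) (Submodule.neg_mem _ k3)
      (Submodule.neg_mem _ k4)).trans ?_
    rw [W.N_neg, W.N_neg, W.N_zero]
    have t2'' : W.N ((next v τ l A - (rep τ A).sk.val v) * ((rep τ B).sk.val v * f)) ≤
        4 * (2 / 3) ^ l * W.N f := by
      refine t2.trans ?_
      calc 2 * (2 / 3) ^ l * W.N ((rep τ B).sk.val v * f) ≤ 2 * (2 / 3) ^ l * (2 * W.N f) :=
            mul_le_mul_of_nonneg_left t2' (by positivity)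
        _ = 4 * (2 / 3) ^ l * W.N f := by ring
    have t3'' : W.N (next v τ l A * ((next v τ l B - (rep τ B).sk.val v) * f)) ≤
        8 * (2 / 3) ^ l * W.N f := by
      refine t3.trans ?_
      calc 4 * W.N ((next v τ l B - (rep τ B).sk.val v) * f) ≤ 4 * (2 * (2 / 3) ^ l * W.N f) :=
            mul_le_mul_of_nonneg_left t3' (by positivity)
        _ = 8 * (2 / 3) ^ l * W.N f := by ring
    have hfin : 0 ≤ ((2 : ℝ) / 3) ^ l * W.N f := mul_nonneg hη0 hN
    have hfin2 : ε * W.N f ≤ (m : ℝ) ^ 2 * ε * W.N f := mul_le_mul_of_nonneg_right hmε hN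
    have hfin3 : 0 ≤ ε * W.N f := mul_nonneg hε hN
    nlinarith

end Pool.Agent.MP_9cec2c_lc.SL.World
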