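import Pool.Agent.Lib.MP_9cec2c_lc.SL.Level

/-!
TASK Levels (iteration of the level lemma). Put `M = m²`, `η = (2/3)^l`, `c_j = (450 l m)^j`,
`ε_j = (2000 M)^j η`, `X = 200 M c_k`. Claim by induction on `j ≤ k`:
`IsVal (lev x l M j) (M^j) c_j ε_j (L + (k - j) X)`.
* `j = 0`: `val0 x`, sizes `≤ 1`: bits `1`, `0`, `x λ` are exact idempotents in `F 1`
  (`N 0 = 0 ≤ ε N f`), no `A`, `B` with `A.size + B.size ≤ 1` (`fm_size_pos`).
* step: `level` with `τ = M^j`, `L_j = L + (k-j) X`, `L' = L_j - X` : `100 M c_j + 2 c_{j+1} ≤ X`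
  since `c_j, c_{j+1} ≤ c_k`; `L_j + 2 c_j ≤ L + k X + 2 c_k.. ≤ D`: use for `j = 0` the hypothesis
  `L + k X + 2 ≤ D` and for `j ≥ 1`: `L_j + 2 c_j ≤ L_{j-1}` (because `2 c_j ≤ X`) `≤ D`.
  `32 M ε_j ≤ (2000 M)^k η ≤ 1`. `1000 M ε_j + 1000 η ≤ (2000 M)^(j+1) η = ε_{j+1}`
  (weaken `ε`: `IsVal` is monotone in `ε`; `N f ≥ 0`).
`lev_lit`: `next_eq`, by induction (`m ≥ 1`, sizes 1). `isVal_mono`: weakening.
-/

set_option autoImplicit false

open Finset

namespace Pool.Agent.MP_9cec2c_lc.SL.World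

variable {R : Type} [CommRing R] [Algebra ℝ R] (W : World R) {Λ : Type}

theorem isVal_mono {v : Fm Λ → R} {τ τ' c c' L L' : ℕ} {ε ε' : ℝ} (hv : W.IsVal v τ c ε L)
    (hτ : τ' ≤ τ) (hc : c ≤ c') (hε : ε ≤ ε') (hL : L' ≤ L) : W.IsVal v τ' c' ε' L' := by
  refine ⟨hv.v_tt, hv.v_ff, ?_, ?_, ?_⟩
  · intro A hA
    have h := hv.bit A (hA.trans hτ)
    refine ⟨W.F_mono _ _ hc h.mem, ?_⟩
    intro f hf
    exact (h.bit f (W.F_mono _ _ hL hf)).trans (mul_le_mul_of_nonneg_right hε (W.N_nonneg f))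
  · intro A B hAB f hf
    exact (hv.and A B (hAB.trans hτ) f (W.F_mono _ _ hL hf)).trans
      (mul_le_mul_of_nonneg_right hε (W.N_nonneg f))
  · intro A B hAB f hf
    exact (hv.or A B (hAB.trans hτ) f (W.F_mono _ _ hL hf)).trans
      (mul_le_mul_of_nonneg_right hε (W.N_nonneg f))

theorem lev_lit (x : Λ → R) (l m k : ℕ) (hm : 1 ≤ m) (y : Λ) : lev x l (m ^ 2) k (Fm.lit y) = x y := by
  induction k with
  | zero => rfl
  | succ k ih =>
    have h1 : (Fm.lit y : Fm Λ).size ≤ (m ^ 2) ^ k := by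
      have : 1 ≤ (m ^ 2) ^ k := Nat.one_le_pow _ _ (Nat.one_le_pow _ _ hm)
      simpa [Fm.size] using this
    have h2 : next (lev x l (m ^ 2) k) ((m ^ 2) ^ k) l (Fm.lit y) = lev x l (m ^ 2) k (Fm.lit y) :=
      next_eq (lev x l (m ^ 2) k) l (Fm.lit y) h1
    exact h2.trans ih

/-- Every formula has at least one leaf. -/
private theorem Levels_size_pos (A : Fm Λ) : 1 ≤ A.size := by
  induction A with
  | lit _ => exact le_refl _
  | tt => exact le_refl _
  | ff => exact le_refl _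
  | and A B hA hB => show 1 ≤ A.size + B.size; omega
  | or A B hA hB => show 1 ≤ A.size + B.size; omega

/-- The valuation on formulas of size one. -/
private theorem Levels_base (x : Λ → R) (hx : ∀ y, x y ∈ W.F 1 ∧ x y * x y = x y) {ε : ℝ}
    (hε : 0 ≤ ε) (L : ℕ) : W.IsVal (val0 x) 1 1 ε L := by
  have key : ∀ p f : R, p * p = p → W.N ((p * p - p) * f) ≤ ε * W.N f := by
    intro p f hp
    rw [hp, sub_self, zero_mul, W.N_zero]
    exact mul_nonneg hε (W.N_nonneg f)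
  refine ⟨rfl, rfl, ?_, ?_, ?_⟩
  · intro A hA
    cases A with
    | lit y => exact ⟨(hx y).1, fun f _ => key _ f (hx y).2⟩
    | tt => exact ⟨W.one_mem' 1, fun f _ => key _ f (mul_one _)⟩
    | ff => exact ⟨(W.F 1).zero_mem, fun f _ => key _ f (mul_zero _)⟩
    | and A B =>
      exfalso
      have h1 := Levels_size_pos A
      have h2 := Levels_size_pos B
      have h3 : A.size + B.size ≤ 1 := hA
      omega
    | or A B =>
      exfalso
      have h1 := Levels_size_pos A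
      have h2 := Levels_size_pos B
      have h3 : A.size + B.size ≤ 1 := hA
      omega
  · intro A B hAB
    exfalso
    have h1 := Levels_size_pos A
    have h2 := Levels_size_pos B
    omega
  · intro A B hAB
    exfalso
    have h1 := Levels_size_pos A
    have h2 := Levels_size_pos B
    omega

theorem levels (x : Λ → R) (hx : ∀ y, x y ∈ W.F 1 ∧ x y * x y = x y) {m l k L : ℕ} (hm : 1 ≤ m)
    (hl : 1 ≤ l) (hη : (2000 * (m : ℝ) ^ 2) ^ k * (2 / 3) ^ l ≤ 1)
    (hD : L + 2 + k * (200 * m ^ 2 * (450 * l * m) ^ k) ≤ W.D) :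
    W.IsVal (lev x l (m ^ 2) k) ((m ^ 2) ^ k) ((450 * l * m) ^ k)
      ((2000 * (m : ℝ) ^ 2) ^ k * (2 / 3) ^ l) L := by
  obtain ⟨X, hX⟩ : ∃ X, X = 200 * m ^ 2 * (450 * l * m) ^ k := ⟨_, rfl⟩
  rw [← hX] at hD
  have hm2 : 1 ≤ m ^ 2 := Nat.one_le_pow _ _ hm
  have hlm : 1 ≤ 450 * l * m := by
    have : 1 ≤ l * m := Nat.one_le_iff_ne_zero.2 (by positivity)
    nlinarith
  have hη0 : (0 : ℝ) < (2 / 3) ^ l := by positivity
  have hmR : (1 : ℝ) ≤ (m : ℝ) ^ 2 := by exact_mod_cast hm2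
  have hB1 : (1 : ℝ) ≤ 2000 * (m : ℝ) ^ 2 := by linarith
  have claim : ∀ j, j ≤ k → W.IsVal (lev x l (m ^ 2) j) ((m ^ 2) ^ j) ((450 * l * m) ^ j)
      ((2000 * (m : ℝ) ^ 2) ^ j * (2 / 3) ^ l) (L + (k - j) * X) := by
    intro j
    induction j with
    | zero =>
      intro _
      have h := Levels_base W x hx (ε := (2000 * (m : ℝ) ^ 2) ^ 0 * (2 / 3) ^ l) (by positivity)
        (L + (k - 0) * X)
      simpa [lev] using h
    | succ j ih =>
      intro hj
      have hv := ih (by omega)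
      have hcj : (450 * l * m) ^ j ≤ (450 * l * m) ^ k := Nat.pow_le_pow_right hlm (by omega)
      have hcj1 : 450 * l * m * (450 * l * m) ^ j ≤ (450 * l * m) ^ k := by
        have h1 : (450 * l * m) ^ (j + 1) ≤ (450 * l * m) ^ k := Nat.pow_le_pow_right hlm hj
        have h2 : (450 * l * m) ^ (j + 1) = 450 * l * m * (450 * l * m) ^ j := by
          rw [pow_succ]; ring
        omega
      have hkj : (k - j) * X = (k - (j + 1)) * X + X := by
        have : k - j = (k - (j + 1)) + 1 := by omega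
        rw [this, add_mul, one_mul]
      have hXk : (450 * l * m) ^ k ≤ m ^ 2 * (450 * l * m) ^ k := Nat.le_mul_of_pos_left _ hm2
      have hX1 : 200 * (m ^ 2 * (450 * l * m) ^ k) = X := by rw [hX]; ring
      have hlev := W.level hv (Nat.one_le_pow _ _ hm2) hm hl (by positivity)
        (by
          have h1 : (2000 * (m : ℝ) ^ 2) ^ (j + 1) ≤ (2000 * (m : ℝ) ^ 2) ^ k :=
            pow_le_pow_right₀ hB1 hj
          have h2 : (2000 * (m : ℝ) ^ 2) ^ (j + 1) * (2 / 3) ^ l ≤ 1 :=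
            (mul_le_mul_of_nonneg_right h1 hη0.le).trans hη
          have h3 : (0 : ℝ) ≤ (2000 * (m : ℝ) ^ 2) ^ j * (2 / 3) ^ l := by positivity
          have h4 : (2000 * (m : ℝ) ^ 2) ^ (j + 1) * (2 / 3) ^ l
              = 2000 * ((m : ℝ) ^ 2 * ((2000 * (m : ℝ) ^ 2) ^ j * (2 / 3) ^ l)) := by
            rw [pow_succ]; ring
          have h5 : (0 : ℝ) ≤ (m : ℝ) ^ 2 * ((2000 * (m : ℝ) ^ 2) ^ j * (2 / 3) ^ l) := by
            positivity
          have h6 : 32 * (m : ℝ) ^ 2 * ((2000 * (m : ℝ) ^ 2) ^ j * (2 / 3) ^ l)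
              = 32 * ((m : ℝ) ^ 2 * ((2000 * (m : ℝ) ^ 2) ^ j * (2 / 3) ^ l)) := by ring
          rw [h6]
          linarith)
        (by
          rcases Nat.eq_zero_or_pos j with h0 | h0
          · subst h0
            rw [pow_zero]
            have : (k - 0) * X = k * X := by rw [Nat.sub_zero]
            omega
          · have h1 : k * X = (k - j) * X + j * X := by
              rw [← add_mul]; congr 1; omega
            have h2 : X ≤ j * X := Nat.le_mul_of_pos_left _ h0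
            have h3 : 2 * (450 * l * m) ^ j ≤ X := by omega
            omega)
        (L' := L + (k - (j + 1)) * X)
        (by
          have h1 : 100 * m ^ 2 * (450 * l * m) ^ j ≤ 100 * (m ^ 2 * (450 * l * m) ^ k) := by
            rw [mul_assoc]
            exact Nat.mul_le_mul_left _ (Nat.mul_le_mul_left _ hcj)
          omega)
      have hstep : lev x l (m ^ 2) (j + 1) = next (lev x l (m ^ 2) j) ((m ^ 2) ^ j) l := rfl
      rw [hstep]
      refine W.isVal_mono hlev ?_ ?_ ?_ le_rfl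
      · rw [pow_succ]
        exact le_of_eq (mul_comm _ _)
      · rw [pow_succ]
        exact le_of_eq (mul_comm _ _)
      · have h1 : (1 : ℝ) ≤ (2000 * (m : ℝ) ^ 2) ^ j := one_le_pow₀ hB1
        have h2 : (2000 * (m : ℝ) ^ 2) ^ (j + 1) * (2 / 3) ^ l
            = 1000 * (m : ℝ) ^ 2 * ((2000 * (m : ℝ) ^ 2) ^ j * (2 / 3) ^ l)
              + 1000 * (((m : ℝ) ^ 2 * (2000 * (m : ℝ) ^ 2) ^ j) * (2 / 3) ^ l) := by
          rw [pow_succ]; ring
        have h3 : (1 : ℝ) ≤ (m : ℝ) ^ 2 * (2000 * (m : ℝ) ^ 2) ^ j := one_le_mul_of_one_le_of_one_le hmR h1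
        have h4 : (2 / 3 : ℝ) ^ l ≤ ((m : ℝ) ^ 2 * (2000 * (m : ℝ) ^ 2) ^ j) * (2 / 3) ^ l :=
          le_mul_of_one_le_left hη0.le h3
        rw [h2]
        linarith
  have h := claim k le_rfl
  rw [Nat.sub_self, zero_mul, add_zero] at h
  exact h

end Pool.Agent.MP_9cec2c_lc.SL.World
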