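import Pool.Agent.Lib.MP_9cec2c_lc.SL.Num

/-!
TASK Main: the lower bound. For `ε > 0` take `δ` from `num`. Given `S` (constant `C` of `core`) and `b`
(replace `b` by `max b 1`; `Hyp b F ⊆ Hyp (max b 1) F`, `IsConj` is monotone in the set), `m ≥ m₀`, a
derivation `L` with `l` lines of size `≤ s`: suppose `l < exp (..)`. Lines have real size bound
`(2^m)^(2-ε)`; take `s = ⌊(2^m)^(2-ε)⌋₊` (`≥ 1` since a line exists and has size `≥ 1`:
`form_size_pos`). `num` gives `Par`, `core` a contradiction. Here `γ` is any vector of charges (no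
condition on the sum is needed).
-/

set_option autoImplicit false

open Finset
open scoped Classical

namespace Pool.Agent.MP_9cec2c_lc.SL

theorem form_size_pos {X : Type} (A : Form X) : 1 ≤ A.size := by
  induction A with
  | var x => exact le_refl 1
  | tt => exact le_refl 1
  | ff => exact le_refl 1
  | neg A ih => exact ih
  | and A B ihA ihB => exact le_trans ihA (Nat.le_add_right _ _)
  | or A B ihA ihB => exact le_trans ihA (Nat.le_add_right _ _)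
  | imp A B ihA ihB => exact le_trans ihA (Nat.le_add_right _ _)

private theorem Main_hyp_mono {X : Type} {b b' : ℕ} (hb : b ≤ b') (F : List (List (X × Bool))) :
    Hyp b F ⊆ Hyp b' F := fun _ h => ⟨le_trans h.1 hb, h.2⟩

private theorem Main_isConj_mono {X : Type} {T T' : Set (Form X)} (h : T ⊆ T') {A : Form X}
    (hA : IsConj T A) : IsConj T' A := by
  induction hA with
  | base A hA => exact IsConj.base A (h hA)
  | and A B _ _ ihA ihB => exact IsConj.and A B ihA ihB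

private theorem Main_isDerivation_mono {X : Type} {S : Set Rule} {T T' : Set (Form X)} (h : T ⊆ T')
    {l : ℕ} {L : Fin l → Form X} (hL : IsDerivation S T L) : IsDerivation S T' L := by
  intro i
  rcases hL i with h1 | h1
  · exact Or.inl (h h1)
  · exact Or.inr h1

theorem lower_bound (ε : ℝ) (hε : 0 < ε) : ∃ δ : ℝ, 0 < δ ∧ ∀ S : Set Rule, S.Finite →
    (∀ r ∈ S, r.Sound) → ∀ b : ℕ, ∃ m₀ : ℕ, ∀ m : ℕ, m₀ ≤ m → ∀ γ : Cube (Vm m),
    ∀ (l : ℕ) (L : Fin l → Form (Em m)), (∀ i, ((L i).size : ℝ) ≤ ((2 : ℝ) ^ m) ^ (2 - ε)) →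
      (IsDerivation S (Hyp b ((Gm m).tseitin γ)) L ∧ (∃ i, L i = Form.ff) ∨
        IsDerivation S ∅ L ∧ ∃ i φ, IsConj (Hyp b ((Gm m).tseitin γ)) φ ∧ L i = Form.neg φ) →
      Real.exp (((2 : ℝ) ^ m) ^ δ) ≤ l := by
  obtain ⟨δ, hδ, hnum⟩ := num ε hε
  refine ⟨δ, hδ, fun S hS hsound b => ?_⟩
  obtain ⟨C, hcore⟩ := core S hS hsound
  obtain ⟨m₀, hm₀⟩ := hnum C (max b 1)
  refine ⟨m₀, fun m hm γ l L hsize hcases => ?_⟩
  by_contra hlt
  push Not at hlt
  have hi0 : ∃ i : Fin l, True := by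
    rcases hcases with ⟨_, i, _⟩ | ⟨_, i, _⟩
    · exact ⟨i, trivial⟩
    · exact ⟨i, trivial⟩
  obtain ⟨i0, -⟩ := hi0
  have hpos : (0 : ℝ) ≤ ((2 : ℝ) ^ m) ^ (2 - ε) := by positivity
  have hsz : ∀ i, (L i).size ≤ ⌊((2 : ℝ) ^ m) ^ (2 - ε)⌋₊ := fun i => Nat.le_floor (hsize i)
  have hs1 : 1 ≤ ⌊((2 : ℝ) ^ m) ^ (2 - ε)⌋₊ := le_trans (form_size_pos (L i0)) (hsz i0)
  have hss : ((⌊((2 : ℝ) ^ m) ^ (2 - ε)⌋₊ : ℕ) : ℝ) ≤ ((2 : ℝ) ^ m) ^ (2 - ε) :=
    Nat.floor_le hpos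
  obtain ⟨par⟩ := hm₀ m hm _ l hs1 hss hlt
  obtain ⟨h1, h2⟩ := hcore (max b 1) m _ _ (le_max_right _ _) hs1 par γ l L le_rfl hsz
  have hsub := Main_hyp_mono (le_max_left b 1) ((Gm m).tseitin γ)
  rcases hcases with ⟨hd, i, hi⟩ | ⟨hd, i, φ, hφ, hi⟩
  · exact h1 (Main_isDerivation_mono hsub hd) i hi
  · exact h2 hd i φ (Main_isConj_mono hsub hφ) hi

end Pool.Agent.MP_9cec2c_lc.SL
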