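import Pool.Agent.Lib.MP_9cec2c_lc.SL.Alg

/-!
TASK MleA: elementary facts on multilinear extensions.
-/

set_option autoImplicit false

open Finset

namespace Pool.Agent.MP_9cec2c_lc.SL

variable {R : Type} [CommRing R] [Algebra ℝ R] {r : ℕ}

theorem mle_add (g h : (Fin r → Bool) → ℝ) (p : Fin r → R) :
    mle (fun b => g b + h b) p = mle g p + mle h p := by
  unfold mle
  rw [← Finset.sum_add_distrib]
  refine Finset.sum_congr rfl fun b _ => ?_
  rw [map_add, add_mul]

theorem mle_sub (g h : (Fin r → Bool) → ℝ) (p : Fin r → R) :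
    mle (fun b => g b - h b) p = mle g p - mle h p := by
  unfold mle
  rw [← Finset.sum_sub_distrib]
  refine Finset.sum_congr rfl fun b _ => ?_
  rw [map_sub, sub_mul]

theorem mle_smul (a : ℝ) (h : (Fin r → Bool) → ℝ) (p : Fin r → R) :
    mle (fun b => a * h b) p = a • mle h p := by
  unfold mle
  rw [Finset.smul_sum]
  refine Finset.sum_congr rfl fun b _ => ?_
  rw [map_mul, mul_assoc, ← Algebra.smul_def]

/-- `r = 0`. -/
theorem mle_zero (h : (Fin 0 → Bool) → ℝ) (p : Fin 0 → R) :
    mle h p = algebraMap ℝ R (h default) := by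
  unfold mle
  rw [Fintype.sum_unique, Finset.univ_eq_empty, Finset.prod_empty, mul_one]
  exact congrArg (fun b => algebraMap ℝ R (h b)) (Subsingleton.elim _ _)

/-- Splitting off the first variable (`Fin.consEquiv`, `Fin.prod_univ_succ`). -/
theorem mle_succ (h : (Fin (r + 1) → Bool) → ℝ) (p : Fin (r + 1) → R) :
    mle h p = (1 - p 0) * mle (fun b : Fin r → Bool => h (Fin.cons false b)) (fun i => p i.succ) +
      p 0 * mle (fun b : Fin r → Bool => h (Fin.cons true b)) (fun i => p i.succ) := by
  unfold mle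
  rw [← (Fin.consEquiv (fun _ : Fin (r + 1) => Bool)).sum_comp, Fintype.sum_prod_type,
    Fintype.sum_bool, Finset.mul_sum, Finset.mul_sum, add_comm]
  congr 1
  · refine Finset.sum_congr rfl fun b _ => ?_
    rw [Fin.prod_univ_succ]
    have hb : (Fin.consEquiv fun _ : Fin (r + 1) => Bool) (false, b) = Fin.cons false b := rfl
    simp only [hb, Fin.cons_zero, Fin.cons_succ, Bool.false_eq_true, if_false]
    ring
  · refine Finset.sum_congr rfl fun b _ => ?_
    rw [Fin.prod_univ_succ]
    have hb : (Fin.consEquiv fun _ : Fin (r + 1) => Bool) (true, b) = Fin.cons true b := rfl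
    simp only [hb, Fin.cons_zero, Fin.cons_succ, if_true]
    ring

/-- The multilinear extension of a constant (induction on `r`, or
`∑_b ∏_i (…) = ∏_i (p i + (1 - p i)) = 1`, `Finset.prod_add` / `Fintype.piFinset`). -/
theorem mle_const (a : ℝ) (p : Fin r → R) : mle (fun _ => a) p = algebraMap ℝ R a := by
  induction r with
  | zero => rw [mle_zero]
  | succ n ih =>
    rw [mle_succ, ih]
    ring

end Pool.Agent.MP_9cec2c_lc.SL
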