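import Pool.Agent.Lib.MP_9cec2c_lc.SL.Contr
import Pool.Agent.Lib.MP_9cec2c_lc.SL.RepGood
import Pool.Agent.Lib.MP_9cec2c_lc.SL.AD

/-!
TASK NextA: the new value `X' = next v τ l A` against the exact value `X = (rep τ A).sk.val v`.
Closed representation: `rep τ A = cl A` (`rep_good`), `X' = X = v A`. Open: `g = close K0 K1 G = sk`,
`X' = mle (approx l g) (v ∘ lab)`, `X = mle (ind ev) (v ∘ lab)` (`mle_ev`).
`next_eq`: `rep_small`.
`next_err`: `mle_sub`, `sk_mle` with `η = (2/3)^l` (`approx_spec`), `g.r ≤ 8M` (`rep_sk_r`), labels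
`rep_sk_lab`.
`next_mem`: `mle_mem_deg` with `d ≤ 150 l √(g.r)`, `g.r ≤ 8 m² ≤ 9 m²`, so `d ≤ 450 l m`.
`next_mem'`: `mle_mem` resp. `hv.bit`, `F_mono`. `next_contr`: `sk_mle` with `η = 2` (`approx_abs`), resp.
`sk_contr` for a leaf.
-/

set_option autoImplicit false

open Finset

namespace Pool.Agent.MP_9cec2c_lc.SL.World

variable {R : Type} [CommRing R] [Algebra ℝ R] (W : World R) {Λ : Type}

theorem next_eq (v : Fm Λ → R) {τ : ℕ} (l : ℕ) (A : Fm Λ) (hA : A.size ≤ τ) :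
    next v τ l A = v A := by
  unfold next
  rw [rep_small A hA]
  rfl

theorem next_err {v : Fm Λ → R} {τ c L L' M : ℕ} {ε : ℝ} (hv : W.IsVal v τ c ε L) (hτ : 1 ≤ τ)
    (hM1 : 1 ≤ M) (hε : 0 ≤ ε) (hM : 32 * (M : ℝ) * ε ≤ 1) (hD : L + 2 * c ≤ W.D)
    (hL : L' + 8 * M * c ≤ L) (l : ℕ) (A : Fm Λ) (hA : A.size ≤ M * τ) {f : R} (hf : f ∈ W.F L') :
    W.N ((next v τ l A - (rep τ A).sk.val v) * f) ≤ 2 * (2 / 3) ^ l * W.N f := by
  have hη : (0 : ℝ) ≤ (2 / 3) ^ l := by positivity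
  have hlab := rep_sk_lab hτ A
  have hr := rep_sk_r hτ hM1 A hA
  unfold next
  generalize rep τ A = ρ at hlab hr ⊢
  cases ρ with
  | cl A' =>
    have h1 : (Rep.cl A').aval v l - (Rep.cl A').sk.val v = 0 := sub_self _
    rw [h1, zero_mul, W.N_zero]
    exact mul_nonneg (mul_nonneg zero_le_two hη) (W.N_nonneg f)
  | op K0 K1 G =>
    have h1 : (Rep.op K0 K1 G).aval v l - (Rep.op K0 K1 G).sk.val v =
        mle (fun b => approx l (close K0 K1 G) b - ind ((close K0 K1 G).ev b))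
          (fun i => v ((close K0 K1 G).lab i)) := by
      rw [mle_sub, mle_ev]
      rfl
    rw [h1]
    exact W.sk_mle hv hε hη hM hD (close K0 K1 G) hlab hr hL _
      (approx_spec (close K0 K1 G) l).1 hf

theorem next_mem {v : Fm Λ → R} {τ c L m : ℕ} {ε : ℝ} (hv : W.IsVal v τ c ε L) (hτ : 1 ≤ τ)
    (hm : 1 ≤ m) {l : ℕ} (hl : 1 ≤ l) (A : Fm Λ) (hA : A.size ≤ m ^ 2 * τ) :
    next v τ l A ∈ W.F (450 * l * m * c) := by
  have hlab := rep_sk_lab hτ A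
  have hr := rep_sk_r hτ (Nat.one_le_pow 2 m hm) A hA
  unfold next
  generalize rep τ A = ρ at hlab hr ⊢
  cases ρ with
  | cl A' =>
    have h1 : v A' ∈ W.F c := (hv.bit A' (hlab ⟨0, Nat.one_pos⟩)).mem
    refine W.F_mono _ _ ?_ h1
    have h2 : 1 ≤ 450 * l * m := Nat.mul_pos (Nat.mul_pos (by norm_num) hl) hm
    exact Nat.le_mul_of_pos_left c h2
  | op K0 K1 G =>
    obtain ⟨d, hd, hq⟩ := (approx_spec (close K0 K1 G) l).2
    have h1 : mle (approx l (close K0 K1 G)) (fun i => v ((close K0 K1 G).lab i)) ∈ W.F (d * c) :=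
      mle_mem_deg W hq fun i => (hv.bit _ (hlab i)).mem
    refine W.F_mono _ _ (Nat.mul_le_mul_right c ?_) h1
    have hr' : ((close K0 K1 G).r : ℝ) ≤ 8 * (m : ℝ) ^ 2 := by
      have h3 : (close K0 K1 G).r ≤ 8 * m ^ 2 := hr
      exact_mod_cast h3
    have h2 : Real.sqrt ((close K0 K1 G).r : ℝ) ≤ 3 * m := by
      rw [Real.sqrt_le_left (by positivity)]
      nlinarith [sq_nonneg (m : ℝ)]
    have h3 : (d : ℝ) ≤ ((450 * l * m : ℕ) : ℝ) := by
      push_cast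
      calc (d : ℝ) ≤ 150 * l * Real.sqrt ((close K0 K1 G).r : ℝ) := hd
        _ ≤ 150 * l * (3 * m) := mul_le_mul_of_nonneg_left h2 (by positivity)
        _ = 450 * l * m := by ring
    exact_mod_cast h3

theorem next_mem' {v : Fm Λ → R} {τ c L M : ℕ} {ε : ℝ} (hv : W.IsVal v τ c ε L) (hτ : 1 ≤ τ)
    (hM1 : 1 ≤ M) (l : ℕ) (A : Fm Λ) (hA : A.size ≤ M * τ) :
    next v τ l A ∈ W.F (8 * M * c) := by
  have hlab := rep_sk_lab hτ A
  have hr := rep_sk_r hτ hM1 A hA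
  unfold next
  generalize rep τ A = ρ at hlab hr ⊢
  cases ρ with
  | cl A' =>
    have h1 : v A' ∈ W.F c := (hv.bit A' (hlab ⟨0, Nat.one_pos⟩)).mem
    refine W.F_mono _ _ ?_ h1
    exact Nat.le_mul_of_pos_left c (Nat.mul_pos (by norm_num) hM1)
  | op K0 K1 G =>
    have h1 : mle (approx l (close K0 K1 G)) (fun i => v ((close K0 K1 G).lab i)) ∈
        W.F ((close K0 K1 G).r * c) :=
      mle_mem W _ fun i => (hv.bit _ (hlab i)).mem
    exact W.F_mono _ _ (Nat.mul_le_mul_right c hr) h1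

theorem next_contr {v : Fm Λ → R} {τ c L L' M : ℕ} {ε : ℝ} (hv : W.IsVal v τ c ε L) (hτ : 1 ≤ τ)
    (hM1 : 1 ≤ M) (hε : 0 ≤ ε) (hM : 32 * (M : ℝ) * ε ≤ 1) (hD : L + 2 * c ≤ W.D)
    (hL : L' + 8 * M * c ≤ L) (l : ℕ) (A : Fm Λ) (hA : A.size ≤ M * τ) {f : R} (hf : f ∈ W.F L') :
    W.N (next v τ l A * f) ≤ 4 * W.N f := by
  have hlab := rep_sk_lab hτ A
  have hr := rep_sk_r hτ hM1 A hA
  unfold next
  generalize rep τ A = ρ at hlab hr ⊢
  cases ρ with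
  | cl A' =>
    have h1 := W.sk_contr hv hε hM hD (Rep.cl A').sk hlab hr hL hf
    have h2 : W.N ((Rep.cl A').aval v l * f) ≤ 2 * W.N f := h1
    have h3 := W.N_nonneg f
    linarith
  | op K0 K1 G =>
    have h1 := W.sk_mle hv hε (zero_le_two : (0 : ℝ) ≤ 2) hM hD (close K0 K1 G) hlab hr hL
      (approx l (close K0 K1 G)) (approx_abs (close K0 K1 G) l) hf
    have h2 : W.N ((Rep.op K0 K1 G).aval v l * f) ≤ 2 * 2 * W.N f := h1
    linarith

end Pool.Agent.MP_9cec2c_lc.SL.World
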