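import Mathlib

/-!
TASK NumFin: three asymptotic inequalities. `k = 2^(2μ)`, `e = 398 (C² + 1) + 2`, `θ = (1/2)^(796 + e)`, so
`((2^398)² θ)^k = 2^(-e k)`; `Q = 8 Z³ (m+1) + 1 ≤ 2^(2^(μ+3))` for large `μ` (`Z ≤ 2^(2^μ)`,
`m ≤ P (μ + 1)`).
`num_eps`: `s ≤ 2^(2m) ≤ 2^(2P(μ+1))`, `(2000 · 2^(2Aμ))^kk ≤ 2^((11 + 2Aμ) kk)` and
`(2/3)^(2^(4μ)) ≤ 2^(-2^(4μ)/2)` (`(2/3)² ≤ 1/2`): exponential against linear. In fact the product is at
most `2^(-2^(3μ))` (`num_eps'`).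
`num_fin`: all powers of `2Q` have constant exponents (at most `T C + T + (2T+1) T`), so all factors but
`(2^398)^(C k C) (2^398)^k = 2^(398 (C²+1) k)` and the last bracket are at most `2^(c 2^μ)` with a constant
`c`, so `≤ 2^k` for large `μ`; the last bracket is at most `2^(-2^(3μ)) + 2^(-e k) ≤ 2 · 2^(-e k)`. The
product is at most `2^(398 (C²+1) k + k + 1 - e k) = 2^(1 - k) < 1`.
`num_z`: `(2^m)^(1/(2P)) ≤ 2^((μ+1)/2)` as `m ≤ P (μ+1)`, `exp x ≤ 2^(2x)`, so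
`4 s n ≤ 2^(2 + 2m + 2 · 2^((μ+1)/2)) ≤ 2^(2^μ)` for large `μ`.
-/

set_option autoImplicit false

open Finset

namespace Pool.Agent.MP_9cec2c_lc.SL

/-- Exponential against linear. -/
private lemma NumFin_growth (a b : ℕ) : ∀ μ : ℕ, 4 * (a + b) ≤ μ → a * μ + b ≤ 2 ^ μ := by
  intro μ hμ
  have h1 : μ / 2 + 1 ≤ 2 ^ (μ / 2) := Nat.lt_two_pow_self
  have h2 : 2 ^ (μ / 2) * 2 ^ (μ / 2) ≤ 2 ^ μ := by
    rw [← pow_add]
    exact Nat.pow_le_pow_right (by norm_num) (by omega)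
  have h3 : 2 * (a + b) ≤ μ / 2 + 1 := by omega
  have h4 : μ + 1 ≤ 2 * (μ / 2 + 1) := by omega
  calc a * μ + b ≤ (a + b) * (μ + 1) := by nlinarith
    _ ≤ (a + b) * (2 * (μ / 2 + 1)) := Nat.mul_le_mul_left _ h4
    _ = (2 * (a + b)) * (μ / 2 + 1) := by ring
    _ ≤ (μ / 2 + 1) * (μ / 2 + 1) := Nat.mul_le_mul_right _ h3
    _ ≤ 2 ^ (μ / 2) * 2 ^ (μ / 2) := Nat.mul_le_mul h1 h1
    _ ≤ 2 ^ μ := h2

private lemma NumFin_two_thirds (μ : ℕ) (hμ : 1 ≤ μ) :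
    (2 / 3 : ℝ) ^ 2 ^ (4 * μ) ≤ (1 / 2) ^ 2 ^ (4 * μ - 1) := by
  have h : 2 ^ (4 * μ) = 2 * 2 ^ (4 * μ - 1) := by
    rw [← pow_succ']
    congr 1
    omega
  rw [h, pow_mul]
  exact pow_le_pow_left₀ (by norm_num) (by norm_num) _

theorem num_eps' (P A kk b : ℕ) : ∃ μ₀ : ℕ, ∀ μ : ℕ, μ₀ ≤ μ → ∀ m s : ℕ, m ≤ P * (μ + 1) →
    s ≤ 2 ^ (2 * m) →
    40 * ((b : ℝ) + 1) * s * ((2000 * (((2 ^ (A * μ) : ℕ) : ℝ)) ^ 2) ^ kk * (2 / 3) ^ 2 ^ (4 * μ)) ≤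
      (1 / 2) ^ 2 ^ (3 * μ) := by
  refine ⟨4 * ((2 * P + 2 * A * kk) + (6 + b + 2 * P + 11 * kk)) + 2, ?_⟩
  intro μ hμ m s hm hs
  have hg := NumFin_growth (2 * P + 2 * A * kk) (6 + b + 2 * P + 11 * kk) μ (by omega)
  have hμ2 : 2 ≤ μ := by omega
  have e1 : 40 * ((b : ℝ) + 1) ≤ 2 ^ (6 + b) := by
    have hb : ((b : ℝ) + 1) ≤ 2 ^ b := by
      have := Nat.lt_two_pow_self (n := b)
      have h' : b + 1 ≤ 2 ^ b := this
      exact_mod_cast h'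
    rw [pow_add]
    have h0 : (0 : ℝ) ≤ (b : ℝ) + 1 := by positivity
    nlinarith
  have e2 : (s : ℝ) ≤ 2 ^ (2 * P * (μ + 1)) := by
    have h1 : s ≤ 2 ^ (2 * P * (μ + 1)) := by
      refine hs.trans (Nat.pow_le_pow_right (by norm_num) ?_)
      nlinarith
    exact_mod_cast h1
  have e3 : (2000 * (((2 ^ (A * μ) : ℕ) : ℝ)) ^ 2) ^ kk ≤ (2 : ℝ) ^ ((11 + 2 * A * μ) * kk) := by
    rw [pow_mul (2 : ℝ) (11 + 2 * A * μ) kk]
    refine pow_le_pow_left₀ (by positivity) ?_ _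
    push_cast
    rw [← pow_mul, pow_add]
    have h1 : A * μ * 2 = 2 * A * μ := by ring
    rw [h1]
    have h2 : (0 : ℝ) < 2 ^ (2 * A * μ) := by positivity
    nlinarith
  have e4 := NumFin_two_thirds μ (by omega)
  have key : 6 + b + 2 * P * (μ + 1) + (11 + 2 * A * μ) * kk + 2 ^ (3 * μ) ≤ 2 ^ (4 * μ - 1) := by
    have h1 : 2 * 2 ^ (3 * μ) ≤ 2 ^ (4 * μ - 1) := by
      rw [← pow_succ']
      exact Nat.pow_le_pow_right (by norm_num) (by omega)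
    have h2 : 2 ^ μ ≤ 2 ^ (3 * μ) := Nat.pow_le_pow_right (by norm_num) (by omega)
    have h3 : 6 + b + 2 * P * (μ + 1) + (11 + 2 * A * μ) * kk =
        (2 * P + 2 * A * kk) * μ + (6 + b + 2 * P + 11 * kk) := by ring
    omega
  have hpos : ∀ n : ℕ, (0 : ℝ) < 2 ^ n := fun n => by positivity
  calc 40 * ((b : ℝ) + 1) * s * ((2000 * (((2 ^ (A * μ) : ℕ) : ℝ)) ^ 2) ^ kk * (2 / 3) ^ 2 ^ (4 * μ))
      ≤ (2 ^ (6 + b) * 2 ^ (2 * P * (μ + 1))) *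
        ((2 : ℝ) ^ ((11 + 2 * A * μ) * kk) * (1 / 2) ^ 2 ^ (4 * μ - 1)) := by
        refine mul_le_mul ?_ ?_ (by positivity) (by positivity)
        · exact mul_le_mul e1 e2 (by positivity) (by positivity)
        · exact mul_le_mul e3 e4 (by positivity) (by positivity)
    _ = 2 ^ (6 + b + 2 * P * (μ + 1) + (11 + 2 * A * μ) * kk) * (1 / 2) ^ 2 ^ (4 * μ - 1) := by
        rw [pow_add (2 : ℝ) (6 + b + 2 * P * (μ + 1)), pow_add (2 : ℝ) (6 + b) (2 * P * (μ + 1))]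
        ring
    _ ≤ (1 / 2) ^ 2 ^ (3 * μ) := by
        rw [one_div, inv_pow, inv_pow, ← div_eq_mul_inv, div_le_iff₀ (hpos _), inv_mul_eq_div,
          le_div_iff₀ (hpos _), ← pow_add]
        exact pow_le_pow_right₀ (by norm_num) key

theorem num_z (P : ℕ) (hP : 1 ≤ P) : ∃ μ₀ : ℕ, ∀ μ : ℕ, μ₀ ≤ μ → ∀ m s n : ℕ, m ≤ P * (μ + 1) →
    s ≤ 2 ^ (2 * m) → (n : ℝ) < Real.exp (((2 : ℝ) ^ m) ^ (1 / (2 * (P : ℝ)))) →
    4 * s * n ≤ 2 ^ 2 ^ μ := by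
  refine ⟨4 * (4 * P + (4 + 4 * P)) + 6, ?_⟩
  intro μ hμ m s n hm hs hn
  have hg := NumFin_growth (4 * P) (4 + 4 * P) μ (by omega)
  have hPr : (0 : ℝ) < P := by exact_mod_cast hP
  have h1 : ((2 : ℝ) ^ m) ^ (1 / (2 * (P : ℝ))) ≤ ((2 ^ (μ / 2 + 1) : ℕ) : ℝ) := by
    rw [← Real.rpow_natCast, ← Real.rpow_mul (by norm_num)]
    push_cast
    rw [← Real.rpow_natCast]
    refine Real.rpow_le_rpow_of_exponent_le (by norm_num) ?_
    rw [mul_one_div, div_le_iff₀ (by positivity)]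
    have h2 : m ≤ (μ / 2 + 1) * (2 * P) := by
      have h3 : μ + 1 ≤ 2 * (μ / 2 + 1) := by omega
      calc m ≤ P * (μ + 1) := hm
        _ ≤ P * (2 * (μ / 2 + 1)) := Nat.mul_le_mul_left _ h3
        _ = (μ / 2 + 1) * (2 * P) := by ring
    exact_mod_cast h2
  have h2 : Real.exp (((2 : ℝ) ^ m) ^ (1 / (2 * (P : ℝ)))) ≤ (2 : ℝ) ^ (2 * 2 ^ (μ / 2 + 1)) := by
    refine (Real.exp_le_exp.2 h1).trans ?_
    rw [← Real.exp_one_pow, pow_mul]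
    refine pow_le_pow_left₀ (Real.exp_pos _).le ?_ _
    have := Real.exp_one_lt_d9
    linarith
  have h3 : n ≤ 2 ^ (2 * 2 ^ (μ / 2 + 1)) := by
    have h4 := (hn.trans_le h2).le
    exact_mod_cast h4
  have key : 2 + 2 * m + 2 * 2 ^ (μ / 2 + 1) ≤ 2 ^ μ := by
    have h5 : 2 ^ (μ / 2) * 2 ^ (μ / 2) ≤ 2 ^ μ := by
      rw [← pow_add]
      exact Nat.pow_le_pow_right (by norm_num) (by omega)
    have h6 : 8 ≤ 2 ^ (μ / 2) := by
      calc 8 = 2 ^ 3 := by norm_num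
        _ ≤ 2 ^ (μ / 2) := Nat.pow_le_pow_right (by norm_num) (by omega)
    have h7 : 8 * 2 ^ (μ / 2) ≤ 2 ^ μ := (Nat.mul_le_mul_right _ h6).trans h5
    have h8 : 2 * 2 ^ (μ / 2 + 1) = 4 * 2 ^ (μ / 2) := by rw [pow_succ]; ring
    have h9 : 2 * m ≤ 2 * P * μ + 2 * P := by nlinarith
    have h10 : 4 * P * μ = 2 * (2 * P * μ) := by ring
    rw [h8]
    omega
  calc 4 * s * n ≤ 4 * 2 ^ (2 * m) * 2 ^ (2 * 2 ^ (μ / 2 + 1)) :=
        Nat.mul_le_mul (Nat.mul_le_mul_left _ hs) h3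
    _ = 2 ^ (2 + 2 * m + 2 * 2 ^ (μ / 2 + 1)) := by
        rw [pow_add 2 (2 + 2 * m), pow_add 2 2 (2 * m)]; norm_num
    _ ≤ 2 ^ 2 ^ μ := Nat.pow_le_pow_right (by norm_num) key

theorem num_fin (P A kk T C b : ℕ) : ∃ μ₀ : ℕ, ∀ μ : ℕ, μ₀ ≤ μ → ∀ (m s Z : ℕ) (Q θ : ℝ),
    m ≤ P * (μ + 1) → s ≤ 2 ^ (2 * m) → Z ≤ 2 ^ 2 ^ μ → Q = 8 * (Z : ℝ) ^ 3 * (m + 1) + 1 →
    θ = (1 / 2) ^ (796 + (398 * (C ^ 2 + 1) + 2)) →
    (2 * (2 ^ 398) ^ (C * 2 ^ (2 * μ)) * ((2 * Q) ^ T * 2)) ^ C *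
    (5 * (2 ^ 398) ^ (2 ^ (2 * μ)) * ((2 * Q) ^ T * 2) *
      ((20 * Q * (2 * Q) ^ (2 * T) * 2 ^ 2) ^ T * (T + 1) *
        (40 * b * s * ((2000 * (((2 ^ (A * μ) : ℕ) : ℝ)) ^ 2) ^ kk * (2 / 3) ^ 2 ^ (4 * μ)) +
          ((2 ^ 398) ^ 2 * θ) ^ (2 ^ (2 * μ))))) < 1 := by
  obtain ⟨μ₁, h₁⟩ := num_eps' P A kk b
  set c1 := 9 * T * C + 9 * T + 8 * T + 18 * T ^ 2 with hc1
  set c0 := 2 * C + 4 + 7 * T + T + 1 with hc0
  set e := 398 * (C ^ 2 + 1) + 2 with he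
  refine ⟨μ₁ + 4 * (P + (4 + P)) + (c1 + c0) + e, ?_⟩
  intro μ hμ m s Z Q θ hm hs hZ hQ hθ
  have heμ : e ≤ μ := le_trans (Nat.le_add_left _ _) hμ
  have hcμ : c1 + c0 ≤ μ :=
    le_trans (le_trans (Nat.le_add_left _ _) (Nat.le_add_right _ _)) hμ
  have hA := h₁ μ (by omega) m s hm hs
  have hg := NumFin_growth P (4 + P) μ (by omega)
  set w := 2 ^ μ with hw
  have hwμ : μ < w := Nat.lt_two_pow_self
  have hw1 : 1 ≤ w := Nat.one_le_two_pow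
  have hk : 2 ^ (2 * μ) = w * w := by rw [hw, ← pow_add]; congr 1; omega
  have hew : e ≤ w := heμ.trans hwμ.le
  have hcw : c1 + c0 ≤ w := hcμ.trans hwμ.le
  -- Q
  have hQ1 : (1 : ℝ) ≤ Q := by
    rw [hQ]
    have : (0 : ℝ) ≤ 8 * (Z : ℝ) ^ 3 * (m + 1) := by positivity
    linarith
  have hQ0 : (0 : ℝ) ≤ Q := by linarith
  have hQ2 : Q ≤ 2 ^ (8 * w) := by
    have hm1 : ((m : ℝ) + 1) ≤ 2 ^ (P * (μ + 1)) := by
      have h1 : m + 1 ≤ 2 ^ m := Nat.lt_two_pow_self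
      have h2 : m + 1 ≤ 2 ^ (P * (μ + 1)) := h1.trans (Nat.pow_le_pow_right (by norm_num) hm)
      exact_mod_cast h2
    have hZr : (Z : ℝ) ≤ 2 ^ w := by exact_mod_cast hZ
    have hZ3 : (Z : ℝ) ^ 3 ≤ 2 ^ (3 * w) := by
      have h3 : (Z : ℝ) ^ 3 ≤ (2 ^ w) ^ 3 := pow_le_pow_left₀ (by positivity) hZr 3
      rwa [← pow_mul, mul_comm w 3] at h3
    have h4 : 8 * (Z : ℝ) ^ 3 * (m + 1) ≤ 8 * 2 ^ (3 * w) * 2 ^ (P * (μ + 1)) := by
      refine mul_le_mul ?_ hm1 (by positivity) (by positivity)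
      linarith
    have h5 : (1 : ℝ) ≤ 8 * 2 ^ (3 * w) * 2 ^ (P * (μ + 1)) := by
      have h6 : (1 : ℝ) ≤ 2 ^ (3 * w) := one_le_pow₀ (by norm_num)
      have h7 : (1 : ℝ) ≤ 2 ^ (P * (μ + 1)) := one_le_pow₀ (by norm_num)
      have h8 : (1 : ℝ) ≤ 8 * 2 ^ (3 * w) := by linarith
      exact one_le_mul_of_one_le_of_one_le h8 h7
    have h8 : Q ≤ 2 ^ (4 + 3 * w + P * (μ + 1)) := by
      rw [hQ, pow_add, pow_add]
      have h9 : (2 : ℝ) ^ 4 * 2 ^ (3 * w) * 2 ^ (P * (μ + 1)) =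
          2 * (8 * 2 ^ (3 * w) * 2 ^ (P * (μ + 1))) := by ring
      rw [h9]
      linarith
    refine h8.trans (pow_le_pow_right₀ (by norm_num) ?_)
    have h10 : P * (μ + 1) = P * μ + P := by ring
    omega
  have h2Q : 2 * Q ≤ 2 ^ (9 * w) := by
    have h1 : 2 * Q ≤ 2 ^ (8 * w + 1) := by rw [pow_succ]; linarith
    exact h1.trans (pow_le_pow_right₀ (by norm_num) (by omega))
  have h2Q0 : (0 : ℝ) ≤ 2 * Q := by linarith
  have hQT : (2 * Q) ^ T ≤ 2 ^ (9 * w * T) := by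
    rw [pow_mul]
    exact pow_le_pow_left₀ h2Q0 h2Q T
  -- term 1
  have t1 : (2 * (2 ^ 398) ^ (C * 2 ^ (2 * μ)) * ((2 * Q) ^ T * 2)) ^ C ≤
      2 ^ ((2 + 398 * (C * (w * w)) + 9 * w * T) * C) := by
    rw [pow_mul (2 : ℝ) (2 + 398 * (C * (w * w)) + 9 * w * T) C]
    refine pow_le_pow_left₀ (by positivity) ?_ C
    rw [hk, ← pow_mul]
    have e1 : (2 : ℝ) ^ (2 + 398 * (C * (w * w)) + 9 * w * T) =
        2 * 2 ^ (398 * (C * (w * w))) * (2 ^ (9 * w * T) * 2) := by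
      rw [pow_add, pow_add]; ring
    rw [e1]
    refine mul_le_mul_of_nonneg_left ?_ (by positivity)
    exact mul_le_mul_of_nonneg_right hQT (by norm_num)
  -- term 2
  have t2 : 5 * (2 ^ 398) ^ (2 ^ (2 * μ)) * ((2 * Q) ^ T * 2) ≤
      2 ^ (4 + 398 * (w * w) + 9 * w * T) := by
    rw [hk, ← pow_mul]
    have e1 : (2 : ℝ) ^ (4 + 398 * (w * w) + 9 * w * T) =
        8 * 2 ^ (398 * (w * w)) * (2 ^ (9 * w * T) * 2) := by
      rw [pow_add, pow_add]; ring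
    rw [e1]
    refine mul_le_mul ?_ ?_ (by positivity) (by positivity)
    · exact mul_le_mul_of_nonneg_right (by norm_num) (by positivity)
    · exact mul_le_mul_of_nonneg_right hQT (by norm_num)
  -- term 3
  have t3 : (20 * Q * (2 * Q) ^ (2 * T) * 2 ^ 2) ^ T * ((T : ℝ) + 1) ≤
      2 ^ ((7 + 8 * w + 18 * w * T) * T + T) := by
    rw [pow_add (2 : ℝ) ((7 + 8 * w + 18 * w * T) * T) T, pow_mul (2 : ℝ) (7 + 8 * w + 18 * w * T) T]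
    have hT : ((T : ℝ) + 1) ≤ 2 ^ T := by
      have h1 : T + 1 ≤ 2 ^ T := Nat.lt_two_pow_self
      exact_mod_cast h1
    refine mul_le_mul ?_ hT (by positivity) (by positivity)
    refine pow_le_pow_left₀ (by positivity) ?_ T
    have h1 : (2 * Q) ^ (2 * T) ≤ 2 ^ (18 * w * T) := by
      have h2 : (2 * Q) ^ (2 * T) ≤ (2 ^ (9 * w)) ^ (2 * T) := pow_le_pow_left₀ h2Q0 h2Q _
      rw [← pow_mul] at h2
      have h3 : 9 * w * (2 * T) = 18 * w * T := by ring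
      rwa [h3] at h2
    have e1 : (2 : ℝ) ^ (7 + 8 * w + 18 * w * T) = 32 * 2 ^ (8 * w) * 2 ^ (18 * w * T) * 2 ^ 2 := by
      rw [pow_add, pow_add]; ring
    rw [e1]
    refine mul_le_mul_of_nonneg_right ?_ (by norm_num)
    refine mul_le_mul ?_ h1 (by positivity) (by positivity)
    refine mul_le_mul (by norm_num) hQ2 hQ0 (by norm_num)
  -- term 4
  have t4 : 40 * b * s * ((2000 * (((2 ^ (A * μ) : ℕ) : ℝ)) ^ 2) ^ kk * (2 / 3) ^ 2 ^ (4 * μ)) +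
      ((2 ^ 398) ^ 2 * θ) ^ (2 ^ (2 * μ)) ≤ 2 * (1 / 2) ^ (e * (w * w)) := by
    have h1 : 40 * (b : ℝ) * s * ((2000 * (((2 ^ (A * μ) : ℕ) : ℝ)) ^ 2) ^ kk * (2 / 3) ^ 2 ^ (4 * μ)) ≤
        (1 / 2) ^ (e * (w * w)) := by
      refine le_trans ?_ (hA.trans ?_)
      · refine mul_le_mul_of_nonneg_right ?_ (by positivity)
        refine mul_le_mul_of_nonneg_right ?_ (by positivity)
        linarith
      · refine pow_le_pow_of_le_one (by norm_num) (by norm_num) ?_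
        have h3 : 2 ^ (3 * μ) = w * (w * w) := by
          rw [hw, ← pow_add, ← pow_add]; congr 1; omega
        rw [h3]
        exact Nat.mul_le_mul_right _ hew
    have h2 : ((2 ^ 398) ^ 2 * θ) ^ (2 ^ (2 * μ)) = (1 / 2 : ℝ) ^ (e * (w * w)) := by
      rw [hk, pow_mul (1 / 2 : ℝ) e (w * w), hθ]
      congr 1
      rw [pow_add, ← pow_mul]
      have h4 : (2 : ℝ) ^ (398 * 2) * (1 / 2) ^ 796 = 1 := by
        rw [← mul_pow]; norm_num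
      rw [← mul_assoc, h4, one_mul]
    rw [h2]
    linarith
  -- product
  have hE : (2 + 398 * (C * (w * w)) + 9 * w * T) * C + (4 + 398 * (w * w) + 9 * w * T) +
      ((7 + 8 * w + 18 * w * T) * T + T) + 1 < e * (w * w) := by
    have h1 : (2 + 398 * (C * (w * w)) + 9 * w * T) * C + (4 + 398 * (w * w) + 9 * w * T) +
      ((7 + 8 * w + 18 * w * T) * T + T) + 1 = 398 * (C ^ 2 + 1) * (w * w) + (w * c1 + c0) := by
      rw [hc1, hc0]; ring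
    have h2 : w * c1 + c0 ≤ w * w := by
      calc w * c1 + c0 ≤ w * c1 + w * c0 :=
            Nat.add_le_add_left (Nat.le_mul_of_pos_left c0 hw1) _
        _ = w * (c1 + c0) := by ring
        _ ≤ w * w := Nat.mul_le_mul_left _ hcw
    have h3 : e * (w * w) = 398 * (C ^ 2 + 1) * (w * w) + 2 * (w * w) := by
      rw [he]; ring
    have h4 : 0 < w * w := by positivity
    rw [h1, h3]
    omega
  have hfin : 2 ^ ((2 + 398 * (C * (w * w)) + 9 * w * T) * C) *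
      (2 ^ (4 + 398 * (w * w) + 9 * w * T) *
        (2 ^ ((7 + 8 * w + 18 * w * T) * T + T) * (2 * (1 / 2 : ℝ) ^ (e * (w * w))))) < 1 := by
    have h1 : (2 : ℝ) ^ ((2 + 398 * (C * (w * w)) + 9 * w * T) * C) *
      (2 ^ (4 + 398 * (w * w) + 9 * w * T) *
        (2 ^ ((7 + 8 * w + 18 * w * T) * T + T) * (2 * (1 / 2 : ℝ) ^ (e * (w * w))))) =
        2 ^ ((2 + 398 * (C * (w * w)) + 9 * w * T) * C + (4 + 398 * (w * w) + 9 * w * T) +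
      ((7 + 8 * w + 18 * w * T) * T + T) + 1) / 2 ^ (e * (w * w)) := by
      rw [pow_add _ _ 1, pow_add _ (_ + _) (_ + T), pow_add _ (_ * C) _, one_div, inv_pow, pow_one]
      ring
    rw [h1, div_lt_one (by positivity)]
    exact pow_lt_pow_right₀ (by norm_num) hE
  refine lt_of_le_of_lt ?_ hfin
  have hθ0 : 0 ≤ θ := by rw [hθ]; positivity
  refine mul_le_mul t1 ?_ (by positivity) (by positivity)
  refine mul_le_mul t2 ?_ (by positivity) (by positivity)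
  exact mul_le_mul t3 t4 (by positivity) (by positivity)

end Pool.Agent.MP_9cec2c_lc.SL
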