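import Pool.Agent.Lib.MP_9cec2c_lc.SL.Core
import Pool.Agent.Lib.MP_9cec2c_lc.SL.NumFin

/-!
TASK Num: choice of the parameters.

Given `ε > 0` (we may assume `ε ≤ 1`: `(2^m)^(2-ε)` decreases in `ε`). Let `A` be a natural number with
`A ≥ 24/ε + 24`, `P = A²`, `δ = 1/(2P)`. These depend on `ε` only. Given `C`, `b`, let `m` be large,
`μ = ⌊m/P⌋` (also large), `P μ ≤ m ≤ P (μ + 1)`.
`a = 2^(A μ)`, `l₀ = 2^(4μ)`, `kk = ⌈((2-ε)P + 1)/(2A)⌉`, `gT = 2μ`, `t = A μ`, `l = μ`,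
`T = ⌈(A+5) kk/(A-1)⌉`, `mT = m - T t`, `k₀ = P + 1`, `e = 398 (C² + 1) + 2`, `θ = 2^(-796-e)`,
`Q = 8 Z³ (m+1) + 1`. The three inequalities with double exponents (`hε`, `hfin`, the bound for `Z`) are in
NumFin: `num_eps'`, `num_fin`, `num_z` (for the constants `P`, `A`, `kk`, `T`, `C`, `b`; take `μ` large enough).
* `s ≤ 2^((2-ε) m) ≤ 2^((2-ε) P μ + 2P) ≤ 2^(((2-ε)P + 1) μ) ≤ 2^(2 A kk μ) = (a²)^kk` (`μ ≥ 2P`).
* `A kk ≤ (1-ε/2) P + 1 + A`, `kk ≤ A + 2`.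
* `450 l₀ a ≤ 2^((A+5) μ)` (`μ ≥ 9`), so `(450 l₀ a)^kk ≤ 2^((A+5) kk μ)` and
  `(A+5) kk ≤ (1-ε/2) P + 6A + 11`.
* `gT + T (t - l) = (2 + T (A-1)) μ ≥ (A+5) kk μ`: `hg`.
* `T (A-1) ≤ (A+5) kk + A - 1`, `T ≤ A + 10` (`A ≥ 24`), so `T A ≤ (1-ε/2) P + 8A + 20`.
* `h3`: `5 + 2μ + Aμ + μ + T A μ < P μ ≤ m` since `9A + 24 ≤ (ε/2) A²` (`A ≥ 24/ε + 24`: `(ε/2)A² ≥ 12 A`);
  in particular `T t ≤ m`.
* `hD`: the left side is at most `2^(((1-ε/2)P + 8A + 12) μ) < 2^(P μ)` for large `μ`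
  (`a² = 2^(2Aμ)`, the constants are absorbed by `2^μ`).
* `hε`: `4 s (2000 a²)^kk ≤ 2^(O(m))` and `(2/3)^(l₀)` with `l₀ = 2^(4μ)`.
* `h1`: `22 m ≤ 2^μ`, so `22 · 2^m (22 m/2^t)^k₀ ≤ 22 · 2^P · 2^(P μ) · 2^(-(A-1) μ (P+1)) ≤ 1/4`.
* `h2`, `h5`: `2^l = 2^μ` large against `m`. `h4`, `hb`, `hm2`: large `μ`.
* `hC`: `2^mT ≥ 2^(5 + gT + t + l) = 32 · 2^gT · 2^(t + l)`, `2^(t+l) > C + 1`.
* `hfin`: let `k = 2^gT = 2^(2μ)`. Since `n < exp((2^m)^δ)` and `(2^m)^δ ≤ 2^((μ+1)/2)`, and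
  `4 s ≤ 2^(2m+2)`, we have `Z = 4 s n ≤ 2^(2^μ)` for large `μ`, so `Q ≤ 2^(2^(μ+3))`. All factors which are
  powers of `2Q` (with constant exponents), constants and `T + 1` are at most `2^(c 2^μ)` with a
  constant `c`, hence `≤ 2^(k/2)` for large `μ`. `(2^398)^(C k C) (2^398)^k = 2^(398 (C²+1) k)`.
  `((2^398)² θ)^k = 2^(-e k)`, and `40 b s (2000a²)^kk (2/3)^(2^(4μ)) ≤ 2^(-e k)` for large `μ`. The product is
  at most `2^(398 (C²+1) k + k/2 + 1 - e k) = 2^(1 - 3k/2) < 1`.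
-/

set_option autoImplicit false

open Finset
open scoped Classical

namespace Pool.Agent.MP_9cec2c_lc.SL

/-- Exponential against linear. -/
private theorem Num_exp (K : ℕ) : ∃ μ₀ : ℕ, ∀ μ : ℕ, μ₀ ≤ μ → K * (μ + 1) ≤ 2 ^ μ := by
  refine ⟨2 * K + 2, fun μ hμ => ?_⟩
  induction μ, hμ using Nat.le_induction with
  | base =>
    have h : K + 1 ≤ 2 ^ K := Nat.lt_two_pow_self
    have h2 : 2 ^ (2 * K + 2) = 4 * (2 ^ K * 2 ^ K) := by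
      rw [pow_add, two_mul, pow_add]; ring
    rw [h2]
    nlinarith
  | succ n hn ih =>
    rw [pow_succ]
    have h0 : 0 ≤ K * n := Nat.zero_le _
    nlinarith

/-- The constants that depend on `ε` only. -/
private theorem Num_const (ε : ℝ) (hε : 0 < ε) (hε1 : ε ≤ 1) : ∃ A kk T : ℕ, 48 ≤ A ∧
    (2 - ε) * ((A * A : ℕ) : ℝ) + 1 ≤ 2 * A * kk ∧ (A + 5) * kk + 2 * A + 2 ≤ A * A ∧
    (A + 5) * kk ≤ T * (A - 1) ∧ T * A + A + 4 ≤ A * A := by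
  obtain ⟨A, hA⟩ := exists_nat_ge (24 / ε + 24)
  have h24 : 24 ≤ 24 / ε := by
    rw [le_div_iff₀ hε]
    linarith
  have hA48 : (48 : ℝ) ≤ A := by linarith
  have hA0 : (0 : ℝ) < A := by linarith
  have hεA : 24 ≤ ε * (A - 24) := by
    have h : 24 / ε ≤ A - 24 := by linarith
    rw [div_le_iff₀ hε] at h
    linarith
  obtain ⟨kk, hkk⟩ : ∃ kk : ℕ, kk = ⌈((2 - ε) * ((A * A : ℕ) : ℝ) + 1) / (2 * A)⌉₊ := ⟨_, rfl⟩
  have h1 : (2 - ε) * ((A * A : ℕ) : ℝ) + 1 ≤ 2 * A * kk := by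
    have h := Nat.le_ceil (((2 - ε) * ((A * A : ℕ) : ℝ) + 1) / (2 * A))
    rw [← hkk, div_le_iff₀ (by positivity)] at h
    linarith
  have hnn : 0 ≤ ((2 - ε) * ((A * A : ℕ) : ℝ) + 1) / (2 * A) := by
    apply div_nonneg
    · have : 0 ≤ (2 - ε) * ((A * A : ℕ) : ℝ) := mul_nonneg (by linarith) (Nat.cast_nonneg _)
      linarith
    · positivity
  have h2 : (2 : ℝ) * A * kk < (2 - ε) * (A * A) + 1 + 2 * A := by
    have h := Nat.ceil_lt_add_one hnn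
    rw [← hkk] at h
    have h' : (kk : ℝ) - 1 < ((2 - ε) * ((A * A : ℕ) : ℝ) + 1) / (2 * A) := by linarith
    rw [lt_div_iff₀ (by positivity)] at h'
    push_cast at h'
    linarith
  have hA48' : 48 ≤ A := by exact_mod_cast hA48
  have h3 : kk + 11 ≤ A := by
    by_contra hc
    push Not at hc
    have hc1 : A ≤ kk + 10 := by omega
    have hc2 : (A : ℝ) - 10 ≤ kk := by
      have : (A : ℝ) ≤ ((kk + 10 : ℕ) : ℝ) := by exact_mod_cast hc1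
      push_cast at this
      linarith
    have hc3 : 2 * (A : ℝ) * (A - 10) ≤ 2 * A * kk := mul_le_mul_of_nonneg_left hc2 (by linarith)
    have hc4 : 24 * (A : ℝ) ≤ ε * A * A := by
      have h5 : 24 ≤ ε * A := by nlinarith
      nlinarith
    nlinarith
  obtain ⟨B, rfl⟩ : ∃ B, A = B + 11 := ⟨A - 11, by omega⟩
  have hB : kk ≤ B := by omega
  have hq : B + 11 - 1 = B + 10 := by omega
  have hx : (B + 11 + 5) * kk ≤ B * B + 16 * B := by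
    have : (B + 16) * kk ≤ (B + 16) * B := Nat.mul_le_mul_left _ hB
    nlinarith
  have hlt : (B + 11 + 5) * kk < (B + 10) * (B + 6) := by nlinarith
  have hdiv : (B + 11 + 5) * kk / (B + 10) < B + 6 := Nat.div_lt_of_lt_mul hlt
  refine ⟨B + 11, kk, (B + 11 + 5) * kk / (B + 10) + 1, hA48', h1, by nlinarith, ?_, ?_⟩
  · rw [hq]
    have h := Nat.lt_mul_div_succ ((B + 11 + 5) * kk) (by omega : 0 < B + 10)
    calc (B + 11 + 5) * kk ≤ (B + 10) * ((B + 11 + 5) * kk / (B + 10) + 1) := h.le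
      _ = ((B + 11 + 5) * kk / (B + 10) + 1) * (B + 10) := mul_comm _ _
  · have h5 : (B + 11 + 5) * kk / (B + 10) + 1 ≤ B + 6 := hdiv
    have h6 : ((B + 11 + 5) * kk / (B + 10) + 1) * (B + 11) ≤ (B + 6) * (B + 11) :=
      Nat.mul_le_mul_right _ h5
    nlinarith

private theorem Num_aux (ε : ℝ) (hε : 0 < ε) (hε1 : ε ≤ 1) : ∃ δ : ℝ, 0 < δ ∧ ∀ C b : ℕ, ∃ m₀ : ℕ,
    ∀ m : ℕ, m₀ ≤ m → ∀ s n : ℕ, 1 ≤ s → (s : ℝ) ≤ ((2 : ℝ) ^ m) ^ (2 - ε) →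
      (n : ℝ) < Real.exp (((2 : ℝ) ^ m) ^ δ) → Nonempty (Par C b m s (4 * s * n)) := by
  obtain ⟨A, kk, T, hA, hkk, hX, hT1, hT2⟩ := Num_const ε hε hε1
  obtain ⟨P, hP⟩ : ∃ P : ℕ, P = A * A := ⟨_, rfl⟩
  have hP1 : 1 ≤ P := by nlinarith
  have hPR : (0 : ℝ) < P := by exact_mod_cast hP1
  refine ⟨1 / (2 * (P : ℝ)), by positivity, fun C b => ?_⟩
  obtain ⟨μ1, hμ1⟩ := num_eps' P A kk b
  obtain ⟨μ2, hμ2⟩ := num_z P hP1
  obtain ⟨μ3, hμ3⟩ := num_fin P A kk T C b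
  obtain ⟨W, hW⟩ : ∃ W : ℕ, W = 352 * (796 + (398 * (C ^ 2 + 1) + 2)) := ⟨_, rfl⟩
  obtain ⟨K, hK⟩ : ∃ K : ℕ, K = 2 * P + 88 * (P + 1) + 22 * P + 11616 * P * 2 ^ W + (C + 1) +
      8 * (4 + 2 * b + 200 * kk) + 8 * (3 * 44 + 2 * b) + 1 := ⟨_, rfl⟩
  obtain ⟨μ4, hμ4⟩ := Num_exp K
  obtain ⟨μ0, hμ0⟩ : ∃ μ0 : ℕ, μ0 = μ1 + μ2 + μ3 + μ4 + 2 * P + 9 := ⟨_, rfl⟩
  refine ⟨P * μ0, fun m hm s n hs1 hs hn => ?_⟩
  -- `μ`
  obtain ⟨μ, hμdef⟩ : ∃ μ : ℕ, μ = m / P := ⟨_, rfl⟩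
  have hμge : μ0 ≤ μ := by
    rw [hμdef, Nat.le_div_iff_mul_le (by omega)]
    rw [mul_comm]
    exact hm
  have hm1 : P * μ ≤ m := by
    rw [hμdef]
    exact Nat.mul_div_le m P
  have hm2 : m ≤ P * (μ + 1) := by
    rw [hμdef]
    exact (Nat.lt_mul_div_succ m (by omega)).le
  have g1 : μ1 ≤ μ := by omega
  have g2 : μ2 ≤ μ := by omega
  have g3 : μ3 ≤ μ := by omega
  have g4 : μ4 ≤ μ := by omega
  have g5 : 2 * P ≤ μ := by omega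
  have g6 : 9 ≤ μ := by omega
  have hKμ := hμ4 μ g4
  have hK0 : K ≤ 2 ^ μ := by
    have : K * 1 ≤ K * (μ + 1) := Nat.mul_le_mul_left _ (by omega)
    omega
  -- `s`
  have hsm : s ≤ 2 ^ (2 * m) := by
    have h1 : (s : ℝ) ≤ ((2 : ℝ) ^ m) ^ (2 : ℝ) := by
      refine hs.trans ?_
      exact Real.rpow_le_rpow_of_exponent_le (one_le_pow₀ (by norm_num)) (by linarith)
    have h2 : ((2 : ℝ) ^ m) ^ (2 : ℝ) = ((2 ^ (2 * m) : ℕ) : ℝ) := by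
      rw [show (2 : ℝ) = ((2 : ℕ) : ℝ) by norm_num, Real.rpow_natCast, ← pow_mul, mul_comm m 2]
      push_cast
      ring
    rw [h2] at h1
    exact_mod_cast h1
  have hsa : s ≤ ((2 ^ (A * μ)) ^ 2) ^ kk := by
    have h1 : ((2 : ℝ) ^ m) ^ (2 - ε) = (2 : ℝ) ^ ((m : ℝ) * (2 - ε)) := by
      rw [← Real.rpow_natCast, ← Real.rpow_mul (by norm_num)]
    have h2 : ((((2 ^ (A * μ)) ^ 2) ^ kk : ℕ) : ℝ) = (2 : ℝ) ^ (((A * μ * 2 * kk : ℕ)) : ℝ) := by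
      rw [Real.rpow_natCast]
      push_cast
      rw [← pow_mul, ← pow_mul]
      congr 1
      ring
    have h3 : (m : ℝ) * (2 - ε) ≤ ((A * μ * 2 * kk : ℕ) : ℝ) := by
      have h4 : (m : ℝ) ≤ P * (μ + 1) := by exact_mod_cast hm2
      have h5 : (m : ℝ) * (2 - ε) ≤ P * (μ + 1) * (2 - ε) :=
        mul_le_mul_of_nonneg_right h4 (by linarith)
      have h6 : (P : ℝ) * (2 - ε) ≤ 2 * P := by nlinarith
      have h7 : (2 * (P : ℝ)) ≤ μ := by exact_mod_cast g5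
      have h8 : (2 - ε) * (P : ℝ) + 1 ≤ 2 * A * kk := by
        rw [hP]
        exact hkk
      have h9 : (0 : ℝ) ≤ μ := Nat.cast_nonneg _
      have h10 : ((2 - ε) * (P : ℝ) + 1) * μ ≤ 2 * A * kk * μ := mul_le_mul_of_nonneg_right h8 h9
      push_cast
      nlinarith
    have h4 : (s : ℝ) ≤ ((((2 ^ (A * μ)) ^ 2) ^ kk : ℕ) : ℝ) := by
      rw [h2]
      refine hs.trans ?_
      rw [h1]
      exact Real.rpow_le_rpow_of_exponent_le (by norm_num) h3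
    exact_mod_cast h4
  -- the power of `450 l₀ a`
  have hY : (450 * 2 ^ (4 * μ) * 2 ^ (A * μ)) ^ kk ≤ 2 ^ ((A + 5) * kk * μ) := by
    have h1 : 450 ≤ 2 ^ μ := by
      calc 450 ≤ 2 ^ 9 := by norm_num
        _ ≤ 2 ^ μ := Nat.pow_le_pow_right (by norm_num) g6
    have h2 : 450 * 2 ^ (4 * μ) * 2 ^ (A * μ) ≤ 2 ^ ((A + 5) * μ) := by
      calc 450 * 2 ^ (4 * μ) * 2 ^ (A * μ) ≤ 2 ^ μ * 2 ^ (4 * μ) * 2 ^ (A * μ) :=
            Nat.mul_le_mul_right _ (Nat.mul_le_mul_right _ h1)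
        _ = 2 ^ ((A + 5) * μ) := by
          rw [← pow_add, ← pow_add]
          congr 1
          ring
    calc (450 * 2 ^ (4 * μ) * 2 ^ (A * μ)) ^ kk ≤ (2 ^ ((A + 5) * μ)) ^ kk := Nat.pow_le_pow_left h2 kk
      _ = 2 ^ ((A + 5) * kk * μ) := by
        rw [← pow_mul]
        congr 1
        ring
  have hTt : 5 + 2 * μ + A * μ + μ + T * (A * μ) < m := by
    have h1 : (T * A + A + 4) * μ ≤ A * A * μ := Nat.mul_le_mul_right _ hT2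
    rw [hP] at hm1
    nlinarith
  -- the parameters
  refine ⟨⟨m - T * (A * μ), 2 * μ, A * μ, μ, P + 1, T, 2 ^ (A * μ), 2 ^ (4 * μ), kk,
    (1 / 2) ^ (796 + (398 * (C ^ 2 + 1) + 2)), 8 * ((4 * s * n : ℕ) : ℝ) ^ 3 * (m + 1) + 1,
    ?_, ?_, ?_, ?_, ?_, ?_, ?_, ?_, ?_, ?_, ?_, ?_, ?_, ?_, ?_, ?_, ?_, ?_, ?_, ?_, ?_, ?_⟩⟩
  · -- hm
    omega
  · -- ha
    exact Nat.one_le_two_pow
  · -- hl₀
    exact Nat.one_le_two_pow
  · -- hm2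
    omega
  · -- hs
    exact hsa
  · -- hε
    have h1 := hμ1 μ g1 m s hm2 hsm
    have h2 : (0 : ℝ) ≤ (2000 * (((2 ^ (A * μ) : ℕ) : ℝ)) ^ 2) ^ kk * (2 / 3) ^ 2 ^ (4 * μ) := by
      positivity
    have h3 : ((1 : ℝ) / 2) ^ 2 ^ (3 * μ) ≤ 1 := pow_le_one₀ (by norm_num) (by norm_num)
    have h4 : (0 : ℝ) ≤ (s : ℝ) * ((2000 * (((2 ^ (A * μ) : ℕ) : ℝ)) ^ 2) ^ kk * (2 / 3) ^ 2 ^ (4 * μ)) :=
      mul_nonneg (Nat.cast_nonneg _) h2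
    have h5 : (0 : ℝ) ≤ (b : ℝ) := Nat.cast_nonneg _
    have h6 : 4 * (s : ℝ) * ((2000 * (((2 ^ (A * μ) : ℕ) : ℝ)) ^ 2) ^ kk * (2 / 3) ^ 2 ^ (4 * μ)) ≤
        40 * ((b : ℝ) + 1) * s * ((2000 * (((2 ^ (A * μ) : ℕ) : ℝ)) ^ 2) ^ kk * (2 / 3) ^ 2 ^ (4 * μ)) := by
      have h7 : (0 : ℝ) ≤ b * ((s : ℝ) * ((2000 * (((2 ^ (A * μ) : ℕ) : ℝ)) ^ 2) ^ kk *
          (2 / 3) ^ 2 ^ (4 * μ))) := mul_nonneg h5 h4
      nlinarith
    exact h6.trans (h1.trans h3)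
  · -- hD
    obtain ⟨X, hXdef⟩ : ∃ X : ℕ, X = (450 * 2 ^ (4 * μ) * 2 ^ (A * μ)) ^ kk := ⟨_, rfl⟩
    obtain ⟨Y, hYdef⟩ : ∃ Y : ℕ, Y = 2 ^ ((A + 5) * kk * μ) := ⟨_, rfl⟩
    obtain ⟨V, hV⟩ : ∃ V : ℕ, V = (2 ^ (A * μ)) ^ 2 := ⟨_, rfl⟩
    rw [← hXdef, ← hV]
    rw [← hXdef, ← hYdef] at hY
    have hV1 : 1 ≤ V := by
      rw [hV]
      exact Nat.one_le_pow _ _ (by positivity)
    have hY1 : 1 ≤ Y := by
      rw [hYdef]
      exact Nat.one_le_two_pow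
    have hVY : Y ≤ V * Y := Nat.le_mul_of_pos_left _ hV1
    have hVY1 : 1 ≤ V * Y := hY1.trans hVY
    have h1 : 8 * (2 * X + 2 * b + 2 + kk * (200 * V * X)) ≤ 8 * (4 + 2 * b + 200 * kk) * (V * Y) := by
      have h2 : kk * (200 * V * X) ≤ kk * (200 * V * Y) :=
        Nat.mul_le_mul_left _ (Nat.mul_le_mul_left _ hY)
      have h3 : kk * (200 * V * Y) = 200 * kk * (V * Y) := by ring
      have h4 : 2 * b * 1 ≤ 2 * b * (V * Y) := Nat.mul_le_mul_left _ hVY1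
      nlinarith
    have h2 : 8 * (4 + 2 * b + 200 * kk) ≤ 2 ^ μ := by omega
    have h3 : 2 ^ μ * (V * Y) < 2 ^ m := by
      rw [hV, hYdef, ← pow_mul, ← pow_add, ← pow_add]
      apply Nat.pow_lt_pow_right (by norm_num)
      have h4 : ((A + 5) * kk + 2 * A + 2) * μ ≤ A * A * μ := Nat.mul_le_mul_right _ hX
      rw [hP] at hm1
      nlinarith
    calc 8 * (2 * X + 2 * b + 2 + kk * (200 * V * X)) ≤ 8 * (4 + 2 * b + 200 * kk) * (V * Y) := h1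
      _ ≤ 2 ^ μ * (V * Y) := Nat.mul_le_mul_right _ h2
      _ < 2 ^ m := h3
  · -- hb
    have h1 : 8 * (3 * 44 + 2 * b) < K := by omega
    have h2 : 2 ^ μ ≤ 2 ^ m := Nat.pow_le_pow_right (by norm_num) (by omega)
    omega
  · -- hg
    refine hY.trans (Nat.pow_le_pow_right (by norm_num) ?_)
    have h1 : A * μ - μ = (A - 1) * μ := by
      rw [Nat.sub_mul, one_mul]
    rw [h1]
    have h2 : (A + 5) * kk * μ ≤ T * (A - 1) * μ := Nat.mul_le_mul_right _ hT1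
    have h3 : T * (A - 1) * μ = T * ((A - 1) * μ) := by ring
    omega
  · -- ht
    nlinarith
  · -- hk
    omega
  · -- h2
    omega
  · -- h3
    omega
  · -- h4
    omega
  · -- hθ
    positivity
  · -- hθ1
    have h1 : ((1 : ℝ) / 2) ^ (796 + (398 * (C ^ 2 + 1) + 2)) =
        (1 / 2) ^ 796 * (1 / 2) ^ (398 * (C ^ 2 + 1) + 2) := pow_add _ _ _
    have h2 : ((2 : ℝ) ^ 398) ^ 2 * (1 / 2) ^ 796 = 1 := by
      rw [← pow_mul, ← mul_pow]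
      norm_num
    have h3 : ((1 : ℝ) / 2) ^ (398 * (C ^ 2 + 1) + 2) ≤ 1 / 2 := by
      calc ((1 : ℝ) / 2) ^ (398 * (C ^ 2 + 1) + 2) ≤ (1 / 2) ^ 1 :=
            pow_le_pow_of_le_one (by norm_num) (by norm_num) (by omega)
        _ = 1 / 2 := pow_one _
    rw [h1, ← mul_assoc, h2, one_mul]
    exact h3
  · -- h1
    have h1 : 22 * (m : ℝ) ≤ 2 ^ μ := by
      have h2 : 22 * m ≤ 2 ^ μ := by
        have h3 : 22 * m ≤ 22 * P * (μ + 1) := by nlinarith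
        have h4 : 22 * P * (μ + 1) ≤ K * (μ + 1) := Nat.mul_le_mul_right _ (by omega)
        omega
      exact_mod_cast h2
    have h2 : 22 * (m : ℝ) / 2 ^ (A * μ) ≤ 1 / 2 ^ (2 * μ) := by
      rw [div_le_div_iff₀ (by positivity) (by positivity), one_mul]
      calc 22 * (m : ℝ) * 2 ^ (2 * μ) ≤ 2 ^ μ * 2 ^ (2 * μ) :=
            mul_le_mul_of_nonneg_right h1 (by positivity)
        _ = 2 ^ (3 * μ) := by
          rw [← pow_add]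
          congr 1
          ring
        _ ≤ 2 ^ (A * μ) := pow_le_pow_right₀ (by norm_num) (Nat.mul_le_mul_right _ (by omega))
    have h3 : (22 * (m : ℝ) / 2 ^ (A * μ)) ^ (P + 1) ≤ 1 / 2 ^ (2 * μ * (P + 1)) := by
      calc (22 * (m : ℝ) / 2 ^ (A * μ)) ^ (P + 1) ≤ (1 / 2 ^ (2 * μ)) ^ (P + 1) :=
            pow_le_pow_left₀ (by positivity) h2 _
        _ = 1 / 2 ^ (2 * μ * (P + 1)) := by
          rw [div_pow, one_pow, ← pow_mul]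
    have h4 : 88 * (2 : ℝ) ^ m ≤ 2 ^ (2 * μ * (P + 1)) := by
      calc 88 * (2 : ℝ) ^ m ≤ 2 ^ 7 * 2 ^ (P * (μ + 1)) :=
            mul_le_mul (by norm_num) (pow_le_pow_right₀ (by norm_num) hm2) (by positivity) (by norm_num)
        _ = 2 ^ (7 + P * (μ + 1)) := by rw [pow_add]
        _ ≤ 2 ^ (2 * μ * (P + 1)) := by
          apply pow_le_pow_right₀ (by norm_num)
          nlinarith
    calc 22 * (2 : ℝ) ^ m * (22 * (m : ℝ) / 2 ^ (A * μ)) ^ (P + 1)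
        ≤ 22 * (2 : ℝ) ^ m * (1 / 2 ^ (2 * μ * (P + 1))) :=
          mul_le_mul_of_nonneg_left h3 (by positivity)
      _ ≤ 1 / 4 := by
        rw [mul_one_div, div_le_div_iff₀ (by positivity) (by norm_num)]
        linarith
  · -- h5
    have h1 : 11616 * m * 2 ^ W ≤ 2 ^ μ := by
      have h2 : 11616 * m * 2 ^ W ≤ 11616 * P * 2 ^ W * (μ + 1) := by
        calc 11616 * m * 2 ^ W ≤ 11616 * (P * (μ + 1)) * 2 ^ W :=
              Nat.mul_le_mul_right _ (Nat.mul_le_mul_left _ hm2)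
          _ = 11616 * P * 2 ^ W * (μ + 1) := by ring
      have h3 : 11616 * P * 2 ^ W * (μ + 1) ≤ K * (μ + 1) := Nat.mul_le_mul_right _ (by omega)
      omega
    have h2 : 11616 * (m : ℝ) * 2 ^ W ≤ 2 ^ μ := by exact_mod_cast h1
    have h3 : (((1 : ℝ) / 2) ^ (796 + (398 * (C ^ 2 + 1) + 2))) ^ 352 = 1 / 2 ^ W := by
      rw [← pow_mul, div_pow, one_pow, hW, mul_comm]
    rw [h3, one_div_mul_eq_div, le_div_iff₀ (by positivity)]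
    exact h2
  · -- hQ1
    have : (0 : ℝ) ≤ 8 * ((4 * s * n : ℕ) : ℝ) ^ 3 * (m + 1) := by positivity
    linarith
  · -- hQ
    linarith
  · -- hC
    have h1 : C + 1 ≤ 2 ^ (A * μ + μ) := by
      calc C + 1 ≤ 2 ^ μ := by omega
        _ ≤ 2 ^ (A * μ + μ) := Nat.pow_le_pow_right (by norm_num) (by omega)
    calc 32 * ((C + 1) * 2 ^ (2 * μ)) ≤ 32 * (2 ^ (A * μ + μ) * 2 ^ (2 * μ)) :=
          Nat.mul_le_mul_left _ (Nat.mul_le_mul_right _ h1)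
      _ = 2 ^ (5 + (A * μ + μ) + 2 * μ) := by
        rw [pow_add, pow_add]
        ring
      _ < 2 ^ (m - T * (A * μ)) := by
        apply Nat.pow_lt_pow_right (by norm_num)
        omega
  · -- hfin
    exact hμ3 μ g3 m s (4 * s * n) _ _ hm2 hsm (hμ2 μ g2 m s n hm2 hsm hn) rfl rfl

theorem num (ε : ℝ) (hε : 0 < ε) : ∃ δ : ℝ, 0 < δ ∧ ∀ C b : ℕ, ∃ m₀ : ℕ, ∀ m : ℕ, m₀ ≤ m →
    ∀ s n : ℕ, 1 ≤ s → (s : ℝ) ≤ ((2 : ℝ) ^ m) ^ (2 - ε) →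
      (n : ℝ) < Real.exp (((2 : ℝ) ^ m) ^ δ) → Nonempty (Par C b m s (4 * s * n)) := by
  obtain ⟨δ, hδ, h⟩ := Num_aux (min ε 1) (lt_min hε one_pos) (min_le_right _ _)
  refine ⟨δ, hδ, fun C b => ?_⟩
  obtain ⟨m₀, hm₀⟩ := h C b
  refine ⟨m₀, fun m hm s n hs1 hs hn => hm₀ m hm s n hs1 (hs.trans ?_) hn⟩
  exact Real.rpow_le_rpow_of_exponent_le (one_le_pow₀ (by norm_num)) (by linarith [min_le_left ε 1])

end Pool.Agent.MP_9cec2c_lc.SL
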