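import Pool.Agent.Lib.MP_9cec2c_lc.SL.EA

/-!
TASK PSD: positivity of the pseudo-expectation on squares of degree `2 D`, `8 D < n`.

`f = ∑_S a_S χ_S` over `wt S ≤ D` (`fc_inv`, `fc_eq_zero`), `Ex (f f) = ∑_{S,T} a_S a_T e(S+T)`. On the
sets with `wt S ≤ D` let `S ~ T` iff `e (S + T) ≠ 0` (does not depend on `γ`). It is an equivalence
relation: `S + S = 0`, `e 0 = 1`; and `e (S + W) = e ((S + T) + (T + W)) = e (S + T) e (T + W)` by `e_mul`
(`2 (2D + 2D) = 8 D < n`, weights of `S + T` are at most `2 D`). Choose for every `S` with `wt S ≤ D` a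
representative `ρ(S) ~ S`, `wt (ρ S) ≤ D`, equal for equivalent sets (`Quotient.out`, or
the least element of the class for some well-order), and `σ(S) = e (S + ρ S) = ±1`. Then for
`wt S, wt T ≤ D`: `e (S + T) = [ρ S = ρ T] σ(S) σ(T)` (if `ρ S = ρ T = Y`: `S + T = (S+Y) + (T+Y)`; else
`e (S+T) = 0`). Hence `Ex (f f) = ∑_Y (∑_{S : ρ S = Y} σ(S) a_S)² ≥ 0`.
-/

set_option autoImplicit false

open Finset
open scoped Classical

namespace Pool.Agent.MP_9cec2c_lc.SL.MG

variable {V E : Type} [Fintype V] [Fintype E] (G : MG V E)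

private theorem PSD_core {ι : Type} (B : Finset ι) (a : ι → ℝ) (M : ι → ι → ℝ)
    (h1 : ∀ S ∈ B, M S S = 1) (h2 : ∀ S T, M S T = M T S)
    (h3 : ∀ S T, M S T ≠ 0 → M S T * M S T = 1)
    (h4 : ∀ S ∈ B, ∀ T ∈ B, ∀ W ∈ B, M S T ≠ 0 → M T W ≠ 0 → M S W = M S T * M T W) :
    0 ≤ ∑ S ∈ B, ∑ T ∈ B, a S * a T * M S T := by
  set c : ι → ℝ := fun S => ((B.filter (fun W => M S W ≠ 0)).card : ℝ) with hc
  have hc0 : ∀ S ∈ B, c S ≠ 0 := by
    intro S hS h
    have h5 : (B.filter (fun W => M S W ≠ 0)).card = 0 := Nat.cast_eq_zero.1 h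
    rw [Finset.card_eq_zero] at h5
    have h6 : S ∈ B.filter (fun W => M S W ≠ 0) := by
      rw [Finset.mem_filter]
      refine ⟨hS, ?_⟩
      rw [h1 S hS]
      exact one_ne_zero
    rw [h5] at h6
    exact absurd h6 (Finset.notMem_empty S)
  have hcc : ∀ S ∈ B, ∀ W ∈ B, M S W ≠ 0 → c W = c S := by
    intro S hS W hW hSW
    have hWS : M W S ≠ 0 := by rw [h2]; exact hSW
    have h5 : B.filter (fun X => M W X ≠ 0) = B.filter (fun X => M S X ≠ 0) := by
      refine Finset.filter_congr fun X hX => ?_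
      constructor
      · intro h
        rw [h4 S hS W hW X hX hSW h]
        exact mul_ne_zero hSW h
      · intro h
        rw [h4 W hW S hS X hX hWS h]
        exact mul_ne_zero hWS h
    simp only [hc, h5]
  have key : ∀ S ∈ B, ∀ T ∈ B, ∑ W ∈ B, (c W)⁻¹ * (M S W * M T W) = M S T := by
    intro S hS T hT
    by_cases hST : M S T = 0
    · rw [hST]
      refine Finset.sum_eq_zero fun W hW => ?_
      by_contra hne
      have h5 : M S W ≠ 0 := fun h => hne (by rw [h]; ring)
      have h6 : M T W ≠ 0 := fun h => hne (by rw [h]; ring)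
      have h7 : M W T ≠ 0 := by rw [h2]; exact h6
      have h8 := h4 S hS W hW T hT h5 h7
      rw [hST] at h8
      exact mul_ne_zero h5 h7 h8.symm
    · have hTS : M T S ≠ 0 := by rw [h2]; exact hST
      have h5 : ∀ W ∈ B, (c W)⁻¹ * (M S W * M T W) =
          if M S W ≠ 0 then (c S)⁻¹ * M S T else 0 := by
        intro W hW
        split_ifs with hSW
        · rw [hcc S hS W hW hSW, h4 T hT S hS W hW hTS hSW, h2 T S]
          have h6 := h3 S W hSW
          linear_combination ((c S)⁻¹ * M S T) * h6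
        · rw [not_not] at hSW
          rw [hSW]
          ring
      rw [Finset.sum_congr rfl h5, ← Finset.sum_filter, Finset.sum_const, nsmul_eq_mul]
      show c S * ((c S)⁻¹ * M S T) = M S T
      rw [← mul_assoc, mul_inv_cancel₀ (hc0 S hS), one_mul]
  have hsum : ∑ S ∈ B, ∑ T ∈ B, a S * a T * M S T =
      ∑ W ∈ B, (c W)⁻¹ * (∑ S ∈ B, a S * M S W) ^ 2 := by
    have h5 : ∀ W ∈ B, (c W)⁻¹ * (∑ S ∈ B, a S * M S W) ^ 2 =
        ∑ S ∈ B, ∑ T ∈ B, a S * a T * ((c W)⁻¹ * (M S W * M T W)) := by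
      intro W _
      rw [sq, Finset.sum_mul_sum, Finset.mul_sum]
      refine Finset.sum_congr rfl fun S _ => ?_
      rw [Finset.mul_sum]
      refine Finset.sum_congr rfl fun T _ => ?_
      ring
    symm
    rw [Finset.sum_congr rfl h5, Finset.sum_comm]
    refine Finset.sum_congr rfl fun S hS => ?_
    rw [Finset.sum_comm]
    refine Finset.sum_congr rfl fun T hT => ?_
    rw [← Finset.mul_sum, key S hS T hT]
  rw [hsum]
  refine Finset.sum_nonneg fun W _ => mul_nonneg (inv_nonneg.2 (Nat.cast_nonneg _)) (sq_nonneg _)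

omit [Fintype E] in
private theorem PSD_add_self (S : Cube E) : S + S = 0 := by
  funext e
  exact CharTwo.add_self_eq_zero (S e)

theorem psd (hG : G.Expands) (γ : Cube V) {D : ℕ} (hD : 8 * D < Fintype.card V)
    {f : Cube E → ℝ} (hf : f ∈ Fd E D) : 0 ≤ G.Ex γ (f * f) := by
  have hE : G.Ex γ (f * f) = ∑ S, ∑ T, fc f S * fc f T * G.e γ (S + T) := by
    have h1 : f * f = ∑ S, ∑ T, (fc f S * fc f T) • chi (S + T) := by
      conv_lhs => rw [fc_inv f]
      rw [Finset.sum_mul_sum]
      refine Finset.sum_congr rfl fun S _ => Finset.sum_congr rfl fun T _ => ?_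
      rw [chi_add, smul_mul_smul_comm]
    rw [h1, map_sum]
    refine Finset.sum_congr rfl fun S _ => ?_
    rw [map_sum]
    refine Finset.sum_congr rfl fun T _ => ?_
    rw [map_smul, G.Ex_chi, smul_eq_mul]
  set B : Finset (Cube E) := univ.filter (fun S => wt S ≤ D) with hB
  have hB0 : ∀ S, S ∉ B → fc f S = 0 := by
    intro S hS
    refine fc_eq_zero hf ?_
    rw [hB, Finset.mem_filter, not_and] at hS
    exact not_le.1 (hS (Finset.mem_univ S))
  have h2 : ∑ S, ∑ T, fc f S * fc f T * G.e γ (S + T) =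
      ∑ S ∈ B, ∑ T ∈ B, fc f S * fc f T * G.e γ (S + T) := by
    symm
    have h3 : ∀ S, ∑ T ∈ B, fc f S * fc f T * G.e γ (S + T) =
        ∑ T, fc f S * fc f T * G.e γ (S + T) := by
      intro S
      refine Finset.sum_subset (Finset.subset_univ B) fun T _ hT => ?_
      rw [hB0 T hT]
      ring
    simp only [h3]
    refine Finset.sum_subset (Finset.subset_univ B) fun S _ hS => ?_
    refine Finset.sum_eq_zero fun T _ => ?_
    rw [hB0 S hS]
    ring
  rw [hE, h2]
  have hwt : ∀ S ∈ B, wt S ≤ D := fun S hS => (Finset.mem_filter.1 hS).2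
  refine PSD_core B (fc f) (fun S T => G.e γ (S + T)) ?_ ?_ ?_ ?_
  · intro S _
    rw [PSD_add_self, G.e_zero hG γ (by omega)]
  · intro S T
    rw [add_comm]
  · intro S T h
    exact G.e_sq γ h
  · intro S hS T hT W hW h h'
    have h5 : S + W = (S + T) + (T + W) := by
      rw [add_assoc, ← add_assoc T T W, PSD_add_self, zero_add]
    rw [h5]
    refine G.e_mul hG γ h h' ?_
    have h6 := wt_add_le S T
    have h7 := wt_add_le T W
    have h8 := hwt S hS
    have h9 := hwt T hT
    have h10 := hwt W hW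
    omega

theorem Ex_one (hG : G.Expands) (γ : Cube V) (hV : 0 < Fintype.card V) : G.Ex γ 1 = 1 := by
  rw [← chi_zero, G.Ex_chi, G.e_zero hG γ hV]

end Pool.Agent.MP_9cec2c_lc.SL.MG
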