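import Pool.Agent.Lib.MP_9cec2c_lc.SL.GWorld

/-!
TASK Reps: representatives of the sets of at most `c` edges modulo coboundaries of small sets.

`exists_repSet`: on the sets with `wt S ≤ c` the relation `∃ U, cob U = S + T ∧ 2 wt U < n` is an
equivalence relation (for transitivity: `wt U ≤ wt (S + T) ≤ 2c` by expansion, so
`2 wt (U + U') ≤ 8 c < n`). Take one element of each class, and `0` for the class of `0`.
`repSet_norm`: `Ex (χ_S χ_T) = e (S + T) = 0` for different `S, T ∈ Y` (`e_eq_zero`), `e 0 = 1`.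
`repSet_approx`: `a = ∑ fc a S • χ_S`, `wt S ≤ c`. For every `S` choose `T(S) ∈ Y`, `U` by `repr`, and
`s = e (S + T) = ±1`; `χ_S - s χ_T` is null: `Ex ((χ_S - s χ_T)²) = 1 - 2 s e(S+T) + s² = 0`. Sums and
multiples of null elements of `Fd c` are null (`World.N_add` etc. in `G.world hG γ c hc`). So take
`α T = ∑_{S : T(S) = T} fc a S · e (S + T(S))`.
-/

set_option autoImplicit false

open Finset
open scoped Classical

namespace Pool.Agent.MP_9cec2c_lc.SL.MG

variable {V E : Type} [Fintype V] [Fintype E] (G : MG V E)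

/-- `Y` is a set of representatives of the sets of at most `c` edges. -/
structure RepSet (c : ℕ) (Y : Finset (Cube E)) : Prop where
  zero_mem : (0 : Cube E) ∈ Y
  wt_le : ∀ S ∈ Y, wt S ≤ c
  ineq : ∀ S ∈ Y, ∀ T ∈ Y, S ≠ T → ¬ ∃ U : Cube V, G.cob U = S + T ∧ 2 * wt U < Fintype.card V
  repr : ∀ S : Cube E, wt S ≤ c →
    ∃ T ∈ Y, ∃ U : Cube V, G.cob U = S + T ∧ 2 * wt U < Fintype.card V

private theorem Reps_add_self {E : Type} (S : Cube E) : S + S = 0 := by
  funext e
  exact CharTwo.add_self_eq_zero (S e)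

theorem exists_repSet (hG : G.Expands) {c : ℕ} (hc : 8 * c < Fintype.card V) :
    ∃ Y : Finset (Cube E), G.RepSet c Y := by
  have hn : 0 < Fintype.card V := by omega
  let r : Cube E → Cube E → Prop := fun S T =>
    ∃ U : Cube V, G.cob U = S + T ∧ 2 * wt U < Fintype.card V
  have hsymm : ∀ S T, r S T → r T S := by
    rintro S T ⟨U, hU, h⟩
    exact ⟨U, by rw [hU, add_comm], h⟩
  let P : Finset (Cube E) → Prop := fun Y =>
    (0 : Cube E) ∈ Y ∧ (∀ S ∈ Y, wt S ≤ c) ∧ ∀ S ∈ Y, ∀ T ∈ Y, S ≠ T → ¬ r S T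
  have hne : (univ.filter P).Nonempty := by
    refine ⟨{0}, ?_⟩
    rw [mem_filter]
    refine ⟨mem_univ _, mem_singleton_self _, ?_, ?_⟩
    · intro S hS
      rw [mem_singleton] at hS
      rw [hS, wt_zero]
      exact Nat.zero_le _
    · intro S hS T hT hST
      rw [mem_singleton] at hS hT
      exact absurd (hS.trans hT.symm) hST
  obtain ⟨Y, hY, hmax⟩ := exists_max_image (univ.filter P) Finset.card hne
  rw [mem_filter] at hY
  obtain ⟨-, h0, hwt, hind⟩ := hY
  refine ⟨Y, ⟨h0, hwt, hind, ?_⟩⟩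
  intro S hS
  by_cases hSY : S ∈ Y
  · refine ⟨S, hSY, 0, ?_, ?_⟩
    · rw [cob_zero, Reps_add_self]
    · rw [wt_zero]
      omega
  · by_contra hcon
    push Not at hcon
    have hnot : ∀ T ∈ Y, ¬ r S T := by
      rintro T hT ⟨U, hU, hw⟩
      exact absurd hw (not_lt.mpr (hcon T hT U hU))
    have hP : P (insert S Y) := by
      refine ⟨mem_insert_of_mem h0, ?_, ?_⟩
      · intro T hT
        rcases mem_insert.mp hT with rfl | hT
        · exact hS
        · exact hwt T hT
      · intro T hT T' hT' hne'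
        rcases mem_insert.mp hT with h1 | h1
        · rcases mem_insert.mp hT' with h2 | h2
          · exact absurd (h1.trans h2.symm) hne'
          · rw [h1]
            exact hnot T' h2
        · rcases mem_insert.mp hT' with h2 | h2
          · rw [h2]
            exact fun h => hnot T h1 (hsymm _ _ h)
          · exact hind T h1 T' h2 hne'
    have hle := hmax (insert S Y) (mem_filter.mpr ⟨mem_univ _, hP⟩)
    rw [card_insert_of_notMem hSY] at hle
    omega

theorem repSet_norm (hG : G.Expands) (γ : Cube V) (hV : 0 < Fintype.card V) {c : ℕ}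
    {Y : Finset (Cube E)} (hY : G.RepSet c Y) (Z : Finset (Cube E)) (hZ : Z ⊆ Y) (α : Cube E → ℝ) :
    G.Ex γ ((∑ S ∈ Z, α S • chi S) * (∑ S ∈ Z, α S • chi S)) = ∑ S ∈ Z, α S ^ 2 := by
  rw [sum_mul_sum, map_sum]
  refine sum_congr rfl fun S hS => ?_
  rw [map_sum]
  rw [sum_eq_single S]
  · rw [smul_mul_smul_comm, ← chi_add, map_smul, Ex_chi, Reps_add_self, e_zero G hG γ hV,
      smul_eq_mul]
    ring
  · intro T hT hTS
    rw [smul_mul_smul_comm, ← chi_add, map_smul, Ex_chi,
      e_eq_zero G γ (hY.ineq S (hZ hS) T (hZ hT) (Ne.symm hTS)), smul_zero]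
  · intro h
    exact absurd hS h

theorem repSet_approx (hG : G.Expands) (γ : Cube V) {c : ℕ} (hc : 8 * c < Fintype.card V)
    {Y : Finset (Cube E)} (hY : G.RepSet c Y) {a : Cube E → ℝ} (ha : a ∈ Fd E c) :
    ∃ α : Cube E → ℝ, G.nrm γ (a - ∑ S ∈ Y, α S • chi S) = 0 := by
  have hn : 0 < Fintype.card V := by omega
  have hch : ∀ S : Cube E, ∃ T ∈ Y, wt S ≤ c →
      ∃ U : Cube V, G.cob U = S + T ∧ 2 * wt U < Fintype.card V := by
    intro S
    by_cases hS : wt S ≤ c
    · obtain ⟨T, hT, h⟩ := hY.repr S hS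
      exact ⟨T, hT, fun _ => h⟩
    · exact ⟨0, hY.zero_mem, fun h => absurd h hS⟩
  choose τ hτY hτ using hch
  let A : Finset (Cube E) := univ.filter (fun S => wt S ≤ c)
  let s : Cube E → ℝ := fun S => G.e γ (S + τ S)
  have hss : ∀ S ∈ A, s S * s S = 1 := by
    intro S hS
    obtain ⟨U, hU, hw⟩ := hτ S (mem_filter.mp hS).2
    refine e_sq G γ ?_
    rw [← hU, e_cob G hG γ U hw]
    intro h0
    have h1 := sg_mul_self (dot γ U)
    rw [h0, mul_zero] at h1
    exact zero_ne_one h1
  have hnull : ∀ S ∈ A, G.nrm γ (chi S - s S • chi (τ S)) = 0 := by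
    intro S hS
    unfold nrm
    have hexp : (chi S - s S • chi (τ S)) * (chi S - s S • chi (τ S)) =
        (chi (0 : Cube E) - (2 * s S) • chi (S + τ S)) + (s S * s S) • chi (0 : Cube E) := by
      have h1 : chi S * chi S = chi (0 : Cube E) := by rw [← chi_add, Reps_add_self]
      have h2 : chi (τ S) * chi (τ S) = chi (0 : Cube E) := by rw [← chi_add, Reps_add_self]
      have h3 : chi (S + τ S) = chi S * chi (τ S) := chi_add S (τ S)
      rw [h3]
      funext x
      have h1x := congrFun h1 x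
      have h2x := congrFun h2 x
      simp only [Pi.mul_apply, Pi.sub_apply, Pi.smul_apply, Pi.add_apply, smul_eq_mul] at h1x h2x ⊢
      linear_combination h1x + s S * s S * h2x
    rw [hexp, map_add, map_sub, map_smul, map_smul, Ex_chi, Ex_chi, e_zero G hG γ hn]
    have h4 : (2 * s S) • G.e γ (S + τ S) = 2 * (s S * s S) := by
      rw [smul_eq_mul]
      show 2 * s S * s S = _
      ring
    rw [h4, hss S hS]
    norm_num
  have hmem : ∀ S ∈ A, (fc a S • (chi S - s S • chi (τ S)) : Cube E → ℝ) ∈ Fd E c := by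
    intro S hS
    refine Submodule.smul_mem _ _ (Submodule.sub_mem _ (chi_mem (mem_filter.mp hS).2)
      (Submodule.smul_mem _ _ (chi_mem (hY.wt_le _ (hτY S)))))
  have hsum : ∀ B : Finset (Cube E), B ⊆ A →
      (∑ S ∈ B, fc a S • (chi S - s S • chi (τ S))) ∈ Fd E c ∧
      G.nrm γ (∑ S ∈ B, fc a S • (chi S - s S • chi (τ S))) = 0 := by
    intro B
    induction B using Finset.induction_on with
    | empty =>
      intro _
      refine ⟨by rw [sum_empty]; exact Submodule.zero_mem _, ?_⟩
      rw [sum_empty, ← G.world_N hG γ c hc]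
      exact World.N_zero _
    | insert S B hSB ih =>
      intro hB
      have hS : S ∈ A := hB (mem_insert_self S B)
      obtain ⟨i1, i2⟩ := ih (fun x hx => hB (mem_insert_of_mem hx))
      rw [sum_insert hSB]
      refine ⟨Submodule.add_mem _ (hmem S hS) i1, ?_⟩
      have h5 := World.N_add (G.world hG γ c hc) (f := fc a S • (chi S - s S • chi (τ S)))
        (g := ∑ S ∈ B, fc a S • (chi S - s S • chi (τ S))) (hmem S hS) i1
      rw [World.N_smul, world_N, world_N, world_N, i2, hnull S hS, mul_zero, add_zero] at h5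
      exact le_antisymm h5 (Real.sqrt_nonneg _)
  refine ⟨fun T => ∑ S ∈ A.filter (fun S => τ S = T), fc a S * s S, ?_⟩
  have hfin : a - ∑ T ∈ Y, (∑ S ∈ A.filter (fun S => τ S = T), fc a S * s S) • chi T =
      ∑ S ∈ A, fc a S • (chi S - s S • chi (τ S)) := by
    have h6 : ∑ T ∈ Y, (∑ S ∈ A.filter (fun S => τ S = T), fc a S * s S) • chi T =
        ∑ S ∈ A, (fc a S * s S) • chi (τ S) := by
      rw [← sum_fiberwise_of_maps_to (s := A) (t := Y) (g := τ) (fun S _ => hτY S)
        (fun S => (fc a S * s S) • chi (τ S))]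
      refine sum_congr rfl fun T _ => ?_
      rw [sum_smul]
      refine sum_congr rfl fun S hS => ?_
      rw [(mem_filter.mp hS).2]
    have h7 : a = ∑ S ∈ A, fc a S • chi S := by
      conv_lhs => rw [fc_inv a]
      symm
      refine sum_subset (subset_univ _) fun S _ hS => ?_
      have hS' : c < wt S := by
        by_contra h8
        exact hS (mem_filter.mpr ⟨mem_univ _, not_lt.mp h8⟩)
      rw [fc_eq_zero ha hS', zero_smul]
    rw [h6]
    conv_lhs => rw [h7]
    rw [← sum_sub_distrib]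
    refine sum_congr rfl fun S _ => ?_
    rw [smul_sub, smul_smul]
    rw [← h7]
  rw [hfin]
  exact (hsum A (Subset.refl A)).2

end Pool.Agent.MP_9cec2c_lc.SL.MG
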