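import Pool.Agent.Lib.MP_9cec2c_lc.SL.Gm
import Pool.Agent.Lib.MP_9cec2c_lc.SL.CobA

/-!
TASK Rho: routes in the de Bruijn graph.
`bd_pt`: `bd (pt e) = pt (src e) + pt (dst e)`.
`shift_win`: `shift (win x w i) (sq x w (i + m)) = win x w (i + 1)`. `win_zero`, `win_last`.
`rho_bd`: `∑_{i<m} (pt (win i) + pt (win (i+1))) = pt (win 0) + pt (win m)` (telescoping mod 2,
`bd_add`).
`rho_count`: if `rho x w e ≠ 0`, then `e = redge x w i` for some `i < m`. For fixed `i < m` and `e`
(if `e = (z, inl b)`; otherwise no pair) the condition fixes the letters `i, …, i + m` of the word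
`x w` of length `2m`: `2^(m-1)` pairs (e.g. the map from such pairs to the remaining `m - 1` letters is
injective; or compare with the surjection: every pair `(x, w)` has exactly one edge number `i`, and by
changing the `m + 1` letters all `2^(m+1)` edges occur equally often). So the number of pairs is at
most `m 2^(m-1)`.
-/

set_option autoImplicit false

open Finset
open scoped Classical

namespace Pool.Agent.MP_9cec2c_lc.SL

theorem bd_pt {V E : Type} [Fintype V] [Fintype E] (G : MG V E) (e : E) :
    G.bd (pt e) = pt (G.src e) + pt (G.dst e) := by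
  funext v
  have h : G.bd (pt e) v = ∑ e' : E, ((if G.src e' = v then pt e e' else 0) +
      (if G.dst e' = v then pt e e' else 0)) := rfl
  rw [h, Finset.sum_eq_single e]
  · show _ = pt (G.src e) v + pt (G.dst e) v
    unfold pt
    rw [if_pos rfl]
    congr 1
    · simp only [eq_comm]
    · simp only [eq_comm]
  · intro e' _ he'
    have : pt e e' = 0 := by
      unfold pt
      rw [if_neg he']
    rw [this, ite_self, ite_self, add_zero]
  · intro h'
    exact absurd (mem_univ e) h'

theorem shift_win {m : ℕ} (x w : Vm m) (i : ℕ) :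
    shift (win x w i) (sq x w (i + m)) = win x w (i + 1) := by
  funext j
  show (if h : (j : ℕ) + 1 < m then win x w i ⟨(j : ℕ) + 1, h⟩ else sq x w (i + m)) = sq x w (i + 1 + j)
  split_ifs with h
  · show sq x w (i + ((j : ℕ) + 1)) = sq x w (i + 1 + j)
    congr 1
    ring
  · have := j.2
    congr 1
    omega

theorem win_zero {m : ℕ} (x w : Vm m) : win x w 0 = x := by
  funext j
  show sq x w (0 + j) = x j
  unfold sq
  rw [dif_pos (by have := j.2; omega)]
  congr 1
  ext
  simp

theorem win_last {m : ℕ} (x w : Vm m) : win x w m = w := by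
  funext j
  show sq x w (m + j) = w j
  have := j.2
  unfold sq
  rw [dif_neg (by omega), dif_pos (by omega)]
  congr 1
  ext
  simp

theorem rho_bd {m : ℕ} (x w : Vm m) : (Gm m).bd (rho x w) = pt x + pt w := by
  have key : ∀ n : ℕ, (Gm m).bd (∑ i ∈ range n, pt (redge x w i)) = pt (win x w 0) + pt (win x w n) := by
    intro n
    induction n with
    | zero =>
      rw [range_zero, sum_empty]
      funext v
      show ∑ e : Em m, ((if (Gm m).src e = v then (0 : ZMod 2) else 0) +
        (if (Gm m).dst e = v then (0 : ZMod 2) else 0)) = pt (win x w 0) v + pt (win x w 0) v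
      rw [CharTwo.add_self_eq_zero]
      exact sum_eq_zero fun e _ => by rw [ite_self, ite_self, add_zero]
    | succ n ih =>
      rw [sum_range_succ, (Gm m).bd_add, ih, bd_pt]
      have h1 : (Gm m).src (redge x w n) = win x w n := rfl
      have h2 : (Gm m).dst (redge x w n) = win x w (n + 1) := shift_win x w n
      rw [h1, h2]
      funext v
      show pt (win x w 0) v + pt (win x w n) v + (pt (win x w n) v + pt (win x w (n + 1)) v) =
        pt (win x w 0) v + pt (win x w (n + 1)) v
      have h3 := CharTwo.add_self_eq_zero (pt (win x w n) v)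
      linear_combination h3
  unfold rho
  rw [key m, win_zero, win_last]

private theorem Rho_sq_lt {m : ℕ} (x w : Vm m) {j : ℕ} (h : j < m) : sq x w j = x ⟨j, h⟩ := by
  unfold sq
  rw [dif_pos h]

private theorem Rho_sq_ge {m : ℕ} (x w : Vm m) {j : ℕ} (h : j < m) : sq x w (m + j) = w ⟨j, h⟩ := by
  unfold sq
  rw [dif_neg (by omega), dif_pos (by omega)]
  congr 1
  ext
  simp

private theorem Rho_fix {m : ℕ} (i : ℕ) (hi : i < m) (e : Em m) :
    2 * (univ.filter (fun p : Vm m × Vm m => redge p.1 p.2 i = e)).card ≤ 2 ^ m := by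
  have h1 : (univ.filter (fun p : Vm m × Vm m => redge p.1 p.2 i = e) ×ˢ (univ : Finset Bool)).card ≤
      (univ : Finset (Vm m)).card := by
    apply Finset.card_le_card_of_injOn (fun q => (fun j : Fin m =>
      if (j : ℕ) < i then q.1.1 j else if (j : ℕ) = i then q.2 else q.1.2 j : Vm m))
    · intro q _
      exact mem_coe.2 (mem_univ _)
    · rintro ⟨⟨x, w⟩, β⟩ hq ⟨⟨x', w'⟩, β'⟩ hq' h
      rw [mem_coe, mem_product, mem_filter] at hq hq'
      have e1 : redge x w i = redge x' w' i := hq.1.2.trans hq'.1.2.symm
      have e2 : win x w i = win x' w' i := congrArg Prod.fst e1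
      have e3 : sq x w (i + m) = sq x' w' (i + m) := Sum.inl.inj (congrArg Prod.snd e1)
      have e4 : ∀ k, k < m → sq x w (i + k) = sq x' w' (i + k) := fun k hk => congrFun e2 ⟨k, hk⟩
      have hj : ∀ j : Fin m, (if (j : ℕ) < i then x j else if (j : ℕ) = i then β else w j) =
        (if (j : ℕ) < i then x' j else if (j : ℕ) = i then β' else w' j) := fun j => congrFun h j
      have hx : x = x' := by
        funext j
        by_cases h1 : (j : ℕ) < i
        · have := hj j
          rwa [if_pos h1, if_pos h1] at this
        · have h2 := e4 ((j : ℕ) - i) (by have := j.2; omega)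
          rw [show i + ((j : ℕ) - i) = j by omega, Rho_sq_lt x w j.2, Rho_sq_lt x' w' j.2] at h2
          exact h2
      have hw : w = w' := by
        funext j
        by_cases h1 : (j : ℕ) < i
        · have h2 := e4 (m + (j : ℕ) - i) (by omega)
          rw [show i + (m + (j : ℕ) - i) = m + j by omega, Rho_sq_ge x w j.2, Rho_sq_ge x' w' j.2] at h2
          exact h2
        · by_cases h3 : (j : ℕ) = i
          · have h2 := e3
            rw [show i + m = m + j by omega, Rho_sq_ge x w j.2, Rho_sq_ge x' w' j.2] at h2
            exact h2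
          · have := hj j
            rwa [if_neg h1, if_neg h3, if_neg h1, if_neg h3] at this
      have hβ : β = β' := by
        have := hj ⟨i, hi⟩
        rwa [if_neg (lt_irrefl i), if_pos rfl, if_neg (lt_irrefl i), if_pos rfl] at this
      rw [hx, hw, hβ]
  rw [card_product, card_univ, card_univ, Fintype.card_bool] at h1
  have h2 : Fintype.card (Vm m) = 2 ^ m := by
    show Fintype.card (Fin m → Bool) = 2 ^ m
    rw [Fintype.card_fun, Fintype.card_bool, Fintype.card_fin]
  rw [h2] at h1
  omega

theorem rho_count {m : ℕ} (e : Em m) :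
    2 * (univ.filter (fun p : Vm m × Vm m => rho p.1 p.2 e ≠ 0)).card ≤ m * 2 ^ m := by
  have hsub : univ.filter (fun p : Vm m × Vm m => rho p.1 p.2 e ≠ 0) ⊆
      (range m).biUnion (fun i => univ.filter (fun p : Vm m × Vm m => redge p.1 p.2 i = e)) := by
    intro p hp
    rw [mem_filter] at hp
    by_contra hno
    apply hp.2
    show (∑ i ∈ range m, pt (redge p.1 p.2 i)) e = 0
    rw [Finset.sum_apply]
    refine sum_eq_zero fun i hi => ?_
    unfold pt
    rw [if_neg]
    intro h
    apply hno
    rw [mem_biUnion]
    exact ⟨i, hi, by rw [mem_filter]; exact ⟨mem_univ _, h.symm⟩⟩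
  have h1 := (card_le_card hsub).trans card_biUnion_le
  have h2 : 2 * ∑ i ∈ range m, (univ.filter (fun p : Vm m × Vm m => redge p.1 p.2 i = e)).card ≤
      m * 2 ^ m := by
    rw [mul_sum]
    refine (sum_le_sum fun i hi => Rho_fix i (mem_range.1 hi) e).trans ?_
    rw [sum_const, card_range, smul_eq_mul]
  omega

end Pool.Agent.MP_9cec2c_lc.SL
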