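import Pool.Agent.Lib.MP_9cec2c_lc.SL.NBasic

/-!
Campaign SL, definitions: relations between the elements of a family.
-/

set_option autoImplicit false

open Finset

namespace Pool.Agent.MP_9cec2c_lc.SL

/-- Relations between the elements of a family: `a A = 1`, `a A + a B = 1`, `a C = a A · a B`. -/
abbrev Rl (ι : Type) : Type := ι ⊕ (ι × ι) ⊕ (ι × ι × ι)

/-- The defect of a relation for the family `a`. -/
def Rl.ev {ι R : Type} [CommRing R] (a : ι → R) : Rl ι → R
  | Sum.inl A => a A - 1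
  | Sum.inr (Sum.inl p) => a p.1 + a p.2 - 1
  | Sum.inr (Sum.inr p) => a p.1 - a p.2.1 * a p.2.2

/-- Products of elements of degree at most `d ≤ D₁` satisfy `N (f g) ≤ K^d N(f) N(g)`. -/
def World.HC {R : Type} [CommRing R] [Algebra ℝ R] (W : World R) (K : ℝ) (D₁ : ℕ) : Prop :=
  ∀ d ≤ D₁, ∀ f ∈ W.F d, ∀ g ∈ W.F d, W.N (f * g) ≤ K ^ d * (W.N f * W.N g)

end Pool.Agent.MP_9cec2c_lc.SL
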