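import Pool.Agent.Lib.MP_9cec2c_lc.SL.EmbId
import Pool.Agent.Lib.MP_9cec2c_lc.SL.Reps
import Pool.Agent.Lib.MP_9cec2c_lc.SL.Rl

/-!
TASK Select: choice of a restriction by averaging. `Q = 2 (|ι| (I+1) + |J|)`. For `ω` let
`t_i(A, ω) = ∑_{S ∈ Y, k i ≤ wt (y_ω S)} (α A S)²`. The element
`a A - ∑_{S ∈ Y, wt (y S) < k i} α A S χ_S` has the same norm as `∑_{S ∈ Y, k i ≤ wt (y S)} α A S χ_S` (they
differ by a null element of `Fd c`, `World.N_eq_of_null` in the world of `G` of height `c`), i.e. norm²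
`t_i(A, ω)` (`repSet_norm`).
(1) `∑_ω t_i(A, ω) = ∑_{S ∈ Y} (α A S)² #{ω : k i ≤ wt (y_ω S)} ≤ τ i |Ω| ∑ (α A S)² ≤ τ i |Ω| B²`
(`∑ α² = nrm² (a A)`).
(2) For every `ω ∈ good`, by `emb_nrm` (for `a A` and for the truncation errors, degree `c`, and for
`ρ j`, degree `2c`; `8 κ · 2c < n'`), the average over `x ∈ X0` of
`Z(ω, x) = ∑_A N(res a_A)²/B² + ∑_j N(res ρ_j)²/ε² + ∑_{A, i<I} N(res (a_A - trunc_i))²/(τ_i B²)`
is at most `|ι| + |J| + ∑_{A,i<I} t_i(A,ω)/(τ_i B²)`.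
(3) The sum of the right sides over `ω ∈ good` is at most `|good| (|ι| + |J|) + |ι| I |Ω|
≤ |good| (|ι| + |J| + (4/3) |ι| I) ≤ |good| Q`. So some `ω ∈ good` has average `≤ Q`, and some
`x ∈ X0` has `Z(ω, x) ≤ Q` (`X0_nonempty`; `good` is nonempty as `3 |Ω| ≤ 4 |good|`). All terms are
nonnegative, so each one is at most `Q`.
-/

set_option autoImplicit false

open Finset
open scoped Classical

namespace Pool.Agent.MP_9cec2c_lc.SL

variable {V E V' E' : Type} [Fintype V] [Fintype E] [Fintype V'] [Fintype E'] [Nonempty V']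

private theorem Select_mem_sum {c : ℕ} {Z : Finset (Cube E)} (hZ : ∀ S ∈ Z, wt S ≤ c)
    (β : Cube E → ℝ) : ∑ S ∈ Z, β S • chi S ∈ Fd E c :=
  Submodule.sum_mem _ fun S hS =>
    Submodule.smul_mem _ _ (Submodule.subset_span ⟨S, hZ S hS, rfl⟩)

private theorem Select_norm (G : MG V E) (hG : G.Expands) (γ : Cube V) {c : ℕ}
    (hc : 8 * c < Fintype.card V) {Y : Finset (Cube E)} (hY : G.RepSet c Y) {a : Cube E → ℝ}
    (ha : a ∈ Fd E c) {α : Cube E → ℝ} (hα : G.nrm γ (a - ∑ S ∈ Y, α S • chi S) = 0)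
    (p : Cube E → Prop) [DecidablePred p] :
    G.nrm γ (a - ∑ S ∈ Y.filter p, α S • chi S) ^ 2 =
      ∑ S ∈ Y.filter (fun S => ¬ p S), α S ^ 2 := by
  have hm1 : a - ∑ S ∈ Y.filter p, α S • chi S ∈ Fd E c :=
    Submodule.sub_mem _ ha
      (Select_mem_sum (fun S hS => hY.wt_le S (Finset.mem_of_mem_filter S hS)) α)
  have hm2 : ∑ S ∈ Y.filter (fun S => ¬ p S), α S • chi S ∈ Fd E c :=
    Select_mem_sum (fun S hS => hY.wt_le S (Finset.mem_of_mem_filter S hS)) α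
  have hsub : (a - ∑ S ∈ Y.filter p, α S • chi S) - ∑ S ∈ Y.filter (fun S => ¬ p S), α S • chi S =
      a - ∑ S ∈ Y, α S • chi S := by
    rw [sub_sub, Finset.sum_filter_add_sum_filter_not]
  have hnull : (G.world hG γ c hc).N ((a - ∑ S ∈ Y.filter p, α S • chi S) -
      ∑ S ∈ Y.filter (fun S => ¬ p S), α S • chi S) = 0 := by
    rw [hsub]; exact hα
  have heq := (G.world hG γ c hc).N_eq_of_null hm1 hm2 hnull
  have hsq := (G.world hG γ c hc).N_sq hm2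
  have hEx : (G.world hG γ c hc).E ((∑ S ∈ Y.filter (fun S => ¬ p S), α S • chi S) *
      ∑ S ∈ Y.filter (fun S => ¬ p S), α S • chi S) = ∑ S ∈ Y.filter (fun S => ¬ p S), α S ^ 2 :=
    MG.repSet_norm G hG γ (by omega) hY _ (Finset.filter_subset _ _) α
  have : G.nrm γ (a - ∑ S ∈ Y.filter p, α S • chi S) =
      (G.world hG γ c hc).N (∑ S ∈ Y.filter (fun S => ¬ p S), α S • chi S) := heq
  rw [this, hsq, hEx]

theorem select (G : MG V E) (H : MG V' E') (hG : G.Expands) (hH : H.Expands) (γ : Cube V)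
    {Ω ι J : Type} [Fintype Ω] [Nonempty Ω] [Fintype ι] [Fintype J] (emb : Ω → Emb G H)
    (good : Finset Ω) (hgood : 3 * Fintype.card Ω ≤ 4 * good.card) {κ c : ℕ} (hκ1 : 1 ≤ κ)
    (hκ : ∀ ω ∈ good, ∀ e, (univ.filter (fun f => (emb ω).r f e ≠ 0)).card ≤ κ)
    (hc : 16 * (κ * c) < Fintype.card V') {Y : Finset (Cube E)} (hY : G.RepSet c Y)
    (I : ℕ) (k : ℕ → ℕ) (τ : ℕ → ℝ) (hτ : ∀ i < I, 0 < τ i)
    (tail : ∀ i < I, ∀ S ∈ Y, ((univ.filter (fun ω => k i ≤ wt ((emb ω).y S))).card : ℝ) ≤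
      τ i * Fintype.card Ω)
    (a α : ι → Cube E → ℝ) (ha : ∀ A, a A ∈ Fd E c)
    (hα : ∀ A, G.nrm γ (a A - ∑ S ∈ Y, α A S • chi S) = 0) {B ε : ℝ} (hB : 0 < B) (hε : 0 < ε)
    (haB : ∀ A, G.nrm γ (a A) ≤ B) (ρ : J → Cube E → ℝ) (hρ : ∀ j, ρ j ∈ Fd E (2 * c))
    (hρε : ∀ j, G.nrm γ (ρ j) ≤ ε) :
    ∃ ω ∈ good, ∃ x ∈ (emb ω).X0 γ,
      (∀ A, H.nrm ((emb ω).chg γ x) ((emb ω).res x (a A)) ^ 2 ≤
        2 * (Fintype.card ι * (I + 1) + Fintype.card J) * B ^ 2) ∧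
      (∀ j, H.nrm ((emb ω).chg γ x) ((emb ω).res x (ρ j)) ^ 2 ≤
        2 * (Fintype.card ι * (I + 1) + Fintype.card J) * ε ^ 2) ∧
      ∀ A, ∀ i < I, H.nrm ((emb ω).chg γ x) ((emb ω).res x
          (a A - ∑ S ∈ Y.filter (fun S => wt ((emb ω).y S) < k i), α A S • chi S)) ^ 2 ≤
        2 * (Fintype.card ι * (I + 1) + Fintype.card J) * (τ i * B ^ 2) := by
  have hVV : Fintype.card V' ≤ Fintype.card V := by
    obtain ⟨ω⟩ := ‹Nonempty Ω›
    exact Fintype.card_le_of_injective _ (emb ω).inj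
  have hV'pos : 0 < Fintype.card V' := Fintype.card_pos
  have hcκ : c ≤ κ * c := Nat.le_mul_of_pos_left _ hκ1
  have hcV : 8 * c < Fintype.card V := by omega
  have hΩ : 0 < Fintype.card Ω := Fintype.card_pos
  have hgoodpos : 0 < good.card := by omega
  have hgne : good.Nonempty := Finset.card_pos.mp hgoodpos
  have hB2 : 0 < B ^ 2 := by positivity
  have hε2 : 0 < ε ^ 2 := by positivity
  set u : ι → ℕ → Ω → (Cube E → ℝ) := fun A i ω =>
    a A - ∑ S ∈ Y.filter (fun S => wt ((emb ω).y S) < k i), α A S • chi S with hu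
  set Q : ℝ := 2 * (Fintype.card ι * (I + 1) + Fintype.card J) with hQ
  have hnu : ∀ A i ω, G.nrm γ (u A i ω) ^ 2 =
      ∑ S ∈ Y.filter (fun S => ¬ wt ((emb ω).y S) < k i), α A S ^ 2 := fun A i ω =>
    Select_norm G hG γ hcV hY (ha A) (hα A) (fun S => wt ((emb ω).y S) < k i)
  have humem : ∀ A i ω, u A i ω ∈ Fd E c := fun A i ω =>
    Submodule.sub_mem _ (ha A)
      (Select_mem_sum (fun S hS => hY.wt_le S (Finset.mem_of_mem_filter S hS)) (α A))
  have hna : ∀ A, G.nrm γ (a A) ^ 2 = ∑ S ∈ Y, α A S ^ 2 := by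
    intro A
    have h := Select_norm G hG γ hcV hY (ha A) (hα A) (fun _ => False)
    simpa using h
  have hnaB : ∀ A, G.nrm γ (a A) ^ 2 ≤ B ^ 2 := fun A =>
    pow_le_pow_left₀ (Real.sqrt_nonneg _) (haB A) 2
  have hρB : ∀ j, G.nrm γ (ρ j) ^ 2 ≤ ε ^ 2 := fun j =>
    pow_le_pow_left₀ (Real.sqrt_nonneg _) (hρε j) 2
  have h1 : ∀ A, ∀ i < I, ∑ ω, G.nrm γ (u A i ω) ^ 2 ≤ Fintype.card Ω * (τ i * B ^ 2) := by
    intro A i hi
    calc ∑ ω, G.nrm γ (u A i ω) ^ 2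
        = ∑ ω, ∑ S ∈ Y, (if k i ≤ wt ((emb ω).y S) then α A S ^ 2 else 0) := by
          refine Finset.sum_congr rfl fun ω _ => ?_
          rw [hnu, Finset.sum_filter]
          refine Finset.sum_congr rfl fun S _ => ?_
          by_cases h : k i ≤ wt ((emb ω).y S)
          · rw [if_pos (not_lt.mpr h), if_pos h]
          · rw [if_neg (not_not.mpr (not_le.mp h)), if_neg h]
      _ = ∑ S ∈ Y, ∑ ω, (if k i ≤ wt ((emb ω).y S) then α A S ^ 2 else 0) := Finset.sum_comm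
      _ = ∑ S ∈ Y, ((univ.filter (fun ω => k i ≤ wt ((emb ω).y S))).card : ℝ) * α A S ^ 2 := by
          refine Finset.sum_congr rfl fun S _ => ?_
          rw [← Finset.sum_filter, Finset.sum_const, nsmul_eq_mul]
      _ ≤ ∑ S ∈ Y, (τ i * Fintype.card Ω) * α A S ^ 2 :=
          Finset.sum_le_sum fun S hS =>
            mul_le_mul_of_nonneg_right (tail i hi S hS) (sq_nonneg _)
      _ = (τ i * Fintype.card Ω) * G.nrm γ (a A) ^ 2 := by
          rw [hna, Finset.mul_sum]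
      _ ≤ (τ i * Fintype.card Ω) * B ^ 2 :=
          mul_le_mul_of_nonneg_left (hnaB A) (mul_nonneg (hτ i hi).le (Nat.cast_nonneg _))
      _ = Fintype.card Ω * (τ i * B ^ 2) := by ring
  set W : Ω → ℝ := fun ω => ∑ A, G.nrm γ (a A) ^ 2 / B ^ 2 + ∑ j, G.nrm γ (ρ j) ^ 2 / ε ^ 2 +
    ∑ A, ∑ i ∈ range I, G.nrm γ (u A i ω) ^ 2 / (τ i * B ^ 2) with hWdef
  have hW1 : ∀ ω, W ω ≤ (Fintype.card ι : ℝ) + Fintype.card J +
      ∑ A, ∑ i ∈ range I, G.nrm γ (u A i ω) ^ 2 / (τ i * B ^ 2) := by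
    intro ω
    have e1 : ∑ A, G.nrm γ (a A) ^ 2 / B ^ 2 ≤ (Fintype.card ι : ℝ) := by
      calc ∑ A, G.nrm γ (a A) ^ 2 / B ^ 2 ≤ ∑ _A : ι, (1 : ℝ) :=
            Finset.sum_le_sum fun A _ => (div_le_one hB2).mpr (hnaB A)
        _ = (Fintype.card ι : ℝ) := by simp
    have e2 : ∑ j, G.nrm γ (ρ j) ^ 2 / ε ^ 2 ≤ (Fintype.card J : ℝ) := by
      calc ∑ j, G.nrm γ (ρ j) ^ 2 / ε ^ 2 ≤ ∑ _j : J, (1 : ℝ) :=
            Finset.sum_le_sum fun j _ => (div_le_one hε2).mpr (hρB j)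
        _ = (Fintype.card J : ℝ) := by simp
    simp only [hWdef]
    linarith
  have h2 : ∑ ω ∈ good, ∑ A, ∑ i ∈ range I, G.nrm γ (u A i ω) ^ 2 / (τ i * B ^ 2) ≤
      (Fintype.card ι : ℝ) * (I * Fintype.card Ω) := by
    calc ∑ ω ∈ good, ∑ A, ∑ i ∈ range I, G.nrm γ (u A i ω) ^ 2 / (τ i * B ^ 2)
        ≤ ∑ ω, ∑ A, ∑ i ∈ range I, G.nrm γ (u A i ω) ^ 2 / (τ i * B ^ 2) := by
          refine Finset.sum_le_sum_of_subset_of_nonneg (Finset.subset_univ _) fun ω _ _ => ?_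
          refine Finset.sum_nonneg fun A _ => Finset.sum_nonneg fun i hi => ?_
          exact div_nonneg (sq_nonneg _)
            (mul_nonneg (hτ i (Finset.mem_range.mp hi)).le hB2.le)
      _ = ∑ A, ∑ i ∈ range I, ∑ ω, G.nrm γ (u A i ω) ^ 2 / (τ i * B ^ 2) := by
          rw [Finset.sum_comm]
          refine Finset.sum_congr rfl fun A _ => ?_
          rw [Finset.sum_comm]
      _ ≤ ∑ _A : ι, ∑ _i ∈ range I, (Fintype.card Ω : ℝ) := by
          refine Finset.sum_le_sum fun A _ => Finset.sum_le_sum fun i hi => ?_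
          have hi' := Finset.mem_range.mp hi
          rw [← Finset.sum_div]
          rw [div_le_iff₀ (mul_pos (hτ i hi') hB2)]
          exact h1 A i hi'
      _ = (Fintype.card ι : ℝ) * (I * Fintype.card Ω) := by
          simp [Finset.sum_const, nsmul_eq_mul]
  have hcardΩ : (3 : ℝ) * Fintype.card Ω ≤ 4 * good.card := by exact_mod_cast hgood
  have hW : ∑ ω ∈ good, W ω ≤ good.card * Q := by
    have hιI : (0 : ℝ) ≤ (Fintype.card ι : ℝ) * I := by positivity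
    calc ∑ ω ∈ good, W ω ≤ ∑ ω ∈ good, ((Fintype.card ι : ℝ) + Fintype.card J +
      ∑ A, ∑ i ∈ range I, G.nrm γ (u A i ω) ^ 2 / (τ i * B ^ 2)) :=
          Finset.sum_le_sum fun ω _ => hW1 ω
      _ = good.card * ((Fintype.card ι : ℝ) + Fintype.card J) +
        ∑ ω ∈ good, ∑ A, ∑ i ∈ range I, G.nrm γ (u A i ω) ^ 2 / (τ i * B ^ 2) := by
          rw [Finset.sum_add_distrib, Finset.sum_const, nsmul_eq_mul]
      _ ≤ good.card * ((Fintype.card ι : ℝ) + Fintype.card J) +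
        (Fintype.card ι : ℝ) * (I * Fintype.card Ω) := by linarith
      _ ≤ good.card * ((Fintype.card ι : ℝ) + Fintype.card J) +
        2 * ((Fintype.card ι : ℝ) * I * good.card) := by
          have : (Fintype.card Ω : ℝ) ≤ 2 * good.card := by
            have : (0 : ℝ) ≤ good.card := Nat.cast_nonneg _
            linarith
          have h := mul_le_mul_of_nonneg_left this hιI
          nlinarith [h]
      _ ≤ good.card * Q := by
          have h3 : (0 : ℝ) ≤ good.card * ((Fintype.card ι : ℝ) + Fintype.card J) := by positivity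
          rw [hQ]
          nlinarith [h3]
  obtain ⟨ω, hω, hWω⟩ : ∃ ω ∈ good, W ω ≤ Q := by
    refine Finset.exists_le_of_sum_le hgne ?_
    rw [Finset.sum_const, nsmul_eq_mul]
    exact hW
  set Z : Cube E → ℝ := fun x =>
    ∑ A, H.nrm ((emb ω).chg γ x) ((emb ω).res x (a A)) ^ 2 / B ^ 2 +
    ∑ j, H.nrm ((emb ω).chg γ x) ((emb ω).res x (ρ j)) ^ 2 / ε ^ 2 +
    ∑ A, ∑ i ∈ range I, H.nrm ((emb ω).chg γ x) ((emb ω).res x (u A i ω)) ^ 2 / (τ i * B ^ 2)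
    with hZdef
  have hκω := hκ ω hω
  have em1 : ∀ {f : Cube E → ℝ}, f ∈ Fd E c →
      ∑ x ∈ (emb ω).X0 γ, H.nrm ((emb ω).chg γ x) ((emb ω).res x f) ^ 2 =
        ((emb ω).X0 γ).card * G.nrm γ f ^ 2 := fun {f} hf =>
    (emb ω).emb_nrm hG hH γ hκ1 hκω (by omega) hf
  have em2 : ∀ {f : Cube E → ℝ}, f ∈ Fd E (2 * c) →
      ∑ x ∈ (emb ω).X0 γ, H.nrm ((emb ω).chg γ x) ((emb ω).res x f) ^ 2 =
        ((emb ω).X0 γ).card * G.nrm γ f ^ 2 := fun {f} hf =>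
    (emb ω).emb_nrm hG hH γ hκ1 hκω (by
      have : κ * (2 * c) = 2 * (κ * c) := by ring
      omega) hf
  have hZsum : ∑ x ∈ (emb ω).X0 γ, Z x = ((emb ω).X0 γ).card * W ω := by
    simp only [hZdef, hWdef]
    rw [Finset.sum_add_distrib, Finset.sum_add_distrib, mul_add, mul_add]
    congr 1
    · congr 1
      · rw [Finset.sum_comm, Finset.mul_sum]
        refine Finset.sum_congr rfl fun A _ => ?_
        rw [← Finset.sum_div, em1 (ha A), mul_div_assoc]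
      · rw [Finset.sum_comm, Finset.mul_sum]
        refine Finset.sum_congr rfl fun j _ => ?_
        rw [← Finset.sum_div, em2 (hρ j), mul_div_assoc]
    · rw [Finset.sum_comm, Finset.mul_sum]
      refine Finset.sum_congr rfl fun A _ => ?_
      rw [Finset.sum_comm, Finset.mul_sum]
      refine Finset.sum_congr rfl fun i _ => ?_
      rw [← Finset.sum_div, em1 (humem A i ω), mul_div_assoc]
  obtain ⟨x, hx, hZx⟩ : ∃ x ∈ (emb ω).X0 γ, Z x ≤ Q := by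
    refine Finset.exists_le_of_sum_le ((emb ω).X0_nonempty hG γ) ?_
    rw [Finset.sum_const, nsmul_eq_mul, hZsum]
    exact mul_le_mul_of_nonneg_left hWω (Nat.cast_nonneg _)
  have n1 : ∀ A, 0 ≤ H.nrm ((emb ω).chg γ x) ((emb ω).res x (a A)) ^ 2 / B ^ 2 := fun A =>
    div_nonneg (sq_nonneg _) hB2.le
  have n2 : ∀ j, 0 ≤ H.nrm ((emb ω).chg γ x) ((emb ω).res x (ρ j)) ^ 2 / ε ^ 2 := fun j =>
    div_nonneg (sq_nonneg _) hε2.le
  have n3 : ∀ A, ∀ i ∈ range I,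
      0 ≤ H.nrm ((emb ω).chg γ x) ((emb ω).res x (u A i ω)) ^ 2 / (τ i * B ^ 2) := fun A i hi =>
    div_nonneg (sq_nonneg _) (mul_nonneg (hτ i (Finset.mem_range.mp hi)).le hB2.le)
  have s1 := Finset.sum_nonneg fun A (_ : A ∈ (univ : Finset ι)) => n1 A
  have s2 := Finset.sum_nonneg fun j (_ : j ∈ (univ : Finset J)) => n2 j
  have s3 := Finset.sum_nonneg fun A (_ : A ∈ (univ : Finset ι)) => Finset.sum_nonneg (n3 A)
  have hZx' : ∑ A, H.nrm ((emb ω).chg γ x) ((emb ω).res x (a A)) ^ 2 / B ^ 2 +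
    ∑ j, H.nrm ((emb ω).chg γ x) ((emb ω).res x (ρ j)) ^ 2 / ε ^ 2 +
    ∑ A, ∑ i ∈ range I, H.nrm ((emb ω).chg γ x) ((emb ω).res x (u A i ω)) ^ 2 / (τ i * B ^ 2)
    ≤ Q := hZx
  refine ⟨ω, hω, x, hx, fun A => ?_, fun j => ?_, fun A i hi => ?_⟩
  · have h := Finset.single_le_sum (fun A _ => n1 A) (Finset.mem_univ A)
    exact (div_le_iff₀ hB2).mp (by linarith)
  · have h := Finset.single_le_sum (fun j _ => n2 j) (Finset.mem_univ j)
    exact (div_le_iff₀ hε2).mp (by linarith)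
  · have h := Finset.single_le_sum (fun A _ => Finset.sum_nonneg (n3 A)) (Finset.mem_univ A)
    have h' := Finset.single_le_sum (n3 A) (Finset.mem_range.mpr hi)
    exact (div_le_iff₀ (mul_pos (hτ i hi) hB2)).mp (by linarith)

end Pool.Agent.MP_9cec2c_lc.SL
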