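import Pool.Agent.Lib.MP_9cec2c_lc.SL.ShDefs

/-!
TASK ShAlg: graded elements form a normed algebra.
`gr_mono`: the condition `l + c (2t + a') ≤ L` implies `l + c (2t + a) ≤ L`.
`gr_add`: `β + β'` (`N_add`: `x_t f ∈ F (l + c (2t + a)) ⊆ F L ⊆ F D`).
`gr_mul`: `β''_t = ∑_{i + j = t} β_i β'_j` (`PowerSeries.coeff_mul`): `y_j f` has degree
`l + c (2 j + a')` and `(l + c (2j + a')) + c (2 i + a) = l + c (2 t + a + a') ≤ L`. The weighted sum is at
most the product: `∑_{t ≤ T} ∑_{i+j=t} β_i 2^i β'_j 2^j ≤ (∑_{i ≤ T} β_i 2^i)(∑_{j ≤ T} β'_j 2^j)`.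
`tr_bound`: `∑_{t ≤ T} β_t ≤ ∑ β_t 2^t ≤ κ`.
`tr_top`: `Tr ((1 - z) Δ) = coeff T Δ` (telescoping), and `β_T 2^T ≤ κ`.
`tr_mul`: `Tr X · Tr Y - Tr (X Y) = ∑_{i, j ≤ T, i + j > T} x_i y_j`, norm at most
`∑_{i+j>T} β_i β'_j ≤ 2^(-T) ∑ β_i 2^i β'_j 2^j`.
(For `gr_nonneg`: `κ ≥ 0` because the sum is nonnegative.)
-/

set_option autoImplicit false

open Finset

namespace Pool.Agent.MP_9cec2c_lc.SL.World

variable {R : Type} [CommRing R] [Algebra ℝ R] (W : World R) {c L T : ℕ}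

private theorem ShAlg_N_sum {ι : Type} (s : Finset ι) (g : ι → R) (h : ∀ i ∈ s, g i ∈ W.F W.D) :
    W.N (∑ i ∈ s, g i) ≤ ∑ i ∈ s, W.N (g i) := by
  classical
  induction s using Finset.induction_on with
  | empty => rw [Finset.sum_empty, Finset.sum_empty, W.N_zero]
  | insert a s ha ih =>
    rw [Finset.sum_insert ha, Finset.sum_insert ha]
    have h1 : ∑ i ∈ s, g i ∈ W.F W.D := Submodule.sum_mem _ fun i hi => h i (Finset.mem_insert_of_mem hi)
    have h2 := W.N_add (h a (Finset.mem_insert_self a s)) h1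
    have h3 := ih fun i hi => h i (Finset.mem_insert_of_mem hi)
    linarith

/-- the weighted sum over the antidiagonals -/
private theorem ShAlg_cauchy (T : ℕ) {β β' : ℕ → ℝ} (hβ : ∀ t, 0 ≤ β t) (hβ' : ∀ t, 0 ≤ β' t) :
    ∑ t ∈ range (T + 1), (∑ q ∈ antidiagonal t, β q.1 * β' q.2) * 2 ^ t ≤
      (∑ t ∈ range (T + 1), β t * 2 ^ t) * (∑ t ∈ range (T + 1), β' t * 2 ^ t) := by
  have h1 : ∀ t ∈ range (T + 1), (∑ q ∈ antidiagonal t, β q.1 * β' q.2) * 2 ^ t =
      ∑ q ∈ ((range (T + 1) ×ˢ range (T + 1)).filter (fun q => q.1 + q.2 ≤ T)).filter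
        (fun q => q.1 + q.2 = t), (β q.1 * 2 ^ q.1) * (β' q.2 * 2 ^ q.2) := by
    intro t ht
    have h2 : ((range (T + 1) ×ˢ range (T + 1)).filter (fun q => q.1 + q.2 ≤ T)).filter
        (fun q => q.1 + q.2 = t) = antidiagonal t := by
      ext ⟨x, y⟩
      simp only [mem_filter, mem_product, mem_range, HasAntidiagonal.mem_antidiagonal]
      have := mem_range.1 ht
      omega
    rw [h2, Finset.sum_mul]
    refine Finset.sum_congr rfl fun q hq => ?_
    rw [← mem_antidiagonal.1 hq, pow_add]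
    ring
  rw [Finset.sum_congr rfl h1, Finset.sum_fiberwise_of_maps_to, Finset.sum_mul_sum, ← Finset.sum_product']
  · refine Finset.sum_le_sum_of_subset_of_nonneg (Finset.filter_subset _ _) fun q _ _ => ?_
    have := hβ q.1
    have := hβ' q.2
    positivity
  · intro q hq
    rw [mem_filter] at hq
    rw [mem_range]
    omega

theorem gr_nonneg {a : ℕ} {κ : ℝ} {X : PowerSeries R} (h : W.Gr c L T a κ X) : 0 ≤ κ := by
  obtain ⟨β, h1, _, h3⟩ := h
  refine le_trans (Finset.sum_nonneg fun t _ => ?_) h3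
  have := h1 t
  positivity

theorem gr_mono {a a' : ℕ} {κ κ' : ℝ} {X : PowerSeries R} (h : W.Gr c L T a κ X) (ha : a ≤ a')
    (hκ : κ ≤ κ') : W.Gr c L T a' κ' X := by
  obtain ⟨β, h1, h2, h3⟩ := h
  refine ⟨β, h1, fun t ht => ?_, h3.trans hκ⟩
  have h4 : c * (2 * t + a) ≤ c * (2 * t + a') := Nat.mul_le_mul_left _ (by omega)
  exact ⟨W.F_mono _ _ h4 (h2 t ht).1, fun l hl f hf => (h2 t ht).2 l (by omega) f hf⟩

theorem gr_zero (a : ℕ) : W.Gr c L T a 0 (0 : PowerSeries R) := by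
  refine ⟨fun _ => 0, fun _ => le_rfl, fun t _ => ⟨?_, fun l _ f _ => ?_⟩, by simp⟩
  · rw [map_zero]
    exact Submodule.zero_mem _
  · rw [map_zero, zero_mul, W.N_zero, zero_mul]

theorem gr_C (r : ℝ) : W.Gr c L T 0 |r| (PowerSeries.C (algebraMap ℝ R r)) := by
  refine ⟨fun t => if t = 0 then |r| else 0, fun t => ?_, fun t _ => ⟨?_, fun l _ f _ => ?_⟩, ?_⟩
  · dsimp only
    split_ifs
    · exact abs_nonneg r
    · exact le_rfl
  · rw [PowerSeries.coeff_C]
    split_ifs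
    · exact W.algebraMap_mem _ _
    · exact Submodule.zero_mem _
  · rw [PowerSeries.coeff_C]
    dsimp only
    split_ifs
    · rw [← Algebra.smul_def, W.N_smul]
    · rw [zero_mul, W.N_zero, zero_mul]
  · rw [Finset.sum_eq_single 0]
    · simp
    · intro t _ ht
      show (if t = 0 then |r| else 0) * 2 ^ t = 0
      rw [if_neg ht, zero_mul]
    · intro h
      simp at h

theorem gr_one : W.Gr c L T 0 1 (1 : PowerSeries R) := by
  have h := W.gr_C (c := c) (L := L) (T := T) 1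
  rwa [map_one, map_one, abs_one] at h

theorem gr_add (hL : L ≤ W.D) {a : ℕ} {κ κ' : ℝ} {X Y : PowerSeries R} (hX : W.Gr c L T a κ X)
    (hY : W.Gr c L T a κ' Y) : W.Gr c L T a (κ + κ') (X + Y) := by
  obtain ⟨β, h1, h2, h3⟩ := hX
  obtain ⟨β', h1', h2', h3'⟩ := hY
  refine ⟨fun t => β t + β' t, fun t => add_nonneg (h1 t) (h1' t), fun t ht => ⟨?_, fun l hl f hf => ?_⟩, ?_⟩
  · rw [map_add]
    exact Submodule.add_mem _ (h2 t ht).1 (h2' t ht).1
  · rw [map_add, add_mul]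
    have hm : ∀ x : R, x ∈ W.F (c * (2 * t + a)) → x * f ∈ W.F W.D := fun x hx =>
      W.F_mono _ _ (by omega) (W.mul_mem _ _ _ _ hx hf)
    have h4 := W.N_add (hm _ (h2 t ht).1) (hm _ (h2' t ht).1)
    have h5 := (h2 t ht).2 l hl f hf
    have h6 := (h2' t ht).2 l hl f hf
    rw [add_mul]
    linarith
  · have h4 : ∑ t ∈ range (T + 1), (β t + β' t) * 2 ^ t =
        ∑ t ∈ range (T + 1), β t * 2 ^ t + ∑ t ∈ range (T + 1), β' t * 2 ^ t := by
      rw [← Finset.sum_add_distrib]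
      exact Finset.sum_congr rfl fun t _ => by ring
    rw [h4]
    linarith

theorem gr_neg {a : ℕ} {κ : ℝ} {X : PowerSeries R} (hX : W.Gr c L T a κ X) :
    W.Gr c L T a κ (-X) := by
  obtain ⟨β, h1, h2, h3⟩ := hX
  refine ⟨β, h1, fun t ht => ⟨?_, fun l hl f hf => ?_⟩, h3⟩
  · rw [map_neg]
    exact Submodule.neg_mem _ (h2 t ht).1
  · rw [map_neg, neg_mul, W.N_neg]
    exact (h2 t ht).2 l hl f hf

theorem gr_sub (hL : L ≤ W.D) {a : ℕ} {κ κ' : ℝ} {X Y : PowerSeries R} (hX : W.Gr c L T a κ X)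
    (hY : W.Gr c L T a κ' Y) : W.Gr c L T a (κ + κ') (X - Y) := by
  rw [sub_eq_add_neg]
  exact W.gr_add hL hX (W.gr_neg hY)

theorem gr_mul (hL : L ≤ W.D) {a a' : ℕ} {κ κ' : ℝ} {X Y : PowerSeries R}
    (hX : W.Gr c L T a κ X) (hY : W.Gr c L T a' κ' Y) : W.Gr c L T (a + a') (κ * κ') (X * Y) := by
  have hκ := W.gr_nonneg hX
  obtain ⟨β, h1, h2, h3⟩ := hX
  obtain ⟨β', h1', h2', h3'⟩ := hY
  refine ⟨fun t => ∑ q ∈ antidiagonal t, β q.1 * β' q.2,
    fun t => Finset.sum_nonneg fun q _ => mul_nonneg (h1 _) (h1' _), fun t ht => ⟨?_, fun l hl f hf => ?_⟩, ?_⟩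
  · rw [PowerSeries.coeff_mul]
    refine Submodule.sum_mem _ fun q hq => ?_
    have hq' := mem_antidiagonal.1 hq
    refine W.F_mono _ _ (le_of_eq ?_) (W.mul_mem _ _ _ _ (h2 q.1 (by omega)).1 (h2' q.2 (by omega)).1)
    rw [← hq']
    ring
  · rw [PowerSeries.coeff_mul, Finset.sum_mul, Finset.sum_mul]
    have hdeg : ∀ q ∈ antidiagonal t, c * (2 * q.1 + a) + c * (2 * q.2 + a') = c * (2 * t + (a + a')) := by
      intro q hq
      rw [← mem_antidiagonal.1 hq]
      ring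
    refine (W.ShAlg_N_sum _ _ fun q hq => ?_).trans (Finset.sum_le_sum fun q hq => ?_)
    · have hq' := mem_antidiagonal.1 hq
      have h5 := hdeg q hq
      exact W.F_mono _ _ (by omega)
        (W.mul_mem _ _ _ _ (W.mul_mem _ _ _ _ (h2 q.1 (by omega)).1 (h2' q.2 (by omega)).1) hf)
    · have hq' := mem_antidiagonal.1 hq
      have h5 := hdeg q hq
      have h6 := (h2 q.1 (by omega)).2 (c * (2 * q.2 + a') + l) (by omega)
        (PowerSeries.coeff q.2 Y * f) (W.mul_mem _ _ _ _ (h2' q.2 (by omega)).1 hf)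
      have h7 := (h2' q.2 (by omega)).2 l (by omega) f hf
      rw [mul_assoc, mul_assoc]
      exact h6.trans (mul_le_mul_of_nonneg_left h7 (h1 _))
  · refine (ShAlg_cauchy T h1 h1').trans (mul_le_mul h3 h3' ?_ hκ)
    refine Finset.sum_nonneg fun t _ => ?_
    have := h1' t
    positivity

theorem gr_pow (hL : L ≤ W.D) {a : ℕ} {κ : ℝ} {X : PowerSeries R} (hX : W.Gr c L T a κ X)
    (n : ℕ) : W.Gr c L T (n * a) (κ ^ n) (X ^ n) := by
  induction n with
  | zero =>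
    rw [Nat.zero_mul, pow_zero, pow_zero]
    exact W.gr_one
  | succ n ih =>
    rw [Nat.add_mul, Nat.one_mul, pow_succ, pow_succ]
    exact W.gr_mul hL ih hX

theorem gr_sum (hL : L ≤ W.D) {ι : Type} (s : Finset ι) {a : ℕ} (κ : ι → ℝ)
    (X : ι → PowerSeries R) (h : ∀ i ∈ s, W.Gr c L T a (κ i) (X i)) :
    W.Gr c L T a (∑ i ∈ s, κ i) (∑ i ∈ s, X i) := by
  classical
  induction s using Finset.induction_on with
  | empty =>
    rw [Finset.sum_empty, Finset.sum_empty]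
    exact W.gr_zero a
  | insert b s hb ih =>
    rw [Finset.sum_insert hb, Finset.sum_insert hb]
    exact W.gr_add hL (h b (Finset.mem_insert_self b s)) (ih fun i hi => h i (Finset.mem_insert_of_mem hi))

theorem tr_mem {a : ℕ} {κ : ℝ} {X : PowerSeries R} (hX : W.Gr c L T a κ X) :
    Tr T X ∈ W.F (c * (2 * T + a)) := by
  obtain ⟨β, h1, h2, h3⟩ := hX
  unfold Tr
  refine Submodule.sum_mem _ fun t ht => ?_
  have ht' := mem_range.1 ht
  exact W.F_mono _ _ (Nat.mul_le_mul_left _ (by omega)) (h2 t (by omega)).1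

theorem tr_bound (hL : L ≤ W.D) {a : ℕ} {κ : ℝ} {X : PowerSeries R} (hX : W.Gr c L T a κ X)
    {l : ℕ} (hl : l + c * (2 * T + a) ≤ L) {f : R} (hf : f ∈ W.F l) :
    W.N (Tr T X * f) ≤ κ * W.N f := by
  obtain ⟨β, h1, h2, h3⟩ := hX
  have hd : ∀ t ∈ range (T + 1), c * (2 * t + a) ≤ c * (2 * T + a) := by
    intro t ht
    have ht' := mem_range.1 ht
    exact Nat.mul_le_mul_left _ (by omega)
  unfold Tr
  rw [Finset.sum_mul]
  refine (W.ShAlg_N_sum _ _ fun t ht => ?_).trans ?_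
  · have ht' := mem_range.1 ht
    have := hd t ht
    exact W.F_mono _ _ (by omega) (W.mul_mem _ _ _ _ (h2 t (by omega)).1 hf)
  · have h4 : ∀ t ∈ range (T + 1), W.N (PowerSeries.coeff t X * f) ≤ (β t * 2 ^ t) * W.N f := by
      intro t ht
      have ht' := mem_range.1 ht
      have := hd t ht
      refine ((h2 t (by omega)).2 l (by omega) f hf).trans (mul_le_mul_of_nonneg_right ?_ (W.N_nonneg f))
      exact le_mul_of_one_le_right (h1 t) (one_le_pow₀ (by norm_num))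
    refine (Finset.sum_le_sum h4).trans ?_
    rw [← Finset.sum_mul]
    exact mul_le_mul_of_nonneg_right h3 (W.N_nonneg f)

theorem tr_top (hL : L ≤ W.D) {a : ℕ} {κ : ℝ} {Δ : PowerSeries R} (hX : W.Gr c L T a κ Δ)
    {l : ℕ} (hl : l + c * (2 * T + a) ≤ L) {f : R} (hf : f ∈ W.F l) :
    W.N (Tr T ((1 - PowerSeries.X) * Δ) * f) ≤ κ * (1 / 2) ^ T * W.N f := by
  have htel : ∀ n : ℕ, Tr n ((1 - PowerSeries.X) * Δ) = PowerSeries.coeff n Δ := by
    intro n
    unfold Tr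
    induction n with
    | zero =>
      rw [Finset.sum_range_one, sub_mul, one_mul, map_sub, PowerSeries.coeff_zero_X_mul, sub_zero]
    | succ n ih =>
      rw [Finset.sum_range_succ, ih, sub_mul, one_mul, map_sub, PowerSeries.coeff_succ_X_mul]
      ring
  rw [htel]
  obtain ⟨β, h1, h2, h3⟩ := hX
  refine ((h2 T le_rfl).2 l hl f hf).trans (mul_le_mul_of_nonneg_right ?_ (W.N_nonneg f))
  have h4 : β T * 2 ^ T ≤ κ := by
    refine le_trans ?_ h3
    refine Finset.single_le_sum (f := fun t => β t * 2 ^ t) (fun t _ => ?_) (mem_range.2 (Nat.lt_succ_self T))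
    have := h1 t
    positivity
  rw [one_div, inv_pow, ← div_eq_mul_inv, le_div_iff₀ (by positivity)]
  exact h4

theorem tr_mul (hL : L ≤ W.D) {a a' : ℕ} {κ κ' : ℝ} {X Y : PowerSeries R}
    (hX : W.Gr c L T a κ X) (hY : W.Gr c L T a' κ' Y) {l : ℕ}
    (hl : l + c * (4 * T + a + a') ≤ L) {f : R} (hf : f ∈ W.F l) :
    W.N ((Tr T X * Tr T Y - Tr T (X * Y)) * f) ≤ κ * κ' * (1 / 2) ^ T * W.N f := by
  have hκ := W.gr_nonneg hX
  obtain ⟨β, h1, h2, h3⟩ := hX
  obtain ⟨β', h1', h2', h3'⟩ := hY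
  -- the difference
  have hprod : Tr T X * Tr T Y =
      ∑ q ∈ range (T + 1) ×ˢ range (T + 1), PowerSeries.coeff q.1 X * PowerSeries.coeff q.2 Y := by
    unfold Tr
    rw [Finset.sum_mul_sum, ← Finset.sum_product']
  have hXY : Tr T (X * Y) = ∑ q ∈ (range (T + 1) ×ˢ range (T + 1)).filter (fun q => q.1 + q.2 ≤ T),
      PowerSeries.coeff q.1 X * PowerSeries.coeff q.2 Y := by
    unfold Tr
    have h4 : ∀ t ∈ range (T + 1), PowerSeries.coeff t (X * Y) =
        ∑ q ∈ ((range (T + 1) ×ˢ range (T + 1)).filter (fun q => q.1 + q.2 ≤ T)).filter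
          (fun q => q.1 + q.2 = t), PowerSeries.coeff q.1 X * PowerSeries.coeff q.2 Y := by
      intro t ht
      rw [PowerSeries.coeff_mul]
      refine Finset.sum_congr ?_ fun _ _ => rfl
      ext ⟨x, y⟩
      simp only [mem_filter, mem_product, mem_range, HasAntidiagonal.mem_antidiagonal]
      have := mem_range.1 ht
      omega
    rw [Finset.sum_congr rfl h4, Finset.sum_fiberwise_of_maps_to]
    intro q hq
    rw [mem_filter] at hq
    rw [mem_range]
    omega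
  have hdiff : Tr T X * Tr T Y - Tr T (X * Y) =
      ∑ q ∈ (range (T + 1) ×ˢ range (T + 1)).filter (fun q => ¬ q.1 + q.2 ≤ T),
        PowerSeries.coeff q.1 X * PowerSeries.coeff q.2 Y := by
    rw [hprod, hXY, ← Finset.sum_filter_add_sum_filter_not (range (T + 1) ×ˢ range (T + 1))
      (fun q => q.1 + q.2 ≤ T)]
    ring
  rw [hdiff, Finset.sum_mul]
  have hdeg : ∀ q ∈ (range (T + 1) ×ˢ range (T + 1)).filter (fun q : ℕ × ℕ => ¬ q.1 + q.2 ≤ T),
      q.1 ≤ T ∧ q.2 ≤ T ∧ T < q.1 + q.2 ∧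
        c * (2 * q.1 + a) + c * (2 * q.2 + a') ≤ c * (4 * T + a + a') := by
    intro q hq
    rw [mem_filter, mem_product, mem_range, mem_range] at hq
    refine ⟨by omega, by omega, by omega, ?_⟩
    rw [← Nat.mul_add]
    exact Nat.mul_le_mul_left _ (by omega)
  have h5 : ∀ q ∈ (range (T + 1) ×ˢ range (T + 1)).filter (fun q : ℕ × ℕ => ¬ q.1 + q.2 ≤ T),
      W.N (PowerSeries.coeff q.1 X * PowerSeries.coeff q.2 Y * f) ≤
        ((β q.1 * 2 ^ q.1) * (β' q.2 * 2 ^ q.2)) * ((1 / 2) ^ T * W.N f) := by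
    intro q hq
    obtain ⟨hq1, hq2, hq3, hq4⟩ := hdeg q hq
    have h6 := (h2 q.1 hq1).2 (c * (2 * q.2 + a') + l) (by omega)
      (PowerSeries.coeff q.2 Y * f) (W.mul_mem _ _ _ _ (h2' q.2 hq2).1 hf)
    have h7 := (h2' q.2 hq2).2 l (by omega) f hf
    rw [mul_assoc]
    refine (h6.trans (mul_le_mul_of_nonneg_left h7 (h1 _))).trans ?_
    have h8 : (1 : ℝ) ≤ 2 ^ q.1 * 2 ^ q.2 * (1 / 2) ^ T := by
      rw [← pow_add, one_div, inv_pow, ← div_eq_mul_inv, one_le_div (by positivity)]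
      exact pow_le_pow_right₀ (by norm_num) hq3.le
    have h9 : 0 ≤ β q.1 * (β' q.2 * W.N f) := mul_nonneg (h1 _) (mul_nonneg (h1' _) (W.N_nonneg f))
    calc β q.1 * (β' q.2 * W.N f) ≤ β q.1 * (β' q.2 * W.N f) * (2 ^ q.1 * 2 ^ q.2 * (1 / 2) ^ T) :=
          le_mul_of_one_le_right h9 h8
      _ = _ := by ring
  refine (W.ShAlg_N_sum _ _ fun q hq => ?_).trans ((Finset.sum_le_sum h5).trans ?_)
  · obtain ⟨hq1, hq2, hq3, hq4⟩ := hdeg q hq
    exact W.F_mono _ _ (by omega)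
      (W.mul_mem _ _ _ _ (W.mul_mem _ _ _ _ (h2 q.1 hq1).1 (h2' q.2 hq2).1) hf)
  · rw [← Finset.sum_mul, mul_assoc (κ * κ')]
    refine mul_le_mul_of_nonneg_right ?_ (mul_nonneg (by positivity) (W.N_nonneg f))
    refine le_trans (Finset.sum_le_sum_of_subset_of_nonneg (Finset.filter_subset _ _) fun q _ _ => ?_) ?_
    · have := h1 q.1
      have := h1' q.2
      positivity
    · have h8 : ∑ q ∈ range (T + 1) ×ˢ range (T + 1), β q.1 * 2 ^ q.1 * (β' q.2 * 2 ^ q.2) =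
          (∑ t ∈ range (T + 1), β t * 2 ^ t) * (∑ t ∈ range (T + 1), β' t * 2 ^ t) := by
        rw [Finset.sum_mul_sum, ← Finset.sum_product']
      rw [h8]
      refine mul_le_mul h3 h3' ?_ hκ
      refine Finset.sum_nonneg fun t _ => ?_
      have := h1' t
      positivity

end Pool.Agent.MP_9cec2c_lc.SL.World
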