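import Pool.Agent.Lib.MP_9cec2c_lc.SL.ShTop
import Pool.Agent.Lib.MP_9cec2c_lc.SL.Start

/-!
TASK ShStart: the valuation in the big world, sharp version. This is the proof of `start` (file Start, to
be copied) with `P = topv (lev xl l' (a²) k) ((a²)^k) l` instead of `lev xl l (a²) k`. World
`W = (Gm m).world (Gm_expands m) γ D` with `c = (450 l' a)^k`, `c' = 200 l c`, `L' = 2 c' + 2 b`,
`L = L' + 1000 l c`, `D = L + 2 + k (200 a² c)` (so `8 D < 2^m` by `hD`). `levels` (its `ε` is at most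
`1/1000` by `hη`), then `top` (`L + 2c ≤ D` as in Levels: from `D ≥ L + 2 + k (200 a² c)` if `k ≥ 1`, and
`c = 1` if `k = 0`), a valuation for sizes `≤ l (a²)^k` with error `(1/2)^l`. `topv_lit`: literals keep
their values (`lev_lit`, `xl_idem`).
-/

set_option autoImplicit false

open Finset
open scoped Classical

namespace Pool.Agent.MP_9cec2c_lc.SL

private theorem ShStart_conj {m b : ℕ} {γ : Cube (Vm m)} {φ : Form (Em m)}
    (h : IsConj (Hyp b ((Gm m).tseitin γ)) φ) :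
    Conj (fun A => ∃ φ ∈ Hyp b ((Gm m).tseitin γ), A = nnf φ) (nnf φ) := by
  induction h with
  | base A hA => exact Conj.base _ ⟨A, hA, rfl⟩
  | and A B _ _ ihA ihB => exact Conj.and _ _ ihA ihB

theorem sh_start {m b s a l' k l : ℕ} (γ : Cube (Vm m)) (hb : 1 ≤ b) (hs : 1 ≤ s) (ha : 1 ≤ a)
    (hl' : 1 ≤ l') (hl : 1 ≤ l) (hm : 2 ≤ m) (hsk : s ≤ l * (a ^ 2) ^ k)
    (hη : (2000 * (a : ℝ) ^ 2) ^ k * (2 / 3) ^ l' ≤ 1 / 1000)
    (hε : 4 * (s : ℝ) * (1 / 2) ^ l ≤ 1)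
    (hD : 8 * (2 * (200 * l * (450 * l' * a) ^ k) + 2 * b + 1000 * l * (450 * l' * a) ^ k + 2 +
      k * (200 * a ^ 2 * (450 * l' * a) ^ k)) < 2 ^ m)
    (hb' : 8 * (3 * 44 + 2 * b) < 2 ^ m) :
    ∃ P, BigVal m γ b s (200 * l * (450 * l' * a) ^ k) (40 * b * s * (1 / 2) ^ l) P := by
  obtain ⟨c₀, hc₀⟩ : ∃ c₀ : ℕ, c₀ = (450 * l' * a) ^ k := ⟨_, rfl⟩
  obtain ⟨c, hc⟩ : ∃ c : ℕ, c = 200 * l * c₀ := ⟨_, rfl⟩
  obtain ⟨η, hηd⟩ : ∃ η : ℝ, η = (2000 * (a : ℝ) ^ 2) ^ k * (2 / 3) ^ l' := ⟨_, rfl⟩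
  obtain ⟨ε, hεd⟩ : ∃ ε : ℝ, ε = (1 / 2) ^ l := ⟨_, rfl⟩
  have hη0 : 0 ≤ η := by rw [hηd]; positivity
  have hη' : η ≤ 1 / 1000 := by rw [hηd]; exact hη
  have hε0 : 0 ≤ ε := by rw [hεd]; positivity
  have hs1 : (1 : ℝ) ≤ s := by exact_mod_cast hs
  have hb1 : (1 : ℝ) ≤ b := by exact_mod_cast hb
  have hε' : 4 * (s : ℝ) * ε ≤ 1 := by rw [hεd]; exact hε
  have hε1 : ε ≤ 1 / 4 := by nlinarith
  have hbs : (1 : ℝ) ≤ b * s := by nlinarith
  have hbsε : ε ≤ b * s * ε := by nlinarith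
  have hD' : 8 * (2 * c + 2 * b + 1000 * l * c₀ + 2 + k * (200 * a ^ 2 * c₀)) <
      Fintype.card (Vm m) := by
    rw [card_Vm, hc, hc₀]
    exact hD
  have hbc : 8 * (3 * 44 + 2 * b) < Fintype.card (Vm m) := by
    rw [card_Vm]
    exact hb'
  obtain ⟨W, hW⟩ : ∃ W : World (Cube (Em m) → ℝ), W = (Gm m).world (Gm_expands m) γ
      (2 * c + 2 * b + 1000 * l * c₀ + 2 + k * (200 * a ^ 2 * c₀)) hD' := ⟨_, rfl⟩
  have hN : ∀ f, (Gm m).nrm γ f = W.N f := by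
    intro f
    rw [hW]
    rfl
  have hF : ∀ d, W.F d = Fd (Em m) d := by
    intro d
    rw [hW]
    rfl
  have hWD : W.D = 2 * c + 2 * b + 1000 * l * c₀ + 2 + k * (200 * a ^ 2 * c₀) := by
    rw [hW]
    rfl
  have hxl : ∀ y : Em m × Bool, (xl y : Cube (Em m) → ℝ) ∈ W.F 1 ∧
      (xl y : Cube (Em m) → ℝ) * xl y = xl y := by
    intro y
    rw [hF]
    exact ⟨xl_mem y, xl_idem y⟩
  obtain ⟨Q, hQ⟩ : ∃ Q : Fm (Em m × Bool) → Cube (Em m) → ℝ, Q = lev xl l' (a ^ 2) k := ⟨_, rfl⟩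
  have hQlit : ∀ y, Q (Fm.lit y) = xl y := by
    intro y
    rw [hQ]
    exact World.lev_lit xl l' a k ha y
  have hv0 : W.IsVal Q ((a ^ 2) ^ k) c₀ η (2 * c + 2 * b + 1000 * l * c₀) := by
    rw [hQ, hc₀, hηd]
    refine W.levels xl hxl ha hl' ?_ ?_
    · rw [← hηd]
      linarith
    · rw [hWD, hc₀]
  obtain ⟨P, hP⟩ : ∃ P : Fm (Em m × Bool) → Cube (Em m) → ℝ, P = topv Q ((a ^ 2) ^ k) l := ⟨_, rfl⟩
  have hτ : 1 ≤ (a ^ 2) ^ k := Nat.one_le_pow _ _ (Nat.one_le_pow _ _ ha)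
  have hL₀ : 2 * c + 2 * b + 1000 * l * c₀ + 2 * c₀ ≤ W.D := by
    rw [hWD]
    rcases Nat.eq_zero_or_pos k with hk | hk
    · have : c₀ = 1 := by rw [hc₀, hk, pow_zero]
      omega
    · have h1 : 2 * c₀ ≤ 200 * a ^ 2 * c₀ := by
        have : 1 ≤ a ^ 2 := Nat.one_le_pow _ _ ha
        nlinarith
      have h2 : 200 * a ^ 2 * c₀ ≤ k * (200 * a ^ 2 * c₀) := Nat.le_mul_of_pos_left _ hk
      omega
  have hv1 : W.IsVal P (l * (a ^ 2) ^ k) c ε (2 * c + 2 * b) := by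
    rw [hP, hc, hεd]
    exact W.top hv0 hτ hl hη0 hη' hL₀ (by rw [hc])
  have hv : W.IsVal P s c ε (2 * c + 2 * b) :=
    W.isVal_mono hv1 hsk le_rfl le_rfl le_rfl
  have hlit : ∀ y, P (Fm.lit y) = xl y := by
    intro y
    rw [hP, World.topv_lit _ _ _ (by rw [hQlit]; exact xl_idem y), hQlit]
  have hLD : 2 * c + 2 * b + 2 * c ≤ W.D := by
    rw [hWD]
    have : 2 * c ≤ 1000 * l * c₀ := by
      rw [hc]
      nlinarith
    omega
  have hone : ∀ d, (1 : Cube (Em m) → ℝ) ∈ W.F d := fun d => W.one_mem' d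
  have hPm : ∀ A : Fm (Em m × Bool), A.size ≤ s → P A ∈ W.F c := fun A hA => (hv.bit A hA).mem
  have hhyp : ∀ φ ∈ Hyp b ((Gm m).tseitin γ), φ.size ≤ s →
      W.N (P (nnf φ) - 1) ≤ 8 * b * ε := by
    intro φ hφ hφs
    have hsz : (nnf φ).size ≤ b := by
      rw [nnf_size]
      exact hφ.1
    have h1 := W.exact_rel hv hε0 xl hxl hlit hLD hε' (nnf φ) (by rw [nnf_size]; exact hφs)
      (by omega)
    rw [nnf_val] at h1
    have h2 : W.N (1 - fn φ) = 0 := by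
      rw [← hN]
      exact (Gm m).hyp_null (Gm_expands m) (Gm_deg m) γ (by omega) hbc hφ
    have h3 : fn φ ∈ W.F W.D := by
      refine W.F_mono φ.size _ ?_ ?_
      · have := hφ.1
        rw [hWD]
        omega
      · rw [hF]
        exact MG.fn_mem φ
    have h4 : P (nnf φ) ∈ W.F W.D := by
      refine W.F_mono c _ ?_ (hPm _ (by rw [nnf_size]; exact hφs))
      rw [hWD]
      omega
    have h5 := W.N_sub (Submodule.sub_mem _ h4 h3) (Submodule.sub_mem _ (hone W.D) h3)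
    have e : P (nnf φ) - fn φ - (1 - fn φ) = P (nnf φ) - 1 := by ring
    rw [e, h2, add_zero] at h5
    refine (h5.trans h1).trans ?_
    have h6 : ((nnf φ).size : ℝ) ≤ b := by exact_mod_cast hsz
    nlinarith
  rw [← hc₀, ← hc, ← hεd]
  refine ⟨P, ?_, ?_, ?_, ?_, ?_, ?_, ?_, ?_, ?_⟩
  · exact hv.v_tt
  · exact hv.v_ff
  · intro A hA
    rw [← hF]
    exact hPm A hA
  · intro A hA
    have h1 := W.bit_contr (L' := c) (α := 0) (β := 1) (hv.bit A hA) hε0 (by simp) (by simp) hLD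
      (by omega) (hone c)
    rw [W.N_one, mul_one, mul_one, zero_smul, zero_add, one_smul] at h1
    rw [hN]
    linarith
  · intro A hA
    have h1 := (hv.bit A hA).bit 1 (hone _)
    rw [W.N_one, mul_one, mul_one] at h1
    have e : P A - P A * P A = -(P A * P A - P A) := by ring
    rw [hN, e, W.N_neg]
    nlinarith
  · intro A B hAB
    have h1 := hv.and A B hAB 1 (hone _)
    rw [W.N_one, mul_one, mul_one] at h1
    rw [hN]
    nlinarith
  · intro A hA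
    have h1 := W.dual_rel hv hε0 flip (fun y => by rw [hlit, hlit, xl_flip]) (by omega) hLD hε' A hA
    have e : P (A.dual flip) + P A - 1 = P (A.dual flip) - (1 - P A) := by ring
    rw [hN, e]
    have h2 : (s : ℝ) * ε ≤ b * s * ε := by
      have : 0 ≤ (s : ℝ) * ε := by positivity
      nlinarith
    have h3 : 0 ≤ (b : ℝ) * s * ε := by positivity
    nlinarith
  · intro φ hφ hφs
    have h1 := hhyp φ hφ hφs
    rw [hN]
    have h2 : (b : ℝ) * ε ≤ b * s * ε := by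
      have : 0 ≤ (b : ℝ) * ε := by positivity
      nlinarith
    have h3 : 0 ≤ (b : ℝ) * s * ε := by positivity
    nlinarith
  · intro φ hφ hφs
    have hsz : (nnf φ).size ≤ s := by
      rw [nnf_size]
      exact hφs
    have h1 := W.conj_rel (δ := 8 * b * ε) hv hε0 (by positivity)
      (fun A => ∃ φ ∈ Hyp b ((Gm m).tseitin γ), A = nnf φ) (by
        rintro A ⟨ψ, hψ, rfl⟩ hA
        have h2 := hhyp ψ hψ (by rw [nnf_size] at hA; exact hA)
        have e : 1 - P (nnf ψ) = -(P (nnf ψ) - 1) := by ring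
        rw [e, W.N_neg]
        exact h2) (by omega) hLD hε' (nnf φ) hsz (ShStart_conj hφ)
    have e : P (nnf φ) - 1 = -(1 - P (nnf φ)) := by ring
    rw [hN, e, W.N_neg]
    refine h1.trans ?_
    have h2 : ((nnf φ).size : ℝ) ≤ s := by exact_mod_cast hsz
    have h3 : 0 ≤ (b : ℝ) * ε := by positivity
    have h4 : 0 ≤ 8 * (b : ℝ) * ε + ε := by positivity
    have h5 : 4 * ((nnf φ).size : ℝ) * (8 * b * ε + ε) ≤ 4 * s * (8 * b * ε + ε) := by
      nlinarith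
    refine h5.trans ?_
    have h6 : (s : ℝ) * ε ≤ b * s * ε := by
      have : 0 ≤ (s : ℝ) * ε := by positivity
      nlinarith
    have h7 : 0 ≤ (b : ℝ) * s * ε := by positivity
    nlinarith

end Pool.Agent.MP_9cec2c_lc.SL
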