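import Pool.Agent.Lib.MP_9cec2c_lc.SL.Core
import Pool.Agent.Lib.MP_9cec2c_lc.SL.ShStart

/-!
Definitions (`ShPar`: all numerical conditions of the sharp version) and the sharp core theorem. The proof of
`sh_core` is the proof of `core` (file Core, to be copied) with `sh_start` instead of `start`: the family
`P` has degree `200 l₁ (450 l' a)^kk ≤ 2^(gT + T (t - l))` and errors `ε₁ = 40 b s (1/2)^l₁`.
-/

set_option autoImplicit false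

open Finset
open scoped Classical

namespace Pool.Agent.MP_9cec2c_lc.SL

/-- All numerical conditions. -/
structure ShPar (C b m s Z : ℕ) where
  (mT gT t l k₀ T a l' kk l₁ : ℕ)
  (θ Q : ℝ)
  hm : m = mT + T * t
  ha : 1 ≤ a
  hl' : 1 ≤ l'
  hl₁ : 1 ≤ l₁
  hm2 : 2 ≤ m
  hs : s ≤ l₁ * (a ^ 2) ^ kk
  hη : (2000 * (a : ℝ) ^ 2) ^ kk * (2 / 3) ^ l' ≤ 1 / 1000
  hε : 4 * (s : ℝ) * (1 / 2) ^ l₁ ≤ 1
  hD : 8 * (2 * (200 * l₁ * (450 * l' * a) ^ kk) + 2 * b + 1000 * l₁ * (450 * l' * a) ^ kk + 2 +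
    kk * (200 * a ^ 2 * (450 * l' * a) ^ kk)) < 2 ^ m
  hb : 8 * (3 * 44 + 2 * b) < 2 ^ m
  hg : 200 * l₁ * (450 * l' * a) ^ kk ≤ 2 ^ (gT + T * (t - l))
  ht : l < t
  hk : 1 ≤ k₀
  h2 : 88 * k₀ ≤ 2 ^ l
  h3 : 5 + gT + t + l < mT
  h4 : 7 ≤ gT
  hθ : 0 < θ
  hθ1 : (2 ^ 398) ^ 2 * θ ≤ 1 / 2
  h1 : 22 * (2 : ℝ) ^ m * (22 * (m : ℝ) / 2 ^ t) ^ k₀ ≤ 1 / 4
  h5 : 11616 * (m : ℝ) ≤ θ ^ 352 * 2 ^ l
  hQ1 : 1 ≤ Q
  hQ : 8 * (Z : ℝ) ^ 3 * (m + 1) ≤ Q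
  hC : 32 * ((C + 1) * 2 ^ gT) < 2 ^ mT
  hfin : (2 * (2 ^ 398) ^ (C * 2 ^ gT) * ((2 * Q) ^ T * 2)) ^ C *
    (5 * (2 ^ 398) ^ (2 ^ gT) * ((2 * Q) ^ T * 2) *
      ((20 * Q * (2 * Q) ^ (2 * T) * 2 ^ 2) ^ T * (T + 1) *
        (40 * b * s * (1 / 2) ^ l₁ + ((2 ^ 398) ^ 2 * θ) ^ (2 ^ gT)))) < 1

private theorem ShCore_nrm_zero {V E : Type} [Fintype V] [Fintype E] (G : MG V E) (γ : Cube V) :
    G.nrm γ 0 = 0 := by
  unfold MG.nrm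
  rw [mul_zero, map_zero, Real.sqrt_zero]

private theorem ShCore_aux {C b m s Z : ℕ} (hb1 : 1 ≤ b) (hs1 : 1 ≤ s) (p : ShPar C b m s Z)
    (γ : Cube (Vm m)) {l : ℕ} (L : Fin l → Form (Em m)) (hZ : 4 * s * l ≤ Z)
    (hL : ∀ i, (L i).size ≤ s) (i0 : Fin l) :
    ∃ (W : World (Cube (Em p.mT) → ℝ)) (val : Form (Em m) → Cube (Em p.mT) → ℝ) (k : ℕ)
      (ε B K : ℝ), 0 ≤ ε ∧ 1 ≤ B ∧ 1 ≤ K ∧ 2 * (C * k) ≤ W.D ∧ W.HC K (C * k) ∧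
      Mdl W {ψ : Form (Em m) | nnf ψ ∈ idx L} val k ε B ∧ (2 * K ^ (C * k) * B) ^ C * ε < 1 ∧
      2 * k ≤ W.D ∧
      (∀ φ ∈ Hyp b ((Gm m).tseitin γ), nnf φ ∈ idx L → W.N (1 - val φ) ≤ ε) ∧
      (∀ φ, IsConj (Hyp b ((Gm m).tseitin γ)) φ → nnf φ ∈ idx L → W.N (1 - val φ) ≤ ε) := by
  obtain ⟨P, hP⟩ := sh_start γ hb1 hs1 p.ha p.hl' p.hl₁ p.hm2 p.hs p.hη p.hε p.hD p.hb
  have hne : Nonempty {A // A ∈ idx L} := ⟨⟨nnf (L i0), idx_line L i0⟩⟩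
  have hsz : ∀ A ∈ idx L, A.size ≤ s := fun A hA => idx_size L hL A hA
  have hcard : (Fintype.card {A // A ∈ idx L} : ℝ) ≤ Z := by
    rw [Fintype.card_coe]
    exact_mod_cast le_trans (card_idx L hL) hZ
  have hQ0 : 0 ≤ p.Q := le_trans zero_le_one p.hQ1
  have hQ' : 8 * (Fintype.card {A // A ∈ idx L} : ℝ) ^ 3 * (m + 1) ≤ p.Q := by
    refine le_trans ?_ p.hQ
    have h1 : (Fintype.card {A // A ∈ idx L} : ℝ) ^ 3 ≤ (Z : ℝ) ^ 3 :=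
      pow_le_pow_left₀ (Nat.cast_nonneg _) hcard 3
    have h2 : (0 : ℝ) ≤ (m : ℝ) + 1 := by positivity
    exact mul_le_mul_of_nonneg_right (by linarith) h2
  have ha' : (0 : ℝ) < (p.a : ℝ) := by exact_mod_cast p.ha
  have hbr : (0 : ℝ) < (b : ℝ) := by exact_mod_cast hb1
  have hsr : (0 : ℝ) < (s : ℝ) := by exact_mod_cast hs1
  have hε₁ : (0 : ℝ) < 40 * b * s * (1 / 2) ^ p.l₁ := by
    positivity
  obtain ⟨γ', a', -, hdeg, hbd, hrel⟩ := iter p.ht p.hk p.h2 p.h3 p.h4 p.hθ p.hθ1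
    (ι := {A // A ∈ idx L}) p.hQ1 p.T m (p.gT + p.T * (p.t - p.l)) p.hm rfl p.h1 p.h5 hQ' γ
    (fun A => P A.1) (fun A => Fd_mono p.hg (hP.mem A.1 (hsz A.1 A.2))) 2
    (40 * b * s * (1 / 2) ^ p.l₁) one_le_two hε₁
    (fun A => hP.bd A.1 (hsz A.1 A.2))
  set ε₁ : ℝ := 40 * b * s * (1 / 2) ^ p.l₁ with hε₁d
  set B' : ℝ := (2 * p.Q) ^ p.T * 2 with hB'
  set ε' : ℝ := (20 * p.Q * (2 * p.Q) ^ (2 * p.T) * 2 ^ 2) ^ p.T * (p.T + 1) *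
    (ε₁ + ((2 ^ 398) ^ 2 * p.θ) ^ (2 ^ p.gT)) with hε'
  have hθ0 : (0 : ℝ) ≤ ((2 ^ 398) ^ 2 * p.θ) ^ (2 ^ p.gT) :=
    pow_nonneg (mul_nonneg (by positivity) p.hθ.le) _
  have hε'0 : 0 ≤ ε' := by
    rw [hε']
    have h1 : 0 ≤ 20 * p.Q * (2 * p.Q) ^ (2 * p.T) * 2 ^ 2 := by positivity
    have h2 : 0 ≤ ε₁ + ((2 ^ 398) ^ 2 * p.θ) ^ (2 ^ p.gT) := by linarith
    exact mul_nonneg (mul_nonneg (pow_nonneg h1 _) (by positivity)) h2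
  have hB1 : 1 ≤ B' := by
    rw [hB']
    have h1 : (1 : ℝ) ≤ (2 * p.Q) ^ p.T := one_le_pow₀ (by linarith [p.hQ1])
    linarith
  have hK1 : (1 : ℝ) ≤ 2 ^ 398 := one_le_pow₀ one_le_two
  have hcard' : Fintype.card (Vm p.mT) = 2 ^ p.mT := card_Vm p.mT
  have hD' : 8 * (2 * ((C + 1) * 2 ^ p.gT)) < Fintype.card (Vm p.mT) := by
    rw [hcard']
    have := p.hC
    have h0 : 0 < (C + 1) * 2 ^ p.gT := by positivity
    omega
  let W : World (Cube (Em p.mT) → ℝ) :=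
    (Gm p.mT).world (Gm_expands p.mT) γ' (2 * ((C + 1) * 2 ^ p.gT)) hD'
  have hWD : W.D = 2 * ((C + 1) * 2 ^ p.gT) := rfl
  have hWN : ∀ f, W.N f = (Gm p.mT).nrm γ' f := fun f => rfl
  have hWF : ∀ d, W.F d = Fd (Em p.mT) d := fun d => rfl
  have hHC : ∀ D₁, D₁ ≤ (C + 1) * 2 ^ p.gT → W.HC (2 ^ 398) D₁ := by
    intro D₁ hD₁ d hd f hf g hg
    have h32 : 32 * d < Fintype.card (Vm p.mT) := by
      rw [hcard']
      have := p.hC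
      omega
    have := (Gm p.mT).nrm_mul (Gm_expands p.mT) (Gm_deg p.mT) γ' h32 hf hg
    exact this
  have hCk : C * 2 ^ p.gT ≤ (C + 1) * 2 ^ p.gT := Nat.mul_le_mul_right _ (Nat.le_succ C)
  have hk1 : 2 ^ p.gT ≤ (C + 1) * 2 ^ p.gT := Nat.le_mul_of_pos_left _ (Nat.succ_pos C)
  let a'' : Fm (Em m × Bool) → Cube (Em p.mT) → ℝ :=
    fun A => if h : A ∈ idx L then a' ⟨A, h⟩ else 0
  have ha'' : ∀ (A) (h : A ∈ idx L), a'' A = a' ⟨A, h⟩ := fun A h => dif_pos h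
  have hone : ∀ (A) (h : A ∈ idx L), (Gm m).nrm γ (P A - 1) ≤ ε₁ → W.N (a'' A - 1) ≤ ε' := by
    intro A h h1
    have := hrel (Sum.inl ⟨A, h⟩) h1
    rw [ha'' A h, hWN]
    exact this
  have hmodel : Mdl W {ψ : Form (Em m) | nnf ψ ∈ idx L} (fun ψ => a'' (nnf ψ)) (2 ^ p.gT)
      (5 * (2 ^ 398) ^ (2 ^ p.gT) * B' * ε') B' := by
    apply mk_model W (idx L) (fun A hA => idx_dual L hA) (fun A B hA => idx_and L hA)
      (fun A B hA => idx_or L hA) a'' hε'0 hB1 hK1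
    · rw [hWD]; exact Nat.mul_le_mul_left 2 hk1
    · exact hHC _ hk1
    · intro A hA
      rw [ha'' A hA]
      exact hdeg _
    · intro A hA
      rw [ha'' A hA, hWN]
      exact hbd _
    · intro A hA
      have := hrel (Sum.inr (Sum.inr (⟨A, hA⟩, ⟨A, hA⟩, ⟨A, hA⟩))) (hP.bit A (hsz A hA))
      rw [ha'' A hA, hWN]
      exact this
    · intro hA
      refine hone _ hA ?_
      rw [hP.tt, sub_self, ShCore_nrm_zero]
      exact hε₁.le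
    · intro A hA
      have hA' := idx_dual L hA
      have := hrel (Sum.inr (Sum.inl (⟨A.dual flip, hA'⟩, ⟨A, hA⟩))) (hP.dual A (hsz A hA))
      rw [ha'' A hA, ha'' _ hA', hWN]
      exact this
    · intro A B hAB
      obtain ⟨hA, hB⟩ := idx_and L hAB
      have hsz' : A.size + B.size ≤ s := hsz _ hAB
      have := hrel (Sum.inr (Sum.inr (⟨A.and B, hAB⟩, ⟨A, hA⟩, ⟨B, hB⟩))) (hP.and A B hsz')
      rw [ha'' A hA, ha'' B hB, ha'' _ hAB, hWN]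
      exact this
  have hle : ε' ≤ 5 * (2 ^ 398) ^ (2 ^ p.gT) * B' * ε' := by
    have h1 : (1 : ℝ) ≤ (2 ^ 398) ^ (2 ^ p.gT) := one_le_pow₀ hK1
    have h2 : (1 : ℝ) ≤ 5 * (2 ^ 398) ^ (2 ^ p.gT) * B' := by
      have h3 : (1 : ℝ) ≤ 5 * (2 ^ 398) ^ (2 ^ p.gT) := by linarith
      calc (1 : ℝ) = 1 * 1 := (one_mul 1).symm
        _ ≤ _ := mul_le_mul h3 hB1 zero_le_one (le_trans zero_le_one h3)
    calc ε' = 1 * ε' := (one_mul _).symm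
      _ ≤ _ := mul_le_mul_of_nonneg_right h2 hε'0
  have hε''0 : 0 ≤ 5 * (2 ^ 398) ^ (2 ^ p.gT) * B' * ε' := le_trans hε'0 hle
  have hswap : ∀ f : Cube (Em p.mT) → ℝ, W.N (1 - f) = W.N (f - 1) := by
    intro f
    rw [← W.N_neg, neg_sub]
  refine ⟨W, fun ψ => a'' (nnf ψ), 2 ^ p.gT, 5 * (2 ^ 398) ^ (2 ^ p.gT) * B' * ε', B', 2 ^ 398,
    hε''0, hB1, hK1, ?_, hHC _ hCk, hmodel, ?_, ?_, ?_, ?_⟩
  · rw [hWD]; exact Nat.mul_le_mul_left 2 hCk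
  · exact p.hfin
  · rw [hWD]; exact Nat.mul_le_mul_left 2 hk1
  · intro φ hφ hI
    have hφs : φ.size ≤ s := by rw [← nnf_size]; exact hsz _ hI
    rw [hswap]
    exact le_trans (hone _ hI (hP.hyp φ hφ hφs)) hle
  · intro φ hφ hI
    have hφs : φ.size ≤ s := by rw [← nnf_size]; exact hsz _ hI
    rw [hswap]
    exact le_trans (hone _ hI (hP.conj φ hφ hφs)) hle

theorem sh_core (S : Set Rule) (hS : S.Finite) (hs : ∀ r ∈ S, r.Sound) : ∃ C : ℕ,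
    ∀ (b m s Z : ℕ), 1 ≤ b → 1 ≤ s → ShPar C b m s Z → ∀ γ : Cube (Vm m),
    ∀ (l : ℕ) (L : Fin l → Form (Em m)), 4 * s * l ≤ Z → (∀ i, (L i).size ≤ s) →
      (IsDerivation S (Hyp b ((Gm m).tseitin γ)) L → ∀ i, L i ≠ Form.ff) ∧
      (IsDerivation S ∅ L → ∀ i φ, IsConj (Hyp b ((Gm m).tseitin γ)) φ → L i ≠ Form.neg φ) := by
  obtain ⟨C, hC⟩ := no_refutation S hS hs
  refine ⟨C, fun b m s Z hb hs1 p γ l L hZ hL => ⟨fun hder i hi => ?_, fun hder i φ hφ hi => ?_⟩⟩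
  · obtain ⟨W, val, k, ε, B, K, h0, hB, hK, hD, hHC, hM, hfin, hD2, hhyp, -⟩ :=
      ShCore_aux hb hs1 p γ L hZ hL i
    have h := hC (Cube (Em p.mT) → ℝ) W (Em m) {ψ : Form (Em m) | nnf ψ ∈ idx L} val k ε B K
      h0 hB hK hD hHC hM hfin (Hyp b ((Gm m).tseitin γ)) hhyp l L hder (fun j => idx_line L j) i
    rw [hi] at h
    have hQ : Form.ff ∈ {ψ : Form (Em m) | nnf ψ ∈ idx L} := by
      rw [← hi]; exact idx_line L i
    have hff := hM.ff hQ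
    have hmem : val Form.ff ∈ W.F W.D := W.F_mono _ _ (by omega) (hM.mem _ hQ)
    have h1 : W.N 1 ≤ W.N (1 - val Form.ff) + W.N (val Form.ff) := by
      have := W.N_add (Submodule.sub_mem _ (W.one_mem' W.D) hmem) hmem
      rwa [sub_add_cancel] at this
    rw [W.N_one] at h1
    linarith [h.1, h.2]
  · obtain ⟨W, val, k, ε, B, K, h0, hB, hK, hD, hHC, hM, hfin, hD2, -, hconj⟩ :=
      ShCore_aux hb hs1 p γ L hZ hL i
    have h := hC (Cube (Em p.mT) → ℝ) W (Em m) {ψ : Form (Em m) | nnf ψ ∈ idx L} val k ε B K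
      h0 hB hK hD hHC hM hfin ∅ (fun A hA => absurd hA (Set.notMem_empty A)) l L hder
      (fun j => idx_line L j) i
    rw [hi] at h
    have hQ : Form.neg φ ∈ {ψ : Form (Em m) | nnf ψ ∈ idx L} := by
      rw [← hi]; exact idx_line L i
    obtain ⟨hφQ, hneg⟩ := hM.neg φ hQ
    have hφ1 := hconj φ hφ hφQ
    have hmem : val (Form.neg φ) ∈ W.F W.D := W.F_mono _ _ (by omega) (hM.mem _ hQ)
    have hmem' : val φ ∈ W.F W.D := W.F_mono _ _ (by omega) (hM.mem _ hφQ)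
    have h1m := W.one_mem' W.D
    have h1 : W.N 1 ≤ W.N (1 - val (Form.neg φ)) + W.N (val (Form.neg φ)) := by
      have := W.N_add (Submodule.sub_mem _ h1m hmem) hmem
      rwa [sub_add_cancel] at this
    have h2 : W.N (val (Form.neg φ)) ≤ W.N (val (Form.neg φ) - (1 - val φ)) + W.N (1 - val φ) := by
      have := W.N_add (Submodule.sub_mem _ hmem (Submodule.sub_mem _ h1m hmem'))
        (Submodule.sub_mem _ h1m hmem')
      rwa [sub_add_cancel] at this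
    rw [W.N_one] at h1
    linarith [h.1, h.2]

end Pool.Agent.MP_9cec2c_lc.SL
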