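import Pool.Agent.Lib.MP_9cec2c_lc.SL.Contr
import Pool.Agent.Lib.MP_9cec2c_lc.SL.RepGood

/-!
Campaign SL, sharp tradeoff, definitions: graded elements (power series over `R` whose coefficients have
geometrically decreasing operator norms), equality modulo `1 - z`, the rounding series.
-/

set_option autoImplicit false

open Finset

namespace Pool.Agent.MP_9cec2c_lc.SL

noncomputable section

variable {R : Type} [CommRing R] [Algebra ℝ R] (W : World R)

/-- The power series `X = ∑ x_t z^t` is a graded element of type `a` and norm `κ` (with respect to the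
parameters `c`, `L`, `T`): for `t ≤ T` the coefficient `x_t` has degree at most `c (2 t + a)` and
satisfies `N (x_t f) ≤ β_t N f` for all `f` of degree `≤ l` with `l + c (2 t + a) ≤ L`, where
`∑_{t ≤ T} β_t 2^t ≤ κ`. -/
def World.Gr (c L T a : ℕ) (κ : ℝ) (X : PowerSeries R) : Prop :=
  ∃ β : ℕ → ℝ, (∀ t, 0 ≤ β t) ∧
    (∀ t ≤ T, PowerSeries.coeff t X ∈ W.F (c * (2 * t + a)) ∧
      ∀ l, l + c * (2 * t + a) ≤ L → ∀ f ∈ W.F l, W.N (PowerSeries.coeff t X * f) ≤ β t * W.N f) ∧
    ∑ t ∈ range (T + 1), β t * 2 ^ t ≤ κ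

/-- The sum of the coefficients up to `T`. -/
def Tr (T : ℕ) (X : PowerSeries R) : R := ∑ t ∈ range (T + 1), PowerSeries.coeff t X

/-- `X` and `Y` are equal modulo `1 - z` up to `ω`. -/
def World.Eqv (c L T a : ℕ) (κ ω : ℝ) (X Y : PowerSeries R) : Prop :=
  ∃ Δ Ω : PowerSeries R, X - Y = (1 - PowerSeries.X) * Δ + Ω ∧ W.Gr c L T a κ Δ ∧ W.Gr c L T a ω Ω

/-- The rounding series `p + ∑_{t ≥ 1} C(2t-1, t) (p - p²)^t (2p - 1) z^t`. -/
def rh (p : R) : PowerSeries R :=
  PowerSeries.mk (fun t => if t = 0 then p else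
    ((2 * t - 1).choose t : R) * (p - p * p) ^ t * (2 * p - 1))

/-- The series `-∑_t u (4u)^t z^t`, `u = p - p²`. -/
def rhΔ (p : R) : PowerSeries R :=
  PowerSeries.mk (fun t => -((p - p * p) * (4 * (p - p * p)) ^ t))

/-- The rounded value of a formula. -/
def topv {Λ : Type} (v : Fm Λ → R) (τ l : ℕ) (A : Fm Λ) : R :=
  Tr (64 * l) ((rep τ A).sk.val (fun B => rh (v B)))

end

end Pool.Agent.MP_9cec2c_lc.SL
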