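import Pool.Agent.Lib.MP_9cec2c_lc.SL.ShAlg

/-!
TASK ShEqv: rules for equality modulo `1 - z`. All follow directly from the definition and `gr_add`,
`gr_mul`, `gr_mono`, `gr_neg`. `eqv_tr`: `Tr` is additive, `tr_top`, `tr_bound`.
-/

set_option autoImplicit false

open Finset

namespace Pool.Agent.MP_9cec2c_lc.SL.World

variable {R : Type} [CommRing R] [Algebra ℝ R] (W : World R) {c L T : ℕ}

private theorem ShEqv_tr_add (T : ℕ) (X Y : PowerSeries R) : Tr T (X + Y) = Tr T X + Tr T Y := by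
  unfold Tr
  rw [← Finset.sum_add_distrib]
  exact Finset.sum_congr rfl (fun t _ => map_add _ _ _)

private theorem ShEqv_tele (T : ℕ) (Δ : PowerSeries R) :
    Tr T ((1 - PowerSeries.X) * Δ) = PowerSeries.coeff T Δ := by
  unfold Tr
  induction T with
  | zero => simp [sub_mul]
  | succ T ih =>
    rw [Finset.sum_range_succ, ih, sub_mul, one_mul, map_sub, PowerSeries.coeff_succ_X_mul]
    ring

theorem eqv_refl (a : ℕ) {κ ω : ℝ} (hκ : 0 ≤ κ) (hω : 0 ≤ ω) (X : PowerSeries R) :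
    W.Eqv c L T a κ ω X X := by
  refine ⟨0, 0, ?_, ?_, ?_⟩
  · simp
  · exact W.gr_mono (W.gr_zero a) le_rfl hκ
  · exact W.gr_mono (W.gr_zero a) le_rfl hω

theorem eqv_mono {a a' : ℕ} {κ κ' ω ω' : ℝ} {X Y : PowerSeries R} (h : W.Eqv c L T a κ ω X Y)
    (ha : a ≤ a') (hκ : κ ≤ κ') (hω : ω ≤ ω') : W.Eqv c L T a' κ' ω' X Y := by
  obtain ⟨Δ, Ω, h1, h2, h3⟩ := h
  exact ⟨Δ, Ω, h1, W.gr_mono h2 ha hκ, W.gr_mono h3 ha hω⟩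

theorem eqv_symm {a : ℕ} {κ ω : ℝ} {X Y : PowerSeries R} (h : W.Eqv c L T a κ ω X Y) :
    W.Eqv c L T a κ ω Y X := by
  obtain ⟨Δ, Ω, h1, h2, h3⟩ := h
  refine ⟨-Δ, -Ω, ?_, W.gr_neg h2, W.gr_neg h3⟩
  linear_combination -h1

theorem eqv_trans (hL : L ≤ W.D) {a : ℕ} {κ κ' ω ω' : ℝ} {X Y Z : PowerSeries R}
    (h : W.Eqv c L T a κ ω X Y) (h' : W.Eqv c L T a κ' ω' Y Z) :
    W.Eqv c L T a (κ + κ') (ω + ω') X Z := by
  obtain ⟨Δ, Ω, h1, h2, h3⟩ := h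
  obtain ⟨Δ', Ω', h1', h2', h3'⟩ := h'
  refine ⟨Δ + Δ', Ω + Ω', ?_, W.gr_add hL h2 h2', W.gr_add hL h3 h3'⟩
  linear_combination h1 + h1'

theorem eqv_add (hL : L ≤ W.D) {a : ℕ} {κ κ' ω ω' : ℝ} {X Y X' Y' : PowerSeries R}
    (h : W.Eqv c L T a κ ω X Y) (h' : W.Eqv c L T a κ' ω' X' Y') :
    W.Eqv c L T a (κ + κ') (ω + ω') (X + X') (Y + Y') := by
  obtain ⟨Δ, Ω, h1, h2, h3⟩ := h
  obtain ⟨Δ', Ω', h1', h2', h3'⟩ := h'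
  refine ⟨Δ + Δ', Ω + Ω', ?_, W.gr_add hL h2 h2', W.gr_add hL h3 h3'⟩
  linear_combination h1 + h1'

theorem eqv_sub (hL : L ≤ W.D) {a : ℕ} {κ κ' ω ω' : ℝ} {X Y X' Y' : PowerSeries R}
    (h : W.Eqv c L T a κ ω X Y) (h' : W.Eqv c L T a κ' ω' X' Y') :
    W.Eqv c L T a (κ + κ') (ω + ω') (X - X') (Y - Y') := by
  obtain ⟨Δ, Ω, h1, h2, h3⟩ := h
  obtain ⟨Δ', Ω', h1', h2', h3'⟩ := h'
  refine ⟨Δ - Δ', Ω - Ω', ?_, W.gr_sub hL h2 h2', W.gr_sub hL h3 h3'⟩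
  linear_combination h1 - h1'

theorem eqv_mul (hL : L ≤ W.D) {a a' : ℕ} {κ κ' ω : ℝ} {X Y Z : PowerSeries R}
    (h : W.Eqv c L T a κ ω X Y) (hZ : W.Gr c L T a' κ' Z) :
    W.Eqv c L T (a + a') (κ * κ') (ω * κ') (X * Z) (Y * Z) := by
  obtain ⟨Δ, Ω, h1, h2, h3⟩ := h
  refine ⟨Δ * Z, Ω * Z, ?_, W.gr_mul hL h2 hZ, W.gr_mul hL h3 hZ⟩
  linear_combination Z * h1

theorem eqv_tr (hL : L ≤ W.D) {a : ℕ} {κ ω : ℝ} {X Y : PowerSeries R}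
    (h : W.Eqv c L T a κ ω X Y) {l : ℕ} (hl : l + c * (2 * T + a) ≤ L) {f : R} (hf : f ∈ W.F l) :
    W.N ((Tr T X - Tr T Y) * f) ≤ (κ * (1 / 2) ^ T + ω) * W.N f := by
  obtain ⟨Δ, Ω, h1, h2, h3⟩ := h
  have hD : c * (2 * T + a) + l ≤ W.D := by omega
  have hmemΔ : Tr T ((1 - PowerSeries.X) * Δ) * f ∈ W.F W.D := by
    rw [ShEqv_tele]
    obtain ⟨β, _, hβ, _⟩ := h2
    exact W.F_mono _ _ hD (W.mul_mem _ _ _ _ (hβ T le_rfl).1 hf)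
  have hmemΩ : Tr T Ω * f ∈ W.F W.D :=
    W.F_mono _ _ hD (W.mul_mem _ _ _ _ (W.tr_mem h3) hf)
  have e : (Tr T X - Tr T Y) * f = Tr T ((1 - PowerSeries.X) * Δ) * f + Tr T Ω * f := by
    have e1 : Tr T X - Tr T Y = Tr T ((1 - PowerSeries.X) * Δ) + Tr T Ω := by
      have e2 : X = Y + ((1 - PowerSeries.X) * Δ + Ω) := by linear_combination h1
      conv_lhs => rw [e2]
      rw [ShEqv_tr_add, ShEqv_tr_add]
      ring
    rw [e1, add_mul]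
  rw [e]
  have h4 := W.N_add hmemΔ hmemΩ
  have h5 := W.tr_top hL h2 hl hf
  have h6 := W.tr_bound hL h3 hl hf
  have h7 : (κ * (1 / 2) ^ T + ω) * W.N f = κ * (1 / 2) ^ T * W.N f + ω * W.N f := by ring
  rw [h7]
  linarith

end Pool.Agent.MP_9cec2c_lc.SL.World
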