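import Pool.Agent.Lib.MP_9cec2c_lc.SL.ShAlg

/-!
TASK ShRho: the rounding series.

`central_conv`: `∑_{i+j=n} C(2i,i) C(2j,j) = 4^n`. E.g. the power series `Φ = ∑ C(2t,t) z^t` over `ℚ`
satisfies `(1 - 4z) Φ' = 2 Φ` (`Nat.succ_mul_centralBinom_succ`), so `((1 - 4z) Φ²)' = 0`, `(1-4z) Φ² = 1`
(look in Mathlib first).
`rh_idem`: with `u = p - p²`, `Φ_u = ∑ C(2t,t) u^t z^t`: `2 rh p = 1 + (2p-1) Φ_u` (`C(2t,t) = 2 C(2t-1,t)`
for `t ≥ 1`), `Φ_u² = ∑ (4u)^t z^t`, `(2p-1)² = 1 - 4u`; so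
`4 (rh² - rh) = (2 rh - 1)² - 1 = (1-4u) ∑ (4u)^t z^t - 1 = (z - 1) ∑ (4u)^(t+1) z^t`. (Divide by 4: `R` is an
`ℝ`-algebra. Or compare coefficients directly.)
`rh_exact`: if `p² = p` the coefficients with `t ≥ 1` vanish.
`rh_gr`: coefficient 0: `p`, `β_0 = 1 + 4η` (`bit_contr`); `t ≥ 1`: degree `c (2t + 1)`; for `f` of degree `l`,
`l + c (2t+1) ≤ L`: `N ((2p-1) f) ≤ 2 (1+4η) N f` (`2p - 1 = p - (1-p)`), then `t` times `IsBit.bit` (degrees
`l + c + 2 c j ≤ L`), `C(2t-1,t) ≤ 4^t/2`: `β_t = (1+4η)(4η)^t`. Weighted sum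
`≤ (1+4η) ∑ (8η)^t ≤ 1.1 · 1.1 ≤ 2` for `η ≤ 1/1000`.
`rh_tail`: without the constant coefficient the weighted sum is at most `(1+4η) · 8η/(1-8η) ≤ 10 η`.
`rhΔ_gr`: `u (4u)^t`: degree `c (2t + 2)`, `β_t = η (4η)^t`, weighted sum `≤ 2 η`.
-/

set_option autoImplicit false

open Finset

namespace Pool.Agent.MP_9cec2c_lc.SL

theorem central_conv (n : ℕ) :
    ∑ p ∈ antidiagonal n, (2 * p.1).choose p.1 * (2 * p.2).choose p.2 = 4 ^ n := by
  have hcb : ∀ i : ℕ, (2 * i).choose i = Nat.centralBinom i := fun i => rfl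
  simp only [hcb]
  have hsymm : ∀ m : ℕ, 2 * ∑ p ∈ antidiagonal m, p.1 * (p.1.centralBinom * p.2.centralBinom) =
      m * ∑ p ∈ antidiagonal m, p.1.centralBinom * p.2.centralBinom := by
    intro m
    have h1 : ∑ p ∈ antidiagonal m, p.1 * (p.1.centralBinom * p.2.centralBinom) =
        ∑ p ∈ antidiagonal m, p.2 * (p.1.centralBinom * p.2.centralBinom) := by
      rw [← Finset.Nat.sum_antidiagonal_swap]
      refine Finset.sum_congr rfl fun q _ => ?_
      simp only [Prod.fst_swap, Prod.snd_swap]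
      ring
    rw [two_mul]
    nth_rewrite 2 [h1]
    rw [← Finset.sum_add_distrib, Finset.mul_sum]
    refine Finset.sum_congr rfl fun q hq => ?_
    rw [← add_mul, mem_antidiagonal.mp hq]
  induction n with
  | zero => simp
  | succ n ih =>
    have h2 := hsymm (n + 1)
    rw [Finset.Nat.sum_antidiagonal_succ] at h2
    simp only [zero_mul, zero_add] at h2
    have h3 : ∑ p ∈ antidiagonal n, (p.1 + 1) * ((p.1 + 1).centralBinom * p.2.centralBinom) =
        2 * (2 * ∑ p ∈ antidiagonal n, p.1 * (p.1.centralBinom * p.2.centralBinom) +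
          ∑ p ∈ antidiagonal n, p.1.centralBinom * p.2.centralBinom) := by
      rw [Finset.mul_sum, ← Finset.sum_add_distrib, Finset.mul_sum]
      refine Finset.sum_congr rfl fun q _ => ?_
      rw [← mul_assoc, Nat.succ_mul_centralBinom_succ]
      ring
    rw [h3, hsymm n, ih] at h2
    have h4 : (n + 1) * ∑ p ∈ antidiagonal (n + 1), p.1.centralBinom * p.2.centralBinom =
        (n + 1) * 4 ^ (n + 1) := by
      rw [← h2]
      ring
    exact Nat.eq_of_mul_eq_mul_left (Nat.succ_pos n) h4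

private theorem ShRho_choose {t : ℕ} (ht : t ≠ 0) :
    (2 * t).choose t = 2 * (2 * t - 1).choose t := by
  obtain ⟨s, rfl⟩ := Nat.exists_eq_succ_of_ne_zero ht
  have h1 : 2 * s.succ - 1 = 2 * s + 1 := by omega
  have h2 : 2 * s.succ = 2 * s + 1 + 1 := by omega
  rw [h1, h2, Nat.succ_eq_add_one, Nat.choose_succ_succ' (2 * s + 1) s,
    Nat.choose_symm_half s]
  ring

private theorem ShRho_choose_le {t : ℕ} (ht : t ≠ 0) : (2 * t - 1).choose t ≤ 4 ^ t := by
  have h1 := ShRho_choose ht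
  have h2 := Nat.centralBinom_le_four_pow t
  rw [Nat.centralBinom] at h2
  omega

section ring
variable {R : Type} [CommRing R] [Algebra ℝ R]

theorem rh_idem (p : R) : rh p * rh p - rh p = (1 - PowerSeries.X) * rhΔ p := by
  set u : R := p - p * p with hu
  let Φ : PowerSeries R := PowerSeries.mk fun t => ((2 * t).choose t : R) * u ^ t
  let G : PowerSeries R := PowerSeries.mk fun t => (4 * u) ^ t
  have h1 : 2 * rh p = 1 + PowerSeries.C (2 * p - 1) * Φ := by
    ext t
    rw [map_add, PowerSeries.coeff_C_mul, PowerSeries.coeff_mk,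
      show (2 : PowerSeries R) = PowerSeries.C (2 : R) by rw [map_ofNat],
      PowerSeries.coeff_C_mul, rh, PowerSeries.coeff_mk, PowerSeries.coeff_one]
    by_cases ht : t = 0
    · subst ht
      simp
    · rw [if_neg ht, if_neg ht, ShRho_choose ht]
      push_cast
      ring
  have h2 : Φ * Φ = G := by
    ext t
    rw [PowerSeries.coeff_mul, PowerSeries.coeff_mk]
    have h3 : ∀ q ∈ antidiagonal t, PowerSeries.coeff q.1 Φ * PowerSeries.coeff q.2 Φ =
        (((2 * q.1).choose q.1 * (2 * q.2).choose q.2 : ℕ) : R) * u ^ t := by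
      intro q hq
      rw [PowerSeries.coeff_mk, PowerSeries.coeff_mk, ← mem_antidiagonal.mp hq, pow_add]
      push_cast
      ring
    rw [Finset.sum_congr rfl h3, ← Finset.sum_mul, ← Nat.cast_sum, central_conv, mul_pow]
    push_cast
    ring
  have h3 : G = 1 + PowerSeries.X * (PowerSeries.C (4 * u) * G) := by
    ext t
    rcases t with _ | t
    · simp [G]
    · rw [map_add, PowerSeries.coeff_succ_X_mul, PowerSeries.coeff_C_mul, PowerSeries.coeff_mk,
        PowerSeries.coeff_mk, PowerSeries.coeff_one, if_neg (Nat.succ_ne_zero t), pow_succ]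
      ring
  have h4 : 4 * rhΔ p = - (PowerSeries.C (4 * u) * G) := by
    ext t
    rw [map_neg, PowerSeries.coeff_C_mul, PowerSeries.coeff_mk,
      show (4 : PowerSeries R) = PowerSeries.C (4 : R) by rw [map_ofNat],
      PowerSeries.coeff_C_mul, rhΔ, PowerSeries.coeff_mk]
    ring
  have h5 : PowerSeries.C (2 * p - 1) * PowerSeries.C (2 * p - 1) =
      1 - PowerSeries.C (4 * u) := by
    rw [← map_mul, ← map_one (PowerSeries.C (R := R)), ← map_sub]
    congr 1
    rw [hu]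
    ring
  have h6 : 4 * (rh p * rh p - rh p) = 4 * ((1 - PowerSeries.X) * rhΔ p) := by
    have e1 : 4 * (rh p * rh p - rh p) = (2 * rh p - 1) * (2 * rh p - 1) - 1 := by ring
    have e2 : (2 * rh p - 1) * (2 * rh p - 1) =
        (PowerSeries.C (2 * p - 1) * PowerSeries.C (2 * p - 1)) * (Φ * Φ) := by
      rw [h1]
      ring
    have e3 : 4 * ((1 - PowerSeries.X) * rhΔ p) = (1 - PowerSeries.X) * (4 * rhΔ p) := by ring
    rw [e1, e2, h5, h2, e3, h4]
    have e4 : PowerSeries.X * (PowerSeries.C (4 * u) * G) = G - 1 := by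
      nth_rewrite 2 [h3]
      ring
    calc (1 - PowerSeries.C (4 * u)) * G - 1
        = G - 1 - PowerSeries.C (4 * u) * G := by ring
      _ = PowerSeries.X * (PowerSeries.C (4 * u) * G) - PowerSeries.C (4 * u) * G := by rw [e4]
      _ = (1 - PowerSeries.X) * -(PowerSeries.C (4 * u) * G) := by ring
  have h7 : PowerSeries.C (algebraMap ℝ R (1 / 4)) * (4 : PowerSeries R) = 1 := by
    rw [show (4 : PowerSeries R) = PowerSeries.C (algebraMap ℝ R 4) by
      rw [map_ofNat, map_ofNat], ← map_mul, ← map_mul]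
    norm_num
  calc rh p * rh p - rh p
      = (PowerSeries.C (algebraMap ℝ R (1 / 4)) * 4) * (rh p * rh p - rh p) := by
        rw [h7, one_mul]
    _ = PowerSeries.C (algebraMap ℝ R (1 / 4)) * (4 * (rh p * rh p - rh p)) := by ring
    _ = (PowerSeries.C (algebraMap ℝ R (1 / 4)) * 4) * ((1 - PowerSeries.X) * rhΔ p) := by
        rw [h6]
        ring
    _ = (1 - PowerSeries.X) * rhΔ p := by rw [h7, one_mul]

theorem rh_exact {p : R} (hp : p * p = p) : rh p = PowerSeries.C p := by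
  ext t
  rw [rh, PowerSeries.coeff_mk, PowerSeries.coeff_C]
  by_cases ht : t = 0
  · rw [if_pos ht, if_pos ht]
  · rw [if_neg ht, if_neg ht, hp, sub_self, zero_pow ht]
    ring

theorem tr_rh_exact {p : R} (hp : p * p = p) (T : ℕ) : Tr T (rh p) = p := by
  rw [rh_exact hp, Tr]
  simp only [PowerSeries.coeff_C]
  rw [Finset.sum_ite_eq' (range (T + 1)) 0 (fun _ => p)]
  simp

end ring

variable {R : Type} [CommRing R] [Algebra ℝ R] (W : World R) {c L T : ℕ}

private theorem ShRho_u_mem {η : ℝ} {p : R} (hp : W.IsBit c η L p) :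
    p - p * p ∈ W.F (2 * c) := by
  have h1 : p ∈ W.F (2 * c) := W.F_mono c (2 * c) (by omega) hp.mem
  have h2 : p * p ∈ W.F (2 * c) :=
    W.F_mono (c + c) (2 * c) (by omega) (W.mul_mem c c p p hp.mem hp.mem)
  exact Submodule.sub_mem _ h1 h2

private theorem ShRho_upow_mem {η : ℝ} {p : R} (hp : W.IsBit c η L p) (n : ℕ) {l : ℕ} {f : R}
    (hf : f ∈ W.F l) : (p - p * p) ^ n * f ∈ W.F (l + 2 * c * n) := by
  induction n with
  | zero => simpa using hf
  | succ n ih =>
    have h1 := W.mul_mem (2 * c) (l + 2 * c * n) _ _ (ShRho_u_mem W hp) ih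
    have h2 : (p - p * p) ^ (n + 1) * f = (p - p * p) * ((p - p * p) ^ n * f) := by ring
    rw [h2]
    refine W.F_mono _ _ (le_of_eq ?_) h1
    ring

private theorem ShRho_upow {η : ℝ} (hη0 : 0 ≤ η) {p : R} (hp : W.IsBit c η L p) (n : ℕ)
    {l : ℕ} (hl : l + 2 * c * n ≤ L) {f : R} (hf : f ∈ W.F l) :
    W.N ((p - p * p) ^ n * f) ≤ η ^ n * W.N f := by
  induction n with
  | zero => simp
  | succ n ih =>
    have hl' : l + 2 * c * n ≤ L := by
      refine le_trans ?_ hl
      exact Nat.add_le_add_left (Nat.mul_le_mul_left _ (Nat.le_succ n)) l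
    have h1 := ih hl'
    have h2 : (p - p * p) ^ n * f ∈ W.F L :=
      W.F_mono _ _ hl' (ShRho_upow_mem W hp n hf)
    have h3 := hp.bit _ h2
    have h4 : (p - p * p) ^ (n + 1) * f = -((p * p - p) * ((p - p * p) ^ n * f)) := by ring
    rw [h4, W.N_neg]
    calc W.N ((p * p - p) * ((p - p * p) ^ n * f)) ≤ η * W.N ((p - p * p) ^ n * f) := h3
      _ ≤ η * (η ^ n * W.N f) := mul_le_mul_of_nonneg_left h1 hη0
      _ = η ^ (n + 1) * W.N f := by ring

private theorem ShRho_geom {x : ℝ} (hx0 : 0 ≤ x) (hx : x < 1) (n : ℕ) :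
    ∑ t ∈ range n, x ^ t ≤ 1 / (1 - x) := by
  have h1 : 0 < 1 - x := by linarith
  have h2 := geom_sum_mul_neg x n
  rw [le_div_iff₀ h1, h2]
  have := pow_nonneg hx0 n
  linarith

private theorem ShRho_coeff_mem {η : ℝ} {p : R} (hp : W.IsBit c η L p) {t : ℕ} (ht : t ≠ 0) :
    PowerSeries.coeff t (rh p) ∈ W.F (c * (2 * t + 1)) := by
  rw [rh, PowerSeries.coeff_mk, if_neg ht]
  have h1 : (2 : R) * p - 1 ∈ W.F c := by
    refine Submodule.sub_mem _ ?_ (W.one_mem' c)
    rw [two_mul]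
    exact Submodule.add_mem _ hp.mem hp.mem
  have h2 := ShRho_upow_mem W hp t h1
  have h3 : (((2 * t - 1).choose t : ℕ) : R) * (p - p * p) ^ t * (2 * p - 1) =
      (((2 * t - 1).choose t : ℕ) : ℝ) • ((p - p * p) ^ t * (2 * p - 1)) := by
    rw [Algebra.smul_def, map_natCast, mul_assoc]
  rw [h3]
  refine Submodule.smul_mem _ _ (W.F_mono _ _ (le_of_eq ?_) h2)
  ring

private theorem ShRho_coeff_N {η : ℝ} (hη0 : 0 ≤ η) (hD : L + 2 * c ≤ W.D) {p : R}
    (hp : W.IsBit c η L p) {t : ℕ} (ht : t ≠ 0) {l : ℕ} (hl : l + c * (2 * t + 1) ≤ L) {f : R}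
    (hf : f ∈ W.F l) :
    W.N (PowerSeries.coeff t (rh p) * f) ≤ (1 + 4 * η) * (4 * η) ^ t * W.N f := by
  rw [rh, PowerSeries.coeff_mk, if_neg ht]
  have hl1 : l + c ≤ L := by
    refine le_trans ?_ hl
    exact Nat.add_le_add_left (Nat.le_mul_of_pos_right c (by omega)) l
  have h1 : (2 : R) * p - 1 ∈ W.F c := by
    refine Submodule.sub_mem _ ?_ (W.one_mem' c)
    rw [two_mul]
    exact Submodule.add_mem _ hp.mem hp.mem
  have h2 : (2 * p - 1) * f ∈ W.F (c + l) := W.mul_mem c l _ _ h1 hf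
  have h3 := ShRho_upow W hη0 hp t (l := c + l) (by
    refine le_trans (le_of_eq ?_) hl
    ring) h2
  have h4 := W.bit_contr hp hη0 (α := -1) (β := 1) (by norm_num) (by norm_num) hD hl1 hf
  have h5 : ((-1 : ℝ) • (1 - p) + (1 : ℝ) • p) = 2 * p - 1 := by
    rw [neg_smul, one_smul, one_smul]
    ring
  rw [h5] at h4
  have h6 : (((2 * t - 1).choose t : ℕ) : R) * (p - p * p) ^ t * (2 * p - 1) * f =
      (((2 * t - 1).choose t : ℕ) : ℝ) • ((p - p * p) ^ t * ((2 * p - 1) * f)) := by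
    rw [Algebra.smul_def, map_natCast]
    ring
  rw [h6, W.N_smul, abs_of_nonneg (Nat.cast_nonneg _)]
  have h7 : (((2 * t - 1).choose t : ℕ) : ℝ) ≤ 4 ^ t := by
    exact_mod_cast ShRho_choose_le ht
  have hN := W.N_nonneg f
  calc (((2 * t - 1).choose t : ℕ) : ℝ) * W.N ((p - p * p) ^ t * ((2 * p - 1) * f))
      ≤ 4 ^ t * (η ^ t * ((1 + 4 * η) * W.N f)) := by
        refine mul_le_mul h7 (h3.trans ?_) (W.N_nonneg _) (by positivity)
        exact mul_le_mul_of_nonneg_left h4 (by positivity)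
    _ = (1 + 4 * η) * (4 * η) ^ t * W.N f := by
        rw [mul_pow]
        ring

theorem World.rh_gr {η : ℝ} (hη0 : 0 ≤ η) (hη : η ≤ 1 / 1000) (hD : L + 2 * c ≤ W.D) {p : R}
    (hp : W.IsBit c η L p) : W.Gr c L T 1 2 (rh p) := by
  refine ⟨fun t => (1 + 4 * η) * (4 * η) ^ t, fun t => by positivity, ?_, ?_⟩
  · intro t _
    by_cases ht0 : t = 0
    · subst ht0
      have h0 : PowerSeries.coeff 0 (rh p) = p := by
        rw [rh, PowerSeries.coeff_mk, if_pos rfl]
      rw [h0]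
      refine ⟨?_, ?_⟩
      · refine W.F_mono _ _ (le_of_eq ?_) hp.mem
        ring
      · intro l hl f hf
        have h4 := W.bit_contr hp hη0 (α := 0) (β := 1) (by norm_num) (by norm_num) hD
          (L' := l) (by
            refine le_trans (le_of_eq ?_) hl
            ring) hf
        rw [zero_smul, one_smul, zero_add] at h4
        simpa using h4
    · exact ⟨ShRho_coeff_mem W hp ht0, fun l hl f hf => ShRho_coeff_N W hη0 hD hp ht0 hl hf⟩
  · have h1 : ∀ t ∈ range (T + 1), (1 + 4 * η) * (4 * η) ^ t * 2 ^ t =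
        (1 + 4 * η) * (8 * η) ^ t := by
      intro t _
      rw [mul_assoc, ← mul_pow]
      congr 2
      ring
    rw [Finset.sum_congr rfl h1, ← Finset.mul_sum]
    have h2 := ShRho_geom (x := 8 * η) (by positivity) (by linarith) (T + 1)
    have h3 : 1 / (1 - 8 * η) ≤ 1.1 := by
      rw [div_le_iff₀ (by linarith)]
      linarith
    calc (1 + 4 * η) * ∑ t ∈ range (T + 1), (8 * η) ^ t ≤ 1.1 * 1.1 := by
          refine mul_le_mul (by linarith) (h2.trans h3) ?_ (by norm_num)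
          exact Finset.sum_nonneg fun t _ => by positivity
      _ ≤ 2 := by norm_num

theorem World.rh_tail {η : ℝ} (hη0 : 0 ≤ η) (hη : η ≤ 1 / 1000) (hD : L + 2 * c ≤ W.D) {p : R}
    (hp : W.IsBit c η L p) : W.Gr c L T 1 (10 * η) (rh p - PowerSeries.C p) := by
  refine ⟨fun t => if t = 0 then 0 else (1 + 4 * η) * (4 * η) ^ t, fun t => ?_, ?_, ?_⟩
  · show 0 ≤ (if t = 0 then (0 : ℝ) else (1 + 4 * η) * (4 * η) ^ t)
    split_ifs
    · exact le_refl 0
    · positivity
  · intro t _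
    by_cases ht0 : t = 0
    · subst ht0
      have h0 : PowerSeries.coeff 0 (rh p - PowerSeries.C p) = 0 := by
        rw [map_sub, rh, PowerSeries.coeff_mk, if_pos rfl, PowerSeries.coeff_C, if_pos rfl,
          sub_self]
      rw [h0]
      refine ⟨Submodule.zero_mem _, ?_⟩
      intro l hl f hf
      rw [zero_mul, W.N_zero]
      simp
    · have h0 : PowerSeries.coeff t (rh p - PowerSeries.C p) = PowerSeries.coeff t (rh p) := by
        rw [map_sub, PowerSeries.coeff_C, if_neg ht0, sub_zero]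
      rw [h0]
      simp only [if_neg ht0]
      exact ⟨ShRho_coeff_mem W hp ht0, fun l hl f hf => ShRho_coeff_N W hη0 hD hp ht0 hl hf⟩
  · rw [Finset.sum_range_succ']
    have h1 : ∀ t ∈ range T, (if t + 1 = 0 then (0 : ℝ) else
        (1 + 4 * η) * (4 * η) ^ (t + 1)) * 2 ^ (t + 1) =
        (1 + 4 * η) * (8 * η) * (8 * η) ^ t := by
      intro t _
      rw [if_neg (Nat.succ_ne_zero t), mul_assoc, ← mul_pow, pow_succ]
      ring
    rw [Finset.sum_congr rfl h1, ← Finset.mul_sum]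
    have h2 := ShRho_geom (x := 8 * η) (by positivity) (by linarith) T
    have h3 : 1 / (1 - 8 * η) ≤ 1.1 := by
      rw [div_le_iff₀ (by linarith)]
      linarith
    have h4 : 0 ≤ ∑ t ∈ range T, (8 * η) ^ t := Finset.sum_nonneg fun t _ => by positivity
    have h5 : (1 + 4 * η) * (8 * η) ≤ 8.1 * η := by nlinarith
    calc (1 + 4 * η) * (8 * η) * ∑ t ∈ range T, (8 * η) ^ t +
          (if 0 = 0 then (0 : ℝ) else (1 + 4 * η) * (4 * η) ^ 0) * 2 ^ 0
        = (1 + 4 * η) * (8 * η) * ∑ t ∈ range T, (8 * η) ^ t := by simp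
      _ ≤ (8.1 * η) * 1.1 := mul_le_mul h5 (h2.trans h3) h4 (by positivity)
      _ ≤ 10 * η := by linarith

theorem World.rhΔ_gr {η : ℝ} (hη0 : 0 ≤ η) (hη : η ≤ 1 / 1000) (hD : L + 2 * c ≤ W.D) {p : R}
    (hp : W.IsBit c η L p) : W.Gr c L T 2 (2 * η) (rhΔ p) := by
  have _ := hD
  refine ⟨fun t => η * (4 * η) ^ t, fun t => by positivity, ?_, ?_⟩
  · intro t _
    have h0 : PowerSeries.coeff t (rhΔ p) = (-(4 : ℝ) ^ t) • (p - p * p) ^ (t + 1) := by
      rw [rhΔ, PowerSeries.coeff_mk, neg_smul, Algebra.smul_def, map_pow, map_ofNat, mul_pow,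
        pow_succ]
      ring
    rw [h0]
    refine ⟨?_, ?_⟩
    · refine Submodule.smul_mem _ _ ?_
      have h1 := ShRho_upow_mem W hp (t + 1) (W.one_mem' 0)
      rw [mul_one] at h1
      refine W.F_mono _ _ (le_of_eq ?_) h1
      ring
    · intro l hl f hf
      have h1 := ShRho_upow W hη0 hp (t + 1) (l := l) (by
        refine le_trans (le_of_eq ?_) hl
        ring) hf
      rw [smul_mul_assoc, W.N_smul, abs_neg, abs_of_nonneg (by positivity)]
      calc (4 : ℝ) ^ t * W.N ((p - p * p) ^ (t + 1) * f) ≤ 4 ^ t * (η ^ (t + 1) * W.N f) :=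
            mul_le_mul_of_nonneg_left h1 (by positivity)
        _ = η * (4 * η) ^ t * W.N f := by
            rw [mul_pow, pow_succ]
            ring
  · have h1 : ∀ t ∈ range (T + 1), η * (4 * η) ^ t * 2 ^ t = η * (8 * η) ^ t := by
      intro t _
      rw [mul_assoc, ← mul_pow]
      congr 2
      ring
    rw [Finset.sum_congr rfl h1, ← Finset.mul_sum]
    have h2 := ShRho_geom (x := 8 * η) (by positivity) (by linarith) (T + 1)
    have h3 : 1 / (1 - 8 * η) ≤ 2 := by
      rw [div_le_iff₀ (by linarith)]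
      linarith
    rw [mul_comm 2 η]
    exact mul_le_mul_of_nonneg_left (h2.trans h3) hη0

end Pool.Agent.MP_9cec2c_lc.SL
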