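import Pool.Agent.Lib.MP_9cec2c_lc.SL.ShEqv
import Pool.Agent.Lib.MP_9cec2c_lc.SL.ShRho

/-!
TASK ShRound: two idempotents modulo `1 - z` which are close to each other are equal modulo `1 - z` up to
a very small error.

`round`: `d = e - f`, `e² = e + (1-z) Δe`, `f² = f + (1-z) Δf`. Then (ring identity)
`d³ - d = (1-z) G`, `G = (1 + e) Δe - (1 + f) Δf - 3 f Δe + 3 e Δf`, and
`d = d^(2J+1) - (1-z) G ∑_{j<J} d^(2j)` (from `d - d^(2J+1) = d (1 - d²) ∑_{j<J} d^(2j)`).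
Norms (`κ ≤ 4`, `δ ≤ 1/2`): `|G| ≤ 2 · 5 κ' + 2 · 12 κ' = 34 κ'`, type `2 + b`; `∑_{j<J} d^(2j)`: norm
`≤ ∑ (1/4)^j ≤ 4/3`, type `4 J` (each `d^(2j)` has type `4 j ≤ 4 J`); `d^(2J+1)`: norm `≤ (1/2)^(2J+1)`, type
`2 (2J+1)`. So `Eqv` with type `4J + 2 + b`, `κ = 50 κ'`, `ω = (1/2)^(2J+1)`. (Here `e`, `f`, `d` have
type 2.)

`rh_and`: `e = rh w`, `f = rh p · rh q` (type 2, norm 4). `e² - e = (1-z) rhΔ w`,
`f² - f = (1-z)(rhΔ p · (rh q)² + rh p · rhΔ q)` (ring, `rh_idem`): types `≤ 4`, norms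
`≤ 2η · 4 + 2 · 2η = 12 η`. `d = C (w - p q) + (rh w - C w) - (rh p - C p) rh q - C p (rh q - C q)`
(`C p` = constant series): norm `≤ η + 10 η + 10 η · 2 + 2 · 10 η = 51 η ≤ 1/2` (`C p`: type 1, norm 2;
`C (w - p q)`: type 2, norm `η` by `hw`: coefficient 0 has degree `2c` and `N ((w - pq) f) ≤ η N f`).
`b = 4`: type `4J + 6`, `κ = 50 · 12 η ≤ 1`.
`rh_or`: `f = rh p + rh q - rh p · rh q`, `1 - f = (1 - rh p)(1 - rh q)`; or apply `rh_and` to `1 - p`, `1 - q`,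
`1 - w`, because `rh (1 - p) = 1 - rh p` (`rh_compl`; `u` is unchanged, `2(1-p) - 1 = -(2p-1)`).
-/

set_option autoImplicit false

open Finset

namespace Pool.Agent.MP_9cec2c_lc.SL

variable {R : Type} [CommRing R] [Algebra ℝ R]

theorem rh_compl (p : R) : rh (1 - p) = 1 - rh p := by
  ext t
  rw [map_sub, rh, rh, PowerSeries.coeff_mk, PowerSeries.coeff_mk, PowerSeries.coeff_one]
  by_cases ht : t = 0
  · simp only [ht, if_true]
  · simp only [ht, if_false]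
    have e : (1 - p) - (1 - p) * (1 - p) = p - p * p := by ring
    rw [e]
    ring

private theorem ShRound_geo (d : PowerSeries R) (J : ℕ) :
    (d ^ 3 - d) * ∑ j ∈ range J, d ^ (2 * j) = d ^ (2 * J + 1) - d := by
  induction J with
  | zero => simp
  | succ J ih =>
    rw [Finset.sum_range_succ, mul_add, ih]
    ring

private theorem ShRound_sum (J : ℕ) :
    ∑ j ∈ range J, ((1 : ℝ) / 2) ^ (2 * j) ≤ 4 / 3 := by
  have h : ∑ j ∈ range J, ((1 : ℝ) / 2) ^ (2 * j) = 4 / 3 * (1 - (1 / 2) ^ (2 * J)) := by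
    induction J with
    | zero => simp
    | succ J ih =>
      rw [Finset.sum_range_succ, ih, Nat.mul_succ, pow_add]
      ring
  rw [h]
  have : (0 : ℝ) ≤ (1 / 2) ^ (2 * J) := by positivity
  linarith

variable (W : World R) {c L T : ℕ}

theorem World.round (hL : L ≤ W.D) {b : ℕ} {κ' : ℝ} {e f Δe Δf : PowerSeries R}
    (he : W.Gr c L T 2 4 e) (hf : W.Gr c L T 2 4 f) (hd : W.Gr c L T 2 (1 / 2) (e - f))
    (hΔe : W.Gr c L T b κ' Δe) (hΔf : W.Gr c L T b κ' Δf)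
    (ee : e * e - e = (1 - PowerSeries.X) * Δe) (ff : f * f - f = (1 - PowerSeries.X) * Δf) (J : ℕ) :
    W.Eqv c L T (4 * J + 2 + b) (50 * κ') ((1 / 2) ^ (2 * J + 1)) e f := by
  have hκ : 0 ≤ κ' := W.gr_nonneg hΔe
  have h1 : W.Gr c L T 2 1 (1 : PowerSeries R) := W.gr_mono W.gr_one (by omega) le_rfl
  have h1e : W.Gr c L T 2 (1 + 4) (1 + e) := W.gr_add hL h1 he
  have h1f : W.Gr c L T 2 (1 + 4) (1 + f) := W.gr_add hL h1 hf
  have h3 : W.Gr c L T 0 3 (3 : PowerSeries R) := by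
    have h := W.gr_C (c := c) (L := L) (T := T) 3
    have e3 : PowerSeries.C (algebraMap ℝ R 3) = (3 : PowerSeries R) := by
      rw [map_ofNat, map_ofNat]
    rw [e3, abs_of_nonneg (by norm_num)] at h
    exact h
  have A1 : W.Gr c L T (2 + b) ((1 + 4) * κ') ((1 + e) * Δe) := W.gr_mul hL h1e hΔe
  have A2 : W.Gr c L T (2 + b) ((1 + 4) * κ') ((1 + f) * Δf) := W.gr_mul hL h1f hΔf
  have A3 : W.Gr c L T (2 + b) (3 * (4 * κ')) (3 * (f * Δe)) :=
    W.gr_mono (W.gr_mul hL h3 (W.gr_mul hL hf hΔe)) (by omega) le_rfl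
  have A4 : W.Gr c L T (2 + b) (3 * (4 * κ')) (3 * (e * Δf)) :=
    W.gr_mono (W.gr_mul hL h3 (W.gr_mul hL he hΔf)) (by omega) le_rfl
  have hG := W.gr_add hL (W.gr_sub hL (W.gr_sub hL A1 A2) A3) A4
  have hS : W.Gr c L T (4 * J) (∑ j ∈ range J, (1 / 2 : ℝ) ^ (2 * j))
      (∑ j ∈ range J, (e - f) ^ (2 * j)) := by
    refine W.gr_sum hL (range J) (fun j => (1 / 2 : ℝ) ^ (2 * j)) (fun j => (e - f) ^ (2 * j)) ?_
    intro j hj
    rw [Finset.mem_range] at hj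
    exact W.gr_mono (W.gr_pow hL hd (2 * j)) (by omega) le_rfl
  have hGS := W.gr_neg (W.gr_mul hL hG hS)
  have hO : W.Gr c L T (4 * J + 2 + b) ((1 / 2) ^ (2 * J + 1)) ((e - f) ^ (2 * J + 1)) :=
    W.gr_mono (W.gr_pow hL hd (2 * J + 1)) (by omega) le_rfl
  refine ⟨_, _, ?_, W.gr_mono hGS (by omega) ?_, hO⟩
  · have hgeo := ShRound_geo (e - f) J
    have hd3 : (e - f) ^ 3 - (e - f) = (1 - PowerSeries.X) *
        ((1 + e) * Δe - (1 + f) * Δf - 3 * (f * Δe) + 3 * (e * Δf)) := by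
      linear_combination (1 + e - 3 * f) * ee - (1 + f - 3 * e) * ff
    linear_combination hgeo - (∑ j ∈ range J, (e - f) ^ (2 * j)) * hd3
  · have hs := ShRound_sum J
    have h34 : (1 + 4) * κ' + (1 + 4) * κ' + 3 * (4 * κ') + 3 * (4 * κ') = 34 * κ' := by ring
    rw [h34]
    calc 34 * κ' * ∑ j ∈ range J, (1 / 2 : ℝ) ^ (2 * j) ≤ 34 * κ' * (4 / 3) :=
          mul_le_mul_of_nonneg_left hs (by positivity)
      _ ≤ 50 * κ' := by nlinarith

private theorem ShRound_C {a : ℕ} {κ : ℝ} {x : R} (hκ : 0 ≤ κ) (hx : x ∈ W.F (c * a))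
    (h : ∀ l, l + c * a ≤ L → ∀ f ∈ W.F l, W.N (x * f) ≤ κ * W.N f) :
    W.Gr c L T a κ (PowerSeries.C x) := by
  refine ⟨fun t => if t = 0 then κ else 0, ?_, ?_, ?_⟩
  · intro t
    by_cases ht : t = 0
    · simp only [ht, if_true]; exact hκ
    · simp only [ht, if_false]; exact le_rfl
  · intro t _
    rw [PowerSeries.coeff_C]
    by_cases ht : t = 0
    · subst ht
      simp only [if_true, mul_zero, zero_add]
      exact ⟨hx, h⟩
    · simp only [ht, if_false]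
      refine ⟨Submodule.zero_mem _, fun l _ f _ => ?_⟩
      rw [zero_mul, W.N_zero, zero_mul]
  · refine le_of_eq ?_
    rw [Finset.sum_eq_single 0]
    · simp
    · intro t _ ht
      simp only [ht, if_false, zero_mul]
    · intro h0
      exact absurd (Finset.mem_range.2 (Nat.succ_pos T)) h0

private theorem ShRound_Cp {η : ℝ} (hη0 : 0 ≤ η) (hη : η ≤ 1 / 1000) (hD : L + 2 * c ≤ W.D) {p : R}
    (hp : W.IsBit c η L p) : W.Gr c L T 1 2 (PowerSeries.C p) := by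
  refine ShRound_C W (by norm_num) (by rw [mul_one]; exact hp.mem) fun l hl f hf => ?_
  rw [mul_one] at hl
  have h1 := W.bit_contr (α := 0) (β := 1) hp hη0 (by norm_num) (by norm_num) hD hl hf
  rw [zero_smul, one_smul, zero_add] at h1
  have h2 := W.N_nonneg f
  nlinarith

theorem World.rh_and {η : ℝ} (hη0 : 0 ≤ η) (hη : η ≤ 1 / 1000) (hD : L + 2 * c ≤ W.D) {p q w : R}
    (hp : W.IsBit c η L p) (hq : W.IsBit c η L q) (hw : W.IsBit c η L w)
    (h : ∀ f ∈ W.F L, W.N ((w - p * q) * f) ≤ η * W.N f) (J : ℕ) :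
    W.Eqv c L T (4 * J + 6) 1 ((1 / 2) ^ (2 * J + 1)) (rh w) (rh p * rh q) := by
  have hL : L ≤ W.D := by omega
  have gp := W.rh_gr (T := T) hη0 hη hD hp
  have gq := W.rh_gr (T := T) hη0 hη hD hq
  have gw := W.rh_gr (T := T) hη0 hη hD hw
  have tp := W.rh_tail (T := T) hη0 hη hD hp
  have tq := W.rh_tail (T := T) hη0 hη hD hq
  have tw := W.rh_tail (T := T) hη0 hη hD hw
  have dp := W.rhΔ_gr (T := T) hη0 hη hD hp
  have dq := W.rhΔ_gr (T := T) hη0 hη hD hq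
  have dw := W.rhΔ_gr (T := T) hη0 hη hD hw
  have cp := ShRound_Cp W (T := T) hη0 hη hD hp
  have he : W.Gr c L T 2 4 (rh w) := W.gr_mono gw (by omega) (by norm_num)
  have hf : W.Gr c L T 2 4 (rh p * rh q) :=
    W.gr_mono (W.gr_mul hL gp gq) (by omega) (by norm_num)
  have hc0 : W.Gr c L T 2 η (PowerSeries.C (w - p * q)) := by
    refine ShRound_C W hη0 ?_ fun l hl f hf => h f (W.F_mono _ _ (by omega) hf)
    refine Submodule.sub_mem _ (W.F_mono _ _ (by omega) hw.mem) ?_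
    have h2 := W.mul_mem c c p q hp.mem hq.mem
    rwa [← mul_two] at h2
  have hd : W.Gr c L T 2 (1 / 2) (rh w - rh p * rh q) := by
    have a1 : W.Gr c L T 2 (10 * η) (rh w - PowerSeries.C w) := W.gr_mono tw (by omega) le_rfl
    have a2 : W.Gr c L T 2 (10 * η * 2) ((rh p - PowerSeries.C p) * rh q) :=
      W.gr_mul hL tp gq
    have a3 : W.Gr c L T 2 (2 * (10 * η)) (PowerSeries.C p * (rh q - PowerSeries.C q)) :=
      W.gr_mul hL cp tq
    have a4 := W.gr_sub hL (W.gr_sub hL (W.gr_add hL hc0 a1) a2) a3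
    have e : PowerSeries.C (w - p * q) + (rh w - PowerSeries.C w) -
        (rh p - PowerSeries.C p) * rh q - PowerSeries.C p * (rh q - PowerSeries.C q) =
        rh w - rh p * rh q := by
      rw [map_sub, map_mul]
      ring
    rw [e] at a4
    exact W.gr_mono a4 le_rfl (by linarith)
  have hΔe : W.Gr c L T 4 (12 * η) (rhΔ w) := W.gr_mono dw (by omega) (by linarith)
  have hΔf : W.Gr c L T 4 (12 * η) (rhΔ p * (rh q * rh q) + rh p * rhΔ q) := by
    have b1 : W.Gr c L T 4 (2 * η * (2 * 2)) (rhΔ p * (rh q * rh q)) :=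
      W.gr_mul hL dp (W.gr_mul hL gq gq)
    have b2 : W.Gr c L T 4 (2 * (2 * η)) (rh p * rhΔ q) :=
      W.gr_mono (W.gr_mul hL gp dq) (by omega) le_rfl
    exact W.gr_mono (W.gr_add hL b1 b2) le_rfl (by linarith)
  have ee := rh_idem w
  have ff : (rh p * rh q) * (rh p * rh q) - rh p * rh q =
      (1 - PowerSeries.X) * (rhΔ p * (rh q * rh q) + rh p * rhΔ q) := by
    have ip := rh_idem p
    have iq := rh_idem q
    linear_combination (rh q * rh q) * ip + rh p * iq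
  have hr := W.round hL he hf hd hΔe hΔf ee ff J
  exact W.eqv_mono hr (by omega) (by linarith) le_rfl

theorem World.rh_or {η : ℝ} (hη0 : 0 ≤ η) (hη : η ≤ 1 / 1000) (hD : L + 2 * c ≤ W.D) {p q w : R}
    (hp : W.IsBit c η L p) (hq : W.IsBit c η L q) (hw : W.IsBit c η L w)
    (h : ∀ f ∈ W.F L, W.N ((w - (p + q - p * q)) * f) ≤ η * W.N f) (J : ℕ) :
    W.Eqv c L T (4 * J + 6) 1 ((1 / 2) ^ (2 * J + 1)) (rh w) (rh p + rh q - rh p * rh q) := by
  have hbit : ∀ x : R, W.IsBit c η L x → W.IsBit c η L (1 - x) := by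
    intro x hx
    refine ⟨Submodule.sub_mem _ (W.one_mem' c) hx.mem, fun f hf => ?_⟩
    have e : (1 - x) * (1 - x) - (1 - x) = x * x - x := by ring
    rw [e]
    exact hx.bit f hf
  have h' : ∀ f ∈ W.F L, W.N (((1 - w) - (1 - p) * (1 - q)) * f) ≤ η * W.N f := by
    intro f hf
    have e : ((1 - w) - (1 - p) * (1 - q)) * f = -((w - (p + q - p * q)) * f) := by ring
    rw [e, W.N_neg]
    exact h f hf
  obtain ⟨Δ, Ω, he, hΔ, hΩ⟩ := W.rh_and (T := T) hη0 hη hD (hbit p hp) (hbit q hq) (hbit w hw) h' J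
  rw [rh_compl, rh_compl, rh_compl] at he
  exact ⟨-Δ, -Ω, by linear_combination -he, W.gr_neg hΔ, W.gr_neg hΩ⟩

end Pool.Agent.MP_9cec2c_lc.SL
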