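import Pool.Agent.Lib.MP_9cec2c_lc.SL.ShSk
import Pool.Agent.Lib.MP_9cec2c_lc.SL.ShRound
import Pool.Agent.Lib.MP_9cec2c_lc.SL.RepGood

/-!
TASK ShGate: the gates for `X_A = (rep τ A).sk.val (rh ∘ v)` (power series), modulo `1 - z`. This is the
argument of GateAnd/GateOr in the ring of power series; copy the case analysis from there.
Claim: `X_{A∧B} ~ X_A X_B`, `X_{A∨B} ~ X_A + X_B - X_A X_B`, type `16 l + 4 J + 20`, `κ = 1000 · 36^(8l)`,
`ω = 1000 · 36^(8l) (1/2)^(2J+1)`.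
* cl, cl small: `X = rh (v (A∧B))`, `rh_and` (`hv.and`).
* big cases: exact, because `rh (v ff) = rh 0 = 0`, `rh (v tt) = rh 1 = 1` (`rh_exact`).
* op K0 K1 G, cl B small: `k_i = rh (v K_i)`, `b = rh (v B)`, `g = G.val (rh ∘ v)`,
  `rh (v (K_i ∧ B)) = k_i b + δ_i` with `δ_i = (1-z) Δ_i + Ω_i` (`rh_and`; type `4J + 6`, norms `1` and
  `(1/2)^(2J+1)`), `b² - b = (1-z) rhΔ`. Ring identity
  `X_{A∧B} - X_A b = k0 k1 g (b - b²) + δ0 + g δ1 - g k0 b δ1 - g k1 b δ0 - g δ0 δ1`; in the last term write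
  `δ0 δ1 = ((1-z) Δ0 + Ω0) δ1` with `|δ1| ≤ |rh| + |k1 b| ≤ 6` (type 2). Norms: `|k_i|, |b| ≤ 2` (type 1),
  `|g| ≤ 6^(8l)/3` (`sk_gr`, `G.r ≤ 8l`), all terms together `≤ 100 · 6^(8l)`; types
  `≤ 8l + 4J + 6 + 4`.
  For OR: `κ_i = k_i + b - k_i b`, `X_{A∨B} - (X_A + b - X_A b) = (b - b²) g (1-k0)(1-k1) + δ0 + g δ1
  - g κ0 δ1 - g κ1 δ0 - g δ0 δ1`.
* cl A, op small: symmetric. (`G.r ≤ 8 l`: `rep_sk_r` for `A.size ≤ l τ`.)
-/

set_option autoImplicit false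

open Finset

namespace Pool.Agent.MP_9cec2c_lc.SL.World

variable {R : Type} [CommRing R] [Algebra ℝ R] (W : World R) {Λ : Type}

/-- the error terms of `ShGate_core_and` -/
private theorem ShGate_core_and {c L T r J : ℕ} {P w : ℝ} (hL : L ≤ W.D) (hP : 1 ≤ P) (hw : 0 ≤ w)
    {k0 k1 b g y0 y1 Δb : PowerSeries R}
    (mk0 : W.Gr c L T 1 2 k0) (mk1 : W.Gr c L T 1 2 k1) (mb : W.Gr c L T 1 2 b)
    (mg : W.Gr c L T r P g) (my1 : W.Gr c L T 1 2 y1)
    (mΔ : W.Gr c L T 2 1 Δb) (hb : b * b - b = (1 - PowerSeries.X) * Δb)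
    (e0 : W.Eqv c L T (4 * J + 6) 1 w y0 (k0 * b)) (e1 : W.Eqv c L T (4 * J + 6) 1 w y1 (k1 * b)) :
    W.Eqv c L T (r + 4 * J + 8) (40 * P) (40 * P * w)
      (y0 + g * y1 - y0 * (g * y1)) ((k0 + g * k1 - k0 * (g * k1)) * b) := by
  obtain ⟨D0, O0, h0, mD0, mO0⟩ := e0
  obtain ⟨D1, O1, h1, mD1, mO1⟩ := e1
  have mδ : W.Gr c L T 2 (2 + 2 * 2) (y1 - k1 * b) :=
    W.gr_sub hL (W.gr_mono my1 (by omega) le_rfl) (W.gr_mul hL mk1 mb)
  refine ⟨-(k0 * k1 * g * Δb) + D0 + g * D1 - g * k0 * b * D1 - g * k1 * b * D0 -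
      g * D0 * (y1 - k1 * b),
    O0 + g * O1 - g * k0 * b * O1 - g * k1 * b * O0 - g * O0 * (y1 - k1 * b), ?_, ?_, ?_⟩
  · linear_combination (-(k0 * k1 * g)) * hb + h0 + g * h1 - g * k0 * b * h1 - g * k1 * b * h0 -
      g * (y1 - k1 * b) * h0
  · have t1 := W.gr_mono (W.gr_neg (W.gr_mul hL (W.gr_mul hL (W.gr_mul hL mk0 mk1) mg) mΔ))
      (show 1 + 1 + r + 2 ≤ r + 4 * J + 8 by omega) le_rfl
    have t2 := W.gr_mono mD0 (show 4 * J + 6 ≤ r + 4 * J + 8 by omega) le_rfl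
    have t3 := W.gr_mono (W.gr_mul hL mg mD1) (show r + (4 * J + 6) ≤ r + 4 * J + 8 by omega) le_rfl
    have t4 := W.gr_mono (W.gr_mul hL (W.gr_mul hL (W.gr_mul hL mg mk0) mb) mD1)
      (show r + 1 + 1 + (4 * J + 6) ≤ r + 4 * J + 8 by omega) le_rfl
    have t5 := W.gr_mono (W.gr_mul hL (W.gr_mul hL (W.gr_mul hL mg mk1) mb) mD0)
      (show r + 1 + 1 + (4 * J + 6) ≤ r + 4 * J + 8 by omega) le_rfl
    have t6 := W.gr_mono (W.gr_mul hL (W.gr_mul hL mg mD0) mδ)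
      (show r + (4 * J + 6) + 2 ≤ r + 4 * J + 8 by omega) le_rfl
    refine W.gr_mono (W.gr_sub hL (W.gr_sub hL (W.gr_sub hL (W.gr_add hL (W.gr_add hL t1 t2) t3) t4) t5)
      t6) le_rfl ?_
    linarith
  · have t2 := W.gr_mono mO0 (show 4 * J + 6 ≤ r + 4 * J + 8 by omega) le_rfl
    have t3 := W.gr_mono (W.gr_mul hL mg mO1) (show r + (4 * J + 6) ≤ r + 4 * J + 8 by omega) le_rfl
    have t4 := W.gr_mono (W.gr_mul hL (W.gr_mul hL (W.gr_mul hL mg mk0) mb) mO1)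
      (show r + 1 + 1 + (4 * J + 6) ≤ r + 4 * J + 8 by omega) le_rfl
    have t5 := W.gr_mono (W.gr_mul hL (W.gr_mul hL (W.gr_mul hL mg mk1) mb) mO0)
      (show r + 1 + 1 + (4 * J + 6) ≤ r + 4 * J + 8 by omega) le_rfl
    have t6 := W.gr_mono (W.gr_mul hL (W.gr_mul hL mg mO0) mδ)
      (show r + (4 * J + 6) + 2 ≤ r + 4 * J + 8 by omega) le_rfl
    refine W.gr_mono (W.gr_sub hL (W.gr_sub hL (W.gr_sub hL (W.gr_add hL t2 t3) t4) t5) t6) le_rfl ?_
    have h : 0 ≤ (P - 1) * w := mul_nonneg (by linarith) hw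
    nlinarith

/-- the same for a disjunction -/
private theorem ShGate_core_or {c L T r J : ℕ} {P w : ℝ} (hL : L ≤ W.D) (hP : 1 ≤ P) (hw : 0 ≤ w)
    {k0 k1 b g y0 y1 Δb : PowerSeries R}
    (mk0 : W.Gr c L T 1 2 k0) (mk1 : W.Gr c L T 1 2 k1) (mb : W.Gr c L T 1 2 b)
    (mg : W.Gr c L T r P g) (my1 : W.Gr c L T 1 2 y1)
    (mΔ : W.Gr c L T 2 1 Δb) (hb : b * b - b = (1 - PowerSeries.X) * Δb)
    (e0 : W.Eqv c L T (4 * J + 6) 1 w y0 (k0 + b - k0 * b))
    (e1 : W.Eqv c L T (4 * J + 6) 1 w y1 (k1 + b - k1 * b)) :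
    W.Eqv c L T (r + 4 * J + 8) (40 * P) (40 * P * w)
      (y0 + g * y1 - y0 * (g * y1))
      ((k0 + g * k1 - k0 * (g * k1)) + b - (k0 + g * k1 - k0 * (g * k1)) * b) := by
  obtain ⟨D0, O0, h0, mD0, mO0⟩ := e0
  obtain ⟨D1, O1, h1, mD1, mO1⟩ := e1
  have mκ0 : W.Gr c L T 2 (2 + 2 + 2 * 2) (k0 + b - k0 * b) :=
    W.gr_sub hL (W.gr_mono (W.gr_add hL mk0 mb) (by omega) le_rfl) (W.gr_mul hL mk0 mb)
  have mκ1 : W.Gr c L T 2 (2 + 2 + 2 * 2) (k1 + b - k1 * b) :=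
    W.gr_sub hL (W.gr_mono (W.gr_add hL mk1 mb) (by omega) le_rfl) (W.gr_mul hL mk1 mb)
  have mδ : W.Gr c L T 2 (2 + (2 + 2 + 2 * 2)) (y1 - (k1 + b - k1 * b)) :=
    W.gr_sub hL (W.gr_mono my1 (by omega) le_rfl) mκ1
  have mc0 : W.Gr c L T 1 (1 + 2) (1 - k0) :=
    W.gr_sub hL (W.gr_mono W.gr_one (by omega) le_rfl) mk0
  have mc1 : W.Gr c L T 1 (1 + 2) (1 - k1) :=
    W.gr_sub hL (W.gr_mono W.gr_one (by omega) le_rfl) mk1
  refine ⟨-((1 - k0) * (1 - k1) * g * Δb) + D0 + g * D1 - g * (k0 + b - k0 * b) * D1 -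
      g * (k1 + b - k1 * b) * D0 - g * D0 * (y1 - (k1 + b - k1 * b)),
    O0 + g * O1 - g * (k0 + b - k0 * b) * O1 - g * (k1 + b - k1 * b) * O0 -
      g * O0 * (y1 - (k1 + b - k1 * b)), ?_, ?_, ?_⟩
  · linear_combination (-((1 - k0) * (1 - k1) * g)) * hb + h0 + g * h1 -
      g * (k0 + b - k0 * b) * h1 - g * (k1 + b - k1 * b) * h0 - g * (y1 - (k1 + b - k1 * b)) * h0
  · have t1 := W.gr_mono (W.gr_neg (W.gr_mul hL (W.gr_mul hL (W.gr_mul hL mc0 mc1) mg) mΔ))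
      (show 1 + 1 + r + 2 ≤ r + 4 * J + 8 by omega) le_rfl
    have t2 := W.gr_mono mD0 (show 4 * J + 6 ≤ r + 4 * J + 8 by omega) le_rfl
    have t3 := W.gr_mono (W.gr_mul hL mg mD1) (show r + (4 * J + 6) ≤ r + 4 * J + 8 by omega) le_rfl
    have t4 := W.gr_mono (W.gr_mul hL (W.gr_mul hL mg mκ0) mD1)
      (show r + 2 + (4 * J + 6) ≤ r + 4 * J + 8 by omega) le_rfl
    have t5 := W.gr_mono (W.gr_mul hL (W.gr_mul hL mg mκ1) mD0)
      (show r + 2 + (4 * J + 6) ≤ r + 4 * J + 8 by omega) le_rfl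
    have t6 := W.gr_mono (W.gr_mul hL (W.gr_mul hL mg mD0) mδ)
      (show r + (4 * J + 6) + 2 ≤ r + 4 * J + 8 by omega) le_rfl
    refine W.gr_mono (W.gr_sub hL (W.gr_sub hL (W.gr_sub hL (W.gr_add hL (W.gr_add hL t1 t2) t3) t4) t5)
      t6) le_rfl ?_
    linarith
  · have t2 := W.gr_mono mO0 (show 4 * J + 6 ≤ r + 4 * J + 8 by omega) le_rfl
    have t3 := W.gr_mono (W.gr_mul hL mg mO1) (show r + (4 * J + 6) ≤ r + 4 * J + 8 by omega) le_rfl
    have t4 := W.gr_mono (W.gr_mul hL (W.gr_mul hL mg mκ0) mO1)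
      (show r + 2 + (4 * J + 6) ≤ r + 4 * J + 8 by omega) le_rfl
    have t5 := W.gr_mono (W.gr_mul hL (W.gr_mul hL mg mκ1) mO0)
      (show r + 2 + (4 * J + 6) ≤ r + 4 * J + 8 by omega) le_rfl
    have t6 := W.gr_mono (W.gr_mul hL (W.gr_mul hL mg mO0) mδ)
      (show r + (4 * J + 6) + 2 ≤ r + 4 * J + 8 by omega) le_rfl
    refine W.gr_mono (W.gr_sub hL (W.gr_sub hL (W.gr_sub hL (W.gr_add hL t2 t3) t4) t5) t6) le_rfl ?_
    have h : 0 ≤ (P - 1) * w := mul_nonneg (by linarith) hw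
    nlinarith

/-- numbers -/
private theorem ShGate_num (l : ℕ) :
    (1 : ℝ) ≤ 6 ^ (8 * l) ∧ (6 : ℝ) ^ (8 * l) ≤ 36 ^ (8 * l) :=
  ⟨one_le_pow₀ (by norm_num), pow_le_pow_left₀ (by norm_num) (by norm_num) _⟩

private theorem ShGate_rh_ff {v : Fm Λ → R} (h : v Fm.ff = 0) : rh (v Fm.ff) = 0 := by
  rw [rh_exact (by rw [h, mul_zero]), h, map_zero]

private theorem ShGate_rh_tt {v : Fm Λ → R} (h : v Fm.tt = 1) : rh (v Fm.tt) = 1 := by
  rw [rh_exact (by rw [h, mul_one]), h, map_one]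

theorem sh_and {v : Fm Λ → R} {τ c L T l : ℕ} {η : ℝ} (hv : W.IsVal v τ c η L) (hτ : 1 ≤ τ)
    (hl : 1 ≤ l) (hη0 : 0 ≤ η) (hη : η ≤ 1 / 1000) (hD : L + 2 * c ≤ W.D) (A B : Fm Λ)
    (hAB : A.size + B.size ≤ l * τ) (J : ℕ) :
    W.Eqv c L T (16 * l + 4 * J + 20) (1000 * 36 ^ (8 * l)) (1000 * 36 ^ (8 * l) * (1 / 2) ^ (2 * J + 1))
      ((rep τ (A.and B)).sk.val (fun D => rh (v D)))
      ((rep τ A).sk.val (fun D => rh (v D)) * (rep τ B).sk.val (fun D => rh (v D))) := by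
  have hA' : A.size ≤ l * τ := by omega
  have hB' : B.size ≤ l * τ := by omega
  have hLD : L ≤ W.D := by omega
  obtain ⟨n1, n2⟩ := ShGate_num l
  have hw : (0 : ℝ) ≤ (1 / 2) ^ (2 * J + 1) := by positivity
  have hP : (1 : ℝ) ≤ 6 ^ (8 * l) := n1
  -- the rounded values
  have hbit : ∀ K : Fm Λ, K.size ≤ τ → W.Gr c L T 1 2 (rh (v K)) := fun K hK =>
    W.rh_gr hη0 hη hD (hv.bit K hK)
  have hbΔ : ∀ K : Fm Λ, K.size ≤ τ → W.Gr c L T 2 1 (rhΔ (v K)) := fun K hK =>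
    W.gr_mono (W.rhΔ_gr hη0 hη hD (hv.bit K hK)) le_rfl (by linarith)
  have hg : ∀ g : Sk (Fm Λ), (∀ i, (g.lab i).size ≤ τ) → g.r ≤ 8 * l →
      W.Gr c L T (8 * l) (6 ^ (8 * l)) (g.val (fun D => rh (v D))) := by
    intro g h1 h2
    refine W.gr_mono (W.sk_gr hv hη0 hη hD g h1) h2 ?_
    have h3 : (6 : ℝ) ^ g.r ≤ 6 ^ (8 * l) := pow_le_pow_right₀ (by norm_num) h2
    have h4 : (0 : ℝ) ≤ 6 ^ g.r := by positivity
    linarith
  have hand : ∀ K K' : Fm Λ, K.size + K'.size ≤ τ →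
      W.Eqv c L T (4 * J + 6) 1 ((1 / 2) ^ (2 * J + 1)) (rh (v (K.and K'))) (rh (v K) * rh (v K')) := by
    intro K K' h
    exact W.rh_and hη0 hη hD (hv.bit K (by omega)) (hv.bit K' (by omega)) (hv.bit (K.and K') h)
      (hv.and K K' h) J
  have hfin : ∀ {X Y : PowerSeries R},
      W.Eqv c L T (8 * l + 4 * J + 8) (40 * 6 ^ (8 * l)) (40 * 6 ^ (8 * l) * (1 / 2) ^ (2 * J + 1)) X Y →
      W.Eqv c L T (16 * l + 4 * J + 20) (1000 * 36 ^ (8 * l))
        (1000 * 36 ^ (8 * l) * (1 / 2) ^ (2 * J + 1)) X Y := by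
    intro X Y h
    refine W.eqv_mono h (by omega) (by linarith) ?_
    exact mul_le_mul_of_nonneg_right (by linarith) hw
  have hzero : ∀ {x y : PowerSeries R}, x = y → W.Eqv c L T (16 * l + 4 * J + 20) (1000 * 36 ^ (8 * l))
      (1000 * 36 ^ (8 * l) * (1 / 2) ^ (2 * J + 1)) x y := by
    intro x y hxy
    rw [hxy]
    exact W.eqv_refl _ (by positivity) (by positivity) _
  have hbig : ∀ s1 s2 : Sk (Fm Λ), (Rep.op Fm.ff Fm.tt (Sk.and s1 s2)).sk.val (fun D => rh (v D)) =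
      s1.val (fun D => rh (v D)) * s2.val (fun D => rh (v D)) := by
    intro s1 s2
    simp [Rep.sk, close, Sk.val, ShGate_rh_ff hv.v_ff, ShGate_rh_tt hv.v_tt]
  have gA := rep_good hτ A
  have gB := rep_good hτ B
  have rA := rep_sk_r hτ hl A hA'
  have rB := rep_sk_r hτ hl B hB'
  have e : rep τ (A.and B) = (rep τ A).combAnd τ (rep τ B) := rfl
  rw [e]
  revert gA gB rA rB
  generalize rep τ A = ra
  generalize rep τ B = rb
  intro gA gB rA rB
  cases ra with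
  | cl A' =>
    obtain ⟨hA1, hA2⟩ := gA
    cases rb with
    | cl B' =>
      obtain ⟨hB1, hB2⟩ := gB
      subst hA1 hB1
      simp only [Rep.combAnd]
      split_ifs with h
      · refine W.eqv_mono (hand A' B' h) (by omega) (by linarith) ?_
        have h1 : (1 : ℝ) * (1 / 2) ^ (2 * J + 1) ≤ 1000 * 36 ^ (8 * l) * (1 / 2) ^ (2 * J + 1) :=
          mul_le_mul_of_nonneg_right (by linarith) hw
        linarith
      · exact hzero (hbig _ _)
    | op K0 K1 G =>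
      obtain ⟨hK, hK0, hG, _⟩ := gB
      subst hA1
      have hGr : G.r ≤ 8 * l := by
        have h1 : 1 + (G.r + 1) ≤ 8 * l := rB
        omega
      simp only [Rep.combAnd]
      split_ifs with h
      · have hK1 : K1.size ≤ τ := by omega
        have e0 := hand A' K0 h
        have e1 := hand A' K1 (by omega)
        rw [mul_comm (rh (v A'))] at e0 e1
        have key := W.ShGate_core_and hLD hP hw (hbit K0 hK0) (hbit K1 hK1) (hbit A' hA2) (hg G hG hGr)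
          (hbit (A'.and K1) (by show A'.size + K1.size ≤ τ; omega)) (hbΔ A' hA2) (rh_idem (v A')) e0 e1
        have e2 : (Rep.cl A').sk.val (fun D => rh (v D)) * (Rep.op K0 K1 G).sk.val (fun D => rh (v D)) =
            (rh (v K0) + G.val (fun D => rh (v D)) * rh (v K1) -
              rh (v K0) * (G.val (fun D => rh (v D)) * rh (v K1))) * rh (v A') := by
          show rh (v A') * (rh (v K0) + G.val (fun D => rh (v D)) * rh (v K1) -
              rh (v K0) * (G.val (fun D => rh (v D)) * rh (v K1))) = _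
          ring
        rw [e2]
        exact hfin key
      · exact hzero (hbig _ _)
  | op K0 K1 G =>
    obtain ⟨hK, hK0, hG, _⟩ := gA
    have hGr : G.r ≤ 8 * l := by
      have h1 : 1 + (G.r + 1) ≤ 8 * l := rA
      omega
    cases rb with
    | cl B' =>
      obtain ⟨hB1, hB2⟩ := gB
      subst hB1
      simp only [Rep.combAnd]
      split_ifs with h
      · have hK1 : K1.size ≤ τ := by omega
        have key := W.ShGate_core_and hLD hP hw (hbit K0 hK0) (hbit K1 hK1) (hbit B' hB2) (hg G hG hGr)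
          (hbit (K1.and B') (by show K1.size + B'.size ≤ τ; omega)) (hbΔ B' hB2) (rh_idem (v B'))
          (hand K0 B' h) (hand K1 B' (by omega))
        exact hfin key
      · exact hzero (hbig _ _)
    | op K0' K1' G' =>
      simp only [Rep.combAnd]
      exact hzero (hbig _ _)

theorem sh_or {v : Fm Λ → R} {τ c L T l : ℕ} {η : ℝ} (hv : W.IsVal v τ c η L) (hτ : 1 ≤ τ)
    (hl : 1 ≤ l) (hη0 : 0 ≤ η) (hη : η ≤ 1 / 1000) (hD : L + 2 * c ≤ W.D) (A B : Fm Λ)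
    (hAB : A.size + B.size ≤ l * τ) (J : ℕ) :
    W.Eqv c L T (16 * l + 4 * J + 20) (1000 * 36 ^ (8 * l)) (1000 * 36 ^ (8 * l) * (1 / 2) ^ (2 * J + 1))
      ((rep τ (A.or B)).sk.val (fun D => rh (v D)))
      ((rep τ A).sk.val (fun D => rh (v D)) + (rep τ B).sk.val (fun D => rh (v D)) -
        (rep τ A).sk.val (fun D => rh (v D)) * (rep τ B).sk.val (fun D => rh (v D))) := by
  have hA' : A.size ≤ l * τ := by omega
  have hB' : B.size ≤ l * τ := by omega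
  have hLD : L ≤ W.D := by omega
  obtain ⟨n1, n2⟩ := ShGate_num l
  have hw : (0 : ℝ) ≤ (1 / 2) ^ (2 * J + 1) := by positivity
  have hP : (1 : ℝ) ≤ 6 ^ (8 * l) := n1
  -- the rounded values
  have hbit : ∀ K : Fm Λ, K.size ≤ τ → W.Gr c L T 1 2 (rh (v K)) := fun K hK =>
    W.rh_gr hη0 hη hD (hv.bit K hK)
  have hbΔ : ∀ K : Fm Λ, K.size ≤ τ → W.Gr c L T 2 1 (rhΔ (v K)) := fun K hK =>
    W.gr_mono (W.rhΔ_gr hη0 hη hD (hv.bit K hK)) le_rfl (by linarith)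
  have hg : ∀ g : Sk (Fm Λ), (∀ i, (g.lab i).size ≤ τ) → g.r ≤ 8 * l →
      W.Gr c L T (8 * l) (6 ^ (8 * l)) (g.val (fun D => rh (v D))) := by
    intro g h1 h2
    refine W.gr_mono (W.sk_gr hv hη0 hη hD g h1) h2 ?_
    have h3 : (6 : ℝ) ^ g.r ≤ 6 ^ (8 * l) := pow_le_pow_right₀ (by norm_num) h2
    have h4 : (0 : ℝ) ≤ 6 ^ g.r := by positivity
    linarith
  have hor : ∀ K K' : Fm Λ, K.size + K'.size ≤ τ →
      W.Eqv c L T (4 * J + 6) 1 ((1 / 2) ^ (2 * J + 1)) (rh (v (K.or K')))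
        (rh (v K) + rh (v K') - rh (v K) * rh (v K')) := by
    intro K K' h
    exact W.rh_or hη0 hη hD (hv.bit K (by omega)) (hv.bit K' (by omega)) (hv.bit (K.or K') h)
      (hv.or K K' h) J
  have hfin : ∀ {X Y : PowerSeries R},
      W.Eqv c L T (8 * l + 4 * J + 8) (40 * 6 ^ (8 * l)) (40 * 6 ^ (8 * l) * (1 / 2) ^ (2 * J + 1)) X Y →
      W.Eqv c L T (16 * l + 4 * J + 20) (1000 * 36 ^ (8 * l))
        (1000 * 36 ^ (8 * l) * (1 / 2) ^ (2 * J + 1)) X Y := by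
    intro X Y h
    refine W.eqv_mono h (by omega) (by linarith) ?_
    exact mul_le_mul_of_nonneg_right (by linarith) hw
  have hzero : ∀ {x y : PowerSeries R}, x = y → W.Eqv c L T (16 * l + 4 * J + 20) (1000 * 36 ^ (8 * l))
      (1000 * 36 ^ (8 * l) * (1 / 2) ^ (2 * J + 1)) x y := by
    intro x y hxy
    rw [hxy]
    exact W.eqv_refl _ (by positivity) (by positivity) _
  have hbig : ∀ s1 s2 : Sk (Fm Λ), (Rep.op Fm.ff Fm.tt (Sk.or s1 s2)).sk.val (fun D => rh (v D)) =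
      s1.val (fun D => rh (v D)) + s2.val (fun D => rh (v D)) -
        s1.val (fun D => rh (v D)) * s2.val (fun D => rh (v D)) := by
    intro s1 s2
    simp [Rep.sk, close, Sk.val, ShGate_rh_ff hv.v_ff, ShGate_rh_tt hv.v_tt]
  have gA := rep_good hτ A
  have gB := rep_good hτ B
  have rA := rep_sk_r hτ hl A hA'
  have rB := rep_sk_r hτ hl B hB'
  have e : rep τ (A.or B) = (rep τ A).combOr τ (rep τ B) := rfl
  rw [e]
  revert gA gB rA rB
  generalize rep τ A = ra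
  generalize rep τ B = rb
  intro gA gB rA rB
  cases ra with
  | cl A' =>
    obtain ⟨hA1, hA2⟩ := gA
    cases rb with
    | cl B' =>
      obtain ⟨hB1, hB2⟩ := gB
      subst hA1 hB1
      simp only [Rep.combOr]
      split_ifs with h
      · refine W.eqv_mono (hor A' B' h) (by omega) (by linarith) ?_
        have h1 : (1 : ℝ) * (1 / 2) ^ (2 * J + 1) ≤ 1000 * 36 ^ (8 * l) * (1 / 2) ^ (2 * J + 1) :=
          mul_le_mul_of_nonneg_right (by linarith) hw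
        linarith
      · exact hzero (hbig _ _)
    | op K0 K1 G =>
      obtain ⟨hK, hK0, hG, _⟩ := gB
      subst hA1
      have hGr : G.r ≤ 8 * l := by
        have h1 : 1 + (G.r + 1) ≤ 8 * l := rB
        omega
      simp only [Rep.combOr]
      split_ifs with h
      · have hK1 : K1.size ≤ τ := by omega
        have e0 := hor A' K0 h
        have e1 := hor A' K1 (by omega)
        rw [mul_comm (rh (v A')), add_comm (rh (v A'))] at e0 e1
        have key := W.ShGate_core_or hLD hP hw (hbit K0 hK0) (hbit K1 hK1) (hbit A' hA2) (hg G hG hGr)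
          (hbit (A'.or K1) (by show A'.size + K1.size ≤ τ; omega)) (hbΔ A' hA2) (rh_idem (v A')) e0 e1
        have e2 : (Rep.cl A').sk.val (fun D => rh (v D)) + (Rep.op K0 K1 G).sk.val (fun D => rh (v D)) -
            (Rep.cl A').sk.val (fun D => rh (v D)) * (Rep.op K0 K1 G).sk.val (fun D => rh (v D)) =
            (rh (v K0) + G.val (fun D => rh (v D)) * rh (v K1) -
              rh (v K0) * (G.val (fun D => rh (v D)) * rh (v K1))) + rh (v A') -
            (rh (v K0) + G.val (fun D => rh (v D)) * rh (v K1) -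
              rh (v K0) * (G.val (fun D => rh (v D)) * rh (v K1))) * rh (v A') := by
          show rh (v A') + (rh (v K0) + G.val (fun D => rh (v D)) * rh (v K1) -
              rh (v K0) * (G.val (fun D => rh (v D)) * rh (v K1))) -
            rh (v A') * (rh (v K0) + G.val (fun D => rh (v D)) * rh (v K1) -
              rh (v K0) * (G.val (fun D => rh (v D)) * rh (v K1))) = _
          ring
        rw [e2]
        exact hfin key
      · exact hzero (hbig _ _)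
  | op K0 K1 G =>
    obtain ⟨hK, hK0, hG, _⟩ := gA
    have hGr : G.r ≤ 8 * l := by
      have h1 : 1 + (G.r + 1) ≤ 8 * l := rA
      omega
    cases rb with
    | cl B' =>
      obtain ⟨hB1, hB2⟩ := gB
      subst hB1
      simp only [Rep.combOr]
      split_ifs with h
      · have hK1 : K1.size ≤ τ := by omega
        have key := W.ShGate_core_or hLD hP hw (hbit K0 hK0) (hbit K1 hK1) (hbit B' hB2) (hg G hG hGr)
          (hbit (K1.or B') (by show K1.size + B'.size ≤ τ; omega)) (hbΔ B' hB2) (rh_idem (v B'))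
          (hor K0 B' h) (hor K1 B' (by omega))
        exact hfin key
      · exact hzero (hbig _ _)
    | op K0' K1' G' =>
      simp only [Rep.combOr]
      exact hzero (hbig _ _)

end Pool.Agent.MP_9cec2c_lc.SL.World
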