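import Pool.Agent.Lib.MP_9cec2c_lc.SL.Main

/-!
The lower bound for the total size.
-/

set_option autoImplicit false

open Finset
open scoped Classical

namespace Pool.Agent.MP_9cec2c_lc.SL

/-- Powers of `2` with a positive real exponent exceed any bound. -/
theorem SizeLB_large {δ : ℝ} (hδ : 0 < δ) (B : ℝ) :
    ∃ m₀ : ℕ, ∀ m : ℕ, m₀ ≤ m → B ≤ ((2 : ℝ) ^ m) ^ δ := by
  have h1 : (1 : ℝ) < (2 : ℝ) ^ δ := Real.one_lt_rpow (by norm_num) hδ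
  obtain ⟨m₀, hm₀⟩ := pow_unbounded_of_one_lt B h1
  refine ⟨m₀, fun m hm => ?_⟩
  have h2 : ((2 : ℝ) ^ m) ^ δ = ((2 : ℝ) ^ δ) ^ m := by
    rw [← Real.rpow_natCast, ← Real.rpow_natCast, ← Real.rpow_mul (by norm_num),
      ← Real.rpow_mul (by norm_num), mul_comm]
  rw [h2]
  exact hm₀.le.trans (pow_le_pow_right₀ h1.le hm)

theorem size_lower_bound (ε : ℝ) (hε : 0 < ε) (S : Set Rule) (hS : S.Finite)
    (hs : ∀ r ∈ S, r.Sound) (b : ℕ) : ∃ m₀ : ℕ, ∀ m : ℕ, m₀ ≤ m → ∀ γ : Cube (Vm m),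
    ∀ (l : ℕ) (L : Fin l → Form (Em m)),
      (IsDerivation S (Hyp b ((Gm m).tseitin γ)) L ∧ (∃ i, L i = Form.ff) ∨
        IsDerivation S ∅ L ∧ ∃ i φ, IsConj (Hyp b ((Gm m).tseitin γ)) φ ∧ L i = Form.neg φ) →
      ((2 : ℝ) ^ m) ^ (2 - ε) ≤ ∑ i, ((L i).size : ℝ) := by
  obtain ⟨δ, hδ, h⟩ := lower_bound ε hε
  obtain ⟨m₁, hm₁⟩ := h S hS hs b
  obtain ⟨m₂, hm₂⟩ := SizeLB_large (half_pos hδ) (4 / δ)
  refine ⟨max m₁ m₂, fun m hm γ l L hL => ?_⟩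
  have hN1 : (1 : ℝ) ≤ (2 : ℝ) ^ m := one_le_pow₀ (by norm_num)
  have hN0 : (0 : ℝ) < (2 : ℝ) ^ m := by linarith
  by_cases hc : ∀ i, ((L i).size : ℝ) ≤ ((2 : ℝ) ^ m) ^ (2 - ε)
  · have h1 := hm₁ m (le_of_max_le_left hm) γ l L hc hL
    have h2 := hm₂ m (le_of_max_le_right hm)
    have h3 : (l : ℝ) ≤ ∑ i, ((L i).size : ℝ) := by
      calc (l : ℝ) = ∑ _i : Fin l, (1 : ℝ) := by simp
        _ ≤ _ := Finset.sum_le_sum fun i _ => by exact_mod_cast form_size_pos (L i)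
    refine le_trans ?_ (h1.trans h3)
    have h4 : Real.log ((2 : ℝ) ^ m) ≤ ((2 : ℝ) ^ m) ^ (δ / 2) / (δ / 2) :=
      Real.log_le_rpow_div hN0.le (half_pos hδ)
    have h5 : ((2 : ℝ) ^ m) ^ δ = ((2 : ℝ) ^ m) ^ (δ / 2) * ((2 : ℝ) ^ m) ^ (δ / 2) := by
      rw [← Real.rpow_add hN0]; ring_nf
    have h6 : 2 * Real.log ((2 : ℝ) ^ m) ≤ ((2 : ℝ) ^ m) ^ δ := by
      rw [h5]
      have h7 : 0 ≤ ((2 : ℝ) ^ m) ^ (δ / 2) := by positivity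
      calc 2 * Real.log ((2 : ℝ) ^ m) ≤ 2 * (((2 : ℝ) ^ m) ^ (δ / 2) / (δ / 2)) := by linarith
        _ = 4 / δ * ((2 : ℝ) ^ m) ^ (δ / 2) := by field_simp; ring
        _ ≤ _ := mul_le_mul_of_nonneg_right h2 h7
    calc ((2 : ℝ) ^ m) ^ (2 - ε) ≤ ((2 : ℝ) ^ m) ^ (2 : ℝ) :=
          Real.rpow_le_rpow_of_exponent_le hN1 (by linarith)
      _ = Real.exp (2 * Real.log ((2 : ℝ) ^ m)) := by
          rw [Real.rpow_def_of_pos hN0, mul_comm]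
      _ ≤ _ := Real.exp_le_exp.mpr h6
  · push Not at hc
    obtain ⟨i, hi⟩ := hc
    refine hi.le.trans ?_
    exact Finset.single_le_sum (f := fun i => ((L i).size : ℝ)) (fun j _ => Nat.cast_nonneg _)
      (Finset.mem_univ i)

end Pool.Agent.MP_9cec2c_lc.SL
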