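import Pool.Agent.Lib.MP_9cec2c_lc.SL.ShNum
import Pool.Agent.Lib.MP_9cec2c_lc.SL.SizeLB

/-!
TASK ShMain: the sharp lower bound.

`sharp_lower`: `C` from `sh_core`, `m₀` from `sh_num` (with `max b 1` instead of `b`; see Main for the
monotonicity of `Hyp` and `IsConj` in `b`). A derivation which is a refutation or a proof of a negation
has `l ≥ 1` lines. If `s (1 + log l) < (2^m)^(2-ε)`, then `sh_num` gives `ShPar` and `sh_core` a contradiction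
(`s ≥ 2^m ≥ 1`).

`sharp_size` (total size): apply `sharp_lower` with `ε/2`. Let `N = 2^m`, `s₀` the maximal size of a line,
`s = max s₀ N`, `Σ` the total size, `Σ ≥ s₀`, `Σ ≥ l` (`form_size_pos`). If `Σ < N^(2-ε)` then `s₀ < N^(2-ε)`, so
(let `ε ≤ 1`; for `ε > 1` use `ε = 1`, since `N^(2-ε) ≤ N^(2-1)`) `s ≤ N^(2-ε)`, and
`1 + log l ≥ N^(2-ε/2)/s ≥ N^(ε/2)`, so `l ≥ exp (N^(ε/2) - 1) ≥ N²` for large `m`, contradiction to
`l ≤ Σ < N^(2-ε)`. (`SizeLB_large` and the estimates in SizeLB may help.)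
-/

set_option autoImplicit false

open Finset
open scoped Classical

namespace Pool.Agent.MP_9cec2c_lc.SL

private theorem ShMain_hyp_mono {X : Type} {b b' : ℕ} (hb : b ≤ b') (F : List (List (X × Bool))) :
    Hyp b F ⊆ Hyp b' F := fun _ h => ⟨le_trans h.1 hb, h.2⟩

private theorem ShMain_isConj_mono {X : Type} {T T' : Set (Form X)} (h : T ⊆ T') {A : Form X}
    (hA : IsConj T A) : IsConj T' A := by
  induction hA with
  | base A hA => exact IsConj.base A (h hA)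
  | and A B _ _ ihA ihB => exact IsConj.and A B ihA ihB

private theorem ShMain_isDerivation_mono {X : Type} {S : Set Rule} {T T' : Set (Form X)} (h : T ⊆ T')
    {l : ℕ} {L : Fin l → Form X} (hL : IsDerivation S T L) : IsDerivation S T' L := by
  intro i
  rcases hL i with h1 | h1
  · exact Or.inl (h h1)
  · exact Or.inr h1

theorem sharp_lower (ε : ℝ) (hε : 0 < ε) (S : Set Rule) (hS : S.Finite) (hs : ∀ r ∈ S, r.Sound)
    (b : ℕ) : ∃ m₀ : ℕ, ∀ m : ℕ, m₀ ≤ m → ∀ γ : Cube (Vm m),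
    ∀ (s l : ℕ) (L : Fin l → Form (Em m)), 2 ^ m ≤ s → (∀ i, (L i).size ≤ s) →
      (IsDerivation S (Hyp b ((Gm m).tseitin γ)) L ∧ (∃ i, L i = Form.ff) ∨
        IsDerivation S ∅ L ∧ ∃ i φ, IsConj (Hyp b ((Gm m).tseitin γ)) φ ∧ L i = Form.neg φ) →
      ((2 : ℝ) ^ m) ^ (2 - ε) ≤ s * (1 + Real.log l) := by
  obtain ⟨C, hcore⟩ := sh_core S hS hs
  obtain ⟨m₀, hm₀⟩ := sh_num ε hε C (max b 1)
  refine ⟨m₀, fun m hm γ s l L hs2 hsz hcases => ?_⟩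
  by_contra hlt
  push Not at hlt
  have hl : 1 ≤ l := by
    rcases hcases with ⟨_, i, _⟩ | ⟨_, i, _⟩
    · exact Nat.one_le_of_lt i.2
    · exact Nat.one_le_of_lt i.2
  obtain ⟨par⟩ := hm₀ m hm s l hs2 hl hlt
  have hs1 : 1 ≤ s := le_trans Nat.one_le_two_pow hs2
  obtain ⟨h1, h2⟩ := hcore (max b 1) m _ _ (le_max_right _ _) hs1 par γ l L le_rfl hsz
  have hsub := ShMain_hyp_mono (le_max_left b 1) ((Gm m).tseitin γ)
  rcases hcases with ⟨hd, i, hi⟩ | ⟨hd, i, φ, hφ, hi⟩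
  · exact h1 (ShMain_isDerivation_mono hsub hd) i hi
  · exact h2 hd i φ (ShMain_isConj_mono hsub hφ) hi

theorem sharp_size (ε : ℝ) (hε : 0 < ε) (S : Set Rule) (hS : S.Finite) (hs : ∀ r ∈ S, r.Sound)
    (b : ℕ) : ∃ m₀ : ℕ, ∀ m : ℕ, m₀ ≤ m → ∀ γ : Cube (Vm m),
    ∀ (l : ℕ) (L : Fin l → Form (Em m)),
      (IsDerivation S (Hyp b ((Gm m).tseitin γ)) L ∧ (∃ i, L i = Form.ff) ∨
        IsDerivation S ∅ L ∧ ∃ i φ, IsConj (Hyp b ((Gm m).tseitin γ)) φ ∧ L i = Form.neg φ) →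
      ((2 : ℝ) ^ m) ^ (2 - ε) ≤ ∑ i, ((L i).size : ℝ) := by
  obtain ⟨e, he0, heε, he1⟩ : ∃ e : ℝ, 0 < e ∧ e ≤ ε ∧ e ≤ 1 :=
    ⟨min ε 1, lt_min hε one_pos, min_le_left _ _, min_le_right _ _⟩
  obtain ⟨m₁, hm₁⟩ := sharp_lower (e / 2) (by positivity) S hS hs b
  have hd : 0 < e / 2 := by positivity
  obtain ⟨m₂, hm₂⟩ := SizeLB_large (half_pos hd) (1 + 4 / (e / 2))
  refine ⟨max m₁ m₂, fun m hm γ l L hL => ?_⟩
  have hN1 : (1 : ℝ) ≤ (2 : ℝ) ^ m := one_le_pow₀ (by norm_num)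
  have hN0 : (0 : ℝ) < (2 : ℝ) ^ m := by linarith
  refine (Real.rpow_le_rpow_of_exponent_le hN1 (show 2 - ε ≤ 2 - e by linarith)).trans ?_
  by_contra hlt
  push Not at hlt
  have hl : 1 ≤ l := by
    rcases hL with ⟨_, i, _⟩ | ⟨_, i, _⟩
    · exact Nat.one_le_of_lt i.2
    · exact Nat.one_le_of_lt i.2
  have hsize : ∀ i, ((L i).size : ℝ) ≤ ((2 : ℝ) ^ m) ^ (2 - e) := fun i =>
    (Finset.single_le_sum (f := fun i => ((L i).size : ℝ)) (fun j _ => Nat.cast_nonneg _)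
      (Finset.mem_univ i)).trans hlt.le
  have hcount : (l : ℝ) ≤ ∑ i, ((L i).size : ℝ) := by
    calc (l : ℝ) = ∑ _i : Fin l, (1 : ℝ) := by simp
      _ ≤ _ := Finset.sum_le_sum fun i _ => by exact_mod_cast form_size_pos (L i)
  have hpos : (0 : ℝ) ≤ ((2 : ℝ) ^ m) ^ (2 - e) := by positivity
  have hNs : ((2 : ℝ) ^ m) ≤ ((2 : ℝ) ^ m) ^ (2 - e) := by
    calc ((2 : ℝ) ^ m) = ((2 : ℝ) ^ m) ^ (1 : ℝ) := (Real.rpow_one _).symm
      _ ≤ _ := Real.rpow_le_rpow_of_exponent_le hN1 (by linarith)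
  have h1 := hm₁ m (le_of_max_le_left hm) γ ⌊((2 : ℝ) ^ m) ^ (2 - e)⌋₊ l L
    (Nat.le_floor (by push_cast; exact hNs)) (fun i => Nat.le_floor (hsize i)) hL
  have hlog : 0 ≤ Real.log l := Real.log_nonneg (by exact_mod_cast hl)
  have h2 : ((2 : ℝ) ^ m) ^ (2 - e / 2) ≤ ((2 : ℝ) ^ m) ^ (2 - e) * (1 + Real.log l) :=
    h1.trans (mul_le_mul_of_nonneg_right (Nat.floor_le hpos) (by linarith))
  have h3 : ((2 : ℝ) ^ m) ^ (2 - e / 2) = ((2 : ℝ) ^ m) ^ (2 - e) * ((2 : ℝ) ^ m) ^ (e / 2) := by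
    rw [← Real.rpow_add hN0]; ring_nf
  have hpos' : (0 : ℝ) < ((2 : ℝ) ^ m) ^ (2 - e) := by positivity
  have h4 : ((2 : ℝ) ^ m) ^ (e / 2) ≤ 1 + Real.log l := by
    rw [h3] at h2
    exact le_of_mul_le_mul_left h2 hpos'
  have h5 := hm₂ m (le_of_max_le_right hm)
  have h6 : Real.log ((2 : ℝ) ^ m) ≤ ((2 : ℝ) ^ m) ^ (e / 2 / 2) / (e / 2 / 2) :=
    Real.log_le_rpow_div hN0.le (half_pos hd)
  have h7 : ((2 : ℝ) ^ m) ^ (e / 2) = ((2 : ℝ) ^ m) ^ (e / 2 / 2) * ((2 : ℝ) ^ m) ^ (e / 2 / 2) := by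
    rw [← Real.rpow_add hN0]; ring_nf
  have h8 : (0 : ℝ) < ((2 : ℝ) ^ m) ^ (e / 2 / 2) := by positivity
  have h8' : (1 : ℝ) ≤ ((2 : ℝ) ^ m) ^ (e / 2 / 2) := Real.one_le_rpow hN1 (by positivity)
  have h9 : 1 + 2 * Real.log ((2 : ℝ) ^ m) ≤ ((2 : ℝ) ^ m) ^ (e / 2) := by
    rw [h7]
    calc 1 + 2 * Real.log ((2 : ℝ) ^ m)
        ≤ ((2 : ℝ) ^ m) ^ (e / 2 / 2) + 2 * (((2 : ℝ) ^ m) ^ (e / 2 / 2) / (e / 2 / 2)) := by linarith
      _ = (1 + 4 / (e / 2)) * ((2 : ℝ) ^ m) ^ (e / 2 / 2) := by field_simp; ring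
      _ ≤ _ := mul_le_mul_of_nonneg_right h5 h8.le
  have h10 : 2 * Real.log ((2 : ℝ) ^ m) ≤ Real.log l := by linarith
  have hl0 : (0 : ℝ) < (l : ℝ) := by exact_mod_cast hl
  have h11 : ((2 : ℝ) ^ m) ^ (2 : ℝ) ≤ (l : ℝ) := by
    rw [Real.rpow_def_of_pos hN0, mul_comm, ← Real.le_log_iff_exp_le hl0]
    exact h10
  have h12 : ((2 : ℝ) ^ m) ^ (2 - e) ≤ ((2 : ℝ) ^ m) ^ (2 : ℝ) :=
    Real.rpow_le_rpow_of_exponent_le hN1 (by linarith)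
  linarith

end Pool.Agent.MP_9cec2c_lc.SL
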