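import Pool.Agent.Lib.MP_9cec2c_lc.SL.ShCore
import Pool.Agent.Lib.MP_9cec2c_lc.SL.ShFin

/-!
TASK ShNum: choice of the parameters, sharp version (compare Num, whose proof can be adapted).

If `ε > 1`, then `(2^m)^(2-ε) ≤ 2^m ≤ s`, so there is nothing to prove; let `ε ≤ 1`. `A` a natural number
`≥ 30/ε + 30`, `P = A²`, `ν = ⌈(2-ε) P⌉₊ + 3`. Let `m` be large, `μ = ⌊m/P⌋`, so `P μ ≤ m ≤ P (μ+1)`.
Let `σ` be the least natural number with `s ≤ 2^(σ μ)`. Then `σ ≥ P` (`2^(P μ) ≤ 2^m ≤ s`), `σ ≥ 1`,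
`2^((σ-1) μ) < s`, and `s ≤ s (1 + log n) < 2^((2-ε) m) ≤ 2^(((2-ε) P + 1) μ)` (`μ ≥ 2P`), so
`σ - 1 < (2-ε) P + 1`, `σ ≤ ν - 1`. Put `β = ν - σ ≥ 1`. Then
`log n < 2^((2-ε) m) / s ≤ 2^(((2-ε)P + 1 - (σ-1)) μ) ≤ 2^(β μ)`, and `β ≤ ν - P ≤ (1-ε) P + 4`.
The constants below depend on `σ`; there are finitely many values `P ≤ σ < ν`, so this is uniform.
`gT = (β+1) μ`, `l₁ = 2^((β+2) μ)`, `a = 2^(A μ)`, `kk = ⌈(σ - β - 2)/(2A)⌉` (`0` if `σ ≤ β + 2`),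
`l' = 2^μ`, `t = A μ`, `l = μ`, `T = ⌈(2 + (A+2) kk)/(A-1)⌉`, `mT = m - T t`, `k₀ = P + 1`,
`θ = (1/2)^(796 + (398 (C²+1) + 2))`, `Q = 8 Z³ (m+1) + 1`, `Z = 4 s n`.
* `hs`: `(β + 2) + 2 A kk ≥ σ`. `kk ≤ A + 1`, and `2 A kk ≤ σ - β - 2 + 2A` if `kk ≥ 1`.
* `hη`: `(2000 a²)^kk ≤ 2^((11 + 2Aμ) kk)` against `(2/3)^(2^μ)`. `hε`: `sh_eps`.
* `450 l' a ≤ 2^((A+2) μ)` (`2^μ ≥ 450`), so `(450 l' a)^kk ≤ 2^((A+2) kk μ)`, and
  `(A+2) kk ≤ (σ-β-2)/2 + 3A + 2` if `kk ≥ 1`.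
* `hg`: `200 l₁ (450 l' a)^kk ≤ 2^((β + 3 + (A+2) kk) μ)` and
  `gT + T (t-l) = (β + 1 + T (A-1)) μ`, `T (A-1) ≥ 2 + (A+2) kk`.
* `T (A-1) ≤ 2 + (A+2) kk + (A-1)`, `T ≤ A + 8`, so `T A ≤ (A+2) kk + 2A + 9`.
* `h3`: `5 + gT + t + l + T t ≤ (1 + β + 1 + A + 1 + T A) μ`; if `kk ≥ 1` this is at most
  `((σ+β)/2 + 6A + 13) μ = (ν/2 + 6A + 13) μ ≤ ((1-ε/2) P + 6A + 15) μ < P μ` (`(ε/2) A² ≥ 15 A`,
  `A ≥ 30`); if `kk = 0`: `T = 1` and `β + 3 + 2A ≤ (1-ε) P + 7 + 2A < P`.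
* `hD`: the left side is at most `2^(((1-ε/2) P + 5A + 12) μ)`, `< 2^(Pμ)`, for large `μ`; similarly if
  `kk = 0`.
* `h1`, `h2`, `h4`, `h5`, `hb`, `hm2`, `hC` as in Num. `hfin`: `sh_z`, `sh_fin`.
-/

set_option autoImplicit false

open Finset
open scoped Classical

namespace Pool.Agent.MP_9cec2c_lc.SL

/-- Exponential against linear. -/
private theorem ShNum_growth (a b : ℕ) : ∀ μ : ℕ, 4 * (a + b) ≤ μ → a * μ + b ≤ 2 ^ μ := by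
  intro μ hμ
  have h1 : μ / 2 + 1 ≤ 2 ^ (μ / 2) := Nat.lt_two_pow_self
  have h2 : 2 ^ (μ / 2) * 2 ^ (μ / 2) ≤ 2 ^ μ := by
    rw [← pow_add]
    exact Nat.pow_le_pow_right (by norm_num) (by omega)
  have h3 : 2 * (a + b) ≤ μ / 2 + 1 := by omega
  have h4 : μ + 1 ≤ 2 * (μ / 2 + 1) := by omega
  calc a * μ + b ≤ (a + b) * (μ + 1) := by nlinarith
    _ ≤ (a + b) * (2 * (μ / 2 + 1)) := Nat.mul_le_mul_left _ h4
    _ = (2 * (a + b)) * (μ / 2 + 1) := by ring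
    _ ≤ (μ / 2 + 1) * (μ / 2 + 1) := Nat.mul_le_mul_right _ h3
    _ ≤ 2 ^ (μ / 2) * 2 ^ (μ / 2) := Nat.mul_le_mul h1 h1
    _ ≤ 2 ^ μ := h2

private theorem ShNum_eta (A kk : ℕ) : ∃ μ₀ : ℕ, ∀ μ : ℕ, μ₀ ≤ μ →
    (2000 * (((2 ^ (A * μ) : ℕ) : ℝ)) ^ 2) ^ kk * (2 / 3) ^ 2 ^ μ ≤ 1 / 1000 := by
  refine ⟨4 * (2 * A * kk + (2 * A * kk + 11 * kk + 10)) + 1, fun μ hμ => ?_⟩
  have hg := ShNum_growth (2 * A * kk) (2 * A * kk + 11 * kk + 10) (μ - 1) (by omega)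
  have hμ1 : 1 ≤ μ := by omega
  obtain ⟨ν, rfl⟩ : ∃ ν, μ = ν + 1 := ⟨μ - 1, by omega⟩
  rw [Nat.add_sub_cancel] at hg
  have e3 : (2000 * (((2 ^ (A * (ν + 1)) : ℕ) : ℝ)) ^ 2) ^ kk ≤ (2 : ℝ) ^ ((11 + 2 * A * (ν + 1)) * kk) := by
    rw [pow_mul (2 : ℝ) (11 + 2 * A * (ν + 1)) kk]
    refine pow_le_pow_left₀ (by positivity) ?_ _
    push_cast
    rw [← pow_mul, pow_add]
    have h1 : A * (ν + 1) * 2 = 2 * A * (ν + 1) := by ring
    rw [h1]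
    have h2 : (0 : ℝ) < 2 ^ (2 * A * (ν + 1)) := by positivity
    nlinarith
  have e4 : (2 / 3 : ℝ) ^ 2 ^ (ν + 1) ≤ (1 / 2) ^ 2 ^ ν := by
    rw [pow_succ', pow_mul]
    exact pow_le_pow_left₀ (by norm_num) (by norm_num) _
  have key : (11 + 2 * A * (ν + 1)) * kk + 10 ≤ 2 ^ ν := by
    have : (11 + 2 * A * (ν + 1)) * kk + 10 = 2 * A * kk * ν + (2 * A * kk + 11 * kk + 10) := by ring
    rw [this]
    exact hg
  calc (2000 * (((2 ^ (A * (ν + 1)) : ℕ) : ℝ)) ^ 2) ^ kk * (2 / 3) ^ 2 ^ (ν + 1)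
      ≤ (2 : ℝ) ^ ((11 + 2 * A * (ν + 1)) * kk) * (1 / 2) ^ 2 ^ ν :=
        mul_le_mul e3 e4 (by positivity) (by positivity)
    _ ≤ (2 : ℝ) ^ ((11 + 2 * A * (ν + 1)) * kk) * (1 / 2) ^ ((11 + 2 * A * (ν + 1)) * kk + 10) :=
        mul_le_mul_of_nonneg_left (pow_le_pow_of_le_one (by norm_num) (by norm_num) key)
          (by positivity)
    _ = (1 / 2) ^ 10 := by
        rw [pow_add, ← mul_assoc, ← mul_pow]
        norm_num
    _ ≤ 1 / 1000 := by norm_num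

/-- The parameters for fixed constants. -/
private theorem ShNum_fixed (A σ β kk T C b : ℕ) (hA : 30 ≤ A) (hβ : 1 ≤ β)
    (hσ : σ ≤ β + 2 + 2 * A * kk) (hkey : β + (A + 2) * kk + 3 * A + 9 ≤ A * A)
    (hT1 : (A + 2) * kk + 2 ≤ T * (A - 1)) (hT2 : β + A + T * A + 3 ≤ A * A) :
    ∃ μ₀ : ℕ, ∀ μ : ℕ, μ₀ ≤ μ → ∀ m s n : ℕ, A * A * μ ≤ m → m ≤ A * A * (μ + 1) →
      s ≤ 2 ^ (σ * μ) → s ≤ 2 ^ (2 * m) → 1 ≤ n → Real.log n ≤ (2 : ℝ) ^ (β * μ) →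
      Nonempty (ShPar C b m s (4 * s * n)) := by
  obtain ⟨P, hP⟩ : ∃ P : ℕ, P = A * A := ⟨_, rfl⟩
  rw [← hP] at hkey hT2 ⊢
  have hP1 : 1 ≤ P := by nlinarith
  obtain ⟨μ1, hμ1⟩ := sh_eps P β b hβ
  obtain ⟨μ2, hμ2⟩ := sh_z P β hβ
  obtain ⟨μ3, hμ3⟩ := sh_fin P T C b β hβ
  obtain ⟨μ5, hμ5⟩ := ShNum_eta A kk
  obtain ⟨W, hW⟩ : ∃ W : ℕ, W = 352 * (796 + (398 * (C ^ 2 + 1) + 2)) := ⟨_, rfl⟩
  obtain ⟨K, hK⟩ : ∃ K : ℕ, K = 2 * P + 88 * (P + 1) + 22 * P + 11616 * P * 2 ^ W + (C + 1) +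
      8 * (1402 + 2 * b + 200 * kk) + 8 * (3 * 44 + 2 * b) + 1 := ⟨_, rfl⟩
  refine ⟨μ1 + μ2 + μ3 + μ5 + 4 * (K + K) + 2 * P + 9,
    fun μ hμ m s n hm1 hm2 hsσ hsm hn1 hn => ?_⟩
  have hKμ : K * (μ + 1) ≤ 2 ^ μ := by
    have := ShNum_growth K K μ (by omega)
    nlinarith
  have g1 : μ1 ≤ μ := by omega
  have g2 : μ2 ≤ μ := by omega
  have g3 : μ3 ≤ μ := by omega
  have g5 : 2 * P ≤ μ := by omega
  have g6 : 9 ≤ μ := by omega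
  have g7 : μ5 ≤ μ := by omega
  have hK0 : K ≤ 2 ^ μ := by
    have : K * 1 ≤ K * (μ + 1) := Nat.mul_le_mul_left _ (by omega)
    omega
  -- the power of `450 l' a`
  have hY : (450 * 2 ^ μ * 2 ^ (A * μ)) ^ kk ≤ 2 ^ ((A + 2) * kk * μ) := by
    have h1 : 450 ≤ 2 ^ μ := by
      calc 450 ≤ 2 ^ 9 := by norm_num
        _ ≤ 2 ^ μ := Nat.pow_le_pow_right (by norm_num) g6
    have h2 : 450 * 2 ^ μ * 2 ^ (A * μ) ≤ 2 ^ ((A + 2) * μ) := by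
      calc 450 * 2 ^ μ * 2 ^ (A * μ) ≤ 2 ^ μ * 2 ^ μ * 2 ^ (A * μ) :=
            Nat.mul_le_mul_right _ (Nat.mul_le_mul_right _ h1)
        _ = 2 ^ ((A + 2) * μ) := by
          rw [← pow_add, ← pow_add]
          congr 1
          ring
    calc (450 * 2 ^ μ * 2 ^ (A * μ)) ^ kk ≤ (2 ^ ((A + 2) * μ)) ^ kk := Nat.pow_le_pow_left h2 kk
      _ = 2 ^ ((A + 2) * kk * μ) := by
        rw [← pow_mul]
        congr 1
        ring
  have hTt : 5 + (β + 1) * μ + A * μ + μ + T * (A * μ) < m := by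
    have h1 : (β + A + T * A + 3) * μ ≤ P * μ := Nat.mul_le_mul_right _ hT2
    nlinarith
  -- the parameters
  refine ⟨⟨m - T * (A * μ), (β + 1) * μ, A * μ, μ, P + 1, T, 2 ^ (A * μ), 2 ^ μ, kk,
    2 ^ ((β + 2) * μ),
    (1 / 2) ^ (796 + (398 * (C ^ 2 + 1) + 2)), 8 * ((4 * s * n : ℕ) : ℝ) ^ 3 * (m + 1) + 1,
    ?_, ?_, ?_, ?_, ?_, ?_, ?_, ?_, ?_, ?_, ?_, ?_, ?_, ?_, ?_, ?_, ?_, ?_, ?_, ?_, ?_, ?_, ?_, ?_⟩⟩
  · -- hm
    omega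
  · -- ha
    exact Nat.one_le_two_pow
  · -- hl'
    exact Nat.one_le_two_pow
  · -- hl₁
    exact Nat.one_le_two_pow
  · -- hm2
    nlinarith
  · -- hs
    refine hsσ.trans ?_
    rw [← pow_mul, ← pow_mul, ← pow_add]
    apply Nat.pow_le_pow_right (by norm_num)
    have : σ * μ ≤ (β + 2 + 2 * A * kk) * μ := Nat.mul_le_mul_right _ hσ
    nlinarith
  · -- hη
    have := hμ5 μ g7
    exact this
  · -- hε
    exact hμ1 μ g1 m s hm2 hsm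
  · -- hD
    obtain ⟨X, hXdef⟩ : ∃ X : ℕ, X = (450 * 2 ^ μ * 2 ^ (A * μ)) ^ kk := ⟨_, rfl⟩
    obtain ⟨Y, hYdef⟩ : ∃ Y : ℕ, Y = 2 ^ ((A + 2) * kk * μ) := ⟨_, rfl⟩
    obtain ⟨V, hV⟩ : ∃ V : ℕ, V = (2 ^ (A * μ)) ^ 2 := ⟨_, rfl⟩
    obtain ⟨U, hU⟩ : ∃ U : ℕ, U = 2 ^ ((β + 2) * μ) := ⟨_, rfl⟩
    rw [← hXdef, ← hV, ← hU]
    rw [← hXdef, ← hYdef] at hY
    obtain ⟨M, hM⟩ : ∃ M : ℕ, M = 2 ^ ((P - 2) * μ) := ⟨_, rfl⟩
    have hM1 : 1 ≤ M := by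
      rw [hM]
      exact Nat.one_le_two_pow
    have hVX : V * X ≤ M := by
      calc V * X ≤ V * Y := Nat.mul_le_mul_left _ hY
        _ = 2 ^ ((2 * A + (A + 2) * kk) * μ) := by
          rw [hV, hYdef, ← pow_mul, ← pow_add]
          congr 1
          ring
        _ ≤ M := by
          rw [hM]
          exact Nat.pow_le_pow_right (by norm_num) (Nat.mul_le_mul_right _ (by omega))
    have hUX : U * X ≤ M := by
      calc U * X ≤ U * Y := Nat.mul_le_mul_left _ hY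
        _ = 2 ^ ((β + 2 + (A + 2) * kk) * μ) := by
          rw [hU, hYdef, ← pow_add]
          congr 1
          ring
        _ ≤ M := by
          rw [hM]
          exact Nat.pow_le_pow_right (by norm_num) (Nat.mul_le_mul_right _ (by omega))
    have h1 : 8 * (2 * (200 * U * X) + 2 * b + 1000 * U * X + 2 + kk * (200 * V * X)) ≤
        8 * (1402 + 2 * b + 200 * kk) * M := by
      have h2 : kk * (200 * V * X) ≤ 200 * kk * M := by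
        calc kk * (200 * V * X) = 200 * kk * (V * X) := by ring
          _ ≤ 200 * kk * M := Nat.mul_le_mul_left _ hVX
      have h3 : 2 * b * 1 ≤ 2 * b * M := Nat.mul_le_mul_left _ hM1
      have h4 : 1400 * (U * X) ≤ 1400 * M := Nat.mul_le_mul_left _ hUX
      nlinarith
    have h2 : 8 * (1402 + 2 * b + 200 * kk) ≤ 2 ^ μ := by omega
    have h3 : 2 ^ μ * M < 2 ^ m := by
      rw [hM, ← pow_add]
      apply Nat.pow_lt_pow_right (by norm_num)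
      obtain ⟨R, rfl⟩ : ∃ R, P = R + 2 := ⟨P - 2, by omega⟩
      rw [Nat.add_sub_cancel]
      nlinarith
    calc 8 * (2 * (200 * U * X) + 2 * b + 1000 * U * X + 2 + kk * (200 * V * X))
        ≤ 8 * (1402 + 2 * b + 200 * kk) * M := h1
      _ ≤ 2 ^ μ * M := Nat.mul_le_mul_right _ h2
      _ < 2 ^ m := h3
  · -- hb
    have h1 : 8 * (3 * 44 + 2 * b) < K := by omega
    have h2 : 2 ^ μ ≤ 2 ^ m := Nat.pow_le_pow_right (by norm_num) (by nlinarith)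
    omega
  · -- hg
    have h200 : 200 ≤ 2 ^ μ := by
      calc 200 ≤ 2 ^ 9 := by norm_num
        _ ≤ 2 ^ μ := Nat.pow_le_pow_right (by norm_num) g6
    calc 200 * 2 ^ ((β + 2) * μ) * (450 * 2 ^ μ * 2 ^ (A * μ)) ^ kk
        ≤ 2 ^ μ * 2 ^ ((β + 2) * μ) * 2 ^ ((A + 2) * kk * μ) :=
          Nat.mul_le_mul (Nat.mul_le_mul_right _ h200) hY
      _ = 2 ^ ((β + 3 + (A + 2) * kk) * μ) := by
        rw [← pow_add, ← pow_add]
        congr 1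
        ring
      _ ≤ 2 ^ ((β + 1) * μ + T * (A * μ - μ)) := by
        apply Nat.pow_le_pow_right (by norm_num)
        have h1 : A * μ - μ = (A - 1) * μ := by
          rw [Nat.sub_mul, one_mul]
        rw [h1]
        have h2 : ((A + 2) * kk + 2) * μ ≤ T * (A - 1) * μ := Nat.mul_le_mul_right _ hT1
        have h3 : T * (A - 1) * μ = T * ((A - 1) * μ) := by ring
        nlinarith
  · -- ht
    nlinarith
  · -- hk
    omega
  · -- h2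
    omega
  · -- h3
    omega
  · -- h4
    nlinarith
  · -- hθ
    positivity
  · -- hθ1
    have h1 : ((1 : ℝ) / 2) ^ (796 + (398 * (C ^ 2 + 1) + 2)) =
        (1 / 2) ^ 796 * (1 / 2) ^ (398 * (C ^ 2 + 1) + 2) := pow_add _ _ _
    have h2 : ((2 : ℝ) ^ 398) ^ 2 * (1 / 2) ^ 796 = 1 := by
      rw [← pow_mul, ← mul_pow]
      norm_num
    have h3 : ((1 : ℝ) / 2) ^ (398 * (C ^ 2 + 1) + 2) ≤ 1 / 2 := by
      calc ((1 : ℝ) / 2) ^ (398 * (C ^ 2 + 1) + 2) ≤ (1 / 2) ^ 1 :=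
            pow_le_pow_of_le_one (by norm_num) (by norm_num) (by omega)
        _ = 1 / 2 := pow_one _
    rw [h1, ← mul_assoc, h2, one_mul]
    exact h3
  · -- h1
    have h1 : 22 * (m : ℝ) ≤ 2 ^ μ := by
      have h2 : 22 * m ≤ 2 ^ μ := by
        have h3 : 22 * m ≤ 22 * P * (μ + 1) := by nlinarith
        have h4 : 22 * P * (μ + 1) ≤ K * (μ + 1) := Nat.mul_le_mul_right _ (by omega)
        omega
      exact_mod_cast h2
    have h2 : 22 * (m : ℝ) / 2 ^ (A * μ) ≤ 1 / 2 ^ (2 * μ) := by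
      rw [div_le_div_iff₀ (by positivity) (by positivity), one_mul]
      calc 22 * (m : ℝ) * 2 ^ (2 * μ) ≤ 2 ^ μ * 2 ^ (2 * μ) :=
            mul_le_mul_of_nonneg_right h1 (by positivity)
        _ = 2 ^ (3 * μ) := by
          rw [← pow_add]
          congr 1
          ring
        _ ≤ 2 ^ (A * μ) := pow_le_pow_right₀ (by norm_num) (Nat.mul_le_mul_right _ (by omega))
    have h3 : (22 * (m : ℝ) / 2 ^ (A * μ)) ^ (P + 1) ≤ 1 / 2 ^ (2 * μ * (P + 1)) := by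
      calc (22 * (m : ℝ) / 2 ^ (A * μ)) ^ (P + 1) ≤ (1 / 2 ^ (2 * μ)) ^ (P + 1) :=
            pow_le_pow_left₀ (by positivity) h2 _
        _ = 1 / 2 ^ (2 * μ * (P + 1)) := by
          rw [div_pow, one_pow, ← pow_mul]
    have h4 : 88 * (2 : ℝ) ^ m ≤ 2 ^ (2 * μ * (P + 1)) := by
      calc 88 * (2 : ℝ) ^ m ≤ 2 ^ 7 * 2 ^ (P * (μ + 1)) :=
            mul_le_mul (by norm_num) (pow_le_pow_right₀ (by norm_num) hm2) (by positivity) (by norm_num)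
        _ = 2 ^ (7 + P * (μ + 1)) := by rw [pow_add]
        _ ≤ 2 ^ (2 * μ * (P + 1)) := by
          apply pow_le_pow_right₀ (by norm_num)
          nlinarith
    calc 22 * (2 : ℝ) ^ m * (22 * (m : ℝ) / 2 ^ (A * μ)) ^ (P + 1)
        ≤ 22 * (2 : ℝ) ^ m * (1 / 2 ^ (2 * μ * (P + 1))) :=
          mul_le_mul_of_nonneg_left h3 (by positivity)
      _ ≤ 1 / 4 := by
        rw [mul_one_div, div_le_div_iff₀ (by positivity) (by norm_num)]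
        linarith
  · -- h5
    have h1 : 11616 * m * 2 ^ W ≤ 2 ^ μ := by
      have h2 : 11616 * m * 2 ^ W ≤ 11616 * P * 2 ^ W * (μ + 1) := by
        calc 11616 * m * 2 ^ W ≤ 11616 * (P * (μ + 1)) * 2 ^ W :=
              Nat.mul_le_mul_right _ (Nat.mul_le_mul_left _ hm2)
          _ = 11616 * P * 2 ^ W * (μ + 1) := by ring
      have h3 : 11616 * P * 2 ^ W * (μ + 1) ≤ K * (μ + 1) := Nat.mul_le_mul_right _ (by omega)
      omega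
    have h2 : 11616 * (m : ℝ) * 2 ^ W ≤ 2 ^ μ := by exact_mod_cast h1
    have h3 : (((1 : ℝ) / 2) ^ (796 + (398 * (C ^ 2 + 1) + 2))) ^ 352 = 1 / 2 ^ W := by
      rw [← pow_mul, div_pow, one_pow, hW, mul_comm]
    rw [h3, one_div_mul_eq_div, le_div_iff₀ (by positivity)]
    exact h2
  · -- hQ1
    have : (0 : ℝ) ≤ 8 * ((4 * s * n : ℕ) : ℝ) ^ 3 * (m + 1) := by positivity
    linarith
  · -- hQ
    linarith
  · -- hC
    have h1 : C + 1 ≤ 2 ^ (A * μ + μ) := by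
      calc C + 1 ≤ 2 ^ μ := by omega
        _ ≤ 2 ^ (A * μ + μ) := Nat.pow_le_pow_right (by norm_num) (by omega)
    calc 32 * ((C + 1) * 2 ^ ((β + 1) * μ)) ≤ 32 * (2 ^ (A * μ + μ) * 2 ^ ((β + 1) * μ)) :=
          Nat.mul_le_mul_left _ (Nat.mul_le_mul_right _ h1)
      _ = 2 ^ (5 + (A * μ + μ) + (β + 1) * μ) := by
        rw [pow_add, pow_add]
        ring
      _ < 2 ^ (m - T * (A * μ)) := by
        apply Nat.pow_lt_pow_right (by norm_num)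
        omega
  · -- hfin
    exact hμ3 μ g3 m s (4 * s * n) _ _ hm2 hsm (hμ2 μ g2 m s n hm2 hsm hn1 hn) rfl rfl

/-- The constants that depend on `ε` only. -/
private theorem ShNum_const (ε : ℝ) (hε : 0 < ε) : ∃ A ν : ℕ, 30 ≤ A ∧
    (2 - ε) * ((A * A : ℕ) : ℝ) + 3 ≤ ν ∧ ν + 12 * A + 24 ≤ 2 * (A * A) := by
  obtain ⟨A, hA⟩ := exists_nat_ge (30 / ε + 30)
  have h30 : 0 < 30 / ε := by positivity
  have hA30 : (30 : ℝ) ≤ A := by linarith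
  have hA0 : (0 : ℝ) < A := by linarith
  have hεA : 30 ≤ ε * A := by
    have h : 30 / ε ≤ A := by linarith
    rw [div_le_iff₀ hε] at h
    linarith
  have hεAA : 30 * (A : ℝ) ≤ ε * (A * A) := by nlinarith
  refine ⟨A, ⌈(2 - ε) * ((A * A : ℕ) : ℝ)⌉₊ + 3, by exact_mod_cast hA30, ?_, ?_⟩
  · have := Nat.le_ceil ((2 - ε) * ((A * A : ℕ) : ℝ))
    push_cast at this ⊢
    linarith
  · have h1 : ⌈(2 - ε) * ((A * A : ℕ) : ℝ)⌉₊ ≤ 2 * (A * A) - (12 * A + 27) := by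
      apply Nat.ceil_le.mpr
      have h2 : 12 * A + 27 ≤ 2 * (A * A) := by
        have : 30 ≤ A := by exact_mod_cast hA30
        nlinarith
      rw [Nat.cast_sub h2]
      push_cast
      nlinarith
    have h2 : 12 * A + 27 ≤ 2 * (A * A) := by
      have : 30 ≤ A := by exact_mod_cast hA30
      nlinarith
    omega

/-- The parameters for fixed `σ`. -/
private theorem ShNum_sigma (A ν σ C b : ℕ) (hA : 30 ≤ A) (hν : ν + 12 * A + 24 ≤ 2 * (A * A)) :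
    ∃ μ₀ : ℕ, ∀ μ : ℕ, μ₀ ≤ μ → A * A ≤ σ → σ < ν → ∀ m s n : ℕ, A * A * μ ≤ m →
      m ≤ A * A * (μ + 1) → s ≤ 2 ^ (σ * μ) → s ≤ 2 ^ (2 * m) → 1 ≤ n →
      Real.log n ≤ (2 : ℝ) ^ ((ν - σ) * μ) → Nonempty (ShPar C b m s (4 * s * n)) := by
  by_cases hσ : A * A ≤ σ ∧ σ < ν
  · obtain ⟨h1, h2⟩ := hσ
    obtain ⟨β, hβ⟩ : ∃ β, β = ν - σ := ⟨_, rfl⟩
    have hβ1 : 1 ≤ β := by omega
    have hkk : ∃ kk, σ ≤ β + 2 + 2 * A * kk ∧ β + (A + 2) * kk + 3 * A + 9 ≤ A * A := by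
      by_cases h3 : σ ≤ β + 2
      · exact ⟨0, by omega, by omega⟩
      · obtain ⟨d, hd⟩ : ∃ d, d = σ - β - 2 := ⟨_, rfl⟩
        obtain ⟨q, hq⟩ : ∃ q, q = d / (2 * A) := ⟨_, rfl⟩
        have h4 : 2 * A * q ≤ d := by
          rw [hq]
          exact Nat.mul_div_le d (2 * A)
        have h5 : d < 2 * A * (q + 1) := by
          rw [hq]
          exact Nat.lt_mul_div_succ d (by omega)
        have h6 : q ≤ A := by
          by_contra hc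
          push Not at hc
          have h7 : 2 * A * A ≤ 2 * A * q := Nat.mul_le_mul_left _ hc.le
          have h8 : 2 * A * A = 2 * (A * A) := by ring
          omega
        refine ⟨q + 1, by omega, ?_⟩
        have h7 : 2 * (β + (A + 2) * (q + 1) + 3 * A + 9) ≤ 2 * (A * A) := by
          have h8 : 2 * (β + (A + 2) * (q + 1) + 3 * A + 9) =
              2 * A * q + 4 * q + 2 * β + 8 * A + 22 := by ring
          rw [h8]
          omega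
        omega
    obtain ⟨kk, hk1, hk2⟩ := hkk
    obtain ⟨B, rfl⟩ : ∃ B, A = B + 2 := ⟨A - 2, by omega⟩
    obtain ⟨x, hx⟩ : ∃ x, x = (B + 2 + 2) * kk + 2 := ⟨_, rfl⟩
    have hxlt : x < (B + 1) * B := by nlinarith
    have hdiv : x / (B + 1) < B := Nat.div_lt_of_lt_mul hxlt
    have hm := Nat.mul_div_le x (B + 1)
    have hm' := Nat.lt_mul_div_succ x (by omega : 0 < B + 1)
    have hfix := ShNum_fixed (B + 2) σ β kk (x / (B + 1) + 1) C b hA hβ1 hk1 hk2 ?_ ?_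
    · obtain ⟨μ₀, hμ₀⟩ := hfix
      refine ⟨μ₀, fun μ hμ _ _ m s n a1 a2 a3 a4 a5 a6 => ?_⟩
      rw [← hβ] at a6
      exact hμ₀ μ hμ m s n a1 a2 a3 a4 a5 a6
    · rw [← hx, show B + 2 - 1 = B + 1 by omega, mul_comm]
      exact hm'.le
    · obtain ⟨y, hy⟩ : ∃ y, y = x / (B + 1) := ⟨_, rfl⟩
      rw [← hy] at hdiv hm ⊢
      have e1 : (y + 1) * (B + 2) = (B + 1) * y + y + (B + 2) := by ring
      rw [e1]
      omega
  · exact ⟨0, fun μ _ h1 h2 => absurd ⟨h1, h2⟩ hσ⟩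

private theorem ShNum_aux (ε : ℝ) (hε : 0 < ε) (hε1 : ε ≤ 1) (C b : ℕ) : ∃ m₀ : ℕ, ∀ m : ℕ, m₀ ≤ m →
    ∀ s n : ℕ, 2 ^ m ≤ s → 1 ≤ n →
      (s : ℝ) * (1 + Real.log n) < ((2 : ℝ) ^ m) ^ (2 - ε) →
      Nonempty (ShPar C b m s (4 * s * n)) := by
  obtain ⟨A, ν, hA, hν1, hν2⟩ := ShNum_const ε hε
  choose f hf using fun σ => ShNum_sigma A ν σ C b hA hν2
  obtain ⟨P, hP⟩ : ∃ P : ℕ, P = A * A := ⟨_, rfl⟩
  rw [← hP] at hν1
  have hP1 : 1 ≤ P := by nlinarith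
  obtain ⟨μ0, hμ0⟩ : ∃ μ0 : ℕ, μ0 = (Finset.range ν).sup f + 2 * P + 9 := ⟨_, rfl⟩
  refine ⟨P * μ0, fun m hm s n hs1 hn1 hs => ?_⟩
  obtain ⟨μ, hμdef⟩ : ∃ μ : ℕ, μ = m / P := ⟨_, rfl⟩
  have hμge : μ0 ≤ μ := by
    rw [hμdef, Nat.le_div_iff_mul_le (by omega)]
    rw [mul_comm]
    exact hm
  have hm1 : P * μ ≤ m := by
    rw [hμdef]
    exact Nat.mul_div_le m P
  have hm2 : m ≤ P * (μ + 1) := by
    rw [hμdef]
    exact (Nat.lt_mul_div_succ m (by omega)).le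
  have g5 : 2 * P ≤ μ := by omega
  have g6 : 9 ≤ μ := by omega
  have hlog : 0 ≤ Real.log n := Real.log_nonneg (by exact_mod_cast hn1)
  have hs0 : (0 : ℝ) ≤ s := Nat.cast_nonneg _
  have hss : (s : ℝ) ≤ (s : ℝ) * (1 + Real.log n) := by nlinarith
  -- the upper bound in terms of `μ`
  have hup : ((2 : ℝ) ^ m) ^ (2 - ε) ≤ (2 : ℝ) ^ ((ν - 2) * μ) := by
    have hν3 : 3 ≤ ν := by
      have : (3 : ℝ) ≤ ν := by
        have h1 : (0 : ℝ) ≤ (2 - ε) * (P : ℝ) := mul_nonneg (by linarith) (Nat.cast_nonneg _)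
        linarith
      exact_mod_cast this
    have h1 : ((2 : ℝ) ^ m) ^ (2 - ε) = (2 : ℝ) ^ ((m : ℝ) * (2 - ε)) := by
      rw [← Real.rpow_natCast, ← Real.rpow_mul (by norm_num)]
    have h2 : (2 : ℝ) ^ ((ν - 2) * μ) = (2 : ℝ) ^ ((((ν - 2) * μ : ℕ)) : ℝ) := by
      rw [Real.rpow_natCast]
    rw [h1, h2]
    apply Real.rpow_le_rpow_of_exponent_le (by norm_num)
    have h4 : (m : ℝ) ≤ P * (μ + 1) := by exact_mod_cast hm2
    have h5 : (m : ℝ) * (2 - ε) ≤ P * (μ + 1) * (2 - ε) :=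
      mul_le_mul_of_nonneg_right h4 (by linarith)
    have h6 : (P : ℝ) * (2 - ε) ≤ 2 * P := by nlinarith
    have h7 : (2 * (P : ℝ)) ≤ μ := by exact_mod_cast g5
    have h9 : (0 : ℝ) ≤ μ := Nat.cast_nonneg _
    have h10 : ((2 - ε) * (P : ℝ) + 3) * μ ≤ ν * μ := mul_le_mul_of_nonneg_right hν1 h9
    rw [Nat.cast_mul, Nat.cast_sub (by omega)]
    push_cast
    nlinarith
  have hsm : s ≤ 2 ^ (2 * m) := by
    have h1 : (s : ℝ) ≤ ((2 : ℝ) ^ m) ^ (2 : ℝ) := by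
      refine (hss.trans hs.le).trans ?_
      exact Real.rpow_le_rpow_of_exponent_le (one_le_pow₀ (by norm_num)) (by linarith)
    have h2 : ((2 : ℝ) ^ m) ^ (2 : ℝ) = ((2 ^ (2 * m) : ℕ) : ℝ) := by
      rw [show (2 : ℝ) = ((2 : ℕ) : ℝ) by norm_num, Real.rpow_natCast, ← pow_mul, mul_comm m 2]
      push_cast
      ring
    rw [h2] at h1
    exact_mod_cast h1
  -- `σ`
  have hex : ∃ σ : ℕ, s ≤ 2 ^ (σ * μ) := by
    refine ⟨s, Nat.lt_two_pow_self.le.trans (Nat.pow_le_pow_right (by norm_num) ?_)⟩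
    exact Nat.le_mul_of_pos_right _ (by omega)
  obtain ⟨σ, hσdef⟩ : ∃ σ, σ = Nat.find hex := ⟨_, rfl⟩
  have hσs : s ≤ 2 ^ (σ * μ) := by
    rw [hσdef]
    exact Nat.find_spec hex
  have hσP : P ≤ σ := by
    have h1 : 2 ^ (P * μ) ≤ 2 ^ (σ * μ) :=
      ((Nat.pow_le_pow_right (by norm_num) hm1).trans hs1).trans hσs
    have h2 : P * μ ≤ σ * μ := (Nat.pow_le_pow_iff_right (by norm_num)).mp h1
    exact Nat.le_of_mul_le_mul_right h2 (by omega)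
  have hσm : 2 ^ ((σ - 1) * μ) < s := by
    have h1 : σ - 1 < Nat.find hex := by omega
    have h2 := Nat.find_min hex h1
    omega
  have hσm' : (2 : ℝ) ^ ((σ - 1) * μ) < s := by exact_mod_cast hσm
  have hσν : σ < ν := by
    have h1 : (2 : ℝ) ^ ((σ - 1) * μ) < 2 ^ ((ν - 2) * μ) :=
      hσm'.trans_le ((hss.trans hs.le).trans hup)
    have h2 : (σ - 1) * μ < (ν - 2) * μ := (pow_lt_pow_iff_right₀ (by norm_num)).mp h1
    have h3 : σ - 1 < ν - 2 := Nat.lt_of_mul_lt_mul_right h2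
    omega
  have hlogn : Real.log n ≤ (2 : ℝ) ^ ((ν - σ) * μ) := by
    have h1 : (2 : ℝ) ^ ((σ - 1) * μ) * (1 + Real.log n) ≤ 2 ^ ((ν - 2) * μ) :=
      (mul_le_mul_of_nonneg_right hσm'.le (by linarith)).trans (hs.le.trans hup)
    have h2 : (2 : ℝ) ^ ((ν - 2) * μ) ≤ 2 ^ ((σ - 1) * μ) * 2 ^ ((ν - σ) * μ) := by
      rw [← pow_add, ← Nat.add_mul]
      exact pow_le_pow_right₀ (by norm_num) (Nat.mul_le_mul_right _ (by omega))
    have h3 : (0 : ℝ) < 2 ^ ((σ - 1) * μ) := by positivity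
    have h4 := le_of_mul_le_mul_left (h1.trans h2) h3
    linarith
  have hfσ : f σ ≤ μ := by
    have : f σ ≤ (Finset.range ν).sup f := Finset.le_sup (Finset.mem_range.mpr hσν)
    omega
  rw [hP] at hm1 hm2 hσP
  exact hf σ μ hfσ hσP hσν m s n hm1 hm2 hσs hsm hn1 hlogn

theorem sh_num (ε : ℝ) (hε : 0 < ε) (C b : ℕ) : ∃ m₀ : ℕ, ∀ m : ℕ, m₀ ≤ m →
    ∀ s n : ℕ, 2 ^ m ≤ s → 1 ≤ n →
      (s : ℝ) * (1 + Real.log n) < ((2 : ℝ) ^ m) ^ (2 - ε) →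
      Nonempty (ShPar C b m s (4 * s * n)) := by
  by_cases hε1 : ε ≤ 1
  · exact ShNum_aux ε hε hε1 C b
  · refine ⟨0, fun m _ s n hs1 hn1 hs => ?_⟩
    exfalso
    push Not at hε1
    have h1 : (1 : ℝ) ≤ 2 ^ m := one_le_pow₀ (by norm_num)
    have h2 : ((2 : ℝ) ^ m) ^ (2 - ε) ≤ ((2 : ℝ) ^ m) ^ (1 : ℝ) :=
      Real.rpow_le_rpow_of_exponent_le h1 (by linarith)
    rw [Real.rpow_one] at h2
    have hlog : 0 ≤ Real.log n := Real.log_nonneg (by exact_mod_cast hn1)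
    have hs0 : (2 : ℝ) ^ m ≤ s := by exact_mod_cast hs1
    nlinarith

end Pool.Agent.MP_9cec2c_lc.SL
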