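import Pool.Agent.Lib.MP_9cec2c_lc.SL.ShRho
import Pool.Agent.Lib.MP_9cec2c_lc.SL.Lev

/-!
TASK ShSk: the value of a skeleton with rounded labels. Induction on `g`.
`sk_gr`: type `g.r`, norm `≤ 6^(g.r)/3`: leaf: `2`; and: `(6^r₁/3)(6^r₂/3) ≤ 6^r/3`; or: with
`x = 6^r₁/3`, `y = 6^r₂/3 ≥ 2`: `x + y + x y ≤ 2 x y ≤ 6^r/3`.
`sk_idem`: `X² - X = (1 - z) Δ` with `Δ` of type `2 g.r` and norm `≤ 36^(g.r)`: leaf: `rh_idem`, `rhΔ_gr`;
and: `Δ = Δ_Y Z² + Y Δ_Z`; or: `X² - X = (1-X)² - (1-X)`, `1 - X = (1-Y)(1-Z)`,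
`Δ = Δ_Y (1-Z)² + (1-Y) Δ_Z`, `|1 - Z| ≤ 1 + 6^r₂/3 ≤ 6^r₂/2`.
-/

set_option autoImplicit false

open Finset

namespace Pool.Agent.MP_9cec2c_lc.SL.World

variable {R : Type} [CommRing R] [Algebra ℝ R] (W : World R) {Λ : Type}

theorem ShSk_one_le (g : Sk (Fm Λ)) : 1 ≤ g.r := by
  induction g with
  | leaf a => exact le_rfl
  | and g h ihg ihh => exact ihg.trans (Nat.le_add_right _ _)
  | or g h ihg ihh => exact ihg.trans (Nat.le_add_right _ _)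

theorem ShSk_six (g : Sk (Fm Λ)) : (6 : ℝ) ≤ 6 ^ g.r := by
  have h := pow_le_pow_right₀ (by norm_num : (1 : ℝ) ≤ 6) (ShSk_one_le g)
  rwa [pow_one] at h

theorem ShSk_left {τ : ℕ} {g h : Sk (Fm Λ)}
    (hg : ∀ i, ((Fin.append g.lab h.lab) i).size ≤ τ) : ∀ i, (g.lab i).size ≤ τ := by
  intro i
  have h1 := hg (Fin.castAdd h.r i)
  rwa [Fin.append_left] at h1

theorem ShSk_right {τ : ℕ} {g h : Sk (Fm Λ)}
    (hg : ∀ i, ((Fin.append g.lab h.lab) i).size ≤ τ) : ∀ i, (h.lab i).size ≤ τ := by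
  intro i
  have h1 := hg (Fin.natAdd g.r i)
  rwa [Fin.append_right] at h1

theorem sk_gr {v : Fm Λ → R} {τ c L T : ℕ} {η : ℝ} (hv : W.IsVal v τ c η L) (hη0 : 0 ≤ η)
    (hη : η ≤ 1 / 1000) (hD : L + 2 * c ≤ W.D) (g : Sk (Fm Λ)) (hg : ∀ i, (g.lab i).size ≤ τ) :
    W.Gr c L T g.r (6 ^ g.r / 3) (g.val (fun B => rh (v B))) := by
  have hL : L ≤ W.D := by omega
  induction g with
  | leaf a =>
    have h1 := W.rh_gr (T := T) hη0 hη hD (hv.bit a (hg ⟨0, Nat.one_pos⟩))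
    exact W.gr_mono h1 le_rfl (by change (2 : ℝ) ≤ 6 ^ 1 / 3; norm_num)
  | and g h ihg ihh =>
    have h1 := ihg (ShSk_left hg)
    have h2 := ihh (ShSk_right hg)
    refine W.gr_mono (W.gr_mul hL h1 h2) le_rfl ?_
    change (6 : ℝ) ^ g.r / 3 * (6 ^ h.r / 3) ≤ 6 ^ (g.r + h.r) / 3
    rw [pow_add]
    have h3 := ShSk_six g
    have h4 := ShSk_six h
    have h5 : (0 : ℝ) ≤ 6 ^ g.r * 6 ^ h.r := by positivity
    linarith
  | or g h ihg ihh =>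
    have h1 := ihg (ShSk_left hg)
    have h2 := ihh (ShSk_right hg)
    refine W.gr_mono (W.gr_sub hL (W.gr_add hL (W.gr_mono h1 (Nat.le_add_right g.r h.r) le_rfl)
      (W.gr_mono h2 (Nat.le_add_left h.r g.r) le_rfl)) (W.gr_mul hL h1 h2)) le_rfl ?_
    change (6 : ℝ) ^ g.r / 3 + 6 ^ h.r / 3 + 6 ^ g.r / 3 * (6 ^ h.r / 3) ≤ 6 ^ (g.r + h.r) / 3
    rw [pow_add]
    have h3 := ShSk_six g
    have h4 := ShSk_six h
    nlinarith

theorem sk_idem {v : Fm Λ → R} {τ c L T : ℕ} {η : ℝ} (hv : W.IsVal v τ c η L) (hη0 : 0 ≤ η)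
    (hη : η ≤ 1 / 1000) (hD : L + 2 * c ≤ W.D) (g : Sk (Fm Λ)) (hg : ∀ i, (g.lab i).size ≤ τ) :
    ∃ Δ : PowerSeries R, g.val (fun B => rh (v B)) * g.val (fun B => rh (v B)) -
      g.val (fun B => rh (v B)) = (1 - PowerSeries.X) * Δ ∧ W.Gr c L T (2 * g.r) (36 ^ g.r) Δ := by
  have hL : L ≤ W.D := by omega
  induction g with
  | leaf a =>
    refine ⟨rhΔ (v a), rh_idem (v a), ?_⟩
    have h1 := W.rhΔ_gr (T := T) hη0 hη hD (hv.bit a (hg ⟨0, Nat.one_pos⟩))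
    exact W.gr_mono h1 le_rfl (by change (2 : ℝ) * η ≤ 36 ^ 1; linarith)
  | and g h ihg ihh =>
    obtain ⟨Δ₁, e1, d1⟩ := ihg (ShSk_left hg)
    obtain ⟨Δ₂, e2, d2⟩ := ihh (ShSk_right hg)
    have g1 := W.sk_gr (T := T) hv hη0 hη hD g (ShSk_left hg)
    have g2 := W.sk_gr (T := T) hv hη0 hη hD h (ShSk_right hg)
    obtain ⟨Y, hY⟩ : ∃ Y, Y = g.val (fun B => rh (v B)) := ⟨_, rfl⟩
    obtain ⟨Z, hZ⟩ : ∃ Z, Z = h.val (fun B => rh (v B)) := ⟨_, rfl⟩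
    rw [← hY] at e1 g1
    rw [← hZ] at e2 g2
    refine ⟨Δ₁ * (Z * Z) + Y * Δ₂, ?_, ?_⟩
    · change g.val (fun B => rh (v B)) * h.val (fun B => rh (v B)) *
        (g.val (fun B => rh (v B)) * h.val (fun B => rh (v B))) -
        g.val (fun B => rh (v B)) * h.val (fun B => rh (v B)) = _
      rw [← hY, ← hZ, mul_add, ← mul_assoc (1 - PowerSeries.X) Δ₁, ← e1,
        show (1 - PowerSeries.X) * (Y * Δ₂) = Y * ((1 - PowerSeries.X) * Δ₂) by ring, ← e2]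
      ring
    · have a1 := W.gr_mul hL d1 (W.gr_mul hL g2 g2)
      have a2 := W.gr_mul hL g1 d2
      refine W.gr_mono (W.gr_add hL (W.gr_mono a1
        (show 2 * g.r + (h.r + h.r) ≤ 2 * (g.r + h.r) by omega) le_rfl) (W.gr_mono a2
        (show g.r + 2 * h.r ≤ 2 * (g.r + h.r) by omega) le_rfl)) le_rfl ?_
      change (36 : ℝ) ^ g.r * (6 ^ h.r / 3 * (6 ^ h.r / 3)) + 6 ^ g.r / 3 * 36 ^ h.r ≤
        36 ^ (g.r + h.r)
      rw [pow_add, show (36 : ℝ) = 6 * 6 by norm_num, mul_pow, mul_pow]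
      have h3 := ShSk_six g
      have h4 := ShSk_six h
      have h5 : (0 : ℝ) < 6 ^ g.r := by positivity
      have h6 : (0 : ℝ) < 6 ^ h.r * 6 ^ h.r := by positivity
      have h7 : (6 : ℝ) ^ g.r * (6 ^ h.r * 6 ^ h.r) ≤
          6 ^ g.r * 6 ^ g.r * (6 ^ h.r * 6 ^ h.r) := by
        refine mul_le_mul_of_nonneg_right ?_ h6.le
        nlinarith
      nlinarith
  | or g h ihg ihh =>
    obtain ⟨Δ₁, e1, d1⟩ := ihg (ShSk_left hg)
    obtain ⟨Δ₂, e2, d2⟩ := ihh (ShSk_right hg)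
    have g1 := W.sk_gr (T := T) hv hη0 hη hD g (ShSk_left hg)
    have g2 := W.sk_gr (T := T) hv hη0 hη hD h (ShSk_right hg)
    obtain ⟨Y, hY⟩ : ∃ Y, Y = g.val (fun B => rh (v B)) := ⟨_, rfl⟩
    obtain ⟨Z, hZ⟩ : ∃ Z, Z = h.val (fun B => rh (v B)) := ⟨_, rfl⟩
    rw [← hY] at e1 g1
    rw [← hZ] at e2 g2
    have g1' := W.gr_sub hL (W.gr_mono (W.gr_one (c := c) (L := L) (T := T)) (Nat.zero_le g.r)
      le_rfl) g1
    have g2' := W.gr_sub hL (W.gr_mono (W.gr_one (c := c) (L := L) (T := T)) (Nat.zero_le h.r)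
      le_rfl) g2
    refine ⟨Δ₁ * ((1 - Z) * (1 - Z)) + (1 - Y) * Δ₂, ?_, ?_⟩
    · change (g.val (fun B => rh (v B)) + h.val (fun B => rh (v B)) -
          g.val (fun B => rh (v B)) * h.val (fun B => rh (v B))) *
        (g.val (fun B => rh (v B)) + h.val (fun B => rh (v B)) -
          g.val (fun B => rh (v B)) * h.val (fun B => rh (v B))) -
        (g.val (fun B => rh (v B)) + h.val (fun B => rh (v B)) -
          g.val (fun B => rh (v B)) * h.val (fun B => rh (v B))) = _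
      rw [← hY, ← hZ, mul_add, ← mul_assoc (1 - PowerSeries.X) Δ₁, ← e1,
        show (1 - PowerSeries.X) * ((1 - Y) * Δ₂) = (1 - Y) * ((1 - PowerSeries.X) * Δ₂) by ring,
        ← e2]
      ring
    · have a1 := W.gr_mul hL d1 (W.gr_mul hL g2' g2')
      have a2 := W.gr_mul hL g1' d2
      refine W.gr_mono (W.gr_add hL (W.gr_mono a1
        (show 2 * g.r + (h.r + h.r) ≤ 2 * (g.r + h.r) by omega) le_rfl) (W.gr_mono a2
        (show g.r + 2 * h.r ≤ 2 * (g.r + h.r) by omega) le_rfl)) le_rfl ?_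
      change (36 : ℝ) ^ g.r * ((1 + 6 ^ h.r / 3) * (1 + 6 ^ h.r / 3)) +
        (1 + 6 ^ g.r / 3) * 36 ^ h.r ≤ 36 ^ (g.r + h.r)
      rw [pow_add, show (36 : ℝ) = 6 * 6 by norm_num, mul_pow, mul_pow]
      have h3 := ShSk_six g
      have h4 := ShSk_six h
      generalize (6 : ℝ) ^ g.r = x at h3 ⊢
      generalize (6 : ℝ) ^ h.r = y at h4 ⊢
      have h5 : (1 + y / 3) * (1 + y / 3) ≤ y * y / 4 := by nlinarith
      have h6 : 1 + x / 3 ≤ x * x / 12 := by nlinarith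
      have h7 : x * x * ((1 + y / 3) * (1 + y / 3)) ≤ x * x * (y * y / 4) :=
        mul_le_mul_of_nonneg_left h5 (by positivity)
      have h8 : (1 + x / 3) * (y * y) ≤ x * x / 12 * (y * y) :=
        mul_le_mul_of_nonneg_right h6 (by positivity)
      have h9 : 0 ≤ x * x * (y * y) := by positivity
      nlinarith

end Pool.Agent.MP_9cec2c_lc.SL.World
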