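import Pool.Agent.Lib.MP_9cec2c_lc.SL.ShGate

/-!
TASK ShTop: the rounded valuation. `T = 64 l`, `J = T`, `X_A = (rep τ A).sk.val (rh ∘ v)`,
`P_A = Tr T X_A = topv v τ l A`. `sk.r ≤ 8 l` and labels of size `≤ τ` (`rep_sk_r`, `rep_sk_lab`), so
`|X_A| ≤ 6^(8l)`, type `8l` (`sk_gr`, `gr_mono`).
* values of `tt`, `ff`: `rep = cl`, `rh 1 = 1`, `rh 0 = 0` (`rh_exact`), `Tr` of a constant.
* membership: `tr_mem`: degree `≤ c (128 l + 8 l) ≤ 200 l c`.
* bit: `P² - P = (P² - Tr (X²)) + Tr (X² - X)`; `tr_mul` (`≤ 36^(8l) 2^(-T)`), `sk_idem` and `tr_top`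
  (`≤ 36^(8l) 2^(-T)`).
* and: `P_{A∧B} - P_A P_B = Tr (X_{A∧B} - X_A X_B) + (Tr (X_A X_B) - P_A P_B)`: `sh_and` with `eqv_tr`, and
  `tr_mul`. The bound is at most `1000 · 36^(8l) (2^(-T) + 2^(-2T-1)) + 36^(8l) 2^(-T) ≤ 3000 · 36^(8l) 2^(-64l)`
  and `36^8 ≤ 2^42`, `3000 ≤ 2^12`: `≤ 2^(12 + 42 l - 64 l) ≤ 2^(-l)` as `l ≥ 1`.
* or: the same with `X_A + X_B - X_A X_B`.
Degrees: all conditions `l' + c (4T + 2 · 8l) ≤ L`, `l' + c (2 T + 16 l + 4 J + 20) ≤ L` follow from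
`L' + 1000 l c ≤ L` (`2·64 + 16 + 256 + 20 = 420`).
`topv_lit`: `rep τ (lit y) = cl`, `tr_rh_exact`.
-/

set_option autoImplicit false

open Finset

namespace Pool.Agent.MP_9cec2c_lc.SL.World

variable {R : Type} [CommRing R] [Algebra ℝ R] (W : World R) {Λ : Type}

theorem topv_lit {v : Fm Λ → R} (τ l : ℕ) (y : Λ) (hy : v (Fm.lit y) * v (Fm.lit y) = v (Fm.lit y)) :
    topv v τ l (Fm.lit y) = v (Fm.lit y) := by
  show Tr (64 * l) (rh (v (Fm.lit y))) = _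
  exact tr_rh_exact hy _

omit [Algebra ℝ R] in
private theorem ShTop_add (T : ℕ) (X Y : PowerSeries R) : Tr T (X + Y) = Tr T X + Tr T Y := by
  unfold Tr
  rw [← Finset.sum_add_distrib]
  exact Finset.sum_congr rfl (fun t _ => map_add _ _ _)

omit [Algebra ℝ R] in
private theorem ShTop_sub (T : ℕ) (X Y : PowerSeries R) : Tr T (X - Y) = Tr T X - Tr T Y := by
  unfold Tr
  rw [← Finset.sum_sub_distrib]
  exact Finset.sum_congr rfl (fun t _ => map_sub _ _ _)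

private theorem ShTop_num {l : ℕ} (hl : 1 ≤ l) :
    3000 * ((36 : ℝ) ^ (8 * l) * (1 / 2) ^ (64 * l)) ≤ (1 / 2) ^ l := by
  have h1 : (36 : ℝ) ^ (8 * l) * (1 / 2) ^ (64 * l) = (36 ^ 8 * (1 / 2) ^ 64) ^ l := by
    rw [pow_mul, pow_mul, ← mul_pow]
  have h2 : (36 ^ 8 * (1 / 2) ^ 64 : ℝ) ≤ (1 / 2) ^ 21 * (1 / 2) := by norm_num
  have h3 : (36 ^ 8 * (1 / 2) ^ 64 : ℝ) ^ l ≤ ((1 / 2) ^ 21) ^ l * (1 / 2) ^ l := by
    rw [← mul_pow]
    exact pow_le_pow_left₀ (by positivity) h2 l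
  have h4 : ((1 / 2 : ℝ) ^ 21) ^ l ≤ (1 / 2) ^ 21 :=
    pow_le_of_le_one (by positivity) (by norm_num) (by omega)
  have h5 : (0 : ℝ) < (1 / 2) ^ l := by positivity
  rw [h1]
  calc 3000 * (36 ^ 8 * (1 / 2) ^ 64 : ℝ) ^ l ≤ 3000 * (((1 / 2) ^ 21) ^ l * (1 / 2) ^ l) := by
        exact mul_le_mul_of_nonneg_left h3 (by norm_num)
    _ ≤ 3000 * ((1 / 2) ^ 21 * (1 / 2) ^ l) := by
        exact mul_le_mul_of_nonneg_left (mul_le_mul_of_nonneg_right h4 h5.le) (by norm_num)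
    _ = (3000 * (1 / 2) ^ 21) * (1 / 2) ^ l := by ring
    _ ≤ 1 * (1 / 2) ^ l := mul_le_mul_of_nonneg_right (by norm_num) h5.le
    _ = (1 / 2) ^ l := one_mul _

private theorem ShTop_gr {v : Fm Λ → R} {τ c L l : ℕ} {η : ℝ} (hv : W.IsVal v τ c η L) (hτ : 1 ≤ τ)
    (hl : 1 ≤ l) (hη0 : 0 ≤ η) (hη : η ≤ 1 / 1000) (hD : L + 2 * c ≤ W.D) (A : Fm Λ)
    (hA : A.size ≤ l * τ) :
    W.Gr c L (64 * l) (8 * l) (6 ^ (8 * l) / 3) ((rep τ A).sk.val (fun B => rh (v B))) := by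
  have hr := rep_sk_r hτ hl A hA
  refine W.gr_mono (W.sk_gr hv hη0 hη hD _ (rep_sk_lab hτ A)) hr ?_
  have : (6 : ℝ) ^ (rep τ A).sk.r ≤ 6 ^ (8 * l) := pow_le_pow_right₀ (by norm_num) hr
  linarith

private theorem ShTop_mem {c L l : ℕ} {X : PowerSeries R}
    (hX : W.Gr c L (64 * l) (8 * l) (6 ^ (8 * l) / 3) X) :
    Tr (64 * l) X ∈ W.F (200 * l * c) := by
  refine W.F_mono _ _ ?_ (W.tr_mem hX)
  nlinarith [Nat.zero_le (l * c)]

private theorem ShTop_mul {c L L' l : ℕ} (hL' : L ≤ W.D) (hL : L' + 1000 * l * c ≤ L)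
    {X Y : PowerSeries R}
    (hX : W.Gr c L (64 * l) (8 * l) (6 ^ (8 * l) / 3) X)
    (hY : W.Gr c L (64 * l) (8 * l) (6 ^ (8 * l) / 3) Y) {f : R} (hf : f ∈ W.F L') :
    W.N ((Tr (64 * l) X * Tr (64 * l) Y - Tr (64 * l) (X * Y)) * f) ≤
      36 ^ (8 * l) * (1 / 2) ^ (64 * l) * W.N f ∧
    (Tr (64 * l) X * Tr (64 * l) Y - Tr (64 * l) (X * Y)) * f ∈ W.F W.D ∧
    Tr (64 * l) (X * Y) * f ∈ W.F W.D := by
  have hl0 : L' + c * (4 * (64 * l) + 8 * l + 8 * l) ≤ L := by nlinarith [Nat.zero_le (l * c)]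
  have hXY := W.gr_mul hL' hX hY
  have hm2 : Tr (64 * l) (X * Y) * f ∈ W.F W.D := by
    have h1 := W.mul_mem _ _ _ _ (W.tr_mem hXY) hf
    refine W.F_mono _ _ ?_ h1
    nlinarith [Nat.zero_le (l * c)]
  refine ⟨?_, ?_, hm2⟩
  · refine (W.tr_mul hL' hX hY hl0 hf).trans ?_
    have h1 : (6 : ℝ) ^ (8 * l) / 3 * (6 ^ (8 * l) / 3) ≤ 36 ^ (8 * l) := by
      have h2 : (6 : ℝ) ^ (8 * l) * 6 ^ (8 * l) = 36 ^ (8 * l) := by
        rw [← mul_pow]; norm_num
      have h3 : (0 : ℝ) < 36 ^ (8 * l) := by positivity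
      nlinarith
    exact mul_le_mul_of_nonneg_right (mul_le_mul_of_nonneg_right h1 (by positivity)) (W.N_nonneg f)
  · rw [sub_mul]
    refine Submodule.sub_mem _ ?_ hm2
    have h1 := W.mul_mem _ _ _ _ (W.mul_mem _ _ _ _ (W.tr_mem hX) (W.tr_mem hY)) hf
    refine W.F_mono _ _ ?_ h1
    nlinarith [Nat.zero_le (l * c)]

theorem top {v : Fm Λ → R} {τ c L L' l : ℕ} {η : ℝ} (hv : W.IsVal v τ c η L) (hτ : 1 ≤ τ)
    (hl : 1 ≤ l) (hη0 : 0 ≤ η) (hη : η ≤ 1 / 1000) (hD : L + 2 * c ≤ W.D)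
    (hL : L' + 1000 * l * c ≤ L) :
    W.IsVal (topv v τ l) (l * τ) (200 * l * c) ((1 / 2) ^ l) L' := by
  have hL' : L ≤ W.D := by omega
  have hnum := ShTop_num hl
  have hK0 : (0 : ℝ) < 36 ^ (8 * l) * (1 / 2) ^ (64 * l) := by positivity
  have hK1 : (36 : ℝ) ^ (8 * l) * (1 / 2) ^ (2 * (64 * l) + 1) ≤ 36 ^ (8 * l) * (1 / 2) ^ (64 * l) := by
    refine mul_le_mul_of_nonneg_left ?_ (by positivity)
    exact pow_le_pow_of_le_one (by norm_num) (by norm_num) (by omega)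
  have hgr := fun A hA => W.ShTop_gr hv hτ hl hη0 hη hD A hA
  have hmemf : ∀ {X : PowerSeries R}, W.Gr c L (64 * l) (8 * l) (6 ^ (8 * l) / 3) X →
      ∀ {f : R}, f ∈ W.F L' → Tr (64 * l) X * f ∈ W.F W.D := by
    intro X hX f hf
    have h1 := W.mul_mem _ _ _ _ (W.ShTop_mem hX) hf
    refine W.F_mono _ _ ?_ h1
    nlinarith [Nat.zero_le (l * c)]
  have hdeg : L' + c * (2 * (64 * l) + (16 * l + 4 * (64 * l) + 20)) ≤ L := by
    nlinarith [Nat.zero_le (l * c), Nat.mul_le_mul_right c hl]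
  refine ⟨?_, ?_, ?_, ?_, ?_⟩
  · show Tr (64 * l) (rh (v Fm.tt)) = 1
    rw [hv.v_tt]
    exact tr_rh_exact (one_mul 1) _
  · show Tr (64 * l) (rh (v Fm.ff)) = 0
    rw [hv.v_ff]
    exact tr_rh_exact (mul_zero 0) _
  · intro A hA
    have hX := hgr A hA
    refine ⟨W.ShTop_mem hX, fun f hf => ?_⟩
    obtain ⟨Δ, hΔ1, hΔ2⟩ := W.sk_idem (T := 64 * l) hv hη0 hη hD _ (rep_sk_lab hτ A)
    have hr := rep_sk_r hτ hl A hA
    have hΔ3 : W.Gr c L (64 * l) (16 * l) (36 ^ (8 * l)) Δ :=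
      W.gr_mono hΔ2 (by omega) (pow_le_pow_right₀ (by norm_num) hr)
    have e1 := W.ShTop_mul hL' hL hX hX hf
    have e2 := W.tr_top hL' hΔ3 (l := L') (by nlinarith [Nat.zero_le (l * c)]) hf
    rw [← hΔ1, ShTop_sub] at e2
    have e3 : (topv v τ l A * topv v τ l A - topv v τ l A) * f =
        (Tr (64 * l) ((rep τ A).sk.val (fun B => rh (v B))) *
          Tr (64 * l) ((rep τ A).sk.val (fun B => rh (v B))) -
          Tr (64 * l) ((rep τ A).sk.val (fun B => rh (v B)) *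
            (rep τ A).sk.val (fun B => rh (v B)))) * f +
        (Tr (64 * l) ((rep τ A).sk.val (fun B => rh (v B)) *
            (rep τ A).sk.val (fun B => rh (v B))) -
          Tr (64 * l) ((rep τ A).sk.val (fun B => rh (v B)))) * f := by
      unfold topv; ring
    rw [e3]
    refine (W.N_add e1.2.1 ?_).trans ?_
    · rw [sub_mul]
      exact Submodule.sub_mem _ e1.2.2 (hmemf hX hf)
    · have hN := W.N_nonneg f
      calc _ ≤ 36 ^ (8 * l) * (1 / 2) ^ (64 * l) * W.N f +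
            36 ^ (8 * l) * (1 / 2) ^ (64 * l) * W.N f := add_le_add e1.1 e2
        _ = (2 * (36 ^ (8 * l) * (1 / 2) ^ (64 * l))) * W.N f := by ring
        _ ≤ (1 / 2) ^ l * W.N f := mul_le_mul_of_nonneg_right (by linarith) hN
  · intro A B hAB f hf
    have hX := hgr A (by omega)
    have hY := hgr B (by omega)
    have hZ := hgr (A.and B) hAB
    have e1 := W.ShTop_mul hL' hL hX hY hf
    have e2 := W.eqv_tr hL' (W.sh_and (T := 64 * l) hv hτ hl hη0 hη hD A B hAB (64 * l)) hdeg hf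
    have e3 : (topv v τ l (A.and B) - topv v τ l A * topv v τ l B) * f =
        (Tr (64 * l) ((rep τ (A.and B)).sk.val (fun B => rh (v B))) -
          Tr (64 * l) ((rep τ A).sk.val (fun B => rh (v B)) *
            (rep τ B).sk.val (fun B => rh (v B)))) * f -
        (Tr (64 * l) ((rep τ A).sk.val (fun B => rh (v B))) *
          Tr (64 * l) ((rep τ B).sk.val (fun B => rh (v B))) -
          Tr (64 * l) ((rep τ A).sk.val (fun B => rh (v B)) *
            (rep τ B).sk.val (fun B => rh (v B)))) * f := by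
      unfold topv; ring
    rw [e3]
    refine (W.N_sub ?_ e1.2.1).trans ?_
    · rw [sub_mul]
      exact Submodule.sub_mem _ (hmemf hZ hf) e1.2.2
    · have hN := W.N_nonneg f
      calc _ ≤ (1000 * 36 ^ (8 * l) * (1 / 2) ^ (64 * l) +
            1000 * 36 ^ (8 * l) * (1 / 2) ^ (2 * (64 * l) + 1)) * W.N f +
            36 ^ (8 * l) * (1 / 2) ^ (64 * l) * W.N f := add_le_add e2 e1.1
        _ = (1001 * (36 ^ (8 * l) * (1 / 2) ^ (64 * l)) +
            1000 * (36 ^ (8 * l) * (1 / 2) ^ (2 * (64 * l) + 1))) * W.N f := by ring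
        _ ≤ (1 / 2) ^ l * W.N f := mul_le_mul_of_nonneg_right (by linarith) hN
  · intro A B hAB f hf
    have hX := hgr A (by omega)
    have hY := hgr B (by omega)
    have hZ := hgr (A.or B) hAB
    have e1 := W.ShTop_mul hL' hL hX hY hf
    have e2 := W.eqv_tr hL' (W.sh_or (T := 64 * l) hv hτ hl hη0 hη hD A B hAB (64 * l)) hdeg hf
    rw [ShTop_sub, ShTop_add] at e2
    have e3 : (topv v τ l (A.or B) - (topv v τ l A + topv v τ l B - topv v τ l A * topv v τ l B)) * f =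
        (Tr (64 * l) ((rep τ (A.or B)).sk.val (fun B => rh (v B))) -
          (Tr (64 * l) ((rep τ A).sk.val (fun B => rh (v B))) +
            Tr (64 * l) ((rep τ B).sk.val (fun B => rh (v B))) -
          Tr (64 * l) ((rep τ A).sk.val (fun B => rh (v B)) *
            (rep τ B).sk.val (fun B => rh (v B))))) * f +
        (Tr (64 * l) ((rep τ A).sk.val (fun B => rh (v B))) *
          Tr (64 * l) ((rep τ B).sk.val (fun B => rh (v B))) -
          Tr (64 * l) ((rep τ A).sk.val (fun B => rh (v B)) *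
            (rep τ B).sk.val (fun B => rh (v B)))) * f := by
      unfold topv; ring
    rw [e3]
    refine (W.N_add ?_ e1.2.1).trans ?_
    · have e4 : (Tr (64 * l) ((rep τ (A.or B)).sk.val (fun B => rh (v B))) -
          (Tr (64 * l) ((rep τ A).sk.val (fun B => rh (v B))) +
            Tr (64 * l) ((rep τ B).sk.val (fun B => rh (v B))) -
          Tr (64 * l) ((rep τ A).sk.val (fun B => rh (v B)) *
            (rep τ B).sk.val (fun B => rh (v B))))) * f =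
          Tr (64 * l) ((rep τ (A.or B)).sk.val (fun B => rh (v B))) * f -
          (Tr (64 * l) ((rep τ A).sk.val (fun B => rh (v B))) * f +
            Tr (64 * l) ((rep τ B).sk.val (fun B => rh (v B))) * f -
          Tr (64 * l) ((rep τ A).sk.val (fun B => rh (v B)) *
            (rep τ B).sk.val (fun B => rh (v B))) * f) := by ring
      rw [e4]
      exact Submodule.sub_mem _ (hmemf hZ hf) (Submodule.sub_mem _
        (Submodule.add_mem _ (hmemf hX hf) (hmemf hY hf)) e1.2.2)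
    · have hN := W.N_nonneg f
      calc _ ≤ (1000 * 36 ^ (8 * l) * (1 / 2) ^ (64 * l) +
            1000 * 36 ^ (8 * l) * (1 / 2) ^ (2 * (64 * l) + 1)) * W.N f +
            36 ^ (8 * l) * (1 / 2) ^ (64 * l) * W.N f := add_le_add e2 e1.1
        _ = (1001 * (36 ^ (8 * l) * (1 / 2) ^ (64 * l)) +
            1000 * (36 ^ (8 * l) * (1 / 2) ^ (2 * (64 * l) + 1))) * W.N f := by ring
        _ ≤ (1 / 2) ^ l * W.N f := mul_le_mul_of_nonneg_right (by linarith) hN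

end Pool.Agent.MP_9cec2c_lc.SL.World
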