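import Pool.Agent.Lib.MP_9cec2c_lc.SL.Rl

/-!
TASK Tele: telescoping of products.
`a I b I - a 0 b 0 = ∑_{i<I} [(a (i+1) - a i) b (i+1) + a i (b (i+1) - b i)]`, all elements of the `i`-th
term belong to `F (2^(i+1) c')`, so its norm is at most `K^(2^(i+1) c') (σ i β + β σ i)` by `hHC` (all in
`F D`: products have degree `≤ 2 · 2^I c' ≤ D`).
`geo`: `∑_{i<I} x^(2^i c) ≤ 2 x^c` for `0 ≤ x ≤ 1/2`, `1 ≤ c`: `x^(2^i c) ≤ x^(c + i)` (`2^i c ≥ c + i`,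
`x ≤ 1`) `≤ x^c 2^(-i)`.
-/

set_option autoImplicit false

open Finset

namespace Pool.Agent.MP_9cec2c_lc.SL

theorem geo {x : ℝ} (h0 : 0 ≤ x) (h1 : x ≤ 1 / 2) {c : ℕ} (hc : 1 ≤ c) (I : ℕ) :
    ∑ i ∈ range I, x ^ (2 ^ i * c) ≤ 2 * x ^ c := by
  have hx1 : x ≤ 1 := by linarith
  have hterm : ∀ i ∈ range I, x ^ (2 ^ i * c) ≤ x ^ c * (1 / 2 : ℝ) ^ i := by
    intro i _
    have h2 : i + 1 ≤ 2 ^ i := Nat.lt_two_pow_self
    have hexp : c + i ≤ 2 ^ i * c := by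
      have h3 : (i + 1) * c ≤ 2 ^ i * c := Nat.mul_le_mul_right c h2
      have h4 : i * 1 ≤ i * c := Nat.mul_le_mul_left i hc
      have h5 : (i + 1) * c = i * c + c := by ring
      omega
    calc x ^ (2 ^ i * c) ≤ x ^ (c + i) := pow_le_pow_of_le_one h0 hx1 hexp
      _ = x ^ c * x ^ i := pow_add x c i
      _ ≤ x ^ c * (1 / 2 : ℝ) ^ i :=
          mul_le_mul_of_nonneg_left (pow_le_pow_left₀ h0 h1 i) (pow_nonneg h0 c)
  calc ∑ i ∈ range I, x ^ (2 ^ i * c) ≤ ∑ i ∈ range I, x ^ c * (1 / 2 : ℝ) ^ i :=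
        Finset.sum_le_sum hterm
    _ = x ^ c * ∑ i ∈ range I, (1 / 2 : ℝ) ^ i := by rw [Finset.mul_sum]
    _ ≤ x ^ c * 2 := mul_le_mul_of_nonneg_left (sum_geometric_two_le I) (pow_nonneg h0 c)
    _ = 2 * x ^ c := by ring

variable {R : Type} [CommRing R] [Algebra ℝ R] (W : World R)

theorem World.tele {K : ℝ} (hK : 1 ≤ K) {c' I : ℕ} (hD : 2 * (2 ^ I * c') ≤ W.D)
    (hHC : W.HC K (2 ^ I * c')) (a b : ℕ → R) (ha : ∀ i ≤ I, a i ∈ W.F (2 ^ i * c'))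
    (hb : ∀ i ≤ I, b i ∈ W.F (2 ^ i * c')) {σ : ℕ → ℝ} {β : ℝ} (haβ : ∀ i ≤ I, W.N (a i) ≤ β)
    (hbβ : ∀ i ≤ I, W.N (b i) ≤ β) (hσa : ∀ i < I, W.N (a (i + 1) - a i) ≤ σ i)
    (hσb : ∀ i < I, W.N (b (i + 1) - b i) ≤ σ i) :
    W.N (a I * b I - a 0 * b 0) ≤ ∑ i ∈ range I, K ^ (2 ^ (i + 1) * c') * (2 * σ i * β) := by
  have hpow : ∀ i j : ℕ, i ≤ j → 2 ^ i * c' ≤ 2 ^ j * c' := fun i j hij =>
    Nat.mul_le_mul_right c' (Nat.pow_le_pow_right (by norm_num) hij)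
  have hprod : ∀ i ≤ I, ∀ f ∈ W.F (2 ^ i * c'), ∀ g ∈ W.F (2 ^ i * c'), f * g ∈ W.F W.D := by
    intro i hi f hf g hg
    refine W.F_mono _ _ ?_ (W.mul_mem _ _ f g hf hg)
    have := hpow i I hi
    omega
  have key : ∀ J ≤ I, W.N (a J * b J - a 0 * b 0) ≤
      ∑ i ∈ range J, K ^ (2 ^ (i + 1) * c') * (2 * σ i * β) := by
    intro J
    induction J with
    | zero =>
      intro _
      rw [sub_self, W.N_zero, Finset.sum_range_zero]
    | succ J ih =>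
      intro hJ
      have hJ' : J ≤ I := by omega
      have hJI : J < I := by omega
      have haJ : a J ∈ W.F (2 ^ (J + 1) * c') :=
        W.F_mono _ _ (hpow J (J + 1) (Nat.le_succ J)) (ha J hJ')
      have hbJ : b J ∈ W.F (2 ^ (J + 1) * c') :=
        W.F_mono _ _ (hpow J (J + 1) (Nat.le_succ J)) (hb J hJ')
      have hda : a (J + 1) - a J ∈ W.F (2 ^ (J + 1) * c') := Submodule.sub_mem _ (ha _ hJ) haJ
      have hdb : b (J + 1) - b J ∈ W.F (2 ^ (J + 1) * c') := Submodule.sub_mem _ (hb _ hJ) hbJ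
      have hσ0 : 0 ≤ σ J := le_trans (W.N_nonneg _) (hσa J hJI)
      have hβ0 : 0 ≤ β := le_trans (W.N_nonneg _) (haβ J hJ')
      have hK0 : 0 ≤ K ^ (2 ^ (J + 1) * c') := pow_nonneg (by linarith) _
      have t1 : W.N ((a (J + 1) - a J) * b (J + 1)) ≤ K ^ (2 ^ (J + 1) * c') * (σ J * β) :=
        le_trans (hHC _ (hpow _ _ hJ) _ hda _ (hb _ hJ))
          (mul_le_mul_of_nonneg_left
            (mul_le_mul (hσa J hJI) (hbβ _ hJ) (W.N_nonneg _) hσ0) hK0)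
      have t2 : W.N (a J * (b (J + 1) - b J)) ≤ K ^ (2 ^ (J + 1) * c') * (β * σ J) :=
        le_trans (hHC _ (hpow _ _ hJ) _ haJ _ hdb)
          (mul_le_mul_of_nonneg_left
            (mul_le_mul (haβ J hJ') (hσb J hJI) (W.N_nonneg _) hβ0) hK0)
      have m1 := hprod (J + 1) hJ _ hda _ (hb _ hJ)
      have m2 := hprod (J + 1) hJ _ haJ _ hdb
      have m3 : a J * b J - a 0 * b 0 ∈ W.F W.D :=
        Submodule.sub_mem _ (hprod J hJ' _ (ha J hJ') _ (hb J hJ'))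
          (hprod 0 (Nat.zero_le I) _ (ha 0 (Nat.zero_le I)) _ (hb 0 (Nat.zero_le I)))
      have e : a (J + 1) * b (J + 1) - a 0 * b 0 = (a J * b J - a 0 * b 0) +
          ((a (J + 1) - a J) * b (J + 1) + a J * (b (J + 1) - b J)) := by ring
      rw [e, Finset.sum_range_succ]
      refine le_trans (W.N_add m3 (Submodule.add_mem _ m1 m2)) ?_
      refine add_le_add (ih hJ') ?_
      refine le_trans (W.N_add m1 m2) ?_
      have e2 : K ^ (2 ^ (J + 1) * c') * (2 * σ J * β) =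
          K ^ (2 ^ (J + 1) * c') * (σ J * β) + K ^ (2 ^ (J + 1) * c') * (β * σ J) := by ring
      rw [e2]
      exact add_le_add t1 t2
  exact key I le_rfl

end Pool.Agent.MP_9cec2c_lc.SL
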