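import Pool.Agent.Lib.MP_9cec2c_lc.SL.Select
import Pool.Agent.Lib.MP_9cec2c_lc.SL.Tele
import Pool.Agent.Lib.MP_9cec2c_lc.SL.HypB

/-!
TASK Stage: one stage. `k i = 2^i c'`, `τ i = θ^(2 k i)` (so `√(τ i) = θ^(k i)`), `n' = |V'|`,
`K = 2^(8Δ+46)`. Let `J` be the type of the relations `ρ : Rl ι` with `nrm (ρ.ev a) ≤ ε` (a subtype of
`Rl ι`; `|J| ≤ z + z² + z³ ≤ 3 z³`, `z = |ι|`, `1 ≤ z`), so `2 (z (I+1) + |J|) ≤ Q := 8 z³ (I+1)`. The defect of
a relation belongs to `Fd (2c)`. Take `Y` (`exists_repSet`), `α` (`repSet_approx`), and apply `select`: get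
`ω`, `x`; `R = res x`, `γ' = chg γ x`, `N = H.nrm γ'`, and put `b_A = R a_A ∈ Fd (κ c)`,
`b_A^i = R (∑_{S ∈ Y, wt (y S) < k i} α A S χ_S) ∈ Fd (k i)` for `i < I` (`res_chi`), `b_A^i = b_A` for `i ≥ I`
(`κ c ≤ 2^I c'`), `a'_A = b_A^0` (here `I ≥ 1` is used). World of `H` with the charges `γ'` and of height
`D = 2 · 2^I c'`: `8 D < n'`; `HC K (2^I c')` is `nrm_mul` (`32 · 2^I c' < n'`).
With `q = √Q ≥ 1`: `N b_A ≤ q B`, `N (b_A - b_A^i) ≤ q θ^(k i) B` for `i < I`, `N (R ρ) ≤ q ε`;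
`N b_A^i ≤ 2 q B =: β`; for `i < I`: `N (b_A^(i+1) - b_A^i) ≤ 2 q θ^(k i) B =: σ i` (`θ^(k (i+1)) ≤ θ^(k i)`).
* `N a'_A ≤ 2 q B`.
* linear relations: `N (a'_A - 1) ≤ N (R (a_A - 1)) + N (b_A - a'_A) ≤ q ε + q B θ^c'`; for
  `a_A + a_B - 1`: `≤ q ε + 2 q B θ^c'`.
* products: `a'_C - a'_A a'_B = (a'_C - b_C) + (b_C - b_A b_B) + (b_A^I b_B^I - b_A^0 b_B^0)`, norm at most
  `q B θ^c' + q ε + ∑_{i<I} K^(2 k i) · 2 · (2 q θ^(k i) B)(2 q B)` (`tele`)
  `≤ q B θ^c' + q ε + 8 Q B² · 2 (K² θ)^c'` (`geo` with `x = K² θ ≤ 1/2`).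
All are `≤ 20 Q B² (ε + (K² θ)^c')` since `B, q, K ≥ 1`, `θ ≤ K² θ`.
`∑ γ' = ∑ γ`: `sum_chg`.
-/

set_option autoImplicit false

open Finset
open scoped Classical

namespace Pool.Agent.MP_9cec2c_lc.SL

private theorem Stage_abs {R : Type} [CommRing R] [Algebra ℝ R] (W : World R) {ι : Type}
    {K θ q B ε : ℝ} {c' I : ℕ} (hK : 1 ≤ K) (hθ : 0 < θ) (hθ1 : K ^ 2 * θ ≤ 1 / 2) (hq : 1 ≤ q)
    (hB : 1 ≤ B) (hε : 0 < ε) (hc1 : 1 ≤ c') (hI : 1 ≤ I) (hD : 2 * (2 ^ I * c') ≤ W.D)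
    (hHC : W.HC K (2 ^ I * c')) (b : ι → R) (t : ℕ → ι → R) (hb : ∀ A, b A ∈ W.F (2 ^ I * c'))
    (ht : ∀ i < I, ∀ A, t i A ∈ W.F (2 ^ i * c')) (hbB : ∀ A, W.N (b A) ≤ q * B)
    (htB : ∀ i < I, ∀ A, W.N (b A - t i A) ≤ q * θ ^ (2 ^ i * c') * B) :
    (∀ A, W.N (t 0 A) ≤ 2 * q * B) ∧ ∀ ρ : Rl ι, W.N (ρ.ev b) ≤ q * ε →
      W.N (ρ.ev (t 0)) ≤ 20 * q ^ 2 * B ^ 2 * (ε + (K ^ 2 * θ) ^ c') := by
  have hmono : ∀ i ≤ I, 2 ^ i * c' ≤ 2 ^ I * c' := fun i hi =>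
    Nat.mul_le_mul_right _ (Nat.pow_le_pow_right (by norm_num) hi)
  have hMD : 2 ^ I * c' ≤ W.D := by omega
  have hbD : ∀ A, b A ∈ W.F W.D := fun A => W.F_mono _ _ hMD (hb A)
  have hK2 : 1 ≤ K ^ 2 := one_le_pow₀ hK
  have hθx : θ ≤ K ^ 2 * θ := by nlinarith
  have hθle : θ ≤ 1 := by linarith
  have hq0 : 0 < q := by linarith
  have hB0 : 0 < B := by linarith
  have hθp : ∀ k : ℕ, 0 < θ ^ k ∧ θ ^ k ≤ 1 := fun k =>
    ⟨pow_pos hθ k, pow_le_one₀ hθ.le hθle⟩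
  set s : ℕ → ι → R := fun i A => if i < I then t i A else b A with hs_def
  have hsmem : ∀ i ≤ I, ∀ A, s i A ∈ W.F (2 ^ i * c') := by
    intro i hi A
    by_cases h : i < I
    · simp only [hs_def, if_pos h]
      exact ht i h A
    · have hiI : i = I := le_antisymm hi (not_lt.mp h)
      subst hiI
      simp only [hs_def, lt_irrefl, if_false]
      exact hb A
  have hsD : ∀ i ≤ I, ∀ A, s i A ∈ W.F W.D := fun i hi A =>
    W.F_mono _ _ ((hmono i hi).trans hMD) (hsmem i hi A)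
  have hdiff : ∀ i ≤ I, ∀ A, W.N (b A - s i A) ≤ q * θ ^ (2 ^ i * c') * B := by
    intro i hi A
    by_cases h : i < I
    · simp only [hs_def, if_pos h]
      exact htB i h A
    · simp only [hs_def, if_neg h, sub_self]
      rw [W.N_zero]
      have := (hθp (2 ^ i * c')).1
      positivity
  have hsβ : ∀ i ≤ I, ∀ A, W.N (s i A) ≤ 2 * q * B := by
    intro i hi A
    have e : s i A = b A - (b A - s i A) := by ring
    have h1 : W.N (s i A) ≤ W.N (b A) + W.N (b A - s i A) := by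
      conv_lhs => rw [e]
      exact W.N_sub (hbD A) (Submodule.sub_mem _ (hbD A) (hsD i hi A))
    have h2 := hbB A
    have h3 := hdiff i hi A
    have h4 := (hθp (2 ^ i * c')).2
    have h5 : q * θ ^ (2 ^ i * c') * B ≤ q * 1 * B :=
      mul_le_mul_of_nonneg_right (mul_le_mul_of_nonneg_left h4 hq0.le) hB0.le
    linarith
  have hσ : ∀ i < I, ∀ A, W.N (s (i + 1) A - s i A) ≤ 2 * q * θ ^ (2 ^ i * c') * B := by
    intro i hi A
    have e : s (i + 1) A - s i A = (b A - s i A) - (b A - s (i + 1) A) := by ring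
    have h1 : W.N (s (i + 1) A - s i A) ≤ W.N (b A - s i A) + W.N (b A - s (i + 1) A) := by
      rw [e]
      exact W.N_sub (Submodule.sub_mem _ (hbD A) (hsD i hi.le A))
        (Submodule.sub_mem _ (hbD A) (hsD (i + 1) hi A))
    have h2 := hdiff i hi.le A
    have h3 := hdiff (i + 1) hi A
    have h4 : θ ^ (2 ^ (i + 1) * c') ≤ θ ^ (2 ^ i * c') :=
      pow_le_pow_of_le_one hθ.le hθle
        (Nat.mul_le_mul_right _ (Nat.pow_le_pow_right (by norm_num) (Nat.le_succ i)))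
    have h5 : q * θ ^ (2 ^ (i + 1) * c') * B ≤ q * θ ^ (2 ^ i * c') * B :=
      mul_le_mul_of_nonneg_right (mul_le_mul_of_nonneg_left h4 hq0.le) hB0.le
    linarith
  have hs0 : ∀ A, s 0 A = t 0 A := by
    intro A
    simp only [hs_def, if_pos (show 0 < I by omega)]
  have hsI : ∀ A, s I A = b A := by
    intro A
    simp only [hs_def, lt_irrefl, if_false]
  have h0I : (0 : ℕ) ≤ I := Nat.zero_le _
  have hd0 : ∀ A, W.N (b A - t 0 A) ≤ q * θ ^ c' * B := by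
    intro A
    have := hdiff 0 h0I A
    rw [hs0, pow_zero, one_mul] at this
    exact this
  have ht0D : ∀ A, t 0 A ∈ W.F W.D := by
    intro A
    rw [← hs0]
    exact hsD 0 h0I A
  have htele : ∀ A A', W.N (b A * b A' - t 0 A * t 0 A') ≤ 16 * q ^ 2 * B ^ 2 * (K ^ 2 * θ) ^ c' := by
    intro A A'
    have h1 := W.tele hK hD hHC (fun i => s i A) (fun i => s i A') (fun i hi => hsmem i hi A)
      (fun i hi => hsmem i hi A') (σ := fun i => 2 * q * θ ^ (2 ^ i * c') * B) (β := 2 * q * B)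
      (fun i hi => hsβ i hi A) (fun i hi => hsβ i hi A') (fun i hi => hσ i hi A)
      (fun i hi => hσ i hi A')
    simp only [hsI, hs0] at h1
    have h2 : ∑ i ∈ range I, K ^ (2 ^ (i + 1) * c') *
        (2 * (2 * q * θ ^ (2 ^ i * c') * B) * (2 * q * B)) =
        8 * q ^ 2 * B ^ 2 * ∑ i ∈ range I, (K ^ 2 * θ) ^ (2 ^ i * c') := by
      rw [mul_sum]
      refine sum_congr rfl fun i _ => ?_
      have e : K ^ (2 ^ (i + 1) * c') = (K ^ 2) ^ (2 ^ i * c') := by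
        rw [← pow_mul]
        congr 1
        ring
      rw [e, mul_pow]
      ring
    have h3 := geo (x := K ^ 2 * θ) (by positivity) hθ1 hc1 I
    rw [h2] at h1
    have h4 : 8 * q ^ 2 * B ^ 2 * ∑ i ∈ range I, (K ^ 2 * θ) ^ (2 ^ i * c') ≤
        8 * q ^ 2 * B ^ 2 * (2 * (K ^ 2 * θ) ^ c') := mul_le_mul_of_nonneg_left h3 (by positivity)
    linarith
  have hx : θ ^ c' ≤ (K ^ 2 * θ) ^ c' := pow_le_pow_left₀ hθ.le hθx c'
  have hx0 : 0 < (K ^ 2 * θ) ^ c' := by positivity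
  have hqB : q * B ≤ q ^ 2 * B ^ 2 := by
    have h1 : q ≤ q ^ 2 := by nlinarith
    have h2 : B ≤ B ^ 2 := by nlinarith
    exact mul_le_mul h1 h2 hB0.le (by positivity)
  have hqε : q * ε ≤ q ^ 2 * B ^ 2 * ε := by
    refine mul_le_mul_of_nonneg_right ?_ hε.le
    have h1 : q ≤ q * B := le_mul_of_one_le_right hq0.le hB
    linarith
  have hqx : q * θ ^ c' * B ≤ q ^ 2 * B ^ 2 * (K ^ 2 * θ) ^ c' := by
    have h1 : q * B * θ ^ c' ≤ q ^ 2 * B ^ 2 * (K ^ 2 * θ) ^ c' :=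
      mul_le_mul hqB hx (hθp c').1.le (by positivity)
    linarith
  have hP : 0 < q ^ 2 * B ^ 2 := by positivity
  have hPε : 0 < q ^ 2 * B ^ 2 * ε := by positivity
  have hPx : 0 < q ^ 2 * B ^ 2 * (K ^ 2 * θ) ^ c' := by positivity
  have h1D : (1 : R) ∈ W.F W.D := W.one_mem' _
  have hbbD : ∀ A A', b A * b A' ∈ W.F W.D := fun A A' =>
    W.F_mono _ _ (by omega) (W.mul_mem _ _ _ _ (hb A) (hb A'))
  have httD : ∀ A A', t 0 A * t 0 A' ∈ W.F W.D := by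
    intro A A'
    rw [← hs0 A, ← hs0 A']
    have hm := hmono 0 h0I
    exact W.F_mono _ _ (by omega) (W.mul_mem _ _ _ _ (hsmem 0 h0I A) (hsmem 0 h0I A'))
  refine ⟨fun A => by rw [← hs0]; exact hsβ 0 h0I A, ?_⟩
  intro ρ hρ
  rcases ρ with A | ⟨A, A'⟩ | ⟨C, A, A'⟩
  · have hρ' : W.N (b A - 1) ≤ q * ε := hρ
    show W.N (t 0 A - 1) ≤ _
    have e : t 0 A - 1 = (b A - 1) - (b A - t 0 A) := by ring
    have h1 : W.N (t 0 A - 1) ≤ W.N (b A - 1) + W.N (b A - t 0 A) := by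
      rw [e]
      exact W.N_sub (Submodule.sub_mem _ (hbD A) h1D) (Submodule.sub_mem _ (hbD A) (ht0D A))
    have h2 := hd0 A
    nlinarith
  · have hρ' : W.N (b A + b A' - 1) ≤ q * ε := hρ
    show W.N (t 0 A + t 0 A' - 1) ≤ _
    have e : t 0 A + t 0 A' - 1 = (b A + b A' - 1) - ((b A - t 0 A) + (b A' - t 0 A')) := by ring
    have m1 := Submodule.sub_mem _ (hbD A) (ht0D A)
    have m2 := Submodule.sub_mem _ (hbD A') (ht0D A')
    have h1 : W.N (t 0 A + t 0 A' - 1) ≤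
        W.N (b A + b A' - 1) + W.N ((b A - t 0 A) + (b A' - t 0 A')) := by
      rw [e]
      exact W.N_sub (Submodule.sub_mem _ (Submodule.add_mem _ (hbD A) (hbD A')) h1D)
        (Submodule.add_mem _ m1 m2)
    have h3 := W.N_add m1 m2
    have h2 := hd0 A
    have h4 := hd0 A'
    nlinarith
  · have hρ' : W.N (b C - b A * b A') ≤ q * ε := hρ
    show W.N (t 0 C - t 0 A * t 0 A') ≤ _
    have e : t 0 C - t 0 A * t 0 A' =
        ((b C - b A * b A') + (b A * b A' - t 0 A * t 0 A')) - (b C - t 0 C) := by ring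
    have m1 := Submodule.sub_mem _ (hbD C) (hbbD A A')
    have m2 := Submodule.sub_mem _ (hbbD A A') (httD A A')
    have m3 := Submodule.sub_mem _ (hbD C) (ht0D C)
    have h1 : W.N (t 0 C - t 0 A * t 0 A') ≤
        W.N ((b C - b A * b A') + (b A * b A' - t 0 A * t 0 A')) + W.N (b C - t 0 C) := by
      rw [e]
      exact W.N_sub (Submodule.add_mem _ m1 m2) m3
    have h3 := W.N_add m1 m2
    have h2 := hd0 C
    have h4 := htele A A'
    nlinarith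

private theorem Stage_card {ι : Type} [Fintype ι] [Nonempty ι] (P : Rl ι → Prop) :
    (Fintype.card {ρ : Rl ι // P ρ} : ℝ) ≤ 3 * (Fintype.card ι : ℝ) ^ 3 := by
  have h1 : Fintype.card {ρ : Rl ι // P ρ} ≤ Fintype.card (Rl ι) := Fintype.card_subtype_le _
  have h2 : Fintype.card (Rl ι) = Fintype.card ι + (Fintype.card ι * Fintype.card ι +
      Fintype.card ι * (Fintype.card ι * Fintype.card ι)) := by
    simp only [Rl, Fintype.card_sum, Fintype.card_prod]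
  have h3 : (Fintype.card {ρ : Rl ι // P ρ} : ℝ) ≤ (Fintype.card ι : ℝ) +
      ((Fintype.card ι : ℝ) * Fintype.card ι +
        (Fintype.card ι : ℝ) * ((Fintype.card ι : ℝ) * Fintype.card ι)) := by
    exact_mod_cast h1.trans h2.le
  have hz : (1 : ℝ) ≤ Fintype.card ι := by exact_mod_cast Fintype.card_pos
  have h4 : (Fintype.card ι : ℝ) ≤ (Fintype.card ι : ℝ) ^ 3 := by
    have := pow_le_pow_right₀ hz (show 1 ≤ 3 by norm_num)
    simpa using this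
  have h5 : (Fintype.card ι : ℝ) ^ 2 ≤ (Fintype.card ι : ℝ) ^ 3 :=
    pow_le_pow_right₀ hz (by norm_num)
  nlinarith

variable {V E V' E' : Type} [Fintype V] [Fintype E] [Fintype V'] [Fintype E'] [Nonempty V']

theorem stage (G : MG V E) (H : MG V' E') (hG : G.Expands) (hH : H.Expands) {Δ : ℕ}
    (hΔ : H.DegLE Δ) (γ : Cube V)
    {Ω ι : Type} [Fintype Ω] [Nonempty Ω] [Fintype ι] [Nonempty ι] (emb : Ω → Emb G H)
    (good : Finset Ω) (hgood : 3 * Fintype.card Ω ≤ 4 * good.card) {κ c c' I : ℕ} (hκ1 : 1 ≤ κ)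
    (hκ : ∀ ω ∈ good, ∀ e, (univ.filter (fun f => (emb ω).r f e ≠ 0)).card ≤ κ)
    (hc1 : 1 ≤ c') (hI : 1 ≤ I) (hcI : κ * c ≤ 2 ^ I * c') (hI' : 32 * (2 ^ I * c') < Fintype.card V')
    {θ : ℝ} (hθ : 0 < θ) (hθ1 : (2 ^ (8 * Δ + 46)) ^ 2 * θ ≤ 1 / 2)
    (tail : ∀ i < I, ∀ S : Cube E, wt S ≤ c →
      ((univ.filter (fun ω => 2 ^ i * c' ≤ wt ((emb ω).y S))).card : ℝ) ≤
        θ ^ (2 * (2 ^ i * c')) * Fintype.card Ω)
    (a : ι → Cube E → ℝ) (ha : ∀ A, a A ∈ Fd E c) {B ε : ℝ} (hB : 1 ≤ B) (hε : 0 < ε)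
    (haB : ∀ A, G.nrm γ (a A) ≤ B) :
    ∃ (γ' : Cube V') (a' : ι → Cube E' → ℝ), ∑ u, γ' u = ∑ v, γ v ∧ (∀ A, a' A ∈ Fd E' c') ∧
      (∀ A, H.nrm γ' (a' A) ≤ 2 * Real.sqrt (8 * (Fintype.card ι : ℝ) ^ 3 * (I + 1)) * B) ∧
      ∀ ρ : Rl ι, G.nrm γ (ρ.ev a) ≤ ε →
        H.nrm γ' (ρ.ev a') ≤ 20 * (8 * (Fintype.card ι : ℝ) ^ 3 * (I + 1)) * B ^ 2 *
          (ε + ((2 ^ (8 * Δ + 46)) ^ 2 * θ) ^ c') := by
  obtain ⟨ω₀⟩ := ‹Nonempty Ω›
  have : Nonempty Ω := ⟨ω₀⟩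
  have hVV : Fintype.card V' ≤ Fintype.card V :=
    Fintype.card_le_of_injective (emb ω₀).c (emb ω₀).inj
  have hck : c ≤ κ * c := Nat.le_mul_of_pos_left c hκ1
  have hc8 : 8 * c < Fintype.card V := by omega
  obtain ⟨Y, hY⟩ := G.exists_repSet hG hc8
  have hα' : ∀ A, ∃ α : Cube E → ℝ, G.nrm γ (a A - ∑ S ∈ Y, α S • chi S) = 0 := fun A =>
    G.repSet_approx hG γ hc8 hY (ha A)
  choose α hα using hα'
  have hB0 : 0 < B := by linarith
  -- numbers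
  set z : ℝ := (Fintype.card ι : ℝ) with hz_def
  have hz : (1 : ℝ) ≤ z := by
    rw [hz_def]
    exact_mod_cast Fintype.card_pos
  set Q : ℝ := 8 * z ^ 3 * (I + 1) with hQ_def
  have hz3 : 1 ≤ z ^ 3 := one_le_pow₀ hz
  have hIr : (0 : ℝ) ≤ I := Nat.cast_nonneg _
  have hQ1 : 1 ≤ Q := by
    rw [hQ_def]
    nlinarith
  have hQ0 : 2 * (z * (I + 1) + Fintype.card {ρ : Rl ι // G.nrm γ (ρ.ev a) ≤ ε}) ≤ Q := by
    have h1 := Stage_card (fun ρ : Rl ι => G.nrm γ (ρ.ev a) ≤ ε)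
    have h2 : z ≤ z ^ 3 := by
      have := pow_le_pow_right₀ hz (show 1 ≤ 3 by norm_num)
      simpa using this
    have h3 : z * (I + 1) ≤ z ^ 3 * (I + 1) := mul_le_mul_of_nonneg_right h2 (by linarith)
    have h4 : 3 * z ^ 3 ≤ 3 * z ^ 3 * (I + 1) := le_mul_of_one_le_right (by linarith) (by linarith)
    rw [hQ_def]
    rw [← hz_def] at h1
    linarith
  set q : ℝ := Real.sqrt Q with hq_def
  have hqq : q ^ 2 = Q := Real.sq_sqrt (by linarith)
  have hq : 1 ≤ q := by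
    rw [hq_def]
    exact Real.one_le_sqrt.mpr hQ1
  have hq0 : 0 < q := by linarith
  obtain ⟨ω, hω, x, hx, hN1, hN2, hN3⟩ := select G H hG hH γ emb good hgood hκ1 hκ
    (c := c) (by omega) hY I (fun i => 2 ^ i * c') (fun i => θ ^ (2 * (2 ^ i * c')))
    (fun i _ => pow_pos hθ _) (fun i hi S hS => tail i hi S (hY.wt_le S hS)) a α ha hα hB0 hε haB
    (J := {ρ : Rl ι // G.nrm γ (ρ.ev a) ≤ ε}) (fun j => j.1.ev a) (by
      rintro ⟨ρ, -⟩
      have hmono : Fd E c ≤ Fd E (2 * c) := Fd_mono (by omega)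
      rcases ρ with A | ⟨A, A'⟩ | ⟨C, A, A'⟩
      · exact Submodule.sub_mem _ (hmono (ha A)) (one_mem_Fd _)
      · exact Submodule.sub_mem _ (Submodule.add_mem _ (hmono (ha A)) (hmono (ha A')))
          (one_mem_Fd _)
      · refine Submodule.sub_mem _ (hmono (ha C)) ?_
        have := mul_mem_Fd (ha A) (ha A')
        rw [← two_mul] at this
        exact this) (fun j => j.2)
  set φ := emb ω with hφ_def
  set γ' := φ.chg γ x with hγ'_def
  have hD : 8 * (2 * (2 ^ I * c')) < Fintype.card V' := by omega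
  set W := H.world hH γ' (2 * (2 ^ I * c')) hD with hW_def
  have hK : (1 : ℝ) ≤ 2 ^ (8 * Δ + 46) := one_le_pow₀ (by norm_num)
  have hHC : W.HC (2 ^ (8 * Δ + 46)) (2 ^ I * c') := by
    intro d hd f hf g hg
    exact H.nrm_mul hH hΔ γ' (d := d) (by omega) hf hg
  have key : ∀ {f : Cube E' → ℝ} {u v : ℝ}, 0 ≤ v → H.nrm γ' f ^ 2 ≤
      2 * (z * (I + 1) + Fintype.card {ρ : Rl ι // G.nrm γ (ρ.ev a) ≤ ε}) * u → u = v ^ 2 →
      W.N f ≤ q * v := by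
    intro f u v hv hf hu
    have h1 : H.nrm γ' f ^ 2 ≤ (q * v) ^ 2 := by
      rw [mul_pow, hqq, ← hu]
      refine hf.trans (mul_le_mul_of_nonneg_right hQ0 ?_)
      rw [hu]
      positivity
    exact (abs_le_of_sq_le_sq' h1 (by positivity)).2
  have habs := Stage_abs W (ι := ι) (K := 2 ^ (8 * Δ + 46)) (θ := θ) (q := q) (B := B) (ε := ε)
    (c' := c') (I := I) hK hθ hθ1 hq hB hε hc1 hI le_rfl hHC (fun A => φ.res x (a A))
    (fun i A => φ.res x (∑ S ∈ Y.filter (fun S => wt (φ.y S) < 2 ^ i * c'), α A S • chi S))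
    (fun A => Fd_mono hcI (φ.res_mem (hκ ω hω) x (ha A)))
    (by
      intro i _ A
      show φ.res x _ ∈ Fd E' (2 ^ i * c')
      rw [φ.res_sum]
      refine Submodule.sum_mem _ fun S hS => ?_
      rw [φ.res_smul, φ.res_chi]
      exact Submodule.smul_mem _ _ (Submodule.smul_mem _ _ (chi_mem (mem_filter.mp hS).2.le)))
    (fun A => key hB0.le (hN1 A) rfl)
    (by
      intro i hi A
      have h1 := hN3 A i hi
      rw [φ.res_sub] at h1
      have h2 := key (v := θ ^ (2 ^ i * c') * B) (by positivity) h1 (by ring)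
      rw [← mul_assoc] at h2
      exact h2)
  refine ⟨γ', fun A => φ.res x (∑ S ∈ Y.filter (fun S => wt (φ.y S) < 2 ^ 0 * c'), α A S • chi S),
    φ.sum_chg γ hx, ?_, ?_, ?_⟩
  · intro A
    show φ.res x _ ∈ Fd E' c'
    rw [φ.res_sum]
    refine Submodule.sum_mem _ fun S hS => ?_
    rw [φ.res_smul, φ.res_chi]
    refine Submodule.smul_mem _ _ (Submodule.smul_mem _ _ (chi_mem ?_))
    have := (mem_filter.mp hS).2
    omega
  · intro A
    exact habs.1 A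
  · intro ρ hρ
    rw [← hqq]
    refine habs.2 ρ ?_
    have h1 : φ.res x (ρ.ev a) = ρ.ev (fun A => φ.res x (a A)) := by
      rcases ρ with A | ⟨A, A'⟩ | ⟨C, A, A'⟩
      · show φ.res x (a A - 1) = φ.res x (a A) - 1
        rw [φ.res_sub, φ.res_one]
      · show φ.res x (a A + a A' - 1) = φ.res x (a A) + φ.res x (a A') - 1
        rw [φ.res_sub, φ.res_add, φ.res_one]
      · show φ.res x (a C - a A * a A') = φ.res x (a C) - φ.res x (a A) * φ.res x (a A')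
        rw [φ.res_sub, φ.res_mul]
    rw [← h1]
    exact key hε.le (hN2 ⟨ρ, hρ⟩) rfl

end Pool.Agent.MP_9cec2c_lc.SL
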