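import Pool.Agent.Lib.MP_9cec2c_lc.SL.TailA
import Pool.Agent.Lib.MP_9cec2c_lc.SL.GmProps
import Pool.Agent.Lib.MP_9cec2c_lc.SL.Rho
import Pool.Agent.Lib.MP_9cec2c_lc.SL.EmbA

/-!
TASK Tail: random embeddings of `G_m'` into `G_(m'+t)`, `m = m' + t`.

`embOf z w`: centres `c_u = u z_u` (concatenation; injective), routes
`r_f = rho (c_src, w_f) + rho (c_dst, w_f)` (`rho_bd`: the boundary is `pt c_src + pt w_f + pt c_dst + pt w_f`).

`pr_sum`: for a set `T` of edges let `bad f a a' b` say that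
`(rho (cat (src f) a) b + rho (cat (dst f) a') b) e ≠ 0` for some `e ∈ T`. Then `∑_f pr bad f ≤ 22 m |T| / 2^t`:
`pr bad f ≤ ∑_{e ∈ T} [#{(a,b) : rho (cat (src f) a) b e ≠ 0} + #{(a,b) : rho (cat (dst f) a) b e ≠ 0}] /
(2^t 2^m)`. Sum over `f`: every `u` is the source of at most 22 edges and the target of at most 22
(`Gm_out`, `Gm_in`), and `(u, a) ↦ cat u a` is a bijection onto `Vm m`, so by `rho_count`
`∑_u #{(a,b) : rho (cat u a) b e ≠ 0} ≤ m 2^m / 2`. Total `≤ |T| · 2 · 22 · (m 2^m / 2) / (2^t 2^m)`.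

`tail_hit`: `tail_abs` with `Δ = 44` (`2 Δ k = 88 k`).
`tail_wt`: if `y S f ≠ 0`, then `r_f` meets the support of `S`, and `src f ≠ dst f` (for a loop
`r_f = 0`). Take `T = {e | S e ≠ 0}`.
`congest`: if some `e` has `#{f | r_f e ≠ 0} > 88 k`, then `ω` belongs to the set of `tail_hit` for
`T = {e}`; union over the `22 · 2^m` edges, `k! ≥ 1`.
-/

set_option autoImplicit false

open Finset
open scoped Classical

namespace Pool.Agent.MP_9cec2c_lc.SL

private theorem Tail_cat_inj {m' t : ℕ} {u u' : Vm m'} {z z' : Vm t} (h : cat u z = cat u' z') :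
    u = u' ∧ z = z' := by
  unfold cat at h
  constructor
  · funext i
    have := congrFun h (Fin.castAdd t i)
    exact (Fin.append_left u z i).symm.trans (this.trans (Fin.append_left u' z' i))
  · funext i
    have := congrFun h (Fin.natAdd m' i)
    exact (Fin.append_right u z i).symm.trans (this.trans (Fin.append_right u' z' i))

private theorem Tail_add_self {E : Type} (x : Cube E) : x + x = 0 := by
  funext e
  exact CharTwo.add_self_eq_zero (x e)

/-- The embedding of `G_m'` into `G_(m'+t)` given by the words `z_u`, `w_f`. -/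
noncomputable def embOf {m' t : ℕ} (ω : (Vm m' → Vm t) × (Em m' → Vm (m' + t))) :
    Emb (Gm (m' + t)) (Gm m') where
  c u := cat u (ω.1 u)
  r f := rho (cat ((Gm m').src f) (ω.1 ((Gm m').src f))) (ω.2 f) +
    rho (cat ((Gm m').dst f) (ω.1 ((Gm m').dst f))) (ω.2 f)
  inj := by
    intro u u' h
    exact (Tail_cat_inj h).1
  bd_r := by
    intro f
    rw [MG.bd_add, rho_bd, rho_bd]
    have h := Tail_add_self (pt (ω.2 f))
    calc _ = pt (cat ((Gm m').src f) (ω.1 ((Gm m').src f))) +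
        pt (cat ((Gm m').dst f) (ω.1 ((Gm m').dst f))) + (pt (ω.2 f) + pt (ω.2 f)) := by abel
      _ = _ := by rw [h, add_zero]

/-- The badness of an edge for the set `T`. -/
private def Tail_bad {m' t : ℕ} (T : Finset (Em (m' + t))) (f : Em m') (a a' : Vm t)
    (b : Vm (m' + t)) : Prop :=
  ∃ e ∈ T, (rho (cat ((Gm m').src f) a) b + rho (cat ((Gm m').dst f) a') b) e ≠ 0

/-- The number of pairs `(a, b)` for which the route meets `e`. -/
private noncomputable def Tail_h {m' t : ℕ} (e : Em (m' + t)) (u : Vm m') : ℕ :=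
  (univ.filter (fun p : Vm t × Vm (m' + t) => rho (cat u p.1) p.2 e ≠ 0)).card

private theorem Tail_h_sum {m' t : ℕ} (e : Em (m' + t)) :
    2 * ∑ u : Vm m', Tail_h e u ≤ (m' + t) * 2 ^ (m' + t) := by
  refine le_trans (Nat.mul_le_mul_left 2 ?_) (rho_count e)
  have h1 : ∑ u : Vm m', Tail_h e u =
      ((univ : Finset (Vm m')).sigma (fun u =>
        univ.filter (fun p : Vm t × Vm (m' + t) => rho (cat u p.1) p.2 e ≠ 0))).card := by
    rw [card_sigma]; rfl
  rw [h1]
  refine card_le_card_of_injOn (fun x => (cat x.1 x.2.1, x.2.2)) ?_ ?_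
  · rintro ⟨u, a, b⟩ hx
    have hx' := mem_coe.1 hx
    rw [mem_sigma, mem_filter] at hx'
    rw [mem_coe, mem_filter]
    exact ⟨mem_univ _, hx'.2.2⟩
  · rintro ⟨u, a, b⟩ _ ⟨u', a', b'⟩ _ h
    have h' : (cat u a, b) = (cat u' a', b') := h
    rw [Prod.mk.injEq] at h'
    obtain ⟨h1, h2⟩ := h'
    obtain ⟨h3, h4⟩ := Tail_cat_inj h1
    subst h2 h3 h4
    rfl

private theorem Tail_bad_card {m' t : ℕ} (T : Finset (Em (m' + t))) (f : Em m') :
    (univ.filter (fun p : Vm t × Vm t × Vm (m' + t) => Tail_bad T f p.1 p.2.1 p.2.2)).card ≤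
      ∑ e ∈ T, (2 ^ t * Tail_h e ((Gm m').src f) + 2 ^ t * Tail_h e ((Gm m').dst f)) := by
  have hsub : (univ.filter (fun p : Vm t × Vm t × Vm (m' + t) => Tail_bad T f p.1 p.2.1 p.2.2)) ⊆
      T.biUnion (fun e =>
        (univ.filter (fun p : Vm t × Vm t × Vm (m' + t) =>
          rho (cat ((Gm m').src f) p.1) p.2.2 e ≠ 0)) ∪
        (univ.filter (fun p : Vm t × Vm t × Vm (m' + t) =>
          rho (cat ((Gm m').dst f) p.2.1) p.2.2 e ≠ 0))) := by
    rintro ⟨a, a', b⟩ hp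
    rw [mem_filter] at hp
    obtain ⟨_, e, heT, he⟩ := hp
    rw [mem_biUnion]
    refine ⟨e, heT, ?_⟩
    rw [mem_union, mem_filter, mem_filter]
    by_contra hcon
    push Not at hcon
    apply he
    have h1 := hcon.1 (mem_univ _)
    have h2 := hcon.2 (mem_univ _)
    change rho (cat ((Gm m').src f) a) b e = 0 at h1
    change rho (cat ((Gm m').dst f) a') b e = 0 at h2
    change rho (cat ((Gm m').src f) a) b e + rho (cat ((Gm m').dst f) a') b e = 0
    rw [h1, h2, add_zero]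
  refine le_trans (card_le_card hsub) (le_trans card_biUnion_le (sum_le_sum fun e _ => ?_))
  refine le_trans (card_union_le _ _) (Nat.add_le_add ?_ ?_)
  · have hc : (univ : Finset (Vm t)).card = 2 ^ t := by rw [card_univ, card_Vm]
    rw [← hc, Tail_h, ← card_product]
    refine card_le_card_of_injOn (fun x => (x.2.1, (x.1, x.2.2))) ?_ ?_
    · rintro ⟨a, a', b⟩ hx
      have hx' := mem_coe.1 hx
      rw [mem_filter] at hx'
      rw [mem_coe, mem_product, mem_filter]
      exact ⟨mem_univ _, mem_univ _, hx'.2⟩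
    · rintro ⟨a, a', b⟩ _ ⟨c, c', d⟩ _ h
      simp only [Prod.mk.injEq] at h
      obtain ⟨h1, h2, h3⟩ := h
      subst h1 h2 h3
      rfl
  · have hc : (univ : Finset (Vm t)).card = 2 ^ t := by rw [card_univ, card_Vm]
    rw [← hc, Tail_h, ← card_product]
    refine card_le_card_of_injOn (fun x => (x.1, (x.2.1, x.2.2))) ?_ ?_
    · rintro ⟨a, a', b⟩ hx
      have hx' := mem_coe.1 hx
      rw [mem_filter] at hx'
      rw [mem_coe, mem_product, mem_filter]
      exact ⟨mem_univ _, mem_univ _, hx'.2⟩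
    · rintro ⟨a, a', b⟩ _ ⟨c, c', d⟩ _ h
      exact h

private theorem Tail_sum_le {V E : Type} [Fintype V] [Fintype E] (g : E → V) (h : V → ℕ) (D : ℕ)
    (hg : ∀ v, (univ.filter (fun e => g e = v)).card ≤ D) : ∑ f, h (g f) ≤ D * ∑ u, h u := by
  rw [← sum_fiberwise (s := (univ : Finset E)) (g := g) (f := fun f => h (g f)), mul_sum]
  refine sum_le_sum fun v _ => ?_
  rw [sum_congr rfl (g := fun _ => h v)
    (fun x hx => by rw [(mem_filter.1 hx).2]), sum_const, smul_eq_mul]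
  exact Nat.mul_le_mul_right _ (hg v)

private theorem Tail_pr_sum {m' t : ℕ} (T : Finset (Em (m' + t))) :
    ∑ f : Em m', pr (Tail_bad T) f ≤ 22 * ((m' + t : ℕ) : ℝ) * T.card / 2 ^ t := by
  have h1 : ∑ f : Em m', (univ.filter
      (fun p : Vm t × Vm t × Vm (m' + t) => Tail_bad T f p.1 p.2.1 p.2.2)).card ≤
      22 * (2 ^ t * (T.card * ((m' + t) * 2 ^ (m' + t)))) := by
    calc _ ≤ ∑ f : Em m', ∑ e ∈ T, (2 ^ t * Tail_h e ((Gm m').src f) +
          2 ^ t * Tail_h e ((Gm m').dst f)) := sum_le_sum fun f _ => Tail_bad_card T f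
      _ = ∑ e ∈ T, (2 ^ t * ∑ f : Em m', Tail_h e ((Gm m').src f) +
          2 ^ t * ∑ f : Em m', Tail_h e ((Gm m').dst f)) := by
        rw [sum_comm]
        refine sum_congr rfl fun e _ => ?_
        rw [sum_add_distrib, ← mul_sum, ← mul_sum]
      _ ≤ ∑ e ∈ T, (2 ^ t * (22 * ∑ u : Vm m', Tail_h e u) +
          2 ^ t * (22 * ∑ u : Vm m', Tail_h e u)) := by
        refine sum_le_sum fun e _ => Nat.add_le_add ?_ ?_
        · exact Nat.mul_le_mul_left _ (Tail_sum_le _ _ 22 (Gm_out m'))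
        · exact Nat.mul_le_mul_left _ (Tail_sum_le _ _ 22 (Gm_in m'))
      _ = ∑ e ∈ T, 22 * (2 ^ t * (2 * ∑ u : Vm m', Tail_h e u)) := by
        refine sum_congr rfl fun e _ => ?_
        ring
      _ ≤ ∑ e ∈ T, 22 * (2 ^ t * ((m' + t) * 2 ^ (m' + t))) := by
        refine sum_le_sum fun e _ => ?_
        exact Nat.mul_le_mul_left _ (Nat.mul_le_mul_left _ (Tail_h_sum e))
      _ = _ := by
        rw [sum_const, smul_eq_mul]; ring
  unfold pr
  rw [← sum_div, card_Vm, card_Vm]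
  have h2 : ((∑ f : Em m', ((univ.filter
      (fun p : Vm t × Vm t × Vm (m' + t) => Tail_bad T f p.1 p.2.1 p.2.2)).card : ℝ))) ≤
      22 * (2 ^ t * (T.card * (((m' + t : ℕ) : ℝ) * 2 ^ (m' + t)))) := by
    exact_mod_cast h1
  push_cast at h2 ⊢
  rw [div_le_div_iff₀ (by positivity) (by positivity)]
  calc _ ≤ (22 * (2 ^ t * (T.card * (((m' : ℝ) + t) * 2 ^ (m' + t))))) * (2 : ℝ) ^ t :=
        mul_le_mul_of_nonneg_right h2 (by positivity)
    _ = _ := by ring

theorem tail_hit (m' t k : ℕ) (T : Finset (Em (m' + t))) :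
    ((univ.filter (fun ω : (Vm m' → Vm t) × (Em m' → Vm (m' + t)) => 88 * k ≤
      (univ.filter (fun f => (Gm m').src f ≠ (Gm m').dst f ∧
        ∃ e ∈ T, (embOf ω).r f e ≠ 0)).card)).card : ℝ) * (k.factorial : ℝ) ≤
      (Fintype.card ((Vm m' → Vm t) × (Em m' → Vm (m' + t))) : ℝ) *
        (22 * ((m' + t : ℕ) : ℝ) * T.card / 2 ^ t) ^ k := by
  have h := tail_abs (A := Vm t) (B := Vm (m' + t)) (Gm m') (Δ := 44) (by norm_num) (Gm_deg m')
    (Tail_bad T) k
  have h88 : 2 * 44 * k = 88 * k := by norm_num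
  rw [h88] at h
  refine le_trans (le_of_eq ?_) (le_trans h (mul_le_mul_of_nonneg_left ?_ (Nat.cast_nonneg _)))
  · congr!
  refine pow_le_pow_left₀ (sum_nonneg fun f _ => ?_) (Tail_pr_sum T) k
  unfold pr
  positivity

private theorem Tail_loop {m' t : ℕ} (ω : (Vm m' → Vm t) × (Em m' → Vm (m' + t))) {f : Em m'}
    (h : (Gm m').src f = (Gm m').dst f) : (embOf ω).r f = 0 := by
  have : (embOf ω).r f = rho (cat ((Gm m').src f) (ω.1 ((Gm m').src f))) (ω.2 f) +
    rho (cat ((Gm m').dst f) (ω.1 ((Gm m').dst f))) (ω.2 f) := rfl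
  rw [this, ← h]
  exact Tail_add_self _

theorem tail_wt (m' t k c : ℕ) (S : Cube (Em (m' + t))) (hS : wt S ≤ c) :
    ((univ.filter (fun ω : (Vm m' → Vm t) × (Em m' → Vm (m' + t)) => 88 * k ≤
      wt ((embOf ω).y S))).card : ℝ) * (k.factorial : ℝ) ≤
      (Fintype.card ((Vm m' → Vm t) × (Em m' → Vm (m' + t))) : ℝ) *
        (22 * ((m' + t : ℕ) : ℝ) * c / 2 ^ t) ^ k := by
  have h := tail_hit m' t k (univ.filter (fun e => S e ≠ 0))
  refine le_trans (mul_le_mul_of_nonneg_right ?_ (Nat.cast_nonneg _)) (le_trans h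
    (mul_le_mul_of_nonneg_left ?_ (Nat.cast_nonneg _)))
  · rw [Nat.cast_le]
    refine card_le_card fun ω hω => ?_
    rw [mem_filter] at hω ⊢
    refine ⟨mem_univ _, le_trans hω.2 ?_⟩
    unfold wt
    refine card_le_card fun f hf => ?_
    rw [mem_filter] at hf ⊢
    have hy : dot S ((embOf ω).r f) ≠ 0 := hf.2
    refine ⟨mem_univ _, fun hl => hy ?_, ?_⟩
    · rw [Tail_loop ω hl]
      unfold dot
      exact sum_eq_zero fun e _ => by simp
    · unfold dot at hy
      obtain ⟨e, _, he⟩ := exists_ne_zero_of_sum_ne_zero hy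
      exact ⟨e, mem_filter.2 ⟨mem_univ _, left_ne_zero_of_mul he⟩, right_ne_zero_of_mul he⟩
  · have hc : (((univ.filter (fun e => S e ≠ 0)).card : ℕ) : ℝ) ≤ c := by
      exact_mod_cast hS
    gcongr

theorem congest (m' t k : ℕ)
    (h : 22 * (2 : ℝ) ^ (m' + t) * (22 * ((m' + t : ℕ) : ℝ) / 2 ^ t) ^ k ≤ 1 / 4) :
    4 * (univ.filter (fun ω : (Vm m' → Vm t) × (Em m' → Vm (m' + t)) =>
      ∃ e, 88 * k < (univ.filter (fun f => (embOf ω).r f e ≠ 0)).card)).card ≤
      Fintype.card ((Vm m' → Vm t) × (Em m' → Vm (m' + t))) := by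
  have hone : ∀ e : Em (m' + t),
      ((univ.filter (fun ω : (Vm m' → Vm t) × (Em m' → Vm (m' + t)) =>
        88 * k < (univ.filter (fun f => (embOf ω).r f e ≠ 0)).card)).card : ℝ) ≤
      (Fintype.card ((Vm m' → Vm t) × (Em m' → Vm (m' + t))) : ℝ) *
        (22 * ((m' + t : ℕ) : ℝ) / 2 ^ t) ^ k := by
    intro e
    have h1 := tail_hit m' t k {e}
    rw [card_singleton, Nat.cast_one, mul_one] at h1
    have hk : (1 : ℝ) ≤ (k.factorial : ℝ) := by exact_mod_cast Nat.succ_le_of_lt k.factorial_pos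
    refine le_trans ?_ h1
    refine le_trans ?_ (le_mul_of_one_le_right (Nat.cast_nonneg _) hk)
    rw [Nat.cast_le]
    refine card_le_card fun ω hω => ?_
    rw [mem_filter] at hω ⊢
    refine ⟨mem_univ _, le_trans hω.2.le ?_⟩
    refine card_le_card fun f hf => ?_
    rw [mem_filter] at hf ⊢
    refine ⟨mem_univ _, fun hl => hf.2 ?_, e, mem_singleton_self e, hf.2⟩
    rw [Tail_loop ω hl]
    rfl
  have hsub : (univ.filter (fun ω : (Vm m' → Vm t) × (Em m' → Vm (m' + t)) =>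
      ∃ e, 88 * k < (univ.filter (fun f => (embOf ω).r f e ≠ 0)).card)) ⊆
      (univ : Finset (Em (m' + t))).biUnion (fun e =>
        univ.filter (fun ω : (Vm m' → Vm t) × (Em m' → Vm (m' + t)) =>
          88 * k < (univ.filter (fun f => (embOf ω).r f e ≠ 0)).card)) := by
    intro ω hω
    obtain ⟨_, e, he⟩ := mem_filter.1 hω
    exact mem_biUnion.2 ⟨e, mem_univ _, mem_filter.2 ⟨mem_univ _, he⟩⟩
  have hcard : (((univ.filter (fun ω : (Vm m' → Vm t) × (Em m' → Vm (m' + t)) =>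
      ∃ e, 88 * k < (univ.filter (fun f => (embOf ω).r f e ≠ 0)).card)).card : ℕ) : ℝ) ≤
      22 * (2 : ℝ) ^ (m' + t) *
        ((Fintype.card ((Vm m' → Vm t) × (Em m' → Vm (m' + t))) : ℝ) *
          (22 * ((m' + t : ℕ) : ℝ) / 2 ^ t) ^ k) := by
    have h2 := le_trans (card_le_card hsub) card_biUnion_le
    have h3 : (((univ.filter (fun ω : (Vm m' → Vm t) × (Em m' → Vm (m' + t)) =>
      ∃ e, 88 * k < (univ.filter (fun f => (embOf ω).r f e ≠ 0)).card)).card : ℕ) : ℝ) ≤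
        ∑ e : Em (m' + t), ((univ.filter (fun ω : (Vm m' → Vm t) × (Em m' → Vm (m' + t)) =>
        88 * k < (univ.filter (fun f => (embOf ω).r f e ≠ 0)).card)).card : ℝ) := by
      exact_mod_cast h2
    refine le_trans h3 (le_trans (sum_le_sum fun e _ => hone e) ?_)
    rw [sum_const, card_univ, card_Em, nsmul_eq_mul]
    push_cast
    exact le_rfl
  have hfin : (4 : ℝ) * (((univ.filter (fun ω : (Vm m' → Vm t) × (Em m' → Vm (m' + t)) =>
      ∃ e, 88 * k < (univ.filter (fun f => (embOf ω).r f e ≠ 0)).card)).card : ℕ) : ℝ) ≤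
      (Fintype.card ((Vm m' → Vm t) × (Em m' → Vm (m' + t))) : ℝ) := by
    calc _ ≤ 4 * (22 * (2 : ℝ) ^ (m' + t) *
        ((Fintype.card ((Vm m' → Vm t) × (Em m' → Vm (m' + t))) : ℝ) *
          (22 * ((m' + t : ℕ) : ℝ) / 2 ^ t) ^ k)) := by linarith
      _ = 4 * (Fintype.card ((Vm m' → Vm t) × (Em m' → Vm (m' + t))) : ℝ) *
          (22 * (2 : ℝ) ^ (m' + t) * (22 * ((m' + t : ℕ) : ℝ) / 2 ^ t) ^ k) := by ring
      _ ≤ 4 * (Fintype.card ((Vm m' → Vm t) × (Em m' → Vm (m' + t))) : ℝ) * (1 / 4) :=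
        mul_le_mul_of_nonneg_left h (by positivity)
      _ = _ := by ring
  exact_mod_cast hfin

end Pool.Agent.MP_9cec2c_lc.SL
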