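import Pool.Agent.Lib.MP_9cec2c_lc.SL.Stage
import Pool.Agent.Lib.MP_9cec2c_lc.SL.Tail

/-!
TASK StageG: one stage for the graphs `G_m`, with all degrees powers of 2. `m = m' + t`, `c = 2^g`,
`c' = 2^(g')` with `g' + t = g + λ`, `I = t`, `κ = 88 k₀`, `K = 2^398` (`Δ = 44`).
Apply `stage` to `embOf`, `good = {ω | ∀ e, #{f | r_f e ≠ 0} ≤ 88 k₀}`.
* `hgood`: `congest` (with `h1`).
* `κ c = 88 k₀ 2^g ≤ 2^λ 2^g = 2^t 2^(g')` (`h2`). `32 · 2^t · 2^(g') = 2^(5 + g + λ) < 2^m'` (`h3`).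
* tail: for `k i = 2^i c' ≥ 88` (`h4`: `7 ≤ g'`) let `k = ⌊k i / 88⌋ ≥ k i / 176`, `k ≥ 1`. By `tail_wt`
  (`88 k ≤ k i`) the proportion of `ω` with `wt (y S) ≥ k i` is at most `μ^k / k!`, `μ = 22 m c / 2^t`, and
  `k! ≥ (k/3)^k`, so it is at most `(3 μ / k)^k ≤ (3 · 176 μ / c')^k = (11616 m c / (2^t c'))^k
  = (11616 m / 2^λ)^k ≤ (θ^352)^k ≤ θ^(2 k i)` (`h5`; `352 k ≥ 2 k i`, `θ ≤ 1`).
* the final bounds: `8 z³ (t+1) ≤ 8 z³ (m+1)`.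
-/

set_option autoImplicit false

open Finset
open scoped Classical

namespace Pool.Agent.MP_9cec2c_lc.SL

private theorem StageG_fact (k : ℕ) : (k : ℝ) ^ k ≤ 3 ^ k * (k.factorial : ℝ) := by
  have h1 := Real.pow_div_factorial_le_exp (k : ℝ) (Nat.cast_nonneg k) k
  have h2 : (0 : ℝ) < (k.factorial : ℝ) := by exact_mod_cast Nat.factorial_pos k
  rw [div_le_iff₀ h2] at h1
  have h3 : Real.exp (k : ℝ) ≤ 3 ^ k := by
    have e : Real.exp (k : ℝ) = Real.exp 1 ^ k := by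
      rw [← Real.exp_nat_mul, mul_one]
    rw [e]
    exact pow_le_pow_left₀ (Real.exp_pos 1).le Real.exp_one_lt_three.le k
  exact h1.trans (mul_le_mul_of_nonneg_right h3 h2.le)

/-- The numerical part of the tail bound. -/
private theorem StageG_num {cnt Om μ θ : ℝ} {k K : ℕ} (hk : 1 ≤ k) (hcnt : 0 ≤ cnt) (hOm : 0 ≤ Om)
    (hμ : 0 ≤ μ) (hθ : 0 < θ) (hθ1 : θ ≤ 1) (h : cnt * (k.factorial : ℝ) ≤ Om * μ ^ k)
    (h1 : 3 * μ ≤ θ ^ 352 * k) (h2 : 2 * K ≤ 352 * k) : cnt ≤ θ ^ (2 * K) * Om := by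
  have hk0 : (0 : ℝ) < (k : ℝ) := by exact_mod_cast hk
  have h3 : cnt * (k : ℝ) ^ k ≤ Om * (3 * μ) ^ k := by
    calc cnt * (k : ℝ) ^ k ≤ cnt * (3 ^ k * (k.factorial : ℝ)) :=
          mul_le_mul_of_nonneg_left (StageG_fact k) hcnt
      _ = 3 ^ k * (cnt * (k.factorial : ℝ)) := by ring
      _ ≤ 3 ^ k * (Om * μ ^ k) := mul_le_mul_of_nonneg_left h (by positivity)
      _ = Om * (3 * μ) ^ k := by rw [mul_pow]; ring
  have h4 : (3 * μ) ^ k ≤ (θ ^ 352 * k) ^ k := pow_le_pow_left₀ (by positivity) h1 k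
  have h5 : cnt * (k : ℝ) ^ k ≤ (Om * (θ ^ 352) ^ k) * (k : ℝ) ^ k := by
    refine h3.trans ((mul_le_mul_of_nonneg_left h4 hOm).trans (le_of_eq ?_))
    rw [mul_pow]; ring
  have h6 : cnt ≤ Om * (θ ^ 352) ^ k := le_of_mul_le_mul_right h5 (by positivity)
  have h7 : (θ ^ 352) ^ k ≤ θ ^ (2 * K) := by
    rw [← pow_mul]
    exact pow_le_pow_of_le_one hθ.le hθ1 h2
  calc cnt ≤ Om * (θ ^ 352) ^ k := h6
    _ ≤ Om * θ ^ (2 * K) := mul_le_mul_of_nonneg_left h7 hOm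
    _ = θ ^ (2 * K) * Om := mul_comm _ _

private theorem StageG_tail {m' t g g' l : ℕ} (hg : g' + t = g + l) (h4 : 7 ≤ g') {θ : ℝ}
    (hθ : 0 < θ) (hθ1 : θ ≤ 1) (h5 : 11616 * ((m' + t : ℕ) : ℝ) ≤ θ ^ 352 * 2 ^ l) (i : ℕ)
    (S : Cube (Em (m' + t))) (hS : wt S ≤ 2 ^ g) :
    ((univ.filter (fun ω : (Vm m' → Vm t) × (Em m' → Vm (m' + t)) =>
      2 ^ i * 2 ^ g' ≤ wt ((embOf ω).y S))).card : ℝ) ≤
      θ ^ (2 * (2 ^ i * 2 ^ g')) *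
        (Fintype.card ((Vm m' → Vm t) × (Em m' → Vm (m' + t))) : ℝ) := by
  have hi : 1 ≤ 2 ^ i := Nat.one_le_two_pow
  have hg7 : 2 ^ 7 ≤ 2 ^ g' := Nat.pow_le_pow_right (by norm_num) h4
  set K : ℕ := 2 ^ i * 2 ^ g' with hK
  have hKg : 2 ^ g' ≤ K := by
    rw [hK]; exact Nat.le_mul_of_pos_left _ hi
  have hK128 : 128 ≤ K := le_trans hg7 hKg
  set k : ℕ := K / 88 with hkdef
  have hk1 : 1 ≤ k := by omega
  have hk88 : 88 * k ≤ K := by omega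
  have hk176 : K ≤ 176 * k := by omega
  have hT := tail_wt m' t k (2 ^ g) S hS
  have hsub : ((univ.filter (fun ω : (Vm m' → Vm t) × (Em m' → Vm (m' + t)) =>
      K ≤ wt ((embOf ω).y S))).card : ℝ) ≤
      ((univ.filter (fun ω : (Vm m' → Vm t) × (Em m' → Vm (m' + t)) =>
        88 * k ≤ wt ((embOf ω).y S))).card : ℝ) := by
    have : (univ.filter (fun ω : (Vm m' → Vm t) × (Em m' → Vm (m' + t)) =>
      K ≤ wt ((embOf ω).y S))).card ≤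
      (univ.filter (fun ω : (Vm m' → Vm t) × (Em m' → Vm (m' + t)) =>
        88 * k ≤ wt ((embOf ω).y S))).card := by
      apply Finset.card_le_card
      intro ω hω
      rw [Finset.mem_filter] at hω ⊢
      exact ⟨hω.1, hk88.trans hω.2⟩
    exact_mod_cast this
  refine hsub.trans (StageG_num hk1 (Nat.cast_nonneg _) (Nat.cast_nonneg _) ?_ hθ hθ1 hT ?_ ?_)
  · positivity
  · -- `3 μ ≤ θ ^ 352 * k`
    have e1 : (2 : ℝ) ^ g' * 2 ^ t = 2 ^ g * 2 ^ l := by rw [← pow_add, ← pow_add, hg]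
    have hpt : (0 : ℝ) < 2 ^ t := by positivity
    have hpg : (0 : ℝ) < 2 ^ g := by positivity
    have hkK : (2 : ℝ) ^ g' ≤ 176 * (k : ℝ) := by
      have : 2 ^ g' ≤ 176 * k := hKg.trans hk176
      exact_mod_cast this
    rw [mul_div_assoc', div_le_iff₀ hpt]
    have hθp : (0 : ℝ) ≤ θ ^ 352 := by positivity
    have a1 : 11616 * ((m' + t : ℕ) : ℝ) * 2 ^ g ≤ θ ^ 352 * (176 * (k : ℝ)) * 2 ^ t := by
      calc 11616 * ((m' + t : ℕ) : ℝ) * 2 ^ g ≤ θ ^ 352 * 2 ^ l * 2 ^ g :=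
            mul_le_mul_of_nonneg_right h5 hpg.le
        _ = θ ^ 352 * (2 ^ g' * 2 ^ t) := by rw [e1]; ring
        _ ≤ θ ^ 352 * (176 * (k : ℝ) * 2 ^ t) :=
            mul_le_mul_of_nonneg_left (mul_le_mul_of_nonneg_right hkK hpt.le) hθp
        _ = θ ^ 352 * (176 * (k : ℝ)) * 2 ^ t := by ring
    push_cast
    push_cast at a1
    nlinarith [a1]
  · omega

private theorem StageG_le {K θ : ℝ} (hK : 1 ≤ K) (hθ : 0 < θ) (h : K * θ ≤ 1 / 2) : θ ≤ 1 := by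
  have h7 : 1 * θ ≤ K * θ := mul_le_mul_of_nonneg_right hK hθ.le
  linarith

private theorem StageG_x {z t : ℝ} (hz : 1 ≤ z ^ 3) (ht : 0 ≤ t) : 1 ≤ 8 * z ^ 3 * (t + 1) := by
  nlinarith [mul_nonneg (zero_le_one.trans hz) ht]

private theorem StageG_sqrt {x Q : ℝ} (hx : 1 ≤ x) (hQ : x ≤ Q) : Real.sqrt x ≤ Q := by
  refine le_trans ?_ hQ
  rw [Real.sqrt_le_left (by linarith)]
  nlinarith

private theorem StageG_cast (m' t : ℕ) : (t : ℝ) + 1 ≤ ((m' + t : ℕ) : ℝ) + 1 := by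
  push_cast
  linarith [(Nat.cast_nonneg m' : (0 : ℝ) ≤ (m' : ℝ))]

theorem stageG {m' t g g' l k₀ : ℕ} (ht : 1 ≤ t) (hg : g' + t = g + l) (hk : 1 ≤ k₀)
    (h1 : 22 * (2 : ℝ) ^ (m' + t) * (22 * ((m' + t : ℕ) : ℝ) / 2 ^ t) ^ k₀ ≤ 1 / 4)
    (h2 : 88 * k₀ ≤ 2 ^ l) (h3 : 5 + g + l < m') (h4 : 7 ≤ g') {θ : ℝ} (hθ : 0 < θ)
    (hθ1 : (2 ^ 398) ^ 2 * θ ≤ 1 / 2) (h5 : 11616 * ((m' + t : ℕ) : ℝ) ≤ θ ^ 352 * 2 ^ l)
    (γ : Cube (Vm (m' + t))) {ι : Type} [Fintype ι] [Nonempty ι]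
    (a : ι → Cube (Em (m' + t)) → ℝ) (ha : ∀ A, a A ∈ Fd (Em (m' + t)) (2 ^ g)) {B ε : ℝ}
    (hB : 1 ≤ B) (hε : 0 < ε) (haB : ∀ A, (Gm (m' + t)).nrm γ (a A) ≤ B) {Q : ℝ}
    (hQ : 8 * (Fintype.card ι : ℝ) ^ 3 * ((m' + t : ℕ) + 1) ≤ Q) :
    ∃ (γ' : Cube (Vm m')) (a' : ι → Cube (Em m') → ℝ), ∑ u, γ' u = ∑ v, γ v ∧
      (∀ A, a' A ∈ Fd (Em m') (2 ^ g')) ∧ (∀ A, (Gm m').nrm γ' (a' A) ≤ 2 * Q * B) ∧
      ∀ ρ : Rl ι, (Gm (m' + t)).nrm γ (ρ.ev a) ≤ ε →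
        (Gm m').nrm γ' (ρ.ev a') ≤ 20 * Q * B ^ 2 * (ε + ((2 ^ 398) ^ 2 * θ) ^ (2 ^ g')) := by
  have hθle : θ ≤ 1 := StageG_le (one_le_pow₀ (one_le_pow₀ one_le_two)) hθ hθ1
  set good : Finset ((Vm m' → Vm t) × (Em m' → Vm (m' + t))) :=
    univ.filter (fun ω => ¬ ∃ e, 88 * k₀ <
      (univ.filter (fun f => (embOf ω).r f e ≠ 0)).card) with hgooddef
  have hgood : 3 * Fintype.card ((Vm m' → Vm t) × (Em m' → Vm (m' + t))) ≤ 4 * good.card := by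
    have hc := congest m' t k₀ h1
    have hs := Finset.card_filter_add_card_filter_not (s := (univ : Finset
      ((Vm m' → Vm t) × (Em m' → Vm (m' + t)))))
      (fun ω => ∃ e, 88 * k₀ < (univ.filter (fun f => (embOf ω).r f e ≠ 0)).card)
    rw [Finset.card_univ] at hs
    rw [hgooddef]
    omega
  have hκ : ∀ ω ∈ good, ∀ e, (univ.filter (fun f => (embOf ω).r f e ≠ 0)).card ≤ 88 * k₀ := by
    intro ω hω e
    rw [hgooddef, Finset.mem_filter] at hω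
    by_contra hcon
    exact hω.2 ⟨e, not_le.1 hcon⟩
  have hcI : 88 * k₀ * 2 ^ g ≤ 2 ^ t * 2 ^ g' := by
    calc 88 * k₀ * 2 ^ g ≤ 2 ^ l * 2 ^ g := Nat.mul_le_mul_right _ h2
      _ = 2 ^ (g + l) := by rw [pow_add, mul_comm]
      _ = 2 ^ t * 2 ^ g' := by rw [← hg, pow_add, mul_comm]
  have hI' : 32 * (2 ^ t * 2 ^ g') < Fintype.card (Vm m') := by
    rw [card_Vm]
    calc 32 * (2 ^ t * 2 ^ g') = 2 ^ (5 + g + l) := by
          rw [show 5 + g + l = 5 + (g' + t) by omega, pow_add, pow_add]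
          ring
      _ < 2 ^ m' := Nat.pow_lt_pow_right (by norm_num) h3
  have hz : 1 ≤ (Fintype.card ι : ℝ) := by exact_mod_cast Fintype.card_pos
  have hz3 : 1 ≤ (Fintype.card ι : ℝ) ^ 3 := one_le_pow₀ hz
  set x : ℝ := 8 * (Fintype.card ι : ℝ) ^ 3 * ((t : ℝ) + 1) with hx
  have ht0 : (0 : ℝ) ≤ (t : ℝ) := Nat.cast_nonneg t
  have hx1 : 1 ≤ x := StageG_x hz3 ht0
  have hxQ : x ≤ Q := by
    refine le_trans ?_ hQ
    rw [hx]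
    exact mul_le_mul_of_nonneg_left (StageG_cast m' t) (by positivity)
  obtain ⟨γ', a', hsum, hF, hN, hρ⟩ := stage (Gm (m' + t)) (Gm m') (Gm_expands _) (Gm_expands _)
    (Gm_deg m') γ (fun ω : (Vm m' → Vm t) × (Em m' → Vm (m' + t)) => embOf ω) good hgood
    (κ := 88 * k₀) (c := 2 ^ g) (c' := 2 ^ g') (I := t) (by omega) hκ Nat.one_le_two_pow ht hcI hI'
    hθ hθ1 (fun i _ S hS => StageG_tail hg h4 hθ hθle h5 i S hS) a ha hB hε haB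
  refine ⟨γ', a', hsum, hF, fun A => (hN A).trans ?_, fun ρ hr => (hρ ρ hr).trans ?_⟩
  · have h9 : Real.sqrt x ≤ Q := StageG_sqrt hx1 hxQ
    exact mul_le_mul_of_nonneg_right (mul_le_mul_of_nonneg_left h9 zero_le_two)
      (zero_le_one.trans hB)
  · have h10 : 0 ≤ ε + ((2 ^ 398) ^ 2 * θ) ^ (2 ^ g') := by positivity
    have h11 : 20 * x * B ^ 2 ≤ 20 * Q * B ^ 2 :=
      mul_le_mul_of_nonneg_right (mul_le_mul_of_nonneg_left hxQ (by norm_num)) (by positivity)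
    exact mul_le_mul_of_nonneg_right h11 h10

end Pool.Agent.MP_9cec2c_lc.SL
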