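import Pool.Agent.Lib.MP_9cec2c_lc.SL.Frege

/-!
TASK TailA: tail bound for the number of bad edges when the badness of an edge depends only on
independent labels of its two ends and of the edge itself.

`Ω = (V → A) × (E → B)`, `Bad ω = {f : src f ≠ dst f ∧ bad f (ω.1 (src f)) (ω.1 (dst f)) (ω.2 f)}`.
(1) If `|Bad ω| ≥ 2 Δ k`, there are `k` bad edges with pairwise disjoint sets of ends: greedily, the
edges which share an end with a given edge (itself included) are at most `2 Δ`, more precisely
`≤ 2 Δ - 1`.
(2) For a `k`-tuple `(f_1, …, f_k)` of edges (no loops) with pairwise disjoint sets of ends the number of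
`ω` for which all `f_j` are bad is `|Ω| ∏ pr (f_j)`: induction on `k`; for any function `g` on `Ω`
`∑_ω g ω = (|A|² |B|)⁻¹ ∑_ω ∑_{a, a', b} g (ω[src f ↦ a, dst f ↦ a', f ↦ b])` (`Function.update`; resampling
of three coordinates), the first `k - 1` conditions do not depend on these coordinates, and the
proportion of `(a, a', b)` with `bad f a a' b` is `pr f`.
(3) Every `ω` with `|Bad ω| ≥ 2 Δ k` is counted for at least `k!` tuples (the orderings of the `k` edges of
(1)), so `#{ω} · k! ≤ ∑_{tuples} |Ω| ∏ pr (f_j) ≤ |Ω| (∑_f pr f)^k` (sum over all `k`-tuples in `E^k`: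
`Finset.sum_pow'` or `Fintype.sum_pow`, `Finset.prod_univ_sum`).
-/

set_option autoImplicit false

open Finset
open scoped Classical

namespace Pool.Agent.MP_9cec2c_lc.SL

/-- The probability that `bad f` holds for independent uniform labels. -/
noncomputable def pr {E A B : Type} [Fintype A] [Fintype B] (bad : E → A → A → B → Prop) (f : E) : ℝ :=
  ((univ.filter (fun p : A × A × B => bad f p.1 p.2.1 p.2.2)).card : ℝ) /
    (Fintype.card A ^ 2 * Fintype.card B)

/-- the number of `k`-tuples of bad edges with pairwise disjoint sets of ends, not meeting `S` -/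
private noncomputable def TailA_cnt {V E A B : Type} [Fintype E] (H : MG V E)
    (bad : E → A → A → B → Prop) (ω : (V → A) × (E → B)) : ℕ → Finset V → ℝ
  | 0, _ => 1
  | k + 1, S => ∑ f, if (H.src f ∉ S ∧ H.dst f ∉ S ∧ H.src f ≠ H.dst f ∧
      bad f (ω.1 (H.src f)) (ω.1 (H.dst f)) (ω.2 f)) then
        TailA_cnt H bad ω k (insert (H.src f) (insert (H.dst f) S)) else 0

private theorem TailA_nonneg {V E A B : Type} [Fintype E] (H : MG V E)
    (bad : E → A → A → B → Prop) (ω : (V → A) × (E → B)) (k : ℕ) :
    ∀ S, 0 ≤ TailA_cnt H bad ω k S := by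
  induction k with
  | zero => intro S; simp [TailA_cnt]
  | succ k ih =>
    intro S
    rw [TailA_cnt]
    refine Finset.sum_nonneg fun f _ => ?_
    split_ifs
    · exact ih _
    · exact le_rfl

private theorem TailA_low {V E A B : Type} [Fintype V] [Fintype E] (H : MG V E) {Δ : ℕ}
    (hΔ1 : 1 ≤ Δ) (hΔ : H.DegLE Δ) (bad : E → A → A → B → Prop) (ω : (V → A) × (E → B)) (k : ℕ) :
    ∀ S : Finset V, 2 * Δ * k ≤ (univ.filter (fun f => H.src f ∉ S ∧ H.dst f ∉ S ∧
      H.src f ≠ H.dst f ∧ bad f (ω.1 (H.src f)) (ω.1 (H.dst f)) (ω.2 f))).card →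
      (k.factorial : ℝ) ≤ TailA_cnt H bad ω k S := by
  induction k with
  | zero => intro S _; simp [TailA_cnt]
  | succ k ih =>
    intro S hS
    rw [TailA_cnt, ← Finset.sum_filter]
    have h1 : ∀ f ∈ univ.filter (fun f => H.src f ∉ S ∧ H.dst f ∉ S ∧
        H.src f ≠ H.dst f ∧ bad f (ω.1 (H.src f)) (ω.1 (H.dst f)) (ω.2 f)),
        (k.factorial : ℝ) ≤ TailA_cnt H bad ω k (insert (H.src f) (insert (H.dst f) S)) := by
      intro f hf
      apply ih
      have h2 : univ.filter (fun f => H.src f ∉ S ∧ H.dst f ∉ S ∧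
          H.src f ≠ H.dst f ∧ bad f (ω.1 (H.src f)) (ω.1 (H.dst f)) (ω.2 f)) ⊆
          (univ.filter (fun g => H.src g ∉ insert (H.src f) (insert (H.dst f) S) ∧
            H.dst g ∉ insert (H.src f) (insert (H.dst f) S) ∧
            H.src g ≠ H.dst g ∧ bad g (ω.1 (H.src g)) (ω.1 (H.dst g)) (ω.2 g))) ∪
          ((univ.filter (fun g => H.src g = H.src f) ∪ univ.filter (fun g => H.dst g = H.src f)) ∪
          (univ.filter (fun g => H.src g = H.dst f) ∪
            univ.filter (fun g => H.dst g = H.dst f))) := by
        intro g hg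
        simp only [mem_filter, mem_univ, true_and, mem_union, mem_insert] at hg ⊢
        tauto
      have h3 := (card_le_card h2).trans (card_union_le _ _)
      have h4 := hΔ (H.src f)
      have h5 := hΔ (H.dst f)
      have h6 : ((univ.filter (fun g => H.src g = H.src f) ∪
          univ.filter (fun g => H.dst g = H.src f)) ∪
          (univ.filter (fun g => H.src g = H.dst f) ∪
            univ.filter (fun g => H.dst g = H.dst f))).card ≤ 2 * Δ := by
        refine (card_union_le _ _).trans ?_
        have h7 := card_union_le (univ.filter (fun g => H.src g = H.src f))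
          (univ.filter (fun g => H.dst g = H.src f))
        have h8 := card_union_le (univ.filter (fun g => H.src g = H.dst f))
          (univ.filter (fun g => H.dst g = H.dst f))
        omega
      have h9 : 2 * Δ * (k + 1) = 2 * Δ * k + 2 * Δ := by ring
      omega
    have h2 := Finset.card_nsmul_le_sum _ _ _ h1
    refine le_trans ?_ h2
    rw [nsmul_eq_mul, Nat.factorial_succ]
    push_cast
    refine mul_le_mul_of_nonneg_right ?_ (Nat.cast_nonneg _)
    have h3 : k + 1 ≤ 2 * Δ * (k + 1) := by nlinarith
    exact_mod_cast h3.trans hS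

private theorem TailA_inv1 {V E A B : Type} [Fintype E] (H : MG V E)
    (bad : E → A → A → B → Prop) (k : ℕ) : ∀ (S : Finset V) (x : V → A) (y : E → B) (s : V)
      (a : A), s ∈ S → TailA_cnt H bad (Function.update x s a, y) k S = TailA_cnt H bad (x, y) k S := by
  induction k with
  | zero => intro S x y s a _; simp [TailA_cnt]
  | succ k ih =>
    intro S x y s a hs
    rw [TailA_cnt, TailA_cnt]
    refine Finset.sum_congr rfl fun f _ => ?_
    rw [ih _ x y s a (mem_insert_of_mem (mem_insert_of_mem hs))]
    by_cases h1 : H.src f ∈ S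
    · simp [h1]
    · by_cases h2 : H.dst f ∈ S
      · simp [h2]
      · have h3 : H.src f ≠ s := fun h => h1 (h ▸ hs)
        have h4 : H.dst f ≠ s := fun h => h2 (h ▸ hs)
        simp only [Function.update_of_ne h3, Function.update_of_ne h4]

private theorem TailA_inv2 {V E A B : Type} [Fintype E] (H : MG V E)
    (bad : E → A → A → B → Prop) (k : ℕ) : ∀ (S : Finset V) (x : V → A) (y : E → B) (e : E)
      (b : B), H.src e ∈ S → TailA_cnt H bad (x, Function.update y e b) k S =
        TailA_cnt H bad (x, y) k S := by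
  induction k with
  | zero => intro S x y e b _; simp [TailA_cnt]
  | succ k ih =>
    intro S x y e b he
    rw [TailA_cnt, TailA_cnt]
    refine Finset.sum_congr rfl fun f _ => ?_
    rw [ih _ x y e b (mem_insert_of_mem (mem_insert_of_mem he))]
    by_cases h1 : H.src f ∈ S
    · simp [h1]
    · have h3 : f ≠ e := fun h => h1 (h ▸ he)
      simp only [Function.update_of_ne h3]

/-- resampling of three coordinates -/
private theorem TailA_resample {V E A B : Type} [Fintype V] [Fintype E] [Fintype A] [Fintype B]
    [Nonempty A] [Nonempty B] (bad : E → A → A → B → Prop) (u v : V) (huv : u ≠ v) (f : E)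
    (c : (V → A) × (E → B) → ℝ)
    (hu : ∀ x y a, c (Function.update x u a, y) = c (x, y))
    (hv : ∀ x y a, c (Function.update x v a, y) = c (x, y))
    (hf : ∀ x y b, c (x, Function.update y f b) = c (x, y)) :
    ∑ ω : (V → A) × (E → B), (if bad f (ω.1 u) (ω.1 v) (ω.2 f) then c ω else 0) =
      pr bad f * ∑ ω, c ω := by
  let sw : ((V → A) × (E → B)) × (A × A × B) → ((V → A) × (E → B)) × (A × A × B) := fun p =>
    ((Function.update (Function.update p.1.1 u p.2.1) v p.2.2.1, Function.update p.1.2 f p.2.2.2),
      (p.1.1 u, p.1.1 v, p.1.2 f))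
  have hsw : Function.Involutive sw := by
    rintro ⟨⟨x, y⟩, ⟨a, a', b⟩⟩
    simp only [sw]
    have h1 : Function.update (Function.update (Function.update (Function.update x u a) v a') u
        (x u)) v (x v) = x := by
      funext w
      by_cases h2 : w = v
      · subst h2; simp
      · rw [Function.update_of_ne h2]
        by_cases h3 : w = u
        · subst h3; simp
        · rw [Function.update_of_ne h3, Function.update_of_ne h2, Function.update_of_ne h3]
    have h2 : Function.update (Function.update y f b) f (y f) = y := by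
      rw [Function.update_idem, Function.update_eq_self]
    rw [h1, h2]
    simp [Function.update_of_ne huv]
  have key : ∑ p : ((V → A) × (E → B)) × (A × A × B),
      (if bad f (p.1.1 u) (p.1.1 v) (p.1.2 f) then c p.1 else 0) =
      ∑ p : ((V → A) × (E → B)) × (A × A × B), (if bad f p.2.1 p.2.2.1 p.2.2.2 then c p.1 else 0) := by
    rw [← Equiv.sum_comp hsw.toPerm]
    refine Finset.sum_congr rfl ?_
    rintro ⟨⟨x, y⟩, ⟨a, a', b⟩⟩ _
    show (if bad f (Function.update (Function.update x u a) v a' u)
      (Function.update (Function.update x u a) v a' v) (Function.update y f b f) then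
        c (Function.update (Function.update x u a) v a', Function.update y f b) else 0) = _
    rw [Function.update_of_ne huv, Function.update_self, Function.update_self,
      Function.update_self, hv, hu, hf]
  have e1 := Fintype.sum_prod_type (fun p : ((V → A) × (E → B)) × (A × A × B) =>
    (if bad f (p.1.1 u) (p.1.1 v) (p.1.2 f) then c p.1 else 0))
  have e2 := Fintype.sum_prod_type (fun p : ((V → A) × (E → B)) × (A × A × B) =>
    (if bad f p.2.1 p.2.2.1 p.2.2.2 then c p.1 else 0))
  rw [e1, e2] at key
  have hcard : (0 : ℝ) < Fintype.card A ^ 2 * Fintype.card B := by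
    have h1 : (0 : ℝ) < Fintype.card A := by exact_mod_cast Fintype.card_pos
    have h2 : (0 : ℝ) < Fintype.card B := by exact_mod_cast Fintype.card_pos
    positivity
  have h1 : ∀ ω : (V → A) × (E → B), ∑ _p : A × A × B,
      (if bad f (ω.1 u) (ω.1 v) (ω.2 f) then c ω else 0) =
      ((Fintype.card A : ℝ) ^ 2 * Fintype.card B) *
        (if bad f (ω.1 u) (ω.1 v) (ω.2 f) then c ω else 0) := by
    intro ω
    rw [Finset.sum_const, card_univ, nsmul_eq_mul, Fintype.card_prod, Fintype.card_prod]
    push_cast
    ring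
  have h2 : ∀ ω : (V → A) × (E → B), ∑ p : A × A × B,
      (if bad f p.1 p.2.1 p.2.2 then c ω else 0) =
      ((univ.filter (fun p : A × A × B => bad f p.1 p.2.1 p.2.2)).card : ℝ) * c ω := by
    intro ω
    rw [← Finset.sum_filter, Finset.sum_const, nsmul_eq_mul]
  simp only [h1, h2, ← Finset.mul_sum] at key
  unfold pr
  rw [div_mul_eq_mul_div, eq_div_iff hcard.ne', ← key]
  ring

private theorem TailA_up {V E A B : Type} [Fintype V] [Fintype E] [Fintype A] [Fintype B]
    [Nonempty A] [Nonempty B] (H : MG V E) (bad : E → A → A → B → Prop) (k : ℕ) :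
    ∀ S : Finset V, ∑ ω : (V → A) × (E → B), TailA_cnt H bad ω k S ≤
      (Fintype.card ((V → A) × (E → B)) : ℝ) * (∑ f, pr bad f) ^ k := by
  have hpr : ∀ f, 0 ≤ pr bad f := fun f => by unfold pr; positivity
  induction k with
  | zero =>
    intro S
    simp only [TailA_cnt, Finset.sum_const, card_univ, nsmul_eq_mul, pow_zero]
    exact le_rfl
  | succ k ih =>
    intro S
    simp only [TailA_cnt]
    rw [Finset.sum_comm, pow_succ', mul_left_comm, Finset.sum_mul]
    refine Finset.sum_le_sum fun f _ => ?_
    by_cases h1 : H.src f ∉ S ∧ H.dst f ∉ S ∧ H.src f ≠ H.dst f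
    · have h2 : ∀ ω : (V → A) × (E → B), (if (H.src f ∉ S ∧ H.dst f ∉ S ∧ H.src f ≠ H.dst f ∧
          bad f (ω.1 (H.src f)) (ω.1 (H.dst f)) (ω.2 f)) then
          TailA_cnt H bad ω k (insert (H.src f) (insert (H.dst f) S)) else 0) =
          (if bad f (ω.1 (H.src f)) (ω.1 (H.dst f)) (ω.2 f) then
          TailA_cnt H bad ω k (insert (H.src f) (insert (H.dst f) S)) else 0) := by
        intro ω
        simp [h1.1, h1.2.1, h1.2.2]
      simp only [h2]
      rw [TailA_resample bad (H.src f) (H.dst f) h1.2.2 f
        (fun ω => TailA_cnt H bad ω k (insert (H.src f) (insert (H.dst f) S)))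
        (fun x y a => TailA_inv1 H bad k _ x y _ a (mem_insert_self _ _))
        (fun x y a => TailA_inv1 H bad k _ x y _ a (mem_insert_of_mem (mem_insert_self _ _)))
        (fun x y b => TailA_inv2 H bad k _ x y _ b (mem_insert_self _ _))]
      exact mul_le_mul_of_nonneg_left (ih _) (hpr f)
    · have h2 : ∀ ω : (V → A) × (E → B), (if (H.src f ∉ S ∧ H.dst f ∉ S ∧ H.src f ≠ H.dst f ∧
          bad f (ω.1 (H.src f)) (ω.1 (H.dst f)) (ω.2 f)) then
          TailA_cnt H bad ω k (insert (H.src f) (insert (H.dst f) S)) else 0) = 0 := by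
        intro ω
        rw [if_neg]
        tauto
      simp only [h2, Finset.sum_const_zero]
      exact mul_nonneg (hpr f) (mul_nonneg (Nat.cast_nonneg _)
        (pow_nonneg (Finset.sum_nonneg fun f _ => hpr f) _))

theorem tail_abs {V E A B : Type} [Fintype V] [Fintype E] [Fintype A] [Fintype B] [Nonempty A]
    [Nonempty B] (H : MG V E) {Δ : ℕ} (hΔ1 : 1 ≤ Δ) (hΔ : H.DegLE Δ) (bad : E → A → A → B → Prop)
    (k : ℕ) :
    ((univ.filter (fun ω : (V → A) × (E → B) => 2 * Δ * k ≤
      (univ.filter (fun f => H.src f ≠ H.dst f ∧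
        bad f (ω.1 (H.src f)) (ω.1 (H.dst f)) (ω.2 f))).card)).card : ℝ) * (k.factorial : ℝ) ≤
      (Fintype.card ((V → A) × (E → B)) : ℝ) * (∑ f, pr bad f) ^ k := by
  refine le_trans ?_ (TailA_up H bad k ∅)
  rw [← nsmul_eq_mul]
  refine le_trans (Finset.card_nsmul_le_sum _ (fun ω => TailA_cnt H bad ω k ∅) _ ?_) ?_
  · intro ω hω
    apply TailA_low H hΔ1 hΔ bad ω k ∅
    have h1 := (mem_filter.1 hω).2
    simpa using h1
  · exact Finset.sum_le_univ_sum_of_nonneg fun ω => TailA_nonneg H bad ω k ∅

end Pool.Agent.MP_9cec2c_lc.SL
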