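import Pool.Agent.Lib.MP_9cec2c_lc.SL.UbF

/-!
Campaign SL, the upper bound (helper80): refutations of the Tseitin formulas with at most `C N^2 2^b`
lines of size at most `C N^2 / b`, for every `1 ≤ b ≤ N`.
-/

set_option autoImplicit false

open Finset

namespace Pool.Agent.MP_9cec2c_lc.SL

open Ub

theorem Ub.exists_k {N b : ℕ} (hb : 1 ≤ b) (hbN : b ≤ N) :
    ∃ k : ℕ, N ≤ b * 2 ^ k ∧ b * 2 ^ k ≤ 2 * N := by
  have hex : ∃ k : ℕ, N ≤ b * 2 ^ k := by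
    refine ⟨N, ?_⟩
    calc N ≤ 2 ^ N := Nat.lt_two_pow_self.le
      _ ≤ b * 2 ^ N := Nat.le_mul_of_pos_left _ hb
  classical
  refine ⟨Nat.find hex, Nat.find_spec hex, ?_⟩
  rcases Nat.eq_zero_or_pos (Nat.find hex) with h | h
  · rw [h, pow_zero]
    omega
  · have h1 := Nat.find_min hex (Nat.sub_lt h Nat.one_pos)
    obtain ⟨j, hj⟩ : ∃ j, Nat.find hex = j + 1 := ⟨Nat.find hex - 1, by omega⟩
    rw [hj] at h1 ⊢
    rw [Nat.add_sub_cancel] at h1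
    rw [pow_succ]
    have : b * (2 ^ j * 2) = 2 * (b * 2 ^ j) := by ring
    omega

/-- The upper bound: `b = 1` gives `C N²` lines of size at most `C N²`. -/
theorem upper (Δ : ℕ) : ∃ C : ℕ, ∀ (V E : Type) [Fintype V] [Fintype E] (G : MG V E)
    (γ : V → ZMod 2) (N b : ℕ), G.DegLE Δ → ∑ v, γ v = 1 → Fintype.card V ≤ N →
      Fintype.card E ≤ N → 1 ≤ b → b ≤ N →
      ∃ (l : ℕ) (L : Fin l → Form E),
        IsDerivation ubRules {φ | ∃ C ∈ G.tseitin γ, φ = clause C} L ∧ (∃ i, L i = Form.ff) ∧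
        (∀ i, (L i).size * b ≤ C * N ^ 2) ∧ l ≤ C * N ^ 2 * 2 ^ b := by
  refine ⟨26 * 2 ^ (Δ + 1) + 11 + Δ, ?_⟩
  intro V E _ _ G γ N b hG hγ hV hE hb hbN
  obtain ⟨k, hk1, hk2⟩ := Ub.exists_k hb hbN
  obtain ⟨l, L, h1, h2, h3, h4⟩ := Ub.upper_nat G hG γ hγ (hE.trans hk1)
  refine ⟨l, L, h1, h2, fun i => ?_, ?_⟩
  · have hN : N ≤ N ^ 2 := by nlinarith
    calc (L i).size * b ≤ (2 * (b * 4 ^ k) + 3 + Δ) * b := Nat.mul_le_mul_right _ (h3 i)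
      _ = 2 * (b * 2 ^ k) ^ 2 + (3 + Δ) * b := by
          have : (4 : ℕ) ^ k = 2 ^ k * 2 ^ k := by rw [← mul_pow]; norm_num
          rw [this]
          ring
      _ ≤ 2 * (2 * N) ^ 2 + (3 + Δ) * N := by gcongr
      _ ≤ 2 * (2 * N) ^ 2 + (3 + Δ) * N ^ 2 := by gcongr
      _ = (11 + Δ) * N ^ 2 := by ring
      _ ≤ (26 * 2 ^ (Δ + 1) + 11 + Δ) * N ^ 2 := by gcongr; omega
  · have hk : k ≤ 2 * N := by
      calc k ≤ 2 ^ k := Nat.lt_two_pow_self.le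
        _ ≤ b * 2 ^ k := Nat.le_mul_of_pos_left _ hb
        _ ≤ 2 * N := hk2
    have hN1 : 1 ≤ N := hb.trans hbN
    calc l ≤ (Fintype.card V + 1) * (2 ^ (Δ + 1) * 2 ^ b * (2 * k + 8 + b)) := h4
      _ ≤ (2 * N) * (2 ^ (Δ + 1) * 2 ^ b * (13 * N)) := by
          gcongr
          · omega
          · omega
      _ = 26 * 2 ^ (Δ + 1) * N ^ 2 * 2 ^ b := by ring
      _ ≤ (26 * 2 ^ (Δ + 1) + 11 + Δ) * N ^ 2 * 2 ^ b := by gcongr; omega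

/-- The choice of `b` for lines of size `C N ^ (2 - ε)`. -/
theorem Ub.exists_b {ε : ℝ} (h0 : 0 < ε) (h1 : ε ≤ 1) (C : ℕ) {N : ℕ} (hN : 1 ≤ N) :
    ∃ b : ℕ, 1 ≤ b ∧ b ≤ N ∧
      (∀ s : ℕ, s * b ≤ C * N ^ 2 → (s : ℝ) ≤ (C + (2 / ε + 2)) * (N : ℝ) ^ (2 - ε)) ∧
      ∀ l : ℕ, l ≤ C * N ^ 2 * 2 ^ b → (l : ℝ) ≤ Real.exp ((C + (2 / ε + 2)) * (N : ℝ) ^ ε) := by
  have hNr : (1 : ℝ) ≤ N := by exact_mod_cast hN
  have hN0 : (0 : ℝ) < N := by linarith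
  have hp1 : (1 : ℝ) ≤ (N : ℝ) ^ ε := Real.one_le_rpow hNr h0.le
  have hpN : (N : ℝ) ^ ε ≤ N := by
    calc (N : ℝ) ^ ε ≤ (N : ℝ) ^ (1 : ℝ) := Real.rpow_le_rpow_of_exponent_le hNr h1
      _ = N := Real.rpow_one _
  set b := ⌈(N : ℝ) ^ ε⌉₊ with hb
  have hbl : (N : ℝ) ^ ε ≤ b := Nat.le_ceil _
  have hbu : (b : ℝ) ≤ 2 * (N : ℝ) ^ ε := by
    have := (Nat.ceil_lt_add_one (by linarith : (0 : ℝ) ≤ (N : ℝ) ^ ε)).le
    linarith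
  refine ⟨b, Nat.one_le_ceil_iff.mpr (by linarith), Nat.ceil_le.mpr hpN, fun s h4 => ?_,
    fun l h5 => ?_⟩
  · have h6 : (s : ℝ) * b ≤ C * (N : ℝ) ^ 2 := by exact_mod_cast h4
    have h7 : (s : ℝ) * (N : ℝ) ^ ε ≤ C * (N : ℝ) ^ 2 :=
      (mul_le_mul_of_nonneg_left hbl (Nat.cast_nonneg _)).trans h6
    have h8 : (N : ℝ) ^ (2 : ℕ) = (N : ℝ) ^ (2 - ε) * (N : ℝ) ^ ε := by
      rw [← Real.rpow_add hN0, sub_add_cancel]
      norm_num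
    rw [h8, ← mul_assoc] at h7
    have h9 := le_of_mul_le_mul_right h7 (by positivity)
    refine h9.trans ?_
    have : (0 : ℝ) ≤ (N : ℝ) ^ (2 - ε) := by positivity
    have h10 : (0 : ℝ) ≤ 2 / ε + 2 := by positivity
    nlinarith
  · have h6 : (l : ℝ) ≤ C * (N : ℝ) ^ 2 * 2 ^ b := by exact_mod_cast h5
    have e1 : (C : ℝ) ≤ Real.exp (C * (N : ℝ) ^ ε) := by
      have h7 : (C : ℝ) ≤ C * (N : ℝ) ^ ε := le_mul_of_one_le_right (Nat.cast_nonneg _) hp1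
      have h8 := Real.add_one_le_exp ((C : ℝ) * (N : ℝ) ^ ε)
      linarith
    have e2 : (N : ℝ) ^ 2 ≤ Real.exp (2 / ε * (N : ℝ) ^ ε) := by
      have h7 : Real.log N ≤ (N : ℝ) ^ ε / ε := Real.log_le_rpow_div hN0.le h0
      have h8 : (N : ℝ) ^ 2 = Real.exp (2 * Real.log N) := by
        rw [two_mul, Real.exp_add, Real.exp_log hN0]
        ring
      rw [h8]
      apply Real.exp_le_exp.mpr
      calc 2 * Real.log N ≤ 2 * ((N : ℝ) ^ ε / ε) := by linarith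
        _ = 2 / ε * (N : ℝ) ^ ε := by ring
    have e3 : (2 : ℝ) ^ b ≤ Real.exp (2 * (N : ℝ) ^ ε) := by
      calc (2 : ℝ) ^ b ≤ (Real.exp 1) ^ b := by
            gcongr
            have := Real.add_one_le_exp (1 : ℝ)
            linarith
        _ = Real.exp b := by rw [← Real.exp_nat_mul, mul_one]
        _ ≤ Real.exp (2 * (N : ℝ) ^ ε) := Real.exp_le_exp.mpr hbu
    calc (l : ℝ) ≤ C * (N : ℝ) ^ 2 * 2 ^ b := h6
      _ ≤ Real.exp (C * (N : ℝ) ^ ε) * Real.exp (2 / ε * (N : ℝ) ^ ε) *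
          Real.exp (2 * (N : ℝ) ^ ε) := by gcongr
      _ = Real.exp ((C + (2 / ε + 2)) * (N : ℝ) ^ ε) := by
          rw [← Real.exp_add, ← Real.exp_add]
          congr 1
          ring

theorem Ub.one_le {V : Type} [Fintype V] {γ : V → ZMod 2} {N : ℕ} (hγ : ∑ v, γ v = 1)
    (hV : Fintype.card V ≤ N) : 1 ≤ N := by
  refine le_trans ?_ hV
  rw [Nat.one_le_iff_ne_zero, ← Nat.pos_iff_ne_zero, Fintype.card_pos_iff]
  by_contra hcon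
  rw [not_nonempty_iff] at hcon
  rw [Finset.univ_eq_empty, Finset.sum_empty] at hγ
  exact zero_ne_one hγ

/-- The upper bound for lines of size `C N ^ (2 - ε)`. -/
theorem upper_eps (Δ : ℕ) {ε : ℝ} (h0 : 0 < ε) (h1 : ε ≤ 1) : ∃ C : ℝ, 0 < C ∧
    ∀ (V E : Type) [Fintype V] [Fintype E] (G : MG V E) (γ : V → ZMod 2) (N : ℕ), G.DegLE Δ →
      ∑ v, γ v = 1 → Fintype.card V ≤ N → Fintype.card E ≤ N →
      ∃ (l : ℕ) (L : Fin l → Form E),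
        IsDerivation ubRules {φ | ∃ C ∈ G.tseitin γ, φ = clause C} L ∧ (∃ i, L i = Form.ff) ∧
        (∀ i, ((L i).size : ℝ) ≤ C * (N : ℝ) ^ (2 - ε)) ∧ (l : ℝ) ≤ Real.exp (C * (N : ℝ) ^ ε) := by
  obtain ⟨C, hC⟩ := upper Δ
  refine ⟨C + (2 / ε + 2), by positivity, ?_⟩
  intro V E _ _ G γ N hG hγ hV hE
  obtain ⟨b, hb1, hbN, h6, h7⟩ := Ub.exists_b h0 h1 C (Ub.one_le hγ hV)
  obtain ⟨l, L, h2, h3, h4, h5⟩ := hC V E G γ N b hG hγ hV hE hb1 hbN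
  exact ⟨l, L, h2, h3, fun i => h6 _ (h4 i), h7 _ h5⟩

end Pool.Agent.MP_9cec2c_lc.SL
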