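import Pool.Agent.Lib.MP_9cec2c_lc.SL.Frege

/-!
Campaign SL, upper bound, part A (helper80): counting lines of derivations. `Reach S Γ s X Y m`: from
the lines in `X` all lines in `Y` are reached by at most `m` further lines of size at most `s`, by the
rules in `S` and the axioms in `Γ`.
-/

set_option autoImplicit false

namespace Pool.Agent.MP_9cec2c_lc.SL.Ub

variable {V : Type}

/-- One step. -/
def Step (S : Set Rule) (Γ X : Set (Form V)) (φ : Form V) : Prop :=
  φ ∈ Γ ∨ ∃ R ∈ S, ∃ σ : ℕ → Form V, R.concl.subst σ = φ ∧ ∀ p ∈ R.prems, p.subst σ ∈ X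

/-- Derivations, the last line first. -/
inductive Chain (S : Set Rule) (Γ X : Set (Form V)) : List (Form V) → Prop
  | nil : Chain S Γ X []
  | cons {φ : Form V} {l : List (Form V)} : Chain S Γ X l → Step S Γ (X ∪ {ψ | ψ ∈ l}) φ →
      Chain S Γ X (φ :: l)

theorem Step.mono {S : Set Rule} {Γ X X' : Set (Form V)} {φ : Form V} (h : Step S Γ X φ)
    (hX : X ⊆ X') : Step S Γ X' φ := by
  rcases h with h | ⟨R, hR, σ, h1, h2⟩
  · exact Or.inl h
  · exact Or.inr ⟨R, hR, σ, h1, fun p hp => hX (h2 p hp)⟩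

theorem Chain.append {S : Set Rule} {Γ X Y : Set (Form V)} {l l' : List (Form V)}
    (h : Chain S Γ X l) (hY : Y ⊆ X ∪ {ψ | ψ ∈ l}) (h' : Chain S Γ Y l') :
    Chain S Γ X (l' ++ l) := by
  induction h' with
  | nil => exact h
  | @cons φ l'' h1 h2 ih =>
    refine Chain.cons ih (h2.mono ?_)
    rintro ψ (hψ | hψ)
    · rcases hY hψ with h3 | h3
      · exact Or.inl h3
      · exact Or.inr (List.mem_append_right _ h3)
    · exact Or.inr (List.mem_append_left _ hψ)

/-- From `X` one reaches `Y` by at most `m` lines of size at most `s`. -/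
def Reach (S : Set Rule) (Γ : Set (Form V)) (s : ℕ) (X Y : Set (Form V)) (m : ℕ) : Prop :=
  ∃ l : List (Form V), Chain S Γ X l ∧ l.length ≤ m ∧ (∀ φ ∈ l, φ.size ≤ s) ∧
    Y ⊆ X ∪ {ψ | ψ ∈ l}

variable {S : Set Rule} {Γ : Set (Form V)} {s : ℕ}

theorem Reach.refl {X Y : Set (Form V)} (h : Y ⊆ X) : Reach S Γ s X Y 0 :=
  ⟨[], Chain.nil, le_rfl, by simp, fun _ hψ => Or.inl (h hψ)⟩

theorem Reach.mono {X X' Y Y' : Set (Form V)} {m m' : ℕ} (h : Reach S Γ s X Y m)
    (hX : X ⊆ X') (hY : Y' ⊆ Y) (hm : m ≤ m') : Reach S Γ s X' Y' m' := by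
  obtain ⟨l, h1, h2, h3, h4⟩ := h
  refine ⟨l, ?_, h2.trans hm, h3, ?_⟩
  · have := Chain.append (S := S) (Γ := Γ) (X := X') (Y := X) (l := []) Chain.nil
      (fun ψ hψ => Or.inl (hX hψ)) h1
    simpa using this
  · intro ψ hψ
    rcases h4 (hY hψ) with h5 | h5
    · exact Or.inl (hX h5)
    · exact Or.inr h5

theorem Reach.trans {X Y Z : Set (Form V)} {m m' : ℕ} (h : Reach S Γ s X Y m)
    (h' : Reach S Γ s (X ∪ Y) Z m') : Reach S Γ s X Z (m + m') := by
  obtain ⟨l, h1, h2, h3, h4⟩ := h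
  obtain ⟨l', h1', h2', h3', h4'⟩ := h'
  have h5 : X ∪ Y ⊆ X ∪ {ψ | ψ ∈ l} := by
    rintro ψ (hψ | hψ)
    · exact Or.inl hψ
    · exact h4 hψ
  refine ⟨l' ++ l, h1.append h5 h1', ?_, ?_, ?_⟩
  · rw [List.length_append]
    omega
  · intro φ hφ
    rcases List.mem_append.mp hφ with h6 | h6
    · exact h3' φ h6
    · exact h3 φ h6
  · intro ψ hψ
    rcases h4' hψ with h6 | h6
    · rcases h5 h6 with h7 | h7
      · exact Or.inl h7
      · exact Or.inr (List.mem_append_right _ h7)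
    · exact Or.inr (List.mem_append_left _ h6)

theorem Reach.union {X Y Z : Set (Form V)} {m m' : ℕ} (h : Reach S Γ s X Y m)
    (h' : Reach S Γ s X Z m') : Reach S Γ s X (Y ∪ Z) (m + m') := by
  obtain ⟨l, h1, h2, h3, h4⟩ := h
  obtain ⟨l', h1', h2', h3', h4'⟩ := h'
  refine ⟨l' ++ l, h1.append (fun ψ hψ => Or.inl hψ) h1', ?_, ?_, ?_⟩
  · rw [List.length_append]
    omega
  · intro φ hφ
    rcases List.mem_append.mp hφ with h6 | h6
    · exact h3' φ h6
    · exact h3 φ h6
  · rintro ψ (hψ | hψ)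
    · rcases h4 hψ with h7 | h7
      · exact Or.inl h7
      · exact Or.inr (List.mem_append_right _ h7)
    · rcases h4' hψ with h6 | h6
      · exact Or.inl h6
      · exact Or.inr (List.mem_append_left _ h6)

theorem Reach.step {X : Set (Form V)} {φ : Form V} (h : Step S Γ X φ) (hs : φ.size ≤ s) :
    Reach S Γ s X {φ} 1 := by
  refine ⟨[φ], Chain.cons Chain.nil (h.mono (fun ψ hψ => Or.inl hψ)), le_rfl, by simpa using hs,
    ?_⟩
  rintro ψ rfl
  exact Or.inr (by simp)

theorem Reach.iUnion_finset {ι : Type} (I : Finset ι) {X : Set (Form V)} {Y : ι → Set (Form V)}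
    {m : ℕ} (h : ∀ i ∈ I, Reach S Γ s X (Y i) m) :
    Reach S Γ s X (⋃ i ∈ I, Y i) (I.card * m) := by
  classical
  induction I using Finset.induction_on with
  | empty => simpa using Reach.refl (S := S) (Γ := Γ) (s := s) (X := X) (Y := ∅) (by simp)
  | @insert a I ha ih =>
    have h1 := ih fun i hi => h i (Finset.mem_insert_of_mem hi)
    have h2 := h a (Finset.mem_insert_self a I)
    rw [Finset.card_insert_of_notMem ha]
    refine (h2.union h1).mono (fun _ h => h) ?_ (by ring_nf; omega)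
    rw [Finset.set_biUnion_insert]

theorem Reach.iUnion {ι : Type} [Fintype ι] {X : Set (Form V)} {Y : ι → Set (Form V)}
    {m : ℕ} (h : ∀ i, Reach S Γ s X (Y i) m) :
    Reach S Γ s X (⋃ i, Y i) (Fintype.card ι * m) := by
  have := Reach.iUnion_finset (S := S) (Γ := Γ) (s := s) (X := X) (Y := Y) (m := m)
    (Finset.univ : Finset ι) fun i _ => h i
  simpa using this

end Pool.Agent.MP_9cec2c_lc.SL.Ub
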