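import Pool.Agent.Lib.MP_9cec2c_lc.SL.UbA

set_option autoImplicit false

namespace Pool.Agent.MP_9cec2c_lc.SL.Ub

open Form

variable {V : Type}

/-- The literal `A = c`. -/
def sg (A : Form V) : Bool → Form V
  | true => A
  | false => neg A

/-- The parity of two formulas. -/
def xr (A B : Form V) : Form V := or (and A (neg B)) (and (neg A) B)

/-- `C'` implies `C` if `X = a`. -/
def cimp (X : Form V) (a : Bool) (C' C : Form V) : Form V := or (neg (sg X a)) (or (neg C') C)

/-- The ubRules. -/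
def ubRules : Set Rule :=
  {⟨[], neg ff⟩, ⟨[], tt⟩,
    ⟨[var 0], or (var 0) (var 1)⟩, ⟨[var 1], or (var 0) (var 1)⟩,
    ⟨[var 0, var 1], and (var 0) (var 1)⟩,
    ⟨[neg (var 0)], neg (and (var 0) (var 1))⟩, ⟨[neg (var 1)], neg (and (var 0) (var 1))⟩,
    ⟨[neg (var 0), neg (var 1)], neg (xr (var 0) (var 1))⟩,
    ⟨[or ff (neg (var 0)), var 0], ff⟩,
    ⟨[or (or (var 0) (var 1)) (var 2), or (or (neg (var 0)) (var 1)) (var 2)],
      or (var 1) (var 2)⟩} ∪
  Set.range (fun p : Bool × Bool => (⟨[], cimp (var 0) p.1 (sg (var 0) p.2)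
      (sg ff (xor p.2 p.1))⟩ : Rule)) ∪
  Set.range (fun p : Bool × Bool => (⟨[], cimp (var 0) p.1 (sg ff p.2)
      (sg (var 0) (xor p.2 p.1))⟩ : Rule)) ∪
  Set.range (fun p : Bool × Bool =>
    (⟨[cimp (var 0) p.1 (sg (var 1) true) (sg (var 2) (xor true p.1)),
        cimp (var 0) p.1 (sg (var 1) false) (sg (var 2) (xor false p.1))],
      cimp (var 0) p.1 (sg (xr (var 1) (var 3)) p.2) (sg (xr (var 2) (var 3)) (xor p.2 p.1))⟩ :
        Rule)) ∪
  Set.range (fun p : Bool × Bool =>
    (⟨[cimp (var 0) p.1 (sg (var 1) true) (sg (var 2) (xor true p.1)),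
        cimp (var 0) p.1 (sg (var 1) false) (sg (var 2) (xor false p.1))],
      cimp (var 0) p.1 (sg (xr (var 3) (var 1)) p.2) (sg (xr (var 3) (var 2)) (xor p.2 p.1))⟩ :
        Rule)) ∪
  Set.range (fun a : Bool => (⟨[], cimp (var 0) a (var 1) (var 1)⟩ : Rule)) ∪
  Set.range (fun a : Bool => (⟨[cimp (var 0) a (var 1) (var 2), cimp (var 0) a (var 3) (var 4)],
    cimp (var 0) a (and (var 1) (var 3)) (and (var 2) (var 4))⟩ : Rule)) ∪
  Set.range (fun a : Bool => (⟨[cimp (var 0) a (var 3) (var 4)],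
    cimp (var 0) a (and (var 1) (var 3)) (and (var 1) (var 4))⟩ : Rule)) ∪
  Set.range (fun a : Bool => (⟨[or (var 1) (neg (var 3)), cimp (var 0) a (var 2) (var 3)],
    or (or (sg (var 0) (!a)) (var 1)) (neg (var 2))⟩ : Rule))

theorem ubRules_finite : ubRules.Finite := by
  unfold ubRules
  refine Set.Finite.union ?_ (Set.finite_range _)
  refine Set.Finite.union ?_ (Set.finite_range _)
  refine Set.Finite.union ?_ (Set.finite_range _)
  refine Set.Finite.union ?_ (Set.finite_range _)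
  refine Set.Finite.union ?_ (Set.finite_range _)
  refine Set.Finite.union ?_ (Set.finite_range _)
  refine Set.Finite.union ?_ (Set.finite_range _)
  refine Set.Finite.union ?_ (Set.finite_range _)
  exact Set.toFinite _

theorem ubRules_sound : ∀ R ∈ ubRules, R.Sound := by
  rintro R ((((((((h | h) | h) | h) | h) | h) | h) | h) | h)
  · simp only [Set.mem_insert_iff, Set.mem_singleton_iff] at h
    rcases h with rfl | rfl | rfl | rfl | rfl | rfl | rfl | rfl | rfl | rfl <;>
      intro x hx <;> simp [Form.eval, xr] at hx ⊢ <;> grind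
  · obtain ⟨⟨a, c⟩, rfl⟩ := h
    intro x _
    cases a <;> cases c <;> simp [Form.eval, cimp, sg]
  · obtain ⟨⟨a, c⟩, rfl⟩ := h
    intro x _
    cases a <;> cases c <;> simp [Form.eval, cimp, sg]
  · obtain ⟨⟨a, c⟩, rfl⟩ := h
    intro x hx
    cases a <;> cases c <;> simp [Form.eval, cimp, sg, xr] at hx ⊢ <;> grind
  · obtain ⟨⟨a, c⟩, rfl⟩ := h
    intro x hx
    cases a <;> cases c <;> simp [Form.eval, cimp, sg, xr] at hx ⊢ <;> grind
  · obtain ⟨a, rfl⟩ := h
    intro x _
    cases a <;> simp [Form.eval, cimp, sg]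
  · obtain ⟨a, rfl⟩ := h
    intro x hx
    cases a <;> simp [Form.eval, cimp, sg] at hx ⊢ <;> grind
  · obtain ⟨a, rfl⟩ := h
    intro x hx
    cases a <;> simp [Form.eval, cimp, sg] at hx ⊢ <;> grind
  · obtain ⟨a, rfl⟩ := h
    intro x hx
    cases a <;> simp [Form.eval, cimp, sg] at hx ⊢ <;> grind

variable {W : Type}

theorem sg_subst (σ : ℕ → Form W) (A : Form ℕ) (c : Bool) :
    (sg A c).subst σ = sg (A.subst σ) c := by
  cases c <;> rfl

theorem xr_subst (σ : ℕ → Form W) (A B : Form ℕ) :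
    (xr A B).subst σ = xr (A.subst σ) (B.subst σ) := rfl

theorem cimp_subst (σ : ℕ → Form W) (X : Form ℕ) (a : Bool) (A B : Form ℕ) :
    (cimp X a A B).subst σ = cimp (X.subst σ) a (A.subst σ) (B.subst σ) := by
  cases a <;> rfl

/-- A substitution. -/
def sub5 (A0 A1 A2 A3 A4 : Form V) : ℕ → Form V
  | 0 => A0
  | 1 => A1
  | 2 => A2
  | 3 => A3
  | _ => A4

variable {Γ X : Set (Form V)}

theorem step_negff : Step ubRules Γ X (neg ff) := by
  refine Or.inr ⟨⟨[], neg ff⟩, ?_, fun _ => ff, rfl, by simp⟩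
  simp only [ubRules, Set.mem_union]
  simp

theorem step_tt : Step ubRules Γ X tt := by
  refine Or.inr ⟨⟨[], tt⟩, ?_, fun _ => ff, rfl, by simp⟩
  simp only [ubRules, Set.mem_union]
  simp

theorem step_orl {A : Form V} (C : Form V) (h : A ∈ X) : Step ubRules Γ X (or A C) := by
  refine Or.inr ⟨⟨[var 0], or (var 0) (var 1)⟩, ?_, sub5 A C ff ff ff, rfl, ?_⟩
  · simp only [ubRules, Set.mem_union]
    simp
  · simpa [Form.subst, sub5] using h

theorem step_orr {C : Form V} (A : Form V) (h : C ∈ X) : Step ubRules Γ X (or A C) := by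
  refine Or.inr ⟨⟨[var 1], or (var 0) (var 1)⟩, ?_, sub5 A C ff ff ff, rfl, ?_⟩
  · simp only [ubRules, Set.mem_union]
    simp
  · simpa [Form.subst, sub5] using h

theorem step_and {A C : Form V} (hA : A ∈ X) (hC : C ∈ X) : Step ubRules Γ X (and A C) := by
  refine Or.inr ⟨⟨[var 0, var 1], and (var 0) (var 1)⟩, ?_, sub5 A C ff ff ff, rfl, ?_⟩
  · simp only [ubRules, Set.mem_union]
    simp
  · simpa [Form.subst, sub5] using ⟨hA, hC⟩

theorem step_nandl {A : Form V} (C : Form V) (h : neg A ∈ X) : Step ubRules Γ X (neg (and A C)) := by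
  refine Or.inr ⟨⟨[neg (var 0)], neg (and (var 0) (var 1))⟩, ?_, sub5 A C ff ff ff, rfl, ?_⟩
  · simp only [ubRules, Set.mem_union]
    simp
  · simpa [Form.subst, sub5] using h

theorem step_nandr {C : Form V} (A : Form V) (h : neg C ∈ X) : Step ubRules Γ X (neg (and A C)) := by
  refine Or.inr ⟨⟨[neg (var 1)], neg (and (var 0) (var 1))⟩, ?_, sub5 A C ff ff ff, rfl, ?_⟩
  · simp only [ubRules, Set.mem_union]
    simp
  · simpa [Form.subst, sub5] using h

theorem step_nxr {A B : Form V} (hA : neg A ∈ X) (hB : neg B ∈ X) :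
    Step ubRules Γ X (neg (xr A B)) := by
  refine Or.inr ⟨⟨[neg (var 0), neg (var 1)], neg (xr (var 0) (var 1))⟩, ?_,
    sub5 A B ff ff ff, rfl, ?_⟩
  · simp only [ubRules, Set.mem_union]
    simp
  · simpa [Form.subst, sub5] using ⟨hA, hB⟩

theorem step_end {A : Form V} (h1 : or ff (neg A) ∈ X) (h2 : A ∈ X) : Step ubRules Γ X ff := by
  refine Or.inr ⟨⟨[or ff (neg (var 0)), var 0], ff⟩, ?_, sub5 A ff ff ff ff, rfl, ?_⟩
  · simp only [ubRules, Set.mem_union]
    simp
  · simpa [Form.subst, sub5] using ⟨h1, h2⟩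

theorem step_elim {A K C : Form V} (h1 : or (or A K) C ∈ X)
    (h2 : or (or (neg A) K) C ∈ X) : Step ubRules Γ X (or K C) := by
  refine Or.inr ⟨⟨[or (or (var 0) (var 1)) (var 2), or (or (neg (var 0)) (var 1))
    (var 2)], or (var 1) (var 2)⟩, ?_, sub5 A K C ff ff, rfl, ?_⟩
  · simp only [ubRules, Set.mem_union]
    simp
  · simpa [Form.subst, sub5] using ⟨h1, h2⟩

theorem step_leaf1 (A : Form V) (a c : Bool) :
    Step ubRules Γ X (cimp A a (sg A c) (sg ff (xor c a))) := by
  refine Or.inr ⟨⟨[], cimp (var 0) a (sg (var 0) c) (sg ff (xor c a))⟩, ?_,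
    sub5 A ff ff ff ff, ?_, by simp⟩
  · simp only [ubRules, Set.mem_union]
    exact Or.inl (Or.inl (Or.inl (Or.inl (Or.inl (Or.inl (Or.inl (Or.inr ⟨(a, c), rfl⟩)))))))
  · simp only [cimp_subst, sg_subst]
    rfl

theorem step_leaf2 (A : Form V) (a c : Bool) :
    Step ubRules Γ X (cimp A a (sg ff c) (sg A (xor c a))) := by
  refine Or.inr ⟨⟨[], cimp (var 0) a (sg ff c) (sg (var 0) (xor c a))⟩, ?_,
    sub5 A ff ff ff ff, ?_, by simp⟩
  · simp only [ubRules, Set.mem_union]
    exact Or.inl (Or.inl (Or.inl (Or.inl (Or.inl (Or.inl (Or.inr ⟨(a, c), rfl⟩))))))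
  · simp only [cimp_subst, sg_subst]
    rfl

theorem step_xl {A B' B C : Form V} {a : Bool} (c : Bool)
    (h1 : cimp A a (sg B' true) (sg B (xor true a)) ∈ X)
    (h2 : cimp A a (sg B' false) (sg B (xor false a)) ∈ X) :
    Step ubRules Γ X (cimp A a (sg (xr B' C) c) (sg (xr B C) (xor c a))) := by
  refine Or.inr ⟨⟨[cimp (var 0) a (sg (var 1) true) (sg (var 2) (xor true a)),
        cimp (var 0) a (sg (var 1) false) (sg (var 2) (xor false a))],
      cimp (var 0) a (sg (xr (var 1) (var 3)) c) (sg (xr (var 2) (var 3)) (xor c a))⟩, ?_,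
    sub5 A B' B C ff, ?_, ?_⟩
  · simp only [ubRules, Set.mem_union]
    exact Or.inl (Or.inl (Or.inl (Or.inl (Or.inl (Or.inr ⟨(a, c), rfl⟩)))))
  · simp only [cimp_subst, sg_subst, xr_subst]
    rfl
  · intro p hp
    simp only [List.mem_cons, List.not_mem_nil, or_false] at hp
    rcases hp with rfl | rfl
    · simp only [cimp_subst, sg_subst]
      exact h1
    · simp only [cimp_subst, sg_subst]
      exact h2

theorem step_xrr {A B' B C : Form V} {a : Bool} (c : Bool)
    (h1 : cimp A a (sg B' true) (sg B (xor true a)) ∈ X)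
    (h2 : cimp A a (sg B' false) (sg B (xor false a)) ∈ X) :
    Step ubRules Γ X (cimp A a (sg (xr C B') c) (sg (xr C B) (xor c a))) := by
  refine Or.inr ⟨⟨[cimp (var 0) a (sg (var 1) true) (sg (var 2) (xor true a)),
        cimp (var 0) a (sg (var 1) false) (sg (var 2) (xor false a))],
      cimp (var 0) a (sg (xr (var 3) (var 1)) c) (sg (xr (var 3) (var 2)) (xor c a))⟩, ?_,
    sub5 A B' B C ff, ?_, ?_⟩
  · simp only [ubRules, Set.mem_union]
    exact Or.inl (Or.inl (Or.inl (Or.inl (Or.inr ⟨(a, c), rfl⟩))))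
  · simp only [cimp_subst, sg_subst, xr_subst]
    rfl
  · intro p hp
    simp only [List.mem_cons, List.not_mem_nil, or_false] at hp
    rcases hp with rfl | rfl
    · simp only [cimp_subst, sg_subst]
      exact h1
    · simp only [cimp_subst, sg_subst]
      exact h2

theorem step_id (A : Form V) (a : Bool) (C : Form V) : Step ubRules Γ X (cimp A a C C) := by
  refine Or.inr ⟨⟨[], cimp (var 0) a (var 1) (var 1)⟩, ?_, sub5 A C ff ff ff, ?_, by simp⟩
  · simp only [ubRules, Set.mem_union]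
    exact Or.inl (Or.inl (Or.inl (Or.inr ⟨a, rfl⟩)))
  · simp only [cimp_subst]
    rfl

theorem step_andimp {A L' L C' C : Form V} {a : Bool} (h1 : cimp A a L' L ∈ X)
    (h2 : cimp A a C' C ∈ X) : Step ubRules Γ X (cimp A a (and L' C') (and L C)) := by
  refine Or.inr ⟨⟨[cimp (var 0) a (var 1) (var 2), cimp (var 0) a (var 3) (var 4)],
    cimp (var 0) a (and (var 1) (var 3)) (and (var 2) (var 4))⟩, ?_, sub5 A L' L C' C, ?_, ?_⟩
  · simp only [ubRules, Set.mem_union]
    exact Or.inl (Or.inl (Or.inr ⟨a, rfl⟩))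
  · simp only [cimp_subst]
    rfl
  · intro p hp
    simp only [List.mem_cons, List.not_mem_nil, or_false] at hp
    rcases hp with rfl | rfl
    · simp only [cimp_subst]
      exact h1
    · simp only [cimp_subst]
      exact h2

theorem step_andr {A C' C : Form V} {a : Bool} (L : Form V) (h : cimp A a C' C ∈ X) :
    Step ubRules Γ X (cimp A a (and L C') (and L C)) := by
  refine Or.inr ⟨⟨[cimp (var 0) a (var 3) (var 4)],
    cimp (var 0) a (and (var 1) (var 3)) (and (var 1) (var 4))⟩, ?_, sub5 A L ff C' C, ?_, ?_⟩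
  · simp only [ubRules, Set.mem_union]
    exact Or.inl (Or.inr ⟨a, rfl⟩)
  · simp only [cimp_subst]
    rfl
  · intro p hp
    simp only [List.mem_cons, List.not_mem_nil, or_false] at hp
    rcases hp with rfl
    simp only [cimp_subst]
    exact h

theorem step_ctx {A K C' C : Form V} {a : Bool} (h1 : or K (neg C) ∈ X)
    (h2 : cimp A a C' C ∈ X) : Step ubRules Γ X (or (or (sg A (!a)) K) (neg C')) := by
  refine Or.inr ⟨⟨[or (var 1) (neg (var 3)), cimp (var 0) a (var 2) (var 3)],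
    or (or (sg (var 0) (!a)) (var 1)) (neg (var 2))⟩, ?_, sub5 A K C' C ff, ?_, ?_⟩
  · simp only [ubRules, Set.mem_union]
    exact Or.inr ⟨a, rfl⟩
  · simp only [Form.subst, sg_subst]
    rfl
  · intro p hp
    simp only [List.mem_cons, List.not_mem_nil, or_false] at hp
    rcases hp with rfl | rfl
    · exact h1
    · simp only [cimp_subst]
      exact h2

end Pool.Agent.MP_9cec2c_lc.SL.Ub
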