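import Pool.Agent.Lib.MP_9cec2c_lc.SL.UbB

set_option autoImplicit false

namespace Pool.Agent.MP_9cec2c_lc.SL.Ub

open Form

variable {V : Type}

/-- Balanced parity of the leaves `f o, …, f (o + 2 ^ k - 1)`. -/
def par (f : ℕ → Form V) : ℕ → ℕ → Form V
  | 0, o => f o
  | k + 1, o => xr (par f k o) (par f k (o + 2 ^ k))

/-- The parity of the block `i` is `b i`, for all `i < j`. -/
def cn (f : ℕ → Form V) (k : ℕ) (b : ℕ → Bool) : ℕ → Form V
  | 0 => tt
  | j + 1 => and (sg (par f k (j * 2 ^ k)) (b j)) (cn f k b j)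

/-- The leaves: the variables `x i`, `i ∈ S`. -/
def leaf (x : ℕ → V) (S : Finset ℕ) (i : ℕ) : Form V := if i ∈ S then var (x i) else ff

theorem size_sg (A : Form V) (c : Bool) : (sg A c).size = A.size := by
  cases c <;> rfl

theorem size_xr (A B : Form V) : (xr A B).size = 2 * (A.size + B.size) := by
  simp only [xr, Form.size]
  ring

theorem size_cimp (X : Form V) (a : Bool) (A B : Form V) :
    (cimp X a A B).size = X.size + A.size + B.size := by
  simp only [cimp, Form.size, size_sg]
  ring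

theorem size_leaf (x : ℕ → V) (S : Finset ℕ) (i : ℕ) : (leaf x S i).size = 1 := by
  unfold leaf
  split_ifs <;> rfl

theorem size_par {f : ℕ → Form V} (hf : ∀ i, (f i).size = 1) (k : ℕ) :
    ∀ o, (par f k o).size = 4 ^ k := by
  induction k with
  | zero => intro o; simp [par, hf]
  | succ k ih =>
    intro o
    rw [par, size_xr, ih, ih, pow_succ]
    ring

theorem size_cn {f : ℕ → Form V} (hf : ∀ i, (f i).size = 1) (k : ℕ) (b : ℕ → Bool) :
    ∀ j, (cn f k b j).size = j * 4 ^ k + 1 := by
  intro j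
  induction j with
  | zero => simp [cn, Form.size]
  | succ j ih =>
    rw [cn, Form.size, size_sg, size_par hf, ih]
    ring

theorem par_congr {f g : ℕ → Form V} (k : ℕ) :
    ∀ o, (∀ i, o ≤ i → i < o + 2 ^ k → f i = g i) → par f k o = par g k o := by
  induction k with
  | zero =>
    intro o h
    exact h o le_rfl (by simp)
  | succ k ih =>
    intro o h
    rw [pow_succ] at h
    rw [par, par, ih o fun i h1 h2 => h i h1 (by omega),
      ih (o + 2 ^ k) fun i h1 h2 => h i (by omega) (by omega)]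

theorem cn_congr {f g : ℕ → Form V} {k : ℕ} {b c : ℕ → Bool} :
    ∀ j, (∀ i < j * 2 ^ k, f i = g i) → (∀ i < j, b i = c i) → cn f k b j = cn g k c j := by
  intro j
  induction j with
  | zero => intro _ _; rfl
  | succ j ih =>
    intro h1 h2
    have h3 : (j + 1) * 2 ^ k = j * 2 ^ k + 2 ^ k := by ring
    rw [cn, cn, ih (fun i hi => h1 i (by rw [h3]; exact lt_of_lt_of_le hi (Nat.le_add_right _ _)))
      (fun i hi => h2 i (by omega)),
      h2 j (by omega), par_congr k (j * 2 ^ k) fun i hi hi' => h1 i (by rw [h3]; exact hi')]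

/-- Toggle an element. -/
def tgl (S : Finset ℕ) (i : ℕ) : Finset ℕ := symmDiff S {i}

theorem leaf_tgl_ne (x : ℕ → V) (S : Finset ℕ) {i j : ℕ} (h : j ≠ i) :
    leaf x (tgl S i) j = leaf x S j := by
  have : (j ∈ tgl S i) ↔ j ∈ S := by
    simp only [tgl, Finset.mem_symmDiff, Finset.mem_singleton]
    tauto
  unfold leaf
  by_cases h1 : j ∈ S
  · rw [if_pos h1, if_pos (this.mpr h1)]
  · rw [if_neg h1, if_neg (fun h2 => h1 (this.mp h2))]

variable {Γ : Set (Form V)} {s : ℕ}

/-- One leaf of a parity is changed. -/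
theorem par_tgl (x : ℕ → V) (S : Finset ℕ) (i : ℕ) (a : Bool) (k : ℕ) (hs : 2 * 4 ^ k + 1 ≤ s) :
    ∀ o, o ≤ i → i < o + 2 ^ k → Reach ubRules Γ s ∅
      {φ | ∃ c : Bool, φ = cimp (var (x i)) a (sg (par (leaf x (tgl S i)) k o) c)
        (sg (par (leaf x S) k o) (xor c a))} (2 * (k + 1)) := by
  induction k with
  | zero =>
    intro o h1 h2
    have ho : o = i := by simp at h2; omega
    subst ho
    have key : ∀ c : Bool, Reach ubRules Γ s ∅ {cimp (var (x o)) a
        (sg (par (leaf x (tgl S o)) 0 o) c) (sg (par (leaf x S) 0 o) (xor c a))} 1 := by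
      intro c
      apply Reach.step
      · rw [par, par]
        by_cases h : o ∈ S
        · have h' : o ∉ tgl S o := by simp [tgl, Finset.mem_symmDiff, h]
          rw [leaf, if_neg h', leaf, if_pos h]
          exact step_leaf2 _ a c
        · have h' : o ∈ tgl S o := by simp [tgl, Finset.mem_symmDiff, h]
          rw [leaf, if_pos h', leaf, if_neg h]
          exact step_leaf1 _ a c
      · rw [size_cimp, size_sg, size_sg, par, par, size_leaf, size_leaf, Form.size]
        simpa using hs
    refine ((key true).union (key false)).mono le_rfl ?_ (by norm_num)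
    rintro φ ⟨c, rfl⟩
    cases c
    · right; rfl
    · left; rfl
  | succ k ih =>
    intro o h1 h2
    have hs' : 2 * 4 ^ k + 1 ≤ s := by
      refine le_trans ?_ hs
      rw [pow_succ]
      have : 0 < 4 ^ k := by positivity
      omega
    have key : ∀ o', o' ≤ i → i < o' + 2 ^ k →
        (∀ c : Bool, Step ubRules Γ ((∅ : Set (Form V)) ∪ {φ | ∃ c : Bool, φ = cimp (var (x i)) a
          (sg (par (leaf x (tgl S i)) k o') c) (sg (par (leaf x S) k o') (xor c a))})
          (cimp (var (x i)) a (sg (par (leaf x (tgl S i)) (k + 1) o) c)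
          (sg (par (leaf x S) (k + 1) o) (xor c a)))) →
        Reach ubRules Γ s ∅ {φ | ∃ c : Bool, φ = cimp (var (x i)) a
          (sg (par (leaf x (tgl S i)) (k + 1) o) c)
          (sg (par (leaf x S) (k + 1) o) (xor c a))} (2 * (k + 1 + 1)) := by
      intro o' h3 h4 h5
      have h6 := ih hs' o' h3 h4
      have h7 : ∀ c : Bool, Reach ubRules Γ s ((∅ : Set (Form V)) ∪ {φ | ∃ c : Bool,
          φ = cimp (var (x i)) a (sg (par (leaf x (tgl S i)) k o') c)
            (sg (par (leaf x S) k o') (xor c a))})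
          {cimp (var (x i)) a (sg (par (leaf x (tgl S i)) (k + 1) o) c)
          (sg (par (leaf x S) (k + 1) o) (xor c a))} 1 := by
        intro c
        refine Reach.step (h5 c) ?_
        rw [size_cimp, size_sg, size_sg, size_par (size_leaf x _), size_par (size_leaf x _),
          Form.size]
        omega
      refine (h6.trans ((h7 true).union (h7 false))).mono le_rfl ?_ (by omega)
      rintro φ ⟨c, rfl⟩
      cases c
      · right; rfl
      · left; rfl
    by_cases h : i < o + 2 ^ k
    · refine key o h1 h fun c => ?_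
      have h8 : par (leaf x (tgl S i)) k (o + 2 ^ k) = par (leaf x S) k (o + 2 ^ k) :=
        par_congr k _ fun j h9 h10 => leaf_tgl_ne x S (by omega)
      rw [par, par, h8]
      exact step_xl c (Or.inr ⟨true, rfl⟩) (Or.inr ⟨false, rfl⟩)
    · push Not at h
      rw [pow_succ] at h2
      refine key (o + 2 ^ k) h (by omega) fun c => ?_
      have h8 : par (leaf x (tgl S i)) k o = par (leaf x S) k o :=
        par_congr k _ fun j h9 h10 => leaf_tgl_ne x S (by omega)
      rw [par, par, h8]
      exact step_xrr c (Or.inr ⟨true, rfl⟩) (Or.inr ⟨false, rfl⟩)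

/-- One leaf of a conjunction of parities is changed. -/
theorem cn_tgl (x : ℕ → V) (S : Finset ℕ) (i : ℕ) (a : Bool) (k B : ℕ)
    (hs : 2 * (B * 4 ^ k) + 3 ≤ s) (hi : i < B * 2 ^ k) (b : ℕ → Bool) :
    Reach ubRules Γ s ∅ {cimp (var (x i)) a (cn (leaf x (tgl S i)) k b B)
      (cn (leaf x S) k (Function.update b (i / 2 ^ k) (xor (b (i / 2 ^ k)) a)) B)}
      (2 * k + 4 + B) := by
  set i0 := i / 2 ^ k with hi0
  have h2k : 0 < 2 ^ k := by positivity
  have hi0B : i0 < B := by
    rw [hi0]
    exact Nat.div_lt_of_lt_mul (by rwa [mul_comm])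
  have h1 : i0 * 2 ^ k ≤ i := Nat.div_mul_le_self i _
  have h2 : i < i0 * 2 ^ k + 2 ^ k := by
    have := Nat.lt_mul_div_succ i h2k
    rw [← hi0] at this
    calc i < 2 ^ k * (i0 + 1) := this
      _ = i0 * 2 ^ k + 2 ^ k := by ring
  have h4k : 4 ^ k ≤ B * 4 ^ k := Nat.le_mul_of_pos_left _ ((Nat.zero_le _).trans_lt hi0B)
  set c := Function.update b i0 (xor (b i0) a) with hc
  have size_ok : ∀ j ≤ B, (cimp (var (x i)) a (cn (leaf x (tgl S i)) k b j)
      (cn (leaf x S) k c j)).size ≤ s := by
    intro j hj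
    rw [size_cimp, size_cn (size_leaf x _), size_cn (size_leaf x _), Form.size]
    have : j * 4 ^ k ≤ B * 4 ^ k := Nat.mul_le_mul_right _ hj
    omega
  have e0 : cn (leaf x (tgl S i)) k b i0 = cn (leaf x S) k c i0 := by
    refine cn_congr i0 (fun j hj => leaf_tgl_ne x S (lt_of_lt_of_le hj h1).ne) fun j hj => ?_
    rw [hc, Function.update_of_ne hj.ne]
  have r1 : Reach ubRules Γ s ∅ {cimp (var (x i)) a (cn (leaf x (tgl S i)) k b i0)
      (cn (leaf x S) k c i0)} 1 := by
    refine Reach.step ?_ (size_ok i0 hi0B.le)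
    rw [e0]
    exact step_id _ _ _
  have r2 := (par_tgl (Γ := Γ) x S i a k (show 2 * 4 ^ k + 1 ≤ s by omega) (i0 * 2 ^ k) h1 h2)
  have r3 : Reach ubRules Γ s ∅ {cimp (var (x i)) a (cn (leaf x (tgl S i)) k b (i0 + 1))
      (cn (leaf x S) k c (i0 + 1))} (2 * (k + 1) + 1 + 1) := by
    refine (r2.union r1).trans (Reach.step ?_ (size_ok _ hi0B))
    rw [cn, cn]
    refine step_andimp (Or.inr (Or.inl ⟨b i0, ?_⟩)) (Or.inr (Or.inr rfl))
    rw [hc, Function.update_self]
  have r4 : ∀ j, i0 + 1 ≤ j → j ≤ B → Reach ubRules Γ s ∅ {cimp (var (x i)) a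
      (cn (leaf x (tgl S i)) k b j) (cn (leaf x S) k c j)} (2 * (k + 1) + 1 + 1 + (j - (i0 + 1))) := by
    intro j hj
    induction j, hj using Nat.le_induction with
    | base =>
      intro _
      simpa using r3
    | succ j hj ih =>
      intro hjB
      refine ((ih (by omega)).trans (Reach.step (φ := cimp (var (x i)) a
        (cn (leaf x (tgl S i)) k b (j + 1)) (cn (leaf x S) k c (j + 1))) ?_
        (size_ok _ hjB))).mono le_rfl le_rfl (by omega)
      have h8 : par (leaf x (tgl S i)) k (j * 2 ^ k) = par (leaf x S) k (j * 2 ^ k) := by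
        refine par_congr k _ fun t h9 h10 => leaf_tgl_ne x S ?_
        have : (i0 + 1) * 2 ^ k ≤ j * 2 ^ k := Nat.mul_le_mul_right _ hj
        have h11 : (i0 + 1) * 2 ^ k = i0 * 2 ^ k + 2 ^ k := by ring
        omega
      have h9 : c j = b j := by
        rw [hc, Function.update_of_ne (by omega)]
      rw [cn, cn, h8, h9]
      exact step_andr _ (Or.inr rfl)
  have h12 := Nat.sub_le B (i0 + 1)
  exact (r4 B hi0B le_rfl).mono le_rfl le_rfl (by omega)

end Pool.Agent.MP_9cec2c_lc.SL.Ub
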