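import Pool.Agent.Lib.MP_9cec2c_lc.SL.UbC

/-!
Campaign SL, upper bound, part D (helper80): the lines of one vertex.
-/

set_option autoImplicit false

open Finset

namespace Pool.Agent.MP_9cec2c_lc.SL.Ub

open Form

variable {V : Type}

/-- A Boolean as an element of `ℤ/2`. -/
def bz (a : Bool) : ZMod 2 := if a = true then 1 else 0

theorem bz_xor (a b : Bool) : bz (xor a b) = bz a + bz b := by
  revert a b
  decide

/-- The parity of a list. -/
def psum : List Bool → ZMod 2
  | [] => 0
  | a :: α => bz a + psum α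

/-- The parity of `b 0, …, b (B - 1)`. -/
def px (b : ℕ → Bool) (B : ℕ) : ZMod 2 := ∑ j ∈ range B, bz (b j)

theorem px_update (b : ℕ → Bool) {B i : ℕ} (hi : i < B) (a : Bool) :
    px (Function.update b i (xor (b i) a)) B = px b B + bz a := by
  unfold px
  rw [← Finset.add_sum_erase _ _ (mem_range.mpr hi), ← Finset.add_sum_erase _ _ (mem_range.mpr hi),
    Function.update_self, bz_xor]
  have : ∑ x ∈ (range B).erase i, bz (Function.update b i (xor (b i) a) x) =
      ∑ x ∈ (range B).erase i, bz (b x) := by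
    refine Finset.sum_congr rfl fun j hj => ?_
    rw [Function.update_of_ne (Finset.ne_of_mem_erase hj)]
  rw [this]
  ring

/-- The clause `⋁ (x i ≠ α i)`. -/
def ctx (x : ℕ → V) : List ℕ → List Bool → Form V
  | i :: I, a :: α => or (sg (var (x i)) (!a)) (ctx x I α)
  | _, _ => ff

theorem size_ctx (x : ℕ → V) : ∀ (I : List ℕ) (α : List Bool), (ctx x I α).size ≤ I.length + 1
  | [], _ => by simp [ctx, Form.size]
  | _ :: _, [] => by simp [ctx, Form.size]
  | i :: I, a :: α => by
    have := size_ctx x I α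
    simp only [ctx, Form.size, size_sg, List.length_cons]
    omega

/-- The lists of length `n`. -/
def bl : ℕ → Finset (List Bool)
  | 0 => {[]}
  | n + 1 => (bl n).image (List.cons true) ∪ (bl n).image (List.cons false)

theorem mem_bl : ∀ (n : ℕ) (α : List Bool), α.length = n → α ∈ bl n
  | 0, α, h => by
    rw [List.length_eq_zero_iff.mp h]
    simp [bl]
  | n + 1, [], h => by simp at h
  | n + 1, a :: α, h => by
    have := mem_bl n α (by simpa using h)
    rw [bl, Finset.mem_union]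
    cases a
    · exact Or.inr (Finset.mem_image_of_mem _ this)
    · exact Or.inl (Finset.mem_image_of_mem _ this)

theorem card_bl : ∀ n : ℕ, (bl n).card ≤ 2 ^ n
  | 0 => by simp [bl]
  | n + 1 => by
    have := card_bl n
    rw [bl]
    refine (Finset.card_union_le _ _).trans ?_
    have h1 := Finset.card_image_le (s := bl n) (f := List.cons true)
    have h2 := Finset.card_image_le (s := bl n) (f := List.cons false)
    rw [pow_succ]
    omega

/-- The lines with the context `I` and a constraint on the parity of the context and the blocks. -/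
def WL (x : ℕ → V) (k B : ℕ) (I : List ℕ) (S : Finset ℕ) (g : ZMod 2) : Set (Form V) :=
  {φ | ∃ (α : List Bool) (b : ℕ → Bool), α.length = I.length ∧ psum α + px b B ≠ g ∧
    φ = or (ctx x I α) (neg (cn (leaf x S) k b B))}

/-- The lines with the context `I` and a constraint on the parity of the blocks. -/
def ZL (x : ℕ → V) (k B : ℕ) (I : List ℕ) (S : Finset ℕ) (g : ZMod 2) : Set (Form V) :=
  {φ | ∃ (α : List Bool) (b : ℕ → Bool), α.length = I.length ∧ px b B ≠ g ∧
    φ = or (ctx x I α) (neg (cn (leaf x S) k b B))}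

theorem cover (x : ℕ → V) (k B : ℕ) (I : List ℕ) (S : Finset ℕ) :
    ∃ J : Finset (Form V), J.card ≤ 2 ^ I.length * 2 ^ B ∧
      ∀ (α : List Bool) (b : ℕ → Bool), α.length = I.length →
        or (ctx x I α) (neg (cn (leaf x S) k b B)) ∈ J := by
  classical
  let F : List Bool × (Fin B → Bool) → Form V := fun p =>
    or (ctx x I p.1) (neg (cn (leaf x S) k (fun j => if h : j < B then p.2 ⟨j, h⟩ else false) B))
  refine ⟨(bl I.length ×ˢ (Finset.univ : Finset (Fin B → Bool))).image F, ?_, ?_⟩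
  · refine Finset.card_image_le.trans ?_
    rw [Finset.card_product, Finset.card_univ, Fintype.card_fun, Fintype.card_bool,
      Fintype.card_fin]
    exact Nat.mul_le_mul_right _ (card_bl _)
  · intro α b hα
    refine Finset.mem_image.mpr ⟨(α, fun j => b j), ?_, ?_⟩
    · exact Finset.mem_product.mpr ⟨mem_bl _ _ hα, Finset.mem_univ _⟩
    · simp only [F]
      congr 2
      refine cn_congr B (fun _ _ => rfl) fun j hj => ?_
      rw [dif_pos hj]

variable {Γ : Set (Form V)} {s : ℕ}

theorem Reach.of_cover {X Z : Set (Form V)} {R : Set Rule} (J : Finset (Form V)) {n m : ℕ}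
    (hJ : J.card ≤ n) (hZ : ∀ φ ∈ Z, φ ∈ J) (h : ∀ φ ∈ Z, Reach R Γ s X {φ} m) :
    Reach R Γ s X Z (n * m) := by
  classical
  have := Reach.iUnion_finset (S := R) (Γ := Γ) (s := s) (X := X) (J.filter (· ∈ Z))
    (Y := fun φ => {φ}) (m := m) fun φ hφ => h φ (Finset.mem_filter.mp hφ).2
  refine this.mono le_rfl ?_ (Nat.mul_le_mul_right _ ((Finset.card_filter_le _ _).trans hJ))
  intro φ hφ
  simp only [Set.mem_iUnion]
  exact ⟨φ, Finset.mem_filter.mpr ⟨hZ φ hφ, hφ⟩, rfl⟩

/-- One edge. -/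
theorem fwd (x : ℕ → V) (k B : ℕ) (I : List ℕ) (S : Finset ℕ) (g : ZMod 2) (i : ℕ)
    (hi : i < B * 2 ^ k) (hs : 2 * (B * 4 ^ k) + 3 + I.length ≤ s) :
    Reach ubRules Γ s (WL x k B I S g) (WL x k B (i :: I) (tgl S i) g)
      (2 ^ (I.length + 1) * 2 ^ B * (2 * k + 5 + B)) := by
  obtain ⟨J, hJ, hJ2⟩ := cover x k B (i :: I) (tgl S i)
  refine Reach.of_cover J hJ ?_ ?_
  · rintro φ ⟨α, b, hα, _, rfl⟩
    exact hJ2 α b hα
  · rintro φ ⟨α, b, hα, hg, rfl⟩
    obtain ⟨a, α, rfl⟩ : ∃ a α', α = a :: α' := by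
      cases α with
      | nil => simp at hα
      | cons a α' => exact ⟨a, α', rfl⟩
    have hα' : α.length = I.length := by simpa using hα
    have h2k : 0 < 2 ^ k := by positivity
    have hi0 : i / 2 ^ k < B := Nat.div_lt_of_lt_mul (by rwa [mul_comm])
    have h1 := cn_tgl (Γ := Γ) (s := s) x S i a k B (by omega) hi b
    have h2 : or (ctx x I α) (neg (cn (leaf x S) k
        (Function.update b (i / 2 ^ k) (xor (b (i / 2 ^ k)) a)) B)) ∈ WL x k B I S g := by
      refine ⟨α, _, hα', ?_, rfl⟩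
      rw [px_update b hi0]
      intro h2
      apply hg
      rw [psum, ← h2]
      ring
    refine ((h1.mono (Set.empty_subset (WL x k B I S g)) le_rfl le_rfl).trans (Reach.step
      (step_ctx (Or.inl h2) (Or.inr rfl)) ?_)).mono le_rfl le_rfl (by omega)
    have := size_ctx x I α
    rw [Form.size, Form.size, Form.size, size_sg, size_cn (size_leaf x _), Form.size]
    omega

/-- Toggle all elements of a list. -/
def tog (S : Finset ℕ) : List ℕ → Finset ℕ
  | [] => S
  | i :: I => tgl (tog S I) i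

theorem fwd_all (x : ℕ → V) (k B : ℕ) (S : Finset ℕ) (g : ZMod 2) : ∀ (I : List ℕ)
    (_ : ∀ i ∈ I, i < B * 2 ^ k) (_ : 2 * (B * 4 ^ k) + 3 + I.length ≤ s),
    Reach ubRules Γ s (WL x k B [] S g) (WL x k B I (tog S I) g)
      (2 ^ (I.length + 1) * 2 ^ B * (2 * k + 5 + B))
  | [], _, _ => (Reach.refl le_rfl).mono le_rfl le_rfl (Nat.zero_le _)
  | i :: I, hI, hs => by
    rw [List.length_cons] at hs ⊢
    have h1 := fwd_all x k B S g I (fun j hj => hI j (List.mem_cons_of_mem _ hj)) (by omega)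
    have h2 := fwd (Γ := Γ) (s := s) x k B I (tog S I) g i (hI i List.mem_cons_self) (by omega)
    refine (h1.trans (h2.mono Set.subset_union_right le_rfl le_rfl)).mono le_rfl le_rfl ?_
    rw [pow_succ 2 (I.length + 1)]
    have : 2 ^ (I.length + 1) * 2 * 2 ^ B * (2 * k + 5 + B) =
      2 ^ (I.length + 1) * 2 ^ B * (2 * k + 5 + B) +
      2 ^ (I.length + 1) * 2 ^ B * (2 * k + 5 + B) := by ring
    omega

/-- The clauses of the vertex are used. -/
theorem full (x : ℕ → V) (k B : ℕ) (I : List ℕ) (S : Finset ℕ) (g γ : ZMod 2)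
    (hs : 2 * (B * 4 ^ k) + 3 + I.length ≤ s)
    (hΓ : ∀ α : List Bool, α.length = I.length → psum α ≠ γ → ctx x I α ∈ Γ) :
    Reach ubRules Γ s (WL x k B I S g) (ZL x k B I S (g + γ)) (2 ^ I.length * 2 ^ B * 2) := by
  obtain ⟨J, hJ, hJ2⟩ := cover x k B I S
  refine Reach.of_cover J hJ ?_ ?_
  · rintro φ ⟨α, b, hα, _, rfl⟩
    exact hJ2 α b hα
  · rintro φ ⟨α, b, hα, hg, rfl⟩
    by_cases h : psum α = γ
    · refine (Reach.refl ?_).mono le_rfl le_rfl (Nat.zero_le _)
      rintro φ rfl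
      refine ⟨α, b, hα, fun h2 => hg ?_, rfl⟩
      rw [h] at h2
      rw [← h2]
      have h3 : γ + γ = 0 := CharTwo.add_self_eq_zero γ
      calc px b B = (γ + γ) + px b B := by rw [h3, zero_add]
        _ = γ + px b B + γ := by ring
    · have h1 : Reach ubRules Γ s (WL x k B I S g) {ctx x I α} 1 := by
        refine Reach.step (Or.inl (hΓ α hα h)) ?_
        have := size_ctx x I α
        omega
      refine (h1.trans (Reach.step (step_orl _ (Or.inr rfl)) ?_)).mono le_rfl le_rfl le_rfl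
      have := size_ctx x I α
      rw [Form.size, Form.size, size_cn (size_leaf x _)]
      omega

/-- The context is eliminated. -/
theorem elim (x : ℕ → V) (k B : ℕ) (S : Finset ℕ) (g : ZMod 2) : ∀ (I : List ℕ)
    (_ : 2 * (B * 4 ^ k) + 3 + I.length ≤ s),
    Reach ubRules Γ s (ZL x k B I S g) (ZL x k B [] S g) (2 ^ I.length * 2 ^ B)
  | [], _ => (Reach.refl le_rfl).mono le_rfl le_rfl (Nat.zero_le _)
  | i :: I, hs => by
    rw [List.length_cons] at hs ⊢
    have h1 : Reach ubRules Γ s (ZL x k B (i :: I) S g) (ZL x k B I S g)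
        (2 ^ I.length * 2 ^ B * 1) := by
      obtain ⟨J, hJ, hJ2⟩ := cover x k B I S
      refine Reach.of_cover J hJ ?_ ?_
      · rintro φ ⟨α, b, hα, _, rfl⟩
        exact hJ2 α b hα
      · rintro φ ⟨α, b, hα, hg, rfl⟩
        refine Reach.step (step_elim (A := var (x i))
          ⟨false :: α, b, by simpa using hα, hg, rfl⟩
          ⟨true :: α, b, by simpa using hα, hg, rfl⟩) ?_
        have := size_ctx x I α
        rw [Form.size, Form.size, size_cn (size_leaf x _)]
        omega
    refine (h1.trans ((elim x k B S g I (by omega)).mono Set.subset_union_right le_rfl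
      le_rfl)).mono le_rfl le_rfl ?_
    rw [pow_succ]
    have : 2 ^ I.length * 2 * 2 ^ B = 2 ^ I.length * 2 ^ B + 2 ^ I.length * 2 ^ B := by ring
    omega

/-- One vertex. -/
theorem vertex (x : ℕ → V) (k B Δ : ℕ) (I : List ℕ) (S : Finset ℕ) (g γ : ZMod 2)
    (hI : ∀ i ∈ I, i < B * 2 ^ k) (hΔ : I.length ≤ Δ) (hs : 2 * (B * 4 ^ k) + 3 + Δ ≤ s)
    (hΓ : ∀ α : List Bool, α.length = I.length → psum α ≠ γ → ctx x I α ∈ Γ) :
    Reach ubRules Γ s (WL x k B [] S g) (WL x k B [] (tog S I) (g + γ))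
      (2 ^ (Δ + 1) * 2 ^ B * (2 * k + 8 + B)) := by
  have h1 := fwd_all (Γ := Γ) (s := s) x k B S g I hI (by omega)
  have h2 := full (Γ := Γ) (s := s) x k B I (tog S I) g γ (by omega) hΓ
  have h3 := elim (Γ := Γ) (s := s) x k B (tog S I) (g + γ) I (by omega)
  refine ((h1.trans (h2.mono Set.subset_union_right le_rfl le_rfl)).trans
    (h3.mono Set.subset_union_right le_rfl le_rfl)).mono le_rfl ?_ ?_
  · rintro φ ⟨α, b, hα, hg, rfl⟩
    refine ⟨α, b, hα, ?_, rfl⟩
    have : α = [] := by simpa using hα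
    subst this
    simpa [psum] using hg
  · have h4 : 2 ^ I.length ≤ 2 ^ Δ := Nat.pow_le_pow_right (by norm_num) hΔ
    have h5 : 2 ^ (I.length + 1) * 2 ^ B * (2 * k + 5 + B) + 2 ^ I.length * 2 ^ B * 2 +
        2 ^ I.length * 2 ^ B = 2 ^ I.length * (2 ^ B * (2 * (2 * k + 5 + B) + 3)) := by ring
    rw [h5]
    calc 2 ^ I.length * (2 ^ B * (2 * (2 * k + 5 + B) + 3))
        ≤ 2 ^ Δ * (2 ^ B * (2 * (2 * k + 8 + B))) := by gcongr; omega
      _ = 2 ^ (Δ + 1) * 2 ^ B * (2 * k + 8 + B) := by ring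

end Pool.Agent.MP_9cec2c_lc.SL.Ub
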