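import Pool.Agent.Lib.MP_9cec2c_lc.SL.UbD

/-!
Campaign SL, upper bound, part E (helper80): the start, the end and all vertices.
-/

set_option autoImplicit false

open Finset

namespace Pool.Agent.MP_9cec2c_lc.SL.Ub

open Form

variable {V : Type} {Γ : Set (Form V)} {s : ℕ}

theorem leaf_empty (x : ℕ → V) : leaf x ∅ = fun _ => ff := by
  funext i
  unfold leaf
  simp

theorem par_const (A : Form V) (k : ℕ) : ∀ o, par (fun _ => A) k o = par (fun _ => A) k 0 := by
  intro o
  induction k generalizing o with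
  | zero => rfl
  | succ k ih => rw [par, par, ih o, ih (o + 2 ^ k), ih (0 + 2 ^ k)]

theorem npar (k : ℕ) (hs : 4 ^ k ≤ s) :
    Reach ubRules Γ s ∅ {neg (par (fun _ => (ff : Form V)) k 0)} (k + 1) := by
  induction k with
  | zero =>
    refine Reach.step step_negff ?_
    simpa [Form.size, par] using hs
  | succ k ih =>
    have hk : 4 ^ k ≤ s := le_trans (Nat.pow_le_pow_right (by norm_num) (Nat.le_succ k)) hs
    refine (ih hk).trans (Reach.step ?_ ?_)
    · rw [par, par_const _ k (0 + 2 ^ k)]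
      exact step_nxr (Or.inr rfl) (Or.inr rfl)
    · rw [Form.size, size_par (fun _ => rfl)]
      exact hs

/-- The conjunction is refuted if some block is claimed to be odd. -/
theorem ncn (k : ℕ) (b : ℕ → Bool) {j0 : ℕ} (hb : b j0 = true) (B : ℕ)
    (hs : 2 * (B * 4 ^ k) + 3 ≤ s) : ∀ j, j0 + 1 ≤ j → j ≤ B →
    Reach ubRules Γ s {neg (par (fun _ => (ff : Form V)) k 0)}
      {neg (cn (fun _ => (ff : Form V)) k b j)} (j - j0) := by
  have size_ok : ∀ j ≤ B, (neg (cn (fun _ => (ff : Form V)) k b j)).size ≤ s := by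
    intro j hj
    rw [Form.size, size_cn (fun _ => rfl)]
    have : j * 4 ^ k ≤ B * 4 ^ k := Nat.mul_le_mul_right _ hj
    omega
  intro j hj
  induction j, hj using Nat.le_induction with
  | base =>
    intro hB
    refine (Reach.step ?_ (size_ok _ hB)).mono le_rfl le_rfl (by omega)
    rw [cn, hb, par_const (ff : Form V) k (j0 * 2 ^ k)]
    exact step_nandl _ rfl
  | succ j hj ih =>
    intro hB
    refine ((ih (by omega)).trans (Reach.step (φ := neg (cn (fun _ => (ff : Form V)) k b (j + 1)))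
      ?_ (size_ok _ hB))).mono le_rfl le_rfl (by omega)
    rw [cn]
    exact step_nandr _ (Or.inr rfl)

/-- The conjunction is proved if all blocks are claimed to be even. -/
theorem pcn (k B : ℕ) (hs : 2 * (B * 4 ^ k) + 3 ≤ s) : ∀ j ≤ B,
    Reach ubRules Γ s {neg (par (fun _ => (ff : Form V)) k 0)}
      {cn (fun _ => (ff : Form V)) k (fun _ => false) j} (j + 1) := by
  have size_ok : ∀ j ≤ B, (cn (fun _ => (ff : Form V)) k (fun _ => false) j).size ≤ s := by
    intro j hj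
    rw [size_cn (fun _ => rfl)]
    have : j * 4 ^ k ≤ B * 4 ^ k := Nat.mul_le_mul_right _ hj
    omega
  intro j
  induction j with
  | zero =>
    intro _
    exact Reach.step step_tt (size_ok 0 (Nat.zero_le _))
  | succ j ih =>
    intro hB
    refine (ih (by omega)).trans (Reach.step ?_ (size_ok _ hB))
    rw [cn, par_const (ff : Form V) k (j * 2 ^ k)]
    exact step_and (Or.inl rfl) (Or.inr rfl)

/-- The start. -/
theorem start (x : ℕ → V) (k B : ℕ) (hs : 2 * (B * 4 ^ k) + 3 ≤ s) :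
    Reach ubRules Γ s {neg (par (fun _ => (ff : Form V)) k 0)} (WL x k B [] ∅ 0)
      (2 ^ B * (B + 1)) := by
  obtain ⟨J, hJ, hJ2⟩ := cover x k B [] ∅
  rw [List.length_nil, pow_zero, one_mul] at hJ
  refine Reach.of_cover J hJ ?_ ?_
  · rintro φ ⟨α, b, hα, _, rfl⟩
    exact hJ2 α b hα
  · rintro φ ⟨α, b, hα, hg, rfl⟩
    have hα' : α = [] := by simpa using hα
    subst hα'
    obtain ⟨j0, hj0, hb⟩ : ∃ j0, j0 < B ∧ b j0 = true := by
      by_contra hcon
      push Not at hcon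
      apply hg
      rw [psum, zero_add]
      refine Finset.sum_eq_zero fun j hj => ?_
      have := hcon j (mem_range.mp hj)
      have h2 : b j = false := by simpa using this
      rw [h2]
      rfl
    have h1 := ncn (Γ := Γ) (V := V) (s := s) k b hb B hs B hj0 le_rfl
    rw [leaf_empty]
    refine (h1.trans (Reach.step (step_orr _ (Or.inr rfl)) ?_)).mono le_rfl le_rfl (by omega)
    have := size_ctx x [] []
    rw [Form.size, Form.size, size_cn (f := fun _ => (ff : Form V)) (fun _ => rfl)]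
    simp only [List.length_nil] at this
    omega

/-- The end. -/
theorem finish (x : ℕ → V) (k B : ℕ) (hs : 2 * (B * 4 ^ k) + 3 ≤ s) :
    Reach ubRules Γ s ({neg (par (fun _ => (ff : Form V)) k 0)} ∪ WL x k B [] ∅ 1) {ff}
      (B + 2) := by
  have h1 := pcn (Γ := Γ) (V := V) (s := s) k B hs B le_rfl
  have h2 : or ff (neg (cn (fun _ => (ff : Form V)) k (fun _ => false) B)) ∈ WL x k B [] ∅ 1 := by
    refine ⟨[], fun _ => false, rfl, ?_, ?_⟩
    · have : px (fun _ => false) B = 0 := Finset.sum_eq_zero fun _ _ => rfl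
      rw [psum, this, zero_add]
      exact zero_ne_one
    · rw [leaf_empty, ctx]
      simp
  refine ((h1.mono Set.subset_union_left le_rfl le_rfl).trans (Reach.step
    (step_end (Or.inl (Or.inr h2)) (Or.inr rfl)) ?_)).mono le_rfl le_rfl (by omega)
  rw [Form.size]
  omega

/-- All edges of a list of vertices. -/
def togs {U : Type} (I : U → List ℕ) : List U → Finset ℕ
  | [] => ∅
  | v :: vs => tog (togs I vs) (I v)

theorem vertices {U : Type} (x : ℕ → V) (k B Δ : ℕ) (I : U → List ℕ) (γ : U → ZMod 2)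
    (hI : ∀ v, ∀ i ∈ I v, i < B * 2 ^ k) (hΔ : ∀ v, (I v).length ≤ Δ)
    (hs : 2 * (B * 4 ^ k) + 3 + Δ ≤ s)
    (hΓ : ∀ v, ∀ α : List Bool, α.length = (I v).length → psum α ≠ γ v → ctx x (I v) α ∈ Γ) :
    ∀ vs : List U, Reach ubRules Γ s (WL x k B [] ∅ 0)
      (WL x k B [] (togs I vs) (vs.map γ).sum) (vs.length * (2 ^ (Δ + 1) * 2 ^ B * (2 * k + 8 + B)))
  | [] => (Reach.refl le_rfl).mono le_rfl le_rfl (Nat.zero_le _)
  | v :: vs => by
    have h1 := vertices x k B Δ I γ hI hΔ hs hΓ vs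
    have h2 := vertex (Γ := Γ) (s := s) x k B Δ (I v) (togs I vs) (vs.map γ).sum (γ v) (hI v)
      (hΔ v) hs (hΓ v)
    refine (h1.trans (h2.mono Set.subset_union_right le_rfl le_rfl)).mono le_rfl ?_ ?_
    · rw [List.map_cons, List.sum_cons, add_comm (γ v)]
      rfl
    · rw [List.length_cons]
      apply le_of_eq
      ring

/-- The whole refutation. -/
theorem refutation {U : Type} (x : ℕ → V) (k B Δ : ℕ) (I : U → List ℕ) (γ : U → ZMod 2)
    (hI : ∀ v, ∀ i ∈ I v, i < B * 2 ^ k) (hΔ : ∀ v, (I v).length ≤ Δ)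
    (hs : 2 * (B * 4 ^ k) + 3 + Δ ≤ s)
    (hΓ : ∀ v, ∀ α : List Bool, α.length = (I v).length → psum α ≠ γ v → ctx x (I v) α ∈ Γ)
    (vs : List U) (h1 : togs I vs = ∅) (h2 : (vs.map γ).sum = 1) :
    Reach ubRules Γ s ∅ {ff}
      ((vs.length + 1) * (2 ^ (Δ + 1) * 2 ^ B * (2 * k + 8 + B))) := by
  have h4k : 4 ^ k ≤ s ∨ B = 0 := by
    rcases Nat.eq_zero_or_pos B with h | h
    · exact Or.inr h
    · left
      have := Nat.le_mul_of_pos_left (4 ^ k) h
      omega
  have e1 : (k + 1) + 2 ^ B * (B + 1) + (B + 2) ≤ 2 ^ (Δ + 1) * 2 ^ B * (2 * k + 8 + B) := by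
    have h3 : 1 ≤ 2 ^ B := Nat.one_le_two_pow
    have h5 : 2 ≤ 2 ^ (Δ + 1) := by
      calc 2 = 2 ^ 1 := rfl
        _ ≤ 2 ^ (Δ + 1) := Nat.pow_le_pow_right (by norm_num) (by omega)
    calc (k + 1) + 2 ^ B * (B + 1) + (B + 2)
        ≤ 2 ^ B * (k + 1) + 2 ^ B * (B + 1) + 2 ^ B * (B + 2) := by
          have := Nat.le_mul_of_pos_left (k + 1) (Nat.pos_of_ne_zero (by omega : 2 ^ B ≠ 0))
          have := Nat.le_mul_of_pos_left (B + 2) (Nat.pos_of_ne_zero (by omega : 2 ^ B ≠ 0))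
          omega
      _ = 1 * 2 ^ B * (k + 2 * B + 4) := by ring
      _ ≤ 2 * 2 ^ B * (2 * k + 8 + B) := by
          have : 1 * 2 ^ B * (k + 2 * B + 4) ≤ 1 * 2 ^ B * (2 * (2 * k + 8 + B)) :=
            Nat.mul_le_mul_left _ (by omega)
          refine this.trans (le_of_eq ?_)
          ring
      _ ≤ 2 ^ (Δ + 1) * 2 ^ B * (2 * k + 8 + B) := by gcongr
  rcases Nat.eq_zero_or_pos B with hB | hB
  · -- no block: there are no edges
    subst hB
    have r2 := start (Γ := Γ) (s := s) x 0 0 (by omega)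
    have r0 := npar (Γ := Γ) (V := V) (s := s) 0 (by omega)
    have hcn : ∀ (S : Finset ℕ) (b : ℕ → Bool), cn (leaf x S) k b 0 = cn (leaf x S) 0 b 0 :=
      fun _ _ => rfl
    have hWL : ∀ (J : List ℕ) (S : Finset ℕ) (g : ZMod 2), WL x k 0 J S g = WL x 0 0 J S g :=
      fun _ _ _ => rfl
    have r3 := vertices (Γ := Γ) (s := s) x k 0 Δ I γ hI hΔ hs hΓ vs
    rw [h1, h2, hWL, hWL] at r3
    have r4 := finish (Γ := Γ) (s := s) x 0 0 (by omega)
    have r5 := (r0.trans (r2.mono Set.subset_union_right le_rfl le_rfl))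
    have r6 := (r0.union (r5.trans (r3.mono Set.subset_union_right le_rfl le_rfl))).trans
      (r4.mono Set.subset_union_right le_rfl le_rfl)
    refine r6.mono le_rfl le_rfl ?_
    have e2 : 0 + 1 + (0 + 1 + 2 ^ 0 * (0 + 1) +
        vs.length * (2 ^ (Δ + 1) * 2 ^ 0 * (2 * k + 8 + 0))) + (0 + 2) =
        5 + vs.length * (2 ^ (Δ + 1) * 2 ^ 0 * (2 * k + 8 + 0)) := by ring
    rw [e2]
    have e3 : 5 ≤ 2 ^ (Δ + 1) * 2 ^ 0 * (2 * k + 8 + 0) := by
      have h5 : 1 ≤ 2 ^ (Δ + 1) := Nat.one_le_two_pow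
      calc 5 ≤ 1 * 2 ^ 0 * (2 * k + 8 + 0) := by omega
        _ ≤ _ := by gcongr
    have e4 : (vs.length + 1) * (2 ^ (Δ + 1) * 2 ^ 0 * (2 * k + 8 + 0)) =
        vs.length * (2 ^ (Δ + 1) * 2 ^ 0 * (2 * k + 8 + 0)) +
          2 ^ (Δ + 1) * 2 ^ 0 * (2 * k + 8 + 0) := by ring
    rw [e4]
    omega
  · have hk : 4 ^ k ≤ s := by
      rcases h4k with h | h
      · exact h
      · omega
    have r0 := npar (Γ := Γ) (V := V) (s := s) k hk
    have r2 := start (Γ := Γ) (s := s) x k B (by omega)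
    have r3 := vertices (Γ := Γ) (s := s) x k B Δ I γ hI hΔ hs hΓ vs
    rw [h1, h2] at r3
    have r4 := finish (Γ := Γ) (s := s) x k B (by omega)
    have r5 : Reach ubRules Γ s {neg (par (fun _ => (ff : Form V)) k 0)}
        ({neg (par (fun _ => (ff : Form V)) k 0)} ∪ WL x k B [] ∅ 1)
        (0 + (2 ^ B * (B + 1) +
          vs.length * (2 ^ (Δ + 1) * 2 ^ B * (2 * k + 8 + B)))) :=
      (Reach.refl le_rfl).union (r2.trans (r3.mono Set.subset_union_right le_rfl le_rfl))
    have r6 := r0.trans ((r5.trans (r4.mono Set.subset_union_right le_rfl le_rfl)).mono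
      Set.subset_union_right le_rfl le_rfl)
    refine r6.mono le_rfl le_rfl ?_
    have e4 : (vs.length + 1) * (2 ^ (Δ + 1) * 2 ^ B * (2 * k + 8 + B)) =
        vs.length * (2 ^ (Δ + 1) * 2 ^ B * (2 * k + 8 + B)) +
          2 ^ (Δ + 1) * 2 ^ B * (2 * k + 8 + B) := by ring
    rw [e4]
    omega

end Pool.Agent.MP_9cec2c_lc.SL.Ub
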