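import Pool.Agent.Lib.MP_9cec2c_lc.SL.UbE

/-!
Campaign SL, upper bound, part F (helper80): the Tseitin formula of a multigraph has refutations with
at most `C 2^b N^2` lines of size at most `C N^2 / b`.
-/

set_option autoImplicit false

open Finset

namespace Pool.Agent.MP_9cec2c_lc.SL.Ub

open Form

/-- From reversed lists to derivations. -/
theorem Chain.isDerivation {X : Type} {S : Set Rule} {Γ : Set (Form X)} {l : List (Form X)}
    (h : Chain S Γ ∅ l) : ∃ L : Fin l.length → Form X, IsDerivation S Γ L ∧
      (∀ φ ∈ l, ∃ i, L i = φ) ∧ ∀ i, L i ∈ l := by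
  induction h with
  | nil => exact ⟨Fin.elim0, fun i => i.elim0, by simp, fun i => i.elim0⟩
  | @cons φ l _ hst ih =>
    obtain ⟨L, h1, h2, h3⟩ := ih
    refine ⟨(Fin.snoc L φ : Fin (l.length + 1) → Form X), ?_, ?_, ?_⟩
    · intro i
      refine Fin.lastCases ?_ (fun i => ?_) i
      · rw [Fin.snoc_last]
        rcases hst with h4 | ⟨R, hR, σ, h5, h6⟩
        · exact Or.inl h4
        · refine Or.inr ⟨R, hR, σ, h5, fun P hP => ?_⟩
          have h7 : P.subst σ ∈ l := by simpa using h6 P hP
          obtain ⟨j, hj⟩ := h2 _ h7
          exact ⟨j.castSucc, Fin.castSucc_lt_last j, by rw [Fin.snoc_castSucc, hj]⟩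
      · rw [Fin.snoc_castSucc]
        rcases h1 i with h4 | ⟨R, hR, σ, h5, h6⟩
        · exact Or.inl h4
        · refine Or.inr ⟨R, hR, σ, h5, fun P hP => ?_⟩
          obtain ⟨j, hj, hj'⟩ := h6 P hP
          exact ⟨j.castSucc, by simpa using hj, by rw [Fin.snoc_castSucc, hj']⟩
    · intro ψ hψ
      rcases List.mem_cons.mp hψ with rfl | hψ
      · exact ⟨Fin.last _, Fin.snoc_last _ _⟩
      · obtain ⟨j, hj⟩ := h2 ψ hψ
        exact ⟨j.castSucc, by rw [Fin.snoc_castSucc, hj]⟩
    · intro i
      refine Fin.lastCases ?_ (fun i => ?_) i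
      · rw [Fin.snoc_last]
        exact List.mem_cons_self
      · rw [Fin.snoc_castSucc]
        exact List.mem_cons_of_mem _ (h3 i)

/-- The indicator of a finite set, with values modulo 2. -/
def ind2 (S : Finset ℕ) (i : ℕ) : ZMod 2 := if i ∈ S then 1 else 0

theorem ind2_tgl (S : Finset ℕ) (i j : ℕ) :
    ind2 (tgl S j) i = ind2 S i + (if i = j then 1 else 0) := by
  unfold ind2 tgl
  by_cases h1 : i ∈ S <;> by_cases h2 : i = j
  · subst h2
    simp only [Finset.mem_symmDiff, h1, Finset.mem_singleton]
    decide
  · simp only [Finset.mem_symmDiff, h1, Finset.mem_singleton, h2]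
    decide
  · subst h2
    simp only [Finset.mem_symmDiff, h1, Finset.mem_singleton]
    decide
  · simp only [Finset.mem_symmDiff, h1, Finset.mem_singleton, h2]
    decide

theorem ind2_tog (S : Finset ℕ) (i : ℕ) : ∀ I : List ℕ,
    ind2 (tog S I) i = ind2 S i + (I.count i : ZMod 2)
  | [] => by simp [tog]
  | j :: I => by
    rw [tog, ind2_tgl, ind2_tog S i I, List.count_cons]
    by_cases h : i = j
    · subst h
      simp
      ring
    · have h' : ¬ j = i := fun h2 => h h2.symm
      simp [h, h']

theorem ind2_togs {U : Type} (I : U → List ℕ) (i : ℕ) : ∀ vs : List U,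
    ind2 (togs I vs) i = (vs.map fun v => ((I v).count i : ZMod 2)).sum
  | [] => by simp [togs, ind2]
  | v :: vs => by
    rw [togs, ind2_tog, ind2_togs I i vs, List.map_cons, List.sum_cons, add_comm]

theorem psum_map {E : Type} (f : E → Bool) : ∀ L : List E,
    psum (L.map f) = (L.map fun e => bz (f e)).sum
  | [] => rfl
  | e :: L => by
    rw [List.map_cons, psum, psum_map f L, List.map_cons, List.sum_cons]

theorem clause_eq {E : Type} (x : ℕ → E) (idx : E → ℕ) (hx : ∀ e, x (idx e) = e) (f : E → Bool) :
    ∀ L : List E, clause (L.map fun e => (e, !f e)) = ctx x (L.map idx) (L.map f)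
  | [] => by simp [clause, ctx]
  | e :: L => by
    have ih := clause_eq x idx hx f L
    rw [List.map_cons, List.map_cons, List.map_cons, ctx, ← ih, hx]
    unfold clause
    rw [List.foldr_cons]
    congr 1
    unfold Form.lit
    cases f e <;> simp [sg]

theorem exists_map {E : Type} [DecidableEq E] : ∀ (L : List E) (_ : L.Nodup) (α : List Bool)
    (_ : α.length = L.length), ∃ f : E → Bool, L.map f = α
  | [], _, α, h => ⟨fun _ => false, (List.length_eq_zero_iff.mp h).symm⟩
  | e :: L, hL, [], h => by simp at h
  | e :: L, hL, a :: α, h => by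
    obtain ⟨f, hf⟩ := exists_map L (List.nodup_cons.mp hL).2 α (by simpa using h)
    refine ⟨Function.update f e a, ?_⟩
    rw [List.map_cons, Function.update_self]
    congr 1
    rw [← hf]
    refine List.map_congr_left fun e' he' => ?_
    rw [Function.update_of_ne]
    rintro rfl
    exact (List.nodup_cons.mp hL).1 he'

variable {V E : Type} [Fintype V] [Fintype E]

omit [Fintype V] in
theorem inc_card (G : MG V E) {Δ : ℕ} (hG : G.DegLE Δ) (v : V) : (G.inc v).card ≤ Δ := by
  classical
  refine le_trans ?_ (hG v)
  refine le_trans (Finset.card_le_card ?_) (Finset.card_union_le _ _)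
  intro e he
  rw [MG.inc, Finset.mem_filter] at he
  rw [Finset.mem_union, Finset.mem_filter, Finset.mem_filter]
  by_contra hcon
  push Not at hcon
  apply he.2
  constructor
  · intro h
    exact absurd h (hcon.1 (mem_univ _))
  · intro h
    exact absurd h (hcon.2 (mem_univ _))

open Classical in
theorem sum_inc (G : MG V E) (e : E) :
    ∑ v : V, (if e ∈ G.inc v then (1 : ZMod 2) else 0) = 0 := by
  have h1 : ∀ v : V, (if e ∈ G.inc v then (1 : ZMod 2) else 0) =
      (if G.src e = v then 1 else 0) + (if G.dst e = v then 1 else 0) := by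
    intro v
    rw [MG.inc]
    simp only [Finset.mem_filter, Finset.mem_univ, true_and]
    by_cases h2 : G.src e = v <;> by_cases h3 : G.dst e = v <;> simp [h2, h3]
    decide
  rw [Finset.sum_congr rfl fun v _ => h1 v, Finset.sum_add_distrib]
  simp
  decide

theorem upper_nat (G : MG V E) {Δ B k : ℕ} (hG : G.DegLE Δ) (γ : V → ZMod 2)
    (hγ : ∑ v, γ v = 1) (hk : Fintype.card E ≤ B * 2 ^ k) :
    ∃ (l : ℕ) (L : Fin l → Form E),
      IsDerivation ubRules {φ | ∃ C ∈ G.tseitin γ, φ = clause C} L ∧ (∃ i, L i = ff) ∧
      (∀ i, (L i).size ≤ 2 * (B * 4 ^ k) + 3 + Δ) ∧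
      l ≤ (Fintype.card V + 1) * (2 ^ (Δ + 1) * 2 ^ B * (2 * k + 8 + B)) := by
  classical
  set Γ : Set (Form E) := {φ | ∃ C ∈ G.tseitin γ, φ = clause C} with hΓ
  have key : Reach ubRules Γ (2 * (B * 4 ^ k) + 3 + Δ) ∅ {ff}
      ((Fintype.card V + 1) * (2 ^ (Δ + 1) * 2 ^ B * (2 * k + 8 + B))) := by
    have mem_cl : ∀ (v : V) (T : Finset E), T ⊆ G.inc v → (T.card : ZMod 2) ≠ γ v →
        clause ((G.inc v).toList.map fun e => (e, decide (e ∉ T))) ∈ Γ := by
      intro v T hT hc
      refine ⟨_, ?_, rfl⟩
      unfold MG.tseitin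
      rw [List.mem_flatMap]
      refine ⟨v, by simp, ?_⟩
      unfold MG.vclauses
      rw [List.mem_map]
      refine ⟨T, ?_, ?_⟩
      · simp [hT, hc]
      · refine List.map_congr_left fun e _ => ?_
        congr
    rcases isEmpty_or_nonempty E with hE | hE
    · -- no edges: a clause is empty
      obtain ⟨v, hv⟩ : ∃ v, γ v ≠ 0 := by
        by_contra hcon
        push Not at hcon
        rw [Finset.sum_eq_zero fun v _ => hcon v] at hγ
        exact zero_ne_one hγ
      have h1 := mem_cl v ∅ (Finset.empty_subset _)
        (by rw [Finset.card_empty, Nat.cast_zero]; exact fun h => hv h.symm)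
      have h2 : (G.inc v).toList = [] := by
        rw [Finset.toList_eq_nil]
        exact Finset.eq_empty_of_isEmpty _
      rw [h2, List.map_nil] at h1
      have h3 : clause ([] : List (E × Bool)) = ff := rfl
      rw [h3] at h1
      refine (Reach.step (Or.inl h1) (by simp only [Form.size]; omega)).mono le_rfl le_rfl ?_
      have : 0 < (Fintype.card V + 1) * (2 ^ (Δ + 1) * 2 ^ B * (2 * k + 8 + B)) := by positivity
      omega
    · let eq := Fintype.equivFin E
      let idx : E → ℕ := fun e => (eq e : ℕ)
      let x : ℕ → E := fun i => if h : i < Fintype.card E then eq.symm ⟨i, h⟩ else Classical.arbitrary E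
      have hidx : ∀ e, idx e < Fintype.card E := fun e => (eq e).2
      have hx : ∀ e, x (idx e) = e := by
        intro e
        simp only [x, dif_pos (hidx e), idx, Fin.eta, Equiv.symm_apply_apply]
      have hinj : Function.Injective idx := fun a b h => by rw [← hx a, ← hx b, h]
      let I : V → List ℕ := fun v => (G.inc v).toList.map idx
      have hI : ∀ v, ∀ i ∈ I v, i < B * 2 ^ k := by
        intro v i hi
        obtain ⟨e, _, rfl⟩ := List.mem_map.mp hi
        exact (hidx e).trans_le hk
      have hlen : ∀ v, (I v).length = (G.inc v).card := by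
        intro v
        simp [I]
      have hcl : ∀ v, ∀ α : List Bool, α.length = (I v).length → psum α ≠ γ v →
          ctx x (I v) α ∈ Γ := by
        intro v α hα hne
        obtain ⟨f, hf⟩ := exists_map (G.inc v).toList (Finset.nodup_toList _) α
          (by rw [hα, hlen, Finset.length_toList])
        set T := (G.inc v).filter fun e => f e = true with hT
        have hcard : (T.card : ZMod 2) = psum α := by
          rw [← hf, psum_map, Finset.sum_map_toList, hT, Finset.card_filter]
          push_cast
          rfl
        have h1 := mem_cl v T (Finset.filter_subset _ _) (by rw [hcard]; exact hne)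
        have h2 : ((G.inc v).toList.map fun e => (e, decide (e ∉ T))) =
            (G.inc v).toList.map fun e => (e, !f e) := by
          refine List.map_congr_left fun e he => ?_
          rw [Finset.mem_toList] at he
          congr 1
          rw [hT]
          simp only [Finset.mem_filter, he, true_and]
          cases f e <;> simp
        rw [h2, clause_eq x idx hx, hf] at h1
        exact h1
      have htog : togs I (univ : Finset V).toList = ∅ := by
        rw [Finset.eq_empty_iff_forall_notMem]
        intro i hi
        have h1 : ind2 (togs I (univ : Finset V).toList) i = 1 := if_pos hi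
        rw [ind2_togs, Finset.sum_map_toList] at h1
        have h2 : ∑ v : V, ((I v).count i : ZMod 2) = 0 := by
          by_cases h3 : ∃ e, idx e = i
          · obtain ⟨e, rfl⟩ := h3
            rw [← sum_inc G e]
            refine Finset.sum_congr rfl fun v _ => ?_
            simp only [I]
            rw [List.count_map_of_injective _ _ hinj]
            by_cases h4 : e ∈ G.inc v
            · rw [if_pos h4, List.count_eq_one_of_mem (Finset.nodup_toList _)
                (Finset.mem_toList.mpr h4), Nat.cast_one]
            · rw [if_neg h4, List.count_eq_zero_of_not_mem (fun h5 => h4 (Finset.mem_toList.mp h5)),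
                Nat.cast_zero]
          · refine Finset.sum_eq_zero fun v _ => ?_
            rw [List.count_eq_zero_of_not_mem, Nat.cast_zero]
            intro h4
            obtain ⟨e, _, h5⟩ := List.mem_map.mp h4
            exact h3 ⟨e, h5⟩
        rw [h2] at h1
        exact zero_ne_one h1
      have h1 := refutation (Γ := Γ) (s := 2 * (B * 4 ^ k) + 3 + Δ) x k B Δ I γ hI
        (fun v => by rw [hlen]; exact inc_card G hG v) le_rfl hcl (univ : Finset V).toList htog
        (by rw [Finset.sum_map_toList]; exact hγ)
      rw [Finset.length_toList, Finset.card_univ] at h1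
      exact h1
  obtain ⟨l, h1, h2, h3, h4⟩ := key
  obtain ⟨L, h5, h6, h7⟩ := h1.isDerivation
  refine ⟨l.length, L, h5, h6 _ ?_, fun i => h3 _ (h7 i), h2⟩
  simpa using h4 (Set.mem_singleton (ff : Form E))

end Pool.Agent.MP_9cec2c_lc.SL.Ub
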