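import Pool.Agent.Lib.MP_9cec2c_lc.SL.UbG

/-!
Campaign SL, upper bound for the total size, part A (helper84): derivations counted by the sum of the
sizes of their lines.
-/

set_option autoImplicit false

namespace Pool.Agent.MP_9cec2c_lc.SL.Ub

variable {V : Type}

/-- The total size of a list of formulas. -/
def tsz (l : List (Form V)) : ℕ := (l.map Form.size).sum

theorem tsz_append (l l' : List (Form V)) : tsz (l ++ l') = tsz l + tsz l' := by
  simp [tsz]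

theorem tsz_le {l : List (Form V)} {s : ℕ} (h : ∀ φ ∈ l, φ.size ≤ s) : tsz l ≤ l.length * s := by
  induction l with
  | nil => simp [tsz]
  | cons φ l ih =>
    have h1 := ih fun ψ hψ => h ψ (List.mem_cons_of_mem _ hψ)
    have h2 := h φ List.mem_cons_self
    have h3 : tsz (φ :: l) = φ.size + tsz l := by simp [tsz]
    rw [h3, List.length_cons, add_mul, one_mul]
    omega

/-- From `X` one reaches `Y` by lines of size at most `s` and of total size at most `m`. -/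
def TR (S : Set Rule) (Γ : Set (Form V)) (s : ℕ) (X Y : Set (Form V)) (m : ℕ) : Prop :=
  ∃ l : List (Form V), Chain S Γ X l ∧ tsz l ≤ m ∧ (∀ φ ∈ l, φ.size ≤ s) ∧
    Y ⊆ X ∪ {ψ | ψ ∈ l}

variable {S : Set Rule} {Γ : Set (Form V)} {s : ℕ}

theorem TR.refl {X Y : Set (Form V)} (h : Y ⊆ X) : TR S Γ s X Y 0 :=
  ⟨[], Chain.nil, le_rfl, by simp, fun _ hψ => Or.inl (h hψ)⟩

theorem TR.mono {X X' Y Y' : Set (Form V)} {m m' : ℕ} (h : TR S Γ s X Y m)
    (hX : X ⊆ X') (hY : Y' ⊆ Y) (hm : m ≤ m') : TR S Γ s X' Y' m' := by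
  obtain ⟨l, h1, h2, h3, h4⟩ := h
  refine ⟨l, ?_, h2.trans hm, h3, ?_⟩
  · have := Chain.append (S := S) (Γ := Γ) (X := X') (Y := X) (l := []) Chain.nil
      (fun ψ hψ => Or.inl (hX hψ)) h1
    simpa using this
  · intro ψ hψ
    rcases h4 (hY hψ) with h5 | h5
    · exact Or.inl (hX h5)
    · exact Or.inr h5

theorem TR.trans {X Y Z : Set (Form V)} {m m' : ℕ} (h : TR S Γ s X Y m)
    (h' : TR S Γ s (X ∪ Y) Z m') : TR S Γ s X Z (m + m') := by
  obtain ⟨l, h1, h2, h3, h4⟩ := h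
  obtain ⟨l', h1', h2', h3', h4'⟩ := h'
  have h5 : X ∪ Y ⊆ X ∪ {ψ | ψ ∈ l} := by
    rintro ψ (hψ | hψ)
    · exact Or.inl hψ
    · exact h4 hψ
  refine ⟨l' ++ l, h1.append h5 h1', ?_, ?_, ?_⟩
  · rw [tsz_append]
    omega
  · intro φ hφ
    rcases List.mem_append.mp hφ with h6 | h6
    · exact h3' φ h6
    · exact h3 φ h6
  · intro ψ hψ
    rcases h4' hψ with h6 | h6
    · rcases h5 h6 with h7 | h7
      · exact Or.inl h7
      · exact Or.inr (List.mem_append_right _ h7)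
    · exact Or.inr (List.mem_append_left _ h6)

theorem TR.union {X Y Z : Set (Form V)} {m m' : ℕ} (h : TR S Γ s X Y m)
    (h' : TR S Γ s X Z m') : TR S Γ s X (Y ∪ Z) (m + m') := by
  obtain ⟨l, h1, h2, h3, h4⟩ := h
  obtain ⟨l', h1', h2', h3', h4'⟩ := h'
  refine ⟨l' ++ l, h1.append (fun ψ hψ => Or.inl hψ) h1', ?_, ?_, ?_⟩
  · rw [tsz_append]
    omega
  · intro φ hφ
    rcases List.mem_append.mp hφ with h6 | h6
    · exact h3' φ h6
    · exact h3 φ h6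
  · rintro ψ (hψ | hψ)
    · rcases h4 hψ with h7 | h7
      · exact Or.inl h7
      · exact Or.inr (List.mem_append_right _ h7)
    · rcases h4' hψ with h6 | h6
      · exact Or.inl h6
      · exact Or.inr (List.mem_append_left _ h6)

/-- One premise. -/
theorem TR.comb1 {X : Set (Form V)} {a c : Form V} {m m' : ℕ} (h1 : TR S Γ s X {a} m)
    (h : ∀ Y : Set (Form V), a ∈ Y → TR S Γ s Y {c} m') : TR S Γ s X {c} (m + m') :=
  h1.trans (h _ (Or.inr rfl))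

/-- Two premises. -/
theorem TR.comb2 {X : Set (Form V)} {a b c : Form V} {m1 m2 m' : ℕ} (h1 : TR S Γ s X {a} m1)
    (h2 : TR S Γ s X {b} m2)
    (h : ∀ Y : Set (Form V), a ∈ Y → b ∈ Y → TR S Γ s Y {c} m') :
    TR S Γ s X {c} (m1 + m2 + m') :=
  (h1.union h2).trans (h _ (Or.inr (Or.inl rfl)) (Or.inr (Or.inr rfl)))

/-- Three premises. -/
theorem TR.comb3 {X : Set (Form V)} {a b c d : Form V} {m1 m2 m3 m' : ℕ}
    (h1 : TR S Γ s X {a} m1) (h2 : TR S Γ s X {b} m2) (h3 : TR S Γ s X {c} m3)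
    (h : ∀ Y : Set (Form V), a ∈ Y → b ∈ Y → c ∈ Y → TR S Γ s Y {d} m') :
    TR S Γ s X {d} (m1 + m2 + m3 + m') :=
  ((h1.union h2).union h3).trans (h _ (Or.inr (Or.inl (Or.inl rfl)))
    (Or.inr (Or.inl (Or.inr rfl))) (Or.inr (Or.inr rfl)))

/-- Axioms. -/
theorem TR.axioms {X : Set (Form V)} : ∀ (l : List (Form V)), (∀ φ ∈ l, φ ∈ Γ) →
    (∀ φ ∈ l, φ.size ≤ s) → TR S Γ s X {ψ | ψ ∈ l} (tsz l) := by
  intro l h1 h2
  refine ⟨l, ?_, le_rfl, h2, Set.subset_union_right⟩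
  clear h2
  induction l with
  | nil => exact Chain.nil
  | cons φ l ih =>
    exact Chain.cons (ih fun ψ hψ => h1 ψ (List.mem_cons_of_mem _ hψ))
      (Or.inl (h1 φ List.mem_cons_self))

/-- The rules in `T`, applied to formulas of size at most `t ≤ s`, are simulated with total size at most
`K t` and lines of size at most `K s`. -/
def Sim (T S : Set Rule) (Γ : Set (Form V)) (K s : ℕ) : Prop :=
  ∀ R ∈ T, ∀ (Y : Set (Form V)) (t : ℕ) (σ : ℕ → Form V), 1 ≤ t → t ≤ s →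
    (∀ P ∈ R.prems, P.subst σ ∈ Y ∧ (P.subst σ).size ≤ t) → (R.concl.subst σ).size ≤ t →
    TR S Γ (K * s) Y {R.concl.subst σ} (K * t)

theorem exists_sim {S T : Set Rule} (hS : ImplComplete S) (hfin : T.Finite)
    (hsound : ∀ R ∈ T, R.Sound) : ∃ K : ℕ, 1 ≤ K ∧
    ∀ (X : Type) (Γ : Set (Form X)) (s : ℕ), Sim T S Γ K s := by
  classical
  have h1 : ∀ R : Rule, ∃ K : ℕ, R ∈ T → ∀ (X : Type) (Γ Y : Set (Form X)) (s : ℕ)
      (σ : ℕ → Form X), 1 ≤ s →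
      (∀ P ∈ R.prems, P.subst σ ∈ Y ∧ (P.subst σ).size ≤ s) → (R.concl.subst σ).size ≤ s →
      Reach S Γ (K * s) Y {R.concl.subst σ} K := by
    intro R
    by_cases hR : R ∈ T
    · obtain ⟨K, hK⟩ := sim_rule hS R (hsound R hR)
      exact ⟨K, fun _ => hK⟩
    · exact ⟨0, fun h => absurd h hR⟩
  choose K0 hK0 using h1
  obtain ⟨K1, hK1⟩ : ∃ K1 : ℕ, ∀ R ∈ T, K0 R ≤ K1 := by
    obtain ⟨M, hM⟩ := (hfin.image K0).bddAbove
    exact ⟨M, fun R hR => hM ⟨R, hR, rfl⟩⟩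
  refine ⟨K1 * K1 + K1 + 1, by omega, ?_⟩
  intro X Γ s R hR Y t σ ht hts hP hc
  obtain ⟨l, q1, q2, q3, q4⟩ := hK0 R hR X Γ Y t σ ht hP hc
  have hl : l.length ≤ K1 := q2.trans (hK1 R hR)
  have hsz : ∀ φ ∈ l, φ.size ≤ K1 * t := fun φ hφ =>
    (q3 φ hφ).trans (Nat.mul_le_mul_right _ (hK1 R hR))
  refine ⟨l, q1, ?_, ?_, q4⟩
  · calc tsz l ≤ l.length * (K1 * t) := tsz_le hsz
      _ ≤ K1 * (K1 * t) := Nat.mul_le_mul_right _ hl
      _ = (K1 * K1) * t := by ring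
      _ ≤ (K1 * K1 + K1 + 1) * t := Nat.mul_le_mul_right _ (by omega)
  · intro φ hφ
    calc φ.size ≤ K1 * t := hsz φ hφ
      _ ≤ K1 * s := Nat.mul_le_mul_left _ hts
      _ ≤ (K1 * K1 + K1 + 1) * s := Nat.mul_le_mul_right _ (by nlinarith [Nat.zero_le K1])

end Pool.Agent.MP_9cec2c_lc.SL.Ub
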