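import Pool.Agent.Lib.MP_9cec2c_lc.SL.UcA

/-!
Campaign SL, upper bound for the total size, part B (helper84): the rules.
-/

set_option autoImplicit false

namespace Pool.Agent.MP_9cec2c_lc.SL.Ub

open Form

variable {V : Type}

/-- The parity of the two formulas is even. -/
def T2 (A B : Form V) : Form V := neg (xr A B)

/-- The parity of the three formulas is even. -/
def T3 (A B C : Form V) : Form V := neg (xr A (xr B C))

/-- A formula or `ff`. -/
def zf (z : Bool) (A : Form V) : Form V := if z = true then ff else A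

/-- The parity of two formulas or `ff`. -/
def nd (z : Bool) (A B : Form V) : Form V := if z = true then ff else xr A B

/-- The parity of the variables `x i`, `i ∈ I`. -/
def xx (x : ℕ → V) : List ℕ → Form V
  | [] => ff
  | i :: I => xr (var (x i)) (xx x I)

/-- The rule for one vertex of degree `n`. -/
noncomputable def vrule (n : ℕ) (c : Bool) : Rule :=
  ⟨((bl n).filter fun α => α.length = n ∧ psum α ≠ bz c).toList.map
      fun α => ctx (fun i => i) (List.range n) α, sg (xx (fun i => i) (List.range n)) c⟩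

/-- The rules. -/
noncomputable def ucRules (Δ : ℕ) : Set Rule :=
  Set.range (fun p : Bool × Bool => (⟨[], T3 (zf (p.1 == p.2) (var 0)) (zf p.1 (var 0))
    (zf p.2 (var 0))⟩ : Rule)) ∪
  Set.range (fun p : Bool × Bool × Bool => (⟨[T3 (zf p.1 (var 0)) (zf p.2.1 (var 2))
      (zf p.2.2 (var 4)), T3 (zf p.1 (var 1)) (zf p.2.1 (var 3)) (zf p.2.2 (var 5))],
    T3 (nd p.1 (var 0) (var 1)) (nd p.2.1 (var 2) (var 3)) (nd p.2.2 (var 4) (var 5))⟩ : Rule)) ∪
  Set.range (fun p : Bool × Bool => (⟨[T3 (var 0) (var 1) (var 2), sg (var 1) p.1,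
    sg (var 2) p.2], sg (var 0) (xor p.1 p.2)⟩ : Rule)) ∪
  Set.range (fun c : Bool => (⟨[T2 (var 0) (var 1), sg (var 1) c], sg (var 0) c⟩ : Rule)) ∪
  {⟨[], T2 (var 0) (var 0)⟩, ⟨[T2 (var 0) (var 1)], T2 (xr (var 0) ff) (var 1)⟩,
    ⟨[T2 (var 0) (var 1)], T2 (xr ff (var 0)) (var 1)⟩,
    ⟨[T3 (var 0) (var 1) (var 2), T2 (var 1) (var 3), T2 (var 2) (var 4)],
      T2 (var 0) (xr (var 3) (var 4))⟩} ∪
  Set.range (fun p : Fin (Δ + 1) × Bool => vrule p.1 p.2)

theorem ucRules_finite (Δ : ℕ) : (ucRules Δ).Finite := by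
  unfold ucRules
  refine Set.Finite.union ?_ (Set.finite_range _)
  refine Set.Finite.union ?_ (Set.toFinite _)
  refine Set.Finite.union ?_ (Set.finite_range _)
  refine Set.Finite.union ?_ (Set.finite_range _)
  exact (Set.finite_range _).union (Set.finite_range _)

theorem ctx_eval (x : ℕ → V) (y : V → Bool) : ∀ I : List ℕ,
    (ctx x I (I.map fun i => y (x i))).eval y = false
  | [] => rfl
  | i :: I => by
    rw [List.map_cons, ctx, Form.eval, ctx_eval x y I]
    cases h : y (x i) <;> simp [sg, Form.eval, h]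

theorem xx_eval (x : ℕ → V) (y : V → Bool) : ∀ I : List ℕ,
    bz ((xx x I).eval y) = psum (I.map fun i => y (x i))
  | [] => rfl
  | i :: I => by
    rw [List.map_cons, psum, ← xx_eval x y I, ← bz_xor, xx]
    congr 1
    simp only [xr, Form.eval]
    cases y (x i) <;> cases (xx x I).eval y <;> rfl

theorem vrule_sound (n : ℕ) (c : Bool) : (vrule n c).Sound := by
  intro y h
  have h1 : psum ((List.range n).map fun i => y i) = bz c := by
    by_contra hne
    have h2 := h (ctx (fun i => i) (List.range n) ((List.range n).map fun i => y i)) (by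
      simp only [vrule, List.mem_map, Finset.mem_toList, Finset.mem_filter]
      exact ⟨_, ⟨mem_bl _ _ (by simp), by simp, hne⟩, rfl⟩)
    rw [ctx_eval (fun i => i) y] at h2
    exact Bool.false_ne_true h2
  have h3 := xx_eval (fun i : ℕ => i) y (List.range n)
  rw [h1] at h3
  have h4 : (xx (fun i : ℕ => i) (List.range n)).eval y = c := by
    revert h3
    cases (xx (fun i : ℕ => i) (List.range n)).eval y <;> cases c <;> simp [bz]
  simp only [vrule]
  cases c
  · rw [sg, Form.eval, h4]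
    rfl
  · rw [sg, h4]

theorem ucRules_sound (Δ : ℕ) : ∀ R ∈ ucRules Δ, R.Sound := by
  rintro R (((((h | h) | h) | h) | h) | h)
  · obtain ⟨⟨a, b⟩, rfl⟩ := h
    intro x _
    cases a <;> cases b <;> simp [Form.eval, T3, zf, xr]
  · obtain ⟨⟨a, b, c⟩, rfl⟩ := h
    intro x hx
    cases a <;> cases b <;> cases c <;> simp [Form.eval, T3, zf, nd, xr] at hx ⊢ <;> grind
  · obtain ⟨⟨a, b⟩, rfl⟩ := h
    intro x hx
    cases a <;> cases b <;> simp [Form.eval, T3, sg, xr] at hx ⊢ <;> grind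
  · obtain ⟨a, rfl⟩ := h
    intro x hx
    cases a <;> simp [Form.eval, T2, sg, xr] at hx ⊢ <;> grind
  · simp only [Set.mem_insert_iff, Set.mem_singleton_iff] at h
    rcases h with rfl | rfl | rfl | rfl <;>
      intro x hx <;> simp [Form.eval, xr, T2, T3] at hx ⊢ <;> grind
  · obtain ⟨⟨a, b⟩, rfl⟩ := h
    exact vrule_sound _ _

variable {W : Type}

theorem T2_subst (σ : ℕ → Form W) (A B : Form ℕ) :
    (T2 A B).subst σ = T2 (A.subst σ) (B.subst σ) := rfl

theorem T3_subst (σ : ℕ → Form W) (A B C : Form ℕ) :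
    (T3 A B C).subst σ = T3 (A.subst σ) (B.subst σ) (C.subst σ) := rfl

theorem zf_subst (σ : ℕ → Form W) (z : Bool) (A : Form ℕ) :
    (zf z A).subst σ = zf z (A.subst σ) := by
  cases z <;> rfl

theorem nd_subst (σ : ℕ → Form W) (z : Bool) (A B : Form ℕ) :
    (nd z A B).subst σ = nd z (A.subst σ) (B.subst σ) := by
  cases z <;> rfl

theorem size_T2 (A B : Form V) : (T2 A B).size = 2 * (A.size + B.size) := by
  rw [T2, Form.size, size_xr]

theorem size_T3 (A B C : Form V) : (T3 A B C).size = 2 * A.size + 4 * B.size + 4 * C.size := by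
  rw [T3, Form.size, size_xr, size_xr]
  ring

/-- A substitution. -/
def sub6 (A0 A1 A2 A3 A4 A5 : Form V) : ℕ → Form V
  | 0 => A0
  | 1 => A1
  | 2 => A2
  | 3 => A3
  | 4 => A4
  | _ => A5

variable {S : Set Rule} {Γ Y : Set (Form V)} {Δ K s t : ℕ}

theorem use_leaf (hK : Sim (ucRules Δ) S Γ K s) (b c : Bool) (A : Form V) (ht : 1 ≤ t)
    (hts : t ≤ s) (h : (T3 (zf (b == c) A) (zf b A) (zf c A)).size ≤ t) :
    TR S Γ (K * s) Y {T3 (zf (b == c) A) (zf b A) (zf c A)} (K * t) := by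
  have h1 := hK ⟨[], T3 (zf (b == c) (var 0)) (zf b (var 0)) (zf c (var 0))⟩
    (Or.inl (Or.inl (Or.inl (Or.inl (Or.inl ⟨(b, c), rfl⟩))))) Y t (fun _ => A) ht hts (by simp)
  simp only [T3_subst, zf_subst] at h1
  exact h1 h

theorem use_node (hK : Sim (ucRules Δ) S Γ K s) (a b c : Bool) {A1 A2 B1 B2 C1 C2 : Form V}
    (ht : 1 ≤ t) (hts : t ≤ s) (h1 : T3 (zf a A1) (zf b B1) (zf c C1) ∈ Y)
    (h2 : T3 (zf a A2) (zf b B2) (zf c C2) ∈ Y)
    (h1' : (T3 (zf a A1) (zf b B1) (zf c C1)).size ≤ t)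
    (h2' : (T3 (zf a A2) (zf b B2) (zf c C2)).size ≤ t)
    (h : (T3 (nd a A1 A2) (nd b B1 B2) (nd c C1 C2)).size ≤ t) :
    TR S Γ (K * s) Y {T3 (nd a A1 A2) (nd b B1 B2) (nd c C1 C2)} (K * t) := by
  have h3 := hK _ (Or.inl (Or.inl (Or.inl (Or.inl (Or.inr ⟨(a, b, c), rfl⟩))))) Y t
    (sub6 A1 A2 B1 B2 C1 C2) ht hts (by
      intro P hP
      simp only [List.mem_cons, List.not_mem_nil, or_false] at hP
      rcases hP with rfl | rfl
      · simp only [T3_subst, zf_subst]
        exact ⟨h1, h1'⟩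
      · simp only [T3_subst, zf_subst]
        exact ⟨h2, h2'⟩)
  simp only [T3_subst, nd_subst] at h3
  exact h3 h

theorem use_merge (hK : Sim (ucRules Δ) S Γ K s) (b c : Bool) {A B C : Form V}
    (ht : 1 ≤ t) (hts : t ≤ s) (h1 : T3 A B C ∈ Y) (h2 : sg B b ∈ Y) (h3 : sg C c ∈ Y)
    (h1' : (T3 A B C).size ≤ t) :
    TR S Γ (K * s) Y {sg A (xor b c)} (K * t) := by
  rw [size_T3] at h1'
  have h4 := hK _ (Or.inl (Or.inl (Or.inl (Or.inr ⟨(b, c), rfl⟩)))) Y t
    (sub6 A B C ff ff ff) ht hts (by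
      intro P hP
      simp only [List.mem_cons, List.not_mem_nil, or_false] at hP
      rcases hP with rfl | rfl | rfl
      · simp only [T3_subst]
        exact ⟨h1, by rw [size_T3]; exact h1'⟩
      · simp only [sg_subst]
        refine ⟨h2, ?_⟩
        rw [size_sg]
        simp only [Form.subst, sub6]
        omega
      · simp only [sg_subst]
        refine ⟨h3, ?_⟩
        rw [size_sg]
        simp only [Form.subst, sub6]
        omega)
  simp only [sg_subst] at h4
  refine h4 ?_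
  rw [size_sg]
  simp only [Form.subst, sub6]
  omega

theorem use_sg (hK : Sim (ucRules Δ) S Γ K s) (c : Bool) {A B : Form V}
    (ht : 1 ≤ t) (hts : t ≤ s) (h1 : T2 A B ∈ Y) (h2 : sg B c ∈ Y) (h1' : (T2 A B).size ≤ t) :
    TR S Γ (K * s) Y {sg A c} (K * t) := by
  rw [size_T2] at h1'
  have h4 := hK _ (Or.inl (Or.inl (Or.inr ⟨c, rfl⟩))) Y t
    (sub6 A B ff ff ff ff) ht hts (by
      intro P hP
      simp only [List.mem_cons, List.not_mem_nil, or_false] at hP
      rcases hP with rfl | rfl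
      · simp only [T2_subst]
        exact ⟨h1, by rw [size_T2]; exact h1'⟩
      · simp only [sg_subst]
        refine ⟨h2, ?_⟩
        rw [size_sg]
        simp only [Form.subst, sub6]
        omega)
  simp only [sg_subst] at h4
  refine h4 ?_
  rw [size_sg]
  simp only [Form.subst, sub6]
  omega

theorem use_refl (hK : Sim (ucRules Δ) S Γ K s) (A : Form V) (ht : 1 ≤ t) (hts : t ≤ s)
    (h : (T2 A A).size ≤ t) : TR S Γ (K * s) Y {T2 A A} (K * t) :=
  hK ⟨[], T2 (var 0) (var 0)⟩ (Or.inl (Or.inr (Or.inl rfl))) Y t (fun _ => A) ht hts (by simp) h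

theorem use_up1 (hK : Sim (ucRules Δ) S Γ K s) {A B : Form V} (ht : 1 ≤ t) (hts : t ≤ s)
    (h1 : T2 A B ∈ Y) (h : (T2 (xr A ff) B).size ≤ t) :
    TR S Γ (K * s) Y {T2 (xr A ff) B} (K * t) := by
  have h2 := hK _ (Or.inl (Or.inr (Or.inr (Or.inl rfl)))) Y t
    (sub6 A B ff ff ff ff) ht hts (by
      intro P hP
      simp only [List.mem_cons, List.not_mem_nil, or_false] at hP
      subst hP
      refine ⟨h1, ?_⟩
      rw [size_T2, size_xr] at h
      simp only [T2_subst, size_T2, Form.subst, sub6]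
      omega)
  exact h2 h

theorem use_up2 (hK : Sim (ucRules Δ) S Γ K s) {A B : Form V} (ht : 1 ≤ t) (hts : t ≤ s)
    (h1 : T2 A B ∈ Y) (h : (T2 (xr ff A) B).size ≤ t) :
    TR S Γ (K * s) Y {T2 (xr ff A) B} (K * t) := by
  have h2 := hK _ (Or.inl (Or.inr (Or.inr (Or.inr (Or.inl rfl))))) Y t
    (sub6 A B ff ff ff ff) ht hts (by
      intro P hP
      simp only [List.mem_cons, List.not_mem_nil, or_false] at hP
      subst hP
      refine ⟨h1, ?_⟩
      rw [size_T2, size_xr] at h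
      simp only [T2_subst, size_T2, Form.subst, sub6]
      omega)
  exact h2 h

theorem use_link (hK : Sim (ucRules Δ) S Γ K s) {A B C D E : Form V} (ht : 1 ≤ t) (hts : t ≤ s)
    (h1 : T3 A B C ∈ Y) (h2 : T2 B D ∈ Y) (h3 : T2 C E ∈ Y) (h1' : (T3 A B C).size ≤ t)
    (h2' : (T2 B D).size ≤ t) (h3' : (T2 C E).size ≤ t) (h : (T2 A (xr D E)).size ≤ t) :
    TR S Γ (K * s) Y {T2 A (xr D E)} (K * t) := by
  have h4 := hK _ (Or.inl (Or.inr (Or.inr (Or.inr (Or.inr rfl))))) Y t
    (sub6 A B C D E ff) ht hts (by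
      intro P hP
      simp only [List.mem_cons, List.not_mem_nil, or_false] at hP
      rcases hP with rfl | rfl | rfl
      · exact ⟨h1, h1'⟩
      · exact ⟨h2, h2'⟩
      · exact ⟨h3, h3'⟩)
  exact h4 h

theorem ctx_subst (x : ℕ → V) (ρ : ℕ → ℕ) : ∀ (I : List ℕ) (α : List Bool),
    (ctx (fun i => i) I α).subst (fun j => var (x (ρ j))) = ctx x (I.map ρ) α
  | [], _ => by simp [ctx, Form.subst]
  | i :: I, [] => by simp [ctx, Form.subst]
  | i :: I, a :: α => by
    rw [List.map_cons, ctx, ctx, Form.subst, ctx_subst x ρ I α, sg_subst]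
    rfl

theorem xx_subst (x : ℕ → V) (ρ : ℕ → ℕ) : ∀ (I : List ℕ),
    (xx (fun i => i) I).subst (fun j => var (x (ρ j))) = xx x (I.map ρ)
  | [] => rfl
  | i :: I => by
    rw [List.map_cons, xx, xx, xr_subst, xx_subst x ρ I]
    rfl

theorem size_xx (x : ℕ → V) : ∀ I : List ℕ, (xx x I).size ≤ 3 * 2 ^ I.length - 2
  | [] => by simp [xx, Form.size]
  | i :: I => by
    have h := size_xx x I
    have h1 : 1 ≤ 2 ^ I.length := Nat.one_le_two_pow
    rw [xx, size_xr, Form.size, List.length_cons, pow_succ]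
    omega

theorem use_vertex (hK : Sim (ucRules Δ) S Γ K s) (x : ℕ → V) (I : List ℕ) (c : Bool)
    (hI : I.length ≤ Δ) (hs : 3 * 2 ^ Δ ≤ s)
    (hΓ : ∀ α : List Bool, α.length = I.length → psum α ≠ bz c → ctx x I α ∈ Γ) (hK1 : 1 ≤ K) :
    TR S Γ (K * s) Y {sg (xx x I) c} (2 ^ Δ * (Δ + 1) + K * (3 * 2 ^ Δ)) := by
  classical
  let σ : ℕ → Form V := fun j => var (x (I.getD j 0))
  have hI2 : (List.range I.length).map (fun j => I.getD j 0) = I := by
    refine List.ext_getElem (by simp) fun j h1 h2 => ?_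
    simp only [List.getElem_map, List.getElem_range]
    rw [List.getD_eq_getElem _ _ h2]
  have hctx : ∀ α, (ctx (fun i => i) (List.range I.length) α).subst σ = ctx x I α := by
    intro α
    rw [ctx_subst x (fun j => I.getD j 0), hI2]
  have hxx : (xx (fun i => i) (List.range I.length)).subst σ = xx x I := by
    rw [xx_subst x (fun j => I.getD j 0), hI2]
  have hD : Δ + 1 ≤ 2 ^ Δ := Nat.lt_two_pow_self
  have hΔ1 : 2 ^ I.length ≤ 2 ^ Δ := Nat.pow_le_pow_right (by norm_num) hI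
  have hc1 : ∀ α, (ctx x I α).size ≤ Δ + 1 := fun α => (size_ctx x I α).trans (by omega)
  set l : List (Form V) := (((bl I.length).filter fun α => α.length = I.length ∧
    psum α ≠ bz c).toList.map fun α => ctx x I α) with hl
  have hKs : s ≤ K * s := Nat.le_mul_of_pos_left _ hK1
  have h1 : TR S Γ (K * s) Y {ψ | ψ ∈ l} (tsz l) := by
    refine TR.axioms l ?_ ?_
    · intro φ hφ
      rw [hl, List.mem_map] at hφ
      obtain ⟨α, hα, rfl⟩ := hφ
      rw [Finset.mem_toList, Finset.mem_filter] at hα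
      exact hΓ α hα.2.1 hα.2.2
    · intro φ hφ
      rw [hl, List.mem_map] at hφ
      obtain ⟨α, hα, rfl⟩ := hφ
      have := hc1 α
      omega
  have h2 : tsz l ≤ 2 ^ Δ * (Δ + 1) := by
    refine (tsz_le (s := Δ + 1) ?_).trans (Nat.mul_le_mul_right _ ?_)
    · intro φ hφ
      rw [hl, List.mem_map] at hφ
      obtain ⟨α, hα, rfl⟩ := hφ
      exact hc1 α
    · rw [hl, List.length_map, Finset.length_toList]
      exact (Finset.card_filter_le _ _).trans ((card_bl _).trans hΔ1)
  have h3 := hK (vrule I.length c) (Or.inr ⟨(⟨I.length, by omega⟩, c), rfl⟩)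
    (Y ∪ {ψ | ψ ∈ l}) (3 * 2 ^ Δ) σ (by omega) hs (by
      intro P hP
      simp only [vrule, List.mem_map] at hP
      obtain ⟨α, hα, rfl⟩ := hP
      rw [hctx]
      have h5 : ctx x I α ∈ l := by
        rw [hl, List.mem_map]
        exact ⟨α, hα, rfl⟩
      exact ⟨Or.inr h5, (hc1 α).trans (by omega)⟩)
  have h4 : ((vrule I.length c).concl).subst σ = sg (xx x I) c := by
    simp only [vrule]
    rw [sg_subst, hxx]
  rw [h4] at h3
  refine ((h1.trans (h3 ?_)).mono le_rfl le_rfl ?_)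
  · rw [size_sg]
    have := size_xx x I
    omega
  · omega

end Pool.Agent.MP_9cec2c_lc.SL.Ub
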