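import Pool.Agent.Lib.MP_9cec2c_lc.SL.UcB

/-!
Campaign SL, upper bound for the total size, part C (helper84): pruned parities. The parity of the
variables `x i` with `f i ≠ 0` over a complete binary tree, in which the subtrees without such a
variable are replaced by `ff`, and the derivation of the parity of `f + g` from the parities of `f` and
`g`.
-/

set_option autoImplicit false

namespace Pool.Agent.MP_9cec2c_lc.SL.Ub

open Form

variable {V : Type}

/-- The number of nonzero values in the block `o, …, o + 2 ^ k - 1`. -/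
def wt (f : ℕ → ZMod 2) : ℕ → ℕ → ℕ
  | 0, o => if f o = 0 then 0 else 1
  | k + 1, o => wt f k o + wt f k (o + 2 ^ k)

/-- The pruned parity. -/
def pp (x : ℕ → V) (f : ℕ → ZMod 2) : ℕ → ℕ → Form V
  | 0, o => zf (decide (wt f 0 o = 0)) (var (x o))
  | k + 1, o => nd (decide (wt f (k + 1) o = 0)) (pp x f k o) (pp x f k (o + 2 ^ k))

theorem pp_ff (x : ℕ → V) {f : ℕ → ZMod 2} {k o : ℕ} (h : wt f k o = 0) : pp x f k o = ff := by
  cases k with
  | zero => simp [pp, h, zf]
  | succ k => simp [pp, h, nd]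

theorem wt_add (f g : ℕ → ZMod 2) : ∀ k o, wt (f + g) k o ≤ wt f k o + wt g k o
  | 0, o => by
    simp only [wt, Pi.add_apply]
    by_cases h1 : f o = 0
    · simp [h1]
    · by_cases h2 : g o = 0
      · simp [h2]
      · rw [if_neg h1, if_neg h2]
        split_ifs <;> omega
  | k + 1, o => by
    have h1 := wt_add f g k o
    have h2 := wt_add f g k (o + 2 ^ k)
    simp only [wt]
    omega

theorem wt_zero : ∀ k o, wt 0 k o = 0
  | 0, o => by simp [wt]
  | k + 1, o => by simp [wt, wt_zero k]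

theorem size_pp (x : ℕ → V) (f : ℕ → ZMod 2) : ∀ k o,
    (pp x f k o).size + 2 * wt f k o ≤ 3 * 2 ^ k * wt f k o + (if wt f k o = 0 then 1 else 0)
  | 0, o => by
    by_cases h : wt f 0 o = 0
    · simp [pp_ff x h, Form.size, h]
    · have h1 : wt f 0 o = 1 := by
        simp only [wt] at h ⊢
        split_ifs at h ⊢ with h2
        · exact absurd rfl h
        · rfl
      simp [pp, h1, zf, Form.size]
  | k + 1, o => by
    by_cases h : wt f (k + 1) o = 0
    · simp [pp_ff x h, Form.size, h]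
    · have h1 := size_pp x f k o
      have h2 := size_pp x f k (o + 2 ^ k)
      have h3 : wt f (k + 1) o = wt f k o + wt f k (o + 2 ^ k) := rfl
      rw [pp, nd, if_neg (by simp [h]), size_xr, if_neg h, h3]
      rw [h3] at h
      have h4 : (if wt f k o = 0 then 1 else 0) + (if wt f k (o + 2 ^ k) = 0 then 1 else 0) ≤
          wt f k o + wt f k (o + 2 ^ k) := by
        split_ifs <;> omega
      have h5 : 3 * 2 ^ (k + 1) * (wt f k o + wt f k (o + 2 ^ k)) =
          2 * (3 * 2 ^ k * wt f k o) + 2 * (3 * 2 ^ k * wt f k (o + 2 ^ k)) := by ring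
      rw [h5]
      omega

theorem size_pp' (x : ℕ → V) (f : ℕ → ZMod 2) (k o : ℕ) :
    (pp x f k o).size ≤ 3 * 2 ^ k * wt f k o + 1 := by
  have h := size_pp x f k o
  split_ifs at h <;> omega

theorem zf_left (x : ℕ → V) (f : ℕ → ZMod 2) (k o : ℕ) :
    zf (decide (wt f (k + 1) o = 0)) (pp x f k o) = pp x f k o := by
  by_cases h : wt f (k + 1) o = 0
  · have h1 : wt f k o = 0 := by
      have : wt f (k + 1) o = wt f k o + wt f k (o + 2 ^ k) := rfl
      omega
    rw [pp_ff x h1]
    simp [zf]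
  · simp [zf, h]

theorem zf_right (x : ℕ → V) (f : ℕ → ZMod 2) (k o : ℕ) :
    zf (decide (wt f (k + 1) o = 0)) (pp x f k (o + 2 ^ k)) = pp x f k (o + 2 ^ k) := by
  by_cases h : wt f (k + 1) o = 0
  · have h1 : wt f k (o + 2 ^ k) = 0 := by
      have : wt f (k + 1) o = wt f k o + wt f k (o + 2 ^ k) := rfl
      omega
    rw [pp_ff x h1]
    simp [zf]
  · simp [zf, h]

theorem size_T3_pp (x : ℕ → V) (f g : ℕ → ZMod 2) (k o : ℕ) :
    (T3 (pp x (f + g) k o) (pp x f k o) (pp x g k o)).size ≤
      18 * 2 ^ k * (wt f k o + wt g k o) + 10 := by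
  rw [size_T3]
  have h1 := size_pp' x (f + g) k o
  have h2 := size_pp' x f k o
  have h3 := size_pp' x g k o
  have h4 : 3 * 2 ^ k * wt (f + g) k o ≤ 3 * 2 ^ k * (wt f k o + wt g k o) :=
    Nat.mul_le_mul_left _ (wt_add f g k o)
  have h5 : 3 * 2 ^ k * (wt f k o + wt g k o) = 3 * 2 ^ k * wt f k o + 3 * 2 ^ k * wt g k o := by
    ring
  have h6 : 18 * 2 ^ k * (wt f k o + wt g k o) =
      6 * (3 * 2 ^ k * wt f k o) + 6 * (3 * 2 ^ k * wt g k o) := by ring
  rw [h6]
  omega

variable {S : Set Rule} {Γ Y : Set (Form V)} {Δ K s : ℕ}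

/-- The parity of `f + g` is the parity of the parities of `f` and `g`. -/
theorem pp_add (hK : Sim (ucRules Δ) S Γ K s) (x : ℕ → V) (f g : ℕ → ZMod 2) : ∀ k o,
    18 * 2 ^ k * (wt f k o + wt g k o) + 10 ≤ s →
    TR S Γ (K * s) Y {T3 (pp x (f + g) k o) (pp x f k o) (pp x g k o)}
      (K * (10 + 56 * 2 ^ k * (wt f k o + wt g k o)))
  | 0, o, hs => by
    have h1 : decide (wt (f + g) 0 o = 0) =
        (decide (wt f 0 o = 0) == decide (wt g 0 o = 0)) := by
      have key : ∀ a b : ZMod 2, (a + b = 0) ↔ ((a = 0) ↔ (b = 0)) := by decide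
      have h := key (f o) (g o)
      simp only [wt, Pi.add_apply]
      by_cases ha : f o = 0 <;> by_cases hb : g o = 0 <;> simp_all
    have h2 := size_T3_pp x f g 0 o
    have h3 := use_leaf (Y := Y) (t := 18 * 2 ^ 0 * (wt f 0 o + wt g 0 o) + 10) hK
      (decide (wt f 0 o = 0)) (decide (wt g 0 o = 0)) (var (x o)) (by omega) hs (by
        rw [← h1]
        exact h2)
    rw [← h1] at h3
    refine h3.mono le_rfl le_rfl (Nat.mul_le_mul_left _ ?_)
    rw [pow_zero]
    omega
  | k + 1, o, hs => by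
    have hw1 : wt f (k + 1) o = wt f k o + wt f k (o + 2 ^ k) := rfl
    have hw2 : wt g (k + 1) o = wt g k o + wt g k (o + 2 ^ k) := rfl
    by_cases h0 : wt f (k + 1) o + wt g (k + 1) o = 0
    · have h1 : wt f (k + 1) o = 0 := by omega
      have h2 : wt g (k + 1) o = 0 := by omega
      have h3 : wt (f + g) (k + 1) o = 0 := by
        have := wt_add f g (k + 1) o
        omega
      rw [pp_ff x h1, pp_ff x h2, pp_ff x h3, h1, h2]
      have h4 := use_leaf (Y := Y) (t := 10) hK true true (ff : Form V) (by omega) (by omega) (by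
        rw [size_T3]
        simp [zf, Form.size])
      exact h4.mono le_rfl le_rfl (Nat.mul_le_mul_left _ (by omega))
    · have e1 : 18 * 2 ^ (k + 1) * (wt f (k + 1) o + wt g (k + 1) o) =
          2 * (18 * 2 ^ k * (wt f k o + wt g k o)) +
          2 * (18 * 2 ^ k * (wt f k (o + 2 ^ k) + wt g k (o + 2 ^ k))) := by
        rw [hw1, hw2]
        ring
      have ih1 := pp_add hK x f g k o (by omega)
      have ih2 := pp_add hK x f g k (o + 2 ^ k) (by omega)
      have h1 := TR.comb2 ih1 ih2 (c := T3 (pp x (f + g) (k + 1) o) (pp x f (k + 1) o)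
        (pp x g (k + 1) o))
        (m' := K * (18 * 2 ^ (k + 1) * (wt f (k + 1) o + wt g (k + 1) o) + 10)) (by
          intro Z hZ1 hZ2
          have s1 := size_T3_pp x f g k o
          have s2 := size_T3_pp x f g k (o + 2 ^ k)
          have s3 := size_T3_pp x f g (k + 1) o
          have := use_node (Y := Z) hK (decide (wt (f + g) (k + 1) o = 0))
            (decide (wt f (k + 1) o = 0)) (decide (wt g (k + 1) o = 0))
            (A1 := pp x (f + g) k o) (A2 := pp x (f + g) k (o + 2 ^ k))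
            (B1 := pp x f k o) (B2 := pp x f k (o + 2 ^ k))
            (C1 := pp x g k o) (C2 := pp x g k (o + 2 ^ k))
            (t := 18 * 2 ^ (k + 1) * (wt f (k + 1) o + wt g (k + 1) o) + 10)
            (by omega) hs
            (by rw [zf_left, zf_left, zf_left]; exact hZ1)
            (by rw [zf_right, zf_right, zf_right]; exact hZ2)
            (by rw [zf_left, zf_left, zf_left]; omega)
            (by rw [zf_right, zf_right, zf_right]; omega)
            s3
          exact this)
      refine h1.mono le_rfl le_rfl ?_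
      rw [← Nat.mul_add, ← Nat.mul_add]
      refine Nat.mul_le_mul_left _ ?_
      have e2 : 56 * 2 ^ (k + 1) * (wt f (k + 1) o + wt g (k + 1) o) =
          2 * (56 * 2 ^ k * (wt f k o + wt g k o)) +
          2 * (56 * 2 ^ k * (wt f k (o + 2 ^ k) + wt g k (o + 2 ^ k))) := by
        rw [hw1, hw2]
        ring
      have e3 : 20 ≤ 20 * 2 ^ k * (wt f k o + wt g k o) +
          20 * 2 ^ k * (wt f k (o + 2 ^ k) + wt g k (o + 2 ^ k)) := by
        have h5 : 1 ≤ 2 ^ k := Nat.one_le_two_pow
        have h6 : 1 ≤ (wt f k o + wt g k o) + (wt f k (o + 2 ^ k) + wt g k (o + 2 ^ k)) := by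
          omega
        calc 20 = 20 * 1 * 1 := rfl
          _ ≤ 20 * 2 ^ k * ((wt f k o + wt g k o) + (wt f k (o + 2 ^ k) + wt g k (o + 2 ^ k))) := by
            gcongr
          _ = _ := by ring
      rw [e1, e2]
      have e4 : 56 * 2 ^ k * (wt f k o + wt g k o) = 36 * 2 ^ k * (wt f k o + wt g k o) +
          20 * 2 ^ k * (wt f k o + wt g k o) := by ring
      have e5 : 56 * 2 ^ k * (wt f k (o + 2 ^ k) + wt g k (o + 2 ^ k)) =
          36 * 2 ^ k * (wt f k (o + 2 ^ k) + wt g k (o + 2 ^ k)) +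
          20 * 2 ^ k * (wt f k (o + 2 ^ k) + wt g k (o + 2 ^ k)) := by ring
      have e6 : 36 * 2 ^ k * (wt f k o + wt g k o) = 2 * (18 * 2 ^ k * (wt f k o + wt g k o)) := by
        ring
      have e7 : 36 * 2 ^ k * (wt f k (o + 2 ^ k) + wt g k (o + 2 ^ k)) =
          2 * (18 * 2 ^ k * (wt f k (o + 2 ^ k) + wt g k (o + 2 ^ k))) := by ring
      omega

/-- The function that is 1 at `i` and 0 elsewhere. -/
def dl (i : ℕ) : ℕ → ZMod 2 := fun j => if j = i then 1 else 0

theorem wt_dl_out (i : ℕ) : ∀ k o, (i < o ∨ o + 2 ^ k ≤ i) → wt (dl i) k o = 0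
  | 0, o, h => by
    have h1 : o ≠ i := by
      rcases h with h | h
      · omega
      · rw [pow_zero] at h
        omega
    simp [wt, dl, h1]
  | k + 1, o, h => by
    rw [pow_succ] at h
    rw [wt, wt_dl_out i k o (by omega), wt_dl_out i k (o + 2 ^ k) (by omega)]

theorem wt_dl_le (i : ℕ) : ∀ k o, wt (dl i) k o ≤ 1
  | 0, o => by
    simp only [wt]
    split_ifs <;> omega
  | k + 1, o => by
    rw [wt]
    by_cases h : i < o + 2 ^ k
    · rw [wt_dl_out i k (o + 2 ^ k) (Or.inl h)]
      exact wt_dl_le i k o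
    · rw [wt_dl_out i k o (Or.inr (not_lt.mp h))]
      have := wt_dl_le i k (o + 2 ^ k)
      omega

theorem wt_dl_in (i : ℕ) : ∀ k o, o ≤ i → i < o + 2 ^ k → wt (dl i) k o = 1
  | 0, o, h1, h2 => by
    have h3 : o = i := by
      rw [pow_zero] at h2
      omega
    simp [wt, dl, h3]
  | k + 1, o, h1, h2 => by
    rw [pow_succ] at h2
    rw [wt]
    by_cases h : i < o + 2 ^ k
    · rw [wt_dl_out i k (o + 2 ^ k) (Or.inl h), wt_dl_in i k o h1 h]
    · rw [wt_dl_out i k o (Or.inr (not_lt.mp h)), wt_dl_in i k (o + 2 ^ k) (not_lt.mp h)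
        (by omega)]

/-- The parity of one variable. -/
theorem pp_single (hK : Sim (ucRules Δ) S Γ K s) (x : ℕ → V) (i : ℕ) : ∀ k o,
    22 * 2 ^ k ≤ s → o ≤ i → i < o + 2 ^ k →
    TR S Γ (K * s) Y {T2 (pp x (dl i) k o) (var (x i))} (K * (44 * 2 ^ k))
  | 0, o, hs, h1, h2 => by
    have h3 : o = i := by
      rw [pow_zero] at h2
      omega
    subst h3
    have h4 : pp x (dl o) 0 o = var (x o) := by
      rw [pp, wt_dl_in o 0 o le_rfl (by simp)]
      simp [zf]
    rw [h4]
    exact (use_refl (Y := Y) (t := 4) hK (var (x o)) (by omega) (by omega) (by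
      rw [size_T2]
      simp [Form.size])).mono le_rfl le_rfl (Nat.mul_le_mul_left _ (by omega))
  | k + 1, o, hs, h1, h2 => by
    have hk1 : 1 ≤ 2 ^ k := Nat.one_le_two_pow
    have hk2 : 2 ^ (k + 1) = 2 * 2 ^ k := by rw [pow_succ]; ring
    have hw := wt_dl_in i (k + 1) o h1 h2
    have size_ok : ∀ o', (pp x (dl i) k o').size ≤ 3 * 2 ^ k + 1 := by
      intro o'
      have h3 := size_pp' x (dl i) k o'
      have h4 : 3 * 2 ^ k * wt (dl i) k o' ≤ 3 * 2 ^ k * 1 :=
        Nat.mul_le_mul_left _ (wt_dl_le i k o')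
      omega
    rw [hk2] at h2
    by_cases h : i < o + 2 ^ k
    · have ih := pp_single hK x i k o (by omega) h1 h
      have h3 : pp x (dl i) (k + 1) o = xr (pp x (dl i) k o) ff := by
        rw [pp, hw, pp_ff x (wt_dl_out i k (o + 2 ^ k) (Or.inl h))]
        simp [nd]
      rw [h3]
      refine (TR.comb1 ih (m' := K * (22 * 2 ^ k)) ?_).mono le_rfl le_rfl ?_
      · intro Z hZ
        refine use_up1 (t := 22 * 2 ^ k) hK (by omega) (by omega) hZ ?_
        have := size_ok o
        rw [size_T2, size_xr, Form.size, Form.size]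
        omega
      · rw [← Nat.mul_add]
        exact Nat.mul_le_mul_left _ (by omega)
    · have ih := pp_single hK x i k (o + 2 ^ k) (by omega) (not_lt.mp h) (by omega)
      have h3 : pp x (dl i) (k + 1) o = xr ff (pp x (dl i) k (o + 2 ^ k)) := by
        rw [pp, hw, pp_ff x (wt_dl_out i k o (Or.inr (not_lt.mp h)))]
        simp [nd]
      rw [h3]
      refine (TR.comb1 ih (m' := K * (22 * 2 ^ k)) ?_).mono le_rfl le_rfl ?_
      · intro Z hZ
        refine use_up2 (t := 22 * 2 ^ k) hK (by omega) (by omega) hZ ?_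
        have := size_ok (o + 2 ^ k)
        rw [size_T2, size_xr, Form.size, Form.size]
        omega
      · rw [← Nat.mul_add]
        exact Nat.mul_le_mul_left _ (by omega)

end Pool.Agent.MP_9cec2c_lc.SL.Ub
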