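import Pool.Agent.Lib.MP_9cec2c_lc.SL.UcC

/-!
Campaign SL, upper bound for the total size, part D (helper84): the lines of the vertices, and divide
and conquer.
-/

set_option autoImplicit false

namespace Pool.Agent.MP_9cec2c_lc.SL.Ub

open Form

variable {V : Type}

/-- The indicator of a list, modulo 2. -/
def fl : List ℕ → (ℕ → ZMod 2)
  | [] => 0
  | i :: I => dl i + fl I

theorem wt_fl (k o : ℕ) : ∀ I : List ℕ, wt (fl I) k o ≤ I.length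
  | [] => by simp [fl, wt_zero]
  | i :: I => by
    have h1 := wt_add (dl i) (fl I) k o
    have h2 := wt_dl_le i k o
    have h3 := wt_fl k o I
    rw [fl, List.length_cons]
    omega

theorem fl_apply (j : ℕ) : ∀ I : List ℕ, fl I j = (I.count j : ZMod 2)
  | [] => by simp [fl]
  | i :: I => by
    rw [fl, Pi.add_apply, fl_apply j I, List.count_cons, dl]
    by_cases h : j = i
    · subst h
      simp
      ring
    · have h' : ¬ i = j := fun h2 => h h2.symm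
      simp [h, h']

/-- The cost of a vertex. -/
def cD (Δ h : ℕ) : ℕ := 2 ^ h * (74 * (Δ + 1) + 6 * 2 ^ Δ)

variable {S : Set Rule} {Γ Y : Set (Form V)} {Δ K s : ℕ}

theorem pp_list (hK : Sim (ucRules Δ) S Γ K s) (x : ℕ → V) (h : ℕ) (hs : cD Δ h ≤ s) :
    ∀ I : List ℕ, (∀ i ∈ I, i < 2 ^ h) → I.length ≤ Δ →
    TR S Γ (K * s) Y {T2 (pp x (fl I) h 0) (xx x I)} (K * ((I.length + 1) * cD Δ h))
  | [], _, _ => by
    have h1 : 1 ≤ 2 ^ h := Nat.one_le_two_pow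
    have h2 : 4 ≤ cD Δ h := by
      calc 4 ≤ 1 * (74 * (0 + 1) + 6 * 0) := by norm_num
        _ ≤ cD Δ h := by
          unfold cD
          gcongr
          · exact Nat.zero_le _
          · exact Nat.zero_le _
    rw [fl, xx, pp_ff x (wt_zero h 0)]
    refine (use_refl (Y := Y) (t := 4) hK (ff : Form V) (by omega) (by omega) (by
      rw [size_T2]
      simp [Form.size])).mono le_rfl le_rfl (Nat.mul_le_mul_left _ ?_)
    rw [List.length_nil]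
    omega
  | i :: I, hI, hl => by
    rw [List.length_cons] at hl ⊢
    have hh : 1 ≤ 2 ^ h := Nat.one_le_two_pow
    have ih := pp_list hK x h hs I (fun j hj => hI j (List.mem_cons_of_mem _ hj)) (by omega)
    have hDe : cD Δ h = 74 * (2 ^ h * Δ) + 74 * 2 ^ h + 6 * (2 ^ h * 2 ^ Δ) := by
      unfold cD
      ring
    have hw1 : wt (dl i) h 0 ≤ 1 := wt_dl_le i h 0
    have hw2 : wt (fl I) h 0 ≤ I.length := wt_fl h 0 I
    have hw : 2 ^ h * (wt (dl i) h 0 + wt (fl I) h 0) ≤ 2 ^ h * Δ :=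
      Nat.mul_le_mul_left _ (by omega)
    have hw3 : 2 ^ h * wt (dl i) h 0 ≤ 2 ^ h * 1 := Nat.mul_le_mul_left _ hw1
    have hw4 : 2 ^ h * wt (fl I) h 0 ≤ 2 ^ h * Δ := Nat.mul_le_mul_left _ (by omega)
    have hw5 : 2 ^ h * wt (dl i + fl I) h 0 ≤ 2 ^ h * Δ := by
      refine le_trans (Nat.mul_le_mul_left _ (wt_add _ _ h 0)) hw
    have hp : 2 * 2 ^ I.length ≤ 2 ^ Δ := by
      calc 2 * 2 ^ I.length = 2 ^ (I.length + 1) := by rw [pow_succ]; ring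
        _ ≤ 2 ^ Δ := Nat.pow_le_pow_right (by norm_num) hl
    have hp2 : 2 ^ Δ ≤ 2 ^ h * 2 ^ Δ := Nat.le_mul_of_pos_left _ (by omega)
    have e1 : 18 * 2 ^ h * (wt (dl i) h 0 + wt (fl I) h 0) =
      18 * (2 ^ h * (wt (dl i) h 0 + wt (fl I) h 0)) := by ring
    have e2 : 56 * 2 ^ h * (wt (dl i) h 0 + wt (fl I) h 0) =
      56 * (2 ^ h * (wt (dl i) h 0 + wt (fl I) h 0)) := by ring
    have h1 := pp_add (Y := Y) hK x (dl i) (fl I) h 0 (by omega)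
    have h2 := pp_single (Y := Y) hK x i h 0 (by omega) (Nat.zero_le _)
      (by rw [zero_add]; exact hI i List.mem_cons_self)
    have s1 := size_T3_pp x (dl i) (fl I) h 0
    have s2 := size_pp' x (dl i) h 0
    have s3 := size_pp' x (fl I) h 0
    have s4 := size_pp' x (dl i + fl I) h 0
    have s5 := size_xx x I
    have s6 : 1 ≤ 2 ^ I.length := Nat.one_le_two_pow
    have e3 : 3 * 2 ^ h * wt (dl i) h 0 = 3 * (2 ^ h * wt (dl i) h 0) := by ring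
    have e4 : 3 * 2 ^ h * wt (fl I) h 0 = 3 * (2 ^ h * wt (fl I) h 0) := by ring
    have e5 : 3 * 2 ^ h * wt (dl i + fl I) h 0 = 3 * (2 ^ h * wt (dl i + fl I) h 0) := by ring
    rw [fl, xx]
    refine (TR.comb3 h1 h2 ih
      (m' := K * (18 * (2 ^ h * Δ) + 6 * (2 ^ h * 2 ^ Δ) + 12 * 2 ^ h)) ?_).mono le_rfl le_rfl ?_
    · intro Z hZ1 hZ2 hZ3
      refine use_link (t := 18 * (2 ^ h * Δ) + 6 * (2 ^ h * 2 ^ Δ) + 12 * 2 ^ h) hK (by omega)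
        (by omega) hZ1 hZ2 hZ3 ?_ ?_ ?_ ?_
      · omega
      · rw [size_T2, Form.size]
        omega
      · rw [size_T2]
        omega
      · rw [size_T2, size_xr, Form.size]
        omega
    · rw [← Nat.mul_add, ← Nat.mul_add, ← Nat.mul_add]
      refine Nat.mul_le_mul_left _ ?_
      have e6 : (I.length + 1 + 1) * cD Δ h = (I.length + 1) * cD Δ h + cD Δ h := by ring
      rw [e6]
      omega

/-- The line of a vertex. -/
theorem pp_vertex (hK : Sim (ucRules Δ) S Γ K s) (hK1 : 1 ≤ K) (x : ℕ → V) (h : ℕ)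
    (hs : cD Δ h ≤ s) (I : List ℕ) (hI : ∀ i ∈ I, i < 2 ^ h) (hl : I.length ≤ Δ) (c : Bool)
    (hΓ : ∀ α : List Bool, α.length = I.length → psum α ≠ bz c → ctx x I α ∈ Γ) :
    TR S Γ (K * s) Y {sg (pp x (fl I) h 0) c} (K * ((2 * Δ + 4) * cD Δ h)) := by
  have hh : 1 ≤ 2 ^ h := Nat.one_le_two_pow
  have hDe : cD Δ h = 74 * (2 ^ h * Δ) + 74 * 2 ^ h + 6 * (2 ^ h * 2 ^ Δ) := by
    unfold cD
    ring
  have hp2 : 2 ^ Δ ≤ 2 ^ h * 2 ^ Δ := Nat.le_mul_of_pos_left _ (by omega)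
  have h1 := pp_list (Y := Y) hK x h hs I hI hl
  have h2 := use_vertex (Y := Y) hK x I c hl (by omega) hΓ hK1
  have s3 := size_pp' x (fl I) h 0
  have s5 := size_xx x I
  have s6 : 2 ^ I.length ≤ 2 ^ Δ := Nat.pow_le_pow_right (by norm_num) hl
  have hw4 : 2 ^ h * wt (fl I) h 0 ≤ 2 ^ h * Δ :=
    Nat.mul_le_mul_left _ ((wt_fl h 0 I).trans hl)
  have e4 : 3 * 2 ^ h * wt (fl I) h 0 = 3 * (2 ^ h * wt (fl I) h 0) := by ring
  refine (TR.comb2 h1 h2 (m' := K * cD Δ h) ?_).mono le_rfl le_rfl ?_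
  · intro Z hZ1 hZ2
    refine use_sg (t := cD Δ h) hK c (by omega) hs hZ1 hZ2 ?_
    rw [size_T2]
    omega
  · have e1 : (I.length + 1) * cD Δ h ≤ (Δ + 1) * cD Δ h := Nat.mul_le_mul_right _ (by omega)
    have e2 : 2 ^ Δ * (Δ + 1) ≤ (Δ + 1) * cD Δ h := by
      rw [mul_comm]
      exact Nat.mul_le_mul_left _ (by omega)
    have e3 : 2 ^ Δ * (Δ + 1) ≤ K * ((Δ + 1) * cD Δ h) :=
      e2.trans (Nat.le_mul_of_pos_left _ hK1)
    calc K * ((I.length + 1) * cD Δ h) + (2 ^ Δ * (Δ + 1) + K * (3 * 2 ^ Δ)) + K * cD Δ h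
        ≤ K * ((Δ + 1) * cD Δ h) + (K * ((Δ + 1) * cD Δ h) + K * cD Δ h) + K * cD Δ h := by
          gcongr
          omega
      _ = K * ((2 * Δ + 4) * cD Δ h) := by ring

/-- The indicators of blocks of vertices. -/
def BF (I : ℕ → List ℕ) : ℕ → ℕ → (ℕ → ZMod 2)
  | 0, o => fl (I o)
  | j + 1, o => BF I j o + BF I j (o + 2 ^ j)

/-- The charges of blocks of vertices. -/
def BC (c : ℕ → Bool) : ℕ → ℕ → Bool
  | 0, o => c o
  | j + 1, o => xor (BC c j o) (BC c j (o + 2 ^ j))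

theorem wt_BF {I : ℕ → List ℕ} (hl : ∀ v, (I v).length ≤ Δ) (h : ℕ) : ∀ j o,
    wt (BF I j o) h 0 ≤ 2 ^ j * Δ
  | 0, o => by
    rw [BF, pow_zero, one_mul]
    exact (wt_fl h 0 _).trans (hl o)
  | j + 1, o => by
    have h1 := wt_BF hl h j o
    have h2 := wt_BF hl h j (o + 2 ^ j)
    have h3 := wt_add (BF I j o) (BF I j (o + 2 ^ j)) h 0
    have h4 : 2 ^ (j + 1) * Δ = 2 ^ j * Δ + 2 ^ j * Δ := by
      rw [pow_succ]
      ring
    rw [BF]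
    omega

theorem BF_apply (I : ℕ → List ℕ) (i : ℕ) : ∀ j o,
    BF I j o i = ∑ v ∈ Finset.Ico o (o + 2 ^ j), ((I v).count i : ZMod 2)
  | 0, o => by
    rw [BF, fl_apply, pow_zero, Nat.Ico_succ_singleton, Finset.sum_singleton]
  | j + 1, o => by
    rw [BF, Pi.add_apply, BF_apply I i j o, BF_apply I i j (o + 2 ^ j),
      Finset.sum_Ico_consecutive _ (Nat.le_add_right _ _) (Nat.le_add_right _ _)]
    congr 2
    rw [pow_succ]
    omega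

theorem BC_bz (c : ℕ → Bool) : ∀ j o,
    bz (BC c j o) = ∑ v ∈ Finset.Ico o (o + 2 ^ j), bz (c v)
  | 0, o => by
    rw [BC, pow_zero, Nat.Ico_succ_singleton, Finset.sum_singleton]
  | j + 1, o => by
    rw [BC, bz_xor, BC_bz c j o, BC_bz c j (o + 2 ^ j),
      Finset.sum_Ico_consecutive _ (Nat.le_add_right _ _) (Nat.le_add_right _ _)]
    congr 2
    rw [pow_succ]
    omega

/-- The line of a block of vertices. -/
theorem pp_block (hK : Sim (ucRules Δ) S Γ K s) (hK1 : 1 ≤ K) (x : ℕ → V) (h : ℕ)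
    (hs : cD Δ h ≤ s) (I : ℕ → List ℕ) (hI : ∀ v, ∀ i ∈ I v, i < 2 ^ h)
    (hl : ∀ v, (I v).length ≤ Δ) (c : ℕ → Bool)
    (hΓ : ∀ v, ∀ α : List Bool, α.length = (I v).length → psum α ≠ bz (c v) →
      ctx x (I v) α ∈ Γ) : ∀ j o, 18 * 2 ^ h * (2 ^ j * Δ) + 10 ≤ s →
    TR S Γ (K * s) Y {sg (pp x (BF I j o) h 0) (BC c j o)}
      (K * (2 ^ j * ((2 * Δ + 4) * cD Δ h + j * (20 + 74 * (2 ^ h * Δ)))))
  | 0, o, _ => by
    rw [pow_zero, one_mul, zero_mul, add_zero]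
    exact pp_vertex hK hK1 x h hs (I o) (hI o) (hl o) (c o) (hΓ o)
  | j + 1, o, hj => by
    have e1 : 18 * 2 ^ h * (2 ^ (j + 1) * Δ) =
        18 * 2 ^ h * (2 ^ j * Δ) + 18 * 2 ^ h * (2 ^ j * Δ) := by
      rw [pow_succ]
      ring
    have ih1 := pp_block hK hK1 x h hs I hI hl c hΓ j o (by omega)
    have ih2 := pp_block hK hK1 x h hs I hI hl c hΓ j (o + 2 ^ j) (by omega)
    have w1 := wt_BF (I := I) hl h j o
    have w2 := wt_BF (I := I) hl h j (o + 2 ^ j)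
    have hw : 18 * 2 ^ h * (wt (BF I j o) h 0 + wt (BF I j (o + 2 ^ j)) h 0) ≤
        18 * 2 ^ h * (2 ^ j * Δ) + 18 * 2 ^ h * (2 ^ j * Δ) := by
      rw [← Nat.mul_add]
      exact Nat.mul_le_mul_left _ (by omega)
    have h1 := pp_add (Y := Y) hK x (BF I j o) (BF I j (o + 2 ^ j)) h 0 (by omega)
    have s1 : (T3 (pp x (BF I (j + 1) o) h 0) (pp x (BF I j o) h 0)
        (pp x (BF I j (o + 2 ^ j)) h 0)).size ≤
        18 * 2 ^ h * (wt (BF I j o) h 0 + wt (BF I j (o + 2 ^ j)) h 0) + 10 :=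
      size_T3_pp x (BF I j o) (BF I j (o + 2 ^ j)) h 0
    refine (TR.comb3 h1 ih1 ih2 (m' := K * (18 * 2 ^ h * (2 ^ (j + 1) * Δ) + 10)) ?_).mono
      le_rfl le_rfl ?_
    · intro Z hZ1 hZ2 hZ3
      exact use_merge (t := 18 * 2 ^ h * (2 ^ (j + 1) * Δ) + 10) hK _ _ (by omega) hj hZ1 hZ2 hZ3
        (by omega)
    · rw [← Nat.mul_add, ← Nat.mul_add, ← Nat.mul_add]
      refine Nat.mul_le_mul_left _ ?_
      have e2 : 56 * 2 ^ h * (wt (BF I j o) h 0 + wt (BF I j (o + 2 ^ j)) h 0) ≤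
          56 * 2 ^ h * (2 ^ (j + 1) * Δ) := by
        refine Nat.mul_le_mul_left _ ?_
        rw [pow_succ]
        have : 2 ^ j * 2 * Δ = 2 ^ j * Δ + 2 ^ j * Δ := by ring
        omega
      have e3 : 1 ≤ 2 ^ (j + 1) := Nat.one_le_two_pow
      have e4 : 2 ^ (j + 1) * ((2 * Δ + 4) * cD Δ h + (j + 1) * (20 + 74 * (2 ^ h * Δ))) =
          (2 ^ j * ((2 * Δ + 4) * cD Δ h + j * (20 + 74 * (2 ^ h * Δ)))) +
          (2 ^ j * ((2 * Δ + 4) * cD Δ h + j * (20 + 74 * (2 ^ h * Δ)))) +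
          20 * 2 ^ (j + 1) + 56 * 2 ^ h * (2 ^ (j + 1) * Δ) + 18 * 2 ^ h * (2 ^ (j + 1) * Δ) := by
        rw [pow_succ]
        ring
      rw [e4]
      omega

/-- The whole refutation. -/
theorem pp_all (hK : Sim (ucRules Δ) S Γ K s) (hK1 : 1 ≤ K) (x : ℕ → V) (h : ℕ)
    (hs : 2 ^ h * 2 ^ h * (74 * (Δ + 1) + 6 * 2 ^ Δ) ≤ s) (I : ℕ → List ℕ)
    (hI : ∀ v, ∀ i ∈ I v, i < 2 ^ h)
    (hl : ∀ v, (I v).length ≤ Δ) (c : ℕ → Bool)
    (hΓ : ∀ v, ∀ α : List Bool, α.length = (I v).length → psum α ≠ bz (c v) →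
      ctx x (I v) α ∈ Γ) (h1 : wt (BF I h 0) h 0 = 0) (h2 : BC c h 0 = true) :
    TR S Γ (K * s) Y {ff}
      (K * (2 ^ h * 2 ^ h * ((2 * Δ + 5) * (74 * (Δ + 1) + 6 * 2 ^ Δ)) * (h + 1))) := by
  have hh : 1 ≤ 2 ^ h := Nat.one_le_two_pow
  have hhh : 2 ^ h ≤ 2 ^ h * 2 ^ h := Nat.le_mul_of_pos_left _ (by omega)
  have a1 : cD Δ h ≤ s := by
    refine le_trans ?_ hs
    unfold cD
    exact Nat.mul_le_mul_right _ hhh
  have a2 : 18 * 2 ^ h * (2 ^ h * Δ) + 10 ≤ s := by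
    refine le_trans ?_ hs
    have e1 : 2 ^ h * 2 ^ h * (74 * (Δ + 1) + 6 * 2 ^ Δ) =
        74 * (2 ^ h * 2 ^ h * Δ) + 74 * (2 ^ h * 2 ^ h) + 6 * (2 ^ h * 2 ^ h * 2 ^ Δ) := by ring
    have e2 : 18 * 2 ^ h * (2 ^ h * Δ) = 18 * (2 ^ h * 2 ^ h * Δ) := by ring
    omega
  have h3 := pp_block (Y := Y) hK hK1 x h a1 I hI hl c hΓ h 0 a2
  rw [pp_ff x h1, h2] at h3
  refine h3.mono le_rfl le_rfl (Nat.mul_le_mul_left _ ?_)
  have e3 : 20 + 74 * (2 ^ h * Δ) ≤ 2 ^ h * (74 * (Δ + 1) + 6 * 2 ^ Δ) := by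
    have : 2 ^ h * (74 * (Δ + 1) + 6 * 2 ^ Δ) =
        74 * (2 ^ h * Δ) + 74 * 2 ^ h + 6 * (2 ^ h * 2 ^ Δ) := by ring
    omega
  calc 2 ^ h * ((2 * Δ + 4) * cD Δ h + h * (20 + 74 * (2 ^ h * Δ)))
      ≤ 2 ^ h * ((2 * Δ + 4) * (2 ^ h * (74 * (Δ + 1) + 6 * 2 ^ Δ)) +
          h * (2 ^ h * (74 * (Δ + 1) + 6 * 2 ^ Δ))) := by
        unfold cD
        gcongr
    _ = 2 ^ h * 2 ^ h * ((2 * Δ + 4 + h) * (74 * (Δ + 1) + 6 * 2 ^ Δ)) := by ring
    _ ≤ 2 ^ h * 2 ^ h * (((2 * Δ + 5) * (h + 1)) * (74 * (Δ + 1) + 6 * 2 ^ Δ)) := by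
        gcongr
        nlinarith [Nat.zero_le (Δ * h), Nat.zero_le h]
    _ = 2 ^ h * 2 ^ h * ((2 * Δ + 5) * (74 * (Δ + 1) + 6 * 2 ^ Δ)) * (h + 1) := by ring

end Pool.Agent.MP_9cec2c_lc.SL.Ub
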