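import Pool.Agent.Lib.MP_9cec2c_lc.SL.UcD

/-!
Campaign SL, upper bound for the total size, part E (helper84): the Tseitin formulas of multigraphs of
bounded degree have refutations of total size `C N ^ 2 log N`, for every implicationally complete set of
rules.
-/

set_option autoImplicit false

open Finset

namespace Pool.Agent.MP_9cec2c_lc.SL

namespace Ub

open Form

/-- From reversed lists to derivations, with the total size. -/
theorem Chain.isDerivation_size {X : Type} {S : Set Rule} {Γ : Set (Form X)} {l : List (Form X)}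
    (h : Chain S Γ ∅ l) : ∃ L : Fin l.length → Form X, IsDerivation S Γ L ∧
      (∀ φ ∈ l, ∃ i, L i = φ) ∧ (∀ i, L i ∈ l) ∧ ∑ i, (L i).size = tsz l := by
  induction h with
  | nil => exact ⟨Fin.elim0, fun i => i.elim0, by simp, fun i => i.elim0, by simp [tsz]⟩
  | @cons φ l _ hst ih =>
    obtain ⟨L, h1, h2, h3, h0⟩ := ih
    refine ⟨(Fin.snoc L φ : Fin (l.length + 1) → Form X), ?_, ?_, ?_, ?_⟩
    · intro i
      refine Fin.lastCases ?_ (fun i => ?_) i
      · rw [Fin.snoc_last]
        rcases hst with h4 | ⟨R, hR, σ, h5, h6⟩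
        · exact Or.inl h4
        · refine Or.inr ⟨R, hR, σ, h5, fun P hP => ?_⟩
          have h7 : P.subst σ ∈ l := by simpa using h6 P hP
          obtain ⟨j, hj⟩ := h2 _ h7
          exact ⟨j.castSucc, Fin.castSucc_lt_last j, by rw [Fin.snoc_castSucc, hj]⟩
      · rw [Fin.snoc_castSucc]
        rcases h1 i with h4 | ⟨R, hR, σ, h5, h6⟩
        · exact Or.inl h4
        · refine Or.inr ⟨R, hR, σ, h5, fun P hP => ?_⟩
          obtain ⟨j, hj, hj'⟩ := h6 P hP
          exact ⟨j.castSucc, by simpa using hj, by rw [Fin.snoc_castSucc, hj']⟩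
    · intro ψ hψ
      rcases List.mem_cons.mp hψ with rfl | hψ
      · exact ⟨Fin.last _, Fin.snoc_last _ _⟩
      · obtain ⟨j, hj⟩ := h2 ψ hψ
        exact ⟨j.castSucc, by rw [Fin.snoc_castSucc, hj]⟩
    · intro i
      refine Fin.lastCases ?_ (fun i => ?_) i
      · rw [Fin.snoc_last]
        exact List.mem_cons_self
      · rw [Fin.snoc_castSucc]
        exact List.mem_cons_of_mem _ (h3 i)
    · have h8 : tsz (φ :: l) = φ.size + tsz l := by simp [tsz]
      have h9 : ∑ i : Fin (l.length + 1), ((Fin.snoc L φ : Fin (l.length + 1) → Form X) i).size =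
          ∑ i : Fin l.length, (L i).size + φ.size := by
        rw [Fin.sum_univ_castSucc]
        simp only [Fin.snoc_castSucc, Fin.snoc_last]
      rw [h8, ← h0, add_comm φ.size]
      exact h9

theorem wt_eq_zero {f : ℕ → ZMod 2} : ∀ (k o : ℕ), (∀ i, o ≤ i → i < o + 2 ^ k → f i = 0) →
    wt f k o = 0
  | 0, o, h => by
    rw [wt, if_pos (h o le_rfl (by simp))]
  | k + 1, o, h => by
    rw [pow_succ] at h
    rw [wt, wt_eq_zero k o fun i h1 h2 => h i h1 (by omega),
      wt_eq_zero k (o + 2 ^ k) fun i h1 h2 => h i (by omega) (by omega)]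

theorem sum_dite {n M : ℕ} (hn : n ≤ M) (g : Fin n → ZMod 2) :
    ∑ v ∈ Ico 0 M, (if hv : v < n then g ⟨v, hv⟩ else 0) = ∑ v : Fin n, g v := by
  rw [← Finset.sum_subset (s₁ := Finset.range n)]
  · rw [Finset.sum_range]
    refine Finset.sum_congr rfl fun v _ => ?_
    rw [dif_pos v.2]
  · intro v hv
    rw [Finset.mem_range] at hv
    rw [Finset.mem_Ico]
    omega
  · intro v _ hv
    rw [Finset.mem_range] at hv
    rw [dif_neg hv]

variable {V E : Type} [Fintype V] [Fintype E]

theorem upper_nat_total (G : MG V E) {Δ h K s : ℕ} {S : Set Rule} (hK1 : 1 ≤ K)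
    (hG : G.DegLE Δ) (γ : V → ZMod 2) (hγ : ∑ v, γ v = 1)
    (hK : Sim (ucRules Δ) S {φ | ∃ C ∈ G.tseitin γ, φ = clause C} K s)
    (hs : 2 ^ h * 2 ^ h * (74 * (Δ + 1) + 6 * 2 ^ Δ) ≤ s)
    (hE : Fintype.card E ≤ 2 ^ h) (hV : Fintype.card V ≤ 2 ^ h) :
    ∃ (l : ℕ) (L : Fin l → Form E),
      IsDerivation S {φ | ∃ C ∈ G.tseitin γ, φ = clause C} L ∧ (∃ i, L i = ff) ∧
      (∀ i, (L i).size ≤ K * s) ∧ ∑ i, (L i).size ≤
        K * (2 ^ h * 2 ^ h * ((2 * Δ + 5) * (74 * (Δ + 1) + 6 * 2 ^ Δ)) * (h + 1)) := by
  classical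
  set Γ : Set (Form E) := {φ | ∃ C ∈ G.tseitin γ, φ = clause C} with hΓ
  have h1s : 1 ≤ s := by
    refine le_trans ?_ hs
    have h1 : 1 ≤ 2 ^ h := Nat.one_le_two_pow
    calc 1 = 1 * 1 * 1 := rfl
      _ ≤ 2 ^ h * 2 ^ h * (74 * (Δ + 1) + 6 * 2 ^ Δ) := by
        gcongr
        omega
  have key : TR S Γ (K * s) ∅ {ff}
      (K * (2 ^ h * 2 ^ h * ((2 * Δ + 5) * (74 * (Δ + 1) + 6 * 2 ^ Δ)) * (h + 1))) := by
    have mem_cl : ∀ (v : V) (T : Finset E), T ⊆ G.inc v → (T.card : ZMod 2) ≠ γ v →
        clause ((G.inc v).toList.map fun e => (e, decide (e ∉ T))) ∈ Γ := by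
      intro v T hT hc
      refine ⟨_, ?_, rfl⟩
      unfold MG.tseitin
      rw [List.mem_flatMap]
      refine ⟨v, by simp, ?_⟩
      unfold MG.vclauses
      rw [List.mem_map]
      refine ⟨T, ?_, ?_⟩
      · simp [hT, hc]
      · refine List.map_congr_left fun e _ => ?_
        congr
    rcases isEmpty_or_nonempty E with hE0 | hE0
    · -- no edges: a clause is empty
      obtain ⟨v, hv⟩ : ∃ v, γ v ≠ 0 := by
        by_contra hcon
        push Not at hcon
        rw [Finset.sum_eq_zero fun v _ => hcon v] at hγ
        exact zero_ne_one hγ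
      have h1 := mem_cl v ∅ (Finset.empty_subset _)
        (by rw [Finset.card_empty, Nat.cast_zero]; exact fun h => hv h.symm)
      have h2 : (G.inc v).toList = [] := by
        rw [Finset.toList_eq_nil]
        exact Finset.eq_empty_of_isEmpty _
      rw [h2, List.map_nil] at h1
      have h3 : clause ([] : List (E × Bool)) = ff := rfl
      rw [h3] at h1
      have h4 := TR.axioms (S := S) (Γ := Γ) (s := K * s) (X := ∅) [(ff : Form E)]
        (by simpa using h1) (by
          intro φ hφ
          rw [List.mem_singleton] at hφ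
          subst hφ
          rw [Form.size]
          nlinarith)
      refine h4.mono le_rfl (by intro φ hφ; simpa using hφ) ?_
      have h5 : tsz [(ff : Form E)] = 1 := by simp [tsz, Form.size]
      rw [h5]
      have : 0 < K * (2 ^ h * 2 ^ h * ((2 * Δ + 5) * (74 * (Δ + 1) + 6 * 2 ^ Δ)) * (h + 1)) := by
        have hK0 : 0 < K := hK1
        positivity
      omega
    · let eq := Fintype.equivFin E
      let idx : E → ℕ := fun e => (eq e : ℕ)
      let x : ℕ → E := fun i => if h : i < Fintype.card E then eq.symm ⟨i, h⟩ else Classical.arbitrary E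
      have hidx : ∀ e, idx e < Fintype.card E := fun e => (eq e).2
      have hx : ∀ e, x (idx e) = e := by
        intro e
        simp only [x, dif_pos (hidx e), idx, Fin.eta, Equiv.symm_apply_apply]
      have hinj : Function.Injective idx := fun a b h => by rw [← hx a, ← hx b, h]
      let ev := Fintype.equivFin V
      let I : ℕ → List ℕ := fun v => if hv : v < Fintype.card V then
        (G.inc (ev.symm ⟨v, hv⟩)).toList.map idx else []
      let c : ℕ → Bool := fun v => if hv : v < Fintype.card V then
        decide (γ (ev.symm ⟨v, hv⟩) = 1) else false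
      have hI : ∀ v, ∀ i ∈ I v, i < 2 ^ h := by
        intro v i hi
        simp only [I] at hi
        split_ifs at hi with hv
        · obtain ⟨e, _, rfl⟩ := List.mem_map.mp hi
          exact (hidx e).trans_le hE
        · simp at hi
      have hl : ∀ v, (I v).length ≤ Δ := by
        intro v
        simp only [I]
        split_ifs with hv
        · rw [List.length_map, Finset.length_toList]
          exact inc_card G hG _
        · simp
      have hbz : ∀ a : ZMod 2, bz (decide (a = 1)) = a := by decide
      have hcl : ∀ v, ∀ α : List Bool, α.length = (I v).length → psum α ≠ bz (c v) →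
          ctx x (I v) α ∈ Γ := by
        intro v' α hα hne
        by_cases hv : v' < Fintype.card V
        · set v := ev.symm ⟨v', hv⟩ with hvdef
          have hIv : I v' = (G.inc v).toList.map idx := by
            simp only [I]
            rw [dif_pos hv]
          have hcv : bz (c v') = γ v := by
            simp only [c]
            rw [dif_pos hv, hbz]
          rw [hIv] at hα ⊢
          rw [hcv] at hne
          obtain ⟨f, hf⟩ := exists_map (G.inc v).toList (Finset.nodup_toList _) α
            (by rw [hα, List.length_map])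
          set T := (G.inc v).filter fun e => f e = true with hT
          have hcard : (T.card : ZMod 2) = psum α := by
            rw [← hf, psum_map, Finset.sum_map_toList, hT, Finset.card_filter]
            push_cast
            rfl
          have h1 := mem_cl v T (Finset.filter_subset _ _) (by rw [hcard]; exact hne)
          have h2 : ((G.inc v).toList.map fun e => (e, decide (e ∉ T))) =
              (G.inc v).toList.map fun e => (e, !f e) := by
            refine List.map_congr_left fun e he => ?_
            rw [Finset.mem_toList] at he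
            congr 1
            rw [hT]
            simp only [Finset.mem_filter, he, true_and]
            cases f e <;> simp
          rw [h2, clause_eq x idx hx, hf] at h1
          exact h1
        · exfalso
          have hIv : I v' = [] := by
            simp only [I]
            rw [dif_neg hv]
          have hcv : c v' = false := by
            simp only [c]
            rw [dif_neg hv]
          rw [hIv, List.length_nil, List.length_eq_zero_iff] at hα
          apply hne
          rw [hα, hcv]
          rfl
      have hwt : wt (BF I h 0) h 0 = 0 := by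
        refine wt_eq_zero h 0 fun i _ _ => ?_
        rw [BF_apply, zero_add]
        have h2 : ∀ v ∈ Ico 0 (2 ^ h), ((I v).count i : ZMod 2) =
            if hv : v < Fintype.card V then
              (fun w : Fin (Fintype.card V) =>
                ((((G.inc (ev.symm w)).toList.map idx).count i : ℕ) : ZMod 2)) ⟨v, hv⟩ else 0 := by
          intro v _
          simp only [I]
          split_ifs with hv
          · rfl
          · simp
        refine (Finset.sum_congr rfl h2).trans ((sum_dite hV (fun w : Fin (Fintype.card V) =>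
          ((((G.inc (ev.symm w)).toList.map idx).count i : ℕ) : ZMod 2))).trans ?_)
        rw [Equiv.sum_comp ev.symm
          (fun w : V => ((((G.inc w).toList.map idx).count i : ℕ) : ZMod 2))]
        by_cases h3 : ∃ e, idx e = i
        · obtain ⟨e, rfl⟩ := h3
          rw [← sum_inc G e]
          refine Finset.sum_congr rfl fun v _ => ?_
          rw [List.count_map_of_injective _ _ hinj]
          by_cases h4 : e ∈ G.inc v
          · rw [if_pos h4, List.count_eq_one_of_mem (Finset.nodup_toList _)
              (Finset.mem_toList.mpr h4), Nat.cast_one]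
          · rw [if_neg h4, List.count_eq_zero_of_not_mem (fun h5 => h4 (Finset.mem_toList.mp h5)),
              Nat.cast_zero]
        · refine Finset.sum_eq_zero fun v _ => ?_
          rw [List.count_eq_zero_of_not_mem, Nat.cast_zero]
          intro h4
          obtain ⟨e, _, h5⟩ := List.mem_map.mp h4
          exact h3 ⟨e, h5⟩
      have hc : BC c h 0 = true := by
        have h1 : bz (BC c h 0) = 1 := by
          rw [BC_bz, zero_add]
          have h2 : ∀ v ∈ Ico 0 (2 ^ h), bz (c v) = if hv : v < Fintype.card V then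
              (fun w : Fin (Fintype.card V) => γ (ev.symm w)) ⟨v, hv⟩ else 0 := by
            intro v _
            simp only [c]
            split_ifs with hv
            · exact hbz _
            · rfl
          refine (Finset.sum_congr rfl h2).trans ((sum_dite hV
            (fun w : Fin (Fintype.card V) => γ (ev.symm w))).trans ?_)
          rw [Equiv.sum_comp ev.symm γ]
          exact hγ
        revert h1
        cases BC c h 0
        · intro h1
          exact absurd h1 (by simp [bz])
        · intro _
          rfl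
      exact pp_all hK hK1 x h hs I hI hl c hcl hwt hc
  obtain ⟨l, h1, h2, h3, h4⟩ := key
  obtain ⟨L, h5, h6, h7, h8⟩ := h1.isDerivation_size
  refine ⟨l.length, L, h5, h6 _ ?_, fun i => h3 _ (h7 i), by rw [h8]; exact h2⟩
  simpa using h4 (Set.mem_singleton (ff : Form E))

end Ub

/-- The upper bound for the total size, for every implicationally complete set of rules. -/
theorem upper_total (Δ : ℕ) (S : Set Rule) (hS : ImplComplete S) : ∃ C : ℕ,
    ∀ (V E : Type) [Fintype V] [Fintype E] (G : MG V E) (γ : V → ZMod 2) (N : ℕ), G.DegLE Δ →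
      ∑ v, γ v = 1 → Fintype.card V ≤ N → Fintype.card E ≤ N →
      ∃ (l : ℕ) (L : Fin l → Form E),
        IsDerivation S {φ | ∃ C ∈ G.tseitin γ, φ = clause C} L ∧ (∃ i, L i = Form.ff) ∧
        (∀ i, (L i).size ≤ C * N ^ 2) ∧
        ∑ i, (L i).size ≤ C * N ^ 2 * (Nat.log 2 N + 1) := by
  obtain ⟨K, hK1, hK⟩ := Ub.exists_sim hS (Ub.ucRules_finite Δ) (Ub.ucRules_sound Δ)
  refine ⟨8 * K * ((2 * Δ + 5) * (74 * (Δ + 1) + 6 * 2 ^ Δ)), ?_⟩
  intro V E _ _ G γ N hG hγ hV hE
  have hN1 : 1 ≤ N := Ub.one_le hγ hV
  obtain ⟨h, hh1, hh2⟩ := Ub.exists_k (b := 1) le_rfl hN1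
  rw [one_mul] at hh1 hh2
  have hlog : h ≤ Nat.log 2 N + 1 := by
    rcases Nat.eq_zero_or_pos h with h0 | h0
    · omega
    · have h1 : 2 ^ (h - 1) ≤ N := by
        obtain ⟨j, rfl⟩ : ∃ j, h = j + 1 := ⟨h - 1, by omega⟩
        rw [pow_succ] at hh2
        rw [Nat.add_sub_cancel]
        omega
      have := Nat.le_log_of_pow_le (by norm_num) h1
      omega
  set A := 74 * (Δ + 1) + 6 * 2 ^ Δ with hA
  obtain ⟨l, L, h1, h2, h3, h4⟩ := Ub.upper_nat_total G hK1 hG γ hγ
    (hK E {φ | ∃ C ∈ G.tseitin γ, φ = clause C} (2 ^ h * 2 ^ h * A)) le_rfl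
    (hE.trans hh1) (hV.trans hh1)
  have h5 : 2 ^ h * 2 ^ h ≤ 4 * N ^ 2 := by
    calc 2 ^ h * 2 ^ h ≤ (2 * N) * (2 * N) := Nat.mul_le_mul hh2 hh2
      _ = 4 * N ^ 2 := by ring
  refine ⟨l, L, h1, h2, fun i => (h3 i).trans ?_, h4.trans ?_⟩
  · calc K * (2 ^ h * 2 ^ h * A) ≤ K * (4 * N ^ 2 * A) := by gcongr
      _ = 4 * K * (1 * A) * N ^ 2 := by ring
      _ ≤ 8 * K * ((2 * Δ + 5) * A) * N ^ 2 := by
        gcongr
        · norm_num
        · omega
  · calc K * (2 ^ h * 2 ^ h * ((2 * Δ + 5) * A) * (h + 1))
        ≤ K * (4 * N ^ 2 * ((2 * Δ + 5) * A) * (2 * (Nat.log 2 N + 1))) := by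
          gcongr
          omega
      _ = 8 * K * ((2 * Δ + 5) * A) * N ^ 2 * (Nat.log 2 N + 1) := by ring

end Pool.Agent.MP_9cec2c_lc.SL
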