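import Pool.Agent.Lib.MP_9cec2c_lc.SL.UcE

/-!
Campaign SL (helper84): there is a finite set of sound rules that is implicationally complete
(Kalmár's argument).
-/

set_option autoImplicit false

open Finset

namespace Pool.Agent.MP_9cec2c_lc.SL

namespace Ub

open Form

variable {V : Type}

/-- Derivable formulas. -/
inductive Dv (S : Set Rule) (Φ : Set (Form V)) : Form V → Prop
  | base (φ : Form V) (h : φ ∈ Φ) : Dv S Φ φ
  | rule (R : Rule) (hR : R ∈ S) (σ : ℕ → Form V) (h : ∀ p ∈ R.prems, Dv S Φ (p.subst σ)) :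
      Dv S Φ (R.concl.subst σ)

theorem Dv.chain {S : Set Rule} {Φ : Set (Form V)} {φ : Form V} (h : Dv S Φ φ) :
    ∃ l : List (Form V), Chain S Φ ∅ l ∧ φ ∈ l := by
  induction h with
  | base φ h => exact ⟨[φ], Chain.cons Chain.nil (Or.inl h), List.mem_cons_self⟩
  | rule R hR σ _ ih =>
    have key : ∀ L : List (Form ℕ), (∀ p ∈ L, ∃ l : List (Form V), Chain S Φ ∅ l ∧
        p.subst σ ∈ l) → ∃ l : List (Form V), Chain S Φ ∅ l ∧ ∀ p ∈ L, p.subst σ ∈ l := by
      intro L
      induction L with
      | nil => exact fun _ => ⟨[], Chain.nil, by simp⟩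
      | cons p L ihL =>
        intro hL
        obtain ⟨l1, h1, h2⟩ := ihL fun q hq => hL q (List.mem_cons_of_mem _ hq)
        obtain ⟨l2, h3, h4⟩ := hL p List.mem_cons_self
        refine ⟨l2 ++ l1, h1.append (Set.empty_subset _) h3, ?_⟩
        intro q hq
        rcases List.mem_cons.mp hq with rfl | hq
        · exact List.mem_append_left _ h4
        · exact List.mem_append_right _ (h2 q hq)
    obtain ⟨l, h1, h2⟩ := key R.prems ih
    refine ⟨R.concl.subst σ :: l, Chain.cons h1 (Or.inr ⟨R, hR, σ, rfl, fun p hp => ?_⟩),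
      List.mem_cons_self⟩
    exact Or.inr (h2 p hp)

/-- The rules of the complete system; the context is the variable 0. -/
def kRules : Set Rule :=
  {⟨[or (var 1) (var 2)], or (or (var 0) (var 1)) (var 2)⟩, ⟨[], or (var 0) tt⟩,
    ⟨[], or (var 0) (neg ff)⟩, ⟨[or (var 0) (var 1)], or (var 0) (neg (neg (var 1)))⟩,
    ⟨[or (var 0) (neg (var 1)), var 1], or (var 0) (var 2)⟩,
    ⟨[or (or (var 0) (var 1)) (var 2), or (or (neg (var 0)) (var 1)) (var 2)],
      or (var 1) (var 2)⟩, ⟨[or ff (var 0)], var 0⟩} ∪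
  Set.range (fun c : Bool => (⟨[], or (or (sg (var 0) (!c)) (var 1)) (sg (var 0) c)⟩ : Rule)) ∪
  Set.range (fun p : Bool × Bool => (⟨[or (var 0) (sg (var 1) p.1), or (var 0) (sg (var 2) p.2)],
    or (var 0) (sg (and (var 1) (var 2)) (p.1 && p.2))⟩ : Rule)) ∪
  Set.range (fun p : Bool × Bool => (⟨[or (var 0) (sg (var 1) p.1), or (var 0) (sg (var 2) p.2)],
    or (var 0) (sg (or (var 1) (var 2)) (p.1 || p.2))⟩ : Rule)) ∪
  Set.range (fun p : Bool × Bool => (⟨[or (var 0) (sg (var 1) p.1), or (var 0) (sg (var 2) p.2)],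
    or (var 0) (sg (imp (var 1) (var 2)) (!p.1 || p.2))⟩ : Rule))

theorem kRules_finite : kRules.Finite := by
  unfold kRules
  refine Set.Finite.union ?_ (Set.finite_range _)
  refine Set.Finite.union ?_ (Set.finite_range _)
  refine Set.Finite.union ?_ (Set.finite_range _)
  exact (Set.toFinite _).union (Set.finite_range _)

theorem kRules_sound : ∀ R ∈ kRules, R.Sound := by
  rintro R ((((h | h) | h) | h) | h)
  · simp only [Set.mem_insert_iff, Set.mem_singleton_iff] at h
    rcases h with rfl | rfl | rfl | rfl | rfl | rfl | rfl <;>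
      intro x hx <;> simp [Form.eval] at hx ⊢ <;> grind
  · obtain ⟨c, rfl⟩ := h
    intro x _
    cases c <;> simp [Form.eval, sg] <;> grind
  · obtain ⟨⟨a, b⟩, rfl⟩ := h
    intro x hx
    cases a <;> cases b <;> simp [Form.eval, sg] at hx ⊢ <;> grind
  · obtain ⟨⟨a, b⟩, rfl⟩ := h
    intro x hx
    cases a <;> cases b <;> simp [Form.eval, sg] at hx ⊢ <;> grind
  · obtain ⟨⟨a, b⟩, rfl⟩ := h
    intro x hx
    cases a <;> cases b <;> simp [Form.eval, sg] at hx ⊢ <;> grind

variable {Φ : Set (Form V)}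

theorem k_weak {K B : Form V} (A : Form V) (h : Dv kRules Φ (or K B)) :
    Dv kRules Φ (or (or A K) B) := by
  have := Dv.rule (S := kRules) (Φ := Φ) ⟨[or (var 1) (var 2)], or (or (var 0) (var 1)) (var 2)⟩
    (Or.inl (Or.inl (Or.inl (Or.inl (by simp))))) (sub5 A K B ff ff) (by simpa [Form.subst, sub5] using h)
  exact this

theorem k_tt (K : Form V) : Dv kRules Φ (or K tt) :=
  Dv.rule (S := kRules) (Φ := Φ) ⟨[], or (var 0) tt⟩
    (Or.inl (Or.inl (Or.inl (Or.inl (by simp))))) (sub5 K ff ff ff ff) (by simp)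

theorem k_ff (K : Form V) : Dv kRules Φ (or K (neg ff)) :=
  Dv.rule (S := kRules) (Φ := Φ) ⟨[], or (var 0) (neg ff)⟩
    (Or.inl (Or.inl (Or.inl (Or.inl (by simp))))) (sub5 K ff ff ff ff) (by simp)

theorem k_neg {K A : Form V} (h : Dv kRules Φ (or K A)) : Dv kRules Φ (or K (neg (neg A))) :=
  Dv.rule (S := kRules) (Φ := Φ) ⟨[or (var 0) (var 1)], or (var 0) (neg (neg (var 1)))⟩
    (Or.inl (Or.inl (Or.inl (Or.inl (by simp))))) (sub5 K A ff ff ff)
    (by simpa [Form.subst, sub5] using h)

theorem k_close {K A : Form V} (C : Form V) (h1 : Dv kRules Φ (or K (neg A)))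
    (h2 : Dv kRules Φ A) : Dv kRules Φ (or K C) :=
  Dv.rule (S := kRules) (Φ := Φ) ⟨[or (var 0) (neg (var 1)), var 1], or (var 0) (var 2)⟩
    (Or.inl (Or.inl (Or.inl (Or.inl (by simp))))) (sub5 K A C ff ff)
    (by simpa [Form.subst, sub5] using ⟨h1, h2⟩)

theorem k_elim {A K C : Form V} (h1 : Dv kRules Φ (or (or A K) C))
    (h2 : Dv kRules Φ (or (or (neg A) K) C)) : Dv kRules Φ (or K C) :=
  Dv.rule (S := kRules) (Φ := Φ) ⟨[or (or (var 0) (var 1)) (var 2),
    or (or (neg (var 0)) (var 1)) (var 2)], or (var 1) (var 2)⟩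
    (Or.inl (Or.inl (Or.inl (Or.inl (by simp))))) (sub5 A K C ff ff)
    (by simpa [Form.subst, sub5] using ⟨h1, h2⟩)

theorem k_end {A : Form V} (h : Dv kRules Φ (or ff A)) : Dv kRules Φ A :=
  Dv.rule (S := kRules) (Φ := Φ) ⟨[or ff (var 0)], var 0⟩
    (Or.inl (Or.inl (Or.inl (Or.inl (by simp))))) (sub5 A ff ff ff ff)
    (by simpa [Form.subst, sub5] using h)

theorem k_em (A K : Form V) (c : Bool) : Dv kRules Φ (or (or (sg A (!c)) K) (sg A c)) := by
  have := Dv.rule (S := kRules) (Φ := Φ) ⟨[], or (or (sg (var 0) (!c)) (var 1)) (sg (var 0) c)⟩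
    (Or.inl (Or.inl (Or.inl (Or.inr ⟨c, rfl⟩)))) (sub5 A K ff ff ff) (by simp)
  simp only [Form.subst, sg_subst] at this
  exact this

theorem k_and {K A B : Form V} (a b : Bool) (h1 : Dv kRules Φ (or K (sg A a)))
    (h2 : Dv kRules Φ (or K (sg B b))) : Dv kRules Φ (or K (sg (and A B) (a && b))) := by
  have := Dv.rule (S := kRules) (Φ := Φ) ⟨[or (var 0) (sg (var 1) a), or (var 0) (sg (var 2) b)],
    or (var 0) (sg (and (var 1) (var 2)) (a && b))⟩
    (Or.inl (Or.inl (Or.inr ⟨(a, b), rfl⟩))) (sub5 K A B ff ff) (by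
      intro p hp
      simp only [List.mem_cons, List.not_mem_nil, or_false] at hp
      rcases hp with rfl | rfl
      · simp only [Form.subst, sg_subst]
        exact h1
      · simp only [Form.subst, sg_subst]
        exact h2)
  simp only [Form.subst, sg_subst] at this
  exact this

theorem k_or {K A B : Form V} (a b : Bool) (h1 : Dv kRules Φ (or K (sg A a)))
    (h2 : Dv kRules Φ (or K (sg B b))) : Dv kRules Φ (or K (sg (or A B) (a || b))) := by
  have := Dv.rule (S := kRules) (Φ := Φ) ⟨[or (var 0) (sg (var 1) a), or (var 0) (sg (var 2) b)],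
    or (var 0) (sg (or (var 1) (var 2)) (a || b))⟩
    (Or.inl (Or.inr ⟨(a, b), rfl⟩)) (sub5 K A B ff ff) (by
      intro p hp
      simp only [List.mem_cons, List.not_mem_nil, or_false] at hp
      rcases hp with rfl | rfl
      · simp only [Form.subst, sg_subst]
        exact h1
      · simp only [Form.subst, sg_subst]
        exact h2)
  simp only [Form.subst, sg_subst] at this
  exact this

theorem k_imp {K A B : Form V} (a b : Bool) (h1 : Dv kRules Φ (or K (sg A a)))
    (h2 : Dv kRules Φ (or K (sg B b))) : Dv kRules Φ (or K (sg (imp A B) (!a || b))) := by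
  have := Dv.rule (S := kRules) (Φ := Φ) ⟨[or (var 0) (sg (var 1) a), or (var 0) (sg (var 2) b)],
    or (var 0) (sg (imp (var 1) (var 2)) (!a || b))⟩
    (Or.inr ⟨(a, b), rfl⟩) (sub5 K A B ff ff) (by
      intro p hp
      simp only [List.mem_cons, List.not_mem_nil, or_false] at hp
      rcases hp with rfl | rfl
      · simp only [Form.subst, sg_subst]
        exact h1
      · simp only [Form.subst, sg_subst]
        exact h2)
  simp only [Form.subst, sg_subst] at this
  exact this

theorem k_var {Φ : Set (Form ℕ)} (x : ℕ → Bool) (j : ℕ) : ∀ I : List ℕ, j ∈ I →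
    Dv kRules Φ (or (ctx (fun i => i) I (I.map x)) (sg (var j) (x j)))
  | [], h => by simp at h
  | i :: I, h => by
    rw [List.map_cons, ctx]
    by_cases h1 : j = i
    · subst h1
      exact k_em _ _ _
    · refine k_weak _ (k_var x j I ?_)
      rcases List.mem_cons.mp h with h2 | h2
      · exact absurd h2 h1
      · exact h2

/-- Kalmár's lemma. -/
theorem kalmar {Φ : Set (Form ℕ)} (x : ℕ → Bool) (I : List ℕ) : ∀ A : Form ℕ,
    (∀ j, occ j A → j ∈ I) →
    Dv kRules Φ (or (ctx (fun i => i) I (I.map x)) (sg A (A.eval x)))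
  | .var j, h => k_var x j I (h j rfl)
  | .tt, _ => k_tt _
  | .ff, _ => k_ff _
  | .neg A, h => by
    have ih := kalmar (Φ := Φ) x I A h
    rw [Form.eval]
    cases hA : A.eval x
    · rw [hA] at ih
      exact ih
    · rw [hA] at ih
      exact k_neg ih
  | .and A B, h =>
    k_and _ _ (kalmar x I A fun j hj => h j (Or.inl hj)) (kalmar x I B fun j hj => h j (Or.inr hj))
  | .or A B, h =>
    k_or _ _ (kalmar x I A fun j hj => h j (Or.inl hj)) (kalmar x I B fun j hj => h j (Or.inr hj))
  | .imp A B, h =>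
    k_imp _ _ (kalmar x I A fun j hj => h j (Or.inl hj)) (kalmar x I B fun j hj => h j (Or.inr hj))

theorem k_elim_all {Φ : Set (Form ℕ)} {C : Form ℕ} : ∀ I : List ℕ,
    (∀ α : List Bool, α.length = I.length → Dv kRules Φ (or (ctx (fun i => i) I α) C)) →
    Dv kRules Φ C
  | [], h => by
    have h1 := h [] rfl
    rw [ctx] at h1
    · exact k_end h1
    · simp
  | i :: I, h => by
    refine k_elim_all I fun α hα => ?_
    have h1 := h (false :: α) (by simpa using hα)
    have h2 := h (true :: α) (by simpa using hα)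
    exact k_elim h1 h2

theorem exists_bound : ∀ A : Form ℕ, ∃ n : ℕ, ∀ j, occ j A → j < n
  | .var i => ⟨i + 1, fun j hj => by
      have h : i = j := hj
      omega⟩
  | .tt => ⟨0, fun _ h => h.elim⟩
  | .ff => ⟨0, fun _ h => h.elim⟩
  | .neg A => exists_bound A
  | .and A B => by
    obtain ⟨n, hn⟩ := exists_bound A
    obtain ⟨m, hm⟩ := exists_bound B
    refine ⟨max n m, fun j hj => ?_⟩
    rcases hj with h | h
    · exact (hn j h).trans_le (le_max_left _ _)
    · exact (hm j h).trans_le (le_max_right _ _)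
  | .or A B => by
    obtain ⟨n, hn⟩ := exists_bound A
    obtain ⟨m, hm⟩ := exists_bound B
    refine ⟨max n m, fun j hj => ?_⟩
    rcases hj with h | h
    · exact (hn j h).trans_le (le_max_left _ _)
    · exact (hm j h).trans_le (le_max_right _ _)
  | .imp A B => by
    obtain ⟨n, hn⟩ := exists_bound A
    obtain ⟨m, hm⟩ := exists_bound B
    refine ⟨max n m, fun j hj => ?_⟩
    rcases hj with h | h
    · exact (hn j h).trans_le (le_max_left _ _)
    · exact (hm j h).trans_le (le_max_right _ _)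

theorem exists_bound_list (L : List (Form ℕ)) : ∃ n : ℕ, ∀ A ∈ L, ∀ j, occ j A → j < n := by
  induction L with
  | nil => exact ⟨0, by simp⟩
  | cons A L ih =>
    obtain ⟨n, hn⟩ := ih
    obtain ⟨m, hm⟩ := exists_bound A
    refine ⟨max m n, fun B hB j hj => ?_⟩
    rcases List.mem_cons.mp hB with rfl | hB
    · exact (hm j hj).trans_le (le_max_left _ _)
    · exact (hn B hB j hj).trans_le (le_max_right _ _)

theorem kRules_complete : ImplComplete kRules := by
  intro R hR
  obtain ⟨n, hn⟩ := exists_bound_list (R.concl :: R.prems)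
  have key : Dv kRules {P | P ∈ R.prems} R.concl := by
    refine k_elim_all (List.range n) fun α hα => ?_
    obtain ⟨x, hx⟩ := exists_map (List.range n) List.nodup_range α hα
    rw [← hx]
    cases hc : R.concl.eval x
    · -- a premise is false
      obtain ⟨P, hP, hPx⟩ : ∃ P ∈ R.prems, P.eval x = false := by
        by_contra hcon
        push Not at hcon
        have := hR x fun P hP => by simpa using hcon P hP
        rw [hc] at this
        exact Bool.false_ne_true this
      have h1 := kalmar (Φ := {P | P ∈ R.prems}) x (List.range n) P fun j hj =>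
        List.mem_range.mpr (hn P (List.mem_cons_of_mem _ hP) j hj)
      rw [hPx] at h1
      exact k_close _ h1 (Dv.base _ hP)
    · have h1 := kalmar (Φ := {P | P ∈ R.prems}) x (List.range n) R.concl fun j hj =>
        List.mem_range.mpr (hn _ List.mem_cons_self j hj)
      rw [hc] at h1
      exact h1
  obtain ⟨l, h1, h2⟩ := key.chain
  obtain ⟨L, h3, h4, -⟩ := h1.isDerivation
  exact ⟨l.length, L, h3, h4 _ h2⟩

end Ub

/-- There is a finite set of sound rules that is implicationally complete. -/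
theorem exists_frege : ∃ S : Set Rule, S.Finite ∧ (∀ R ∈ S, R.Sound) ∧ ImplComplete S :=
  ⟨Ub.kRules, Ub.kRules_finite, Ub.kRules_sound, Ub.kRules_complete⟩

end Pool.Agent.MP_9cec2c_lc.SL
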